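import Mathlib
import Pool.Agent.P.MP_ae2765_an.Defs

-- part Pool.Agent.P.MP_ae2765_an.Ang
section

/-! Prüfer angle toolkit for the linear system `x' = a y`, `y' = -b x`. -/

namespace Pool.Agent.HillD
open Real Set

/-- `θ` solves the Prüfer equation. -/
def IsAng (a b θ : ℝ → ℝ) : Prop :=
  ∀ x, HasDerivAt θ (a x * cos (θ x) ^ 2 + b x * sin (θ x) ^ 2) x

/-- `(x, y)` solves `x' = a y`, `y' = -b x`. -/
def IsLin (a b x y : ℝ → ℝ) : Prop :=
  ∀ t, HasDerivAt x (a t * y t) t ∧ HasDerivAt y (-(b t * x t)) t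

theorem IsAng.cont {a b θ : ℝ → ℝ} (h : IsAng a b θ) : Continuous θ :=
  continuous_iff_continuousAt.2 fun x => (h x).continuousAt

theorem IsLin.cont1 {a b x y : ℝ → ℝ} (h : IsLin a b x y) : Continuous x :=
  continuous_iff_continuousAt.2 fun t => (h t).1.continuousAt

theorem IsLin.cont2 {a b x y : ℝ → ℝ} (h : IsLin a b x y) : Continuous y :=
  continuous_iff_continuousAt.2 fun t => (h t).2.continuousAt

theorem rhs_sub (a b u v : ℝ) :
    a * cos u ^ 2 + b * sin u ^ 2 - (a * cos v ^ 2 + b * sin v ^ 2)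
      = (b - a) * sin (u + v) * sin (u - v) := by
  rw [sin_add, sin_sub]
  have h1 := sin_sq_add_cos_sq u
  have h2 := sin_sq_add_cos_sq v
  have e1 : cos u ^ 2 = 1 - sin u ^ 2 := by linarith
  have e2 : cos v ^ 2 = 1 - sin v ^ 2 := by linarith
  have : (sin u * cos v + cos u * sin v) * (sin u * cos v - cos u * sin v)
      = sin u ^ 2 * cos v ^ 2 - cos u ^ 2 * sin v ^ 2 := by ring
  rw [mul_assoc, this, e1, e2]; ring

theorem rhs_lip (a b : ℝ) (K : NNReal) (h : |b - a| ≤ K) :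
    LipschitzWith K (fun u => a * cos u ^ 2 + b * sin u ^ 2) := by
  refine LipschitzWith.of_dist_le_mul fun u v => ?_
  rw [Real.dist_eq, Real.dist_eq, rhs_sub, abs_mul, abs_mul]
  have h1 : |sin (u + v)| ≤ 1 := abs_sin_le_one _
  have h2 : |sin (u - v)| ≤ |u - v| := abs_sin_le_abs
  calc |b - a| * |sin (u + v)| * |sin (u - v)| ≤ K * 1 * |u - v| := by gcongr
    _ = K * |u - v| := by ring

theorem exists_bound {a b : ℝ → ℝ} (ha : Continuous a) (hb : Continuous b) (T : ℝ) :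
    ∃ K : NNReal, ∀ t ∈ Icc (-T) T, |a t| + |b t| ≤ K := by
  obtain ⟨C, hC⟩ := (isCompact_Icc (a := -T) (b := T)).exists_bound_of_continuousOn
    (f := fun t => |a t| + |b t|) (by fun_prop)
  refine ⟨⟨max C 0, le_max_right _ _⟩, fun t ht => ?_⟩
  have := hC t ht
  rw [Real.norm_eq_abs] at this
  exact (le_abs_self _).trans (this.trans (le_max_left _ _))

theorem exists_ang_loc {a b : ℝ → ℝ} (ha : Continuous a) (hb : Continuous b) (θ0 : ℝ) (T : ℝ)
    (hT : 0 < T) : ∃ θ : ℝ → ℝ, θ 0 = θ0 ∧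
      ∀ x ∈ Ioo (-T) T, HasDerivAt θ (a x * cos (θ x) ^ 2 + b x * sin (θ x) ^ 2) x := by
  obtain ⟨K, hK⟩ := exists_bound ha hb T
  have h0 : (0 : ℝ) ∈ Icc (-T) T := ⟨by linarith, hT.le⟩
  have hpl : IsPicardLindelof (fun t u => a t * cos u ^ 2 + b t * sin u ^ 2) (⟨0, h0⟩ : Icc (-T) T)
      θ0 (K * ⟨T, hT.le⟩) 0 K K := by
    refine ⟨fun t ht => (rhs_lip _ _ K ?_).lipschitzOnWith, fun u _ => by fun_prop,
      fun t ht u _ => ?_, ?_⟩
    · have := hK t ht
      have h2 := abs_sub (b t) (a t)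
      linarith
    · rw [Real.norm_eq_abs]
      have h1 : |a t * cos u ^ 2| ≤ |a t| := by
        rw [abs_mul, abs_of_nonneg (sq_nonneg (cos u))]
        exact mul_le_of_le_one_right (abs_nonneg _) (cos_sq_le_one u)
      have h2 : |b t * sin u ^ 2| ≤ |b t| := by
        rw [abs_mul, abs_of_nonneg (sq_nonneg (sin u))]
        exact mul_le_of_le_one_right (abs_nonneg _) (sin_sq_le_one u)
      have := hK t ht
      have h3 := abs_add_le (a t * cos u ^ 2) (b t * sin u ^ 2)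
      linarith
    · simp
      exact le_of_eq rfl
  obtain ⟨α, h1, h2⟩ := hpl.exists_eq_forall_mem_Icc_hasDerivWithinAt₀
  exact ⟨α, h1, fun x hx => (h2 x (Ioo_subset_Icc_self hx)).hasDerivAt (Icc_mem_nhds hx.1 hx.2)⟩

theorem exists_ang {a b : ℝ → ℝ} (ha : Continuous a) (hb : Continuous b) (θ0 : ℝ) :
    ∃ θ, IsAng a b θ ∧ θ 0 = θ0 := by
  have H : ∀ n : ℕ, ∃ θ : ℝ → ℝ, θ 0 = θ0 ∧ ∀ x ∈ Ioo (-((n : ℝ) + 1)) ((n : ℝ) + 1),
      HasDerivAt θ (a x * cos (θ x) ^ 2 + b x * sin (θ x) ^ 2) x :=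
    fun n => exists_ang_loc ha hb θ0 _ (by positivity)
  choose f hf0 hf using H
  have agree : ∀ n k : ℕ, n ≤ k → EqOn (f n) (f k) (Ioo (-((n : ℝ) + 1)) ((n : ℝ) + 1)) := by
    intro n k hnk
    obtain ⟨K, hK⟩ := exists_bound ha hb ((n : ℝ) + 1)
    have hc : (n : ℝ) ≤ k := by exact_mod_cast hnk
    have hn : (0 : ℝ) ≤ n := Nat.cast_nonneg n
    refine ODE_solution_unique_of_mem_Ioo (v := fun t u => a t * cos u ^ 2 + b t * sin u ^ 2)
      (s := fun _ => univ) (K := K) (t₀ := 0) (fun t ht => (rhs_lip _ _ K ?_).lipschitzOnWith)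
      ⟨by linarith, by linarith⟩ (fun t ht => ⟨hf n t ht, trivial⟩)
      (fun t ht => ⟨hf k t ⟨by linarith [ht.1], by linarith [ht.2]⟩, trivial⟩)
      (by rw [hf0, hf0])
    have := hK t (Ioo_subset_Icc_self ht)
    have h2 := abs_sub (b t) (a t)
    linarith
  have mem : ∀ y : ℝ, y ∈ Ioo (-((⌈|y|⌉₊ : ℝ) + 1)) ((⌈|y|⌉₊ : ℝ) + 1) := by
    intro y
    have := Nat.le_ceil |y|
    have h1 := le_abs_self y
    have h2 := neg_abs_le y
    constructor <;> linarith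
  refine ⟨fun y => f ⌈|y|⌉₊ y, fun x => ?_, hf0 _⟩
  set N := ⌈|x|⌉₊ + 1 with hN
  have hev : (fun y => f ⌈|y|⌉₊ y) =ᶠ[nhds x] f N := by
    filter_upwards [Ioo_mem_nhds (show x - 1 < x by linarith) (show x < x + 1 by linarith)]
      with y hy
    refine agree _ _ ?_ (mem y)
    rw [hN, Nat.ceil_le]
    push_cast
    have := Nat.le_ceil |x|
    have h1 := le_abs_self x
    have h2 := neg_abs_le x
    rw [abs_le]
    constructor <;> linarith [hy.1, hy.2]
  have hx : f ⌈|x|⌉₊ x = f N x := hev.eq_of_nhds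
  have hm : x ∈ Ioo (-((N : ℝ) + 1)) ((N : ℝ) + 1) := by
    have := mem x
    rw [hN]; push_cast
    constructor <;> linarith [this.1, this.2]
  show HasDerivAt _ (a x * cos (f ⌈|x|⌉₊ x) ^ 2 + b x * sin (f ⌈|x|⌉₊ x) ^ 2) x
  rw [hx]
  exact (hf N x hm).congr_of_eventuallyEq hev

theorem hasDerivAt_int {h : ℝ → ℝ} (hh : Continuous h) (x : ℝ) :
    HasDerivAt (fun u => ∫ s in (0 : ℝ)..u, h s) (h x) x :=
  (hh.integral_hasStrictDerivAt 0 x).hasDerivAt

/-- The comparison formula. -/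
theorem cmp {a1 b1 θ1 a2 b2 θ2 : ℝ → ℝ} (ha : Continuous a2) (hb : Continuous b2)
    (h1 : IsAng a1 b1 θ1) (h2 : IsAng a2 b2 θ2) :
    ∃ H : ℝ → ℝ, H 0 = 0 ∧
      (∀ x, HasDerivAt (fun x => (θ1 x - θ2 x) * exp (-H x))
        (exp (-H x) * ((a1 x - a2 x) * cos (θ1 x) ^ 2 + (b1 x - b2 x) * sin (θ1 x) ^ 2)) x) ∧
      ∀ T K, (∀ x ∈ Icc 0 T, |b2 x - a2 x| ≤ K) → ∀ x ∈ Icc 0 T, |H x| ≤ K * T := by
  have c1 := h1.cont
  have c2 := h2.cont
  set h : ℝ → ℝ := fun x => (b2 x - a2 x) * sin (θ1 x + θ2 x) * sinc (θ1 x - θ2 x) with hh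
  have hc : Continuous h := by
    have := Real.continuous_sinc
    rw [hh]; fun_prop
  refine ⟨fun u => ∫ s in (0 : ℝ)..u, h s, by simp, fun x => ?_, fun T K hK x hx => ?_⟩
  · have d := ((h1 x).fun_sub (h2 x)).fun_mul (hasDerivAt_int hc x).fun_neg.exp
    refine d.congr_deriv ?_
    have e : sin (θ1 x - θ2 x) = (θ1 x - θ2 x) * sinc (θ1 x - θ2 x) := by
      by_cases h0 : θ1 x - θ2 x = 0
      · simp [h0]
      · rw [sinc_of_ne_zero h0]; field_simp
    have e2 := rhs_sub (a2 x) (b2 x) (θ1 x) (θ2 x)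
    rw [e] at e2
    have e3 : h x = (b2 x - a2 x) * sin (θ1 x + θ2 x) * sinc (θ1 x - θ2 x) := rfl
    rw [e3]
    linear_combination (exp (-∫ s in (0 : ℝ)..x, h s)) * e2
  · have hK0 : 0 ≤ K := (abs_nonneg _).trans (hK x hx)
    have := intervalIntegral.norm_integral_le_of_norm_le_const (a := 0) (b := x) (C := K) (f := h)
      (fun s hs => by
        rw [uIoc_of_le hx.1] at hs
        rw [Real.norm_eq_abs, hh]
        simp only [abs_mul]
        have k1 := hK s ⟨hs.1.le, hs.2.trans hx.2⟩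
        have k2 : |sin (θ1 s + θ2 s)| ≤ 1 := abs_sin_le_one _
        have k3 : |sinc (θ1 s - θ2 s)| ≤ 1 := abs_sinc_le_one _
        calc _ ≤ K * 1 * 1 := by gcongr
          _ = K := by ring)
    rw [Real.norm_eq_abs, sub_zero, abs_of_nonneg hx.1] at this
    exact this.trans (mul_le_mul_of_nonneg_left hx.2 hK0)

theorem cmp_mono {a1 b1 θ1 a2 b2 θ2 H : ℝ → ℝ} {T : ℝ}
    (hd : ∀ x, HasDerivAt (fun x => (θ1 x - θ2 x) * exp (-H x))
        (exp (-H x) * ((a1 x - a2 x) * cos (θ1 x) ^ 2 + (b1 x - b2 x) * sin (θ1 x) ^ 2)) x)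
    (hA : ∀ x ∈ Icc 0 T, a2 x ≤ a1 x) (hB : ∀ x ∈ Icc 0 T, b2 x ≤ b1 x) :
    MonotoneOn (fun x => (θ1 x - θ2 x) * exp (-H x)) (Icc 0 T) := by
  refine monotoneOn_of_deriv_nonneg (convex_Icc _ _)
    (fun x _ => (hd x).continuousAt.continuousWithinAt)
    (fun x _ => (hd x).differentiableAt.differentiableWithinAt) fun x hx => ?_
  rw [(hd x).deriv]
  have hx' := interior_subset hx
  have := hA x hx'
  have := hB x hx'
  have e1 : 0 ≤ a1 x - a2 x := by linarith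
  have e2 : 0 ≤ b1 x - b2 x := by linarith
  positivity

theorem cmp_le {a1 b1 θ1 a2 b2 θ2 : ℝ → ℝ} {T : ℝ} (ha : Continuous a2) (hb : Continuous b2)
    (h1 : IsAng a1 b1 θ1) (h2 : IsAng a2 b2 θ2) (hT : 0 ≤ T)
    (hA : ∀ x ∈ Icc 0 T, a2 x ≤ a1 x) (hB : ∀ x ∈ Icc 0 T, b2 x ≤ b1 x) (h0 : θ2 0 ≤ θ1 0) :
    θ2 T ≤ θ1 T := by
  obtain ⟨H, H0, hd, -⟩ := cmp ha hb h1 h2
  have := cmp_mono hd hA hB ⟨le_rfl, hT⟩ ⟨hT, le_rfl⟩ hT
  simp only [H0, neg_zero, exp_zero, mul_one] at this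
  have hp := exp_pos (-H T)
  by_contra hc
  push Not at hc
  have : (θ1 T - θ2 T) * exp (-H T) < 0 := mul_neg_of_neg_of_pos (by linarith) hp
  linarith

theorem cmp_lt0 {a1 b1 θ1 a2 b2 θ2 : ℝ → ℝ} {T : ℝ} (ha : Continuous a2) (hb : Continuous b2)
    (h1 : IsAng a1 b1 θ1) (h2 : IsAng a2 b2 θ2) (hT : 0 ≤ T)
    (hA : ∀ x ∈ Icc 0 T, a2 x ≤ a1 x) (hB : ∀ x ∈ Icc 0 T, b2 x ≤ b1 x) (h0 : θ2 0 < θ1 0) :
    θ2 T < θ1 T := by
  obtain ⟨H, H0, hd, -⟩ := cmp ha hb h1 h2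
  have := cmp_mono hd hA hB ⟨le_rfl, hT⟩ ⟨hT, le_rfl⟩ hT
  simp only [H0, neg_zero, exp_zero, mul_one] at this
  have hp := exp_pos (-H T)
  by_contra hc
  push Not at hc
  have : (θ1 T - θ2 T) * exp (-H T) ≤ 0 := mul_nonpos_of_nonpos_of_nonneg (by linarith) hp.le
  linarith

theorem cmp_lt {a1 b1 θ1 a2 b2 θ2 : ℝ → ℝ} {T : ℝ} (ha : Continuous a2) (hb : Continuous b2)
    (h1 : IsAng a1 b1 θ1) (h2 : IsAng a2 b2 θ2) (hT : 0 < T)
    (hA : ∀ x ∈ Icc 0 T, a2 x ≤ a1 x) (hB : ∀ x ∈ Icc 0 T, b2 x < b1 x)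
    (hpos : ∀ x ∈ Icc 0 T, 0 < a1 x) (h0 : θ2 0 ≤ θ1 0) :
    θ2 T < θ1 T := by
  obtain ⟨H, H0, hd, -⟩ := cmp ha hb h1 h2
  have hm := cmp_mono hd hA (fun x hx => (hB x hx).le)
  by_contra hc
  push Not at hc
  set g := fun x => (θ1 x - θ2 x) * exp (-H x) with hg
  have gT : g T ≤ 0 := mul_nonpos_of_nonpos_of_nonneg (by linarith) (exp_pos _).le
  have g0 : 0 ≤ g 0 := mul_nonneg (by linarith) (exp_pos _).le
  have gz : ∀ x ∈ Icc 0 T, g x = 0 := fun x hx =>
    le_antisymm ((hm hx ⟨hT.le, le_rfl⟩ hx.2).trans gT) (g0.trans (hm ⟨le_rfl, hT.le⟩ hx hx.1))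
  have sz : ∀ x ∈ Ioo 0 T, sin (θ1 x) = 0 := by
    intro x hx
    have hev : g =ᶠ[nhds x] fun _ => 0 := by
      filter_upwards [Icc_mem_nhds hx.1 hx.2] with y hy using gz y hy
    have e := (hd x).unique ((hasDerivAt_const x (0 : ℝ)).congr_of_eventuallyEq hev)
    have hx' := Ioo_subset_Icc_self hx
    have e1 : 0 ≤ a1 x - a2 x := by linarith [hA x hx']
    have e2 : 0 < b1 x - b2 x := by linarith [hB x hx']
    rcases mul_eq_zero.1 e with e | e
    · exact absurd e (exp_pos _).ne'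
    · have : (b1 x - b2 x) * sin (θ1 x) ^ 2 = 0 := by
        have := mul_nonneg e1 (sq_nonneg (cos (θ1 x)))
        have := mul_nonneg e2.le (sq_nonneg (sin (θ1 x)))
        linarith
      rcases mul_eq_zero.1 this with h | h
      · exact absurd h e2.ne'
      · exact pow_eq_zero_iff (two_ne_zero) |>.1 h
  have hx : T / 2 ∈ Ioo 0 T := ⟨by linarith, by linarith⟩
  have hev : (fun x => sin (θ1 x)) =ᶠ[nhds (T / 2)] fun _ => 0 := by
    filter_upwards [Ioo_mem_nhds hx.1 hx.2] with y hy using sz y hy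
  have e := ((h1 (T / 2)).sin).unique ((hasDerivAt_const _ (0 : ℝ)).congr_of_eventuallyEq hev)
  have s0 := sz _ hx
  have c1 : cos (θ1 (T / 2)) ^ 2 = 1 := by
    have := sin_sq_add_cos_sq (θ1 (T / 2)); rw [s0] at this; linarith
  rw [s0, c1] at e
  have hp := hpos _ (Ioo_subset_Icc_self hx)
  have : cos (θ1 (T / 2)) = 0 := by
    rcases mul_eq_zero.1 e with h | h
    · exact h
    · exfalso; nlinarith
  rw [this] at c1; norm_num at c1

theorem cmp_near {a1 b1 θ1 a2 b2 θ2 : ℝ → ℝ} {T ε K : ℝ} (ha : Continuous a2) (hb : Continuous b2)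
    (h1 : IsAng a1 b1 θ1) (h2 : IsAng a2 b2 θ2) (hT : 0 ≤ T)
    (hA : ∀ x ∈ Icc 0 T, |a1 x - a2 x| ≤ ε) (hB : ∀ x ∈ Icc 0 T, |b1 x - b2 x| ≤ ε)
    (hK : ∀ x ∈ Icc 0 T, |b2 x - a2 x| ≤ K) (h0 : θ1 0 = θ2 0) :
    |θ1 T - θ2 T| ≤ exp (K * T) * ε * T * exp (K * T) := by
  obtain ⟨H, H0, hd, hH⟩ := cmp ha hb h1 h2
  have hH := hH T K hK
  have hε : 0 ≤ ε := (abs_nonneg _).trans (hA 0 ⟨le_rfl, hT⟩)
  have := (convex_Icc (0 : ℝ) T).norm_image_sub_le_of_norm_hasDerivWithin_le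
    (C := exp (K * T) * ε) (fun x _ => (hd x).hasDerivWithinAt) (fun x hx => by
      rw [Real.norm_eq_abs, abs_mul, abs_of_pos (exp_pos _)]
      have k1 : exp (-H x) ≤ exp (K * T) := exp_le_exp.2 (by linarith [(abs_le.1 (hH x hx)).1])
      have k2 : |(a1 x - a2 x) * cos (θ1 x) ^ 2 + (b1 x - b2 x) * sin (θ1 x) ^ 2| ≤ ε := by
        refine (abs_add_le _ _).trans ?_
        rw [abs_mul, abs_mul, abs_of_nonneg (sq_nonneg (cos _)), abs_of_nonneg (sq_nonneg (sin _))]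
        have := sin_sq_add_cos_sq (θ1 x)
        have e1 := mul_le_mul_of_nonneg_right (hA x hx) (sq_nonneg (cos (θ1 x)))
        have e2 := mul_le_mul_of_nonneg_right (hB x hx) (sq_nonneg (sin (θ1 x)))
        nlinarith
      gcongr) ⟨le_rfl, hT⟩ ⟨hT, le_rfl⟩
  simp only [h0, sub_self, zero_mul, sub_zero, Real.norm_eq_abs, abs_of_nonneg hT, abs_mul,
    abs_of_pos (exp_pos _)] at this
  have k1 : exp (H T) ≤ exp (K * T) := exp_le_exp.2 (abs_le.1 (hH T ⟨hT, le_rfl⟩)).2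
  have e : |θ1 T - θ2 T| = |θ1 T - θ2 T| * exp (-H T) * exp (H T) := by
    rw [mul_assoc, ← exp_add]; simp
  rw [e]
  gcongr

/-- The Prüfer radius. -/
noncomputable def rad (a b θ : ℝ → ℝ) (t : ℝ) : ℝ :=
  exp (∫ s in (0 : ℝ)..t, (a s - b s) * sin (θ s) * cos (θ s))

theorem rad_pos (a b θ : ℝ → ℝ) (t : ℝ) : 0 < rad a b θ t := exp_pos _

theorem rad_zero (a b θ : ℝ → ℝ) : rad a b θ 0 = 1 := by simp [rad]

theorem rad_deriv {a b θ : ℝ → ℝ} (ha : Continuous a) (hb : Continuous b) (h : IsAng a b θ)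
    (t : ℝ) : HasDerivAt (rad a b θ) (rad a b θ t * ((a t - b t) * sin (θ t) * cos (θ t))) t := by
  have := h.cont
  exact (hasDerivAt_int (h := fun s => (a s - b s) * sin (θ s) * cos (θ s)) (by fun_prop) t).exp

theorem lin_of_ang {a b θ : ℝ → ℝ} (ha : Continuous a) (hb : Continuous b) (h : IsAng a b θ) :
    IsLin a b (fun t => rad a b θ t * sin (θ t)) (fun t => rad a b θ t * cos (θ t)) := by
  intro t
  have hs := sin_sq_add_cos_sq (θ t)
  constructor
  · refine ((rad_deriv ha hb h t).fun_mul (h t).sin).congr_deriv ?_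
    linear_combination (rad a b θ t * a t * cos (θ t)) * hs
  · refine ((rad_deriv ha hb h t).fun_mul (h t).cos).congr_deriv ?_
    linear_combination (-(rad a b θ t * b t * sin (θ t))) * hs

theorem const_of_deriv {f : ℝ → ℝ} (h : ∀ t, HasDerivAt f 0 t) (s t : ℝ) : f s = f t :=
  is_const_of_deriv_eq_zero (fun t => (h t).differentiableAt) (fun t => (h t).deriv) s t

theorem wronski {a b x1 y1 x2 y2 : ℝ → ℝ} (h1 : IsLin a b x1 y1) (h2 : IsLin a b x2 y2) (t : ℝ) :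
    x1 t * y2 t - y1 t * x2 t = x1 0 * y2 0 - y1 0 * x2 0 := by
  refine const_of_deriv (f := fun t => x1 t * y2 t - y1 t * x2 t) (fun t => ?_) t 0
  refine (((h1 t).1.fun_mul (h2 t).2).fun_sub ((h1 t).2.fun_mul (h2 t).1)).congr_deriv ?_
  ring

theorem wronski_refl {a b x1 y1 x2 y2 : ℝ → ℝ} (h1 : IsLin a b x1 y1) (h2 : IsLin a b x2 y2)
    (sa : ∀ t, a (π - t) = a t) (sb : ∀ t, b (π - t) = b t) (t : ℝ) :
    x1 t * y2 (π - t) + y1 t * x2 (π - t) = x1 0 * y2 π + y1 0 * x2 π := by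
  have := const_of_deriv (f := fun t => x1 t * y2 (π - t) + y1 t * x2 (π - t)) (fun t => by
    have d : HasDerivAt (fun t : ℝ => π - t) (-1) t := by
      simpa using (hasDerivAt_id t).const_sub π
    have e1 := (h2 (π - t)).1.comp t d
    have e2 := (h2 (π - t)).2.comp t d
    refine (((h1 t).1.fun_mul e2).fun_add ((h1 t).2.fun_mul e1)).congr_deriv ?_
    simp only [Function.comp, sa, sb]
    ring) t 0
  simpa using this

theorem lin_zero {a b x y : ℝ → ℝ} (ha : Continuous a) (hb : Continuous b)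
    (hl : IsLin a b x y) (hx : x 0 = 0) (hy : y 0 = 0) (t : ℝ) : x t = 0 ∧ y t = 0 := by
  obtain ⟨u, hu, u0⟩ := exists_ang ha hb 0
  obtain ⟨v, hv, v0⟩ := exists_ang ha hb (π / 2)
  have l1 := lin_of_ang ha hb hu
  have l2 := lin_of_ang ha hb hv
  have w1 := wronski hl l1 t
  have w2 := wronski hl l2 t
  have w3 := wronski l2 l1 t
  simp only [hx, hy, rad_zero, u0, v0, sin_zero, cos_zero, sin_pi_div_two, cos_pi_div_two]
    at w1 w2 w3
  constructor
  · linear_combination (-(x t)) * w3 + (rad a b v t * sin (v t)) * w1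
      - (rad a b u t * sin (u t)) * w2
  · linear_combination (-(y t)) * w3 + (rad a b v t * cos (v t)) * w1
      - (rad a b u t * cos (u t)) * w2

/-- Uniqueness for the linear system, in Prüfer form. -/
theorem repr {a b θ x y : ℝ → ℝ} (ha : Continuous a) (hb : Continuous b) (h : IsAng a b θ)
    (hl : IsLin a b x y) {ρ : ℝ} (hx : x 0 = ρ * sin (θ 0)) (hy : y 0 = ρ * cos (θ 0)) (t : ℝ) :
    x t = ρ * (rad a b θ t * sin (θ t)) ∧ y t = ρ * (rad a b θ t * cos (θ t)) := by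
  have l := lin_of_ang ha hb h
  have := lin_zero ha hb (x := fun t => x t - ρ * (rad a b θ t * sin (θ t)))
    (y := fun t => y t - ρ * (rad a b θ t * cos (θ t))) (fun t =>
      ⟨((hl t).1.fun_sub ((l t).1.const_mul ρ)).congr_deriv (by ring),
       ((hl t).2.fun_sub ((l t).2.const_mul ρ)).congr_deriv (by ring)⟩)
    (by simp [hx, rad_zero]) (by simp [hy, rad_zero]) t
  constructor <;> linarith [this.1, this.2]

/-- Two continuous angles related by a triangular matrix with positive diagonal stay within `π`. -/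
theorem gauge {u v : ℝ → ℝ} (hu : Continuous u) (hv : Continuous v) (h0 : u 0 = v 0)
    (h : ∀ t, ∃ α > 0, ∃ γ > 0, ∃ β : ℝ, sin (u t) = α * sin (v t) ∧
      cos (u t) = β * sin (v t) + γ * cos (v t)) (t : ℝ) : |u t - v t| < π := by
  by_contra hc
  push Not at hc
  have hcont : Continuous fun t => |u t - v t| := by fun_prop
  obtain ⟨s, hs⟩ : π ∈ range fun t => |u t - v t| :=
    intermediate_value_univ 0 t hcont ⟨by simp [h0, pi_pos.le], hc⟩
  obtain ⟨α, hα, γ, hγ, β, e1, e2⟩ := h s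
  have k : sin (u s) = -sin (v s) ∧ cos (u s) = -cos (v s) := by
    rcases (abs_eq pi_pos.le).1 hs with e | e
    · have : u s = v s + π := by linarith
      rw [this, sin_add_pi, cos_add_pi]; exact ⟨rfl, rfl⟩
    · have : u s = v s - π := by linarith
      rw [this, sin_sub_pi, cos_sub_pi]; exact ⟨rfl, rfl⟩
  have s0 : sin (v s) = 0 := by
    have : (α + 1) * sin (v s) = 0 := by linarith [k.1]
    exact (mul_eq_zero.1 this).resolve_left (by positivity)
  have c0 : cos (v s) = 0 := by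
    have : (γ + 1) * cos (v s) = 0 := by rw [s0] at e2; linarith [k.2]
    exact (mul_eq_zero.1 this).resolve_left (by positivity)
  have := sin_sq_add_cos_sq (v s)
  rw [s0, c0] at this; norm_num at this

theorem gauge_end {u τ α γ : ℝ} (h : |u - τ| < π) (e1 : sin u = α * sin τ) (e2 : cos u = γ * cos τ)
    (hτ : sin τ = 0 ∨ cos τ = 0) : u = τ := by
  have : sin (u - τ) = 0 := by
    rw [sin_sub, e1, e2]
    rcases hτ with h | h <;> simp [h]
  have := (sin_eq_zero_iff_of_lt_of_lt (abs_lt.1 h).1 (abs_lt.1 h).2).1 this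
  linarith

/-- If a solution of the linear system is given through an angle `v` in another gauge, the Prüfer
angle stays within `π` of `v`. -/
theorem gauge_lin {a b θ x y v : ℝ → ℝ} (ha : Continuous a) (hb : Continuous b) (h : IsAng a b θ)
    (hl : IsLin a b x y) (hv : Continuous v) (h0 : θ 0 = v 0) {ρ : ℝ} (hρ : 0 < ρ)
    (hx : x 0 = ρ * sin (θ 0)) (hy : y 0 = ρ * cos (θ 0))
    (hr : ∀ t, ∃ α > 0, ∃ γ > 0, ∃ β : ℝ, x t = α * sin (v t) ∧
      y t = β * sin (v t) + γ * cos (v t)) (t : ℝ) : |θ t - v t| < π := by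
  refine gauge h.cont hv h0 (fun t => ?_) t
  obtain ⟨α, hα, γ, hγ, β, e1, e2⟩ := hr t
  obtain ⟨r1, r2⟩ := repr ha hb h hl hx hy t
  have hp := rad_pos a b θ t
  refine ⟨α / (ρ * rad a b θ t), by positivity, γ / (ρ * rad a b θ t), by positivity,
    β / (ρ * rad a b θ t), ?_, ?_⟩
  · field_simp; linarith
  · field_simp; linarith

end Pool.Agent.HillD
end

-- part Pool.Agent.P.MP_ae2765_an.Core
section

/-! The Hill equation in the amplitude variable `φ`; the Prüfer angle at `φ = π`. -/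

namespace Pool.Agent.HillD
open Real Set Filter Topology

noncomputable def Dm (m t : ℝ) : ℝ := 1 - m * sin t ^ 2
noncomputable def pm (m t : ℝ) : ℝ := √(Dm m t)
noncomputable def um (m t : ℝ) : ℝ := m / Dm m t
noncomputable def cA (m ω t : ℝ) : ℝ := ω / pm m t
noncomputable def cB (m ω t : ℝ) : ℝ := (ω * (1 - 2 * m) + 2 * m * cos t ^ 2) / pm m t

theorem Dm_pos {m : ℝ} (hm : m < 1) (t : ℝ) : 0 < Dm m t := by
  unfold Dm
  have h1 := sq_nonneg (sin t)
  have h2 := sin_sq_le_one t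
  rcases le_total m 0 with h | h <;> nlinarith

theorem pm_pos {m : ℝ} (hm : m < 1) (t : ℝ) : 0 < pm m t := sqrt_pos.2 (Dm_pos hm t)

theorem pm_sq {m : ℝ} (hm : m < 1) (t : ℝ) : pm m t ^ 2 = Dm m t := sq_sqrt (Dm_pos hm t).le

theorem pm_le_one {m : ℝ} (hm : 0 ≤ m) (t : ℝ) : pm m t ≤ 1 := by
  unfold pm Dm
  have := mul_nonneg hm (sq_nonneg (sin t))
  exact sqrt_le_one.2 (by linarith)

theorem pm_of_sin {m t : ℝ} (h : sin t = 0) : pm m t = 1 := by simp [pm, Dm, h]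

theorem pm_cont (m : ℝ) : Continuous (pm m) := by unfold pm Dm; fun_prop

theorem cA_cont {m : ℝ} (hm : m < 1) (ω : ℝ) : Continuous (cA m ω) :=
  continuous_const.div (pm_cont m) fun t => (pm_pos hm t).ne'

theorem cB_cont {m : ℝ} (hm : m < 1) (ω : ℝ) : Continuous (cB m ω) :=
  Continuous.div (by fun_prop) (pm_cont m) fun t => (pm_pos hm t).ne'

theorem cA_symm (m ω t : ℝ) : cA m ω (π - t) = cA m ω t := by simp [cA, pm, Dm]

theorem cB_symm (m ω t : ℝ) : cB m ω (π - t) = cB m ω t := by simp [cB, pm, Dm]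

theorem Dm_deriv {m : ℝ} (t : ℝ) : HasDerivAt (Dm m) (-(2 * m * sin t * cos t)) t := by
  have := (((hasDerivAt_sin t).fun_pow 2).const_mul m).const_sub 1
  exact this.congr_deriv (by simp; ring)

theorem pm_deriv {m : ℝ} (hm : m < 1) (t : ℝ) :
    HasDerivAt (pm m) (-(sin t * cos t * um m t * pm m t)) t := by
  refine ((Dm_deriv (m := m) t).sqrt (Dm_pos hm t).ne').congr_deriv ?_
  have h1 := pm_pos hm t
  have h2 := pm_sq hm t
  show _ / (2 * pm m t) = _
  unfold um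
  rw [← h2]; field_simp

theorem um_deriv {m : ℝ} (hm : m < 1) (t : ℝ) :
    HasDerivAt (um m) (2 * sin t * cos t * um m t ^ 2) t := by
  refine ((hasDerivAt_const t m).fun_div (Dm_deriv (m := m) t) (Dm_pos hm t).ne').congr_deriv ?_
  have h1 := Dm_pos hm t
  unfold um
  field_simp
  ring

theorem um_nonneg {m : ℝ} (h0 : 0 ≤ m) (hm : m < 1) (t : ℝ) : 0 ≤ um m t :=
  div_nonneg h0 (Dm_pos hm t).le

theorem um_lt {m1 m2 : ℝ} (h : m1 < m2) (hm : m2 < 1) (t : ℝ) : um m1 t < um m2 t := by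
  unfold um
  rw [div_lt_div_iff₀ (Dm_pos (h.trans hm) t) (Dm_pos hm t)]
  unfold Dm
  nlinarith

theorem um_le_one {m : ℝ} (hm : m < 1 / 2) (t : ℝ) : um m t ≤ 1 := by
  unfold um
  rw [div_le_one (Dm_pos (by linarith) t)]
  unfold Dm
  have h1 := sq_nonneg (sin t)
  have h2 := sin_sq_le_one t
  rcases le_total m 0 with h | h <;> nlinarith

/-- `cB = p (ω + u (-(2 - S) ω + 2 (1 - S)))`. -/
theorem cB_eq {m : ℝ} (hm : m < 1) (ω t : ℝ) :
    cB m ω t = pm m t * (ω + um m t * (-(2 - sin t ^ 2) * ω + 2 * (1 - sin t ^ 2))) := by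
  have h1 := pm_pos hm t
  have h2 := pm_sq hm t
  have h3 := Dm_pos hm t
  unfold cB um
  rw [div_eq_iff h1.ne', cos_sq']
  have : pm m t * (ω + m / Dm m t * (-(2 - sin t ^ 2) * ω + 2 * (1 - sin t ^ 2))) * pm m t
      = pm m t ^ 2 * (ω + m / Dm m t * (-(2 - sin t ^ 2) * ω + 2 * (1 - sin t ^ 2))) := by ring
  rw [this, h2]
  field_simp
  unfold Dm
  ring

/-- The Prüfer angle with initial value `θ0`. -/
noncomputable def th (m ω θ0 : ℝ) : ℝ → ℝ :=
  Classical.epsilon fun θ => IsAng (cA m ω) (cB m ω) θ ∧ θ 0 = θ0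

theorem th_spec {m : ℝ} (hm : m < 1) (ω θ0 : ℝ) :
    IsAng (cA m ω) (cB m ω) (th m ω θ0) ∧ th m ω θ0 0 = θ0 :=
  Classical.epsilon_spec (exists_ang (cA_cont hm ω) (cB_cont hm ω) θ0)

theorem cA_ge {m ω : ℝ} (h0 : 0 ≤ m) (hm : m < 1) (hω : 0 ≤ ω) (t : ℝ) : ω ≤ cA m ω t := by
  unfold cA
  rw [le_div_iff₀ (pm_pos hm t)]
  exact mul_le_of_le_one_right hω (pm_le_one h0 t)

theorem cB_ge {m ω : ℝ} (h0 : 0 ≤ m) (hm : m < 1 / 2) (hω : 0 ≤ ω) (t : ℝ) :
    ω * (1 - 2 * m) + 2 * m * cos t ^ 2 ≤ cB m ω t := by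
  unfold cB
  rw [le_div_iff₀ (pm_pos (by linarith) t)]
  refine mul_le_of_le_one_right ?_ (pm_le_one h0 t)
  have : 0 ≤ 1 - 2 * m := by linarith
  positivity

theorem th_strictMono {m ω : ℝ} (h0 : 0 ≤ m) (hm : m < 1 / 2) (hω : 0 < ω) (θ0 : ℝ) :
    StrictMono (th m ω θ0) := by
  have h := (th_spec (m := m) (by linarith) ω θ0).1
  refine strictMono_of_deriv_pos fun x => ?_
  rw [(h x).deriv]
  have h1 := cA_ge h0 (by linarith) hω.le x
  have h2 := cB_ge h0 hm hω.le x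
  have h3 : 0 < ω * (1 - 2 * m) := mul_pos hω (by linarith)
  have h4 : 0 ≤ 2 * m * cos x ^ 2 := by positivity
  have h5 : ω * (1 - 2 * m) ≤ ω := by nlinarith
  have := sin_sq_add_cos_sq (th m ω θ0 x)
  have e1 := mul_le_mul_of_nonneg_right (h5.trans h1) (sq_nonneg (cos (th m ω θ0 x)))
  have e2 := mul_le_mul_of_nonneg_right (show ω * (1 - 2 * m) ≤ cB m ω x by linarith)
    (sq_nonneg (sin (th m ω θ0 x)))
  nlinarith

theorem th_mono_omega {m ω1 ω2 : ℝ} (hm : m < 1 / 2) (h1 : 0 ≤ ω1) (h : ω1 < ω2) (θ0 : ℝ) :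
    th m ω1 θ0 π < th m ω2 θ0 π := by
  have hm1 : m < 1 := by linarith
  have s1 := th_spec hm1 ω1 θ0
  have s2 := th_spec hm1 ω2 θ0
  refine cmp_lt (cA_cont hm1 ω1) (cB_cont hm1 ω1) s2.1 s1.1 pi_pos (fun x _ => ?_) (fun x _ => ?_)
    (fun x _ => div_pos (by linarith) (pm_pos hm1 x)) (by rw [s1.2, s2.2])
  · exact div_le_div_of_nonneg_right h.le (pm_pos hm1 x).le
  · refine div_lt_div_of_pos_right ?_ (pm_pos hm1 x)
    nlinarith

theorem isAng_lin (c θ0 : ℝ) : IsAng (fun _ => c) (fun _ => c) fun t => θ0 + c * t := by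
  intro x
  refine (((hasDerivAt_id x).const_mul c).const_add θ0).congr_deriv ?_
  have := sin_sq_add_cos_sq (θ0 + c * x)
  linear_combination (-c) * this

theorem th_ge {m ω : ℝ} (h0 : 0 ≤ m) (hm : m < 1 / 2) (hω : 0 ≤ ω) (θ0 : ℝ) :
    θ0 + ω * (1 - 2 * m) * π ≤ th m ω θ0 π := by
  have s := th_spec (m := m) (by linarith) ω θ0
  refine cmp_le continuous_const continuous_const s.1 (isAng_lin (ω * (1 - 2 * m)) θ0) pi_pos.le
    (fun x _ => ?_) (fun x _ => ?_) (by simp [s.2])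
  · have := cA_ge h0 (by linarith) hω x
    nlinarith
  · have := cB_ge h0 hm hω x
    have h4 : 0 ≤ 2 * m * cos x ^ 2 := by positivity
    linarith

theorem th_zero (ω θ0 : ℝ) : th 0 ω θ0 π = θ0 + ω * π := by
  have s := th_spec (m := 0) (by norm_num) ω θ0
  have eA : cA 0 ω = fun _ => ω := by ext t; simp [cA, pm, Dm]
  have eB : cB 0 ω = fun _ => ω := by ext t; simp [cB, pm, Dm]
  rw [eA, eB] at s
  apply le_antisymm
  · exact cmp_le continuous_const continuous_const (isAng_lin ω θ0) s.1 pi_pos.le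
      (fun _ _ => le_rfl) (fun _ _ => le_rfl) (by simp [s.2])
  · exact cmp_le continuous_const continuous_const s.1 (isAng_lin ω θ0) pi_pos.le
      (fun _ _ => le_rfl) (fun _ _ => le_rfl) (by simp [s.2])

theorem th_omega_zero {m θ0 : ℝ} (hm : m < 1) (h : θ0 < π) : th m 0 θ0 π < π := by
  have s := th_spec hm 0 θ0
  have c : IsAng (cA m 0) (cB m 0) fun _ => π := by
    intro x
    exact (hasDerivAt_const x π).congr_deriv (by simp [cA])
  exact cmp_lt0 (cA_cont hm 0) (cB_cont hm 0) c s.1 pi_pos.le (fun _ _ => le_rfl)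
    (fun _ _ => le_rfl) (by simpa [s.2] using h)

theorem th_DN {m : ℝ} (hm : m < 1) (ω : ℝ) :
    th m ω 0 π < th m ω (π / 2) π ∧ th m ω (π / 2) π < th m ω 0 π + π := by
  have s1 := th_spec hm ω 0
  have s2 := th_spec hm ω (π / 2)
  have s3 : IsAng (cA m ω) (cB m ω) fun t => th m ω 0 t + π := by
    intro x
    exact ((s1.1 x).add_const π).congr_deriv (by simp)
  have hp := pi_pos
  constructor
  · exact cmp_lt0 (cA_cont hm ω) (cB_cont hm ω) s2.1 s1.1 pi_pos.le (fun _ _ => le_rfl)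
      (fun _ _ => le_rfl) (by rw [s1.2, s2.2]; linarith)
  · have := cmp_lt0 (cA_cont hm ω) (cB_cont hm ω) s3 s2.1 pi_pos.le (fun _ _ => le_rfl)
      (fun _ _ => le_rfl) (by simp only [s1.2, s2.2]; linarith)
    exact this

theorem th_cont {m ω : ℝ} (hm : m < 1) (θ0 : ℝ) :
    ContinuousAt (fun z : ℝ × ℝ => th z.1 z.2 θ0 π) (m, ω) := by
  obtain ⟨K, hK⟩ := exists_bound (cA_cont hm ω) (cB_cont hm ω) π
  have hK' : ∀ x ∈ Icc 0 π, |cB m ω x - cA m ω x| ≤ K := fun x hx => by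
    have := hK x ⟨by linarith [hx.1, pi_pos], hx.2⟩
    have h2 := abs_sub (cB m ω x) (cA m ω x)
    linarith
  rw [ContinuousAt, Metric.tendsto_nhds]
  intro ε hε
  set C := exp (K * π) * π * exp (K * π) with hC
  have hC0 : 0 < C := by have := pi_pos; positivity
  set η := ε / (2 * C) with hη
  have hη0 : 0 < η := by positivity
  have cp : Continuous fun w : (ℝ × ℝ) × ℝ => pm w.1.1 w.2 := by unfold pm Dm; fun_prop
  have key : ∀ᶠ z : ℝ × ℝ in 𝓝 (m, ω), ∀ t ∈ Icc 0 π,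
      |cA z.1 z.2 t - cA m ω t| < η ∧ |cB z.1 z.2 t - cB m ω t| < η := by
    refine isCompact_Icc.eventually_forall_of_forall_eventually fun t _ => ?_
    have hp := (pm_pos hm t).ne'
    have a1 : ContinuousAt (fun w : (ℝ × ℝ) × ℝ => cA w.1.1 w.1.2 w.2) ((m, ω), t) :=
      ContinuousAt.div (by fun_prop) cp.continuousAt hp
    have b1 : ContinuousAt (fun w : (ℝ × ℝ) × ℝ => cB w.1.1 w.1.2 w.2) ((m, ω), t) :=
      ContinuousAt.div (by fun_prop) cp.continuousAt hp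
    have a2 : ContinuousAt (fun w : (ℝ × ℝ) × ℝ => cA m ω w.2) ((m, ω), t) :=
      ((cA_cont hm ω).comp continuous_snd).continuousAt
    have b2 : ContinuousAt (fun w : (ℝ × ℝ) × ℝ => cB m ω w.2) ((m, ω), t) :=
      ((cB_cont hm ω).comp continuous_snd).continuousAt
    have a3 := (a1.sub a2).abs.eventually_lt (continuousAt_const (y := η)) (by simpa using hη0)
    have b3 := (b1.sub b2).abs.eventually_lt (continuousAt_const (y := η)) (by simpa using hη0)
    exact a3.and b3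
  have hlt : ∀ᶠ z : ℝ × ℝ in 𝓝 (m, ω), z.1 < 1 :=
    continuousAt_fst.eventually_lt continuousAt_const hm
  filter_upwards [key, hlt] with z hz hz1
  have s1 := th_spec hz1 z.2 θ0
  have s2 := th_spec hm ω θ0
  have := cmp_near (cA_cont hm ω) (cB_cont hm ω) s1.1 s2.1 pi_pos.le (fun x hx => (hz x hx).1.le)
    (fun x hx => (hz x hx).2.le) hK' (by rw [s1.2, s2.2])
  rw [Real.dist_eq]
  have e : exp (K * π) * η * π * exp (K * π) = ε / 2 := by
    have : exp (K * π) * η * π * exp (K * π) = η * C := by rw [hC]; ring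
    rw [this, hη]; field_simp
  linarith

theorem th_N1 {m : ℝ} (hm : m < 1) : th m 1 (π / 2) π = π / 2 + π := by
  have s := th_spec hm 1 (π / 2)
  have hl : IsLin (cA m 1) (cB m 1) cos fun t => -(pm m t * sin t) := by
    intro t
    have hp := pm_pos hm t
    constructor
    · refine (hasDerivAt_cos t).congr_deriv ?_
      unfold cA; field_simp
    · refine ((pm_deriv hm t).fun_mul (hasDerivAt_sin t)).fun_neg.congr_deriv ?_
      rw [cB_eq hm]
      ring
  have hx : cos 0 = 1 * sin (th m 1 (π / 2) 0) := by simp [s.2]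
  have hy : -(pm m 0 * sin 0) = 1 * cos (th m 1 (π / 2) 0) := by simp [s.2]
  have g := gauge_lin (v := fun t => π / 2 + t) (cA_cont hm 1) (cB_cont hm 1) s.1 hl (by fun_prop)
    (by simp [s.2]) one_pos hx hy (fun t => ⟨1, one_pos, pm m t, pm_pos hm t, 0, by
      simp [add_comm, sin_add_pi_div_two], by simp [add_comm, cos_add_pi_div_two]⟩) π
  obtain ⟨r1, r2⟩ := repr (cA_cont hm 1) (cB_cont hm 1) s.1 hl hx hy π
  have hr := rad_pos (cA m 1) (cB m 1) (th m 1 (π / 2)) π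
  have c0 : cos (π / 2 + π) = 0 := by simp [cos_add_pi]
  refine gauge_end (α := sin (th m 1 (π / 2) π) / sin (π / 2 + π)) (γ := 0) g ?_ ?_ (Or.inr c0)
  · simp [sin_add_pi, div_neg]
  · simp only [sin_pi, mul_zero, neg_zero, one_mul] at r2
    rw [zero_mul]
    exact (mul_eq_zero.1 r2.symm).resolve_left hr.ne'

theorem th_big {m θ0 : ℝ} (h0 : 0 ≤ m) (hm : m < 1 / 2) (hθ : θ0 = 0 ∨ θ0 = π / 2) (l : ℕ) :
    θ0 + l * π < th m (36 * (l + 1) ^ 2) θ0 π := by
  set ω : ℝ := 36 * (l + 1) ^ 2 with hω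
  set lam : ℝ := 3 * (l + 1) with hlam
  have hl : (0 : ℝ) ≤ l := Nat.cast_nonneg l
  have hω1 : 1 ≤ ω := by rw [hω]; nlinarith
  have hlam0 : 0 < lam := by positivity
  have hω0 : 0 < ω := by linarith
  obtain ⟨u, hu, u0⟩ := exists_ang (a := fun _ => ω) (b := fun _ => 1 / 4) continuous_const
    continuous_const θ0
  have hlin : IsLin (fun _ => ω) (fun _ => 1 / 4) (fun t => sin (θ0 + lam * t))
      fun t => lam / ω * cos (θ0 + lam * t) := by
    intro t
    have d := ((hasDerivAt_id t).const_mul lam).const_add θ0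
    constructor
    · refine d.sin.congr_deriv ?_
      simp only [id]; field_simp
    · refine (d.cos.const_mul (lam / ω)).congr_deriv ?_
      simp only [id]
      have : lam * lam = ω / 4 := by rw [hω, hlam]; ring
      have e : lam / ω * (-sin (θ0 + lam * t) * (lam * 1))
          = -(lam * lam / ω * sin (θ0 + lam * t)) := by ring
      rw [e, this]; field_simp
  have g : |u (π / 3) - (θ0 + lam * (π / 3))| < π := by
    rcases hθ with h | h
    · exact gauge_lin (v := fun t => θ0 + lam * t) (ρ := lam / ω) continuous_const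
        continuous_const hu hlin (by fun_prop) (by simp [u0]) (by positivity) (by simp [u0, h])
        (by simp [u0, h]) (fun t => ⟨1, one_pos, lam / ω, by positivity, 0, by simp, by simp⟩) _
    · exact gauge_lin (v := fun t => θ0 + lam * t) (ρ := 1) continuous_const
        continuous_const hu hlin (by fun_prop) (by simp [u0]) one_pos (by simp [u0, h])
        (by simp [u0, h]) (fun t => ⟨1, one_pos, lam / ω, by positivity, 0, by simp, by simp⟩) _
  have s := th_spec (m := m) (by linarith) ω θ0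
  have hp := pi_pos
  have c := cmp_le (T := π / 3) continuous_const continuous_const s.1 hu (by positivity)
    (fun x _ => cA_ge h0 (by linarith) hω0.le x) (fun x hx => by
      have h1 := cB_ge h0 hm hω0.le x
      have h2 : 1 / 2 ≤ cos x := by
        rw [← cos_pi_div_three]
        exact cos_le_cos_of_nonneg_of_le_pi hx.1 (by linarith) hx.2
      have h3 := cos_sq_le_one x
      have h4 : 1 / 4 ≤ cos x ^ 2 := by nlinarith
      have h5 : 1 - 2 * m ≤ ω * (1 - 2 * m) := by nlinarith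
      nlinarith) (by rw [u0, s.2])
  have m1 := th_strictMono h0 hm hω0 θ0 (show π / 3 < π by linarith)
  have := (abs_lt.1 g).1
  have e : lam * (π / 3) = l * π + π := by rw [hlam]; ring
  linarith

/-- Monotonicity in `m` for `ω ≥ 2`, by the Liouville gauge. -/
theorem th_anti {m1 m2 ω θ0 τ : ℝ} (h0 : 0 ≤ m1) (h12 : m1 < m2) (hm : m2 < 1 / 2) (hω : 2 ≤ ω)
    (hτ : sin τ = 0 ∨ cos τ = 0) (h : th m1 ω θ0 π = τ) :
    th m2 ω θ0 π < τ := by
  have k1 : m1 < 1 := by linarith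
  have k2 : m2 < 1 := by linarith
  have hω0 : 0 < ω := by linarith
  have s1 := th_spec k1 ω θ0
  have s2 := th_spec k2 ω θ0
  set θ1 := th m1 ω θ0 with hθ1
  have l1 := lin_of_ang (cA_cont k1 ω) (cB_cont k1 ω) s1.1
  set r := rad (cA m1 ω) (cB m1 ω) θ1 with hr
  -- the gauge factor
  set γ : ℝ → ℝ := fun t => √(pm m1 t / pm m2 t) with hγ
  have γpos : ∀ t, 0 < γ t := fun t => sqrt_pos.2 (div_pos (pm_pos k1 t) (pm_pos k2 t))
  have γsq : ∀ t, γ t ^ 2 * pm m2 t = pm m1 t := fun t => by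
    rw [hγ]
    simp only
    rw [sq_sqrt (div_pos (pm_pos k1 t) (pm_pos k2 t)).le]
    field_simp [(pm_pos k2 t).ne']
  set L : ℝ → ℝ := fun t => sin t * cos t * (um m2 t - um m1 t) / 2 with hL
  have dγ : ∀ t, HasDerivAt γ (γ t * L t) t := fun t => by
    have p1 := pm_pos k1 t
    have p2 := pm_pos k2 t
    refine (((pm_deriv k1 t).fun_div (pm_deriv k2 t) p2.ne').sqrt (div_pos p1 p2).ne').congr_deriv ?_
    have g0 := γpos t
    have g2 := γsq t
    show _ / (2 * γ t) = γ t * (sin t * cos t * (um m2 t - um m1 t) / 2)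
    rw [← g2]
    field_simp
    ring
  set L' : ℝ → ℝ := fun t => (um m2 t - um m1 t) *
    ((1 - 2 * sin t ^ 2) / 2 + sin t ^ 2 * (1 - sin t ^ 2) * (um m1 t + um m2 t)) with hL'
  have dL : ∀ t, HasDerivAt L (L' t) t := fun t => by
    refine ((((hasDerivAt_sin t).fun_mul (hasDerivAt_cos t)).fun_mul
      ((um_deriv k2 t).fun_sub (um_deriv k1 t))).div_const 2).congr_deriv ?_
    have := sin_sq_add_cos_sq t
    show _ = (um m2 t - um m1 t) *
      ((1 - 2 * sin t ^ 2) / 2 + sin t ^ 2 * (1 - sin t ^ 2) * (um m1 t + um m2 t))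
    linear_combination ((um m2 t - um m1 t) / 2 + sin t ^ 2 * (um m2 t ^ 2 - um m1 t ^ 2)) * this
  set bt : ℝ → ℝ := fun t => cB m1 ω t / γ t ^ 2 -
    pm m2 t * ((L t - sin t * cos t * um m2 t) * L t + L' t) / ω with hbt
  have ucont : ∀ {m : ℝ}, m < 1 → Continuous (um m) := fun hm =>
    continuous_iff_continuousAt.2 fun t => (um_deriv hm t).continuousAt
  have γcont : Continuous γ := continuous_iff_continuousAt.2 fun t => (dγ t).continuousAt
  have btc : Continuous bt := by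
    have u1 := ucont k1
    have u2 := ucont k2
    have c1 := pm_cont m2
    refine Continuous.sub ((cB_cont k1 ω).div (by fun_prop) fun t => (pow_pos (γpos t) 2).ne') ?_
    rw [hL, hL']
    fun_prop
  have hlin : IsLin (cA m2 ω) bt (fun t => γ t * (r t * sin (θ1 t)))
      fun t => pm m2 t * (γ t * L t) / ω * (r t * sin (θ1 t)) + r t * cos (θ1 t) / γ t := by
    intro t
    have p1 := pm_pos k1 t
    have p2 := pm_pos k2 t
    have g0 := γpos t
    have g2 := γsq t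
    constructor
    · refine ((dγ t).fun_mul (l1 t).1).congr_deriv ?_
      unfold cA
      rw [← g2]
      field_simp
    · refine (((((pm_deriv k2 t).fun_mul ((dγ t).fun_mul (dL t))).div_const ω).fun_mul
        (l1 t).1).fun_add ((l1 t).2.fun_div (dγ t) g0.ne')).congr_deriv ?_
      rw [hbt]
      unfold cA
      simp only
      rw [← g2]
      field_simp
      ring
  obtain ⟨u, hu, u0⟩ := exists_ang (cA_cont k2 ω) btc θ0
  have γ1 : ∀ t, sin t = 0 → γ t = 1 := fun t ht => by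
    rw [hγ]; simp [pm_of_sin ht]
  have hx : γ 0 * (r 0 * sin (θ1 0)) = 1 * sin (u 0) := by
    rw [γ1 0 sin_zero, hr, rad_zero, s1.2, u0]; ring
  have hy : pm m2 0 * (γ 0 * L 0) / ω * (r 0 * sin (θ1 0)) + r 0 * cos (θ1 0) / γ 0
      = 1 * cos (u 0) := by
    rw [γ1 0 sin_zero, hr, rad_zero, s1.2, u0, hL]; simp
  have rpos : ∀ t, 0 < r t := rad_pos _ _ _
  have g := gauge_lin (cA_cont k2 ω) btc hu hlin s1.1.cont (by rw [u0, s1.2]) one_pos hx hy
    (fun t => ⟨γ t * r t, mul_pos (γpos t) (rpos t), r t / γ t, div_pos (rpos t) (γpos t),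
      pm m2 t * (γ t * L t) / ω * r t, by ring, by ring⟩) π
  obtain ⟨r1, r2⟩ := repr (cA_cont k2 ω) btc hu hlin hx hy π
  have hr2 := rad_pos (cA m2 ω) bt u π
  have L0 : L π = 0 := by rw [hL]; simp
  simp only [γ1 π sin_pi, L0, h, mul_zero, zero_div, zero_mul, zero_add, div_one, one_mul] at r1 r2
  rw [h] at g
  have eu : u π = τ := by
    refine gauge_end (α := r π / rad (cA m2 ω) bt u π) (γ := r π / rad (cA m2 ω) bt u π) g ?_ ?_ hτ
    · field_simp; linarith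
    · field_simp; linarith
  rw [← eu]
  refine cmp_lt (cA_cont k2 ω) (cB_cont k2 ω) hu s2.1 pi_pos (fun _ _ => le_rfl) (fun t _ => ?_)
    (fun t _ => div_pos hω0 (pm_pos k2 t)) (by rw [u0, s2.2])
  have p1 := pm_pos k1 t
  have p2 := pm_pos k2 t
  have g0 := γpos t
  have g2 := γsq t
  have a0 := um_nonneg h0 k1 t
  have a1 := um_lt h12 k2 t
  have a2 := um_le_one hm t
  have hs := sin_sq_add_cos_sq t
  have S0 := sq_nonneg (sin t)
  have S1 := sin_sq_le_one t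
  have key : bt t - cB m2 ω t = pm m2 t / ω * (um m2 t - um m1 t) *
      ((2 - sin t ^ 2) * ω ^ 2 - 2 * ω * (1 - sin t ^ 2) - (1 - 2 * sin t ^ 2) / 2
        - 3 / 4 * (sin t ^ 2 * (1 - sin t ^ 2)) * (um m1 t + um m2 t)) := by
    rw [hbt]
    simp only
    rw [cB_eq k1, cB_eq k2, ← g2, hL, hL']
    simp only
    field_simp
    linear_combination (sin t ^ 2 * (um m2 t - um m1 t) * (um m1 t + um m2 t) * 4) * hs
  have pos : 0 < (2 - sin t ^ 2) * ω ^ 2 - 2 * ω * (1 - sin t ^ 2) - (1 - 2 * sin t ^ 2) / 2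
        - 3 / 4 * (sin t ^ 2 * (1 - sin t ^ 2)) * (um m1 t + um m2 t) := by
    have b1 : sin t ^ 2 * (1 - sin t ^ 2) ≤ 1 := by nlinarith
    have b2 : 0 ≤ sin t ^ 2 * (1 - sin t ^ 2) := mul_nonneg S0 (by linarith)
    have b3 : sin t ^ 2 * (1 - sin t ^ 2) * (um m1 t + um m2 t) ≤ 1 * 2 :=
      mul_le_mul b1 (by linarith) (by linarith) zero_le_one
    have b4 : (2 - sin t ^ 2) * (2 * ω) ≤ (2 - sin t ^ 2) * ω ^ 2 :=
      mul_le_mul_of_nonneg_left (by nlinarith) (by linarith)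
    nlinarith
  have : 0 < bt t - cB m2 ω t := by
    rw [key]
    exact mul_pos (mul_pos (div_pos p2 hω0) (by linarith)) pos
  linarith

/-- Monotonicity in `m` of the first Dirichlet line. -/
theorem th_anti_one {m1 m2 ω : ℝ} (h0 : 0 ≤ m1) (h12 : m1 < m2) (hm : m2 < 1 / 2) (hω : 1 ≤ ω)
    (h : th m1 ω 0 π = π) : th m2 ω 0 π < π := by
  have k1 : m1 < 1 := by linarith
  have k2 : m2 < 1 := by linarith
  have hω0 : 0 < ω := by linarith
  have hp := pi_pos
  have s1 := th_spec k1 ω 0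
  have s2 := th_spec k2 ω 0
  have n1 := th_strictMono h0 (by linarith) hω0 0
  have n2 := th_strictMono (m := m2) (by linarith) hm hω0 0
  set θ1 := th m1 ω 0 with hθ1
  set θ2 := th m2 ω 0 with hθ2
  have l1 := lin_of_ang (cA_cont k1 ω) (cB_cont k1 ω) s1.1
  have l2 := lin_of_ang (cA_cont k2 ω) (cB_cont k2 ω) s2.1
  set x1 := fun t => rad (cA m1 ω) (cB m1 ω) θ1 t * sin (θ1 t) with hx1
  set y1 := fun t => rad (cA m1 ω) (cB m1 ω) θ1 t * cos (θ1 t) with hy1
  set x2 := fun t => rad (cA m2 ω) (cB m2 ω) θ2 t * sin (θ2 t) with hx2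
  set y2 := fun t => rad (cA m2 ω) (cB m2 ω) θ2 t * cos (θ2 t) with hy2
  by_contra hc
  push Not at hc
  obtain ⟨z, hz, ez⟩ : ∃ z ∈ Icc 0 π, θ2 z = π :=
    intermediate_value_Icc hp.le s2.1.cont.continuousOn ⟨by rw [s2.2]; exact hp.le, hc⟩
  have z0 : 0 < z := by
    rcases hz.1.lt_or_eq with h | h
    · exact h
    · rw [← h, s2.2] at ez; linarith
  have x1pos : ∀ t ∈ Ioo 0 π, 0 < x1 t := fun t ht =>
    mul_pos (rad_pos _ _ _ _) (sin_pos_of_pos_of_lt_pi (by simpa [s1.2] using n1 ht.1)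
      (by simpa [h] using n1 ht.2))
  have x2pos : ∀ t ∈ Ioo 0 z, 0 < x2 t := fun t ht =>
    mul_pos (rad_pos _ _ _ _) (sin_pos_of_pos_of_lt_pi (by simpa [s2.2] using n2 ht.1)
      (by simpa [ez] using n2 ht.2))
  have x10 : x1 0 = 0 := by simp [hx1, s1.2]
  have x20 : x2 0 = 0 := by simp [hx2, s2.2]
  have x1π : x1 π = 0 := by simp [hx1, h]
  have hhalf : π / 2 ∈ Ioo 0 π := ⟨by linarith, by linarith⟩
  have y1h : y1 (π / 2) = 0 := by
    have w := wronski_refl l1 l1 (cA_symm m1 ω) (cB_symm m1 ω) (π / 2)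
    rw [show π - π / 2 = π / 2 by ring, x10, x1π] at w
    have := x1pos _ hhalf
    have e : x1 (π / 2) * y1 (π / 2) = 0 := by linarith
    exact (mul_eq_zero.1 e).resolve_left this.ne'
  have y1anti : AntitoneOn y1 (Icc 0 π) := by
    refine antitoneOn_of_deriv_nonpos (convex_Icc _ _) l1.cont2.continuousOn
      (fun x _ => (l1 x).2.differentiableAt.differentiableWithinAt) fun x hx => ?_
    rw [interior_Icc] at hx
    rw [(l1 x).2.deriv]
    have b1 := cB_ge h0 (by linarith) hω0.le x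
    have b2 : 0 ≤ ω * (1 - 2 * m1) := mul_nonneg hω0.le (by linarith)
    have b3 : 0 ≤ 2 * m1 * cos x ^ 2 := by positivity
    have := mul_nonneg (show 0 ≤ cB m1 ω x by linarith) (x1pos x hx).le
    linarith
  have sgn : ∀ t ∈ Icc 0 π, 0 ≤ cos t * y1 t := fun t ht => by
    rcases le_total t (π / 2) with h | h
    · refine mul_nonneg (cos_nonneg_of_mem_Icc ⟨by linarith [ht.1], h⟩) ?_
      rw [← y1h]; exact y1anti ht (Ioo_subset_Icc_self hhalf) h
    · refine mul_nonneg_of_nonpos_of_nonpos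
        (cos_nonpos_of_pi_div_two_le_of_le h (by linarith [ht.2])) ?_
      rw [← y1h]; exact y1anti (Ioo_subset_Icc_self hhalf) ht h
  set Z := fun t => pm m2 t / pm m1 t * (y1 t * x2 t) - x1 t * y2 t with hZ
  have dZ : ∀ t, HasDerivAt Z (-(pm m2 t * (um m2 t - um m1 t) *
      (sin t * (cos t * y1 t) * x2 t / pm m1 t +
        ((2 - sin t ^ 2) * ω - 2 * (1 - sin t ^ 2)) * (x1 t * x2 t)))) t := fun t => by
    have p1 := pm_pos k1 t
    have p2 := pm_pos k2 t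
    refine ((((pm_deriv k2 t).fun_div (pm_deriv k1 t) p1.ne').fun_mul
      ((l1 t).2.fun_mul (l2 t).1)).fun_sub ((l1 t).1.fun_mul (l2 t).2)).congr_deriv ?_
    rw [cB_eq k1, cB_eq k2]
    unfold cA
    field_simp
    ring
  have anti : StrictAntiOn Z (Icc 0 z) := by
    refine strictAntiOn_of_deriv_neg (convex_Icc _ _)
      (fun x _ => (dZ x).continuousAt.continuousWithinAt) fun t ht => ?_
    rw [interior_Icc] at ht
    rw [(dZ t).deriv]
    have ht' : t ∈ Ioo 0 π := ⟨ht.1, ht.2.trans_le hz.2⟩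
    have p1 := pm_pos k1 t
    have p2 := pm_pos k2 t
    have a1 := um_lt h12 k2 t
    have b1 := x1pos t ht'
    have b2 := x2pos t ht
    have b3 := sin_pos_of_pos_of_lt_pi ht'.1 ht'.2
    have b4 := sgn t (Ioo_subset_Icc_self ht')
    have S1 := sin_sq_le_one t
    have b5 : 0 < (2 - sin t ^ 2) * ω - 2 * (1 - sin t ^ 2) := by
      have := pow_pos b3 2
      nlinarith
    have b6 : 0 < um m2 t - um m1 t := by linarith
    rw [neg_lt_zero]
    positivity
  have fin := anti ⟨le_rfl, z0.le⟩ ⟨z0.le, le_rfl⟩ z0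
  have x2z : x2 z = 0 := by simp [hx2, ez]
  have y2z : y2 z ≤ 0 := by
    have := rad_pos (cA m2 ω) (cB m2 ω) θ2 z
    simp only [hy2, ez, cos_pi]; linarith
  have x1z : 0 ≤ x1 z := by
    rcases hz.2.lt_or_eq with h | h
    · exact (x1pos z ⟨z0, h⟩).le
    · rw [h, x1π]
  simp only [hZ, x10, x20, x2z] at fin
  nlinarith [mul_nonneg x1z (neg_nonneg.2 y2z)]

end Pool.Agent.HillD
end

-- part Pool.Agent.P.MP_ae2765_an.Curves
section

/-! The curves `ω = cur θ0 l m` on which the Prüfer angle has turned by `l π`. -/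

namespace Pool.Agent.HillD
open Real Set Filter Topology

noncomputable def cur (θ0 : ℝ) (l : ℕ) (m : ℝ) : ℝ :=
  Classical.epsilon fun ω => 0 < ω ∧ th m ω θ0 π = θ0 + l * π

variable {θ0 m ω : ℝ} {l : ℕ}

theorem cur_spec (hθ : θ0 = 0 ∨ θ0 = π / 2) (hl : 1 ≤ l) (h0 : 0 ≤ m) (hm : m < 1 / 2) :
    0 < cur θ0 l m ∧ th m (cur θ0 l m) θ0 π = θ0 + l * π := by
  refine Classical.epsilon_spec (p := fun ω => 0 < ω ∧ th m ω θ0 π = θ0 + l * π) ?_
  have hp := pi_pos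
  have hl' : (1 : ℝ) ≤ l := by exact_mod_cast hl
  have c : Continuous fun ω => th m ω θ0 π := continuous_iff_continuousAt.2 fun ω =>
    (th_cont (m := m) (ω := ω) (by linarith) θ0).comp (f := fun ω => (m, ω)) (by fun_prop)
  have a : th m 0 θ0 π < θ0 + l * π := by
    have := th_omega_zero (m := m) (θ0 := θ0) (by linarith) (by rcases hθ with h | h <;> linarith)
    have : π ≤ l * π := by nlinarith
    rcases hθ with h | h <;> linarith
  obtain ⟨ω, hω, e⟩ := intermediate_value_Icc (show (0 : ℝ) ≤ 36 * (l + 1) ^ 2 by positivity)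
    c.continuousOn ⟨a.le, (th_big h0 hm hθ l).le⟩
  refine ⟨ω, hω.1.lt_of_ne fun h => ?_, e⟩
  rw [← h] at e
  exact a.ne e

theorem cur_lt_iff (hθ : θ0 = 0 ∨ θ0 = π / 2) (hl : 1 ≤ l) (h0 : 0 ≤ m) (hm : m < 1 / 2)
    (hω : 0 ≤ ω) : cur θ0 l m < ω ↔ θ0 + l * π < th m ω θ0 π := by
  obtain ⟨c0, c1⟩ := cur_spec hθ hl h0 hm
  constructor
  · intro h
    rw [← c1]; exact th_mono_omega hm c0.le h θ0
  · intro h
    by_contra hc
    push Not at hc
    rcases hc.lt_or_eq with k | k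
    · have := th_mono_omega hm hω k θ0
      linarith
    · rw [k] at h; linarith

theorem lt_cur_iff (hθ : θ0 = 0 ∨ θ0 = π / 2) (hl : 1 ≤ l) (h0 : 0 ≤ m) (hm : m < 1 / 2)
    (hω : 0 ≤ ω) : ω < cur θ0 l m ↔ th m ω θ0 π < θ0 + l * π := by
  obtain ⟨c0, c1⟩ := cur_spec hθ hl h0 hm
  constructor
  · intro h
    rw [← c1]; exact th_mono_omega hm hω h θ0
  · intro h
    by_contra hc
    push Not at hc
    rcases hc.lt_or_eq with k | k
    · have := th_mono_omega hm c0.le k θ0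
      linarith
    · rw [← k] at h; linarith

theorem eq_cur_iff (hθ : θ0 = 0 ∨ θ0 = π / 2) (hl : 1 ≤ l) (h0 : 0 ≤ m) (hm : m < 1 / 2)
    (hω : 0 ≤ ω) : ω = cur θ0 l m ↔ th m ω θ0 π = θ0 + l * π := by
  constructor
  · intro h
    rw [h]; exact (cur_spec hθ hl h0 hm).2
  · intro h
    rcases lt_trichotomy ω (cur θ0 l m) with k | k | k
    · exact absurd h ((lt_cur_iff hθ hl h0 hm hω).1 k).ne
    · exact k
    · exact absurd h ((cur_lt_iff hθ hl h0 hm hω).1 k).ne'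

theorem cur_zero (hθ : θ0 = 0 ∨ θ0 = π / 2) (hl : 1 ≤ l) : cur θ0 l 0 = l :=
  ((eq_cur_iff hθ hl le_rfl (by norm_num) (Nat.cast_nonneg l)).2 (th_zero _ _)).symm

theorem cur_mul_le (hθ : θ0 = 0 ∨ θ0 = π / 2) (hl : 1 ≤ l) (h0 : 0 ≤ m) (hm : m < 1 / 2) :
    cur θ0 l m * (1 - 2 * m) ≤ l := by
  obtain ⟨c0, c1⟩ := cur_spec hθ hl h0 hm
  have := th_ge h0 hm c0.le θ0
  rw [c1] at this
  exact le_of_mul_le_mul_right (by linarith) pi_pos

theorem cur_lt_big (hθ : θ0 = 0 ∨ θ0 = π / 2) (hl : 1 ≤ l) (h0 : 0 ≤ m) (hm : m < 1 / 2) :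
    cur θ0 l m < 36 * (l + 1) ^ 2 :=
  (cur_lt_iff hθ hl h0 hm (by positivity)).2 (th_big h0 hm hθ l)

theorem cur_N1 (h0 : 0 ≤ m) (hm : m < 1 / 2) : cur (π / 2) 1 m = 1 :=
  ((eq_cur_iff (Or.inr rfl) le_rfl h0 hm zero_le_one).2
    (by rw [th_N1 (by linarith)]; simp)).symm

theorem cur_strictMono (hθ : θ0 = 0 ∨ θ0 = π / 2) (hl : 2 ≤ l ∨ (l = 1 ∧ θ0 = 0)) :
    StrictMonoOn (cur θ0 l) (Ico 0 (1 / 2)) := by
  have hl1 : 1 ≤ l := by omega
  have step : ∀ m1 m2 : ℝ, 0 ≤ m1 → m1 < m2 → m2 < 1 / 2 → l ≤ cur θ0 l m1 →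
      cur θ0 l m1 < cur θ0 l m2 := by
    intro m1 m2 h0 h12 hm hc
    obtain ⟨c0, c1⟩ := cur_spec hθ hl1 h0 (h12.trans hm)
    rw [lt_cur_iff hθ hl1 (h0.trans h12.le) hm c0.le]
    rcases hl with h | ⟨h, h'⟩
    · have : (2 : ℝ) ≤ l := by exact_mod_cast h
      refine th_anti h0 h12 hm (by linarith) ?_ c1
      rcases hθ with k | k
      · left; simp [k]
      · right; simp [k, cos_add]
    · subst h h'
      simp only [Nat.cast_one, zero_add, one_mul] at hc c1 ⊢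
      exact th_anti_one h0 h12 hm hc c1
  intro m1 h1 m2 h2 h12
  refine step m1 m2 h1.1 h12 h2.2 ?_
  rcases h1.1.lt_or_eq with h | h
  · have := step 0 m1 le_rfl h h1.2 (cur_zero hθ hl1).ge
    rw [cur_zero hθ hl1] at this
    exact this.le
  · rw [← h, cur_zero hθ hl1]

theorem cur_cont (hθ : θ0 = 0 ∨ θ0 = π / 2) (hl : 1 ≤ l) (h0 : 0 < m) (hm : m < 1 / 2) :
    ContinuousAt (cur θ0 l) m := by
  have c : ∀ ω, ContinuousAt (fun m => th m ω θ0 π) m := fun ω =>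
    (th_cont (m := m) (ω := ω) (by linarith) θ0).comp (f := fun m => (m, ω)) (by fun_prop)
  have hev : ∀ᶠ x in 𝓝 m, x ∈ Ioo 0 (1 / 2) := Ioo_mem_nhds h0 hm
  refine tendsto_order.2 ⟨fun a ha => ?_, fun a ha => ?_⟩
  · rcases lt_or_ge a 0 with h | h
    · filter_upwards [hev] with x hx using h.trans (cur_spec hθ hl hx.1.le hx.2).1
    · have := (c a).eventually_lt continuousAt_const ((lt_cur_iff hθ hl h0.le hm h).1 ha)
      filter_upwards [hev, this] with x hx hx' using (lt_cur_iff hθ hl hx.1.le hx.2 h).2 hx'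
  · have h : 0 ≤ a := ((cur_spec hθ hl h0.le hm).1.trans ha).le
    have := continuousAt_const.eventually_lt (c a) ((cur_lt_iff hθ hl h0.le hm h).1 ha)
    filter_upwards [hev, this] with x hx hx' using (cur_lt_iff hθ hl hx.1.le hx.2 h).2 hx'

theorem cur_interlace (hl : 1 ≤ l) (h0 : 0 ≤ m) (hm : m < 1 / 2) :
    max (cur (π / 2) l m) (cur 0 l m) < min (cur (π / 2) (l + 1) m) (cur 0 (l + 1) m) := by
  have hp := pi_pos
  obtain ⟨a0, a1⟩ := cur_spec (Or.inr rfl) hl h0 hm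
  obtain ⟨b0, b1⟩ := cur_spec (Or.inl rfl) hl h0 hm
  have d1 := th_DN (m := m) (by linarith) (cur (π / 2) l m)
  have d2 := th_DN (m := m) (by linarith) (cur 0 l m)
  have hl' : 1 ≤ l + 1 := by omega
  rw [max_lt_iff, lt_min_iff, lt_min_iff, lt_cur_iff (Or.inr rfl) hl' h0 hm a0.le,
    lt_cur_iff (Or.inl rfl) hl' h0 hm a0.le, lt_cur_iff (Or.inr rfl) hl' h0 hm b0.le,
    lt_cur_iff (Or.inl rfl) hl' h0 hm b0.le]
  push_cast
  refine ⟨⟨?_, ?_⟩, ?_, ?_⟩ <;> linarith [d1.1, d2.2]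

theorem sin_zero_pos {A : ℝ} (hA : 0 < A) : sin A = 0 ↔ ∃ l : ℕ, 1 ≤ l ∧ A = l * π := by
  constructor
  · intro h
    obtain ⟨n, hn⟩ := sin_eq_zero_iff.1 h
    have : (0 : ℝ) < n := (mul_pos_iff_of_pos_right pi_pos).1 (by rwa [hn])
    have h2 : 0 < n := by exact_mod_cast this
    refine ⟨n.toNat, by omega, ?_⟩
    rw [← hn]
    congr 1
    exact_mod_cast (Int.toNat_of_nonneg h2.le).symm
  · rintro ⟨l, -, rfl⟩
    exact sin_nat_mul_pi l

theorem sin_mul_neg {A B : ℝ} (hB : 0 < B) (h : B < A) (h' : A < B + π) :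
    sin A * sin B < 0 ↔ ∃ l : ℕ, 1 ≤ l ∧ B < l * π ∧ l * π < A := by
  constructor
  · intro hs
    have : ∃ z ∈ Ioo B A, sin z = 0 := by
      rcases mul_neg_iff.1 hs with ⟨k1, k2⟩ | ⟨k1, k2⟩
      · exact intermediate_value_Ioo h.le continuous_sin.continuousOn ⟨k2, k1⟩
      · exact intermediate_value_Ioo' h.le continuous_sin.continuousOn ⟨k1, k2⟩
    obtain ⟨z, hz, e⟩ := this
    obtain ⟨l, hl, rfl⟩ := (sin_zero_pos (hB.trans hz.1)).1 e
    exact ⟨l, hl, hz.1, hz.2⟩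
  · rintro ⟨l, -, k1, k2⟩
    have e1 := sin_pos_of_pos_of_lt_pi (x := A - l * π) (by linarith) (by linarith)
    have e2 := sin_neg_of_neg_of_neg_pi_lt (x := B - l * π) (by linarith) (by linarith)
    have e3 := mul_neg_of_pos_of_neg e1 e2
    rw [sin_sub_nat_mul_pi, sin_sub_nat_mul_pi] at e3
    have : ((-1 : ℝ) ^ l) * (-1) ^ l = 1 := by rw [← mul_pow]; simp
    calc sin A * sin B = (-1) ^ l * (-1) ^ l * (sin A * sin B) := by rw [this, one_mul]
      _ = _ := by ring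
      _ < 0 := e3

theorem th_pos (h0 : 0 ≤ m) (hm : m < 1 / 2) (hω : 0 < ω) (θ0 : ℝ) : θ0 < th m ω θ0 π := by
  have := th_strictMono h0 hm hω θ0 pi_pos
  rwa [(th_spec (by linarith) ω θ0).2] at this

theorem sin_D_zero (h0 : 0 ≤ m) (hm : m < 1 / 2) (hω : 0 < ω) :
    sin (th m ω 0 π) = 0 ↔ ∃ l, 1 ≤ l ∧ ω = cur 0 l m := by
  rw [sin_zero_pos (th_pos h0 hm hω 0)]
  refine exists_congr fun l => and_congr_right fun hl => ?_
  rw [eq_cur_iff (Or.inl rfl) hl h0 hm hω.le, zero_add]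

theorem cos_N_zero (h0 : 0 ≤ m) (hm : m < 1 / 2) (hω : 0 < ω) :
    cos (th m ω (π / 2) π) = 0 ↔ ∃ l, 1 ≤ l ∧ ω = cur (π / 2) l m := by
  rw [← sin_sub_pi_div_two_eq_zero_aux, sin_zero_pos (sub_pos.2 (th_pos h0 hm hω _))]
  refine exists_congr fun l => and_congr_right fun hl => ?_
  rw [eq_cur_iff (Or.inr rfl) hl h0 hm hω.le]
  constructor <;> intro h <;> linarith
where
  sin_sub_pi_div_two_eq_zero_aux {x : ℝ} : sin (x - π / 2) = 0 ↔ cos x = 0 := by
    rw [sin_sub_pi_div_two, neg_eq_zero]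

theorem prod_pos_iff (h0 : 0 ≤ m) (hm : m < 1 / 2) (hω : 0 < ω) :
    0 < cos (th m ω (π / 2) π) * sin (th m ω 0 π) ↔ ∃ l, 1 ≤ l ∧
      min (cur (π / 2) l m) (cur 0 l m) < ω ∧ ω < max (cur (π / 2) l m) (cur 0 l m) := by
  have hp := pi_pos
  set A := th m ω 0 π with hA
  set B := th m ω (π / 2) π - π / 2 with hB
  have A0 : 0 < A := th_pos h0 hm hω 0
  have B0 : 0 < B := sub_pos.2 (th_pos h0 hm hω _)
  have d := th_DN (m := m) (by linarith) ω
  have e : cos (th m ω (π / 2) π) = -sin B := by rw [hB, sin_sub_pi_div_two, neg_neg]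
  have key : ∀ l : ℕ, 1 ≤ l → ((min (cur (π / 2) l m) (cur 0 l m) < ω ∧
      ω < max (cur (π / 2) l m) (cur 0 l m)) ↔
      (B < l * π ∧ l * π < A) ∨ (A < l * π ∧ l * π < B)) := by
    intro l hl
    rw [min_lt_iff, lt_max_iff, cur_lt_iff (Or.inr rfl) hl h0 hm hω.le,
      cur_lt_iff (Or.inl rfl) hl h0 hm hω.le, lt_cur_iff (Or.inr rfl) hl h0 hm hω.le,
      lt_cur_iff (Or.inl rfl) hl h0 hm hω.le]
    constructor
    · rintro ⟨k1 | k1, k2 | k2⟩
      · linarith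
      · right; constructor <;> linarith
      · left; constructor <;> linarith
      · linarith
    · rintro (⟨k1, k2⟩ | ⟨k1, k2⟩)
      · exact ⟨Or.inr (by linarith), Or.inl (by linarith)⟩
      · exact ⟨Or.inl (by linarith), Or.inr (by linarith)⟩
  rw [e]
  constructor
  · intro h
    rcases lt_trichotomy A B with k | k | k
    · obtain ⟨l, hl, k⟩ := (sin_mul_neg A0 k (by linarith [d.2])).1 (by linarith)
      exact ⟨l, hl, (key l hl).2 (Or.inr k)⟩
    · rw [k] at h; nlinarith [mul_self_nonneg (sin B)]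
    · obtain ⟨l, hl, k⟩ := (sin_mul_neg B0 k (by linarith [d.1])).1 (by linarith)
      exact ⟨l, hl, (key l hl).2 (Or.inl k)⟩
  · rintro ⟨l, hl, k⟩
    rcases (key l hl).1 k with k | k
    · have := (sin_mul_neg B0 (k.1.trans k.2) (by linarith [d.1])).2 ⟨l, hl, k⟩
      linarith
    · have := (sin_mul_neg A0 (k.1.trans k.2) (by linarith [d.2])).2 ⟨l, hl, k⟩
      linarith

end Pool.Agent.HillD
end

-- part Pool.Agent.P.MP_ae2765_an.Link
section

/-! The monodromy matrix of the Hill equation in terms of the Prüfer angles. -/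

namespace Pool.Agent.HillD
open Real Set Filter Topology

noncomputable def mm (δ : ℝ) : ℝ := δ ^ 2 / (2 * (1 + δ ^ 2))
noncomputable def kap (δ ω : ℝ) : ℝ := √((1 + δ ^ 2) / ω)
noncomputable def tau (δ ω φ : ℝ) : ℝ := (∫ s in (0 : ℝ)..φ, 1 / pm (mm δ) s) / kap δ ω

theorem mm_nonneg (δ : ℝ) : 0 ≤ mm δ := by unfold mm; positivity

theorem mm_lt (δ : ℝ) : mm δ < 1 / 2 := by
  unfold mm
  rw [div_lt_div_iff₀ (by positivity) (by norm_num)]
  nlinarith

theorem mm_lt_one (δ : ℝ) : mm δ < 1 := by linarith [mm_lt δ]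

theorem mm_pos {δ : ℝ} (h : 0 < δ) : 0 < mm δ := by unfold mm; positivity

theorem mm_eq (δ : ℝ) : (1 - 2 * mm δ) * (1 + δ ^ 2) = 1 := by unfold mm; field_simp; ring

theorem mm_strictMono {a b : ℝ} (ha : 0 ≤ a) (h : a < b) : mm a < mm b := by
  unfold mm
  rw [div_lt_div_iff₀ (by positivity) (by positivity)]
  nlinarith

variable {δ ω : ℝ}

theorem kap_pos (hω : 0 < ω) : 0 < kap δ ω := by unfold kap; positivity

theorem kap_sq (hω : 0 < ω) : kap δ ω ^ 2 * ω = 1 + δ ^ 2 := by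
  unfold kap
  rw [sq_sqrt (by positivity)]
  field_simp

theorem inv_pm_cont (δ : ℝ) : Continuous fun s => 1 / pm (mm δ) s :=
  continuous_const.div (pm_cont _) fun t => (pm_pos (mm_lt_one δ) t).ne'

theorem tau_deriv (δ ω φ : ℝ) : HasDerivAt (tau δ ω) (1 / pm (mm δ) φ / kap δ ω) φ :=
  (hasDerivAt_int (inv_pm_cont δ) φ).div_const _

theorem tau_zero (δ ω : ℝ) : tau δ ω 0 = 0 := by simp [tau]

theorem tau_pi (δ ω : ℝ) : tau δ ω π = period δ ω / 2 := by
  have hc := inv_pm_cont δ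
  have e1 : ∫ s in (0 : ℝ)..π, 1 / pm (mm δ) s = 2 * ∫ s in (0 : ℝ)..π / 2, 1 / pm (mm δ) s := by
    rw [← intervalIntegral.integral_add_adjacent_intervals (b := π / 2)
      (hc.intervalIntegrable _ _) (hc.intervalIntegrable _ _), two_mul]
    congr 1
    have := intervalIntegral.integral_comp_sub_left (a := 0) (b := π / 2)
      (fun s => 1 / pm (mm δ) s) π
    rw [show π - π / 2 = π / 2 by ring, sub_zero] at this
    rw [← this]
    simp [pm, Dm]
  have e2 : ellK (δ / √(2 * (1 + δ ^ 2))) = ∫ s in (0 : ℝ)..π / 2, 1 / pm (mm δ) s := by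
    unfold ellK pm Dm mm
    rw [div_pow, sq_sqrt (by positivity)]
  have e3 : √(ω / (1 + δ ^ 2)) = 1 / kap δ ω := by
    unfold kap
    rw [one_div, ← sqrt_inv, inv_div]
  unfold tau period
  rw [e1, e2, e3]
  ring

theorem tau_strictMono (hω : 0 < ω) : StrictMono (tau δ ω) :=
  strictMono_of_deriv_pos fun x => by
    rw [(tau_deriv δ ω x).deriv]
    have := pm_pos (mm_lt_one δ) x
    have := kap_pos (δ := δ) hω
    positivity

theorem tau_surj (hω : 0 < ω) : Function.Surjective (tau δ ω) := by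
  have hk := kap_pos (δ := δ) hω
  have hc : Continuous (tau δ ω) :=
    continuous_iff_continuousAt.2 fun x => (tau_deriv δ ω x).continuousAt
  have hm : Monotone fun x => tau δ ω x - x / kap δ ω := by
    have d : ∀ x, HasDerivAt (fun x => tau δ ω x - x / kap δ ω)
        (1 / pm (mm δ) x / kap δ ω - 1 / kap δ ω) x :=
      fun x => (tau_deriv δ ω x).fun_sub ((hasDerivAt_id x).div_const _)
    refine monotone_of_deriv_nonneg (fun x => (d x).differentiableAt) fun x => ?_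
    rw [(d x).deriv, sub_nonneg]
    refine div_le_div_of_nonneg_right ?_ hk.le
    rw [le_div_iff₀ (pm_pos (mm_lt_one δ) x), one_mul]
    exact pm_le_one (mm_nonneg δ) x
  intro t
  have h1 := hm (show -(|t| * kap δ ω) ≤ 0 by have := abs_nonneg t; nlinarith)
  have h2 := hm (show 0 ≤ |t| * kap δ ω by positivity)
  simp only [tau_zero, zero_div, sub_zero, neg_div, mul_div_cancel_right₀ _ hk.ne'] at h1 h2
  exact intermediate_value_univ (-(|t| * kap δ ω)) (|t| * kap δ ω) hc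
    ⟨by linarith [neg_abs_le t], by linarith [le_abs_self t]⟩

/-- The amplitude: the inverse of `tau`. -/
theorem exists_am (hω : 0 < ω) : ∃ φ : ℝ → ℝ, (∀ x, φ (tau δ ω x) = x) ∧
    ∀ t, HasDerivAt φ (kap δ ω * pm (mm δ) (φ t)) t := by
  let e := (tau_strictMono (δ := δ) hω).orderIsoOfSurjective _ (tau_surj hω)
  refine ⟨e.symm, fun x => e.symm_apply_apply x, fun t => ?_⟩
  have hk := kap_pos (δ := δ) hω
  have hp := pm_pos (mm_lt_one δ) (e.symm t)
  refine (HasDerivAt.of_local_left_inverse e.symm.continuous.continuousAt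
    (tau_deriv δ ω (e.symm t)) (by positivity)
    (Eventually.of_forall fun y => e.apply_symm_apply y)).congr_deriv ?_
  field_simp

theorem duff_of_am (hω : 0 < ω) {φ : ℝ → ℝ}
    (h : ∀ t, HasDerivAt φ (kap δ ω * pm (mm δ) (φ t)) t) (t : ℝ) :
    HasDerivAt (fun t => δ * cos (φ t)) (-(δ * kap δ ω * (pm (mm δ) (φ t) * sin (φ t)))) t ∧
    HasDerivAt (fun t => -(δ * kap δ ω * (pm (mm δ) (φ t) * sin (φ t))))
      (-(δ * cos (φ t) / ω + (δ * cos (φ t)) ^ 3 / ω)) t := by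
  refine ⟨((h t).cos.const_mul δ).congr_deriv (by ring), ?_⟩
  refine (((((pm_deriv (mm_lt_one δ) (φ t)).comp t (h t)).fun_mul (h t).sin).const_mul
    (δ * kap δ ω)).fun_neg).congr_deriv ?_
  have p2 := pm_sq (mm_lt_one δ) (φ t)
  have k2 := kap_sq (δ := δ) hω
  have d0 := Dm_pos (mm_lt_one δ) (φ t)
  have u : um (mm δ) (φ t) * Dm (mm δ) (φ t) = mm δ := by unfold um; field_simp
  have m2 := mm_eq δ
  have hs := sin_sq_add_cos_sq (φ t)
  have dd : Dm (mm δ) (φ t) = 1 - mm δ * sin (φ t) ^ 2 := rfl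
  simp only [Function.comp]
  have : δ * kap δ ω * (-(sin (φ t) * cos (φ t) * um (mm δ) (φ t) * pm (mm δ) (φ t)) *
        (kap δ ω * pm (mm δ) (φ t)) * sin (φ t) +
        pm (mm δ) (φ t) * (cos (φ t) * (kap δ ω * pm (mm δ) (φ t)))) * ω =
      δ * cos (φ t) + (δ * cos (φ t)) ^ 3 := by
    calc _ = δ * cos (φ t) * (kap δ ω ^ 2 * ω) * (pm (mm δ) (φ t) ^ 2 -
          sin (φ t) ^ 2 * (um (mm δ) (φ t) * pm (mm δ) (φ t) ^ 2)) := by ring
      _ = δ * cos (φ t) * (1 + δ ^ 2) * (1 - 2 * mm δ * sin (φ t) ^ 2) := by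
          rw [p2, k2, u, dd]; ring
      _ = _ := by
          linear_combination (δ * cos (φ t) * sin (φ t) ^ 2) * m2 - δ ^ 3 * cos (φ t) * hs
  rw [← add_div, ← this]
  field_simp

theorem duff_unique {Θ1 Θ2 : ℝ → ℝ} (h1 : IsDuffing δ ω Θ1) (h2 : IsDuffing δ ω Θ2) (t : ℝ) :
    Θ1 t = Θ2 t := by
  obtain ⟨a, a0, a1, ha⟩ := h1
  obtain ⟨b, b0, b1, hb⟩ := h2
  have c1 : Continuous Θ1 := continuous_iff_continuousAt.2 fun t => (ha t).1.continuousAt
  have c2 : Continuous Θ2 := continuous_iff_continuousAt.2 fun t => (hb t).1.continuousAt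
  have := lin_zero (a := fun _ => 1) (b := fun t => (1 + Θ1 t ^ 2 + Θ1 t * Θ2 t + Θ2 t ^ 2) / ω)
    (x := fun t => Θ1 t - Θ2 t) (y := fun t => a t - b t) continuous_const (by fun_prop)
    (fun t => ⟨((ha t).1.fun_sub (hb t).1).congr_deriv (by ring),
      ((ha t).2.fun_sub (hb t).2).congr_deriv (by ring)⟩) (by simp [a0, b0]) (by simp [a1, b1]) t
  linarith [this.1]

theorem cB_mm (hω : 0 < ω) (x : ℝ) :
    kap δ ω ^ 2 * ω * pm (mm δ) x * cB (mm δ) ω x = ω + (δ * cos x) ^ 2 := by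
  have hp := pm_pos (mm_lt_one δ) x
  have m2 := mm_eq δ
  rw [kap_sq hω]
  unfold cB
  field_simp
  linear_combination (ω - cos x ^ 2) * m2

noncomputable def sx (m ω θ0 t : ℝ) : ℝ :=
  rad (cA m ω) (cB m ω) (th m ω θ0) t * sin (th m ω θ0 t)
noncomputable def sy (m ω θ0 t : ℝ) : ℝ :=
  rad (cA m ω) (cB m ω) (th m ω θ0) t * cos (th m ω θ0 t)

theorem s_lin {m : ℝ} (hm : m < 1) (ω θ0 : ℝ) :
    IsLin (cA m ω) (cB m ω) (sx m ω θ0) (sy m ω θ0) :=
  lin_of_ang (cA_cont hm ω) (cB_cont hm ω) (th_spec hm ω θ0).1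

theorem sx_zero {m : ℝ} (hm : m < 1) (ω θ0 : ℝ) : sx m ω θ0 0 = sin θ0 := by
  simp [sx, rad_zero, (th_spec hm ω θ0).2]

theorem sy_zero {m : ℝ} (hm : m < 1) (ω θ0 : ℝ) : sy m ω θ0 0 = cos θ0 := by
  simp [sy, rad_zero, (th_spec hm ω θ0).2]

/-- The monodromy matrix. -/
noncomputable def mono (δ ω : ℝ) : Matrix (Fin 2) (Fin 2) ℝ :=
  !![sx (mm δ) ω (π / 2) π, sx (mm δ) ω 0 π / (kap δ ω * ω);
    kap δ ω * ω * sy (mm δ) ω (π / 2) π, sy (mm δ) ω 0 π]

theorem isMonodromy_iff (hω : 0 < ω) (X : Matrix (Fin 2) (Fin 2) ℝ) :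
    IsMonodromy δ ω X ↔ X = mono δ ω := by
  obtain ⟨φ, φ1, φ2⟩ := exists_am (δ := δ) hω
  have φ0 : φ 0 = 0 := by simpa [tau_zero] using φ1 0
  have φL : φ (period δ ω / 2) = π := by rw [← tau_pi, φ1]
  have hk := kap_pos (δ := δ) hω
  have hm := mm_lt_one δ
  have duff : IsDuffing δ ω fun t => δ * cos (φ t) :=
    ⟨_, by simp [φ0], by simp [φ0], duff_of_am hω φ2⟩
  have sol : ∀ θ0 ρ : ℝ, IsSol (fun t => ω + (δ * cos (φ t)) ^ 2)
      (fun t => ρ * sx (mm δ) ω θ0 (φ t)) fun t => ρ * (kap δ ω * ω * sy (mm δ) ω θ0 (φ t)) := by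
    intro θ0 ρ t
    have l := s_lin hm ω θ0 (φ t)
    have hp := pm_pos hm (φ t)
    constructor
    · refine ((l.1.comp t (φ2 t)).const_mul ρ).congr_deriv ?_
      unfold cA; field_simp
    · refine (((l.2.comp t (φ2 t)).const_mul (kap δ ω * ω)).const_mul ρ).congr_deriv ?_
      simp only
      rw [← cB_mm hω]; ring
  have uniq : ∀ {q ξ ξ' η η' : ℝ → ℝ}, Continuous q → IsSol q ξ ξ' → IsSol q η η' → ξ 0 = η 0 →
      ξ' 0 = η' 0 → ∀ t, ξ t = η t ∧ ξ' t = η' t := by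
    intro q ξ ξ' η η' hq h1 h2 e1 e2 t
    have := lin_zero (a := fun _ => 1) (b := q) (x := fun t => ξ t - η t)
      (y := fun t => ξ' t - η' t) continuous_const hq
      (fun t => ⟨((h1 t).1.fun_sub (h2 t).1).congr_deriv (by ring),
        ((h1 t).2.fun_sub (h2 t).2).congr_deriv (by ring)⟩) (by simp [e1]) (by simp [e2]) t
    constructor <;> linarith [this.1, this.2]
  have i1 : 1 * sx (mm δ) ω (π / 2) (φ 0) = 1 := by simp [φ0, sx_zero hm]
  have i2 : 1 * (kap δ ω * ω * sy (mm δ) ω (π / 2) (φ 0)) = 0 := by simp [φ0, sy_zero hm]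
  have i3 : 1 / (kap δ ω * ω) * sx (mm δ) ω 0 (φ 0) = 0 := by simp [φ0, sx_zero hm]
  have i4 : 1 / (kap δ ω * ω) * (kap δ ω * ω * sy (mm δ) ω 0 (φ 0)) = 1 := by
    rw [φ0, sy_zero hm, cos_zero]; field_simp
  have fin : mono δ ω = !![1 * sx (mm δ) ω (π / 2) (φ (period δ ω / 2)),
      1 / (kap δ ω * ω) * sx (mm δ) ω 0 (φ (period δ ω / 2));
      1 * (kap δ ω * ω * sy (mm δ) ω (π / 2) (φ (period δ ω / 2))),
      1 / (kap δ ω * ω) * (kap δ ω * ω * sy (mm δ) ω 0 (φ (period δ ω / 2)))] := by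
    have e : 1 / (kap δ ω * ω) * (kap δ ω * ω * sy (mm δ) ω 0 π) = sy (mm δ) ω 0 π := by
      field_simp
    rw [φL, e, one_mul, one_mul, mono, div_eq_inv_mul (sx _ _ _ _), one_div]
  constructor
  · rintro ⟨Θ, c, c', s, s', hΘ, hc, c0, c1, hs, s0, s1, rfl⟩
    have eΘ : Θ = fun t => δ * cos (φ t) := funext (duff_unique hΘ duff)
    subst eΘ
    have φc : Continuous φ := continuous_iff_continuousAt.2 fun t => (φ2 t).continuousAt
    have u1 := uniq (by fun_prop) hc (sol (π / 2) 1) (by rw [c0, i1]) (by rw [c1, i2])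
      (period δ ω / 2)
    have u2 := uniq (by fun_prop) hs (sol 0 (1 / (kap δ ω * ω))) (by rw [s0, i3]) (by rw [s1, i4])
      (period δ ω / 2)
    rw [fin, u1.1, u1.2, u2.1, u2.2]
  · rintro rfl
    exact ⟨_, _, _, _, _, duff, sol (π / 2) 1, i1, i2, sol 0 (1 / (kap δ ω * ω)), i3, i4, fin⟩

theorem trace_sq (δ ω : ℝ) :
    (mono δ ω).trace ^ 2 - 4 = 4 * (sy (mm δ) ω (π / 2) π * sx (mm δ) ω 0 π) := by
  have hm := mm_lt_one δ
  have w1 := wronski (s_lin hm ω (π / 2)) (s_lin hm ω 0) π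
  have w2 := wronski_refl (s_lin hm ω (π / 2)) (s_lin hm ω 0) (cA_symm _ _) (cB_symm _ _) π
  simp only [sub_self, sx_zero hm, sy_zero hm, sin_zero, cos_zero, sin_pi_div_two,
    cos_pi_div_two] at w1 w2
  rw [mono, Matrix.trace_fin_two_of]
  have e : sx (mm δ) ω (π / 2) π = sy (mm δ) ω 0 π := by linarith
  rw [e] at w1 ⊢
  linear_combination 4 * w1

theorem mono_10 (hω : 0 < ω) : mono δ ω 1 0 = 0 ↔ ∃ l, 1 ≤ l ∧ ω = cur (π / 2) l (mm δ) := by
  rw [← cos_N_zero (mm_nonneg δ) (mm_lt δ) hω]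
  simp [mono, sy, (kap_pos (δ := δ) hω).ne', hω.ne', (rad_pos _ _ _ _).ne']

theorem mono_01 (hω : 0 < ω) : mono δ ω 0 1 = 0 ↔ ∃ l, 1 ≤ l ∧ ω = cur 0 l (mm δ) := by
  rw [← sin_D_zero (mm_nonneg δ) (mm_lt δ) hω]
  simp [mono, sx, (kap_pos (δ := δ) hω).ne', hω.ne', (rad_pos _ _ _ _).ne']

theorem trace_eq_two (hω : 0 < ω) : |(mono δ ω).trace| = 2 ↔
    ∃ l, 1 ≤ l ∧ (ω = cur (π / 2) l (mm δ) ∨ ω = cur 0 l (mm δ)) := by
  have e := trace_sq δ ω
  have : |(mono δ ω).trace| = 2 ↔ sy (mm δ) ω (π / 2) π * sx (mm δ) ω 0 π = 0 := by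
    rw [← sq_eq_sq₀ (abs_nonneg _) zero_le_two, sq_abs]
    constructor <;> intro h <;> linarith
  rw [this]
  simp only [and_or_left, exists_or, ← cos_N_zero (mm_nonneg δ) (mm_lt δ) hω,
    ← sin_D_zero (mm_nonneg δ) (mm_lt δ) hω]
  simp [sx, sy, (rad_pos _ _ _ _).ne']

theorem two_lt_trace (hω : 0 < ω) : 2 < |(mono δ ω).trace| ↔ ∃ l, 1 ≤ l ∧
    min (cur (π / 2) l (mm δ)) (cur 0 l (mm δ)) < ω ∧
      ω < max (cur (π / 2) l (mm δ)) (cur 0 l (mm δ)) := by
  have e := trace_sq δ ω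
  have : 2 < |(mono δ ω).trace| ↔ 0 < sy (mm δ) ω (π / 2) π * sx (mm δ) ω 0 π := by
    rw [← sq_lt_sq₀ zero_le_two (abs_nonneg _), sq_abs]
    constructor <;> intro h <;> linarith
  rw [this, ← prod_pos_iff (mm_nonneg δ) (mm_lt δ) hω]
  unfold sx sy
  rw [mul_mul_mul_comm, mul_pos_iff_of_pos_left (mul_pos (rad_pos _ _ _ _) (rad_pos _ _ _ _))]

end Pool.Agent.HillD
end

-- part Pool.Agent.P.MP_ae2765_an.Ana
section

/-! Analytic dependence of the solutions on the parameters, and analyticity of the curves. -/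

namespace Pool.Agent.HillD
open Real Set Filter Topology

abbrev CI : Type := C(Icc (0 : ℝ) π, ℝ)

noncomputable def ext (f : CI) (s : ℝ) : ℝ := f (projIcc 0 π pi_pos.le s)

theorem ext_cont (f : CI) : Continuous (ext f) := f.continuous.comp continuous_projIcc

theorem Jint_cont (lam : ℝ) (f : CI) : Continuous fun s => exp (lam * s) * ext f s := by
  have := ext_cont f
  fun_prop

/-- The weighted integration operator. -/
noncomputable def Jlin (lam : ℝ) : CI →ₗ[ℝ] CI where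
  toFun f := ⟨fun t => exp (-(lam * t)) * ∫ s in (0 : ℝ)..t, exp (lam * s) * ext f s, by
    have : Continuous fun u : ℝ => ∫ s in (0 : ℝ)..u, exp (lam * s) * ext f s :=
      continuous_iff_continuousAt.2 fun x => (hasDerivAt_int (Jint_cont lam f) x).continuousAt
    fun_prop⟩
  map_add' f g := by
    ext t
    simp only [ContinuousMap.coe_mk, ContinuousMap.add_apply]
    rw [← mul_add, ← intervalIntegral.integral_add ((Jint_cont lam f).intervalIntegrable _ _)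
      ((Jint_cont lam g).intervalIntegrable _ _)]
    simp [ext, mul_add]
  map_smul' c f := by
    ext t
    simp only [ContinuousMap.coe_mk, ContinuousMap.smul_apply, RingHom.id_apply, smul_eq_mul]
    rw [mul_left_comm c, ← intervalIntegral.integral_const_mul c]
    simp [ext, mul_left_comm]

theorem Jlin_apply (lam : ℝ) (f : CI) (t : Icc (0 : ℝ) π) :
    Jlin lam f t = exp (-(lam * t)) * ∫ s in (0 : ℝ)..t, exp (lam * s) * ext f s := rfl

theorem Jlin_bound {lam : ℝ} (h : 0 < lam) (f : CI) : ‖Jlin lam f‖ ≤ lam⁻¹ * ‖f‖ := by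
  refine (ContinuousMap.norm_le _ (by positivity)).2 fun t => ?_
  rw [Jlin_apply, norm_mul, Real.norm_eq_abs, abs_of_pos (exp_pos _)]
  have i1 : ∫ s in (0 : ℝ)..t, exp (lam * s) * ‖f‖ = (exp (lam * t) - 1) * (lam⁻¹ * ‖f‖) := by
    have := intervalIntegral.integral_eq_sub_of_hasDerivAt (a := 0) (b := t)
      (f := fun s => exp (lam * s) * (lam⁻¹ * ‖f‖)) (f' := fun s => exp (lam * s) * ‖f‖)
      (fun s _ => ((((hasDerivAt_id s).const_mul lam).exp).mul_const _).congr_deriv (by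
        simp only [id]; field_simp)) (by apply Continuous.intervalIntegrable; fun_prop)
    rw [this]; simp; ring
  have i2 : ‖∫ s in (0 : ℝ)..t, exp (lam * s) * ext f s‖ ≤ ∫ s in (0 : ℝ)..t, exp (lam * s) * ‖f‖ :=
    intervalIntegral.norm_integral_le_of_norm_le t.2.1 (Eventually.of_forall fun s _ => by
      rw [norm_mul, Real.norm_eq_abs, abs_of_pos (exp_pos _)]
      exact mul_le_mul_of_nonneg_left (f.norm_coe_le_norm _) (exp_pos _).le)
      (by apply Continuous.intervalIntegrable; fun_prop)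
  rw [i1] at i2
  have e : exp (-(lam * t)) * exp (lam * t) = 1 := by rw [← exp_add]; simp
  have p : 0 ≤ exp (-(lam * t)) * (lam⁻¹ * ‖f‖) := by positivity
  calc _ ≤ exp (-(lam * t)) * ((exp (lam * t) - 1) * (lam⁻¹ * ‖f‖)) :=
        mul_le_mul_of_nonneg_left i2 (exp_pos _).le
    _ = exp (-(lam * t)) * exp (lam * t) * (lam⁻¹ * ‖f‖) - exp (-(lam * t)) * (lam⁻¹ * ‖f‖) := by
        ring
    _ ≤ _ := by rw [e]; linarith

noncomputable def J {lam : ℝ} (h : 0 < lam) : CI →L[ℝ] CI :=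
  (Jlin lam).mkContinuous lam⁻¹ (Jlin_bound h)

theorem J_norm {lam : ℝ} (h : 0 < lam) : ‖J h‖ ≤ lam⁻¹ :=
  LinearMap.mkContinuous_norm_le _ (by positivity) _

/-- A continuous function, restricted to `[0, π]`. -/
def res (g : ℝ → ℝ) (hg : Continuous g) : CI := ⟨fun t => g t, hg.comp continuous_subtype_val⟩

noncomputable def wt (lam : ℝ) : CI := res (fun t => exp (-(lam * t))) (by fun_prop)

theorem ftc {lam : ℝ} (h : 0 < lam) {g g' : ℝ → ℝ} (hg : Continuous g) (hg' : Continuous g')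
    (hd : ∀ t, HasDerivAt g (g' t) t) :
    wt lam * res g hg = g 0 • wt lam + J h (wt lam * res g' hg') := by
  ext t
  have e1 : J h (wt lam * res g' hg') t =
      exp (-(lam * t)) * ∫ s in (0 : ℝ)..t, exp (lam * s) * ext (wt lam * res g' hg') s := rfl
  have e2 : ∫ s in (0 : ℝ)..t, exp (lam * s) * ext (wt lam * res g' hg') s
      = ∫ s in (0 : ℝ)..t, g' s := by
    refine intervalIntegral.integral_congr fun s hs => ?_
    rw [uIcc_of_le t.2.1] at hs
    have hs' : s ∈ Icc 0 π := ⟨hs.1, hs.2.trans t.2.2⟩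
    simp only [ext, projIcc_of_mem _ hs', wt, res, ContinuousMap.mul_apply, ContinuousMap.coe_mk]
    rw [← mul_assoc, ← exp_add]; simp
  rw [ContinuousMap.add_apply, e1, e2, intervalIntegral.integral_eq_sub_of_hasDerivAt
    (fun s _ => hd s) (hg'.intervalIntegrable _ _)]
  simp only [wt, res, ContinuousMap.mul_apply, ContinuousMap.coe_mk, ContinuousMap.smul_apply,
    smul_eq_mul]
  ring

noncomputable def Sq : CI := res (fun t => sin t ^ 2) (by fun_prop)
noncomputable def SC : CI := res (fun t => sin t * cos t) (by fun_prop)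
noncomputable def UU (m : ℝ) : CI := m • Ring.inverse (1 - m • Sq)
noncomputable def BB (z : ℝ × ℝ) : CI :=
  z.2 • 1 + UU z.1 * (z.2 • (Sq - (2 : ℝ) • 1) + (2 : ℝ) • (1 - Sq))
noncomputable def GG (z : ℝ × ℝ) : CI := SC * UU z.1

theorem unit_D {m : ℝ} (hm : m < 1) : IsUnit (1 - m • Sq) := by
  rw [ContinuousMap.isUnit_iff_forall_ne_zero]
  intro t
  exact (Dm_pos hm t).ne'

theorem UU_apply {m : ℝ} (hm : m < 1) (t : Icc (0 : ℝ) π) : UU m t = um m t := by
  have e : Ring.inverse (1 - m • Sq) t * Dm m t = 1 :=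
    congrArg (fun f : CI => f t) (Ring.inverse_mul_cancel _ (unit_D hm))
  have := Dm_pos hm t
  show m * Ring.inverse (1 - m • Sq) t = m / Dm m t
  rw [eq_div_iff this.ne', mul_assoc, e, mul_one]

theorem UU_ana {z : ℝ × ℝ} (hm : z.1 < 1) : AnalyticAt ℝ (fun w : ℝ × ℝ => UU w.1) z := by
  obtain ⟨u, hu⟩ := unit_D hm
  have a1 : AnalyticAt ℝ (fun w : ℝ × ℝ => 1 - w.1 • Sq) z :=
    analyticAt_const.sub (analyticAt_fst.smul analyticAt_const)
  exact analyticAt_fst.smul ((analyticAt_inverse (𝕜 := ℝ) u).comp_of_eq a1 hu.symm)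

theorem BB_ana {z : ℝ × ℝ} (hm : z.1 < 1) : AnalyticAt ℝ BB z :=
  (analyticAt_snd.smul analyticAt_const).add ((UU_ana hm).mul
    ((analyticAt_snd.smul analyticAt_const).add analyticAt_const))

theorem GG_ana {z : ℝ × ℝ} (hm : z.1 < 1) : AnalyticAt ℝ GG z :=
  analyticAt_const.mul (UU_ana hm)

theorem abs_ana {A : Type*} [NormedRing A] [NormedAlgebra ℝ A] [CompleteSpace A]
    (J : A →L[ℝ] A) {B G R : ℝ × ℝ → A} {z : ℝ × ℝ} (hB : AnalyticAt ℝ B z) (hG : AnalyticAt ℝ G z)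
    (hR : AnalyticAt ℝ R z) (j : ‖J‖ ≤ (1 + |z.2| * ‖B z‖ + ‖G z‖)⁻¹) :
    ∃ Z : ℝ × ℝ → A, AnalyticAt ℝ Z z ∧
      ∀ᶠ w in 𝓝 z, ∀ Y, Y = R w + J (G w * Y - w.2 • (B w * J Y)) → Z w = Y := by
  set lam := 1 + |z.2| * ‖B z‖ + ‖G z‖ with hlam
  have l1 : 1 ≤ lam := by
    have : 0 ≤ |z.2| * ‖B z‖ := by positivity
    linarith [norm_nonneg (G z)]
  have l0 : 0 < lam := by linarith
  set Mu := ContinuousLinearMap.mul ℝ A with hMu
  set K : ℝ × ℝ → A →L[ℝ] A := fun w => J * (Mu (G w) - w.2 • (Mu (B w) * J)) with hK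
  have aB : AnalyticAt ℝ (fun w => Mu (B w)) z := (Mu.analyticAt _).comp hB
  have aG : AnalyticAt ℝ (fun w => Mu (G w)) z := (Mu.analyticAt _).comp hG
  have aK : AnalyticAt ℝ K z :=
    analyticAt_const.mul (aG.sub (analyticAt_snd.smul (aB.mul analyticAt_const)))
  have nK : ‖K z‖ < 1 := by
    have j1 : ‖J‖ ≤ 1 := j.trans (inv_le_one_of_one_le₀ l1)
    have m1 : ∀ f : A, ‖Mu f‖ ≤ ‖f‖ := fun f => ContinuousLinearMap.opNorm_mul_apply_le ℝ A f
    have e1 : ‖z.2 • (Mu (B z) * J)‖ ≤ |z.2| * ‖B z‖ := by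
      rw [norm_smul, Real.norm_eq_abs]
      refine mul_le_mul_of_nonneg_left ((norm_mul_le _ _).trans ?_) (abs_nonneg _)
      calc _ ≤ ‖B z‖ * 1 := mul_le_mul (m1 _) j1 (norm_nonneg _) (norm_nonneg _)
        _ = _ := mul_one _
    have e2 := (norm_sub_le (Mu (G z)) (z.2 • (Mu (B z) * J))).trans (add_le_add (m1 _) e1)
    calc _ ≤ ‖J‖ * ‖Mu (G z) - z.2 • (Mu (B z) * J)‖ := norm_mul_le _ _
      _ ≤ lam⁻¹ * (lam - 1) :=
          mul_le_mul j (by linarith) (norm_nonneg _) (by positivity)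
      _ < 1 := by rw [inv_mul_lt_iff₀ l0]; linarith
  obtain ⟨u, hu⟩ := isUnit_one_sub_of_norm_lt_one nK
  have aI : AnalyticAt ℝ (fun w => Ring.inverse (1 - K w)) z :=
    (analyticAt_inverse (𝕜 := ℝ) u).comp_of_eq (analyticAt_const.sub aK) hu.symm
  refine ⟨fun w => Ring.inverse (1 - K w) (R w),
    ((ContinuousLinearMap.apply ℝ A).flip.analyticAt_bilinear _).comp₂ aI hR, ?_⟩
  filter_upwards [aK.continuousAt.norm.eventually_lt continuousAt_const nK] with w h1 Y hY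
  have g3 : (1 - K w) Y = R w := by
    have : K w Y = J (G w * Y - w.2 • (B w * J Y)) := rfl
    rw [sub_apply, one_apply_eq_self, this, sub_eq_iff_eq_add]
    exact hY
  rw [← g3, ← mul_apply_eq_comp,
    Ring.inverse_mul_cancel _ (isUnit_one_sub_of_norm_lt_one h1), one_apply_eq_self]

theorem s_ana {z : ℝ × ℝ} (hm : z.1 < 1) (θ0 : ℝ) :
    AnalyticAt ℝ (fun w : ℝ × ℝ => sx w.1 w.2 θ0 π) z ∧
      AnalyticAt ℝ (fun w : ℝ × ℝ => sy w.1 w.2 θ0 π) z := by
  set lam := 1 + |z.2| * ‖BB z‖ + ‖GG z‖ with hlam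
  have l0 : 0 < lam := by positivity
  set R : ℝ × ℝ → CI := fun w => cos θ0 • wt lam - sin θ0 • J l0 (BB w * wt lam) with hR
  have aR0 : AnalyticAt ℝ (fun w => BB w * wt lam) z := (BB_ana hm).mul analyticAt_const
  have aR1 : AnalyticAt ℝ (fun w => J l0 (BB w * wt lam)) z :=
    ((J l0).analyticAt _).comp (f := fun w => BB w * wt lam) aR0
  have aR : AnalyticAt ℝ R z := analyticAt_const.sub ((analyticAt_const (v := sin θ0)).smul aR1)
  obtain ⟨Z, aZ, hev1⟩ := abs_ana (J l0) (BB_ana hm) (GG_ana hm) aR (J_norm l0)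
  set X : ℝ × ℝ → CI := fun w => sin θ0 • wt lam + w.2 • J l0 (Z w) with hX
  have aX : AnalyticAt ℝ X z :=
    analyticAt_const.add (analyticAt_snd.smul (((J l0).analyticAt _).comp aZ))
  set P : Icc (0 : ℝ) π := ⟨π, pi_pos.le, le_rfl⟩ with hP
  let evP : CI →L[ℝ] ℝ := LinearMap.mkContinuous
    { toFun := fun f => f P, map_add' := fun _ _ => rfl, map_smul' := fun _ _ => rfl } 1
    fun f => by simpa using f.norm_coe_le_norm P
  have ev : ∀ {F : ℝ × ℝ → CI}, AnalyticAt ℝ F z →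
      AnalyticAt ℝ (fun w => exp (lam * π) * F w P) z := fun hF =>
    analyticAt_const.mul ((evP.analyticAt _).comp hF)
  have hev2 : ∀ᶠ w : ℝ × ℝ in 𝓝 z, w.1 < 1 := continuousAt_fst.eventually_lt continuousAt_const hm
  have key : ∀ᶠ w in 𝓝 z, exp (lam * π) * X w P = sx w.1 w.2 θ0 π ∧
      exp (lam * π) * Z w P = sy w.1 w.2 θ0 π := by
    filter_upwards [hev1, hev2] with w h1 h2
    have l := s_lin h2 w.2 θ0
    have cx := l.cont1
    have cu : Continuous (um w.1) :=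
      continuous_iff_continuousAt.2 fun t => (um_deriv h2 t).continuousAt
    set x := sx w.1 w.2 θ0 with hx
    set y := fun t => sy w.1 w.2 θ0 t / pm w.1 t with hy
    have cy : Continuous y := l.cont2.div (pm_cont _) fun t => (pm_pos h2 t).ne'
    have dx : ∀ t, HasDerivAt x (w.2 * y t) t := fun t =>
      (l t).1.congr_deriv (by simp only [hy, cA]; ring)
    have dy : ∀ t, HasDerivAt y (sin t * cos t * um w.1 t * y t -
        (w.2 + um w.1 t * (w.2 * (sin t ^ 2 - 2) + 2 * (1 - sin t ^ 2))) * x t) t := fun t => by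
      have p := pm_pos h2 t
      refine ((l t).2.fun_div (pm_deriv h2 t) p.ne').congr_deriv ?_
      rw [cB_eq h2]
      simp only [hy]
      field_simp
      ring
    have f1 := ftc l0 cx (by fun_prop) dx
    have f2 := ftc l0 cy (by fun_prop) dy
    have x0 : x 0 = sin θ0 := sx_zero h2 _ _
    have y0 : y 0 = cos θ0 := by simp [hy, sy_zero h2, pm_of_sin sin_zero]
    set Xw := wt lam * res x cx with hXw
    set Yw := wt lam * res y cy with hYw
    have g1 : Xw = sin θ0 • wt lam + w.2 • J l0 Yw := by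
      rw [f1, x0, ← map_smul]
      congr 2
      ext t
      simp [hYw, res]; ring
    have g2 : Yw = cos θ0 • wt lam + J l0 (GG w * Yw - BB w * Xw) := by
      refine f2.trans ?_
      rw [y0]
      congr 2
      ext t
      simp [hYw, hXw, res, GG, BB, SC, Sq, UU_apply h2]; ring
    have g4 : Z w = Yw := by
      refine h1 Yw ?_
      have : Yw = cos θ0 • wt lam + J l0 (GG w * Yw - BB w * (sin θ0 • wt lam + w.2 • J l0 Yw)) := by
        rw [← g1]; exact g2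
      refine this.trans ?_
      simp only [hR, mul_add, mul_smul_comm, map_sub, map_add, map_smul]
      abel
    have g5 : X w = Xw := by simp only [hX]; rw [g4, ← g1]
    have e : exp (lam * π) * exp (-(lam * π)) = 1 := by rw [← exp_add]; simp
    rw [g4, g5]
    constructor
    · show exp (lam * π) * (exp (-(lam * π)) * x π) = _
      rw [← mul_assoc, e, one_mul]
    · show exp (lam * π) * (exp (-(lam * π)) * y π) = _
      rw [← mul_assoc, e, one_mul, hy]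
      simp [pm_of_sin sin_pi]
  exact ⟨(ev aX).congr (key.mono fun w h => h.1), (ev aZ).congr (key.mono fun w h => h.2)⟩

theorem cmp_ge {a1 b1 θ1 a2 b2 θ2 : ℝ → ℝ} {T ε K : ℝ} (ha : Continuous a2) (hb : Continuous b2)
    (h1 : IsAng a1 b1 θ1) (h2 : IsAng a2 b2 θ2) (hT : 0 ≤ T) (hε : 0 ≤ ε)
    (hA : ∀ x ∈ Icc 0 T, ε ≤ a1 x - a2 x) (hB : ∀ x ∈ Icc 0 T, ε ≤ b1 x - b2 x)
    (hK : ∀ x ∈ Icc 0 T, |b2 x - a2 x| ≤ K) (h0 : θ1 0 = θ2 0) :
    exp (-(K * T)) * ε * T * exp (-(K * T)) ≤ θ1 T - θ2 T := by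
  obtain ⟨H, H0, hd, hH⟩ := cmp ha hb h1 h2
  have hH := hH T K hK
  have := (convex_Icc (0 : ℝ) T).mul_sub_le_image_sub_of_le_deriv
    (f := fun x => (θ1 x - θ2 x) * exp (-H x)) (C := exp (-(K * T)) * ε)
    (fun x _ => (hd x).continuousAt.continuousWithinAt)
    (fun x _ => (hd x).differentiableAt.differentiableWithinAt) (fun x hx => by
      have hx := interior_subset hx
      rw [(hd x).deriv]
      have k1 : exp (-(K * T)) ≤ exp (-H x) := exp_le_exp.2 (by linarith [(abs_le.1 (hH x hx)).2])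
      have k2 : ε ≤ (a1 x - a2 x) * cos (θ1 x) ^ 2 + (b1 x - b2 x) * sin (θ1 x) ^ 2 := by
        have := sin_sq_add_cos_sq (θ1 x)
        have e1 := mul_le_mul_of_nonneg_right (hA x hx) (sq_nonneg (cos (θ1 x)))
        have e2 := mul_le_mul_of_nonneg_right (hB x hx) (sq_nonneg (sin (θ1 x)))
        nlinarith
      gcongr) 0 ⟨le_rfl, hT⟩ T ⟨hT, le_rfl⟩ hT
  simp only [h0, sub_self, zero_mul, sub_zero] at this
  have k1 : exp (-(K * T)) ≤ exp (H T) := exp_le_exp.2 (abs_le.1 (hH T ⟨hT, le_rfl⟩)).1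
  have e : θ1 T - θ2 T = (θ1 T - θ2 T) * exp (-H T) * exp (H T) := by
    rw [mul_assoc, ← exp_add]; simp
  rw [e]
  exact mul_le_mul this k1 (exp_pos _).le (le_trans (by positivity) this)

theorem th_rate {m ω0 : ℝ} (h0 : 0 ≤ m) (hm : m < 1 / 2) (θ0 : ℝ) :
    ∃ c > 0, ∀ ω ≥ ω0, c * (ω - ω0) ≤ th m ω θ0 π - th m ω0 θ0 π := by
  have k : m < 1 := by linarith
  obtain ⟨K, hK⟩ := exists_bound (cA_cont k ω0) (cB_cont k ω0) π
  have hK' : ∀ x ∈ Icc 0 π, |cB m ω0 x - cA m ω0 x| ≤ K := fun x hx => by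
    have := hK x ⟨by linarith [hx.1, pi_pos], hx.2⟩
    have h2 := abs_sub (cB m ω0 x) (cA m ω0 x)
    linarith
  have hp := pi_pos
  have h2 : 0 < 1 - 2 * m := by linarith
  refine ⟨exp (-(K * π)) * (1 - 2 * m) * π * exp (-(K * π)), by positivity, fun ω hω => ?_⟩
  have s1 := th_spec k ω θ0
  have s2 := th_spec k ω0 θ0
  have d : 0 ≤ ω - ω0 := sub_nonneg.2 hω
  have := cmp_ge (ε := (ω - ω0) * (1 - 2 * m)) (cA_cont k ω0) (cB_cont k ω0) s1.1 s2.1 hp.le
    (by positivity) (fun x _ => by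
      unfold cA
      rw [← sub_div, le_div_iff₀ (pm_pos k x)]
      refine (mul_le_of_le_one_right (by positivity) (pm_le_one h0 x)).trans ?_
      nlinarith) (fun x _ => by
      unfold cB
      rw [← sub_div, le_div_iff₀ (pm_pos k x)]
      refine (mul_le_of_le_one_right (by positivity) (pm_le_one h0 x)).trans ?_
      linarith) hK' (by rw [s1.2, s2.2])
  linarith

theorem cur_ana {θ0 m : ℝ} {l : ℕ} (hθ : θ0 = 0 ∨ θ0 = π / 2) (hl : 1 ≤ l) (h0 : 0 < m)
    (hm : m < 1 / 2) : AnalyticAt ℝ (cur θ0 l) m := by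
  have k : m < 1 := by linarith
  obtain ⟨c0, c1⟩ := cur_spec hθ hl h0.le hm
  set ω0 := cur θ0 l m with hω0
  set τ := θ0 + l * π with hτ
  obtain ⟨ax, ay⟩ := s_ana (z := (m, ω0)) k θ0
  set G : ℝ × ℝ → ℝ := fun w => sx w.1 w.2 θ0 π * cos τ - sy w.1 w.2 θ0 π * sin τ with hG
  set H : ℝ × ℝ → ℝ := fun w => sx w.1 w.2 θ0 π * sin τ + sy w.1 w.2 θ0 π * cos τ with hH
  have aG : AnalyticAt ℝ G (m, ω0) := (ax.mul analyticAt_const).sub (ay.mul analyticAt_const)
  have aH : AnalyticAt ℝ H (m, ω0) := (ax.mul analyticAt_const).add (ay.mul analyticAt_const)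
  have eG : ∀ w : ℝ × ℝ, G w = rad (cA w.1 w.2) (cB w.1 w.2) (th w.1 w.2 θ0) π *
      sin (th w.1 w.2 θ0 π - τ) := fun w => by simp only [hG, sx, sy, sin_sub]; ring
  have eH : ∀ w : ℝ × ℝ, H w = rad (cA w.1 w.2) (cB w.1 w.2) (th w.1 w.2 θ0) π *
      cos (th w.1 w.2 θ0 π - τ) := fun w => by simp only [hH, sx, sy, cos_sub]; ring
  have G0 : G (m, ω0) = 0 := by rw [eG]; simp [c1]
  have H0 : 0 < H (m, ω0) := by rw [eH]; simpa [c1] using rad_pos _ _ _ _
  have cd : ContDiffAt ℝ ⊤ G (m, ω0) := aG.contDiffAt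
  have dG : HasDerivAt (fun ω => G (m, ω)) (fderiv ℝ G (m, ω0) (0, 1)) ω0 :=
    aG.differentiableAt.hasFDerivAt.comp_hasDerivAt ω0
      ((hasDerivAt_const ω0 m).prodMk (hasDerivAt_id ω0))
  obtain ⟨c, hc, hrate⟩ := th_rate (ω0 := ω0) h0.le hm θ0
  have pos : c * (H (m, ω0) / 2) ≤ fderiv ℝ G (m, ω0) (0, 1) := by
    have t1 := (hasDerivAt_iff_tendsto_slope_left_right.1 dG).2
    refine ge_of_tendsto t1 ?_
    have e1 : ∀ᶠ ω in 𝓝 ω0, H (m, ω0) / 2 < H (m, ω) :=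
      continuousAt_const.eventually_lt
        (aH.continuousAt.comp (f := fun ω => (m, ω)) (by fun_prop)) (by linarith)
    have e2 : ∀ᶠ ω in 𝓝 ω0, th m ω θ0 π < τ + π / 2 :=
      ((th_cont (ω := ω0) k θ0).comp (f := fun ω => (m, ω)) (by fun_prop)).eventually_lt
        continuousAt_const (by simp only [Function.comp, c1]; linarith [pi_pos])
    filter_upwards [self_mem_nhdsWithin, nhdsWithin_le_nhds e1, nhdsWithin_le_nhds e2]
      with ω h1 h2 h3
    have h1 : 0 < ω - ω0 := sub_pos.2 h1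
    have r := hrate ω (by linarith)
    rw [c1] at r
    have d0 : 0 < th m ω θ0 π - τ := lt_of_lt_of_le (by positivity) r
    have cpos : 0 < cos (th m ω θ0 π - τ) := cos_pos_of_mem_Ioo ⟨by linarith [pi_pos], by linarith⟩
    have lt := lt_tan d0 (by linarith)
    rw [tan_eq_sin_div_cos, lt_div_iff₀ cpos] at lt
    have rp := rad_pos (cA m ω) (cB m ω) (th m ω θ0) π
    have gh : (th m ω θ0 π - τ) * H (m, ω) ≤ G (m, ω) := by
      rw [eG, eH]
      nlinarith [mul_le_mul_of_nonneg_left lt.le rp.le]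
    rw [slope_def_field, G0, sub_zero, le_div_iff₀ h1]
    calc c * (H (m, ω0) / 2) * (ω - ω0) = c * (ω - ω0) * (H (m, ω0) / 2) := by ring
      _ ≤ (th m ω θ0 π - τ) * H (m, ω) := mul_le_mul r h2.le (by linarith) d0.le
      _ ≤ _ := gh
  have ne : fderiv ℝ G (m, ω0) (0, 1) ≠ 0 := (lt_of_lt_of_le (by positivity) pos).ne'
  have inv : (fderiv ℝ G (m, ω0) ∘L .inr ℝ ℝ ℝ).IsInvertible :=
    ⟨ContinuousLinearEquiv.unitsEquivAut ℝ (Units.mk0 _ ne), by ext; simp⟩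
  have a1 : AnalyticAt ℝ (cd.implicitFunction (by simp) inv) m :=
    (cd.contDiffAt_implicitFunction (by simp) inv).analyticAt
  refine a1.congr ?_
  have t : Tendsto (fun x => (x, cur θ0 l x)) (𝓝 m) (𝓝 (m, ω0)) :=
    continuousAt_id.prodMk (cur_cont hθ hl h0 hm)
  filter_upwards [t.eventually (cd.eventually_apply_eq_iff_implicitFunction (by simp) inv),
    Ioo_mem_nhds h0 hm] with x hx hx'
  refine hx.1 ?_
  rw [G0, eG]
  simp [(cur_spec hθ hl hx'.1.le hx'.2).2, hτ]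

end Pool.Agent.HillD
end

-- part Pool.Agent.P.MP_ae2765_an.Shape
section

/-! An analytic increasing bounded function that is flat at `0` has an inflection point. -/

namespace Pool.Agent.HillD
open Real Set Filter Topology

theorem not_convex {f : ℝ → ℝ} {C : ℝ} (hm : StrictMonoOn f (Ioi 0)) (hC : ∀ x > 0, f x ≤ C) :
    ¬ ConvexOn ℝ (Ioi 0) f := by
  intro h
  have s0 : 0 < f 2 - f 1 := sub_pos.2 (hm (by norm_num) (by norm_num) (by norm_num))
  have c2 := hC 2 (by norm_num)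
  set t := (C - f 2) / (f 2 - f 1) + 1 with ht
  have t0 : 0 < t := by
    have : 0 ≤ (C - f 2) / (f 2 - f 1) := div_nonneg (by linarith) s0.le
    linarith
  have := h.slope_mono_adjacent (x := 1) (y := 2) (z := 2 + t) (by norm_num)
    (show (0 : ℝ) < 2 + t by linarith) (by norm_num) (by linarith)
  rw [show (2 : ℝ) - 1 = 1 by norm_num, div_one, add_sub_cancel_left, le_div_iff₀ t0] at this
  have e : (f 2 - f 1) * t = C - f 2 + (f 2 - f 1) := by rw [ht]; field_simp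
  have := hC (2 + t) (by linarith)
  linarith

theorem not_concave {f : ℝ → ℝ} {a C : ℝ} (hm : StrictMonoOn f (Ioi 0)) (hC : 0 < C)
    (h1 : ∀ x > 0, a ≤ f x) (h2 : ∀ x > 0, f x ≤ a + C * x ^ 2) : ¬ ConcaveOn ℝ (Ioi 0) f := by
  intro h
  have s0 : 0 < f 2 - f 1 := sub_pos.2 (hm (by norm_num) (by norm_num) (by norm_num))
  set y := min (1 / 2) ((f 2 - f 1) / (8 * C)) with hy
  have y0 : 0 < y := lt_min (by norm_num) (by positivity)
  have y1 : y ≤ 1 / 2 := min_le_left _ _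
  have y2 : y * (8 * C) ≤ f 2 - f 1 := (le_div_iff₀ (by positivity)).1 (min_le_right _ _)
  have k := h.slope_anti_adjacent (x := y / 2) (y := y) (z := 2)
    (show (0 : ℝ) < y / 2 by linarith) (by norm_num) (by linarith) (by linarith)
  rw [div_le_div_iff₀ (by linarith) (by linarith)] at k
  have e1 := h1 (y / 2) (by linarith)
  have e2 := h2 y y0
  have e3 : f y < f 1 := hm y0 (by norm_num) (by linarith)
  have e4 : (f y - f (y / 2)) * (2 - y) ≤ C * y ^ 2 * 2 :=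
    mul_le_mul (by linarith) (by linarith) (by linarith) (by positivity)
  have e5 : (f 2 - f 1) * (y / 2) ≤ (f 2 - f y) * (y - y / 2) :=
    mul_le_mul (by linarith) (by linarith) (by linarith) (by linarith)
  have e6 : 0 < C * y ^ 2 := by positivity
  nlinarith

/-- A sign change of an analytic function. -/
theorem sign_change {g : ℝ → ℝ} (hg : AnalyticOnNhd ℝ g (Ioi 0)) {a b : ℝ} (ha : 0 < a)
    (hab : a < b) (h1 : 0 < g a) (h2 : g b < 0) : ∃ x ε, 0 < ε ∧ ε < x ∧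
      (∀ y ∈ Ioo (x - ε) x, 0 < g y) ∧ ∀ y ∈ Ioo x (x + ε), g y < 0 := by
  set S := {y | y ∈ Icc a b ∧ g y < 0} with hS
  have ne : S.Nonempty := ⟨b, ⟨hab.le, le_rfl⟩, h2⟩
  have bd : BddBelow S := ⟨a, fun y hy => hy.1.1⟩
  set x := sInf S with hx
  have xa : a ≤ x := le_csInf ne fun y hy => hy.1.1
  have xb : x ≤ b := csInf_le bd ⟨⟨hab.le, le_rfl⟩, h2⟩
  have x0 : 0 < x := ha.trans_le xa
  have cx := (hg x x0).continuousAt
  have left : ∀ y ∈ Ico a x, 0 ≤ g y := fun y hy => by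
    by_contra hc
    exact absurd (csInf_le bd ⟨⟨hy.1, hy.2.le.trans xb⟩, not_le.1 hc⟩) (not_le.2 hy.2)
  have cl : x ∈ closure S := csInf_mem_closure ne bd
  have gx : g x ≤ 0 := by
    by_contra hc
    obtain ⟨y, hy1, hy2⟩ := mem_closure_iff_nhds.1 cl _
      (continuousAt_const.eventually_lt cx (not_le.1 hc))
    exact absurd hy2.2 (not_lt.2 (le_of_lt hy1))
  have ax : a < x := xa.lt_of_ne fun h => by rw [← h] at gx; linarith
  have nz : ∀ᶠ y in 𝓝[≠] x, g y ≠ 0 := by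
    refine (hg x x0).eventually_eq_zero_or_eventually_ne_zero.resolve_left fun h => ?_
    exact h1.ne' (hg.eqOn_zero_of_preconnected_of_eventuallyEq_zero isPreconnected_Ioi x0 h ha)
  obtain ⟨r, r0, hr⟩ := Metric.eventually_nhds_iff.1 (eventually_nhdsWithin_iff.1 nz)
  set ε := min r (x - a) with hε
  have ε0 : 0 < ε := lt_min r0 (by linarith)
  have ε1 : ε ≤ r := min_le_left _ _
  have ε2 : ε ≤ x - a := min_le_right _ _
  have gx0 : 0 ≤ g x := by
    refine ge_of_tendsto (cx.tendsto.mono_left (nhdsWithin_le_nhds (s := Iio x))) ?_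
    filter_upwards [Ioo_mem_nhdsLT ax] with y hy using left y ⟨hy.1.le, hy.2⟩
  obtain ⟨s, hs1, hs2⟩ := mem_closure_iff_nhds.1 cl _ (Iio_mem_nhds (show x < x + ε by linarith))
  have xs : x < s := (csInf_le bd hs2).lt_of_ne fun h => by
    have := hs2.2; rw [← h] at this; linarith
  have nzr : ∀ y ∈ Ioo x (x + ε), g y ≠ 0 := fun y hy =>
    hr (by rw [Real.dist_eq, abs_lt]; constructor <;> linarith [hy.1, hy.2]) hy.1.ne'
  refine ⟨x, ε, ε0, by linarith, fun y hy => ?_, fun y hy => ?_⟩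
  · exact (left y ⟨by linarith [hy.1], hy.2⟩).lt_of_ne'
      (hr (by rw [Real.dist_eq, abs_lt]; constructor <;> linarith [hy.1, hy.2]) hy.2.ne)
  · by_contra hc
    have co : ContinuousOn g (Ioo x (x + ε)) := fun z hz =>
      (hg z (x0.trans hz.1)).continuousAt.continuousWithinAt
    obtain ⟨z, hz, e⟩ := isPreconnected_Ioo.intermediate_value ⟨xs, hs1⟩ hy co
      ⟨hs2.2.le, not_lt.1 hc⟩
    exact nzr z hz e

theorem exists_inflection {f : ℝ → ℝ} (hf : AnalyticOnNhd ℝ f (Ioi 0))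
    (h1 : ¬ ConvexOn ℝ (Ioi 0) f) (h2 : ¬ ConcaveOn ℝ (Ioi 0) f) : ∃ x, IsInflection f x := by
  have hg : AnalyticOnNhd ℝ (deriv^[2] f) (Ioi 0) := hf.iterated_deriv 2
  have d1 : DifferentiableOn ℝ f (Ioi 0) := hf.differentiableOn
  have d2 : DifferentiableOn ℝ (deriv f) (Ioi 0) := hf.deriv.differentiableOn
  obtain ⟨b, hb, gb⟩ : ∃ b ∈ Ioi (0 : ℝ), deriv^[2] f b < 0 := by
    by_contra hc
    push Not at hc
    exact h1 (convexOn_of_deriv2_nonneg' (convex_Ioi 0) d1 d2 hc)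
  obtain ⟨a, ha, ga⟩ : ∃ a ∈ Ioi (0 : ℝ), 0 < deriv^[2] f a := by
    by_contra hc
    push Not at hc
    exact h2 (concaveOn_of_deriv2_nonpos' (convex_Ioi 0) d1 d2 hc)
  have co : ∀ {u v : ℝ}, 0 < u → ContinuousOn f (Icc u v) := fun hu =>
    hf.continuousOn.mono fun z hz => hu.trans_le hz.1
  rcases lt_trichotomy a b with h | h | h
  · obtain ⟨x, ε, e0, e1, l, r⟩ := sign_change hg ha h ga gb
    exact ⟨x, ε, e0, e1, Or.inl
      ⟨strictConvexOn_of_deriv2_pos (convex_Icc _ _) (co (by linarith)) (by rwa [interior_Icc]),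
       strictConcaveOn_of_deriv2_neg (convex_Icc _ _) (co (by linarith)) (by rwa [interior_Icc])⟩⟩
  · rw [h] at ga; linarith
  · obtain ⟨x, ε, e0, e1, l, r⟩ := sign_change hg.neg hb h (neg_pos.2 gb) (neg_lt_zero.2 ga)
    exact ⟨x, ε, e0, e1, Or.inr
      ⟨strictConcaveOn_of_deriv2_neg (convex_Icc _ _) (co (by linarith))
        (by rw [interior_Icc]; exact fun y hy => neg_pos.1 (l y hy)),
       strictConvexOn_of_deriv2_pos (convex_Icc _ _) (co (by linarith))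
        (by rw [interior_Icc]; exact fun y hy => neg_lt_zero.1 (r y hy))⟩⟩

theorem isLine {θ0 : ℝ} {l : ℕ} (hθ : θ0 = 0 ∨ θ0 = π / 2) (hl : 2 ≤ l ∨ (l = 1 ∧ θ0 = 0)) :
    IsLine l fun δ => cur θ0 l (mm δ) := by
  have hl1 : 1 ≤ l := by omega
  have l0 : (0 : ℝ) < l := by exact_mod_cast hl1
  have sm := cur_strictMono hθ hl
  have an : AnalyticOnNhd ℝ (fun δ => cur θ0 l (mm δ)) (Ioi 0) := fun δ hδ => by
    have : AnalyticAt ℝ mm δ := by
      unfold mm
      exact AnalyticAt.div (by fun_prop) (by fun_prop) (by positivity)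
    exact (cur_ana hθ hl1 (mm_pos hδ) (mm_lt δ)).comp this
  have mono : StrictMonoOn (fun δ => cur θ0 l (mm δ)) (Ioi 0) := fun a ha b _ hab =>
    sm ⟨mm_nonneg a, mm_lt a⟩ ⟨mm_nonneg b, mm_lt b⟩ (mm_strictMono (le_of_lt ha) hab)
  have lo : ∀ x > 0, (l : ℝ) ≤ cur θ0 l (mm x) := fun x hx => by
    have := sm ⟨le_rfl, by norm_num⟩ ⟨mm_nonneg x, mm_lt x⟩ (mm_pos hx)
    rw [cur_zero hθ hl1] at this
    exact this.le
  have hi : ∀ x > 0, cur θ0 l (mm x) ≤ l + l * x ^ 2 := fun x _ => by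
    have k := mul_le_mul_of_nonneg_right (cur_mul_le hθ hl1 (mm_nonneg x) (mm_lt x))
      (show 0 ≤ 1 + x ^ 2 by positivity)
    rw [mul_assoc, mm_eq] at k
    linarith
  refine ⟨an, ?_, mono, exists_inflection an
    (not_convex mono fun x _ => (cur_lt_big hθ hl1 (mm_nonneg x) (mm_lt x)).le)
    (not_concave mono l0 lo hi)⟩
  have t : Tendsto (fun x : ℝ => (l : ℝ) + l * x ^ 2) (𝓝[>] 0) (𝓝 l) := by
    have : ContinuousAt (fun x : ℝ => (l : ℝ) + l * x ^ 2) 0 := by fun_prop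
    simpa using this.tendsto.mono_left nhdsWithin_le_nhds
  refine tendsto_of_tendsto_of_tendsto_of_le_of_le' tendsto_const_nhds t ?_ ?_
  · filter_upwards [self_mem_nhdsWithin] with x hx using lo x hx
  · filter_upwards [self_mem_nhdsWithin] with x hx using hi x hx

end Pool.Agent.HillD
end

-- part Pool.Agent.P.MP_ae2765_an.SEng
section

/-! The checker for one disc and for one branch; only operations on natural numbers and short
lists of integers. -/

namespace Pool.Agent.HillD.S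

/-- Evaluate a natural number before continuing. -/
noncomputable def fN {α : Type} (n : ℕ) (k : ℕ → α) : α :=
  Nat.rec (k 0) (fun m _ => k (Nat.succ m)) n

noncomputable def H0 : ℕ := Nat.pow 2 255
noncomputable def M0 : ℕ := Nat.sub (Nat.pow 2 256) 1

/-- Absolute difference. -/
noncomputable def ad (a b : ℕ) : ℕ := Nat.add (Nat.sub a b) (Nat.sub b a)

noncomputable def tri (n : ℕ) : ℕ := Nat.div (Nat.mul n (Nat.sub n 1)) 2

/-- Value of a list at `2 ^ B`, modulo `Mm + 1`. -/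
noncomputable def pk (Mm B : ℕ) (l : List ℤ) : ℕ :=
  List.rec 0 (fun c _ r => Nat.land (Nat.add (Int.rec (fun n => n)
    (fun n => Nat.mul Mm (Nat.succ n)) c) (Nat.shiftLeft r B)) Mm) l

/-- Weighted norm of a list. -/
noncomputable def nl (r : ℕ) (l : List ℤ) : ℕ :=
  List.rec 0 (fun c _ a => Nat.add (Int.rec (fun n => n) (fun n => Nat.succ n) c) (Nat.mul r a)) l

noncomputable def dl (l : List ℤ) : ℕ → List ℤ :=
  List.rec (fun _ => []) (fun c _ r k => Int.mul (Int.ofNat k) c :: r (Nat.succ k)) l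

/-- Derivative of a list. -/
noncomputable def der (l : List ℤ) : List ℤ := List.rec [] (fun _ t _ => dl t 1) l

noncomputable def len (l : List ℤ) : ℕ := List.rec 0 (fun _ _ r => Nat.succ r) l

/-- Approximate value at `a / 32`. -/
noncomputable def fl (a : ℤ) (l : List ℤ) : ℤ :=
  List.rec 0 (fun c _ r => Int.add c (Int.shiftRight (Int.mul a r) 5)) l

/-- Opposite modulo `Mm + 1`. -/
noncomputable def ng (Mm x : ℕ) : ℕ := Nat.sub (Nat.succ Mm) (Nat.land x Mm)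

/-- Weighted sum of the moduli of the first `n` signed digits. -/
noncomputable def nrm (B H Mb r n : ℕ) : ℕ → ℕ :=
  Nat.rec (fun _ => 0) (fun _ ih X => fN (Nat.add X H) fun Y =>
    Nat.add (ad (Nat.land Y Mb) H) (Nat.mul r (ih (Nat.shiftRight Y B)))) n

/-- The first signed digit, if it is positive. -/
noncomputable def d0 (H Mb X : ℕ) : ℕ := Nat.sub (Nat.land (Nat.add X H) Mb) H

/-- `2 (S - 2 μ) V ^ 2 + 2 μ V T`. -/
noncomputable def uU (Mm S T μ V : ℕ) : ℕ :=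
  Nat.land (Nat.mul (Nat.mul 2 V) (Nat.add (Nat.land (Nat.mul (Nat.add S (ng Mm (Nat.mul 2 μ))) V) Mm)
    (Nat.mul μ T))) Mm

/-- The recurrence, with the derivative in the second variable. -/
noncomputable def loop (Mm U0 U1 nV nZ2 Z1 nZ0 nY1 Y0 : ℕ) (k : ℕ → ℕ → ℕ → ℕ → Bool) (J : ℕ) :
    ℕ → ℕ → ℕ → ℕ → ℕ → Bool :=
  Nat.rec (fun _ P Q P1 Q1 => k P Q P1 Q1) (fun _ ih n P Q P1 Q1 =>
    fN (Nat.add n 2) fun n' => fN (tri (Nat.add n 1)) fun al => fN (tri n') fun be =>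
    fN (Nat.add U0 (Nat.mul (Nat.mul n' n') nV)) fun d =>
    fN (Nat.add (Nat.add nZ2 (Nat.mul (Nat.add al be) Z1)) (Nat.mul (Nat.mul al be) nZ0)) fun ab =>
    fN (Nat.land (Nat.add (Nat.mul d P) (Nat.mul ab Q)) Mm) fun P' =>
    fN (Nat.land (Nat.add (Nat.add (Nat.mul d P1) (Nat.mul U1 P))
      (Nat.add (Nat.mul ab Q1) (Nat.mul (Nat.add nY1 (Nat.mul (Nat.add al be) Y0)) Q))) Mm) fun P1' =>
    ih n' P' P P1' P1) J

/-- Majorant of the diagonal coefficient. -/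
noncomputable def dn (C dev v0 v1 vr n : ℕ) : ℕ :=
  Nat.add (Nat.add (ad (Nat.add C (Nat.mul (Nat.mul n n) v1)) (Nat.mul (Nat.mul n n) v0)) dev)
    (Nat.mul (Nat.mul n n) vr)

/-- The majorant recurrence. -/
noncomputable def mj (C dev v0 v1 vr T V0 dW c : ℕ) (k : ℕ → ℕ → Bool) (J : ℕ) :
    ℕ → ℕ → ℕ → Bool :=
  Nat.rec (fun _ P Q => k P Q) (fun _ ih n P Q =>
    fN (Nat.add n 2) fun n' =>
    fN (Nat.add (Nat.mul (dn C dev v0 v1 vr n') P) (Nat.mul (Nat.mul c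
      (Nat.mul (Nat.add (ad V0 (Nat.mul (tri (Nat.add n 1)) T)) dW)
        (Nat.add (ad V0 (Nat.mul (tri n') T)) dW))) Q)) fun P' => ih n' P' P) J

/-- Majorant of `a S - b μ` on the disc of radius `r`. -/
noncomputable def lb (a b S μ0 μ1 r : ℕ) : ℕ :=
  Nat.add (ad (Nat.mul a S) (Nat.mul b μ0)) (Nat.mul (Nat.mul b μ1) r)

/-- Majorant of the variation of `U` for a perturbation of size `E`. -/
noncomputable def dv (S T μ0 μ1 r Vb dU E : ℕ) : ℕ :=
  Nat.add dU (Nat.mul E (Nat.add (Nat.add (Nat.mul (Nat.mul 4 (lb 1 2 S μ0 μ1 r)) Vb)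
    (Nat.mul (Nat.mul 2 (lb 0 1 S μ0 μ1 r)) T)) (Nat.mul (Nat.mul 2 (lb 1 2 S μ0 μ1 r)) E)))

/-- The majorants on the disc of radius `r`. -/
noncomputable def maj (n0 sg ff S T E μ0 μ1 J V0 C dU dV wn r : ℕ) (k : ℕ → ℕ → Bool) : Bool :=
  fN (dv S T μ0 μ1 r (Nat.add V0 dV) dU E) fun dev => fN (lb 0 1 S μ0 μ1 r) fun mb =>
  fN (Nat.mul T T) fun T2 => fN (Nat.mul (Nat.mul 2 S) T2) fun v0 => fN (Nat.mul μ0 T2) fun v1 =>
  fN (Nat.mul (Nat.mul μ1 r) T2) fun vr => fN (Nat.add dV E) fun dW =>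
  mj C dev v0 v1 vr T V0 dW (Nat.mul (Nat.mul mb mb) T2) k J n0
    (Nat.mul wn (Nat.add (dn C dev v0 v1 vr n0)
      (Nat.mul (Nat.mul sg mb) (Nat.mul (Nat.add V0 dW) T)))) (Nat.mul ff wn)

/-- The packed recurrence. -/
noncomputable def big (n0 sp sn ff S T μ0 μ1 J B Mm : ℕ) (V w : List ℤ)
    (k : ℕ → ℕ → ℕ → ℕ → Bool) : Bool :=
  fN (pk Mm B V) fun v => fN (pk Mm B w) fun ww => fN (Nat.add μ0 (Nat.shiftLeft μ1 B)) fun μ =>
  fN (uU Mm S T μ v) fun U0 =>
  fN (Nat.land (Nat.add (Nat.mul (Nat.mul 4 (Nat.add S (ng Mm (Nat.mul 2 μ)))) v)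
    (Nat.mul (Nat.mul 2 μ) T)) Mm) fun U1 =>
  fN (Nat.mul (Nat.add μ (ng Mm (Nat.mul 2 S))) (Nat.mul T T)) fun nV =>
  fN (Nat.mul (Nat.mul μ T) (Nat.mul μ T)) fun z =>
  fN (Nat.land (Nat.mul z v) Mm) fun Y1 => fN (Nat.mul z T) fun Y0 =>
  fN (Nat.mul (Nat.add sp (Nat.mul sn Mm)) (Nat.mul μ T)) fun s =>
  fN (Nat.land (Nat.mul ww (Nat.add (Nat.add U0 (Nat.mul (Nat.mul n0 n0) nV))
    (Nat.land (Nat.mul s v) Mm))) Mm) fun P =>
  fN (Nat.land (Nat.mul ww (Nat.add U1 s)) Mm) fun P1 =>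
  fN (ng Mm (Nat.mul Y1 v)) fun nZ2 => fN (Nat.mul Y1 T) fun Z1 =>
  fN (ng Mm (Nat.mul Y0 T)) fun nZ0 => fN (ng Mm (Nat.mul 2 Y1)) fun nY1 =>
  loop Mm U0 U1 nV nZ2 Z1 nZ0 nY1 Y0 k J n0 P (Nat.mul ff ww) P1 0

/-- The polynomial packed in `X`, of crude size `cr`, stays above `err` on the unit disc. -/
noncomputable def pos (Mm n X cr err : ℕ) : Bool :=
  fN (d0 H0 M0 X) fun C =>
  and (Nat.blt (Nat.add cr C) H0)
    (Nat.blt (Nat.add (nrm 256 H0 M0 1 n (Nat.add X (ng Mm C))) err) C)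

/-- The sign test. -/
noncomputable def sgn (S μ0 μ1 κ kind Mm n μ : ℕ) (V1 : List ℤ) : Bool :=
  fN (Nat.mul (Nat.mul 2 μ) (Nat.add S (ng Mm (Nat.mul 2 μ)))) fun c =>
  fN (Nat.mul (Nat.mul 2 (lb 0 1 S μ0 μ1 1)) (lb 1 2 S μ0 μ1 1)) fun cb =>
  Bool.rec
    (fN (Nat.mul (lb 3 16 S μ0 μ1 1) μ1) fun b =>
      pos Mm n (Nat.add (Nat.mul (Nat.mul 8 (Nat.mul μ1 μ1)) (pk Mm 256 V1))
        (ng Mm (Nat.add (Nat.mul (Nat.mul (Nat.add (Nat.mul 3 S) (ng Mm (Nat.mul 16 μ))) μ1)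
          (pk Mm 256 (der V1))) (Nat.mul c (pk Mm 256 (der (der V1)))))))
        (Nat.add (Nat.add (Nat.mul (Nat.mul 8 (Nat.mul μ1 μ1)) (nl 1 V1))
          (Nat.mul b (nl 1 (der V1)))) (Nat.mul cb (nl 1 (der (der V1)))))
        (Nat.mul κ (Nat.add (Nat.add (Nat.mul (Nat.mul μ1 μ1) 640) (Nat.mul b 6400))
          (Nat.mul cb 768000))))
    (fN (Nat.mul (lb 1 8 S μ0 μ1 1) μ1) fun b =>
      fN (Nat.add (Nat.mul (Nat.mul (Nat.add S (ng Mm (Nat.mul 8 μ))) μ1) (pk Mm 256 V1))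
        (Nat.mul c (pk Mm 256 (der V1)))) fun X =>
      pos Mm n (Bool.rec (ng Mm X) X (Nat.beq kind 0))
        (Nat.add (Nat.mul b (nl 1 V1)) (Nat.mul cb (nl 1 (der V1))))
        (Nat.mul κ (Nat.add (Nat.mul b 80) (Nat.mul cb 6400))))
    (Nat.ble kind 1)

/-- The final inequalities. -/
noncomputable def fin (E κ B n q Mm bb MP MQ MP1 MQ1 G0 Q0 G1 Q1 : ℕ) : Bool :=
  fN (Nat.pow 2 (Nat.sub B 1)) fun H => fN (Nat.sub (Nat.pow 2 B) 1) fun Mb =>
  fN (d0 H Mb G1) fun Cn => fN (Nat.pow q n) fun qn =>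
  fN (Nat.succ (Nat.div (Nat.mul 2 MP) qn)) fun tP =>
  fN (Nat.succ (Nat.div (Nat.mul 2 MQ) qn)) fun tQ =>
  and (and (Nat.blt (Nat.add MP Cn) H) (Nat.blt MQ H)) (and
    (Nat.ble (Nat.add (Nat.mul 3 (Nat.add (nrm B H Mb 1 n G0) tP))
      (Nat.mul bb (Nat.add (nrm B H Mb 1 n Q0) tQ))) (Nat.mul (Nat.mul 3 κ) Cn))
    (Nat.ble (Nat.mul 16 (Nat.add (Nat.mul E (Nat.add
        (Nat.mul 3 (Nat.add (Nat.mul E (nrm B H Mb 1 n (Nat.add G1 (ng Mm Cn)))) tP))
        (Nat.mul bb (Nat.add (Nat.mul E (nrm B H Mb 1 n Q1)) tQ))))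
      (Nat.mul (Nat.mul 32 κ) (Nat.add (Nat.mul 3 MP1) (Nat.mul bb MQ1)))))
      (Nat.mul (Nat.mul 9 Cn) (Nat.mul E E))))

/-- The check of one disc, centre `μ0 / S`, radius `μ1 / S`. -/
noncomputable def disc (n0 sp sn ff S T μ0 μ1 κ E J n q B kind V0 : ℕ) (Vr w : List ℤ) : Bool :=
  fN (Nat.mul 2 (Nat.add (len Vr) 2)) fun ns => fN (Nat.sub (Nat.pow 2 (Nat.mul 256 ns)) 1) fun Ms =>
  fN (Nat.add μ0 (Nat.shiftLeft μ1 256)) fun μ =>
  fN (uU Ms S T μ (pk Ms 256 (Int.ofNat V0 :: Vr))) fun U =>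
  fN (d0 H0 M0 U) fun C => fN (Nat.add U (ng Ms C)) fun U' =>
  fN (nrm 256 H0 M0 1 ns U') fun dU => fN (nl 1 Vr) fun dV =>
  fN (Nat.add (Nat.add n0 (Nat.mul 2 J)) 2) fun n1 => fN (Nat.add μ0 μ1) fun mb =>
  fN (Nat.add dV (Nat.mul 16 κ)) fun dW =>
  and (and (and (and (Nat.ble 2 q) (Nat.ble 10 n1)) (and (Nat.ble 1 n) (Nat.ble 1 B)))
    (and (Nat.ble (Nat.mul 32 κ) E) (Nat.ble 1 κ)))
  (and (and (Nat.ble dW V0) (Nat.ble (Nat.mul 2 (Nat.add V0 dW)) (Nat.mul (Nat.mul n1 n1) T)))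
  (and (Nat.blt (Nat.add (Nat.mul (Nat.mul 2 (Nat.add V0 dV)) (Nat.add
      (Nat.mul (lb 1 2 S μ0 μ1 1) (Nat.add V0 dV)) (Nat.mul mb T))) C) H0)
  (and (Nat.ble (Nat.add (Nat.mul 4 (Nat.add C (dv S T μ0 μ1 1 (Nat.add V0 dV) dU (Nat.mul 16 κ))))
      (Nat.mul (Nat.mul (Nat.mul 11 mb) (Nat.mul n1 n1)) (Nat.mul T T)))
      (Nat.mul (Nat.mul (Nat.mul 8 S) (Nat.mul n1 n1)) (Nat.mul T T)))
  (and (sgn S μ0 μ1 κ kind Ms ns μ (dl Vr 1))
  (maj n0 (Nat.add sp sn) ff S T E μ0 μ1 J V0 C (nrm 256 H0 M0 q ns U')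
      (Nat.mul q (nl q Vr)) (nl q w) q fun MP MQ =>
    maj n0 (Nat.add sp sn) ff S T E μ0 μ1 J V0 C dU dV (nl 1 w) 1 fun MP1 MQ1 =>
    fN (Nat.sub (Nat.pow 2 (Nat.mul B n)) 1) fun Mm =>
    big n0 sp sn ff S T μ0 μ1 J B Mm (Int.ofNat V0 :: Vr) w
      (fin E κ B n q Mm (Nat.mul (Nat.mul mb T) (Nat.add (ad V0 (Nat.mul (tri n1) T)) dW))
        MP MQ MP1 MQ1))))))

/-- The data of one disc. -/
structure Dc where
  j : ℕ
  κ : ℕ
  E : ℕ
  J : ℕ
  n : ℕ
  q : ℕ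
  B : ℕ
  kind : ℕ
  V0 : ℕ
  Vr : List ℤ
  w : List ℤ

/-- The check of a chain of discs, from the point `y / S` where the branch is within `err` of
`val`. -/
noncomputable def chain (n0 sp sn ff S T : ℕ) (l : List Dc) : ℕ → ℤ → ℕ → Bool :=
  List.rec (fun y _ _ => Nat.ble S (Nat.mul 2 y)) (fun D _ ih y val err =>
    Dc.rec (fun j κ E J n q B kind V0 Vr w =>
      fN (Nat.add y (Nat.mul 31 j)) fun μ0 => fN (Nat.mul 32 j) fun μ1 =>
      and (and (Nat.ble 1 j) (Nat.ble (Nat.add (Nat.add (Int.natAbs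
        (Int.sub val (fl (Int.negSucc 30) (Int.ofNat V0 :: Vr)))) err) 32) (Nat.mul 5 κ)))
      (and (disc n0 sp sn ff S T μ0 μ1 κ E J n q B kind V0 Vr w)
        (fN (Nat.add y (Nat.mul 62 j)) fun y' =>
          ih y' (fl (Int.ofNat 31) (Int.ofNat V0 :: Vr)) (Nat.add (Nat.mul 2 κ) 32)))) D) l

/-- The check of the branch from `(0, l)`; `fam` is `true` for the even solutions. -/
noncomputable def top (l : ℕ) (fam : Bool) (S T : ℕ) (L : List Dc) : Bool :=
  and (and (Nat.ble 1 S) (Nat.ble 1 T))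
    (Bool.rec (chain 1 (Bool.rec 0 1 fam) (Bool.rec 1 0 fam) 1 S T L 0 (Int.ofNat (Nat.mul l T)) 0)
      (chain (Bool.rec 2 0 fam) 0 0 (Bool.rec 1 2 fam) S T L 0 (Int.ofNat (Nat.mul l T)) 0)
      (Nat.beq (Nat.mod l 2) 0))

/-- Decoding of a list of signed numbers of decreasing width. -/
noncomputable def dec (n : ℕ) : ℕ → ℕ → List ℤ :=
  Nat.rec (fun _ _ => []) (fun _ ih b Z => fN b fun b => fN Z fun Z =>
    Int.subNatNat (Nat.land Z (Nat.sub (Nat.pow 2 b) 1)) (Nat.pow 2 (Nat.sub b 1)) ::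
      ih (Nat.sub b 2) (Nat.shiftRight Z b)) n

/-- Decoding of a disc. -/
noncomputable def dc (j κ E J n q B kind V0 a b Z a' b' Z' : ℕ) : Dc :=
  ⟨j, κ, E, J, n, q, B, kind, V0, dec a b Z, dec a' b' Z'⟩

end Pool.Agent.HillD.S
end
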