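import Pool.Agent.K.MP_ae2765_an.C0

-- part Pool.Agent.P.MP_ae2765_an.SA
section

/-! Continuants of the three term recurrence of the Fourier coefficients. -/

namespace Pool.Agent.HillD.S
open Real Set Filter Topology Polynomial

section Ring
variable {R : Type} [CommRing R]

/-- The value of the polynomial with coefficient list `l`. -/
def ev (l : List ℤ) (x : R) : R := l.foldr (fun (c : ℤ) (a : R) => (c : R) + x * a) 0

/-- `S T ^ 2 (2 (1 - 2 m) ω ^ 2 + 2 m ω)` for `m = μ / S`, `ω = W / T`. -/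
def gU (S T : ℕ) (μ W : R) : R := 2 * W * ((S - 2 * μ) * W + μ * T)

/-- The diagonal coefficient of row `n`. -/
def gD (S T : ℕ) (μ W : R) (n : ℕ) : R := gU S T μ W - (n : R) ^ 2 * ((2 * S - μ) * (T : R) ^ 2)

/-- The off diagonal coefficients `S T ^ 2 m (ω - c)`. -/
def gA (T : ℕ) (μ W : R) (c : ℕ) : R := μ * T * (W - c * T)

/-- The derivative of `gU` in `W`. -/
def gU1 (S T : ℕ) (μ W : R) : R := 4 * (S - 2 * μ) * W + 2 * μ * T

/-- `J` steps of the recurrence of continuants, from row `n`. -/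
noncomputable def cont (S T : ℕ) (μ W : R) : ℕ → ℕ → R × R → R × R
  | 0, _, p => p
  | J + 1, n, p => cont S T μ W J (n + 2) (gD S T μ W (n + 2) * p.1 -
      gA T μ W (tri (n + 1)) * gA T μ W (tri (n + 2)) * p.2, p.1)

theorem cont_realize : True := by have := @cont.eq_def; trivial

/-- The same recurrence with the derivatives in `W`. -/
noncomputable def cont2 (S T : ℕ) (μ W : R) : ℕ → ℕ → (R × R) × R × R → (R × R) × R × R
  | 0, _, p => p
  | J + 1, n, p => cont2 S T μ W J (n + 2) ((gD S T μ W (n + 2) * p.1.1 -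
      gA T μ W (tri (n + 1)) * gA T μ W (tri (n + 2)) * p.1.2, p.1.1),
      gD S T μ W (n + 2) * p.2.1 + gU1 S T μ W * p.1.1 -
        gA T μ W (tri (n + 1)) * gA T μ W (tri (n + 2)) * p.2.2 -
        μ * T * (gA T μ W (tri (n + 1)) + gA T μ W (tri (n + 2))) * p.1.2, p.2.1)

theorem cont2_realize : True := by have := @cont2.eq_def; trivial

/-- The last two continuants, multiplied by `w`. -/
noncomputable def PQ (n0 sp sn ff S T J : ℕ) (μ W w : R) : R × R :=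
  cont S T μ W J n0 (w * (gD S T μ W n0 + (sp - sn) * (μ * T) * W), ff * w)

/-- The last two continuants and their derivatives in `W`. -/
noncomputable def PQ2 (n0 sp sn ff S T J : ℕ) (μ W w : R) : (R × R) × R × R :=
  cont2 S T μ W J n0 ((w * (gD S T μ W n0 + (sp - sn) * (μ * T) * W), ff * w),
    w * (gU1 S T μ W + (sp - sn) * (μ * T)), 0)

/-- The affine function `μ0 + μ1 x`. -/
def mu (μ0 μ1 : ℕ) (x : R) : R := μ0 + μ1 * x

end Ring

/-- Finite continued fractions. -/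
noncomputable def cf (A B D : ℕ → ℂ) : ℕ → ℕ → ℂ
  | 0, _ => 0
  | k + 1, i => -A i / (D i + B i * cf A B D k (i + 1))

theorem cf_realize : True := by have := @cf.eq_def; trivial

/-- The infinite continued fraction. -/
noncomputable def rho (A B D : ℕ → ℂ) : ℂ := limUnder atTop fun k => cf A B D k 0

/-- Diagonal dominance. -/
def TD (A B D : ℕ → ℂ) : Prop :=
  ∀ i, ∃ γ : ℝ, 0 < γ ∧ ‖A i‖ ≤ γ ∧ ‖B i‖ ≤ 4 / 3 * γ ∧ 7 / 2 * γ ≤ ‖D i‖

noncomputable def tA (T n1 : ℕ) (μ W : ℂ) (i : ℕ) : ℂ := gA T μ W (tri (n1 + 2 * i - 1))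
noncomputable def tB (T n1 : ℕ) (μ W : ℂ) (i : ℕ) : ℂ := gA T μ W (tri (n1 + 2 * i + 2))
noncomputable def tD (S T n1 : ℕ) (μ W : ℂ) (i : ℕ) : ℂ := gD S T μ W (n1 + 2 * i)

/-- Diagonal dominance of the rows `n1, n1 + 2, ...`. -/
def Dom (S T n1 : ℕ) (μ W : ℂ) : Prop := TD (tA T n1 μ W) (tB T n1 μ W) (tD S T n1 μ W)

/-- The coefficient of the tail term. -/
noncomputable def tl (S T n1 : ℕ) (μ W : ℂ) : ℂ :=
  gA T μ W (tri n1) * rho (tA T n1 μ W) (tB T n1 μ W) (tD S T n1 μ W)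

/-- The function which vanishes on the branch. -/
noncomputable def FF (n0 sp sn ff S T J : ℕ) (μ W w : ℂ) : ℂ :=
  (PQ n0 sp sn ff S T J μ W w).1 + tl S T (n0 + 2 * J + 2) μ W * (PQ n0 sp sn ff S T J μ W w).2

/-- The four symmetry types. -/
def Ty (θ0 : ℝ) (l n0 sp sn ff : ℕ) : Prop :=
  (θ0 = π / 2 ∧ l % 2 = 0 ∧ n0 = 0 ∧ sp = 0 ∧ sn = 0 ∧ ff = 2) ∨
  (θ0 = π / 2 ∧ l % 2 = 1 ∧ n0 = 1 ∧ sp = 1 ∧ sn = 0 ∧ ff = 1) ∨
  (θ0 = 0 ∧ l % 2 = 1 ∧ n0 = 1 ∧ sp = 0 ∧ sn = 1 ∧ ff = 1) ∨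
  (θ0 = 0 ∧ l % 2 = 0 ∧ n0 = 2 ∧ sp = 0 ∧ sn = 0 ∧ ff = 1)

/-- The number `X` is the value of `p` at `2 ^ B`, modulo `2 ^ L`. -/
def Rep (L B X : ℕ) (p : ℤ[X]) : Prop := (X : ZMod (2 ^ L)) = aeval ((2 : ZMod (2 ^ L)) ^ B) p

/-- `gU` is within `dU` of `C` on the disc of radius `r`. -/
def UB (S T μ0 μ1 : ℕ) (V : List ℤ) (C r dU : ℕ) : Prop :=
  ∀ x : ℂ, ‖x‖ ≤ r → ‖gU S T (mu μ0 μ1 x) (ev V x) - C‖ ≤ dU

/-- Bounds for the continuants on a product of discs. -/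
def MB (n0 sp sn ff S T J μ0 μ1 : ℕ) (V w : List ℤ) (E r MP MQ : ℕ) : Prop :=
  ∀ x e : ℂ, ‖x‖ ≤ r → ‖e‖ ≤ E →
    ‖(PQ n0 sp sn ff S T J (mu μ0 μ1 x) (ev V x + e) (ev w x)).1‖ ≤ MP ∧
    ‖(PQ n0 sp sn ff S T J (mu μ0 μ1 x) (ev V x + e) (ev w x)).2‖ ≤ MQ

/-- At a zero of the second derivative in `δ` the third one is negative, in terms of `m`. -/
def Good (g : ℝ → ℝ) (m : ℝ) : Prop :=
  (1 - 8 * m) * deriv g m + 2 * m * (1 - 2 * m) * deriv^[2] g m = 0 →
    -8 * deriv g m + (3 - 16 * m) * deriv^[2] g m + 2 * m * (1 - 2 * m) * deriv^[3] g m < 0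

end Pool.Agent.HillD.S

/-! Cauchy estimates for polynomials. -/

namespace Pool.Agent.HillD.S
open Real Set Filter Topology Polynomial Metric

theorem spolya_iter (p : ℂ[X]) (k : ℕ) :
    iteratedDeriv k (fun z => p.eval z) = fun z => (derivative^[k] p).eval z := by
  induction k with
  | zero => simp
  | succ k ih =>
    rw [iteratedDeriv_succ, ih, Function.iterate_succ_apply']
    funext z
    exact Polynomial.deriv _

theorem coeff_le (p : ℂ[X]) {r M : ℝ} (hr : 0 < r) (h : ∀ z, ‖z‖ ≤ r → ‖p.eval z‖ ≤ M) (k : ℕ) :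
    ‖p.coeff k‖ * r ^ k ≤ M := by
  have h1 := Complex.norm_iteratedDeriv_le_of_forall_mem_sphere_norm_le (c := 0)
    (f := fun z => p.eval z) (C := M) k hr p.differentiable.diffContOnCl
    fun z hz => h z (by simpa using (mem_sphere_iff_norm.1 hz).le)
  rw [spolya_iter] at h1
  simp only [← coeff_zero_eq_eval_zero, coeff_iterate_derivative, zero_add,
    Nat.descFactorial_self, nsmul_eq_mul, norm_mul, Complex.norm_natCast] at h1
  rw [le_div_iff₀ (pow_pos hr k), mul_assoc] at h1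
  exact le_of_mul_le_mul_left h1 (Nat.cast_pos.2 k.factorial_pos)

theorem spolya_tail (p : ℂ[X]) (z : ℂ) (n : ℕ) {B t : ℝ} (hB : 0 ≤ B) (h0 : 0 ≤ t)
    (h1 : t ≤ 1 / 2) (h : ∀ i, ‖p.coeff (n + i)‖ * ‖z‖ ^ (n + i) ≤ B * t ^ i) :
    ‖p.eval z - ∑ k ∈ Finset.range n, p.coeff k * z ^ k‖ ≤ 2 * B := by
  rw [eval_eq_sum_range' (n := n + (p.natDegree + 1)) (by omega), Finset.sum_range_add,
    add_sub_cancel_left]
  refine (norm_sum_le _ _).trans ?_
  calc ∑ i ∈ Finset.range (p.natDegree + 1), ‖p.coeff (n + i) * z ^ (n + i)‖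
      ≤ ∑ i ∈ Finset.range (p.natDegree + 1), B * (1 / 2 : ℝ) ^ i := by
        refine Finset.sum_le_sum fun i _ => ?_
        rw [norm_mul, norm_pow]
        exact (h i).trans (mul_le_mul_of_nonneg_left (pow_le_pow_left₀ h0 h1 i) hB)
    _ ≤ 2 * B := by
        rw [← Finset.mul_sum, mul_comm]
        exact mul_le_mul_of_nonneg_right (sum_geometric_two_le _) hB

theorem eval_le_tail (p : ℂ[X]) {q M : ℝ} (hq : 2 ≤ q) (hM : 0 ≤ M) (n : ℕ)
    (h : ∀ k, n ≤ k → ‖p.coeff k‖ * q ^ k ≤ M) {z : ℂ} (hz : ‖z‖ ≤ 1) :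
    ‖p.eval z‖ ≤ ∑ k ∈ Finset.range n, ‖p.coeff k‖ + 2 * M / q ^ n := by
  have hq0 : 0 < q := by linarith
  have h1 := spolya_tail p z n (B := M / q ^ n) (t := 1 / q) (by positivity) (by positivity)
    (one_div_le_one_div_of_le two_pos hq) fun i => by
      refine (mul_le_of_le_one_right (norm_nonneg _) (pow_le_one₀ (norm_nonneg _) hz)).trans ?_
      rw [one_div_pow, div_mul_div_comm, mul_one, ← pow_add, le_div_iff₀ (pow_pos hq0 _)]
      exact h _ (by omega)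
  have h2 : ‖∑ k ∈ Finset.range n, p.coeff k * z ^ k‖ ≤ ∑ k ∈ Finset.range n, ‖p.coeff k‖ := by
    refine (norm_sum_le _ _).trans (Finset.sum_le_sum fun k _ => ?_)
    rw [norm_mul, norm_pow]
    exact mul_le_of_le_one_right (norm_nonneg _) (pow_le_one₀ (norm_nonneg _) hz)
  have h3 := norm_le_insert' (p.eval z) (∑ k ∈ Finset.range n, p.coeff k * z ^ k)
  rw [mul_div_assoc]
  linarith

theorem eval_second (p : ℂ[X]) {E M : ℝ} (hE : 0 < E) (h : ∀ z, ‖z‖ ≤ E → ‖p.eval z‖ ≤ M) {e : ℂ}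
    (he : ‖e‖ ≤ E / 2) : ‖p.eval e - p.coeff 0 - p.coeff 1 * e‖ ≤ 2 * M * (‖e‖ / E) ^ 2 := by
  have hM : 0 ≤ M := (norm_nonneg _).trans (h 0 (by simpa using hE.le))
  have h1 := spolya_tail p e 2 (B := M * (‖e‖ / E) ^ 2) (t := ‖e‖ / E) (by positivity)
    (by positivity) (by rw [div_le_iff₀ hE]; linarith) fun i => by
      have h2 := mul_le_mul_of_nonneg_right (coeff_le p hE h (2 + i))
        (show 0 ≤ (‖e‖ / E) ^ (2 + i) by positivity)
      rw [mul_assoc, ← mul_pow, mul_div_cancel₀ _ hE.ne'] at h2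
      rwa [mul_assoc, ← pow_add]
  simp only [Finset.sum_range_succ, Finset.sum_range_zero, zero_add, pow_zero, mul_one,
    pow_one] at h1
  rwa [sub_sub, mul_assoc]

theorem spolya_aeval (p : ℤ[X]) (z : ℂ) : aeval z p = (p.map (Int.castRingHom ℂ)).eval z := by
  rw [aeval_def, eval_map]
  rfl

theorem spolya_coeff (p : ℤ[X]) (k : ℕ) :
    ‖(p.map (Int.castRingHom ℂ)).coeff k‖ = ((p.coeff k).natAbs : ℝ) := by
  rw [coeff_map, eq_intCast, Complex.norm_intCast, Nat.cast_natAbs, Int.cast_abs]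

theorem aeval_le_deg (p : ℤ[X]) {n r : ℕ} (hn : p.natDegree < n) {z : ℂ} (hz : ‖z‖ ≤ r) :
    ‖aeval z p‖ ≤ ((∑ k ∈ Finset.range n, (p.coeff k).natAbs * r ^ k : ℕ) : ℝ) := by
  rw [spolya_aeval, eval_eq_sum_range' (natDegree_map_le.trans_lt hn)]
  simp only [Nat.cast_sum, Nat.cast_mul, Nat.cast_pow]
  refine (norm_sum_le _ _).trans (Finset.sum_le_sum fun k _ => ?_)
  rw [norm_mul, norm_pow, spolya_coeff]
  exact mul_le_mul_of_nonneg_left (pow_le_pow_left₀ (norm_nonneg _) hz k) (Nat.cast_nonneg _)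

theorem icoeff_le (p : ℤ[X]) {r M : ℝ} (hr : 0 < r) (h : ∀ z : ℂ, ‖z‖ ≤ r → ‖aeval z p‖ ≤ M)
    (k : ℕ) : ((p.coeff k).natAbs : ℝ) * r ^ k ≤ M := by
  rw [← spolya_coeff]
  exact coeff_le _ hr (fun z hz => spolya_aeval p z ▸ h z hz) k

theorem aeval_le_tail (p : ℤ[X]) {q M : ℝ} (hq : 2 ≤ q) (hM : 0 ≤ M) (n : ℕ)
    (h : ∀ k, n ≤ k → ((p.coeff k).natAbs : ℝ) * q ^ k ≤ M) {z : ℂ} (hz : ‖z‖ ≤ 1) :
    ‖aeval z p‖ ≤ ((∑ k ∈ Finset.range n, (p.coeff k).natAbs * 1 ^ k : ℕ) : ℝ) + 2 * M / q ^ n := by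
  have h1 := eval_le_tail (p.map (Int.castRingHom ℂ)) hq hM n
    (fun k hk => by rw [spolya_coeff]; exact h k hk) hz
  rw [spolya_aeval]
  simp only [spolya_coeff] at h1
  simpa only [one_pow, mul_one, Nat.cast_sum] using h1

end Pool.Agent.HillD.S

/-! Ring morphisms and continuants. -/

namespace Pool.Agent.HillD.S
open Real Set Filter Topology Polynomial Metric

section
variable {R R' : Type} [CommRing R] [CommRing R'] (φ : R →+* R')

theorem map_ev (l : List ℤ) (x : R) : φ (ev l x) = ev l (φ x) := by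
  induction l with
  | nil => simp [ev]
  | cons c l ih =>
    simp only [ev, List.foldr_cons, map_add, map_mul, map_intCast] at ih ⊢
    rw [ih]

theorem map_mu (μ0 μ1 : ℕ) (x : R) : φ (mu μ0 μ1 x) = mu μ0 μ1 (φ x) := by
  simp [mu]

theorem map_gU (S T : ℕ) (μ W : R) : φ (gU S T μ W) = gU S T (φ μ) (φ W) := by
  simp [gU, map_ofNat]

theorem spoly_gD (S T n : ℕ) (μ W : R) : φ (gD S T μ W n) = gD S T (φ μ) (φ W) n := by
  simp [gD, map_gU, map_ofNat]

theorem spoly_gA (T c : ℕ) (μ W : R) : φ (gA T μ W c) = gA T (φ μ) (φ W) c := by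
  simp [gA]

theorem spoly_gU1 (S T : ℕ) (μ W : R) : φ (gU1 S T μ W) = gU1 S T (φ μ) (φ W) := by
  simp [gU1, map_ofNat]

theorem spoly_cont (S T J n : ℕ) (μ W : R) (p : R × R) :
    Prod.map φ φ (cont S T μ W J n p) = cont S T (φ μ) (φ W) J n (Prod.map φ φ p) := by
  induction J generalizing n p with
  | zero => rfl
  | succ J ih =>
    rw [cont, cont, ih]
    simp [spoly_gD, spoly_gA]

theorem spoly_cont2 (S T J n : ℕ) (μ W : R) (p : (R × R) × R × R) :
    Prod.map (Prod.map φ φ) (Prod.map φ φ) (cont2 S T μ W J n p) =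
      cont2 S T (φ μ) (φ W) J n (Prod.map (Prod.map φ φ) (Prod.map φ φ) p) := by
  induction J generalizing n p with
  | zero => rfl
  | succ J ih =>
    rw [cont2, cont2, ih]
    simp [spoly_gD, spoly_gA, spoly_gU1]

theorem map_PQ (n0 sp sn ff S T J : ℕ) (μ W w : R) :
    Prod.map φ φ (PQ n0 sp sn ff S T J μ W w) = PQ n0 sp sn ff S T J (φ μ) (φ W) (φ w) := by
  rw [PQ, PQ, spoly_cont]
  simp [spoly_gD]

theorem map_PQ2 (n0 sp sn ff S T J : ℕ) (μ W w : R) :
    Prod.map (Prod.map φ φ) (Prod.map φ φ) (PQ2 n0 sp sn ff S T J μ W w) =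
      PQ2 n0 sp sn ff S T J (φ μ) (φ W) (φ w) := by
  rw [PQ2, PQ2, spoly_cont2]
  simp [spoly_gD, spoly_gU1]

theorem spoly_D (S T n : ℕ) (μ W : R) : gD S T (C μ) (C W + X) n =
    C (gD S T μ W n) + C (gU1 S T μ W) * X + C (2 * (S - 2 * μ)) * X ^ 2 := by
  simp only [gD, gU, gU1, map_add, map_sub, map_mul, map_pow, map_natCast, map_ofNat]
  ring

theorem spoly_A (T c : ℕ) (μ W : R) :
    gA T (C μ) (C W + X) c = C (gA T μ W c) + C (μ * T) * X := by
  simp only [gA, map_sub, map_mul, map_natCast]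
  ring

theorem spoly_D0 (S T n : ℕ) (μ W : R) : (gD S T (C μ) (C W + X) n).coeff 0 = gD S T μ W n := by
  rw [spoly_D, coeff_add, coeff_add, coeff_C_mul, coeff_C_mul, coeff_C_zero]
  simp

theorem spoly_D1 (S T n : ℕ) (μ W : R) : (gD S T (C μ) (C W + X) n).coeff 1 = gU1 S T μ W := by
  rw [spoly_D, coeff_add, coeff_add, coeff_C_mul, coeff_C_mul, coeff_C_succ]
  simp [coeff_X_pow]

theorem spoly_A0 (T c : ℕ) (μ W : R) : (gA T (C μ) (C W + X) c).coeff 0 = gA T μ W c := by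
  rw [spoly_A, coeff_add, coeff_C_mul, coeff_C_zero]
  simp

theorem spoly_A1 (T c : ℕ) (μ W : R) : (gA T (C μ) (C W + X) c).coeff 1 = μ * T := by
  rw [spoly_A, coeff_add, coeff_C_mul, coeff_C_succ]
  simp

theorem spoly_coeff (S T J n : ℕ) (μ W : R) (p : R[X] × R[X]) :
    cont2 S T μ W J n ((p.1.coeff 0, p.2.coeff 0), p.1.coeff 1, p.2.coeff 1) =
      (((cont S T (C μ) (C W + X) J n p).1.coeff 0, (cont S T (C μ) (C W + X) J n p).2.coeff 0),
        (cont S T (C μ) (C W + X) J n p).1.coeff 1,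
        (cont S T (C μ) (C W + X) J n p).2.coeff 1) := by
  induction J generalizing n p with
  | zero => rfl
  | succ J ih =>
    rw [cont2, cont, ← ih]
    simp only [coeff_sub, mul_coeff_zero, mul_coeff_one, spoly_D0, spoly_D1, spoly_A0, spoly_A1]
    congr 3
    ring

/-- The first two coefficients in the perturbation. -/
theorem PQ2_coeff (n0 sp sn ff S T J : ℕ) (μ W w : R) :
    PQ2 n0 sp sn ff S T J μ W w =
      (((PQ n0 sp sn ff S T J (C μ) (C W + X) (C w)).1.coeff 0,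
        (PQ n0 sp sn ff S T J (C μ) (C W + X) (C w)).2.coeff 0),
       (PQ n0 sp sn ff S T J (C μ) (C W + X) (C w)).1.coeff 1,
        (PQ n0 sp sn ff S T J (C μ) (C W + X) (C w)).2.coeff 1) := by
  have e1 : ((sp : R[X]) - (sn : R[X])) * (C μ * (T : R[X])) * (C W + X) =
      C (((sp : R) - sn) * (μ * T) * W) + C (((sp : R) - sn) * (μ * T)) * X := by
    simp only [map_sub, map_mul, map_natCast]
    ring
  have e2 : (ff : R[X]) * C w = C (ff * w) := by simp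
  rw [PQ2, PQ, ← spoly_coeff, e1, e2]
  simp only [coeff_C_mul, coeff_add, spoly_D0, spoly_D1, coeff_C_zero, coeff_X_zero, coeff_X_one,
    mul_zero, add_zero, mul_one, coeff_C_succ (n := 0), zero_add]

end

theorem natDegree_ev (l : List ℤ) : (ev l (X : ℤ[X])).natDegree ≤ l.length - 1 := by
  induction l with
  | nil => simp [ev]
  | cons c l ih =>
    change ((c : ℤ[X]) + X * ev l X).natDegree ≤ _
    refine natDegree_add_le_of_degree_le (by simp) ?_
    cases l with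
    | nil => simp [ev]
    | cons d l =>
      refine natDegree_mul_le.trans ?_
      simp only [natDegree_X, List.length_cons] at ih ⊢
      omega

theorem natDegree_mu (μ0 μ1 : ℕ) : (mu μ0 μ1 (X : ℤ[X])).natDegree ≤ 1 := by
  rw [mu]
  refine natDegree_add_le_of_degree_le (by simp) (natDegree_mul_le.trans ?_)
  simp

end Pool.Agent.HillD.S

/-! The elementary operations of the checker. -/

namespace Pool.Agent.HillD.S
open Real Set Filter Topology Polynomial Metric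

@[simp] theorem fN_eq {α : Type} (n : ℕ) (k : ℕ → α) : fN n k = k n := by
  cases n <;> rfl

theorem H0_eq : H0 = 2 ^ (256 - 1) := rfl

theorem M0_eq : M0 = 2 ^ 256 - 1 := rfl

theorem ad_eq (a b : ℕ) : (ad a b : ℝ) = |(a : ℝ) - b| := by
  show ((a - b + (b - a) : ℕ) : ℝ) = _
  rcases le_total a b with h | h
  · have h' : (a : ℝ) ≤ b := by exact_mod_cast h
    rw [Nat.sub_eq_zero_of_le h, zero_add, Nat.cast_sub h, abs_sub_comm, abs_of_nonneg (by linarith)]
  · have h' : (b : ℝ) ≤ a := by exact_mod_cast h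
    rw [Nat.sub_eq_zero_of_le h, add_zero, Nat.cast_sub h, abs_of_nonneg (by linarith)]

theorem tri_eq (n : ℕ) : (tri n : ℝ) = n * (n - 1) / 2 := by
  show ((n * (n - 1) / 2 : ℕ) : ℝ) = _
  rw [← Nat.choose_two_right, Nat.cast_choose_two]

theorem len_eq (l : List ℤ) : len l = l.length := by
  induction l with
  | nil => rfl
  | cons c t ih => exact congrArg Nat.succ ih

theorem cast_land (L x : ℕ) : ((Nat.land x (2 ^ L - 1) : ℕ) : ZMod (2 ^ L)) = x := by
  show ((x &&& (2 ^ L - 1) : ℕ) : ZMod (2 ^ L)) = x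
  rw [Nat.and_two_pow_sub_one_eq_mod, ZMod.natCast_mod]

theorem cast_mask (L : ℕ) : ((2 ^ L - 1 : ℕ) : ZMod (2 ^ L)) = -1 := by
  rw [Nat.cast_sub Nat.one_le_two_pow, ZMod.natCast_self, Nat.cast_one, zero_sub]

theorem cast_ng (L x : ℕ) : ((ng (2 ^ L - 1) x : ℕ) : ZMod (2 ^ L)) = -x := by
  have h : x &&& (2 ^ L - 1) ≤ 2 ^ L - 1 + 1 := Nat.and_le_right.trans (Nat.le_succ _)
  show ((2 ^ L - 1 + 1 - (x &&& (2 ^ L - 1)) : ℕ) : ZMod (2 ^ L)) = -x
  rw [Nat.cast_sub h, Nat.cast_add, cast_mask, Nat.cast_one, neg_add_cancel, zero_sub,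
    Nat.and_two_pow_sub_one_eq_mod, ZMod.natCast_mod]

theorem skera_ev {R : Type} [CommRing R] (c : ℤ) (t : List ℤ) (x : R) :
    ev (c :: t) x = c + x * ev t x := rfl

theorem cast_pk (L B : ℕ) (l : List ℤ) :
    ((pk (2 ^ L - 1) B l : ℕ) : ZMod (2 ^ L)) = ev l ((2 : ZMod (2 ^ L)) ^ B) := by
  induction l with
  | nil => exact Nat.cast_zero
  | cons c t ih =>
    rw [skera_ev, ← ih]
    cases c with
    | ofNat n =>
      show ((Nat.land (n + pk (2 ^ L - 1) B t <<< B) (2 ^ L - 1) : ℕ) : ZMod (2 ^ L)) = _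
      rw [cast_land, Nat.shiftLeft_eq]
      push_cast
      simp only [Int.ofNat_eq_natCast, Int.cast_natCast]
      ring
    | negSucc n =>
      show ((Nat.land ((2 ^ L - 1) * (n + 1) + pk (2 ^ L - 1) B t <<< B) (2 ^ L - 1) : ℕ) :
        ZMod (2 ^ L)) = _
      rw [cast_land, Nat.shiftLeft_eq, Nat.cast_add, Nat.cast_mul, cast_mask, Int.cast_negSucc]
      push_cast
      ring

theorem cast_mu (L B μ0 μ1 : ℕ) : ((Nat.add μ0 (Nat.shiftLeft μ1 B) : ℕ) : ZMod (2 ^ L)) =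
    mu μ0 μ1 ((2 : ZMod (2 ^ L)) ^ B) := by
  show ((μ0 + μ1 <<< B : ℕ) : ZMod (2 ^ L)) = _
  rw [Nat.shiftLeft_eq, mu]
  push_cast
  ring

theorem cast_uU (L S T μ V : ℕ) : ((uU (2 ^ L - 1) S T μ V : ℕ) : ZMod (2 ^ L)) =
    gU S T (μ : ZMod (2 ^ L)) V := by
  rw [uU, cast_land, gU]
  simp only [Nat.add_eq, Nat.mul_eq, Nat.cast_add, Nat.cast_mul, cast_land, cast_ng, Nat.cast_ofNat]
  ring

theorem norm_ev_le (r : ℕ) (l : List ℤ) {x : ℂ} (hx : ‖x‖ ≤ r) : ‖ev l x‖ ≤ nl r l := by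
  induction l with
  | nil => simp [ev]
  | cons c t ih =>
    have h : nl r (c :: t) = c.natAbs + r * nl r t := by cases c <;> rfl
    rw [skera_ev, h]
    push_cast
    refine (norm_add_le _ _).trans (add_le_add ?_ ?_)
    · rw [Complex.norm_intCast, Nat.cast_natAbs, Int.cast_abs]
    · rw [norm_mul]
      exact mul_le_mul hx ih (norm_nonneg _) (Nat.cast_nonneg _)

theorem norm_ev_sub (r V0 : ℕ) (l : List ℤ) {x : ℂ} (hx : ‖x‖ ≤ r) :
    ‖ev (Int.ofNat V0 :: l) x - V0‖ ≤ (r * nl r l : ℕ) := by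
  rw [skera_ev, Int.ofNat_eq_natCast, Int.cast_natCast, add_sub_cancel_left, norm_mul, Nat.cast_mul]
  exact mul_le_mul hx (norm_ev_le r l hx) (norm_nonneg _) (Nat.cast_nonneg _)

theorem norm_lb (a b S μ0 μ1 r : ℕ) {x : ℂ} (hx : ‖x‖ ≤ r) :
    ‖(a * S : ℂ) - b * mu μ0 μ1 x‖ ≤ lb a b S μ0 μ1 r := by
  have e : (a * S : ℂ) - b * mu μ0 μ1 x =
      ((((a * S : ℕ) : ℝ) - (b * μ0 : ℕ) : ℝ) : ℂ) - ((b * μ1 : ℕ) : ℂ) * x := by
    rw [mu]
    push_cast
    ring
  show _ ≤ ((ad (a * S) (b * μ0) + b * μ1 * r : ℕ) : ℝ)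
  rw [e, Nat.cast_add, ad_eq, Nat.cast_mul (b * μ1)]
  refine (norm_sub_le _ _).trans (add_le_add (Complex.norm_real _).le ?_)
  rw [norm_mul, Complex.norm_natCast]
  exact mul_le_mul_of_nonneg_left hx (Nat.cast_nonneg _)

theorem der_cons (c : ℤ) (t : List ℤ) : der (c :: t) = dl t 1 := rfl

theorem length_dl (l : List ℤ) (k : ℕ) : (dl l k).length = l.length := by
  induction l generalizing k with
  | nil => rfl
  | cons c t ih => exact congrArg Nat.succ (ih (k + 1))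

theorem length_der (l : List ℤ) : (der l).length = l.length - 1 := by
  cases l with
  | nil => rfl
  | cons c t => exact length_dl t 1

theorem skera_dl1 (c : ℤ) (t : List ℤ) (k : ℕ) (x : ℂ) :
    ev (dl (c :: t) k) x = k * c + x * ev (dl t (k + 1)) x := by
  show ((k * c : ℤ) : ℂ) + x * ev (dl t (k + 1)) x = _
  push_cast
  rfl

theorem skera_dl (l : List ℤ) (k : ℕ) (x : ℂ) :
    ev (dl l (k + 1)) x = ev (dl l k) x + ev l x := by
  induction l generalizing k with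
  | nil => exact (add_zero _).symm
  | cons c t ih =>
    rw [skera_dl1, skera_dl1, ih (k + 1), skera_ev]
    push_cast
    ring

theorem hasDerivAt_ev (l : List ℤ) (x : ℂ) : HasDerivAt (fun z : ℂ => ev l z) (ev (der l) x) x := by
  induction l with
  | nil => exact hasDerivAt_const x (0 : ℂ)
  | cons c t ih =>
    have h := ((hasDerivAt_id x).mul ih).const_add (c : ℂ)
    have e : ev (der (c :: t)) x = 1 * ev t x + x * ev (der t) x := by
      rw [der_cons]
      cases t with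
      | nil => simp [ev, dl, der]
      | cons d u =>
        rw [der_cons, skera_dl1, skera_dl, skera_ev]
        push_cast
        ring
    rw [e]
    exact h

theorem fl_le (a : ℤ) (ha : |a| ≤ 31) (l : List ℤ) :
    |ev l ((a : ℝ) / 32) - fl a l| ≤ 32 := by
  have ha' : |(a : ℝ)| ≤ 31 := by exact_mod_cast ha
  induction l with
  | nil => simp [ev, fl]
  | cons c t ih =>
    have h : fl a (c :: t) = c + a * fl a t / 32 := by
      show c + (a * fl a t) >>> (5 : ℕ) = _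
      rw [Int.shiftRight_eq_div_pow]
      norm_num
    have h1 : ((a * fl a t / 32 : ℤ) : ℝ) * 32 ≤ a * fl a t := by
      exact_mod_cast Int.ediv_mul_le (a * fl a t) (by norm_num : (32 : ℤ) ≠ 0)
    have h2 : (a * fl a t : ℝ) < (((a * fl a t / 32 : ℤ) : ℝ) + 1) * 32 := by
      exact_mod_cast Int.lt_ediv_add_one_mul_self (a * fl a t) (by norm_num : (0 : ℤ) < 32)
    have h3 : |(a : ℝ) * (ev t ((a : ℝ) / 32) - fl a t)| ≤ 31 * 32 := by
      rw [abs_mul]
      exact mul_le_mul ha' ih (abs_nonneg _) (by norm_num)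
    rw [skera_ev, h, Int.cast_add]
    rw [abs_le] at h3 ⊢
    constructor <;> nlinarith [h3.1, h3.2]

end Pool.Agent.HillD.S

/-! Signed digits. -/

namespace Pool.Agent.HillD.S
open Real Set Filter Topology Polynomial Metric

theorem sker_nrm {B : ℕ} (hB : 1 ≤ B) (r n : ℕ) : ∀ (L X : ℕ) (p : ℤ[X]), B * n ≤ L →
    (2 ^ L : ℤ) ∣ p.eval (2 ^ B) - X → (∀ k, (p.coeff k).natAbs < 2 ^ (B - 1)) →
    nrm B (2 ^ (B - 1)) (2 ^ B - 1) r n X =
      ∑ k ∈ Finset.range n, (p.coeff k).natAbs * r ^ k := by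
  induction n with
  | zero => intros; rfl
  | succ n ih =>
    rintro L X p hn ⟨m, hm⟩ hc
    have e : nrm B (2 ^ (B - 1)) (2 ^ B - 1) r (n + 1) X = fN (X + 2 ^ (B - 1)) fun Y =>
      ad (Y &&& (2 ^ B - 1)) (2 ^ (B - 1)) +
        r * nrm B (2 ^ (B - 1)) (2 ^ B - 1) r n (Y >>> B) := rfl
    have h2 : (2 : ℕ) ^ B = 2 * 2 ^ (B - 1) := by
      rw [← pow_succ']; congr 1; omega
    have hL : (2 : ℤ) ^ L = 2 ^ B * 2 ^ (L - B) := by
      rw [← pow_add]; congr 1; rw [Nat.mul_succ] at hn; omega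
    have hp : p.eval (2 ^ B) = p.coeff 0 + 2 ^ B * p.divX.eval (2 ^ B) := by
      conv_lhs => rw [← X_mul_divX_add p]
      simp [add_comm]
    have h0 := hc 0
    have key := (Int.ediv_emod_unique (a := ((X + 2 ^ (B - 1) : ℕ) : ℤ)) (b := ((2 ^ B : ℕ) : ℤ))
      (r := p.coeff 0 + (2 ^ (B - 1) : ℕ)) (q := p.divX.eval (2 ^ B) - 2 ^ (L - B) * m)
      (by positivity)).2 ⟨by
        rw [hL, hp] at hm
        push_cast
        linear_combination hm, by omega, by rw [h2]; omega⟩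
    rw [← Int.natCast_div, ← Int.natCast_mod] at key
    rw [e, fN_eq, Nat.and_two_pow_sub_one_eq_mod, Nat.shiftRight_eq_div_pow,
      ih (L - B) _ p.divX (by rw [Nat.mul_succ] at hn; omega) ⟨m, by rw [key.1]; ring⟩
        fun k => by rw [coeff_divX]; exact hc _, Finset.sum_range_succ', Finset.mul_sum, add_comm]
    congr 1
    · exact Finset.sum_congr rfl fun k _ => by rw [coeff_divX]; ring
    · have := key.2
      simp only [ad, Nat.add_eq, Nat.sub_eq, pow_zero, mul_one]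
      omega

/-- Signed digits are the coefficients. -/
theorem nrm_eq {L B X n : ℕ} {p : ℤ[X]} (hB : 1 ≤ B) (hn : B * n ≤ L) (h : Rep L B X p)
    (hc : ∀ k, (p.coeff k).natAbs < 2 ^ (B - 1)) (r : ℕ) :
    nrm B (2 ^ (B - 1)) (2 ^ B - 1) r n X =
      ∑ k ∈ Finset.range n, (p.coeff k).natAbs * r ^ k := by
  refine sker_nrm hB r n L X p hn ?_ hc
  have e := aeval_algebraMap_apply_eq_algebraMap_eval (A := ZMod (2 ^ L)) ((2 : ℤ) ^ B) p
  simp only [algebraMap_int_eq, eq_intCast, Int.cast_pow, Int.cast_ofNat] at e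
  have := (ZMod.intCast_eq_intCast_iff_dvd_sub X (p.eval (2 ^ B)) (2 ^ L)).1 (by
    rw [← e, ← h]; simp)
  exact_mod_cast this

theorem Rep.sub_const {L B X : ℕ} {p : ℤ[X]} (h : Rep L B X p) (c : ℕ) :
    Rep L B (Nat.add X (ng (2 ^ L - 1) c)) (p - C (c : ℤ)) := by
  unfold Rep at *
  rw [Nat.add_eq, Nat.cast_add, cast_ng, h]
  simp [sub_eq_add_neg]

theorem sker_main {n X M r : ℕ} {p : ℤ[X]} (c : ℕ) (hr : Rep (256 * n) 256 X p)
    (hn : p.natDegree < n) (hc : ∀ z : ℂ, ‖z‖ ≤ 1 → ‖aeval z p‖ ≤ M) (hM : M + c < H0) {z : ℂ}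
    (hz : ‖z‖ ≤ r) :
    ‖aeval z p - c‖ ≤ nrm 256 H0 M0 r n (Nat.add X (ng (2 ^ (256 * n) - 1) c)) := by
  have e : ∀ z : ℂ, aeval z (p - C (c : ℤ)) = aeval z p - c := fun z => by simp
  rw [H0_eq] at *
  rw [M0_eq, nrm_eq (by norm_num) le_rfl (hr.sub_const c) fun k => ?_, ← e]
  · exact aeval_le_deg _ (by rwa [natDegree_sub_C]) hz
  · have := icoeff_le (p - C (c : ℤ)) (M := ((M + c : ℕ) : ℝ)) one_pos (fun z hz => by
      rw [e]
      refine (norm_sub_le _ _).trans ?_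
      have := hc z hz
      rw [Complex.norm_natCast]
      push_cast
      linarith) k
    rw [one_pow, mul_one, Nat.cast_le] at this
    exact this.trans_lt hM

theorem pos_sound {n X cr err : ℕ} {p : ℤ[X]} (h : pos (2 ^ (256 * n) - 1) n X cr err = true)
    (hr : Rep (256 * n) 256 X p) (hn : p.natDegree < n)
    (hc : ∀ z : ℂ, ‖z‖ ≤ 1 → ‖aeval z p‖ ≤ cr) {z : ℂ} (hz : ‖z‖ ≤ 1) :
    (err : ℝ) < (aeval z p).re := by
  rw [pos, fN_eq, Bool.and_eq_true, Nat.blt_eq, Nat.blt_eq] at h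
  generalize d0 H0 M0 X = c at h
  have h1 := sker_main (r := 1) c hr hn hc h.1 (z := z) (by simpa using hz)
  have h2 := h.2
  generalize nrm 256 H0 M0 1 n _ = N at h1 h2
  have h3 : (N : ℝ) + err < c := by exact_mod_cast h2
  have h4 := (abs_le.1 ((Complex.abs_re_le_norm _).trans h1)).1
  simp only [Complex.sub_re, Complex.natCast_re] at h4
  linarith

theorem UB_sound {S T μ0 μ1 V0 C ns : ℕ} {Vr : List ℤ} (hns : 2 * (Vr.length + 2) ≤ ns)
    (h : 2 * (V0 + nl 1 Vr) * (lb 1 2 S μ0 μ1 1 * (V0 + nl 1 Vr) + (μ0 + μ1) * T) + C < H0)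
    (r : ℕ) : UB S T μ0 μ1 (Int.ofNat V0 :: Vr) C r (nrm 256 H0 M0 r ns
      (Nat.add (uU (2 ^ (256 * ns) - 1) S T (Nat.add μ0 (Nat.shiftLeft μ1 256))
        (pk (2 ^ (256 * ns) - 1) 256 (Int.ofNat V0 :: Vr))) (ng (2 ^ (256 * ns) - 1) C))) := by
  intro x hx
  have e : ∀ {R : Type} [CommRing R] (z : R), aeval z (gU S T (mu μ0 μ1 (X : ℤ[X]))
      (ev (Int.ofNat V0 :: Vr) X)) = gU S T (mu μ0 μ1 z) (ev (Int.ofNat V0 :: Vr) z) := by
    intro R _ z
    have := map_gU (aeval z : ℤ[X] →ₐ[ℤ] R).toRingHom S T (mu μ0 μ1 X) (ev (Int.ofNat V0 :: Vr) X)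
    rw [map_mu, map_ev] at this
    simpa using this
  rw [← e]
  refine sker_main C ?_ ?_ (fun z hz => ?_) h hx
  · rw [Rep, e, cast_uU, cast_mu, cast_pk]
  · have h1 : (ev (Int.ofNat V0 :: Vr) (X : ℤ[X])).natDegree ≤ Vr.length := natDegree_ev _
    have h2 := natDegree_mu μ0 μ1
    generalize ev (Int.ofNat V0 :: Vr) (X : ℤ[X]) = W at h1
    generalize mu μ0 μ1 (X : ℤ[X]) = m at h2
    have h3 : ((S : ℤ[X]) - 2 * m).natDegree ≤ 1 :=
      (natDegree_sub_le _ _).trans (max_le (by simp) (natDegree_mul_le.trans (by simpa)))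
    have h4 : (((S : ℤ[X]) - 2 * m) * W + m * T).natDegree ≤ 1 + Vr.length :=
      (natDegree_add_le _ _).trans (max_le (natDegree_mul_le.trans (by omega))
        (natDegree_mul_le.trans (by rw [natDegree_natCast]; omega)))
    have h5 : (2 * W).natDegree ≤ Vr.length := natDegree_mul_le.trans (by simpa)
    exact natDegree_mul_le.trans_lt (by omega)
  · rw [e]
    have hz' : ‖z‖ ≤ (1 : ℕ) := by simpa using hz
    have h1 := norm_ev_sub 1 V0 Vr hz'
    have h2 := norm_lb 1 2 S μ0 μ1 1 hz'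
    have h3 : ‖mu μ0 μ1 z‖ ≤ μ0 + μ1 := by
      refine (norm_add_le _ _).trans ?_
      rw [norm_mul, Complex.norm_natCast, Complex.norm_natCast]
      nlinarith [Nat.cast_nonneg (α := ℝ) μ1]
    have h4 : ‖ev (Int.ofNat V0 :: Vr) z‖ ≤ V0 + nl 1 Vr := by
      have := norm_le_insert' (ev (Int.ofNat V0 :: Vr) z) V0
      rw [Complex.norm_natCast] at this
      push_cast at h1
      linarith
    simp only [Nat.cast_one, one_mul, Nat.cast_ofNat] at h2
    rw [gU, norm_mul, norm_mul, Complex.norm_ofNat]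
    push_cast
    gcongr
    refine (norm_add_le _ _).trans ?_
    rw [norm_mul, norm_mul, Complex.norm_natCast]
    gcongr

end Pool.Agent.HillD.S
end

-- part Pool.Agent.P.MP_ae2765_an.SB
section

/-! Completeness of the cosines and of the sines. -/

namespace Pool.Agent.HillD.S
open Real Set Filter Topology Polynomial Metric

theorem scos_pow {f : ℝ → ℝ} (hf : Continuous f)
    (h : ∀ n : ℕ, ∫ t in (0 : ℝ)..π, f t * cos (n * t) = 0) (k : ℕ) :
    ∀ n : ℤ, ∫ t in (0 : ℝ)..π, f t * cos t ^ k * cos (n * t) = 0 := by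
  induction k with
  | zero =>
    intro n
    obtain ⟨m, rfl | rfl⟩ := n.eq_nat_or_neg
    · simpa using h m
    · simpa using h m
  | succ k ih =>
    intro n
    have e : ∀ t, f t * cos t ^ (k + 1) * cos (n * t) =
        1 / 2 * (f t * cos t ^ k * cos ((n + 1 : ℤ) * t) +
          f t * cos t ^ k * cos ((n - 1 : ℤ) * t)) := fun t => by
      push_cast
      rw [add_mul, sub_mul, one_mul, cos_add, cos_sub]
      ring
    simp only [e]
    rw [intervalIntegral.integral_const_mul, intervalIntegral.integral_add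
      (Continuous.intervalIntegrable (by fun_prop) _ _)
      (Continuous.intervalIntegrable (by fun_prop) _ _), ih, ih, add_zero, mul_zero]

theorem scos_poly {f : ℝ → ℝ} (hf : Continuous f)
    (h : ∀ n : ℕ, ∫ t in (0 : ℝ)..π, f t * cos (n * t) = 0) (p : ℝ[X]) :
    ∫ t in (0 : ℝ)..π, f t * p.eval (cos t) = 0 := by
  simp only [eval_eq_sum_range, Finset.mul_sum]
  rw [intervalIntegral.integral_finsetSum fun i _ =>
    Continuous.intervalIntegrable (by fun_prop) _ _]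
  refine Finset.sum_eq_zero fun i _ => ?_
  have h1 := scos_pow hf h i 0
  simp only [Int.cast_zero, zero_mul, cos_zero, mul_one] at h1
  simp only [mul_left_comm (f _)]
  rw [intervalIntegral.integral_const_mul, h1, mul_zero]

theorem cos_complete {f : ℝ → ℝ} (hf : Continuous f)
    (h : ∀ n : ℕ, ∫ t in (0 : ℝ)..π, f t * cos (n * t) = 0) : ∀ t ∈ Icc 0 π, f t = 0 := by
  have hI : ∫ t in (0 : ℝ)..π, f t * f t ≤ 0 := by
    refine le_of_forall_pos_le_add fun ε hε => ?_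
    have hM : 0 ≤ ∫ t in (0 : ℝ)..π, |f t| :=
      intervalIntegral.integral_nonneg pi_pos.le fun t _ => abs_nonneg _
    obtain ⟨p, hp⟩ := exists_polynomial_near_of_continuousOn (-1) 1 (fun s => f (arccos s))
      (hf.comp continuous_arccos).continuousOn (ε / ((∫ t in (0 : ℝ)..π, |f t|) + 1))
      (by positivity)
    have h1 : ∫ t in (0 : ℝ)..π, f t * f t ≤ ∫ t in (0 : ℝ)..π, (f t * p.eval (cos t) +
        ε / ((∫ t in (0 : ℝ)..π, |f t|) + 1) * |f t|) := by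
      refine intervalIntegral.integral_mono_on pi_pos.le
        (Continuous.intervalIntegrable (by fun_prop) _ _)
        (Continuous.intervalIntegrable (by fun_prop) _ _) fun t ht => ?_
      have h2 := hp (cos t) ⟨neg_one_le_cos t, cos_le_one t⟩
      simp only [arccos_cos ht.1 ht.2] at h2
      have h3 := neg_abs_le (f t * (p.eval (cos t) - f t))
      rw [abs_mul] at h3
      nlinarith [mul_le_mul_of_nonneg_left h2.le (abs_nonneg (f t))]
    rw [intervalIntegral.integral_add (Continuous.intervalIntegrable (by fun_prop) _ _)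
      (Continuous.intervalIntegrable (by fun_prop) _ _), scos_poly hf h,
      intervalIntegral.integral_const_mul] at h1
    refine h1.trans (add_le_add le_rfl ?_)
    rw [div_mul_eq_mul_div, div_le_iff₀ (by positivity)]
    nlinarith
  intro t ht
  by_contra h0
  exact absurd (intervalIntegral.integral_pos pi_pos (f := fun t => f t * f t)
    (by fun_prop) (fun t _ => mul_self_nonneg _) ⟨t, ht, mul_self_pos.2 h0⟩) (not_lt.2 hI)

theorem sin_complete {f : ℝ → ℝ} (hf : Continuous f)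
    (h : ∀ n : ℕ, ∫ t in (0 : ℝ)..π, f t * sin (n * t) = 0) : ∀ t ∈ Icc 0 π, f t = 0 := by
  have hz : ∀ n : ℤ, ∫ t in (0 : ℝ)..π, f t * sin (n * t) = 0 := fun n => by
    obtain ⟨m, rfl | rfl⟩ := n.eq_nat_or_neg
    · simpa using h m
    · simpa using h m
  have h1 := cos_complete (f := fun t => f t * sin t) (by fun_prop) fun n => by
    have e : ∀ t, f t * sin t * cos (n * t) = 1 / 2 * (f t * sin (((n : ℤ) + 1 : ℤ) * t) -
        f t * sin (((n : ℤ) - 1 : ℤ) * t)) := fun t => by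
      push_cast
      rw [add_mul, sub_mul, one_mul, sin_add, sin_sub]
      ring
    simp only [e]
    rw [intervalIntegral.integral_const_mul, intervalIntegral.integral_sub
      (Continuous.intervalIntegrable (by fun_prop) _ _)
      (Continuous.intervalIntegrable (by fun_prop) _ _), hz, hz, sub_zero, mul_zero]
  have h2 : Ioo 0 π ⊆ {t | f t = 0} := fun t ht =>
    (mul_eq_zero.1 (h1 t (Ioo_subset_Icc_self ht))).resolve_right
      (sin_pos_of_pos_of_lt_pi ht.1 ht.2).ne'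
  have h3 := closure_minimal h2 (isClosed_eq hf continuous_const)
  rw [closure_Ioo pi_pos.ne] at h3
  exact h3

end Pool.Agent.HillD.S

/-! The Fourier coefficients of the periodic solution on a branch. -/

namespace Pool.Agent.HillD.S
open Real Set Filter Topology Polynomial Metric

theorem sfour_ftc {m ω : ℝ} {x y : ℝ → ℝ} (hm : m < 1) (hl : IsLin (cA m ω) (cB m ω) x y)
    (θ n : ℝ) : m * (ω - (n - 1) * (n - 2) / 2) * (∫ t in (0 : ℝ)..π, x t * sin ((n - 2) * t + θ)) +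
      (2 * (1 - 2 * m) * ω ^ 2 + 2 * m * ω - (2 - m) * n ^ 2) *
        (∫ t in (0 : ℝ)..π, x t * sin (n * t + θ)) +
      m * (ω - (n + 1) * (n + 2) / 2) * (∫ t in (0 : ℝ)..π, x t * sin ((n + 2) * t + θ)) =
      2 * ω * (sin θ * y 0 - sin (n * π + θ) * y π) -
        2 * n * (cos θ * x 0 - cos (n * π + θ) * x π) := by
  have cx := hl.cont1
  have key := intervalIntegral.integral_eq_sub_of_hasDerivAt (a := 0) (b := π)
    (f := fun t => 2 * (Dm m t * cos (n * t + θ) * x t) * n -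
      2 * ω * (pm m t * sin (n * t + θ) * y t) - 2 * m * (sin t * cos t * sin (n * t + θ) * x t))
    (f' := fun t => m * (ω - (n - 1) * (n - 2) / 2) * (x t * sin ((n - 2) * t + θ)) +
      (2 * (1 - 2 * m) * ω ^ 2 + 2 * m * ω - (2 - m) * n ^ 2) * (x t * sin (n * t + θ)) +
      m * (ω - (n + 1) * (n + 2) / 2) * (x t * sin ((n + 2) * t + θ))) (fun t _ => by
      have d : HasDerivAt (fun t => n * t + θ) n t := by
        simpa using ((hasDerivAt_id t).const_mul n).add_const θ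
      refine ((((((Dm_deriv t).fun_mul d.cos).fun_mul (hl t).1).const_mul 2).mul_const n).fun_sub
        ((((pm_deriv hm t).fun_mul d.sin).fun_mul (hl t).2).const_mul (2 * ω))).fun_sub
        (((((hasDerivAt_sin t).fun_mul (hasDerivAt_cos t)).fun_mul d.sin).fun_mul
          (hl t).1).const_mul (2 * m)) |>.congr_deriv ?_
      have p0 := (pm_pos hm t).ne'
      have p2 := pm_sq hm t
      have d0 := (Dm_pos hm t).ne'
      have g1 : ω * pm m t = Dm m t * cA m ω t := by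
        rw [← p2, cA]; field_simp
      have g2 : ω * um m t * pm m t = m * cA m ω t := by
        rw [um, ← p2, cA]; field_simp
      have g3 : pm m t * cB m ω t = ω * (1 - 2 * m) + 2 * m * cos t ^ 2 := by
        rw [cB]; field_simp
      have g4 : Dm m t = 1 - m * sin t ^ 2 := rfl
      have g5 := sin_sq_add_cos_sq t
      rw [show (n - 2) * t + θ = n * t + θ - 2 * t by ring,
        show (n + 2) * t + θ = n * t + θ + 2 * t by ring, sin_sub (n * t + θ),
        sin_add (n * t + θ), sin_two_mul, cos_two_mul]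
      linear_combination (-2 * n * cos (n * t + θ) * y t) * g1 +
        (2 * sin t * cos t * sin (n * t + θ) * y t) * g2 + (2 * ω * sin (n * t + θ) * x t) * g3 -
        (2 * n ^ 2 * sin (n * t + θ) * x t) * g4 +
        (2 * m * (n ^ 2 + 1) * sin (n * t + θ) * x t) * g5)
    (by apply Continuous.intervalIntegrable; fun_prop)
  rw [intervalIntegral.integral_add, intervalIntegral.integral_add] at key
  · simp only [intervalIntegral.integral_const_mul] at key
    rw [key]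
    simp only [Dm, pm_of_sin sin_pi, pm_of_sin sin_zero, sin_pi, sin_zero, mul_zero, zero_add]
    ring
  all_goals apply Continuous.intervalIntegrable; fun_prop

theorem sfour_refl {a b x y : ℝ → ℝ} (ha : Continuous a) (hb : Continuous b) (hl : IsLin a b x y)
    (sa : ∀ t, a (π - t) = a t) (sb : ∀ t, b (π - t) = b t) {s : ℝ} (h1 : x π = s * x 0)
    (h2 : -y π = s * y 0) (t : ℝ) : x (π - t) = s * x t := by
  have := lin_zero ha hb (x := fun t => x (π - t) - s * x t) (y := fun t => -y (π - t) - s * y t)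
    (fun t => by
      have d : HasDerivAt (fun t : ℝ => π - t) (-1) t := by
        simpa using (hasDerivAt_id t).const_sub π
      exact ⟨(((hl (π - t)).1.comp t d).fun_sub ((hl t).1.const_mul s)).congr_deriv
        (by rw [sa]; ring), (((hl (π - t)).2.comp t d).fun_neg.fun_sub
          ((hl t).2.const_mul s)).congr_deriv (by rw [sb]; ring)⟩) (by simp [h1]) (by simp [h2]) t
  linarith [this.1]

theorem exists_seq {θ0 m : ℝ} {l : ℕ} (hθ : θ0 = 0 ∨ θ0 = π / 2) (hl : 1 ≤ l) (h0 : 0 ≤ m)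
    (hm : m < 1 / 2) : ∃ c : ℤ → ℝ,
      (∀ n : ℤ, m * (cur θ0 l m - (n - 1) * (n - 2) / 2) * c (n - 2) +
        (2 * (1 - 2 * m) * cur θ0 l m ^ 2 + 2 * m * cur θ0 l m - (2 - m) * n ^ 2) * c n +
        m * (cur θ0 l m - (n + 1) * (n + 2) / 2) * c (n + 2) = 0) ∧
      (θ0 = 0 → ∀ n, c (-n) = -c n) ∧ (θ0 = π / 2 → ∀ n, c (-n) = c n) ∧
      (∃ C, ∀ n, |c n| ≤ C) ∧ ∃ n : ℕ, n % 2 = l % 2 ∧ c n ≠ 0 := by
  have k : m < 1 := by linarith
  obtain ⟨c0, c1⟩ := cur_spec hθ hl h0 hm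
  set ω := cur θ0 l m
  have hL := s_lin k ω θ0
  have cx := hL.cont1
  have x0 := sx_zero k ω θ0
  have y0 := sy_zero k ω θ0
  have hρ := rad_pos (cA m ω) (cB m ω) (th m ω θ0)
  set ρ := rad (cA m ω) (cB m ω) (th m ω θ0)
  have x1 : sx m ω θ0 π = ρ π * (-1) ^ l * sin θ0 := by
    rw [sx, c1, sin_add_nat_mul_pi, mul_assoc]
  have y1 : sy m ω θ0 π = ρ π * (-1) ^ l * cos θ0 := by
    rw [sy, c1, cos_add_nat_mul_pi, mul_assoc]
  have xy : sx m ω θ0 1 ^ 2 + sy m ω θ0 1 ^ 2 = ρ 1 ^ 2 := by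
    simp only [sx, sy]
    linear_combination ρ 1 ^ 2 * sin_sq_add_cos_sq (th m ω θ0 1)
  set x := sx m ω θ0
  set y := sy m ω θ0
  obtain ⟨σ, σ1, σ2, σ3, σ4⟩ : ∃ σ : ℝ, σ * σ = 1 ∧ (∀ u, sin (θ0 - u) = σ * sin (u + θ0)) ∧
      (θ0 = 0 → σ = -1) ∧ (θ0 = π / 2 → σ = 1) := by
    have hp := pi_pos
    rcases hθ with h | h
    · exact ⟨-1, by norm_num, fun u => by simp [h], fun _ => rfl, fun _ => by linarith⟩
    · exact ⟨1, by norm_num, fun u => by rw [h, sin_add_pi_div_two, sin_pi_div_two_sub, one_mul],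
        fun _ => by linarith,
        fun _ => rfl⟩
  have sc : sin θ0 * cos θ0 = 0 := by rcases hθ with h | h <;> simp [h]
  have s1 : sin θ0 = σ * sin θ0 := by simpa using σ2 0
  have s2 : -cos θ0 = σ * cos θ0 := by
    simpa [sin_sub_pi_div_two, add_comm, sin_add_pi_div_two] using σ2 (π / 2)
  have hr := sfour_refl (cA_cont k ω) (cB_cont k ω) hL (cA_symm m ω) (cB_symm m ω)
    (s := ρ π * (-1) ^ l * σ) (by rw [x1, x0, mul_assoc _ σ, ← s1])
    (by rw [y1, y0, mul_assoc _ σ, ← s2, mul_neg])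
  set c : ℤ → ℝ := fun n => ∫ t in (0 : ℝ)..π, x t * sin (n * t + θ0) with hc
  have neg : ∀ n, c (-n) = σ * c n := fun n => by
    simp only [hc, ← intervalIntegral.integral_const_mul, mul_left_comm σ, ← σ2]
    push_cast
    simp only [neg_mul, neg_add_eq_sub]
  refine ⟨c, fun n => ?_, fun h n => by rw [neg, σ3 h, neg_one_mul],
    fun h n => by rw [neg, σ4 h, one_mul], ⟨∫ t in (0 : ℝ)..π, |x t|, fun n => ?_⟩, ?_⟩
  · have := sfour_ftc k hL θ0 n
    rw [add_comm (n * π), sin_add_int_mul_pi, cos_add_int_mul_pi, x0, y0, x1, y1] at this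
    simp only [hc]
    push_cast
    linear_combination this + (2 * (ω - n) * (1 - (-1) ^ n * (ρ π * (-1) ^ l))) * sc
  · rw [← Real.norm_eq_abs]
    refine intervalIntegral.norm_integral_le_of_norm_le pi_pos.le
      (Eventually.of_forall fun t _ => ?_) (cx.abs.intervalIntegrable _ _)
    rw [Real.norm_eq_abs, abs_mul]
    exact mul_le_of_le_one_right (abs_nonneg _) (abs_sin_le_one _)
  · by_contra hz
    push Not at hz
    have all : ∀ n : ℕ, c n = 0 := fun n => by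
      by_cases hn : n % 2 = l % 2
      · exact hz n hn
      have e : (-1 : ℝ) ^ l * (-1) ^ n = -1 := by
        rw [← pow_add]
        exact Odd.neg_one_pow (Nat.odd_iff.2 (by omega))
      have : c n = -ρ π * c n := by
        have h := intervalIntegral.integral_comp_sub_left (a := 0) (b := π)
          (fun t => x t * sin (n * t + θ0)) π
        simp only [sub_self, sub_zero] at h
        simp only [hc, Int.cast_natCast]
        rw [← intervalIntegral.integral_const_mul, ← h]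
        refine intervalIntegral.integral_congr fun t _ => ?_
        rw [hr, show n * (π - t) + θ0 = θ0 - n * t + n * π by ring, sin_add_nat_mul_pi, σ2]
        linear_combination (ρ π * x t * sin (n * t + θ0)) * (σ * σ * e - σ1)
      have := hρ π
      exact (mul_eq_zero.1 (show (1 + ρ π) * c n = 0 by linarith)).resolve_left (by positivity)
    have hx : ∀ t ∈ Icc 0 π, x t = 0 := by
      rcases hθ with h | h
      · exact sin_complete cx fun n => by simpa [hc, h] using all n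
      · exact cos_complete cx fun n => by simpa [hc, h, sin_add_pi_div_two] using all n
    have i1 : Icc 0 π ∈ 𝓝 (1 : ℝ) := Icc_mem_nhds one_pos (by linarith [pi_gt_three])
    have d := ((hL 1).1.congr_of_eventuallyEq (f₁ := fun _ => 0)
      (Eventually.mono i1 fun t ht => (hx t ht).symm)).unique (hasDerivAt_const _ _)
    have a0 : cA m ω 1 ≠ 0 := (div_pos c0 (pm_pos k 1)).ne'
    rw [hx 1 (mem_of_mem_nhds i1), (mul_eq_zero.1 d).resolve_left a0] at xy
    have := hρ 1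
    nlinarith

end Pool.Agent.HillD.S

/-! The continued fraction of the tail. -/

namespace Pool.Agent.HillD.S
open Real Set Filter Topology Polynomial Metric

theorem geoLim {V : Set ℂ} (hV : IsOpen V) {f : ℕ → ℂ → ℂ} (hf : ∀ k, DifferentiableOn ℂ (f k) V)
    {C θ : ℝ} (hθ : θ < 1) (h : ∀ k, ∀ z ∈ V, ‖f (k + 1) z - f k z‖ ≤ C * θ ^ k) (h0 : 0 ≤ θ) :
    DifferentiableOn ℂ (fun z => limUnder atTop fun k => f k z) V ∧
      ∀ z ∈ V, Tendsto (fun k => f k z) atTop (𝓝 (limUnder atTop fun k => f k z)) := by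
  have hd : ∀ z ∈ V, ∀ k, dist (f k z) (f (k + 1) z) ≤ C * θ ^ k := fun z hz k => by
    rw [dist_comm, dist_eq_norm]; exact h k z hz
  have ht : ∀ z ∈ V, Tendsto (fun k => f k z) atTop (𝓝 (limUnder atTop fun k => f k z)) :=
    fun z hz => (cauchySeq_of_le_geometric θ C hθ (hd z hz)).tendsto_limUnder
  refine ⟨TendstoLocallyUniformlyOn.differentiableOn (φ := atTop) (F := f)
    (TendstoUniformlyOn.tendstoLocallyUniformlyOn ?_) (Eventually.of_forall hf) hV, ht⟩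
  rw [Metric.tendstoUniformlyOn_iff]
  intro ε hε
  have h1 : Tendsto (fun k : ℕ => C * θ ^ k / (1 - θ)) atTop (𝓝 (C * 0 / (1 - θ))) :=
    ((tendsto_pow_atTop_nhds_zero_of_lt_one h0 hθ).const_mul C).div_const _
  rw [mul_zero, zero_div] at h1
  filter_upwards [h1.eventually (gt_mem_nhds hε)] with k hk z hz
  rw [dist_comm]
  exact (dist_le_of_le_geometric_of_tendsto θ C hθ (hd z hz) (ht z hz) k).trans_lt hk

theorem stail_den {b d r : ℂ} {γ : ℝ} (hγ : 0 < γ) (hb : ‖b‖ ≤ 4 / 3 * γ) (hd : 7 / 2 * γ ≤ ‖d‖)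
    (hr : ‖r‖ ≤ 1 / 3) : 3 * γ ≤ ‖d + b * r‖ := by
  have h1 : ‖d‖ ≤ ‖d + b * r‖ + ‖b * r‖ := by
    simpa using norm_sub_le (d + b * r) (b * r)
  have h2 : ‖b * r‖ ≤ 4 / 3 * γ * (1 / 3) := by
    rw [norm_mul]; exact mul_le_mul hb hr (norm_nonneg _) (by positivity)
  linarith

variable {A B D : ℕ → ℂ}

theorem stail_norm (h : TD A B D) : ∀ k i, ‖cf A B D k i‖ ≤ 1 / 3
  | 0, _ => by simp [cf]
  | k + 1, i => by
    obtain ⟨γ, hγ, ha, hb, hd⟩ := h i
    have := stail_den hγ hb hd (stail_norm h k (i + 1))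
    rw [cf, norm_div, norm_neg, div_le_iff₀ (by linarith)]
    linarith

theorem stail_ne (h : TD A B D) (k i : ℕ) : D i + B i * cf A B D k (i + 1) ≠ 0 := by
  obtain ⟨γ, hγ, -, hb, hd⟩ := h i
  have := stail_den hγ hb hd (stail_norm h k (i + 1))
  exact norm_pos_iff.1 (by linarith)

theorem stail_step (h : TD A B D) :
    ∀ k i, ‖cf A B D (k + 1) i - cf A B D k i‖ ≤ 1 / 3 * (4 / 27) ^ k
  | 0, i => by simpa [cf] using stail_norm h 1 i
  | k + 1, i => by
    obtain ⟨γ, hγ, ha, hb, hd⟩ := h i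
    have h1 := stail_den hγ hb hd (stail_norm h k (i + 1))
    have h2 := stail_den hγ hb hd (stail_norm h (k + 1) (i + 1))
    have h3 := stail_step h k (i + 1)
    have n1 := stail_ne h k i
    have n2 := stail_ne h (k + 1) i
    rw [cf, cf.eq_2 A B D i k]
    generalize cf A B D (k + 1) (i + 1) = s at *
    generalize cf A B D k (i + 1) = r at *
    have e : -A i / (D i + B i * s) - -A i / (D i + B i * r) =
        A i * (B i * (s - r)) / ((D i + B i * s) * (D i + B i * r)) := by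
      field_simp; ring
    have h4 : 3 * γ * (3 * γ) ≤ ‖D i + B i * s‖ * ‖D i + B i * r‖ :=
      mul_le_mul h2 h1 (by positivity) (norm_nonneg _)
    rw [e, norm_div, norm_mul, norm_mul, norm_mul,
      div_le_iff₀ (lt_of_lt_of_le (by positivity) h4)]
    calc _ ≤ γ * (4 / 3 * γ * (1 / 3 * (4 / 27) ^ k)) := by gcongr
      _ = 1 / 3 * (4 / 27) ^ (k + 1) * (3 * γ * (3 * γ)) := by ring
      _ ≤ _ := by gcongr

theorem stail_lim (h : TD A B D) : Tendsto (fun k => cf A B D k 0) atTop (𝓝 (rho A B D)) :=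
  (geoLim isOpen_univ (f := fun k _ => cf A B D k 0) (fun _ => differentiableOn_const _)
    (by norm_num) (fun k _ _ => stail_step h k 0) (by norm_num)).2 0 trivial

theorem rho_norm (h : TD A B D) : ‖rho A B D‖ ≤ 1 / 3 :=
  le_of_tendsto' (stail_lim h).norm fun k => stail_norm h k 0

theorem rho_seq (h : TD A B D) {c : ℕ → ℂ} {C : ℝ} (hC : ∀ i, ‖c i‖ ≤ C)
    (hc : ∀ i, A i * c i + D i * c (i + 1) + B i * c (i + 2) = 0) :
    c 1 = rho A B D * c 0 ∧ (c 0 = 0 → ∀ i, c i = 0) := by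
  have key : ∀ k i, ‖c (i + 1) - cf A B D k i * c i‖ ≤ C * (4 / 9) ^ k := by
    intro k
    induction k with
    | zero => intro i; simpa [cf] using hC (i + 1)
    | succ k ih =>
      intro i
      obtain ⟨γ, hγ, -, hb, hd⟩ := h i
      have h1 := stail_den hγ hb hd (stail_norm h k (i + 1))
      have n1 := stail_ne h k i
      have h3 := ih (i + 1)
      have hC0 : 0 ≤ C := (norm_nonneg _).trans (hC 0)
      rw [cf]
      generalize cf A B D k (i + 1) = r at *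
      have e : c (i + 1) - -A i / (D i + B i * r) * c i =
          -(B i * (c (i + 1 + 1) - r * c (i + 1))) / (D i + B i * r) := by
        field_simp; linear_combination hc i
      rw [e, norm_div, norm_neg, norm_mul, div_le_iff₀ (by linarith)]
      calc _ ≤ 4 / 3 * γ * (C * (4 / 9) ^ k) := by gcongr
        _ = C * (4 / 9) ^ (k + 1) * (3 * γ) := by ring
        _ ≤ _ := by gcongr
  have h0 : Tendsto (fun k : ℕ => C * (4 / 9 : ℝ) ^ k) atTop (𝓝 0) := by
    simpa using (tendsto_pow_atTop_nhds_zero_of_lt_one (r := (4 / 9 : ℝ)) (by norm_num)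
      (by norm_num)).const_mul C
  refine ⟨sub_eq_zero.1 (norm_le_zero_iff.1 (le_of_tendsto_of_tendsto'
    (((stail_lim h).mul_const (c 0)).const_sub (c 1)).norm h0 fun k => key k 0)), fun hz i => ?_⟩
  induction i with
  | zero => exact hz
  | succ i ih =>
    exact norm_le_zero_iff.1 (ge_of_tendsto' h0 fun k => by simpa [ih] using key k i)

theorem rho_diff {V : Set ℂ} (hV : IsOpen V) {A B D : ℂ → ℕ → ℂ}
    (hA : ∀ i, DifferentiableOn ℂ (fun z => A z i) V)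
    (hB : ∀ i, DifferentiableOn ℂ (fun z => B z i) V)
    (hD : ∀ i, DifferentiableOn ℂ (fun z => D z i) V) (h : ∀ z ∈ V, TD (A z) (B z) (D z)) :
    DifferentiableOn ℂ (fun z => rho (A z) (B z) (D z)) V := by
  have key : ∀ k i, DifferentiableOn ℂ (fun z => cf (A z) (B z) (D z) k i) V := by
    intro k
    induction k with
    | zero => intro i; simp only [cf]; exact differentiableOn_const _
    | succ k ih =>
      intro i
      simp only [cf]
      exact (hA i).neg.div ((hD i).add ((hB i).mul (ih _))) fun z hz => stail_ne (h z hz) k i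
  exact (geoLim hV (fun k => key k 0) (by norm_num) (fun k z hz => stail_step (h z hz) k 0)
    (by norm_num)).1

end Pool.Agent.HillD.S

/-! A holomorphic fixed point. -/

namespace Pool.Agent.HillD.S
open Real Set Filter Topology Polynomial Metric

theorem fixp {Φ : ℂ → ℂ → ℂ} {κ : ℝ} (hκ : 0 < κ)
    (hd : ∀ (V : Set ℂ) (t u : ℂ → ℂ), IsOpen V → DifferentiableOn ℂ t V →
      DifferentiableOn ℂ u V → (∀ z ∈ V, ‖t z‖ < 1 ∧ ‖u z‖ < 16 * κ) →
      DifferentiableOn ℂ (fun z => Φ (t z) (u z)) V)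
    (hb : ∀ x e, ‖x‖ < 1 → ‖e‖ < 16 * κ → ‖Φ x e‖ ≤ κ + 3 / 16 * ‖e‖) :
    ∃ u : ℂ → ℂ, DifferentiableOn ℂ u (ball 0 1) ∧ (∀ x ∈ ball (0 : ℂ) 1, ‖u x‖ ≤ 2 * κ) ∧
      ∀ x ∈ ball (0 : ℂ) 1, ∀ e, ‖e‖ ≤ 5 * κ → Φ x e = e → e = u x := by
  have lip : ∀ x ∈ ball (0 : ℂ) 1, ∀ z c : ℂ, ‖z‖ ≤ 5 * κ → ‖c‖ ≤ 5 * κ →
      ‖Φ x z - Φ x c‖ ≤ 8 / 11 * ‖z - c‖ := by
    intro x hx z c hz hc
    rw [mem_ball_zero_iff] at hx
    have hs : ∀ w ∈ ball c (11 * κ), ‖w‖ < 16 * κ := fun w hw => by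
      linarith [norm_sub_norm_le w c, mem_ball_iff_norm.1 hw]
    have h4 : ∀ w ∈ ball c (11 * κ), ‖Φ x w‖ ≤ 4 * κ := fun w hw => by
      linarith [hb x w hx (hs w hw), hs w hw]
    have h := Complex.dist_le_div_mul_dist_of_mapsTo_ball (f := fun w => Φ x w) (R₂ := 8 * κ)
      (z := z) (hd _ (fun _ => x) id isOpen_ball (differentiableOn_const x) differentiableOn_id
        fun w hw => ⟨hx, hs w hw⟩)
      (fun w hw => mem_closedBall_iff_norm.2 (by
        linarith [norm_sub_le (Φ x w) (Φ x c), h4 w hw, h4 c (mem_ball_self (by positivity))]))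
      (mem_ball_iff_norm.2 (by linarith [norm_sub_le z c]))
    rwa [dist_eq_norm, dist_eq_norm, mul_div_mul_right _ _ hκ.ne'] at h
  obtain ⟨f, f0, fs⟩ : ∃ f : ℕ → ℂ → ℂ, (∀ x, f 0 x = 0) ∧ ∀ k x, f (k + 1) x = Φ x (f k x) :=
    ⟨fun k x => (Φ x)^[k] 0, fun _ => rfl, fun k x => Function.iterate_succ_apply' _ _ _⟩
  have b2 : ∀ k, ∀ x ∈ ball (0 : ℂ) 1, ‖f k x‖ ≤ 2 * κ := fun k x hx => by
    induction k with
    | zero => rw [f0, norm_zero]; positivity
    | succ k ih =>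
      rw [fs]
      linarith [hb x _ (mem_ball_zero_iff.1 hx) (show ‖f k x‖ < 16 * κ by linarith)]
  have b5 : ∀ k, ∀ x ∈ ball (0 : ℂ) 1, ‖f k x‖ ≤ 5 * κ := fun k x hx => by linarith [b2 k x hx]
  have df : ∀ k, DifferentiableOn ℂ (f k) (ball 0 1) := fun k => by
    induction k with
    | zero => exact (differentiableOn_const 0).congr fun x _ => f0 x
    | succ k ih =>
      exact (hd _ id _ isOpen_ball differentiableOn_id ih fun z hz =>
        ⟨mem_ball_zero_iff.1 hz, by linarith [b2 k z hz]⟩).congr fun x _ => fs k x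
  have geo : ∀ x ∈ ball (0 : ℂ) 1, ∀ g : ℕ → ℂ, (∀ k, g (k + 1) = Φ x (g k)) →
      (∀ k, ‖g k‖ ≤ 5 * κ) → ∀ k, ‖g k - f k x‖ ≤ 5 * κ * (8 / 11) ^ k := fun x hx g hg h5 k => by
    induction k with
    | zero => simpa [f0] using h5 0
    | succ k ih =>
      rw [hg, fs, pow_succ]
      linarith [lip x hx _ _ (h5 k) (b5 k x hx)]
  obtain ⟨h1, h2⟩ := geoLim isOpen_ball df (C := 5 * κ) (θ := 8 / 11) (by norm_num)
    (fun k z hz => geo z hz (fun k => f (k + 1) z) (fun k => fs _ _) (fun k => b5 _ z hz) k)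
    (by norm_num)
  refine ⟨_, h1, fun x hx => le_of_tendsto' (h2 x hx).norm fun k => b2 k x hx,
    fun x hx e he hf => ?_⟩
  have h3 := ((tendsto_pow_atTop_nhds_zero_of_lt_one (r := (8 / 11 : ℝ)) (by norm_num)
    (by norm_num)).const_mul (5 * κ))
  have h4 := le_of_tendsto_of_tendsto' ((h2 x hx).const_sub e).norm h3
    (geo x hx (fun _ => e) (fun _ => hf.symm) fun _ => he)
  rwa [mul_zero, norm_le_zero_iff, sub_eq_zero] at h4

end Pool.Agent.HillD.S

/-! The continuant equation holds on the branch. -/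

namespace Pool.Agent.HillD.S
open Real Set Filter Topology Polynomial Metric

section
variable {S T : ℕ} {μ W : ℂ} {u : ℕ → ℂ}

theorem szero_cont_zero (J n : ℕ) : cont S T μ W J n 0 = 0 := by
  induction J generalizing n with
  | zero => rfl
  | succ J ih =>
    have := ih (n + 2)
    simp only [cont, Prod.fst_zero, Prod.snd_zero, mul_zero, sub_zero]
    exact this

theorem szero_inv (hu : ∀ n, gA T μ W (tri (n + 1)) * u n + gD S T μ W (n + 2) * u (n + 2) +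
      gA T μ W (tri (n + 4)) * u (n + 4) = 0) (J n : ℕ) (p : ℂ × ℂ)
    (hp : p.1 * u n + gA T μ W (tri (n + 2)) * p.2 * u (n + 2) = 0) :
    ((cont S T μ W J n p).1 * u (n + 2 * J) +
      gA T μ W (tri (n + 2 * J + 2)) * (cont S T μ W J n p).2 * u (n + 2 * J + 2) = 0) ∧
    ((∀ i, u (n + 2 * J + 2 * i) = 0) → (∃ i, u (n + 2 * i) ≠ 0) → cont S T μ W J n p = 0) := by
  induction J generalizing n p with
  | zero => exact ⟨hp, fun h ⟨i, hi⟩ => (hi (h i)).elim⟩
  | succ J ih =>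
    have e : n + 2 * (J + 1) = n + 2 + 2 * J := by ring
    obtain ⟨h1, h2⟩ := ih (n + 2) (gD S T μ W (n + 2) * p.1 -
      gA T μ W (tri (n + 1)) * gA T μ W (tri (n + 2)) * p.2, p.1) (by
        show _ + gA T μ W (tri (n + 4)) * p.1 * u (n + 4) = 0
        linear_combination p.1 * hu n - gA T μ W (tri (n + 1)) * hp)
    rw [e]
    refine ⟨h1, fun h ⟨i, hi⟩ => ?_⟩
    by_cases h3 : ∃ i, u (n + 2 + 2 * i) ≠ 0
    · exact h2 h h3
    push Not at h3
    have h4 : u n ≠ 0 := by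
      rcases i with _ | i
      · exact hi
      · exact (hi (by rw [← h3 i]; congr 1; ring)).elim
    have h5 : u (n + 2) = 0 := h3 0
    have h6 : u (n + 4) = 0 := h3 1
    have h7 := hu n
    rw [h5, mul_zero, add_zero] at hp
    rw [h5, h6, mul_zero, mul_zero, add_zero, add_zero] at h7
    have h8 := (mul_eq_zero.1 hp).resolve_right h4
    have h9 := (mul_eq_zero.1 h7).resolve_right h4
    simp only [cont, h8, h9, mul_zero, zero_mul, sub_zero]
    exact szero_cont_zero J (n + 2)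

end

theorem szero_tri (n : ℕ) : (tri n : ℂ) = n * (n - 1) / 2 := by
  have := congrArg (fun x : ℝ => (x : ℂ)) (tri_eq n)
  simpa using this

theorem FF_zero {θ0 : ℝ} {l n0 sp sn ff S T : ℕ} (hty : Ty θ0 l n0 sp sn ff) (hl : 1 ≤ l)
    (hS : 0 < S) (hT : 0 < T) (J : ℕ) {μ : ℝ} (h0 : 0 ≤ μ) (hμ : 2 * μ < S)
    (hd : Dom S T (n0 + 2 * J + 2) μ ((T * cur θ0 l (μ / S) : ℝ) : ℂ)) (w : ℂ) :
    FF n0 sp sn ff S T J μ ((T * cur θ0 l (μ / S) : ℝ) : ℂ) w = 0 := by
  have hS' : (0 : ℝ) < S := by exact_mod_cast hS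
  have hθ : θ0 = 0 ∨ θ0 = π / 2 := by
    rcases hty with h | h | h | h <;> simp [h.1]
  obtain ⟨c, hc, hs, hk, ⟨C, hC⟩, n, hn, hn0⟩ := exists_seq hθ hl (div_nonneg h0 hS'.le)
    (by rw [div_lt_iff₀ hS']; linarith)
  obtain ⟨m, hm⟩ : ∃ m, m = μ / S := ⟨_, rfl⟩
  rw [← hm] at hc hd ⊢
  have hm' : (μ : ℂ) = S * m := by
    rw [hm]; exact_mod_cast (mul_div_cancel₀ μ hS'.ne').symm
  generalize cur θ0 l m = ω at hc hd ⊢
  generalize (μ : ℂ) = ν at hm' hd ⊢
  obtain ⟨W, hW⟩ : ∃ W : ℂ, W = ((T * ω : ℝ) : ℂ) := ⟨_, rfl⟩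
  rw [← hW] at hd ⊢
  push_cast at hW
  have hr : ∀ n : ℤ, ν * T * (W - (n - 1) * (n - 2) / 2 * T) * c (n - 2) +
      (gU S T ν W - (n : ℂ) ^ 2 * ((2 * S - ν) * (T : ℂ) ^ 2)) * c n +
      ν * T * (W - (n + 1) * (n + 2) / 2 * T) * c (n + 2) = 0 := fun n => by
    have := congrArg (fun x : ℝ => (x : ℂ)) (hc n)
    push_cast at this
    rw [gU, hm', hW]
    linear_combination (S * T ^ 2 : ℂ) * this
  have hu : ∀ n : ℕ, gA T ν W (tri (n + 1)) * (c n : ℂ) +
      gD S T ν W (n + 2) * c (n + 2 : ℕ) + gA T ν W (tri (n + 4)) * c (n + 4 : ℕ) = 0 := fun n => by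
    have := hr (n + 2)
    rw [add_sub_cancel_right, show (n : ℤ) + 2 + 2 = n + 4 by ring] at this
    simp only [gA, gD, szero_tri]
    push_cast at this ⊢
    linear_combination this
  have h1 : (gD S T ν W n0 + (sp - sn) * (ν * T) * W) * (c n0 : ℂ) +
      gA T ν W (tri (n0 + 2)) * ff * c (n0 + 2 : ℕ) = 0 := by
    have := hr n0
    simp only [gA, gD, szero_tri]
    rcases hty with ⟨h, -, rfl, rfl, rfl, rfl⟩ | ⟨h, -, rfl, rfl, rfl, rfl⟩ |
      ⟨h, -, rfl, rfl, rfl, rfl⟩ | ⟨h, -, rfl, rfl, rfl, rfl⟩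
    · have e := hk h 2
      norm_num [e] at this ⊢
      linear_combination this
    · have e := hk h 1
      norm_num [e] at this ⊢
      linear_combination this
    · have e := hs h 1
      norm_num [e] at this ⊢
      linear_combination this
    · have e : c 0 = 0 := by have := hs h 0; rw [neg_zero] at this; linarith
      norm_num [e] at this ⊢
      linear_combination this
  have h2 : ∃ i : ℕ, (c (n0 + 2 * i : ℕ) : ℂ) ≠ 0 := by
    refine ⟨(n - n0) / 2, ?_⟩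
    rw [show n0 + 2 * ((n - n0) / 2) = n from ?_]
    · exact_mod_cast hn0
    rcases hty with ⟨h, h', rfl, -⟩ | ⟨h, h', rfl, -⟩ | ⟨h, h', rfl, -⟩ | ⟨h, h', rfl, -⟩
    · omega
    · omega
    · omega
    · have : n ≠ 0 := by
        rintro rfl
        have := hs h 0
        rw [neg_zero] at this
        exact hn0 (by push_cast; linarith)
      omega
  obtain ⟨h3, h4⟩ := szero_inv (u := fun n => (c n : ℂ)) hu J n0
    (w * (gD S T ν W n0 + (sp - sn) * (ν * T) * W), ff * w) (by linear_combination w * h1)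
  obtain ⟨h5, h6⟩ := rho_seq hd (c := fun i => (c (n0 + 2 * J + 2 * i : ℕ) : ℂ)) (C := C)
    (fun i => by simpa using hC _) (fun i => by
      have := hu (n0 + 2 * J + 2 * i)
      simp only [tA, tB, tD]
      rw [show n0 + 2 * J + 2 + 2 * i - 1 = n0 + 2 * J + 2 * i + 1 by omega,
        show n0 + 2 * J + 2 + 2 * i = n0 + 2 * J + 2 * i + 2 by omega,
        show n0 + 2 * J + 2 * (i + 1) = n0 + 2 * J + 2 * i + 2 by omega,
        show n0 + 2 * J + 2 * (i + 2) = n0 + 2 * J + 2 * i + 4 by omega]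
      exact this)
  simp only [mul_zero, add_zero, mul_one] at h5 h6
  by_cases h7 : (c (n0 + 2 * J : ℕ) : ℂ) = 0
  · simp only [FF, PQ, h4 (h6 h7) h2, Prod.fst_zero, Prod.snd_zero, mul_zero, add_zero]
  · refine (mul_eq_zero.1 ?_).resolve_right h7
    simp only [FF, PQ, tl]
    rw [h5] at h3
    linear_combination h3

theorem szero_cont_diff {V : Set ℂ} (S T J n : ℕ) {μ W : ℂ → ℂ} {p : ℂ → ℂ × ℂ}
    (hμ : DifferentiableOn ℂ μ V) (hW : DifferentiableOn ℂ W V) (hp : DifferentiableOn ℂ p V) :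
    DifferentiableOn ℂ (fun z => cont S T (μ z) (W z) J n (p z)) V := by
  induction J generalizing n p with
  | zero => exact hp
  | succ J ih =>
    simp only [cont]
    refine ih (n + 2) ?_
    simp only [gA, gD, gU]
    fun_prop

theorem FF_diff {V : Set ℂ} (hV : IsOpen V) (n0 sp sn ff S T J : ℕ) {μ W w : ℂ → ℂ}
    (hμ : DifferentiableOn ℂ μ V) (hW : DifferentiableOn ℂ W V) (hw : DifferentiableOn ℂ w V)
    (hd : ∀ z ∈ V, Dom S T (n0 + 2 * J + 2) (μ z) (W z)) :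
    DifferentiableOn ℂ (fun z => FF n0 sp sn ff S T J (μ z) (W z) (w z)) V := by
  have h1 : DifferentiableOn ℂ (fun z => PQ n0 sp sn ff S T J (μ z) (W z) (w z)) V :=
    szero_cont_diff S T J n0 hμ hW (by simp only [gD, gU]; fun_prop)
  have h2 := rho_diff hV (A := fun z => tA T (n0 + 2 * J + 2) (μ z) (W z))
    (B := fun z => tB T (n0 + 2 * J + 2) (μ z) (W z))
    (D := fun z => tD S T (n0 + 2 * J + 2) (μ z) (W z))
    (fun i => by simp only [tA, gA]; fun_prop) (fun i => by simp only [tB, gA]; fun_prop)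
    (fun i => by simp only [tD, gD, gU]; fun_prop) hd
  have h3 : DifferentiableOn ℂ (fun z => gA T (μ z) (W z) (tri (n0 + 2 * J + 2))) V := by
    simp only [gA]; fun_prop
  exact h1.fst.add ((h3.mul h2).mul h1.snd)

end Pool.Agent.HillD.S
end

-- part Pool.Agent.P.MP_ae2765_an.SD
section

/-! The packed recurrence computes the continuants. -/

namespace Pool.Agent.HillD.S
open Real Set Filter Topology Polynomial Metric

theorem sbig_loop {L U0 U1 nV nZ2 Z1 nZ0 nY1 Y0 S T : ℕ} {k : ℕ → ℕ → ℕ → ℕ → Bool}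
    {μ v : ZMod (2 ^ L)} (h0 : (U0 : ZMod (2 ^ L)) = gU S T μ v)
    (h1 : (U1 : ZMod (2 ^ L)) = gU1 S T μ v)
    (h2 : (nV : ZMod (2 ^ L)) = (μ - 2 * S) * (T : ZMod (2 ^ L)) ^ 2)
    (h3 : (nZ2 : ZMod (2 ^ L)) = -((μ * T) ^ 2 * v ^ 2))
    (h4 : (Z1 : ZMod (2 ^ L)) = (μ * T) ^ 2 * v * T)
    (h5 : (nZ0 : ZMod (2 ^ L)) = -((μ * T) ^ 2 * (T : ZMod (2 ^ L)) ^ 2))
    (h6 : (nY1 : ZMod (2 ^ L)) = -(2 * ((μ * T) ^ 2 * v)))
    (h7 : (Y0 : ZMod (2 ^ L)) = (μ * T) ^ 2 * T) (J : ℕ) :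
    ∀ n P Q P1 Q1 : ℕ, loop (2 ^ L - 1) U0 U1 nV nZ2 Z1 nZ0 nY1 Y0 k J n P Q P1 Q1 = true →
      ∃ G0 Q0 G1 R1 : ℕ, k G0 Q0 G1 R1 = true ∧
        (((G0 : ZMod (2 ^ L)), (Q0 : ZMod (2 ^ L))), (G1 : ZMod (2 ^ L)), (R1 : ZMod (2 ^ L))) =
          cont2 S T μ v J n (((P : ZMod (2 ^ L)), (Q : ZMod (2 ^ L))), (P1 : ZMod (2 ^ L)),
            (Q1 : ZMod (2 ^ L))) := by
  induction J with
  | zero => exact fun n P Q P1 Q1 h => ⟨P, Q, P1, Q1, h, rfl⟩
  | succ J ih =>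
    intro n P Q P1 Q1 h
    have h' : (fN (Nat.add n 2) fun n' => fN (tri (Nat.add n 1)) fun al => fN (tri n') fun be =>
      fN (Nat.add U0 (Nat.mul (Nat.mul n' n') nV)) fun d =>
      fN (Nat.add (Nat.add nZ2 (Nat.mul (Nat.add al be) Z1)) (Nat.mul (Nat.mul al be) nZ0))
        fun ab =>
      fN (Nat.land (Nat.add (Nat.mul d P) (Nat.mul ab Q)) (2 ^ L - 1)) fun P' =>
      fN (Nat.land (Nat.add (Nat.add (Nat.mul d P1) (Nat.mul U1 P))
        (Nat.add (Nat.mul ab Q1) (Nat.mul (Nat.add nY1 (Nat.mul (Nat.add al be) Y0)) Q)))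
        (2 ^ L - 1)) fun P1' =>
      loop (2 ^ L - 1) U0 U1 nV nZ2 Z1 nZ0 nY1 Y0 k J n' P' P P1' P1) = true := h
    simp only [fN_eq] at h'
    obtain ⟨G0, Q0, G1, R1, hk, he⟩ := ih _ _ _ _ _ h'
    refine ⟨G0, Q0, G1, R1, hk, ?_⟩
    rw [he, cont2, cast_land, cast_land]
    simp only [Nat.add_eq, Nat.mul_eq]
    congr 2
    · congr 1
      push_cast
      simp only [h0, h2, h3, h4, h5, gD, gA]
      push_cast
      ring
    · congr 1
      push_cast
      simp only [h0, h1, h2, h3, h4, h5, h6, h7, gD, gA]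
      push_cast
      ring

theorem big_sound {n0 sp sn ff S T μ0 μ1 J B L : ℕ} {V w : List ℤ} {k : ℕ → ℕ → ℕ → ℕ → Bool}
    (h : big n0 sp sn ff S T μ0 μ1 J B (2 ^ L - 1) V w k = true) :
    ∃ G0 Q0 G1 Q1, k G0 Q0 G1 Q1 = true ∧
      Rep L B G0 (PQ2 n0 sp sn ff S T J (mu μ0 μ1 X) (ev V X) (ev w X)).1.1 ∧
      Rep L B Q0 (PQ2 n0 sp sn ff S T J (mu μ0 μ1 X) (ev V X) (ev w X)).1.2 ∧
      Rep L B G1 (PQ2 n0 sp sn ff S T J (mu μ0 μ1 X) (ev V X) (ev w X)).2.1 ∧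
      Rep L B Q1 (PQ2 n0 sp sn ff S T J (mu μ0 μ1 X) (ev V X) (ev w X)).2.2 := by
  unfold big at h
  simp only [fN_eq] at h
  have hm := cast_mu L B μ0 μ1
  have hv := cast_pk L B V
  have hw := cast_pk L B w
  have hU := cast_uU L S T (Nat.add μ0 (Nat.shiftLeft μ1 B)) (pk (2 ^ L - 1) B V)
  have hφ := map_PQ2 (aeval ((2 : ZMod (2 ^ L)) ^ B) : ℤ[X] →ₐ[ℤ] ZMod (2 ^ L)).toRingHom
    n0 sp sn ff S T J (mu μ0 μ1 X) (ev V X) (ev w X)
  rw [map_mu, map_ev, map_ev] at hφ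
  have hX : (aeval ((2 : ZMod (2 ^ L)) ^ B) : ℤ[X] →ₐ[ℤ] ZMod (2 ^ L)).toRingHom X =
      (2 : ZMod (2 ^ L)) ^ B := aeval_X _
  rw [hX, ← hm, ← hv, ← hw] at hφ
  generalize Nat.add μ0 (Nat.shiftLeft μ1 B) = m at h hU hφ
  generalize pk (2 ^ L - 1) B V = v at h hU hφ
  generalize pk (2 ^ L - 1) B w = ww at h hφ
  obtain ⟨G0, Q0, G1, R1, hk, he⟩ := sbig_loop (μ := (m : ZMod (2 ^ L))) (v := (v : ZMod (2 ^ L)))
    (S := S) (T := T) hU
    (by rw [cast_land]; simp only [Nat.add_eq, Nat.mul_eq]; push_cast [cast_ng]; unfold gU1; ring)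
    (by simp only [Nat.add_eq, Nat.mul_eq]; push_cast [cast_ng]; ring)
    (by rw [cast_ng]; simp only [Nat.mul_eq]; push_cast [cast_land]; ring)
    (by simp only [Nat.mul_eq]; push_cast [cast_land]; ring)
    (by rw [cast_ng]; simp only [Nat.mul_eq]; push_cast; ring)
    (by rw [cast_ng]; simp only [Nat.mul_eq]; push_cast [cast_land]; ring)
    (by simp only [Nat.mul_eq]; push_cast; ring) J _ _ _ _ _ h
  have hs : PQ2 n0 sp sn ff S T J (m : ZMod (2 ^ L)) (v : ZMod (2 ^ L)) (ww : ZMod (2 ^ L)) =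
      (((G0 : ZMod (2 ^ L)), (Q0 : ZMod (2 ^ L))), (G1 : ZMod (2 ^ L)), (R1 : ZMod (2 ^ L))) := by
    rw [he, PQ2, cast_land, cast_land]
    simp only [Nat.add_eq, Nat.mul_eq]
    congr 2
    · congr 1
      · push_cast [cast_land, cast_ng, cast_mask, hU]
        unfold gD
        ring
      · push_cast
        ring
    · congr 1
      · push_cast [cast_land, cast_ng, cast_mask]
        unfold gU1
        ring
      · simp
  rw [hs] at hφ
  have e1 := congrArg Prod.fst hφ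
  have e2 := congrArg Prod.snd hφ
  exact ⟨G0, Q0, G1, R1, hk, (congrArg Prod.fst e1).symm, (congrArg Prod.snd e1).symm,
    (congrArg Prod.fst e2).symm, (congrArg Prod.snd e2).symm⟩

end Pool.Agent.HillD.S

/-! The final inequalities. -/

namespace Pool.Agent.HillD.S
open Real Set Filter Topology Polynomial Metric

theorem sfin_one {B n q E M M1 X0 X1 c : ℕ} {g0 g1 : ℤ[X]} {F : ℂ → ℂ[X]} (hq : 2 ≤ q)
    (hn : 1 ≤ n) (hB : 1 ≤ B) (hE : 1 ≤ E) (h0 : ∀ x, (F x).coeff 0 = aeval x g0)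
    (h1 : ∀ x, (F x).coeff 1 = aeval x g1)
    (m1 : ∀ x e : ℂ, ‖x‖ ≤ q → ‖e‖ ≤ E → ‖(F x).eval e‖ ≤ M)
    (m2 : ∀ x e : ℂ, ‖x‖ ≤ 1 → ‖e‖ ≤ E → ‖(F x).eval e‖ ≤ M1)
    (r0 : Rep (B * n) B X0 g0) (r1 : Rep (B * n) B X1 (g1 - C (c : ℤ))) (hc : M + c < 2 ^ (B - 1))
    {x e : ℂ} (hx : ‖x‖ ≤ 1) (he : ‖e‖ ≤ E / 2) :
    ‖(F x).eval e - c * e‖ ≤ (nrm B (2 ^ (B - 1)) (2 ^ B - 1) 1 n X0 + (2 * M / q ^ n + 1 : ℕ)) +
      (nrm B (2 ^ (B - 1)) (2 ^ B - 1) 1 n X1 + (2 * M / q ^ n + 1 : ℕ) / E) * ‖e‖ +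
        2 * M1 * (‖e‖ / E) ^ 2 := by
  have hE1 : (1 : ℝ) ≤ E := by exact_mod_cast hE
  have hE0 : (0 : ℝ) < E := by linarith
  have hq2 : (2 : ℝ) ≤ q := by exact_mod_cast hq
  have hq0 : (0 : ℝ) < q := by linarith
  have b0 := icoeff_le g0 hq0 (M := M) fun z hz => by
    simpa [h0] using coeff_le (F z) hE0 (fun e => m1 z e hz) 0
  have a1 : ∀ z : ℂ, ‖z‖ ≤ q → ‖aeval z g1‖ ≤ M / E := fun z hz => by
    rw [le_div_iff₀ hE0]
    simpa [h1] using coeff_le (F z) hE0 (fun e => m1 z e hz) 1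
  have b1 := icoeff_le g1 hq0 a1
  have b2 := icoeff_le (g1 - C (c : ℤ)) hq0 (M := M + c) fun z hz => by
    rw [map_sub]
    refine (norm_sub_le _ _).trans
      (add_le_add ((a1 z hz).trans (div_le_self (by positivity) hE1)) ?_)
    simp
  have dg : ∀ (a m : ℕ) (k : ℕ), (a : ℝ) * q ^ k ≤ m → m < 2 ^ (B - 1) → a < 2 ^ (B - 1) :=
    fun a m k h h' => by
      have : (a : ℝ) ≤ m :=
        (le_mul_of_one_le_right (by positivity) (one_le_pow₀ (by linarith))).trans h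
      exact lt_of_le_of_lt (by exact_mod_cast this) h'
  have ht : 2 * (M : ℝ) / q ^ n ≤ (2 * M / q ^ n + 1 : ℕ) := by
    rw [div_le_iff₀' (by positivity)]
    exact_mod_cast (Nat.lt_mul_div_succ (2 * M) (pow_pos (by omega : 0 < q) n)).le
  have t0 := aeval_le_tail g0 hq2 (by positivity) n (fun k _ => b0 k) hx
  have t1 := aeval_le_tail (g1 - C (c : ℤ)) hq2 (M := M / E) (by positivity) n (fun k hk => by
    rw [coeff_sub, coeff_C, if_neg (by omega), sub_zero]; exact b1 k) hx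
  rw [← nrm_eq hB le_rfl r0 fun k => dg _ M k (b0 k) (by omega)] at t0
  rw [← nrm_eq hB le_rfl r1 fun k => dg _ (M + c) k (by exact_mod_cast b2 k) hc] at t1
  have t2 := eval_second (F x) hE0 (fun e => m2 x e hx) he
  have e1 : (F x).eval e - c * e = aeval x g0 + aeval x (g1 - C (c : ℤ)) * e +
      ((F x).eval e - (F x).coeff 0 - (F x).coeff 1 * e) := by
    rw [h0, h1, map_sub]; simp; ring
  rw [e1]
  refine (norm_add₃_le ..).trans (add_le_add (add_le_add (t0.trans (by linarith)) ?_) t2)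
  rw [norm_mul]
  refine mul_le_mul_of_nonneg_right (t1.trans (add_le_add le_rfl ?_)) (norm_nonneg _)
  rw [show 2 * ((M : ℝ) / E) / q ^ n = 2 * M / q ^ n / E by ring]
  exact div_le_div_of_nonneg_right ht hE0.le

theorem fin_sound {n0 sp sn ff S T μ0 μ1 J E κ B n q bb MP MQ MP1 MQ1 G0 Q0 G1 Q1 : ℕ}
    {V w : List ℤ} (h : fin E κ B n q (2 ^ (B * n) - 1) bb MP MQ MP1 MQ1 G0 Q0 G1 Q1 = true)
    (hq : 2 ≤ q) (hn : 1 ≤ n) (hB : 1 ≤ B) (hE : 32 * κ ≤ E) (hκ : 1 ≤ κ)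
    (r1 : Rep (B * n) B G0 (PQ2 n0 sp sn ff S T J (mu μ0 μ1 X) (ev V X) (ev w X)).1.1)
    (r2 : Rep (B * n) B Q0 (PQ2 n0 sp sn ff S T J (mu μ0 μ1 X) (ev V X) (ev w X)).1.2)
    (r3 : Rep (B * n) B G1 (PQ2 n0 sp sn ff S T J (mu μ0 μ1 X) (ev V X) (ev w X)).2.1)
    (r4 : Rep (B * n) B Q1 (PQ2 n0 sp sn ff S T J (mu μ0 μ1 X) (ev V X) (ev w X)).2.2)
    (m1 : MB n0 sp sn ff S T J μ0 μ1 V w E q MP MQ)
    (m2 : MB n0 sp sn ff S T J μ0 μ1 V w E 1 MP1 MQ1) :
    ∃ Cn : ℕ, 0 < Cn ∧ ∀ x e b : ℂ, ‖x‖ ≤ 1 → ‖e‖ ≤ 16 * κ → ‖b‖ ≤ bb / 3 →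
      ‖e - ((PQ n0 sp sn ff S T J (mu μ0 μ1 x) (ev V x + e) (ev w x)).1 +
        b * (PQ n0 sp sn ff S T J (mu μ0 μ1 x) (ev V x + e) (ev w x)).2) / Cn‖ ≤
        κ + 3 / 16 * ‖e‖ := by
  simp only [fin, fN_eq, Bool.and_eq_true, Nat.ble_eq, Nat.blt_eq, Nat.mul_eq, Nat.sub_eq,
    Nat.pow_eq] at h
  set Cn := d0 (2 ^ (B - 1)) (2 ^ B - 1) G1
  have r5 := r3.sub_const Cn
  generalize Nat.add G1 _ = G2 at h r5
  obtain ⟨⟨c1, c2⟩, c3, c4⟩ := h
  simp only [Nat.add_eq, Nat.succ_eq_add_one, show ∀ a b : ℕ, a.div b = a / b from fun _ _ => rfl]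
    at c1 c3 c4
  have hC : 0 < Cn := Nat.pos_of_ne_zero fun h => by
    rw [h] at c3
    generalize 2 * MP / q ^ n = t at c3
    omega
  refine ⟨Cn, hC, fun x e b hx he hb => ?_⟩
  set p := fun x : ℂ => PQ n0 sp sn ff S T J (C (mu μ0 μ1 x)) (C (ev V x) + X) (C (ev w x))
  set g := PQ2 n0 sp sn ff S T J (mu μ0 μ1 (X : ℤ[X])) (ev V X) (ev w X)
  have ee : ∀ x e : ℂ, PQ n0 sp sn ff S T J (mu μ0 μ1 x) (ev V x + e) (ev w x) =
      ((p x).1.eval e, (p x).2.eval e) := fun x e => by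
    have := map_PQ (evalRingHom e) n0 sp sn ff S T J (C (mu μ0 μ1 x)) (C (ev V x) + X) (C (ev w x))
    simp only [coe_evalRingHom, eval_C, eval_add, eval_X] at this
    exact this.symm
  have ec : ∀ x : ℂ, ((aeval x g.1.1, aeval x g.1.2), aeval x g.2.1, aeval x g.2.2) =
      (((p x).1.coeff 0, (p x).2.coeff 0), (p x).1.coeff 1, (p x).2.coeff 1) := fun x => by
    have := map_PQ2 (aeval x : ℤ[X] →ₐ[ℤ] ℂ).toRingHom n0 sp sn ff S T J (mu μ0 μ1 X) (ev V X)
      (ev w X)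
    rw [map_mu, map_ev, map_ev, PQ2_coeff _ _ _ _ _ _ _ (mu μ0 μ1 (_ : ℂ))] at this
    simp only [AlgHom.toRingHom_eq_coe, RingHom.coe_coe, aeval_X] at this
    exact this
  simp only [MB, ee, Nat.cast_one] at m1 m2
  simp only [Prod.mk.injEq] at ec
  have hE' : 32 * (κ : ℝ) ≤ E := by exact_mod_cast hE
  have hκ' : (1 : ℝ) ≤ κ := by exact_mod_cast hκ
  have hE0 : (0 : ℝ) < E := by linarith
  have hC0 : (0 : ℝ) < Cn := by exact_mod_cast hC
  have a1 := sfin_one hq hn hB (by omega) (fun x => (ec x).1.1.symm) (fun x => (ec x).2.1.symm)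
    (fun x e h h' => (m1 x e h h').1) (fun x e h h' => (m2 x e h h').1) r1 r5 c1 hx
    (e := e) (by linarith)
  have a2 := sfin_one (c := 0) hq hn hB (by omega) (fun x => (ec x).1.2.symm)
    (fun x => (ec x).2.2.symm) (fun x e h h' => (m1 x e h h').2) (fun x e h h' => (m2 x e h h').2)
    r2 (by simpa using r4) c2 hx (e := e) (by linarith)
  generalize 2 * MP / q ^ n + 1 = tP at *
  generalize 2 * MQ / q ^ n + 1 = tQ at *
  generalize nrm B (2 ^ (B - 1)) (2 ^ B - 1) 1 n = N at *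
  have hC1 : (Cn : ℂ) ≠ 0 := by exact_mod_cast hC.ne'
  rw [ee, show e - ((p x).1.eval e + b * (p x).2.eval e) / Cn =
    -(((p x).1.eval e - Cn * e) + b * ((p x).2.eval e - (0 : ℕ) * e)) / Cn by
      field_simp; simp; ring,
    norm_div, norm_neg, Complex.norm_natCast, div_le_iff₀ hC0]
  refine (norm_add_le _ _).trans ?_
  rw [norm_mul]
  refine (add_le_add a1 (mul_le_mul hb a2 (norm_nonneg _) (by positivity))).trans ?_
  have d3 : (3 * (N G0 + tP) + bb * (N Q0 + tQ) : ℝ) ≤ 3 * κ * Cn := by exact_mod_cast c3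
  have d4 : (16 * (E * (3 * (E * N G2 + tP) + bb * (E * N Q1 + tQ)) +
      32 * κ * (3 * MP1 + bb * MQ1)) : ℝ) ≤ 9 * Cn * (E * E) := by exact_mod_cast c4
  have d5 : (N G2 + tP / E + bb / 3 * (N Q1 + tQ / E) + 32 * κ * (MP1 + bb / 3 * MQ1) / E ^ 2 : ℝ)
      ≤ 3 / 16 * Cn := by
    refine le_of_mul_le_mul_right ?_ (show (0 : ℝ) < 48 * E ^ 2 by positivity)
    refine le_trans (le_of_eq ?_) (d4.trans (le_of_eq (by ring)))
    field_simp
    ring
  have d6 := mul_le_mul_of_nonneg_right d5 (norm_nonneg e)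
  have d7 := mul_le_mul_of_nonneg_right he
    (show 0 ≤ 2 * (MP1 + bb / 3 * MQ1) / E ^ 2 * ‖e‖ by positivity)
  have d8 : ∀ M : ℝ, 2 * M * (‖e‖ / E) ^ 2 = 2 * M / E ^ 2 * ‖e‖ * ‖e‖ := fun M => by ring
  rw [d8, d8]
  linear_combination d6 + d7 + 1 / 3 * d3

end Pool.Agent.HillD.S

/-! Majorants. -/

namespace Pool.Agent.HillD.S
open Real Set Filter Topology Polynomial Metric

theorem smaj_mu (S μ0 μ1 r : ℕ) {x : ℂ} (hx : ‖x‖ ≤ r) : ‖mu μ0 μ1 x‖ ≤ lb 0 1 S μ0 μ1 r := by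
  simpa using norm_lb 0 1 S μ0 μ1 r hx

theorem dv_sound {S T μ0 μ1 C r dU Vb E : ℕ} {V : List ℤ} (hU : UB S T μ0 μ1 V C r dU) {x e : ℂ}
    (hx : ‖x‖ ≤ r) (hV : ‖ev V x‖ ≤ Vb) (he : ‖e‖ ≤ E) :
    ‖gU S T (mu μ0 μ1 x) (ev V x + e) - C‖ ≤ dv S T μ0 μ1 r Vb dU E := by
  have h0 := smaj_mu S μ0 μ1 r hx
  have h1 : ‖(S : ℂ) - 2 * mu μ0 μ1 x‖ ≤ lb 1 2 S μ0 μ1 r := by
    simpa using norm_lb 1 2 S μ0 μ1 r hx
  have h2 := hU x hx
  have h3 : gU S T (mu μ0 μ1 x) (ev V x + e) - C = (gU S T (mu μ0 μ1 x) (ev V x) - C) +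
      e * (4 * (S - 2 * mu μ0 μ1 x) * ev V x + 2 * mu μ0 μ1 x * T +
        2 * (S - 2 * mu μ0 μ1 x) * e) := by
    unfold gU; ring
  rw [h3]
  simp only [dv, Nat.add_eq, Nat.mul_eq]
  push_cast
  refine (norm_add_le _ _).trans (add_le_add h2 ?_)
  rw [norm_mul]
  refine mul_le_mul he (norm_add₃_le.trans ?_) (norm_nonneg _) (by positivity)
  simp only [norm_mul, Complex.norm_ofNat, Complex.norm_natCast]
  gcongr

theorem smaj_ad (a b : ℕ) : ‖(a : ℂ) - b‖ = ad a b := by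
  rw [ad_eq, ← Complex.ofReal_natCast, ← Complex.ofReal_natCast, ← Complex.ofReal_sub,
    Complex.norm_real, Real.norm_eq_abs]

theorem smaj_D {S T μ0 μ1 C r dev : ℕ} {x W : ℂ} (hx : ‖x‖ ≤ r)
    (h : ‖gU S T (mu μ0 μ1 x) W - C‖ ≤ dev) (n : ℕ) :
    ‖gD S T (mu μ0 μ1 x) W n‖ ≤ dn C dev (2 * S * (T * T)) (μ0 * (T * T)) (μ1 * r * (T * T)) n := by
  have h3 : gD S T (mu μ0 μ1 x) W n = (((C + n * n * (μ0 * (T * T)) : ℕ) : ℂ) -
      ((n * n * (2 * S * (T * T)) : ℕ) : ℂ)) + (gU S T (mu μ0 μ1 x) W - C) +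
      n * n * (μ1 * x * (T * T)) := by
    unfold gD mu; push_cast; ring
  rw [h3]
  refine norm_add₃_le.trans ?_
  rw [smaj_ad]
  simp only [dn, Nat.add_eq, Nat.mul_eq, norm_mul, Complex.norm_natCast]
  push_cast
  gcongr

theorem smaj_A {T V0 dW mb : ℕ} {μ W : ℂ} (hμ : ‖μ‖ ≤ mb) (hW : ‖W - V0‖ ≤ dW) (a : ℕ) :
    ‖gA T μ W a‖ ≤ mb * T * (ad V0 (a * T) + dW) := by
  have h3 : gA T μ W a = μ * T * (((V0 : ℂ) - ((a * T : ℕ) : ℂ)) + (W - V0)) := by
    unfold gA; push_cast; ring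
  rw [h3, norm_mul, norm_mul, Complex.norm_natCast, ← smaj_ad]
  have := norm_add_le ((V0 : ℂ) - ((a * T : ℕ) : ℂ)) (W - V0)
  gcongr
  linarith

theorem smaj_mj {C dev v0 v1 vr T V0 dW mb S : ℕ} {k : ℕ → ℕ → Bool} (J : ℕ) :
    ∀ n P Q : ℕ, mj C dev v0 v1 vr T V0 dW (mb * mb * (T * T)) k J n P Q = true →
      ∃ MP MQ, k MP MQ = true ∧ ∀ (μ W : ℂ) (p : ℂ × ℂ),
        (∀ n, ‖gD S T μ W n‖ ≤ dn C dev v0 v1 vr n) →
        (∀ a, ‖gA T μ W a‖ ≤ mb * T * (ad V0 (a * T) + dW)) → ‖p.1‖ ≤ P → ‖p.2‖ ≤ Q →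
        ‖(cont S T μ W J n p).1‖ ≤ MP ∧ ‖(cont S T μ W J n p).2‖ ≤ MQ := by
  induction J with
  | zero => exact fun n P Q h => ⟨P, Q, h, fun _ _ _ _ _ h1 h2 => ⟨h1, h2⟩⟩
  | succ J ih =>
    intro n P Q h
    have h' : mj C dev v0 v1 vr T V0 dW (mb * mb * (T * T)) k J (n + 2)
        (dn C dev v0 v1 vr (n + 2) * P + mb * mb * (T * T) * ((ad V0 (tri (n + 1) * T) + dW) *
          (ad V0 (tri (n + 2) * T) + dW)) * Q) P = true := by
      rw [← h]
      simp only [mj, fN_eq, Nat.add_eq, Nat.mul_eq]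
    obtain ⟨MP, MQ, hk, hb⟩ := ih _ _ _ h'
    refine ⟨MP, MQ, hk, fun μ W p hD hA h1 h2 => ?_⟩
    rw [cont]
    refine hb μ W _ hD hA ((norm_sub_le _ _).trans ?_) h1
    have a1 := hA (tri (n + 1))
    have a2 := hA (tri (n + 2))
    have a3 := hD (n + 2)
    simp only [norm_mul]
    push_cast
    calc _ ≤ (dn C dev v0 v1 vr (n + 2) : ℝ) * P + (mb * T * (ad V0 (tri (n + 1) * T) + dW)) *
          (mb * T * (ad V0 (tri (n + 2) * T) + dW)) * Q := by gcongr
      _ = _ := by ring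

theorem maj_sound {n0 sp sn ff S T E μ0 μ1 J V0 C dU dV wn r : ℕ} {V w : List ℤ}
    {k : ℕ → ℕ → Bool} (h : maj n0 (Nat.add sp sn) ff S T E μ0 μ1 J V0 C dU dV wn r k = true)
    (hU : UB S T μ0 μ1 V C r dU) (hV : ∀ x : ℂ, ‖x‖ ≤ r → ‖ev V x - V0‖ ≤ dV)
    (hw : ∀ x : ℂ, ‖x‖ ≤ r → ‖ev w x‖ ≤ wn) :
    ∃ MP MQ, k MP MQ = true ∧ MB n0 sp sn ff S T J μ0 μ1 V w E r MP MQ := by
  simp only [maj, fN_eq, Nat.add_eq, Nat.mul_eq] at h
  obtain ⟨MP, MQ, hk, hb⟩ := smaj_mj (S := S) J _ _ _ h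
  refine ⟨MP, MQ, hk, fun x e hx he => ?_⟩
  have h0 := smaj_mu S μ0 μ1 r hx
  have h1 := hV x hx
  have h2 := hw x hx
  have h3 : ‖ev V x‖ ≤ (V0 + dV : ℕ) := by
    have := norm_add_le (V0 : ℂ) (ev V x - V0)
    rw [add_sub_cancel, Complex.norm_natCast] at this
    push_cast; linarith
  have h4 : ‖ev V x + e - V0‖ ≤ (dV + E : ℕ) := by
    have := norm_add_le (ev V x - V0) e
    rw [sub_add_eq_add_sub] at this
    push_cast; linarith
  have h5 : ‖ev V x + e‖ ≤ V0 + (dV + E) := by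
    have := norm_add_le (ev V x) e
    push_cast at h3; linarith
  have hD := smaj_D hx (dv_sound hU hx h3 he)
  have h6 : ‖(sp : ℂ) - sn‖ ≤ sp + sn := by simpa using norm_sub_le (sp : ℂ) sn
  refine hb _ _ _ hD (smaj_A h0 h4) ?_ ?_
  · have a := hD n0
    rw [norm_mul]
    push_cast
    refine mul_le_mul h2 ((norm_add_le _ _).trans (add_le_add a ?_)) (norm_nonneg _) (by positivity)
    simp only [norm_mul, Complex.norm_natCast]
    calc _ ≤ ((sp : ℝ) + sn) * (lb 0 1 S μ0 μ1 r * T) * (V0 + (dV + E)) := by gcongr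
      _ = _ := by ring
  · rw [norm_mul, Complex.norm_natCast]
    push_cast
    gcongr

end Pool.Agent.HillD.S

/-! Diagonal dominance. -/

namespace Pool.Agent.HillD.S
open Real Set Filter Topology Polynomial Metric

theorem sdom_mu (μ0 μ1 : ℕ) {x : ℂ} (hx : ‖x‖ ≤ 1) : ‖mu μ0 μ1 x‖ ≤ (μ0 : ℝ) + μ1 := by
  refine (norm_add_le _ _).trans ?_
  rw [norm_mul, Complex.norm_natCast, Complex.norm_natCast]
  exact add_le_add le_rfl (mul_le_of_le_one_right (Nat.cast_nonneg _) hx)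

theorem sdom_gA (T V0 c : ℕ) {μ W : ℂ} {M d : ℝ} (hμ : ‖μ‖ ≤ M) (hW : ‖W - V0‖ ≤ d) :
    ‖gA T μ W c‖ ≤ M * T * (|(V0 : ℝ) - c * T| + d) := by
  have h1 : ‖W - c * T‖ ≤ |(V0 : ℝ) - c * T| + d := by
    have h2 : W - c * T = (((V0 : ℝ) - c * T : ℝ) : ℂ) + (W - V0) := by push_cast; ring
    rw [h2]
    refine (norm_add_le _ _).trans ?_
    rw [Complex.norm_real, Real.norm_eq_abs]
    exact add_le_add le_rfl hW
  rw [gA, norm_mul, norm_mul, Complex.norm_natCast]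
  exact mul_le_mul (mul_le_mul_of_nonneg_right hμ (Nat.cast_nonneg _)) h1 (norm_nonneg _)
    (mul_nonneg ((norm_nonneg _).trans hμ) (Nat.cast_nonneg _))

theorem dom_sound {S T μ0 μ1 V0 C dU dV η n1 : ℕ} {V : List ℤ} (hU : UB S T μ0 μ1 V C 1 dU)
    (hT : 0 < T) (hμ : 0 < μ1) (hn : 10 ≤ n1) (h1 : dV + η ≤ V0)
    (h2 : 2 * (V0 + (dV + η)) ≤ n1 * n1 * T)
    (h3 : 4 * (C + dv S T μ0 μ1 1 (V0 + dV) dU η) + 11 * (μ0 + μ1) * (n1 * n1) * (T * T) ≤
      8 * S * (n1 * n1) * (T * T)) {x e : ℂ} (hx : ‖x‖ ≤ 1) (hV : ‖ev V x - V0‖ ≤ dV)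
    (he : ‖e‖ ≤ η) : Dom S T n1 (mu μ0 μ1 x) (ev V x + e) ∧
      ‖gA T (mu μ0 μ1 x) (ev V x + e) (tri n1)‖ ≤
        ((μ0 + μ1) * T * (ad V0 (tri n1 * T) + (dV + η)) : ℕ) := by
  have hm := sdom_mu μ0 μ1 hx
  have hW : ‖ev V x + e - V0‖ ≤ (dV : ℝ) + η := by
    rw [add_sub_right_comm]
    exact (norm_add_le _ _).trans (add_le_add hV he)
  have hA := fun c => sdom_gA T V0 c hm hW
  refine ⟨fun i => ?_, (hA _).trans (le_of_eq ?_)⟩
  swap
  · push_cast
    rw [ad_eq]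
    push_cast
    rfl
  have hVb : ‖ev V x‖ ≤ ((V0 + dV : ℕ) : ℝ) := by
    have h := norm_add_le (V0 : ℂ) (ev V x - V0)
    rw [add_sub_cancel, Complex.norm_natCast] at h
    push_cast
    linarith
  have hG := dv_sound hU (by simpa using hx) hVb he
  generalize dv S T μ0 μ1 1 (V0 + dV) dU η = D at h3 hG
  obtain ⟨n, hn'⟩ : ∃ n, n = n1 + 2 * i := ⟨_, rfl⟩
  have hT' : (0 : ℝ) < T := Nat.cast_pos.2 hT
  have hM : (0 : ℝ) < μ0 + μ1 := add_pos_of_nonneg_of_pos (Nat.cast_nonneg _) (Nat.cast_pos.2 hμ)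
  have hn1 : (10 : ℝ) ≤ n1 := by exact_mod_cast hn
  have hn2 : (n1 : ℝ) ≤ n := by exact_mod_cast (by omega : n1 ≤ n)
  have hn3 : (n1 : ℝ) * n1 ≤ n * n := mul_self_le_mul_self (by linarith) hn2
  have h1' : (dV : ℝ) + η ≤ V0 := by exact_mod_cast h1
  have h2' : 2 * ((V0 : ℝ) + (dV + η)) ≤ n1 * n1 * T := by exact_mod_cast h2
  have h3' : 4 * ((C : ℝ) + D) + 11 * (μ0 + μ1) * (n1 * n1) * (T * T) ≤
      8 * S * (n1 * n1) * (T * T) := by exact_mod_cast h3
  have h4 : 2 * ((V0 : ℝ) + (dV + η)) ≤ n * n * T :=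
    h2'.trans (mul_le_mul_of_nonneg_right hn3 hT'.le)
  have hB : ∀ (c : ℕ) (k : ℝ), 1 ≤ k → (c : ℝ) ≤ k * (n * n / 2) →
      ‖gA T (mu μ0 μ1 x) (ev V x + e) c‖ ≤ k * ((μ0 + μ1) * (n * n) * (T * T) / 2) := by
    intro c k hk hc
    have h5 : (c : ℝ) * T ≤ k * (n * n / 2) * T := mul_le_mul_of_nonneg_right hc hT'.le
    have h6 : (0 : ℝ) ≤ c * T := by positivity
    have h7 : 1 * ((n : ℝ) * n / 2 * T) ≤ k * (n * n / 2 * T) :=
      mul_le_mul_of_nonneg_right hk (by positivity)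
    have h8 : |(V0 : ℝ) - c * T| + (dV + η) ≤ k * (n * n / 2) * T := by
      rcases abs_cases ((V0 : ℝ) - c * T) with h | h <;> linarith [h.1]
    refine (hA c).trans ((mul_le_mul_of_nonneg_left h8 (by positivity)).trans (le_of_eq ?_))
    ring
  refine ⟨(μ0 + μ1) * (n * n) * (T * T) / 2, ?_, ?_, ?_, ?_⟩
  · have : (0 : ℝ) < n := by linarith
    positivity
  · rw [tA, ← hn', ← one_mul (_ / 2 : ℝ)]
    refine hB _ 1 le_rfl ?_
    rw [tri_eq, Nat.cast_sub (by omega)]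
    push_cast
    nlinarith
  · rw [tB, ← hn']
    refine hB _ _ (by norm_num) ?_
    rw [tri_eq]
    push_cast
    nlinarith
  · rw [tD, ← hn', gD]
    have h5 : ‖gU S T (mu μ0 μ1 x) (ev V x + e)‖ ≤ (C : ℝ) + D := by
      have h := norm_add_le (C : ℂ) (gU S T (mu μ0 μ1 x) (ev V x + e) - C)
      rw [add_sub_cancel, Complex.norm_natCast] at h
      linarith
    have h6 : 2 * (S : ℝ) - (μ0 + μ1) ≤ ‖2 * (S : ℂ) - mu μ0 μ1 x‖ := by
      have h := norm_sub_norm_le (2 * (S : ℂ)) (mu μ0 μ1 x)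
      rw [norm_mul, Complex.norm_natCast, Complex.norm_ofNat] at h
      linarith
    have h7 := norm_sub_norm_le ((n : ℂ) ^ 2 * ((2 * S - mu μ0 μ1 x) * (T : ℂ) ^ 2))
      (gU S T (mu μ0 μ1 x) (ev V x + e))
    rw [norm_sub_rev, norm_mul, norm_mul, norm_pow, norm_pow, Complex.norm_natCast,
      Complex.norm_natCast] at h7
    have h8 : (n : ℝ) ^ 2 * ((2 * (S : ℝ) - (μ0 + μ1)) * (T : ℝ) ^ 2) ≤
        (n : ℝ) ^ 2 * (‖2 * (S : ℂ) - mu μ0 μ1 x‖ * (T : ℝ) ^ 2) := by gcongr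
    have h9 : (0 : ℝ) ≤ (8 * S - 11 * (μ0 + μ1)) * (T * T) := by
      refine nonneg_of_mul_nonneg_left (b := (n1 : ℝ) * n1) ?_ (by positivity)
      have : (0 : ℝ) ≤ C + D := by positivity
      linarith
    have h10 := mul_le_mul_of_nonneg_left hn3 h9
    linarith

end Pool.Agent.HillD.S

/-! Real and complex derivatives. -/

namespace Pool.Agent.HillD.S
open Real Set Filter Topology Polynomial Metric

/-- Derivatives of a real function which is the restriction of a holomorphic one. -/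
theorem transfer {H : ℂ → ℂ} (hH : DifferentiableOn ℂ H (ball 0 1)) {g : ℝ → ℝ} {a b t x : ℝ}
    (hb : b ≠ 0) (ht : t ≠ 0) (hx : |x| < 1)
    (hg : ∀ᶠ y : ℝ in 𝓝 x, ((t * g (a + b * y) : ℝ) : ℂ) = H y) (k : ℕ) :
    ((t * b ^ k * deriv^[k] g (a + b * x) : ℝ) : ℂ) = deriv^[k] H x := by
  have hA : AnalyticOnNhd ℂ H (ball 0 1) := hH.analyticOnNhd isOpen_ball
  have hball : ∀ᶠ y : ℝ in 𝓝 x, |y| < 1 :=
    (continuous_abs.tendsto x).eventually (gt_mem_nhds hx)
  have key : ∀ n : ℕ, ∀ᶠ y : ℝ in 𝓝 x,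
      ((t * b ^ n * deriv^[n] g (a + b * y) : ℝ) : ℂ) = deriv^[n] H y := by
    intro n
    induction n with
    | zero => simpa using hg
    | succ n ih =>
      filter_upwards [eventually_eventually_nhds.2 ih, hball] with y hy hy1
      have hyb : (y : ℂ) ∈ ball (0 : ℂ) 1 := by
        rw [mem_ball_zero_iff, Complex.norm_real, Real.norm_eq_abs]; exact hy1
      have hG : HasDerivAt (deriv^[n] H) (deriv (deriv^[n] H) y) (y : ℂ) :=
        ((hA.iterated_deriv n) y hyb).differentiableAt.hasDerivAt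
      have hc : t * b ^ n ≠ 0 := mul_ne_zero ht (pow_ne_zero n hb)
      have hre : HasDerivAt (fun z : ℝ => (deriv^[n] H z).re) (deriv (deriv^[n] H) y).re y :=
        hG.real_of_complex
      have hF : HasDerivAt (fun z : ℝ => t * b ^ n * deriv^[n] g (a + b * z))
          (deriv (deriv^[n] H) y).re y := by
        refine hre.congr_of_eventuallyEq ?_
        filter_upwards [hy] with z hz
        rw [← hz, Complex.ofReal_re]
      have hcx : (((deriv (deriv^[n] H) y).re : ℝ) : ℂ) = deriv (deriv^[n] H) y := by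
        have h1 := hF.ofReal_comp
        have h2 : HasDerivAt (fun z : ℝ => deriv^[n] H z) (deriv (deriv^[n] H) y) y :=
          hG.comp_ofReal
        exact h1.unique (h2.congr_of_eventuallyEq hy)
      have hlin : HasDerivAt (fun s : ℝ => (s - a) / b) (1 / b) (a + b * y) :=
        ((hasDerivAt_id (a + b * y)).sub_const a).div_const b
      have hval : (a + b * y - a) / b = y := by field_simp; ring
      have hF' : HasDerivAt (fun z : ℝ => t * b ^ n * deriv^[n] g (a + b * z))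
          (deriv (deriv^[n] H) y).re ((a + b * y - a) / b) := by rw [hval]; exact hF
      have hcomp := (hF'.comp (a + b * y) hlin).div_const (t * b ^ n)
      have hfun : (fun s : ℝ => ((fun z : ℝ => t * b ^ n * deriv^[n] g (a + b * z)) ∘
          fun s : ℝ => (s - a) / b) s / (t * b ^ n)) = deriv^[n] g := by
        funext s
        have hs : a + b * ((s - a) / b) = s := by field_simp; ring
        simp only [Function.comp_apply, hs]
        field_simp
      rw [hfun] at hcomp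
      rw [Function.iterate_succ_apply', Function.iterate_succ_apply', hcomp.deriv, ← hcx]
      congr 1
      rw [Complex.ofReal_re]
      field_simp
      ring
  exact (key k).self_of_nhds

end Pool.Agent.HillD.S

/-! The sign test. -/

namespace Pool.Agent.HillD.S
open Real Set Filter Topology Polynomial Metric

theorem ssign_diff {u : ℂ → ℂ} (hu : DifferentiableOn ℂ u (ball 0 1)) (k : ℕ) :
    DifferentiableOn ℂ (deriv^[k] u) (ball 0 1) := by
  induction k with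
  | zero => exact hu
  | succ k ih => rw [Function.iterate_succ_apply']; exact ih.deriv isOpen_ball

theorem ssign_der (l : List ℤ) {u : ℂ → ℂ} (hu : DifferentiableOn ℂ u (ball 0 1)) (k : ℕ) :
    ∀ y ∈ ball (0 : ℂ) 1,
      deriv^[k] (fun z => ev l z + u z) y = ev (der^[k] l) y + deriv^[k] u y := by
  induction k with
  | zero => exact fun _ _ => rfl
  | succ k ih =>
    intro y hy
    have h := isOpen_ball.mem_nhds hy
    simp only [Function.iterate_succ_apply']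
    rw [EventuallyEq.deriv_eq (mem_of_superset h ih)]
    exact ((hasDerivAt_ev _ y).add ((ssign_diff hu k).differentiableAt h).hasDerivAt).deriv

theorem ssign_cauchy {u : ℂ → ℂ} (hu : DifferentiableOn ℂ u (ball 0 1)) {M : ℝ}
    (hb : ∀ x ∈ ball (0 : ℂ) 1, ‖u x‖ ≤ M) {x : ℂ} (hx : ‖x‖ ≤ 31 / 32) (k : ℕ) :
    ‖deriv^[k] u x‖ ≤ k.factorial * M / (1 / 40) ^ k := by
  have h : closedBall x (1 / 40) ⊆ ball 0 1 :=
    closedBall_subset_ball' (by rw [dist_zero_right]; linarith)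
  rw [← iteratedDeriv_eq_iterate]
  exact Complex.norm_iteratedDeriv_le_of_forall_mem_sphere_norm_le k (by norm_num)
    (hu.diffContOnCl_ball h) fun z hz => hb z (h (sphere_subset_closedBall hz))

theorem ssign_ev {R : Type} [CommRing R] (l : List ℤ) (z : R) :
    aeval z (ev l (X : ℤ[X])) = ev l z := by
  simpa using map_ev (aeval z : ℤ[X] →ₐ[ℤ] R).toRingHom l X

theorem ssign_mu {R : Type} [CommRing R] (a b : ℕ) (z : R) :
    aeval z (mu a b (X : ℤ[X])) = mu a b z := by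
  simp [mu]

theorem ssign_key {α β γ : ℤ[X]} {a b c n Y cr err κ : ℕ} {V : List ℤ}
    (hp : pos (2 ^ (256 * n) - 1) n Y cr err = true) (hn : V.length + 2 < n)
    (hα : α.natDegree ≤ 2) (hβ : β.natDegree ≤ 2) (hγ : γ.natDegree ≤ 2)
    (hb : ∀ z : ℂ, ‖z‖ ≤ 1 → ‖aeval z α‖ ≤ a ∧ ‖aeval z β‖ ≤ b ∧ ‖aeval z γ‖ ≤ c)
    (hr : Rep (256 * n) 256 Y (α * ev V X + β * ev (der V) X + γ * ev (der (der V)) X))
    (hc : a * nl 1 V + b * nl 1 (der V) + c * nl 1 (der (der V)) ≤ cr)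
    (he : κ * (a * 80 + b * 6400 + c * 768000) ≤ err) {x u1 u2 u3 : ℂ} (hx : ‖x‖ ≤ 1)
    (h1 : ‖u1‖ ≤ 80 * κ) (h2 : ‖u2‖ ≤ 6400 * κ) (h3 : ‖u3‖ ≤ 768000 * κ) :
    0 < (aeval x α * (ev V x + u1) + aeval x β * (ev (der V) x + u2) +
      aeval x γ * (ev (der (der V)) x + u3)).re := by
  have h4 : ∀ {z A B C : ℂ} {p q r : ℝ}, ‖z‖ ≤ 1 → ‖A‖ ≤ p → ‖B‖ ≤ q → ‖C‖ ≤ r →
      ‖aeval z α * A + aeval z β * B + aeval z γ * C‖ ≤ a * p + b * q + c * r :=
    fun hz hA hB hC => norm_add₃_le.trans (by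
      obtain ⟨i1, i2, i3⟩ := hb _ hz
      simp only [norm_mul]
      gcongr)
  have h5 : ∀ {p : ℤ[X]} (l : List ℤ), p.natDegree ≤ 2 → l.length ≤ V.length →
      (p * ev l X).natDegree ≤ V.length + 2 := fun l hp hl =>
    natDegree_mul_le.trans (by have := natDegree_ev l; omega)
  have h6 := pos_sound hp hr (lt_of_le_of_lt (natDegree_add_le_of_degree_le
    (natDegree_add_le_of_degree_le (h5 _ hα le_rfl) (h5 _ hβ (by rw [length_der]; omega)))
    (h5 _ hγ (by rw [length_der, length_der]; omega))) hn) (fun z hz => by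
      have hz' : ‖z‖ ≤ (1 : ℕ) := by simpa using hz
      simp only [map_add, map_mul, ssign_ev]
      exact (h4 hz (norm_ev_le 1 _ hz') (norm_ev_le 1 _ hz') (norm_ev_le 1 _ hz')).trans
        (by exact_mod_cast hc)) hx
  simp only [map_add, map_mul, ssign_ev] at h6
  have h7 := (abs_le.1 ((Complex.abs_re_le_norm _).trans (h4 hx h1 h2 h3))).1
  have h8 : (κ : ℝ) * (a * 80 + b * 6400 + c * 768000) ≤ err := by exact_mod_cast he
  simp only [mul_add, Complex.add_re] at h6 h7 ⊢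
  linarith

theorem sgn_sound {S T μ0 μ1 κ kind ns V0 : ℕ} {Vr : List ℤ}
    (h : sgn S μ0 μ1 κ kind (2 ^ (256 * ns) - 1) ns (Nat.add μ0 (Nat.shiftLeft μ1 256))
      (dl Vr 1) = true) (hns : 2 * (Vr.length + 2) ≤ ns) (hS : 0 < S) (hT : 0 < T) (hμ : 0 < μ1)
    {u : ℂ → ℂ} (hu : DifferentiableOn ℂ u (ball 0 1))
    (hb : ∀ x ∈ ball (0 : ℂ) 1, ‖u x‖ ≤ 2 * κ) {g : ℝ → ℝ} {x : ℝ} (hx : |x| ≤ 31 / 32)
    (hg : ∀ᶠ y : ℝ in 𝓝 x, ((T * g (mu μ0 μ1 y / S) : ℝ) : ℂ) =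
      ev (Int.ofNat V0 :: Vr) (y : ℂ) + u y) : Good g (mu μ0 μ1 x / S) := by
  have hx' : ‖(x : ℂ)‖ ≤ 31 / 32 := by simpa using hx
  have hx1 : ‖(x : ℂ)‖ ≤ 1 := by linarith
  have hS' : (S : ℝ) ≠ 0 := by positivity
  have hm : ∀ y : ℝ, mu μ0 μ1 y / S = μ0 / S + μ1 / S * y := fun y => by rw [mu]; ring
  have ht := fun k => (transfer (g := g) (t := T) (a := μ0 / S) (b := μ1 / S)
    (DifferentiableOn.add (fun z _ =>
      (hasDerivAt_ev (Int.ofNat V0 :: Vr) z).differentiableAt.differentiableWithinAt) hu)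
    (by positivity) (by positivity) (by linarith)
    (by simp only [← hm]; exact hg) k).trans (ssign_der _ hu k x (by rw [mem_ball_zero_iff]; linarith))
  have t1 : _ = ev (dl Vr 1) (x : ℂ) + _ := ht 1
  have t2 : _ = ev (der (dl Vr 1)) (x : ℂ) + _ := ht 2
  have t3 : _ = ev (der (der (dl Vr 1))) (x : ℂ) + _ := ht 3
  have c1 : ‖deriv^[1] u x‖ ≤ 80 * κ := (ssign_cauchy hu hb hx' 1).trans_eq (by
    simp only [Nat.factorial]; push_cast; ring)
  have c2 : ‖deriv^[2] u x‖ ≤ 6400 * κ := (ssign_cauchy hu hb hx' 2).trans_eq (by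
    simp only [Nat.factorial]; push_cast; ring)
  have c3 : ‖deriv^[3] u x‖ ≤ 768000 * κ := (ssign_cauchy hu hb hx' 3).trans_eq (by
    simp only [Nat.factorial]; push_cast; ring)
  have hn : (dl Vr 1).length + 2 < ns := by rw [length_dl]; omega
  let L : ℕ → ℕ → ℤ[X] := fun a b => (a : ℤ[X]) * (S : ℤ[X]) - (b : ℤ[X]) * mu μ0 μ1 X
  have d1 : ∀ a b, (L a b).natDegree ≤ 1 := fun a b => by
    refine (natDegree_sub_le _ _).trans (max_le ?_ (natDegree_mul_le.trans ?_))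
    · rw [← Nat.cast_mul, natDegree_natCast]; omega
    · simpa using natDegree_mu μ0 μ1
  have d2 : ∀ a b, (L a b * (μ1 : ℤ[X])).natDegree ≤ 2 := fun a b =>
    natDegree_mul_le.trans (by have := d1 a b; rw [natDegree_natCast]; omega)
  have d3 : (((2 : ℕ) : ℤ[X]) * L 0 1 * L 1 2).natDegree ≤ 2 := natDegree_mul_le.trans (add_le_add
    (natDegree_mul_le.trans (by rw [natDegree_natCast, zero_add]; exact d1 0 1)) (d1 1 2))
  have e1 : ∀ {R : Type} [CommRing R] (z : R) (a b : ℕ),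
      aeval z (L a b) = a * S - b * mu μ0 μ1 z := fun z a b => by simp [L, ssign_mu]
  have n1 : ∀ z : ℂ, ‖z‖ ≤ 1 → ∀ a b, ‖aeval z (L a b)‖ ≤ lb a b S μ0 μ1 1 := fun z hz a b =>
    e1 z a b ▸ norm_lb _ _ _ _ _ _ (by simpa using hz)
  have n2 : ∀ z : ℂ, ‖z‖ ≤ 1 → ∀ a b, ‖aeval z (L a b * (μ1 : ℤ[X]))‖ ≤ (lb a b S μ0 μ1 1 * μ1 : ℕ) :=
    fun z hz a b => by
      rw [map_mul, norm_mul, map_natCast, Complex.norm_natCast, Nat.cast_mul]
      gcongr
      exact n1 z hz a b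
  have n3 : ∀ z : ℂ, ‖z‖ ≤ 1 → ‖aeval z (((2 : ℕ) : ℤ[X]) * L 0 1 * L 1 2)‖ ≤
      (2 * lb 0 1 S μ0 μ1 1 * lb 1 2 S μ0 μ1 1 : ℕ) := fun z hz => by
    rw [map_mul, map_mul, norm_mul, norm_mul, map_natCast, Complex.norm_natCast, Nat.cast_mul,
      Nat.cast_mul]
    gcongr <;> exact n1 z hz _ _
  have hmu : (mu μ0 μ1 (x : ℂ)) = ((mu μ0 μ1 x : ℝ) : ℂ) := by simp [mu]
  rw [← hm] at t1 t2 t3
  intro h0
  simp only [sgn, fN_eq] at h
  cases hk : Nat.ble kind 1 <;> rw [hk] at h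
  · have h9 := ssign_key (α := ((8 * (μ1 * μ1) : ℕ) : ℤ[X])) (β := -(L 3 16 * (μ1 : ℤ[X])))
      (γ := ((2 : ℕ) : ℤ[X]) * L 0 1 * L 1 2) (a := 8 * (μ1 * μ1)) h hn (by rw [natDegree_natCast]; omega)
      (by rw [natDegree_neg]; exact d2 _ _) d3 (fun z hz => ⟨by
        rw [map_natCast, Complex.norm_natCast], by rw [map_neg, norm_neg]; exact n2 z hz _ _,
        n3 z hz⟩) (by
        simp only [Rep, map_add, map_mul, map_neg, map_natCast, e1, ssign_ev, ← cast_mu, ← cast_pk]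
        simp only [Nat.add_eq, Nat.mul_eq, Nat.cast_add, Nat.cast_mul, cast_ng]
        push_cast
        ring) le_rfl (le_of_eq (by simp only [Nat.add_eq, Nat.mul_eq]; ring)) hx1 c1 c2 c3
    simp only [map_mul, map_neg, map_natCast, e1, ← t1, ← t2, ← t3, hmu] at h9
    have : (0 : ℝ) < T * μ1 ^ 3 / S := by positivity
    have hS2 : (S : ℂ) ≠ 0 := by exact_mod_cast hS'
    refine neg_of_mul_neg_left (neg_pos.1 (h9.trans_eq ?_)) this.le
    refine (congrArg Complex.re ?_).trans (Complex.ofReal_re _)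
    push_cast
    simp only [Function.iterate_one]
    field_simp
    ring
  · have key : ∀ (e : ℤ[X]) (Y : ℕ), e.natDegree = 0 → (∀ z : ℂ, ‖aeval z e‖ = 1) →
        Rep (256 * ns) 256 Y (e * (L 1 8 * (μ1 : ℤ[X])) * ev (dl Vr 1) X +
          e * -(((2 : ℕ) : ℤ[X]) * L 0 1 * L 1 2) * ev (der (dl Vr 1)) X + 0 * ev (der (der (dl Vr 1))) X) →
        pos (2 ^ (256 * ns) - 1) ns Y (lb 1 8 S μ0 μ1 1 * μ1 * nl 1 (dl Vr 1) +
          2 * lb 0 1 S μ0 μ1 1 * lb 1 2 S μ0 μ1 1 * nl 1 (der (dl Vr 1))) (κ * (lb 1 8 S μ0 μ1 1 *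
          μ1 * 80 + 2 * lb 0 1 S μ0 μ1 1 * lb 1 2 S μ0 μ1 1 * 6400)) = true → False := by
      intro e Y e2 e3 hr hp
      have h9 := ssign_key (c := 0) hp hn (natDegree_mul_le.trans (by rw [e2, zero_add]; exact d2 _ _))
        (natDegree_mul_le.trans (by rw [e2, zero_add, natDegree_neg]; exact d3)) (by simp)
        (fun z hz => ⟨by rw [map_mul, norm_mul, e3, one_mul]; exact n2 z hz _ _,
          by rw [map_mul, norm_mul, e3, one_mul, map_neg, norm_neg]; exact n3 z hz, by simp⟩) hr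
        (by simp) (by simp) hx1 c1 c2 c3
      simp only [map_mul, map_neg, map_natCast, e1, ← t1, ← t2, hmu, map_zero, zero_mul, add_zero,
        mul_assoc (aeval (x : ℂ) e), ← mul_add] at h9
      refine h9.ne' ?_
      have := congrArg (fun r : ℝ => ((T * μ1 ^ 2 * r : ℝ) : ℂ)) h0
      have hS2 : (S : ℂ) ≠ 0 := by exact_mod_cast hS'
      refine (congrArg (fun r => (aeval (x : ℂ) e * r).re) (Eq.trans ?_ this)).trans (by simp)
      push_cast
      simp only [Function.iterate_one]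
      field_simp
      ring
    cases hk' : Nat.beq kind 0 <;> rw [hk'] at h
    · refine (key (-1) _ (by simp) (by simp) ?_ h).elim
      simp only [Rep, map_add, map_mul, map_neg, map_natCast, e1, ssign_ev, ← cast_mu, ← cast_pk,
        map_one, map_zero]
      simp only [Nat.add_eq, Nat.mul_eq, Nat.cast_add, Nat.cast_mul, cast_ng]
      push_cast
      ring
    · refine (key 1 _ (by simp) (by simp) ?_ h).elim
      simp only [Rep, map_add, map_mul, map_neg, map_natCast, e1, ssign_ev, ← cast_mu, ← cast_pk,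
        map_one, map_zero]
      simp only [Nat.add_eq, Nat.mul_eq, Nat.cast_add, Nat.cast_mul, cast_ng]
      push_cast
      ring

end Pool.Agent.HillD.S
end
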