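import Pool.Agent.K.MP_ae2765_an.C7

/-! Kernel computations, part 4. -/

namespace Pool.Agent.HillD.Num
open Pool.Agent.P.MP_4c4e6e_co.Eng

theorem Sup_c5 : Cov pSup 824633720832 137438953472 1072023837083 178670639514 0 274877906944 :=
  bb_ok (fuel := 11)
    (w := 43454297738511503962044715030158918030371724594821542663106742208149055182232546117336826005255829759532948471021409702928235427379241122502850643763104920495136967583468258716958474915337021639275886813148134954832245860223766872355956083185656012369831853744213389512707402097669947564841324246376384654641406247786704126832145909094619)
    (by decide +kernel)

theorem RC_c0 : Cov pRC 0 549755813888 0 125344325567 0 1099511627776 :=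
  bb_ok (fuel := 13)
    (w := 33117794167311798599903229433419973982845203023740048518411207785)
    (by decide +kernel)

theorem RA_c0 : Cov pRA 0 1429365116109 0 549755813888 0 1099511627776 :=
  bb_ok (fuel := 8)
    (w := 9667742134004703807701803291800571353237475530269441380074137)
    (by decide +kernel)

theorem P1_c3 : Cov2 p3Pre1 pPA 0 329853488333 pPB 0 549755813888 1303910839380 108659236615 0 549755813888 :=
  bb2_ok (fuel := 4)
    (w := 95621310135555409594957142679133473757911165904533141271996756477561748560273313677041380729596848427941639972831124389436590201433790085742684091205847659490323906840135625437344419079306467320968719942770725656447495338992217925599462876824768571610361188102080064126976)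
    (by decide +kernel)

theorem Sup_c10 : Cov pSup 824633720832 137438953472 1072023837083 178670639514 824633720832 137438953472 :=
  bb_ok (fuel := 13)
    (w := 78245248718734957441994572184059148754780271974568303333158699713357757459463081726742544677270078310214963596438277343806175574293179492485908636361861864843206547467900176506169552712638059122893273262598339721687223986072131748084335030)
    (by decide +kernel)

theorem E2_c1 : Cov pE2 115448720917 57724360459 0 12754334883 0 5426089883075 :=
  bb_ok (fuel := 10)
    (w := 3203828253850694942088595601209566273461468687409582460547046576420003362420361237432732712958521188909251503642009414771887161297020358829083652966674108224909963861071224292818826971)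
    (by decide +kernel)

theorem P1_c2 : Cov2 p3Pre1 pPA 0 329853488333 pPB 0 549755813888 1086592366150 108659236615 0 549755813888 :=
  bb2_ok (fuel := 4)
    (w := 3698061717949656724666850821844940974062862769788574524331366272612885303436007092188304169028142770637293852325110359440876387401847129288847646522021875444585484043268196168149824928701593925770996157769550646416387952053217107343689146329672625666293843094817101316096)
    (by decide +kernel)

theorem P1_c1 : Cov2 p3Pre1 pPA 0 329853488333 pPB 0 549755813888 869273892920 108659236615 0 549755813888 :=
  bb2_ok (fuel := 4)
    (w := 31937084323355366532219514050213771012676117197877449844305354940073478298093304178890261048062284311448223206162468155671162366175214965562285514135707271516723910027822073428724629954560524288)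
    (by decide +kernel)

theorem Sup_c8 : Cov pSup 824633720832 137438953472 1072023837083 89335319757 549755813888 137438953472 :=
  bb_ok (fuel := 11)
    (w := 686302005509946001828910100478655359360885632349193950329787663323772699042973224425737645523672895356163582362420968578182862711538054128213817876982686564225133)
    (by decide +kernel)

theorem E3_c2 : Cov pE3 230897441832 217153546486 25508669765 12754334883 0 2713044941538 :=
  bb_ok (fuel := 8)
    (w := 2468242243217096106429236278536486532571896063803487694063398937394781726723473929150377246494569215103349662)
    (by decide +kernel)

theorem C2_c0 : Cov pC2 0 549755813888 0 549755813888 0 549755813888 :=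
  bb_ok (fuel := 13)
    (w := 229301693413224973413502822088133016677751139152093)
    (by decide +kernel)

end Pool.Agent.HillD.Num
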