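import Pool.Agent.K.MP_ae2765_an.C1
import Pool.Agent.K.MP_ae2765_an.C2
import Pool.Agent.K.MP_ae2765_an.C3
import Pool.Agent.K.MP_ae2765_an.C4
import Pool.Agent.K.MP_ae2765_an.C5
import Pool.Agent.K.MP_ae2765_an.C0

-- part Pool.Agent.P.MP_ae2765_an.Small
section

/-! One disc. -/

namespace Pool.Agent.HillD.S
open Real Set Filter Topology Polynomial Metric

theorem disc_sound {θ0 : ℝ} {l n0 sp sn ff S T μ0 μ1 κ E J n q B kind V0 : ℕ} {Vr w : List ℤ}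
    (h : disc n0 sp sn ff S T μ0 μ1 κ E J n q B kind V0 Vr w = true) (hty : Ty θ0 l n0 sp sn ff)
    (hl : 1 ≤ l) (hS : 0 < S) (hT : 0 < T) (hμ : 0 < μ1) : 1 ≤ κ ∧ ∃ u : ℂ → ℂ,
      (∀ x ∈ ball (0 : ℂ) 1, ‖u x‖ ≤ 2 * κ) ∧
      (∀ x : ℝ, |x| < 1 → 0 ≤ mu μ0 μ1 x → 2 * mu μ0 μ1 x < S →
        |T * cur θ0 l (mu μ0 μ1 x / S) - ev (Int.ofNat V0 :: Vr) x| ≤ 5 * κ →
        ((T * cur θ0 l (mu μ0 μ1 x / S) : ℝ) : ℂ) = ev (Int.ofNat V0 :: Vr) (x : ℂ) + u x) ∧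
      ∀ (g : ℝ → ℝ) (x : ℝ), |x| ≤ 31 / 32 → (∀ᶠ y : ℝ in 𝓝 x,
        ((T * g (mu μ0 μ1 y / S) : ℝ) : ℂ) = ev (Int.ofNat V0 :: Vr) (y : ℂ) + u y) →
        Good g (mu μ0 μ1 x / S) := by
  simp only [disc, fN_eq, Bool.and_eq_true, Nat.ble_eq, Nat.blt_eq, len_eq] at h
  obtain ⟨⟨⟨⟨hq, hn1⟩, hn, hB⟩, hE, hκ⟩, ⟨h1, h2⟩, hc, h3, hs, hm⟩ := h
  simp only [Nat.add_eq, Nat.mul_eq, Nat.pow_eq, Nat.sub_eq] at hq hn1 hE h1 h2 hc h3
  have hU := fun r => UB_sound (ns := 2 * (Vr.length + 2)) le_rfl hc r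
  obtain ⟨MP, MQ, hm, m1⟩ := maj_sound hm (hU q) (fun x hx => norm_ev_sub q V0 Vr hx)
    fun x hx => norm_ev_le q w hx
  have hV : ∀ x : ℂ, ‖x‖ ≤ (1 : ℕ) → ‖ev (Int.ofNat V0 :: Vr) x - V0‖ ≤ nl 1 Vr := fun x hx => by
    simpa using norm_ev_sub 1 V0 Vr hx
  obtain ⟨MP1, MQ1, hm, m2⟩ := maj_sound hm (hU 1) hV fun x hx => norm_ev_le 1 w hx
  obtain ⟨G0, Q0, G1, Q1, hf, r1, r2, r3, r4⟩ := big_sound hm
  obtain ⟨Cn, hC, hb⟩ := fin_sound hf hq hn hB hE hκ r1 r2 r3 r4 m1 m2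
  have hd := fun (x e : ℂ) (hx : ‖x‖ < 1) (he : ‖e‖ < 16 * (κ : ℝ)) =>
    dom_sound (hU 1) hT hμ hn1 h1 h2 h3 hx.le (hV x (by simpa using hx.le))
      (e := e) (by push_cast; exact he.le)
  have hκ' : (0 : ℝ) < κ := by exact_mod_cast hκ
  have dv : ∀ l : List ℤ, Differentiable ℂ fun z : ℂ => ev l z := fun l z =>
    (hasDerivAt_ev l z).differentiableAt
  obtain ⟨u, u1, u2, u3⟩ := fixp (Φ := fun x e => e - FF n0 sp sn ff S T J (mu μ0 μ1 x)
      (ev (Int.ofNat V0 :: Vr) x + e) (ev w x) / Cn) hκ'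
    (fun V t u hV ht hu hb => hu.sub ((FF_diff hV n0 sp sn ff S T J (by unfold mu; fun_prop)
      (((dv _).comp_differentiableOn ht).add hu) ((dv _).comp_differentiableOn ht)
      fun z hz => (hd _ _ (hb z hz).1 (hb z hz).2).1).div_const _))
    fun x e hx he => hb x e _ hx.le he.le (by
      obtain ⟨d1, d2⟩ := hd x e hx he
      rw [tl, norm_mul]
      exact (mul_le_mul d2 (rho_norm d1) (norm_nonneg _) (Nat.cast_nonneg _)).trans_eq
        (by simp [div_eq_mul_inv]))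
  refine ⟨hκ, u, u2, fun x hx h0 hS' h5 => ?_, fun g x hx hg => sgn_sound hs le_rfl hS hT hμ u1 u2 hx hg⟩
  have e1 : ((mu μ0 μ1 x : ℝ) : ℂ) = mu μ0 μ1 (x : ℂ) := map_mu Complex.ofRealHom μ0 μ1 x
  have e2 : ((ev (Int.ofNat V0 :: Vr) x : ℝ) : ℂ) = ev (Int.ofNat V0 :: Vr) (x : ℂ) :=
    map_ev Complex.ofRealHom _ x
  set c : ℝ := T * cur θ0 l (mu μ0 μ1 x / S) with hc
  have e3 : ‖(c : ℂ) - ev (Int.ofNat V0 :: Vr) (x : ℂ)‖ ≤ 5 * κ := by
    rwa [← e2, ← Complex.ofReal_sub, Complex.norm_real]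
  have hx' : ‖(x : ℂ)‖ < 1 := by simpa using hx
  have d1 := (hd x _ hx' (e3.trans_lt (by linarith))).1
  rw [add_sub_cancel, ← e1] at d1
  have z := FF_zero hty hl hS hT J h0 hS' d1 (ev w (x : ℂ))
  rw [← u3 x (by simpa using hx) _ e3 (by simp only [add_sub_cancel]; rw [← e1, z]; simp), add_sub_cancel]

end Pool.Agent.HillD.S

/-! Chains of discs. -/

namespace Pool.Agent.HillD.S
open Real Set Filter Topology Polynomial Metric

theorem cur_contOn {θ0 : ℝ} {l : ℕ} (hθ : θ0 = 0 ∨ θ0 = π / 2) (hl : 2 ≤ l ∨ (l = 1 ∧ θ0 = 0)) :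
    ContinuousOn (cur θ0 l) (Ico 0 (1 / 2)) := by
  have hl1 : 1 ≤ l := by omega
  intro m hm
  rcases hm.1.lt_or_eq with h | h
  · exact (cur_cont hθ hl1 h hm.2).continuousWithinAt
  subst h
  have c : ContinuousAt (fun x : ℝ => (l : ℝ) / (1 - 2 * x)) 0 :=
    continuousAt_const.div (by fun_prop) (by norm_num)
  have c' : Tendsto (fun x : ℝ => (l : ℝ) / (1 - 2 * x)) (𝓝[Ico 0 (1 / 2)] 0) (𝓝 l) := by
    simpa using c.tendsto.mono_left nhdsWithin_le_nhds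
  rw [ContinuousWithinAt, cur_zero hθ hl1]
  refine tendsto_of_tendsto_of_tendsto_of_le_of_le' tendsto_const_nhds c' ?_ ?_
  · filter_upwards [self_mem_nhdsWithin] with x hx
    rw [← cur_zero hθ hl1]
    exact (cur_strictMono hθ hl).monotoneOn hm hx hx.1
  · filter_upwards [self_mem_nhdsWithin] with x hx
    rw [le_div_iff₀ (by linarith [hx.2])]
    exact cur_mul_le hθ hl1 hx.1 hx.2

theorem schain_cont (l : List ℤ) : Continuous fun x : ℝ => ev l x := by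
  induction l with
  | nil => exact continuous_const
  | cons c t ih => exact continuous_const.add (continuous_id.mul ih)

theorem schain_cons (n0 sp sn ff S T j κ E J n q B kind V0 : ℕ) (Vr w : List ℤ) (L : List Dc)
    (y : ℕ) (val : ℤ) (err : ℕ) :
    chain n0 sp sn ff S T (⟨j, κ, E, J, n, q, B, kind, V0, Vr, w⟩ :: L) y val err =
      fN (y + 31 * j) fun μ0 => fN (32 * j) fun μ1 =>
      and (and (Nat.ble 1 j) (Nat.ble ((val - fl (-31) (Int.ofNat V0 :: Vr)).natAbs + err + 32)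
        (5 * κ))) (and (disc n0 sp sn ff S T μ0 μ1 κ E J n q B kind V0 Vr w)
        (fN (y + 62 * j) fun y' =>
          chain n0 sp sn ff S T L y' (fl 31 (Int.ofNat V0 :: Vr)) (2 * κ + 32))) := rfl

theorem chain_sound {θ0 : ℝ} {l n0 sp sn ff S T : ℕ} (hty : Ty θ0 l n0 sp sn ff)
    (hl : 2 ≤ l ∨ (l = 1 ∧ θ0 = 0)) (hS : 0 < S) (hT : 0 < T) (L : List Dc) :
    ∀ (y : ℕ) (val : ℤ) (err : ℕ), chain n0 sp sn ff S T L y val err = true →
      (2 * y < S → |T * cur θ0 l (y / S) - val| ≤ err) →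
      ∀ m : ℝ, 0 < m → y / S ≤ m → m < 1 / 2 → Good (cur θ0 l) m := by
  have hθ : θ0 = 0 ∨ θ0 = π / 2 := by
    rcases hty with h | h | h | h
    exacts [Or.inr h.1, Or.inr h.1, Or.inl h.1, Or.inl h.1]
  have hS' : (0 : ℝ) < S := by exact_mod_cast hS
  have two : ∀ (y : ℕ) (m : ℝ), y / S ≤ m → m < 1 / 2 → 2 * y < S := fun y m h1 h2 => by
    rw [div_le_iff₀ hS'] at h1
    have : (2 * y : ℝ) < S := by nlinarith
    exact_mod_cast this
  induction L with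
  | nil =>
    intro y val err h _ m _ h1 h2
    have h3 : S ≤ 2 * y := Nat.le_of_ble_eq_true h
    exact absurd (two y m h1 h2) (by omega)
  | cons D L ih =>
    intro y val err h hy m h0 h1 h2
    obtain ⟨j, κ, E, J, n, q, B, kind, V0, Vr, w⟩ := D
    simp only [schain_cons, fN_eq, Bool.and_eq_true, Nat.ble_eq] at h
    obtain ⟨⟨hj, he⟩, hd, hc⟩ := h
    obtain ⟨hκ, u, hu, heq, hg⟩ := disc_sound hd hty (by omega) hS hT (by omega)
    set V := Int.ofNat V0 :: Vr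
    have hj' : (1 : ℝ) ≤ j := by exact_mod_cast hj
    have hκ' : (1 : ℝ) ≤ κ := by exact_mod_cast hκ
    have hmu : ∀ x : ℝ, mu (y + 31 * j) (32 * j) x = y + 31 * j + 32 * j * x := fun x => by
      simp [mu]
    simp only [hmu] at heq hg
    obtain ⟨φ, hφ⟩ : ∃ φ : ℝ → ℝ, φ = fun x =>
      |T * cur θ0 l ((y + 31 * j + 32 * j * x) / S) - ev V x| := ⟨_, rfl⟩
    obtain ⟨I, hI⟩ : ∃ I : Set ℝ, I = {x | |x| < 1 ∧ 0 ≤ (y : ℝ) + 31 * j + 32 * j * x ∧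
      2 * ((y : ℝ) + 31 * j + 32 * j * x) < S} := ⟨_, rfl⟩
    have drop : ∀ x ∈ I, φ x ≤ 5 * κ → φ x ≤ 2 * κ := fun x hx h5 => by
      rw [hI] at hx
      rw [hφ] at h5 ⊢
      have e := heq x hx.1 hx.2.1 hx.2.2 h5
      have e2 : ((ev V x : ℝ) : ℂ) = ev V (x : ℂ) := map_ev Complex.ofRealHom V x
      have e3 := hu x (by simpa using hx.1)
      rw [← sub_eq_iff_eq_add', ← e2, ← Complex.ofReal_sub] at e
      rwa [← e, Complex.norm_real, Real.norm_eq_abs] at e3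
    have hy2 := two y m h1 h2
    have hy2' : (2 * y : ℝ) < S := by exact_mod_cast hy2
    have x0 : (y : ℝ) + 31 * j + 32 * j * (-31 / 32) = y := by ring
    have m0 : (-31 / 32 : ℝ) ∈ I := by
      rw [hI, mem_ofPred_eq, x0]
      exact ⟨by rw [abs_lt]; constructor <;> norm_num, by positivity, hy2'⟩
    have p0 : φ (-31 / 32) ≤ 2 * κ := drop _ m0 (by
      have a1 := hy hy2
      have a2 := fl_le (-31) (by norm_num) V
      have a3 : ((val - fl (-31) V).natAbs + err + 32 : ℝ) ≤ 5 * κ := by exact_mod_cast he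
      rw [Nat.cast_natAbs] at a3
      push_cast at a2 a3
      simp only [hφ, x0]
      rw [abs_le] at a1 a2 ⊢
      constructor <;> linarith [le_abs_self ((val : ℝ) - fl (-31) V),
        neg_abs_le ((val : ℝ) - fl (-31) V)])
    have hcI : ContinuousOn φ I := by
      rw [hφ]
      refine ((continuousOn_const.mul ((cur_contOn hθ hl).comp (by fun_prop) fun x hx => ?_)).sub
        (schain_cont V).continuousOn).abs
      rw [hI] at hx
      exact ⟨div_nonneg hx.2.1 hS'.le, by rw [div_lt_iff₀ hS']; linarith [hx.2.2]⟩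
    have hoI : I.OrdConnected := ⟨fun a ha b hb x hx => by
      rw [hI, mem_ofPred_eq, abs_lt] at ha hb ⊢
      have b1 := mul_le_mul_of_nonneg_left hx.1 (zero_le_one.trans hj')
      have b2 := mul_le_mul_of_nonneg_left hx.2 (zero_le_one.trans hj')
      exact ⟨⟨by linarith [hx.1], by linarith [hx.2]⟩, by linarith, by linarith⟩⟩
    have all : ∀ x ∈ I, φ x ≤ 2 * κ := fun x hx => by
      by_contra hc
      have h5 : 5 * κ < φ x := not_le.1 fun h5 => hc (drop x hx h5)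
      obtain ⟨t, ht, e⟩ := hoI.isPreconnected.intermediate_value m0 hx hcI
        (show 3 * (κ : ℝ) ∈ Icc _ _ from ⟨by linarith, by linarith⟩)
      have := drop t ht (by linarith)
      linarith
    rw [div_le_iff₀ hS'] at h1
    rcases le_total (m * S) (y + 62 * j) with h3 | h3
    · obtain ⟨x, hx⟩ : ∃ x : ℝ, y + 31 * j + 32 * j * x = m * S :=
        ⟨(m * S - (y + 31 * j)) / (32 * j), by field_simp; ring⟩
      have hx' : |x| ≤ 31 / 32 := by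
        have j0 : (0 : ℝ) < j := by linarith
        rw [abs_le]
        constructor <;> refine le_of_mul_le_mul_left ?_ j0 <;> linarith
      have := hg (cur θ0 l) x hx' ?_
      · rwa [hx, mul_div_cancel_right₀ _ hS'.ne'] at this
      have c : ContinuousAt (fun x : ℝ => (y : ℝ) + 31 * j + 32 * j * x) x := by fun_prop
      filter_upwards [continuous_abs.continuousAt.eventually_lt continuousAt_const
          (show |x| < 1 by linarith),
        continuousAt_const.eventually_lt c (show 0 < _ by rw [hx]; positivity),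
        (continuousAt_const.mul c).eventually_lt continuousAt_const
          (show 2 * ((y : ℝ) + 31 * j + 32 * j * x) < S by
            rw [hx]; linarith [mul_lt_mul_of_pos_right h2 hS'])] with t t1 t2 t3
      have := all t (hI ▸ ⟨t1, t2.le, t3⟩)
      rw [hφ] at this
      exact heq t t1 t2.le t3 (by linarith)
    · refine ih _ _ _ hc (fun h4 => ?_) m h0 (by rw [div_le_iff₀ hS']; exact_mod_cast h3) h2
      have h4' : (2 * (y + 62 * j) : ℝ) < S := by exact_mod_cast h4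
      have x1 : (y : ℝ) + 31 * j + 32 * j * (31 / 32) = y + 62 * j := by ring
      have a1 := all (31 / 32) (by
        rw [hI, mem_ofPred_eq, x1]
        exact ⟨by rw [abs_lt]; constructor <;> norm_num, by positivity, h4'⟩)
      have a2 := fl_le 31 (by norm_num) V
      simp only [hφ, x1] at a1
      push_cast at a2 ⊢
      rw [abs_le] at a1 a2 ⊢
      constructor <;> linarith

theorem top_sound {l S T : ℕ} {fam : Bool} {L : List Dc} (h : top l fam S T L = true)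
    (hl : 2 ≤ l ∨ (l = 1 ∧ fam = false)) {m : ℝ} (h0 : 0 < m) (hm : m < 1 / 2) :
    Good (cur (bif fam then π / 2 else 0) l) m := by
  have key : ∀ {θ0 : ℝ} {n0 sp sn ff : ℕ}, (θ0 = 0 ∨ θ0 = π / 2) → Ty θ0 l n0 sp sn ff →
      (2 ≤ l ∨ (l = 1 ∧ θ0 = 0)) → and (and (Nat.ble 1 S) (Nat.ble 1 T))
        (chain n0 sp sn ff S T L 0 (Int.ofNat (l * T)) 0) = true → Good (cur θ0 l) m := by
    intro θ0 n0 sp sn ff hθ hty hl h
    simp only [Bool.and_eq_true, Nat.ble_eq] at h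
    refine chain_sound hty hl h.1.1 h.1.2 L 0 _ 0 h.2 (fun _ => ?_) m h0 (by simpa using h0.le) hm
    simp [cur_zero hθ (show 1 ≤ l by omega), mul_comm]
  unfold top at h
  rcases Nat.mod_two_eq_zero_or_one l with e | e <;> rw [show Nat.mod l 2 = _ from e] at h <;>
    cases fam
  · exact key (Or.inl rfl) (by simp [Ty, e]) (by simpa using hl) h
  · exact key (Or.inr rfl) (by simp [Ty, e]) (Or.inl (by simpa using hl)) h
  · exact key (Or.inl rfl) (by simp [Ty, e]) (by simpa using hl) h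
  · exact key (Or.inr rfl) (by simp [Ty, e]) (Or.inl (by simpa using hl)) h

end Pool.Agent.HillD.S

/-! Back to the variable of the problem. -/

namespace Pool.Agent.HillD.S
open Real Set Filter Topology Polynomial Metric

theorem red_mm (δ : ℝ) : HasDerivAt mm (δ * (1 - 2 * mm δ) ^ 2) δ := by
  have h : (1 + δ ^ 2) ≠ 0 := by positivity
  have e : 1 - 2 * mm δ = 1 / (1 + δ ^ 2) := by rw [eq_div_iff h, mm_eq]
  refine (((hasDerivAt_id δ).fun_pow 2).fun_div ((((hasDerivAt_id δ).fun_pow 2).const_add 1).const_mul 2)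
    (by simpa using h)).congr_deriv ?_
  rw [e]
  simp only [id]
  field_simp
  ring

theorem red {g : ℝ → ℝ} (hg : AnalyticOnNhd ℝ g (Ioo 0 (1 / 2))) {δ : ℝ} (hδ : 0 < δ)
    (hG : Good g (mm δ)) (h2 : deriv^[2] (fun δ => g (mm δ)) δ = 0) :
    deriv^[3] (fun δ => g (mm δ)) δ < 0 := by
  have D : ∀ k, ∀ x : ℝ, 0 < x → HasDerivAt (fun x => deriv^[k] g (mm x))
      (deriv^[k + 1] g (mm x) * (x * (1 - 2 * mm x) ^ 2)) x := fun k x hx => by
    rw [Function.iterate_succ_apply']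
    exact (hg.iterated_deriv k _ ⟨mm_pos hx, mm_lt x⟩).differentiableAt.hasDerivAt.comp x (red_mm x)
  have M : ∀ x : ℝ, x ^ 2 * (1 - 2 * mm x) = 2 * mm x := fun x => by linear_combination mm_eq x
  have E : ∀ {f f' : ℝ → ℝ}, (∀ x, 0 < x → f x = f' x) → ∀ x, 0 < x → deriv f x = deriv f' x :=
    fun h x hx => EventuallyEq.deriv_eq (eventually_of_mem (Ioi_mem_nhds hx) h)
  have a := fun x => ((red_mm x).const_mul 2).const_sub 1
  have e2 : ∀ x : ℝ, 0 < x → deriv^[2] (fun δ => g (mm δ)) x = (1 - 2 * mm x) ^ 2 *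
      ((1 - 8 * mm x) * deriv^[1] g (mm x) + 2 * mm x * (1 - 2 * mm x) * deriv^[2] g (mm x)) :=
    fun x hx => by
      show deriv (deriv fun x => deriv^[0] g (mm x)) x = _
      rw [E (fun x hx => (D 0 x hx).deriv) x hx,
        ((D 1 x hx).fun_mul ((hasDerivAt_id' x).fun_mul ((a x).fun_pow 2))).deriv]
      have := M x
      simp only [Nat.reduceAdd, Nat.cast_ofNat, Nat.add_one_sub_one, pow_one]
      linear_combination ((1 - 2 * mm x) ^ 3 * deriv^[2] g (mm x) -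
        4 * (1 - 2 * mm x) ^ 2 * deriv^[1] g (mm x)) * this
  have p : 0 < 1 - 2 * mm δ := by linarith [mm_lt δ]
  have z := (mul_eq_zero.1 ((e2 δ hδ).symm.trans h2)).resolve_left (by positivity)
  have hG := hG z
  rw [Function.iterate_succ_apply', E e2 δ hδ, (((a δ).fun_pow 2).fun_mul
    (((((red_mm δ).const_mul 8).const_sub 1).fun_mul (D 1 δ hδ)).fun_add
      ((((red_mm δ).const_mul 2).fun_mul (a δ)).fun_mul (D 2 δ hδ)))).deriv, z]
  have := mul_neg_of_pos_of_neg (by positivity : 0 < δ * (1 - 2 * mm δ) ^ 4) hG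
  simp only [Nat.reduceAdd, Function.iterate_one]
  linarith

end Pool.Agent.HillD.S

/-! The lines of small index: every zero of the second derivative is a strict change from convex
to concave. -/

namespace Pool.Agent.HillD
open Real Set S

theorem good_D {l : ℕ} (hl : 1 ≤ l) (hL : l ≤ 30) {m : ℝ} (h0 : 0 < m) (hm : m < 1 / 2) :
    Good (cur 0 l) m := by
  interval_cases l
  · exact top_sound chkD1 (by simp) h0 hm
  · exact top_sound chkD2 (by simp) h0 hm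
  · exact top_sound chkD3 (by simp) h0 hm
  · exact top_sound chkD4 (by simp) h0 hm
  · exact top_sound chkD5 (by simp) h0 hm
  · exact top_sound chkD6 (by simp) h0 hm
  · exact top_sound chkD7 (by simp) h0 hm
  · exact top_sound chkD8 (by simp) h0 hm
  · exact top_sound chkD9 (by simp) h0 hm
  · exact top_sound chkD10 (by simp) h0 hm
  · exact top_sound chkD11 (by simp) h0 hm
  · exact top_sound chkD12 (by simp) h0 hm
  · exact top_sound chkD13 (by simp) h0 hm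
  · exact top_sound chkD14 (by simp) h0 hm
  · exact top_sound chkD15 (by simp) h0 hm
  · exact top_sound chkD16 (by simp) h0 hm
  · exact top_sound chkD17 (by simp) h0 hm
  · exact top_sound chkD18 (by simp) h0 hm
  · exact top_sound chkD19 (by simp) h0 hm
  · exact top_sound chkD20 (by simp) h0 hm
  · exact top_sound chkD21 (by simp) h0 hm
  · exact top_sound chkD22 (by simp) h0 hm
  · exact top_sound chkD23 (by simp) h0 hm
  · exact top_sound chkD24 (by simp) h0 hm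
  · exact top_sound chkD25 (by simp) h0 hm
  · exact top_sound chkD26 (by simp) h0 hm
  · exact top_sound chkD27 (by simp) h0 hm
  · exact top_sound chkD28 (by simp) h0 hm
  · exact top_sound chkD29 (by simp) h0 hm
  · exact top_sound chkD30 (by simp) h0 hm

theorem good_N {l : ℕ} (hl : 2 ≤ l) (hL : l ≤ 30) {m : ℝ} (h0 : 0 < m) (hm : m < 1 / 2) :
    Good (cur (π / 2) l) m := by
  interval_cases l
  · exact top_sound chkN2 (by simp) h0 hm
  · exact top_sound chkN3 (by simp) h0 hm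
  · exact top_sound chkN4 (by simp) h0 hm
  · exact top_sound chkN5 (by simp) h0 hm
  · exact top_sound chkN6 (by simp) h0 hm
  · exact top_sound chkN7 (by simp) h0 hm
  · exact top_sound chkN8 (by simp) h0 hm
  · exact top_sound chkN9 (by simp) h0 hm
  · exact top_sound chkN10 (by simp) h0 hm
  · exact top_sound chkN11 (by simp) h0 hm
  · exact top_sound chkN12 (by simp) h0 hm
  · exact top_sound chkN13 (by simp) h0 hm
  · exact top_sound chkN14 (by simp) h0 hm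
  · exact top_sound chkN15 (by simp) h0 hm
  · exact top_sound chkN16 (by simp) h0 hm
  · exact top_sound chkN17 (by simp) h0 hm
  · exact top_sound chkN18 (by simp) h0 hm
  · exact top_sound chkN19 (by simp) h0 hm
  · exact top_sound chkN20 (by simp) h0 hm
  · exact top_sound chkN21 (by simp) h0 hm
  · exact top_sound chkN22 (by simp) h0 hm
  · exact top_sound chkN23 (by simp) h0 hm
  · exact top_sound chkN24 (by simp) h0 hm
  · exact top_sound chkN25 (by simp) h0 hm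
  · exact top_sound chkN26 (by simp) h0 hm
  · exact top_sound chkN27 (by simp) h0 hm
  · exact top_sound chkN28 (by simp) h0 hm
  · exact top_sound chkN29 (by simp) h0 hm
  · exact top_sound chkN30 (by simp) h0 hm

theorem small_l {θ0 : ℝ} {l : ℕ} (hθ : θ0 = 0 ∨ θ0 = π / 2) (hl : 2 ≤ l ∨ (l = 1 ∧ θ0 = 0))
    (hL : l ≤ 30) {δ : ℝ} (hδ : 0 < δ) (h2 : deriv^[2] (fun δ => cur θ0 l (mm δ)) δ = 0) :
    deriv^[3] (fun δ => cur θ0 l (mm δ)) δ < 0 := by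
  have hl1 : 1 ≤ l := by omega
  refine red (fun m hm => cur_ana hθ hl1 hm.1 hm.2) hδ ?_ h2
  rcases hθ with rfl | rfl
  · exact good_D hl1 hL (mm_pos hδ) (mm_lt δ)
  · refine good_N (hl.resolve_right fun h => ?_) hL (mm_pos hδ) (mm_lt δ)
    have := pi_pos
    linarith [h.2]

end Pool.Agent.HillD
end

-- part Pool.Agent.P.MP_ae2765_an.WDef
section

/-! Definitions for the asymptotic analysis of the resonant lines (large index). -/

namespace Pool.Agent.HillD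
open Real Set Filter Topology Asymptotics

/-! ### Jets at `0` -/

/-- `g τ = c0 + c1 τ + c2 τ ^ 2 + O(τ ^ 3)`. -/
def J2 {𝕜 : Type} [RCLike 𝕜] (g : ℝ → 𝕜) (c0 c1 c2 : 𝕜) : Prop :=
  (fun τ : ℝ => g τ - (c0 + c1 * (τ : 𝕜) + c2 * (τ : 𝕜) ^ 2)) =O[𝓝 0] fun τ : ℝ => τ ^ 3

/-- `g τ = c0 + c1 τ + c2 τ ^ 2 + c3 τ ^ 3 + O(τ ^ 4)`. -/
def J3 {𝕜 : Type} [RCLike 𝕜] (g : ℝ → 𝕜) (c0 c1 c2 c3 : 𝕜) : Prop :=
  (fun τ : ℝ => g τ - (c0 + c1 * (τ : 𝕜) + c2 * (τ : 𝕜) ^ 2 + c3 * (τ : 𝕜) ^ 3)) =O[𝓝 0]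
    fun τ : ℝ => τ ^ 4

/-- real two-jets as triples -/
abbrev T3 : Type := ℝ × ℝ × ℝ

def JT (g : ℝ → ℝ) (c : T3) : Prop := J2 g c.1 c.2.1 c.2.2

def jmul (x y : T3) : T3 :=
  (x.1 * y.1, x.1 * y.2.1 + x.2.1 * y.1, x.1 * y.2.2 + x.2.1 * y.2.1 + x.2.2 * y.1)

noncomputable def jinv (x : T3) : T3 :=
  (x.1⁻¹, -(x.2.1 * x.1⁻¹ ^ 2), -((x.2.1 * -(x.2.1 * x.1⁻¹ ^ 2) + x.2.2 * x.1⁻¹) * x.1⁻¹))

noncomputable def jsqrt (x : T3) : T3 :=
  (√x.1, 1 / 2 * (x.2.1 * (√x.1)⁻¹),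
    1 / 2 * ((x.2.2 - (1 / 2 * (x.2.1 * (√x.1)⁻¹)) ^ 2) * (√x.1)⁻¹))

/-- `z` lies in the right half plane and the sine of its argument is at most `σ` in modulus. -/
def Sa (z : ℂ) (σ : ℝ) : Prop := 0 < z.re ∧ |z.im| ≤ σ * ‖z‖

/-! ### The equation `Q u'' + Q' u' / 2 + 2 ω P u = 0`, `X = cos φ ^ 2`, `j = 1 / (δ ^ 2 + 2)` -/

noncomputable def jj (δ : ℝ) : ℝ := 1 / (δ ^ 2 + 2)

noncomputable def PP (ω j X : ℂ) : ℂ := ω * j + (1 - 2 * j) * X

noncomputable def QQ (j X : ℂ) : ℂ := 1 + (1 - 2 * j) * X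

/-- the error potential of the WKB transformation -/
noncomputable def psi (ω j X : ℂ) : ℂ :=
  (1 - 2 * j) * (5 * (1 - 2 * j) * QQ j X * X * (1 - X) -
    2 * PP ω j X * (QQ j X * (1 - 2 * X) + (1 - 2 * j) * X * (1 - X))) / (8 * ω * PP ω j X ^ 3)

/-- the segment from `i φ1` to `φ1` -/
noncomputable def pth (φ1 s : ℝ) : ℂ := φ1 * (Complex.I + (1 - Complex.I) * s)

noncomputable def pX (φ1 s : ℝ) : ℂ := Complex.cos (pth φ1 s) ^ 2

noncomputable def G2 (φ1 : ℝ) (ω j : ℂ) (s : ℝ) : ℂ :=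
  4 * (φ1 : ℂ) ^ 2 * ω * PP ω j (pX φ1 s) / QQ j (pX φ1 s)

noncomputable def gp (φ1 : ℝ) (ω j : ℂ) (s : ℝ) : ℂ := Complex.sqrt (Complex.I * G2 φ1 ω j s)

noncomputable def q2 (ω j φ : ℂ) : ℂ :=
  2 * ω * PP ω j (Complex.cos φ ^ 2) / QQ j (Complex.cos φ ^ 2)

noncomputable def qh (ω j φ : ℂ) : ℂ := Complex.sqrt (q2 ω j φ)

/-- `- P' / (4 P)` -/
noncomputable def eh (ω j φ : ℂ) : ℂ :=
  (1 - 2 * j) * Complex.cos φ * Complex.sin φ / (2 * PP ω j (Complex.cos φ ^ 2))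

noncomputable def Tt (φ1 : ℝ) (ω j : ℂ) : ℂ :=
  -∫ φ in (0 : ℝ)..φ1, eh ω j φ ^ 2 / (2 * qh ω j φ)

noncomputable def Pr (ω j φ : ℝ) : ℝ := ω * j + (1 - 2 * j) * cos φ ^ 2

noncomputable def Qr (j φ : ℝ) : ℝ := 1 + (1 - 2 * j) * cos φ ^ 2

noncomputable def qr (ω j φ : ℝ) : ℝ := √(2 * ω * Pr ω j φ / Qr j φ)

noncomputable def er (ω j φ : ℝ) : ℝ := (1 - 2 * j) * cos φ * sin φ / (2 * Pr ω j φ)

/-- the main term of the phase -/
noncomputable def Mn (φ1 ω j : ℝ) : ℝ := ∫ φ in (0 : ℝ)..φ1, qr ω j φ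

noncomputable def ph0 (φ1 ω j : ℝ) (k : ℂ) : ℝ :=
  Mn φ1 ω j + er ω j φ1 / (2 * qr ω j φ1) + (Tt φ1 ω j).re + k.im

noncomputable def etaC (φ1 δ ω : ℝ) (z : ℂ) : ℂ :=
  (er ω (jj δ) φ1 + Complex.I * qr ω (jj δ) φ1 * (1 + z)) / (cA (mm δ) ω φ1 : ℝ)

/-- the linear system behind the Riccati equation `z' = g (ψ - 2 z - z ^ 2)`, `z = B / A` -/
def RicSol (g ψ A B : ℝ → ℂ) : Prop :=
  A 0 = 1 ∧ B 0 = 0 ∧ ∀ s ∈ Icc (0 : ℝ) 1,
    HasDerivWithinAt A (g s * (B s - ψ s * A s / 2)) (Icc 0 1) s ∧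
    HasDerivWithinAt B (g s * (ψ s * A s - 2 * B s - ψ s * B s / 2)) (Icc 0 1) s

/-- A combination `α c + i β s` of the even and the odd solution has the WKB form at `φ1`. -/
def Br (φ1 δ ω : ℝ) (k z : ℂ) : Prop :=
  ∃ α β : ℝ,
    ((α * sx (mm δ) ω (π / 2) φ1 : ℝ) : ℂ) + Complex.I * ((β * sx (mm δ) ω 0 φ1 : ℝ) : ℂ) =
      Complex.exp (Complex.I * (ph0 φ1 ω (jj δ) k : ℝ)) ∧
    ((α * sy (mm δ) ω (π / 2) φ1 : ℝ) : ℂ) + Complex.I * ((β * sy (mm δ) ω 0 φ1 : ℝ) : ℂ) =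
      etaC φ1 δ ω z * Complex.exp (Complex.I * (ph0 φ1 ω (jj δ) k : ℝ))

/-- All pointwise estimates needed at one complex parameter `(ω, j)`. -/
structure Wk (φ1 : ℝ) (ω j : ℂ) (κ0 γ N T : ℝ) (b b' : ℝ → ℝ) : Prop where
  ne0 : ω ≠ 0
  neP : ∀ s ∈ Icc (0 : ℝ) 1, PP ω j (pX φ1 s) ≠ 0
  neQ : ∀ s ∈ Icc (0 : ℝ) 1, QQ j (pX φ1 s) ≠ 0
  ang : ∀ s ∈ Icc (0 : ℝ) 1, (G2 φ1 ω j s).im ≤ κ0 * ‖G2 φ1 ω j s‖
  bar : ∀ s ∈ Icc (0 : ℝ) 1, √‖G2 φ1 ω j s‖ * (‖psi ω j (pX φ1 s)‖ - γ * b s) < b' s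
  int : ∫ s in (0 : ℝ)..1, ‖psi ω j (pX φ1 s)‖ ^ 2 * √‖G2 φ1 ω j s‖ ≤ N
  slit : ∀ φ ∈ Icc (0 : ℝ) φ1, q2 ω j φ ∈ Complex.slitPlane
  tt : ‖Tt φ1 ω j‖ ≤ T

/-! ### Phase functions along a curve of parameters -/

/-- the value (`typ = true`) or the derivative (`typ = false`) at `π / 2` -/
noncomputable def pr (typ : Bool) (δ ω θ0 : ℝ) : ℝ :=
  if typ then sx (mm δ) ω θ0 (π / 2) else sy (mm δ) ω θ0 (π / 2)

/-- `ϕ` is the argument, modulo `π`, of `α c + i β s` at `π / 2` along the curve `(δ, ω)`. -/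
def Rp (typ : Bool) (δ ω ϕ : ℝ → ℝ) : Prop :=
  ContinuousAt δ 0 ∧ ContinuousAt ω 0 ∧ ContinuousAt ϕ 0 ∧
    ∃ α β : ℝ → ℝ, ContinuousAt α 0 ∧ ContinuousAt β 0 ∧ 0 < α 0 * β 0 ∧
      ∀ᶠ τ in 𝓝 (0 : ℝ), α τ * pr typ (δ τ) (ω τ) (π / 2) * sin (ϕ τ) =
        β τ * pr typ (δ τ) (ω τ) 0 * cos (ϕ τ)

/-- `(v1, y1)` are the data at `φ1` of the solution that is odd (`typ = true`) or even about
`π / 2`. -/
def Tr (typ : Bool) (φ1 δ ω v1 y1 : ℝ) : Prop :=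
  ∃ c : ℝ, c ≠ 0 ∧ ∀ x y : ℝ → ℝ, IsLin (cA (mm δ) ω) (cB (mm δ) ω) x y →
    x φ1 * y1 - y φ1 * v1 = c * (if typ then x (π / 2) else y (π / 2))

/-- `ϕ - ϕ 0` has the sign of `u` and is dominated by it. -/
def Sand (u ϕ : ℝ → ℝ) : Prop :=
  ∃ C : ℝ, ∀ᶠ τ in 𝓝 (0 : ℝ), |ϕ τ - ϕ 0| ≤ C * |u τ| ∧ 0 ≤ (ϕ τ - ϕ 0) * u τ

/-- The tangent line criterion at `(δ0, ω0)` with logarithmic slope `s`. -/
def Good (typ : Bool) (δ0 ω0 s : ℝ) : Prop :=
  (∃ (ϕ : ℝ → ℝ) (c0 c1 c2 c3 : ℝ), Rp typ (fun τ => δ0 * (1 + τ)) (fun τ => ω0 * (1 + s * τ)) ϕ ∧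
      J3 ϕ c0 c1 c2 c3 ∧ (c1 = 0 → c2 = 0 → 0 < c3)) ∨
  (∃ (δ ϕ : ℝ → ℝ) (lam c0 c1 c2 : ℝ), J2 δ δ0 (δ0 * lam) 0 ∧
      Rp typ δ (fun τ => ω0 * (1 + s * lam * τ)) ϕ ∧ J2 ϕ c0 c1 c2 ∧ (c1 = 0 → c2 ≠ 0))

/-! ### Taylor coefficients of the main term along the tangent line -/

noncomputable def el1 (s y b : ℝ) : ℝ := (s + (s + (2 - s) * y) - 2 * b) / 2

noncomputable def el2 (s y b : ℝ) : ℝ :=
  (-s ^ 2 + 2 * y - (s + (2 - s) * y) ^ 2 - 2 * b + 4 * b ^ 2) / 2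

noncomputable def el3 (s y b : ℝ) : ℝ :=
  (2 * s ^ 3 + 2 * (s + (2 - s) * y) ^ 3 - 6 * (s + (2 - s) * y) * y + 12 * b ^ 2 - 16 * b ^ 3) / 2

noncomputable def yv (ω j φ : ℝ) : ℝ := (1 - 2 * j) * cos φ ^ 2 / Pr ω j φ

noncomputable def bv (j φ : ℝ) : ℝ := (1 - 2 * j) * (1 + cos φ ^ 2) / Qr j φ

noncomputable def F1 (φ1 ω j s : ℝ) : ℝ :=
  ∫ φ in (0 : ℝ)..φ1, qr ω j φ * el1 s (yv ω j φ) (bv j φ)

noncomputable def F2 (φ1 ω j s : ℝ) : ℝ :=
  ∫ φ in (0 : ℝ)..φ1, qr ω j φ *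
    ((el2 s (yv ω j φ) (bv j φ) + el1 s (yv ω j φ) (bv j φ) ^ 2) / 2)

noncomputable def F3 (φ1 ω j s : ℝ) : ℝ :=
  ∫ φ in (0 : ℝ)..φ1, qr ω j φ *
    ((el3 s (yv ω j φ) (bv j φ) + 3 * el1 s (yv ω j φ) (bv j φ) * el2 s (yv ω j φ) (bv j φ) +
      el1 s (yv ω j φ) (bv j φ) ^ 3) / 6)

noncomputable def O1 (φ1 ω j : ℝ) : ℝ := ∫ φ in (0 : ℝ)..φ1, qr ω j φ * (ω * j / Pr ω j φ)

/-- the parabolic cylinder parameter -/
noncomputable def aa (ω j : ℝ) : ℝ := ω * j * √(ω / (2 * (1 - 2 * j)))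

/-- the parameters along the complex tangent line -/
noncomputable def lΩ (ω0 s : ℝ) (τ : ℂ) : ℂ := ω0 * (1 + s * τ)

noncomputable def lJ (δ0 : ℝ) (τ : ℂ) : ℂ := 1 / ((δ0 : ℂ) ^ 2 * (1 + τ) ^ 2 + 2)

/-! ### The moment expansion -/

/-- Taylor coefficients of `(1 + κ c) ^ (-3/2) (1 + μ c) ^ (-5/2)` -/
noncomputable def gco (κ μ : ℝ) : ℕ → ℝ
  | 0 => 1
  | 1 => -(3 / 2 * κ + 5 / 2 * μ)
  | n + 2 => -((((n + 1 : ℕ) : ℝ) * (κ + μ) + (3 / 2 * κ + 5 / 2 * μ)) * gco κ μ (n + 1) +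
      ((n + 4 : ℕ) : ℝ) * (κ * μ * gco κ μ n)) / ((n + 2 : ℕ) : ℝ)

/-- the mean of `cos ^ n` -/
noncomputable def wal (n : ℕ) : ℝ := if n % 2 = 0 then (n.choose (n / 2) : ℝ) / 2 ^ n else 0

noncomputable def nuc (κ μ : ℝ) (i : ℕ) : ℝ := ∑ n ∈ Finset.range 13, wal (n + i) * gco κ μ n

/-! ### The power series at `π / 2` -/

/-- the pair `(t n, t (n - 1))`, where `t n` is the term of degree `k0 + 2 n` -/
noncomputable def tco {K : Type} [Field K] (A B Z J : K) (k0 : ℕ) : ℕ → K × K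
  | 0 => (1, 0)
  | n + 1 =>
    ((((((k0 + 2 * n) * (k0 + 2 * n) : ℕ) : K) * J - A) * (tco A B Z J k0 n).1 +
      ((((k0 + 2 * n - 1) * (k0 + 2 * n - 2) : ℕ) : K) * Z - B) * (tco A B Z J k0 n).2) /
        (((k0 + 2 * n + 1) * (k0 + 2 * n + 2) : ℕ) : K), (tco A B Z J k0 n).1)

noncomputable def yS (A B Z J : ℂ) (k0 : ℕ) : ℂ := ∑' n, (tco A B Z J k0 n).1

noncomputable def hS (A B Z J : ℂ) (k0 : ℕ) : ℂ :=
  ∑' n, ((k0 + 2 * n : ℕ) : ℂ) * (tco A B Z J k0 n).1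

noncomputable def yN {K : Type} [Field K] (A B Z J : K) (k0 : ℕ) : K :=
  ∑ n ∈ Finset.range 16, (tco A B Z J k0 n).1

noncomputable def hN {K : Type} [Field K] (A B Z J : K) (k0 : ℕ) : K :=
  ∑ n ∈ Finset.range 16, ((k0 + 2 * n : ℕ) : K) * (tco A B Z J k0 n).1

/-- the data of the matching at `φ1`: parameters, the jets `d1, d2` of `d`, the slope `sg` of `υ`,
and the jets of the two series -/
structure P3D where
  A0 : ℝ
  B0 : ℝ
  Z : ℝ
  nu : ℝ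
  jk : ℝ
  d1 : ℝ
  d2 : ℝ
  sg : ℝ
  Y : T3
  H : T3

namespace P3D
variable (D : P3D)

/-- jet of `B0 (1 + υ) (1 - jk d)` -/
def Bj : T3 := (D.B0, D.B0 * (D.sg - D.jk * D.d1), -(D.B0 * (D.jk * (D.d2 + D.d1 * D.sg))))

/-- jet of `A + B`, `A = (A0 + d) (1 + υ) ^ 2` -/
def Sj : T3 := (D.A0 + D.B0, D.d1 + 2 * (D.A0 * D.sg) + D.Bj.2.1,
  D.d2 + 2 * (D.d1 * D.sg) + D.A0 * D.sg ^ 2 + D.Bj.2.2)

/-- jet of `1 - nu (A0 + d) - Z (1 - jk d)` -/
def dn : T3 := (1 - D.nu * D.A0 - D.Z, (D.Z * D.jk - D.nu) * D.d1, (D.Z * D.jk - D.nu) * D.d2)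

noncomputable def AA : T3 := jmul D.Bj (jinv D.Sj)

noncomputable def rj : T3 := jsqrt (jmul D.Sj (jinv D.dn))

noncomputable def Mi : T3 := jmul D.rj D.Y

noncomputable def Mr : T3 := (D.H.1 + 1 / 2 * (jmul D.AA D.Y).1,
  D.H.2.1 + 1 / 2 * (jmul D.AA D.Y).2.1, D.H.2.2 + 1 / 2 * (jmul D.AA D.Y).2.2)

noncomputable def Tb : T3 := jmul D.AA (jinv D.rj)

end P3D

noncomputable def nrm0 (Mr Mi : T3) : ℝ := Mr.1 ^ 2 + Mi.1 ^ 2

/-- first Taylor coefficient of the argument of `Mr + i Mi` -/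
noncomputable def l1i (Mr Mi : T3) : ℝ := (Mi.2.1 * Mr.1 - Mr.2.1 * Mi.1) * (nrm0 Mr Mi)⁻¹

/-- second Taylor coefficient of the argument of `Mr + i Mi` -/
noncomputable def l2i (Mr Mi : T3) : ℝ :=
  (Mi.2.2 * Mr.1 - Mr.2.2 * Mi.1) * (nrm0 Mr Mi)⁻¹ -
    (Mr.2.1 * Mr.1 + Mi.2.1 * Mi.1) * (nrm0 Mr Mi)⁻¹ * l1i Mr Mi

noncomputable def eA1 (b l : ℝ) : ℝ :=
  b * (2 + (l ^ 2 + 1) / 2) + 11 / 10 * (b ^ 2 * (4 + (l ^ 2 + 1) / 2))

noncomputable def eA2 (b l : ℝ) : ℝ :=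
  b * (8 + 4 * ((l ^ 2 + 1) / 2) + l ^ 2) +
    b ^ 2 * (11 / 10 * (16 + 4 * ((l ^ 2 + 1) / 2) + l ^ 2) + 61 / 100 * (4 + (l ^ 2 + 1) / 2) ^ 2)

noncomputable def p3v (al : ℝ) : ℝ := (23 / 25 * (1 / 2 * al ^ 2 - 1 / 2 * al + 57 / 25))⁻¹

noncomputable def p3b (al B : ℝ) : ℝ :=
  50 / 49 * (1 / 16 * (p3v al ^ 2 * (16 / 5 + 5 / 2 * B ^ 3)) + 1 / 1250)

noncomputable def p3N (al B : ℝ) : ℝ :=
  (√(31 / 2500 * (p3v al ^ 3 * (33 / 2 + 23 * B ^ 3))) + 9 / 1000) ^ 2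

noncomputable def p3T (al B : ℝ) : ℝ := 11 / 500 * (p3v al * (1 + √(137 / 100 * B)))

noncomputable def p3rho (al : ℝ) : ℝ :=
  1001 / 2500 * (√(1 + 40 / 999 * al ^ 2) + 1001 / 5000 * al)⁻¹

noncomputable def p3y (al : ℝ) : ℝ :=
  1001 / 20000 * (√(10 - 2 * al ^ 2) + √(10 - 2 * al ^ 2 + 4 * al ^ 2))

noncomputable def pade (y : ℝ) : ℝ := 6 * (1 - y ^ 2) * (1 + 4 * y + y ^ 2)⁻¹

noncomputable def p3cc (s B : ℝ) : ℝ :=
  2991 / 1000 - 7 / 2 * s + 3 / 4 * s ^ 2 - 1 / 4 * ((2 - s) ^ 2 * (1 - B))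

/-- the parameters along the curve used near the turning point -/
noncomputable def cJ (j0 lam : ℝ) (τ : ℂ) : ℂ :=
  j0 * (1 - 2 * (1 - 2 * j0) * lam * τ + (4 * (1 - 2 * j0) ^ 2 - (1 - 2 * j0)) * lam ^ 2 * τ ^ 2)

end Pool.Agent.HillD
end

-- part Pool.Agent.P.MP_ae2765_an.WSa0
section

/-! The angle predicate. -/

namespace Pool.Agent.HillD
open Real Set Filter Topology Asymptotics

variable {z w : ℂ} {σ σ' : ℝ}

theorem wsa0_sq (z : ℂ) : ‖z‖ ^ 2 = z.re ^ 2 + z.im ^ 2 := by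
  rw [Complex.sq_norm, Complex.normSq_apply]; ring

theorem wsa0_im_sq (h : Sa z σ) : z.im ^ 2 ≤ σ ^ 2 * ‖z‖ ^ 2 := by
  rw [← sq_abs, ← mul_pow]
  exact pow_le_pow_left₀ (abs_nonneg _) h.2 2

theorem wsa0_of_sq (hre : 0 < z.re) (h0 : 0 ≤ σ) (h : z.im ^ 2 ≤ σ ^ 2 * ‖z‖ ^ 2) : Sa z σ := by
  refine ⟨hre, ?_⟩
  rw [← sq_abs, ← mul_pow] at h
  exact (sq_le_sq₀ (abs_nonneg _) (mul_nonneg h0 (norm_nonneg _))).1 h

theorem wsa0_re_ge (h : Sa z σ) : √(1 - σ ^ 2) * ‖z‖ ≤ z.re := by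
  rcases le_total (1 - σ ^ 2) 0 with h1 | h1
  · rw [Real.sqrt_eq_zero'.2 h1, zero_mul]; exact h.1.le
  · refine (sq_le_sq₀ (by positivity) h.1.le).1 ?_
    rw [mul_pow, Real.sq_sqrt h1]
    nlinarith [wsa0_sq z, wsa0_im_sq h]

theorem Sa.ne (h : Sa z σ) : z ≠ 0 := by
  rintro rfl
  exact lt_irrefl _ h.1

theorem Sa.mono (h : Sa z σ) (hσ : σ ≤ σ') : Sa z σ' :=
  ⟨h.1, h.2.trans (mul_le_mul_of_nonneg_right hσ (norm_nonneg _))⟩

theorem Sa.inv (h : Sa z σ) : Sa z⁻¹ σ := by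
  have h1 : 0 < ‖z‖ := norm_pos_iff.2 h.ne
  refine ⟨?_, ?_⟩
  · rw [Complex.inv_re]
    exact div_pos h.1 (Complex.normSq_pos.2 h.ne)
  · rw [Complex.inv_im, norm_inv, abs_div, abs_neg, ← Complex.sq_norm,
      abs_of_pos (pow_pos h1 2), div_le_iff₀ (pow_pos h1 2)]
    refine h.2.trans (le_of_eq ?_)
    field_simp

theorem Sa.mul (h : Sa z σ) (h' : Sa w σ') (h0 : 0 ≤ σ) (h0' : 0 ≤ σ') (h1 : σ + σ' < 1) :
    Sa (z * w) (σ + σ') := by
  have hz : 0 < ‖z‖ := norm_pos_iff.2 h.ne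
  have hw : 0 < ‖w‖ := norm_pos_iff.2 h'.ne
  have h2 : σ ^ 2 + σ' ^ 2 < 1 := by nlinarith [mul_nonneg h0 h0']
  refine ⟨?_, ?_⟩
  · have a1 : σ' < √(1 - σ ^ 2) := Real.lt_sqrt_of_sq_lt (by linarith)
    have a2 : σ < √(1 - σ' ^ 2) := Real.lt_sqrt_of_sq_lt (by linarith)
    have b1 : σ' * ‖z‖ < z.re := (mul_lt_mul_of_pos_right a1 hz).trans_le (wsa0_re_ge h)
    have b2 : σ * ‖w‖ < w.re := (mul_lt_mul_of_pos_right a2 hw).trans_le (wsa0_re_ge h')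
    have c1 : σ' * ‖z‖ * (σ * ‖w‖) < z.re * w.re :=
      mul_lt_mul'' b1 b2 (by positivity) (by positivity)
    have c2 : z.im * w.im ≤ σ * ‖z‖ * (σ' * ‖w‖) := by
      refine (le_abs_self _).trans ?_
      rw [abs_mul]
      exact mul_le_mul h.2 h'.2 (abs_nonneg _) (by positivity)
    rw [Complex.mul_re]
    nlinarith
  · rw [Complex.mul_im, norm_mul]
    refine (abs_add_le _ _).trans ?_
    rw [abs_mul, abs_mul]
    have c1 : |z.re| * |w.im| ≤ ‖z‖ * (σ' * ‖w‖) :=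
      mul_le_mul (Complex.abs_re_le_norm z) h'.2 (abs_nonneg _) hz.le
    have c2 : |z.im| * |w.re| ≤ σ * ‖z‖ * ‖w‖ :=
      mul_le_mul h.2 (Complex.abs_re_le_norm w) (abs_nonneg _) (by positivity)
    nlinarith

theorem Sa.pos_mul (h : Sa z σ) {c : ℝ} (hc : 0 < c) : Sa (c * z) σ := by
  refine ⟨?_, ?_⟩
  · rw [Complex.re_ofReal_mul]; exact mul_pos hc h.1
  · rw [Complex.im_ofReal_mul, norm_mul, Complex.norm_real, Real.norm_eq_abs, abs_mul,
      mul_left_comm]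
    exact mul_le_mul_of_nonneg_left h.2 (abs_nonneg _)

theorem sa_one_add (h : ‖z‖ ≤ σ) (h1 : σ < 1) : Sa (1 + z) σ := by
  have h0 : 0 ≤ σ := (norm_nonneg _).trans h
  have h2 := Complex.abs_re_le_norm z
  have h3 : ‖z‖ ^ 2 ≤ σ ^ 2 := pow_le_pow_left₀ (norm_nonneg _) h 2
  have h4 : 0 ≤ 1 - σ ^ 2 := by nlinarith
  rw [wsa0_sq] at h3
  refine wsa0_of_sq ?_ h0 ?_
  · simp only [Complex.add_re, Complex.one_re]
    linarith [neg_abs_le z.re]
  · rw [wsa0_sq]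
    simp only [Complex.add_re, Complex.one_re, Complex.add_im, Complex.one_im, zero_add]
    nlinarith [sq_nonneg (σ ^ 2 + z.re), mul_nonneg h4 (sub_nonneg.2 h3)]

/-- the set `Sa · σ` is a convex cone -/
theorem Sa.add (h : Sa z σ) (h' : Sa w σ) (h0 : 0 ≤ σ) (h1 : σ < 1) : Sa (z + w) σ := by
  have h4 : 0 ≤ 1 - σ ^ 2 := by nlinarith
  have hre : 0 < (z + w).re := by rw [Complex.add_re]; exact add_pos h.1 h'.1
  have h2 : √(1 - σ ^ 2) * ‖z + w‖ ≤ (z + w).re := by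
    rw [Complex.add_re]
    have := mul_le_mul_of_nonneg_left (norm_add_le z w) (Real.sqrt_nonneg (1 - σ ^ 2))
    linarith [wsa0_re_ge h, wsa0_re_ge h']
  have h3 := pow_le_pow_left₀ (by positivity) h2 2
  rw [mul_pow, Real.sq_sqrt h4] at h3
  refine wsa0_of_sq hre h0 ?_
  nlinarith [wsa0_sq (z + w)]

theorem sa_real {c : ℝ} (hc : 0 < c) (h0 : 0 ≤ σ) : Sa (c : ℂ) σ := by
  refine ⟨by simpa using hc, ?_⟩
  rw [Complex.ofReal_im, abs_zero]
  positivity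

theorem Sa.re_ge (h : Sa z σ) : √(1 - σ ^ 2) * ‖z‖ ≤ z.re := wsa0_re_ge h

theorem Sa.slit (h : Sa z σ) : z ∈ Complex.slitPlane := Or.inl h.1

/-- If the sine of `θ0 - arg z` is at least `σ`, then `arg (z w) ∈ [θ0 - π, θ0]`. -/
theorem ang_lemma {cs sn : ℝ} (h1 : cs ^ 2 + sn ^ 2 = 1) (hcs : 0 < cs) (hsn : 0 < sn)
    (hw : Sa w σ) (h0 : 0 ≤ σ) (hz : σ * ‖z‖ ≤ sn * z.re - cs * z.im) :
    (z * w).im ≤ sn * ‖z * w‖ := by
  have key : 0 ≤ sn * (z * w).re - cs * (z * w).im := by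
    obtain ⟨p, hp⟩ : ∃ p, p = sn * z.re - cs * z.im := ⟨_, rfl⟩
    obtain ⟨a, ha⟩ : ∃ a, a = cs * z.re + sn * z.im := ⟨_, rfl⟩
    have e1 : sn * (z * w).re - cs * (z * w).im = w.re * p - w.im * a := by
      rw [Complex.mul_re, Complex.mul_im, hp, ha]; ring
    have e2 : a ^ 2 + p ^ 2 = ‖z‖ ^ 2 := by
      rw [wsa0_sq, hp, ha]; linear_combination (z.re ^ 2 + z.im ^ 2) * h1
    rw [← hp] at hz
    have hp0 : 0 ≤ p := le_trans (by positivity) hz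
    have e3 : σ ^ 2 * ‖z‖ ^ 2 ≤ p ^ 2 := by
      rw [← mul_pow]; exact pow_le_pow_left₀ (by positivity) hz 2
    have e4 := wsa0_im_sq hw
    have e5 := wsa0_sq w
    have e6 : w.im ^ 2 * ‖z‖ ^ 2 ≤ ‖w‖ ^ 2 * p ^ 2 := by
      have t1 := mul_le_mul_of_nonneg_right e4 (sq_nonneg ‖z‖)
      have t2 := mul_le_mul_of_nonneg_left e3 (sq_nonneg ‖w‖)
      linarith
    have e7 : (w.im * a) ^ 2 ≤ (w.re * p) ^ 2 := by
      rw [← e2, e5] at e6
      linarith [mul_pow w.im a 2, mul_pow w.re p 2]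
    have e8 := abs_le_of_sq_le_sq' e7 (mul_nonneg hw.1.le hp0)
    rw [e1]
    linarith [e8.2]
  generalize z * w = G at key ⊢
  rcases le_total G.im 0 with h2 | h2
  · exact h2.trans (by positivity)
  · refine (sq_le_sq₀ h2 (by positivity)).1 ?_
    have h3 : (cs * G.im) ^ 2 ≤ (sn * G.re) ^ 2 :=
      pow_le_pow_left₀ (by positivity) (by linarith) 2
    have h4 : G.im ^ 2 = (cs * G.im) ^ 2 + sn ^ 2 * G.im ^ 2 := by
      linear_combination (-G.im ^ 2) * h1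
    rw [mul_pow sn, wsa0_sq]
    rw [mul_pow sn] at h3
    linarith

/-- `z` in the closed fourth quadrant -/
theorem ang_quad (hw : Sa w σ) (h0 : 0 ≤ σ) (hre : 0 ≤ z.re) (him : z.im ≤ 0) :
    (z * w).im ≤ σ * ‖z * w‖ ∧ -(σ * ‖z * w‖) ≤ (z * w).re := by
  have c1 : |z.re * w.im| ≤ ‖z‖ * (σ * ‖w‖) := by
    rw [abs_mul]
    exact mul_le_mul (Complex.abs_re_le_norm z) hw.2 (abs_nonneg _) (norm_nonneg _)
  have c2 : |z.im * w.im| ≤ ‖z‖ * (σ * ‖w‖) := by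
    rw [abs_mul]
    exact mul_le_mul (Complex.abs_im_le_norm z) hw.2 (abs_nonneg _) (norm_nonneg _)
  have c3 : z.im * w.re ≤ 0 := mul_nonpos_of_nonpos_of_nonneg him hw.1.le
  have c4 : 0 ≤ z.re * w.re := mul_nonneg hre hw.1.le
  rw [Complex.mul_im, Complex.mul_re, norm_mul]
  constructor
  · linarith [le_abs_self (z.re * w.im)]
  · linarith [le_abs_self (z.im * w.im)]

end Pool.Agent.HillD
end

-- part Pool.Agent.P.MP_ae2765_an.WSa
section

/-! The angle predicate. -/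

namespace Pool.Agent.HillD
open Real Set Filter Topology Asymptotics

variable {z w : ℂ} {σ σ' : ℝ}

theorem wsa_sq (z : ℂ) : Complex.sqrt z ^ 2 = z := Complex.cpow_ofNat_inv_pow z 2

theorem wsa_norm (z : ℂ) : ‖Complex.sqrt z‖ = √‖z‖ := by
  have h : ‖z‖ = ‖Complex.sqrt z‖ ^ 2 := by rw [← norm_pow, wsa_sq]
  rw [h, sqrt_sq (norm_nonneg _)]

theorem wsa_re (z : ℂ) : (Complex.sqrt z).re = √((‖z‖ + z.re) / 2) := Complex.cpow_inv_two_re z

/-- the principal root of `i G` when `G` stays away from the positive imaginary axis -/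
theorem sqrt_I_mul {G : ℂ} {κ0 c : ℝ} (hG : G ≠ 0) (hκ : κ0 < 1) (h : G.im ≤ κ0 * ‖G‖)
    (hc : 0 ≤ c) (hc2 : 2 * c ^ 2 ≤ 1 - κ0) :
    Complex.I * G ∈ Complex.slitPlane ∧ ‖Complex.sqrt (Complex.I * G)‖ = √‖G‖ ∧
      0 < (Complex.sqrt (Complex.I * G)).re ∧
      c * ‖Complex.sqrt (Complex.I * G)‖ ≤ (Complex.sqrt (Complex.I * G)).re := by
  have hn : 0 < ‖G‖ := norm_pos_iff.2 hG
  have e1 : ‖Complex.I * G‖ = ‖G‖ := by rw [norm_mul, Complex.norm_I, one_mul]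
  have e2 : (Complex.I * G).re = -G.im := by simp
  have e3 : (Complex.I * G).im = G.re := by simp
  have hlt : G.im < ‖G‖ := by nlinarith
  refine ⟨?_, by rw [wsa_norm, e1], ?_, ?_⟩
  · rw [Complex.mem_slitPlane_iff, e2, e3]
    by_cases hr : G.re = 0
    · left
      have e4 : ‖G‖ = |G.im| := by
        rw [Complex.norm_eq_sqrt_sq_add_sq, hr]
        simp [sqrt_sq_eq_abs]
      rcases le_or_gt 0 G.im with h0 | h0
      · rw [abs_of_nonneg h0] at e4; linarith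
      · linarith
    · exact Or.inr hr
  · rw [wsa_re, e1, e2]
    exact sqrt_pos.2 (by linarith)
  · rw [wsa_re, wsa_norm, e1, e2]
    have e5 : c * √‖G‖ = √(c ^ 2 * ‖G‖) := by
      rw [sqrt_mul (sq_nonneg c), sqrt_sq hc]
    rw [e5]
    apply sqrt_le_sqrt
    nlinarith

theorem norm_csqrt (z : ℂ) : ‖Complex.sqrt z‖ = √‖z‖ := wsa_norm z

theorem csqrt_sq (z : ℂ) : Complex.sqrt z ^ 2 = z := wsa_sq z

/-- the three term form of the error potential -/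
theorem psi_eq {ω j X : ℂ} (hω : ω ≠ 0) (hP : PP ω j X ≠ 0) :
    psi ω j X = (1 - ω * j / PP ω j X) ^ 2 * (1 + 5 * (ω * j / PP ω j X)) / (8 * ω) -
      ω * j / PP ω j X * (1 - ω * j / PP ω j X) * (1 - 5 * (ω * j / PP ω j X)) / (4 * ω ^ 2) +
      (1 - 2 * j) * (3 - 5 * (ω * j / PP ω j X)) / (8 * ω * PP ω j X ^ 2) := by
  unfold psi QQ
  have e : PP ω j X = ω * j + (1 - 2 * j) * X := rfl
  generalize PP ω j X = P at hP e ⊢
  field_simp
  rw [e]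
  ring

theorem wsa_Pr {ω j : ℝ} (hω : 0 < ω) (hj : 0 < j) (hj2 : j < 1 / 2) (φ : ℝ) : 0 < Pr ω j φ := by
  unfold Pr
  have : 0 < 1 - 2 * j := by linarith
  positivity

theorem wsa_Qr {j : ℝ} (hj2 : j < 1 / 2) (φ : ℝ) : 0 < Qr j φ := by
  unfold Qr
  have : 0 < 1 - 2 * j := by linarith
  positivity

/-- real values on the real axis -/
theorem real_axis {ω j φ : ℝ} (hω : 0 < ω) (hj : 0 < j) (hj2 : j < 1 / 2) :
    0 < Pr ω j φ ∧ 0 < Qr j φ ∧ 0 < qr ω j φ ∧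
    PP ω j (Complex.cos φ ^ 2) = Pr ω j φ ∧ QQ j (Complex.cos φ ^ 2) = Qr j φ ∧
    qh ω j φ = qr ω j φ ∧ eh ω j φ = er ω j φ := by
  have hP := wsa_Pr hω hj hj2 φ
  have hQ := wsa_Qr hj2 φ
  have h0 : 0 < 2 * ω * Pr ω j φ / Qr j φ := by positivity
  have eP : PP ω j (Complex.cos φ ^ 2) = Pr ω j φ := by
    unfold PP Pr; push_cast; ring
  have eQ : QQ j (Complex.cos φ ^ 2) = Qr j φ := by
    unfold QQ Qr; push_cast; ring
  refine ⟨hP, hQ, sqrt_pos.2 h0, eP, eQ, ?_, ?_⟩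
  · have e : q2 ω j φ = ((2 * ω * Pr ω j φ / Qr j φ : ℝ) : ℂ) := by
      unfold q2; rw [eP, eQ]; push_cast; ring
    unfold qh qr
    rw [e, Complex.sqrt_of_nonneg (Complex.zero_le_real.2 h0.le), Complex.ofReal_re]
  · unfold eh er
    rw [eP]; push_cast; ring

theorem jj_bd {δ : ℝ} (hδ : 0 < δ) : 0 < jj δ ∧ jj δ < 1 / 2 := by
  unfold jj
  refine ⟨by positivity, ?_⟩
  exact one_div_lt_one_div_of_lt (by norm_num) (by nlinarith)

theorem qr_cont {ω j : ℝ} (hω : 0 < ω) (hj : 0 < j) (hj2 : j < 1 / 2) :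
    Continuous (qr ω j) ∧ Continuous (yv ω j) ∧ Continuous (bv j) ∧
      Continuous fun φ => ω * j / Pr ω j φ := by
  have cP : Continuous (Pr ω j) := by unfold Pr; fun_prop
  have cQ : Continuous (Qr j) := by unfold Qr; fun_prop
  have hP : ∀ φ, Pr ω j φ ≠ 0 := fun φ => (wsa_Pr hω hj hj2 φ).ne'
  have hQ : ∀ φ, Qr j φ ≠ 0 := fun φ => (wsa_Qr hj2 φ).ne'
  refine ⟨?_, ?_, ?_, continuous_const.div cP hP⟩
  · exact ((continuous_const.mul cP).div cQ hQ).sqrt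
  · exact Continuous.div (by fun_prop) cP hP
  · exact Continuous.div (by fun_prop) cQ hQ

/-- link with the coefficients of the real system -/
theorem cA_cB {δ ω : ℝ} (hδ : 0 < δ) (hω : 0 < ω) (φ : ℝ) :
    0 < cA (mm δ) ω φ ∧ cA (mm δ) ω φ * cB (mm δ) ω φ = qr ω (jj δ) φ ^ 2 ∧
      Dm (mm δ) φ = Qr (jj δ) φ / (2 * (1 - jj δ)) ∧
      ω * (1 - 2 * mm δ) + 2 * mm δ * cos φ ^ 2 = Pr ω (jj δ) φ / (1 - jj δ) := by
  obtain ⟨hj, hj2⟩ := jj_bd hδ
  have hP := wsa_Pr hω hj hj2 φ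
  have hQ := wsa_Qr hj2 φ
  have hp := pm_pos (mm_lt_one δ) φ
  have h1 : 0 < 1 - jj δ := by linarith
  have ej : 1 - jj δ = (1 + δ ^ 2) / (δ ^ 2 + 2) := by unfold jj; field_simp; ring
  have eD : Dm (mm δ) φ = Qr (jj δ) φ / (2 * (1 - jj δ)) := by
    rw [ej]; unfold Dm Qr mm jj
    rw [sin_sq]; field_simp; ring
  have eP : ω * (1 - 2 * mm δ) + 2 * mm δ * cos φ ^ 2 = Pr ω (jj δ) φ / (1 - jj δ) := by
    rw [ej]; unfold Pr mm jj
    field_simp; ring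
  refine ⟨div_pos hω hp, ?_, eD, eP⟩
  unfold cA cB qr
  rw [sq_sqrt (by positivity), eP, div_mul_div_comm, ← sq, pm_sq (mm_lt_one δ), eD]
  field_simp

end Pool.Agent.HillD
end

-- part Pool.Agent.P.MP_ae2765_an.WPath0
section

/-! Geometry of the complex path. -/

namespace Pool.Agent.HillD
open Real Set Filter Topology Asymptotics

/-- even part of the polynomial approximation of `cosh` -/
noncomputable def wpath0E (w : ℝ) : ℝ :=
  1 + w / 24 + w ^ 2 / 40320 + w ^ 3 / 479001600 + w ^ 4 / 20922789888000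

/-- odd part of the polynomial approximation of `cosh` -/
noncomputable def wpath0O (w : ℝ) : ℝ :=
  1 / 2 + w / 720 + w ^ 2 / 3628800 + w ^ 3 / 87178291200 + w ^ 4 / 6402373705728000

theorem wpath0_cosh {x y : ℂ} {w : ℝ} (hy : x ^ 2 = y) (hw : y ^ 2 = w) (h : ‖y‖ ≤ 20) :
    ‖Complex.cosh x - (wpath0E w + y * wpath0O w)‖ ≤ 1 / 100000 := by
  have h2 : ‖x‖ ^ 2 ≤ 20 := by rw [← norm_pow, hy]; exact h
  have h5 : ‖x‖ ≤ 5 := by nlinarith [norm_nonneg x]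
  have h20 : ‖x‖ ^ 20 ≤ 20 ^ 10 := by
    calc ‖x‖ ^ 20 = (‖x‖ ^ 2) ^ 10 := by ring
      _ ≤ 20 ^ 10 := by gcongr
  have key : ∀ u : ℂ, ‖u‖ = ‖x‖ →
      ‖Complex.exp u - ∑ m ∈ Finset.range 20, u ^ m / (m.factorial : ℂ)‖ ≤ 1 / 100000 := by
    intro u hu
    refine (Complex.exp_bound' (x := u) (n := 20) ?_).trans ?_
    · rw [hu]
      push_cast
      linarith
    · rw [hu]
      have : ((Nat.factorial 20 : ℕ) : ℝ) = 2432902008176640000 := by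
        norm_num [Nat.factorial]
      rw [this]
      linarith
  have e : Complex.cosh x - (wpath0E w + y * wpath0O w) =
      ((Complex.exp x - ∑ m ∈ Finset.range 20, x ^ m / (m.factorial : ℂ)) +
        (Complex.exp (-x) - ∑ m ∈ Finset.range 20, (-x) ^ m / (m.factorial : ℂ))) / 2 := by
    unfold wpath0E wpath0O Complex.cosh
    push_cast
    rw [← hw, ← hy]
    simp only [Finset.sum_range_succ, Finset.sum_range_zero, Nat.factorial]
    push_cast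
    ring
  rw [e, norm_div, Complex.norm_ofNat]
  have := norm_add_le (Complex.exp x - ∑ m ∈ Finset.range 20, x ^ m / (m.factorial : ℂ))
    (Complex.exp (-x) - ∑ m ∈ Finset.range 20, (-x) ^ m / (m.factorial : ℂ))
  have k1 := key x rfl
  have k2 := key (-x) (norm_neg x)
  linarith

theorem wpath0_sin (s : ℝ) : pX (π / 2) s =
    Complex.sin ((1 - Complex.I) * ((π * (1 - s) : ℝ) : ℂ) / 2) ^ 2 := by
  unfold pX pth
  rw [← Complex.cos_pi_div_two_sub]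
  congr 2
  push_cast
  ring

theorem wpath0_val (a : ℝ) : Complex.sin ((1 - Complex.I) * (a : ℂ) / 2) ^ 2 =
    (1 - Complex.cosh ((1 + Complex.I) * a)) / 2 := by
  have e : (1 + Complex.I) * (a : ℂ) = 2 * ((1 - Complex.I) * (a : ℂ) / 2) * Complex.I := by
    linear_combination (a : ℂ) * Complex.I_mul_I
  rw [e, Complex.cosh_mul_I, Complex.cos_two_mul, Complex.cos_sq']
  ring

theorem wpath0_norm (a : ℝ) : ((‖Complex.sin ((1 - Complex.I) * (a : ℂ) / 2) ^ 2‖ : ℝ) : ℂ) =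
    (Complex.cosh a - Complex.cosh (a * Complex.I)) / 2 := by
  set u : ℂ := (1 - Complex.I) * (a : ℂ) / 2 with hu
  have hc : (starRingEnd ℂ) u = (1 + Complex.I) * (a : ℂ) / 2 := by
    rw [hu]
    simp only [map_div₀, map_mul, map_sub, map_one, Complex.conj_I, Complex.conj_ofReal,
      map_ofNat, sub_neg_eq_add]
  have e1 : (1 + Complex.I) * (a : ℂ) / 2 - u = a * Complex.I := by rw [hu]; ring
  have e2 : (1 + Complex.I) * (a : ℂ) / 2 + u = a := by rw [hu]; ring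
  rw [norm_pow, ← Complex.normSq_eq_norm_sq, ← Complex.mul_conj, ← Complex.sin_conj, hc,
    Complex.cosh_mul_I, ← Complex.cos_mul_I, ← e1, Complex.cos_sub]
  nth_rewrite 4 [← e2]
  rw [Complex.cos_add]
  ring

/-- the path ending at `π / 2`, with `z = (π (1 - s)) ^ 2` -/
theorem pX90 {s z : ℝ} (hs : s ∈ Icc (0 : ℝ) 1) (hz : z = (π * (1 - s)) ^ 2) :
    0 ≤ z ∧ z ≤ 987 / 100 ∧ z / (987 / 100) ≤ (1 - s) ^ 2 ∧ (1 - s) ^ 2 ≤ z / (9869 / 1000) ∧
    |(pX (π / 2) s).re - z ^ 2 * (1 / 12 - z ^ 2 * (1 / 5040 - z ^ 2 *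
      (1 / 14968800 - 1 / 163459296000 * z ^ 2)))| ≤ 1 / 10000 ∧
    |-(pX (π / 2) s).im - z * (1 / 2 - z ^ 2 * (1 / 180 - z ^ 2 * (1 / 226800 - z ^ 2 *
      (1 / 1362160800 - 1 / 25009272288000 * z ^ 2))))| ≤ 1 / 10000 ∧
    |‖pX (π / 2) s‖ - z * (1 / 2 + z ^ 2 * (1 / 720 + z ^ 2 *
      (1 / 3628800 + 1 / 87178291200 * z ^ 2)))| ≤ 1 / 10000 := by
  have p1 : π ^ 2 ≤ 987 / 100 := by nlinarith [pi_lt_d4, pi_pos]
  have p2 : 9869 / 1000 ≤ π ^ 2 := by nlinarith [pi_gt_d4]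
  have s1 : (1 - s) ^ 2 ≤ 1 := by nlinarith [hs.1, hs.2]
  have s0 : 0 ≤ (1 - s) ^ 2 := sq_nonneg _
  have hz' : z = π ^ 2 * (1 - s) ^ 2 := by rw [hz]; ring
  have z0 : 0 ≤ z := by rw [hz]; exact sq_nonneg _
  have z1 : z ≤ 987 / 100 := by rw [hz']; nlinarith
  set a : ℝ := π * (1 - s) with ha
  have hza : (z : ℂ) = (a : ℂ) ^ 2 := by rw [hz]; push_cast; ring
  have c1 := wpath0_cosh (x := (1 + Complex.I) * a) (y := ((2 * z : ℝ) : ℂ) * Complex.I)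
    (w := -4 * z ^ 2)
    (by push_cast; rw [hza]; linear_combination (a : ℂ) ^ 2 * Complex.I_mul_I)
    (by push_cast; linear_combination 4 * (z : ℂ) ^ 2 * Complex.I_mul_I)
    (by rw [norm_mul, Complex.norm_I, mul_one, Complex.norm_real, Real.norm_eq_abs,
          abs_of_nonneg (by linarith)]
        linarith)
  have c2 := wpath0_cosh (x := (a : ℂ)) (y := (z : ℂ)) (w := z ^ 2) hza.symm
    (by push_cast; ring)
    (by rw [Complex.norm_real, Real.norm_eq_abs, abs_of_nonneg z0]; linarith)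
  have c3 := wpath0_cosh (x := (a : ℂ) * Complex.I) (y := -(z : ℂ)) (w := z ^ 2)
    (by rw [hza]; linear_combination (a : ℂ) ^ 2 * Complex.I_mul_I)
    (by push_cast; ring)
    (by rw [norm_neg, Complex.norm_real, Real.norm_eq_abs, abs_of_nonneg z0]; linarith)
  have hX : pX (π / 2) s = (1 - Complex.cosh ((1 + Complex.I) * a)) / 2 := by
    rw [wpath0_sin, wpath0_val]
  have hN : ((‖pX (π / 2) s‖ : ℝ) : ℂ) =
      (Complex.cosh a - Complex.cosh (a * Complex.I)) / 2 := by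
    rw [wpath0_sin, wpath0_norm]
  refine ⟨z0, z1, ?_, ?_, ?_, ?_, ?_⟩
  · rw [div_le_iff₀ (by norm_num), hz']
    nlinarith
  · rw [le_div_iff₀ (by norm_num), hz']
    nlinarith
  · have r := (Complex.abs_re_le_norm _).trans c1
    rw [hX]
    generalize Complex.cosh ((1 + Complex.I) * a) = C at r ⊢
    simp only [Complex.sub_re, Complex.add_re, Complex.mul_re, Complex.mul_im, Complex.ofReal_re,
      Complex.ofReal_im, Complex.I_re, Complex.I_im, Complex.div_ofNat_re, Complex.one_re,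
      mul_zero, zero_mul, sub_zero, mul_one, add_zero] at r ⊢
    unfold wpath0E at r
    rw [abs_le] at r ⊢
    constructor <;> nlinarith [r.1, r.2]
  · have r := (Complex.abs_im_le_norm _).trans c1
    rw [hX]
    generalize Complex.cosh ((1 + Complex.I) * a) = C at r ⊢
    simp only [Complex.sub_im, Complex.add_im, Complex.mul_re, Complex.mul_im, Complex.ofReal_re,
      Complex.ofReal_im, Complex.I_re, Complex.I_im, Complex.div_ofNat_im, Complex.one_im,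
      mul_zero, sub_zero, mul_one, add_zero, zero_add] at r ⊢
    unfold wpath0O at r
    rw [abs_le] at r ⊢
    constructor <;> nlinarith [r.1, r.2]
  · have e : ((‖pX (π / 2) s‖ - z * wpath0O (z ^ 2) : ℝ) : ℂ) =
        ((Complex.cosh a - (wpath0E (z ^ 2) + z * wpath0O (z ^ 2))) -
          (Complex.cosh (a * Complex.I) - (wpath0E (z ^ 2) + -(z : ℂ) * wpath0O (z ^ 2)))) / 2 := by
      rw [Complex.ofReal_sub, hN, Complex.ofReal_mul z]
      ring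
    have r : |‖pX (π / 2) s‖ - z * wpath0O (z ^ 2)| ≤ 1 / 100000 := by
      rw [← Real.norm_eq_abs, ← Complex.norm_real, e, norm_div, Complex.norm_ofNat]
      have := norm_sub_le (Complex.cosh a - (wpath0E (z ^ 2) + z * wpath0O (z ^ 2)))
        (Complex.cosh (a * Complex.I) - (wpath0E (z ^ 2) + -(z : ℂ) * wpath0O (z ^ 2)))
      linarith
    have z9 : z ^ 9 ≤ 10 ^ 9 := by gcongr; linarith
    have z9' : 0 ≤ z ^ 9 := by positivity
    unfold wpath0O at r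
    rw [abs_le] at r ⊢
    constructor <;> nlinarith [r.1, r.2]

end Pool.Agent.HillD
end

-- part Pool.Agent.P.MP_ae2765_an.WPath1
section

/-! Geometry of the complex path. -/

namespace Pool.Agent.HillD
open Real Set Filter Topology Asymptotics

lemma wpath1_h {t : ℝ} (ht : t ∈ Icc (0 : ℝ) π) : cos t * sinh t - sin t * cosh t ≤ 0 := by
  have hd : ∀ x : ℝ, HasDerivAt (fun t => cos t * sinh t - sin t * cosh t)
      (-2 * (sin x * sinh x)) x := by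
    intro x
    have := ((hasDerivAt_cos x).mul (hasDerivAt_sinh x)).sub
      ((hasDerivAt_sin x).mul (hasDerivAt_cosh x))
    exact this.congr_deriv (by ring)
  have hA : AntitoneOn (fun t => cos t * sinh t - sin t * cosh t) (Icc 0 π) := by
    refine antitoneOn_of_deriv_nonpos (convex_Icc 0 π) (by fun_prop)
      (fun x _ => (hd x).differentiableAt.differentiableWithinAt) ?_
    intro x hx
    rw [interior_Icc] at hx
    rw [(hd x).deriv]
    have h1 := sin_nonneg_of_nonneg_of_le_pi hx.1.le hx.2.le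
    have h2 := sinh_nonneg_iff.mpr hx.1.le
    nlinarith [mul_nonneg h1 h2]
  have := hA ⟨le_rfl, pi_pos.le⟩ ht ht.1
  simpa using this

lemma wpath1_f {t : ℝ} (ht : t ∈ Icc (0 : ℝ) π) : cos t * cosh t ≤ 1 := by
  have hd : ∀ x : ℝ, HasDerivAt (fun t => cos t * cosh t)
      (cos x * sinh x - sin x * cosh x) x := by
    intro x
    have := (hasDerivAt_cos x).mul (hasDerivAt_cosh x)
    exact this.congr_deriv (by ring)
  have hA : AntitoneOn (fun t => cos t * cosh t) (Icc 0 π) := by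
    refine antitoneOn_of_deriv_nonpos (convex_Icc 0 π) (by fun_prop)
      (fun x _ => (hd x).differentiableAt.differentiableWithinAt) ?_
    intro x hx
    rw [(hd x).deriv]
    exact wpath1_h (interior_subset hx)
  have := hA ⟨le_rfl, pi_pos.le⟩ ht ht.1
  simpa using this

lemma wpath1_cosh (t : ℝ) : 1 + t ^ 2 / 2 ≤ cosh t := by
  have h1 : cosh t = 1 + 2 * sinh (t / 2) ^ 2 := by
    have := cosh_two_mul (t / 2)
    rw [show 2 * (t / 2) = t by ring, cosh_sq] at this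
    linarith
  have h2 : (t / 2) ^ 2 ≤ sinh (t / 2) ^ 2 := by
    rw [sq_le_sq, abs_sinh]
    exact self_le_sinh_iff.mpr (abs_nonneg _)
  rw [h1]
  nlinarith

lemma wpath1_k {t : ℝ} (ht : 0 ≤ t) : 2 * t ≤ sin t + sinh t := by
  have hd : ∀ x : ℝ, HasDerivAt (fun t => sin t + sinh t - 2 * t)
      (cos x + cosh x - 2) x := by
    intro x
    have := ((hasDerivAt_sin x).add (hasDerivAt_sinh x)).sub
      ((hasDerivAt_id x).const_mul 2)
    exact this.congr_deriv (by ring)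
  have hA : Monotone (fun t => sin t + sinh t - 2 * t) := by
    refine monotone_of_deriv_nonneg (fun x => (hd x).differentiableAt) ?_
    intro x
    rw [(hd x).deriv]
    have h1 := wpath1_cosh x
    have h2 := one_sub_sq_div_two_le_cos (x := x)
    linarith
  have := hA ht
  simp only [sin_zero, sinh_zero, mul_zero, add_zero, sub_zero] at this
  linarith

lemma wpath1_sin (u v : ℝ) :
    ‖Complex.sin (u + v * Complex.I)‖ ^ 2 = sin u ^ 2 + sinh v ^ 2 := by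
  rw [Complex.sin_add_mul_I, ← Complex.ofReal_sin, ← Complex.ofReal_cos, ← Complex.ofReal_sinh,
    ← Complex.ofReal_cosh, ← Complex.ofReal_mul, ← Complex.ofReal_mul, Complex.sq_norm,
    Complex.normSq_add_mul_I]
  have h1 := cosh_sq v
  have h2 := sin_sq_add_cos_sq u
  have h3 : cos u ^ 2 = 1 - sin u ^ 2 := by linarith
  rw [mul_pow, mul_pow, h1, h3]
  ring

lemma wpath1_pth (φ1 s : ℝ) :
    pth φ1 s = ((φ1 - φ1 * (1 - s) : ℝ) : ℂ) + ((φ1 * (1 - s) : ℝ) : ℂ) * Complex.I := by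
  unfold pth
  push_cast
  ring

lemma wpath1_sq (x b : ℝ) : Complex.cos (x + b * Complex.I) ^ 2 =
    (((1 + cos (2 * x) * cosh (2 * b)) / 2 : ℝ) : ℂ) +
      ((-(2 * (cos x * sin x) * (cosh b * sinh b)) : ℝ) : ℂ) * Complex.I := by
  have e : (1 + cos (2 * x) * cosh (2 * b)) / 2 =
      (cos x * cosh b) ^ 2 - (sin x * sinh b) ^ 2 := by
    have h1 := cosh_sq b
    have h2 : sin x ^ 2 = 1 - cos x ^ 2 := by linarith [sin_sq_add_cos_sq x]
    rw [cos_two_mul, cosh_two_mul, mul_pow, mul_pow, h1, h2]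
    ring
  rw [e, Complex.cos_add_mul_I]
  push_cast
  linear_combination (Complex.sin x * Complex.sinh b) ^ 2 * Complex.I_sq

theorem pX_quad {φ1 s : ℝ} (h0 : π / 4 ≤ φ1) (h1 : φ1 ≤ π / 2) (hs : s ∈ Icc (0 : ℝ) 1) :
    0 ≤ (pX φ1 s - (cos φ1 ^ 2 : ℝ)).re ∧ (pX φ1 s - (cos φ1 ^ 2 : ℝ)).im ≤ 0 ∧
      2 * (φ1 * (1 - s)) ^ 2 ≤ ‖pX φ1 s - (cos φ1 ^ 2 : ℝ)‖ := by
  have hπ := pi_pos
  have ha : 0 ≤ φ1 := by linarith
  obtain ⟨b, hb⟩ : ∃ b, b = φ1 * (1 - s) := ⟨_, rfl⟩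
  have hb0 : 0 ≤ b := hb ▸ mul_nonneg ha (by linarith [hs.2])
  have hb1 : b ≤ φ1 := by rw [hb]; nlinarith [mul_nonneg ha hs.1]
  have hX : pX φ1 s = Complex.cos (((φ1 - b : ℝ) : ℂ) + (b : ℂ) * Complex.I) ^ 2 := by
    rw [pX, wpath1_pth, ← hb]
  rw [← hb, hX]
  refine ⟨?_, ?_, ?_⟩
  · rw [wpath1_sq]
    simp only [Complex.sub_re, Complex.add_re, Complex.ofReal_re, Complex.mul_re, Complex.I_re,
      Complex.ofReal_im, Complex.I_im, mul_zero, zero_mul, sub_zero, add_zero]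
    have e1 : cos φ1 ^ 2 = (1 + cos (2 * φ1)) / 2 := by rw [cos_two_mul]; ring
    have e2 : 2 * (φ1 - b) = 2 * φ1 - 2 * b := by ring
    rw [e1, e2, cos_sub]
    have c1 : cos (2 * φ1) ≤ 0 := cos_nonpos_of_pi_div_two_le_of_le (by linarith) (by linarith)
    have c2 : 0 ≤ sin (2 * φ1) := sin_nonneg_of_nonneg_of_le_pi (by linarith) (by linarith)
    have c3 : 0 ≤ sin (2 * b) := sin_nonneg_of_nonneg_of_le_pi (by linarith) (by linarith)
    have c4 := wpath1_f (t := 2 * b) ⟨by linarith, by linarith⟩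
    have c5 := (cosh_pos (2 * b)).le
    have c6 := mul_nonneg (mul_nonneg c2 c3) c5
    have c7 := mul_nonneg_of_nonpos_of_nonpos c1 (sub_nonpos.mpr c4)
    nlinarith
  · rw [wpath1_sq]
    simp only [Complex.sub_im, Complex.add_im, Complex.ofReal_re, Complex.mul_im, Complex.I_re,
      Complex.ofReal_im, Complex.I_im, mul_zero, mul_one, sub_zero, add_zero, zero_add]
    have c1 : 0 ≤ cos (φ1 - b) := cos_nonneg_of_mem_Icc ⟨by linarith, by linarith⟩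
    have c2 : 0 ≤ sin (φ1 - b) := sin_nonneg_of_nonneg_of_le_pi (by linarith) (by linarith)
    have c3 := (cosh_pos b).le
    have c4 := sinh_nonneg_iff.mpr hb0
    have := mul_nonneg (mul_nonneg c1 c2) (mul_nonneg c3 c4)
    linarith
  · have e : Complex.cos (((φ1 - b : ℝ) : ℂ) + (b : ℂ) * Complex.I) ^ 2 - (cos φ1 ^ 2 : ℝ) =
        -(Complex.sin (((2 * φ1 - b : ℝ) : ℂ) + (b : ℂ) * Complex.I) *
          Complex.sin (((-b : ℝ) : ℂ) + (b : ℂ) * Complex.I)) := by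
      obtain ⟨z, hz⟩ : ∃ z : ℂ, z = ((φ1 - b : ℝ) : ℂ) + (b : ℂ) * Complex.I := ⟨_, rfl⟩
      have e1 : ((2 * φ1 - b : ℝ) : ℂ) + (b : ℂ) * Complex.I = z + φ1 := by
        rw [hz]; push_cast; ring
      have e2 : ((-b : ℝ) : ℂ) + (b : ℂ) * Complex.I = z - φ1 := by
        rw [hz]; push_cast; ring
      rw [e1, e2, ← hz, Complex.sin_add, Complex.sin_sub]
      push_cast
      have s1 := Complex.sin_sq_add_cos_sq z
      have s2 := Complex.sin_sq_add_cos_sq (φ1 : ℂ)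
      linear_combination (Complex.cos φ1) ^ 2 * s1 - (Complex.cos z) ^ 2 * s2
    rw [e, norm_neg, norm_mul]
    have n1 := wpath1_sin (2 * φ1 - b) b
    have n2 := wpath1_sin (-b) b
    rw [sin_neg, neg_sq] at n2
    have c0 : 0 ≤ sin b := sin_nonneg_of_nonneg_of_le_pi hb0 (by linarith)
    have c1 : sin b ≤ sin (2 * φ1 - b) := by
      have := sin_sub_sin (2 * φ1 - b) b
      rw [show (2 * φ1 - b - b) / 2 = φ1 - b by ring,
        show (2 * φ1 - b + b) / 2 = φ1 by ring] at this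
      have d1 : 0 ≤ cos φ1 := cos_nonneg_of_mem_Icc ⟨by linarith, by linarith⟩
      have d2 : 0 ≤ sin (φ1 - b) := sin_nonneg_of_nonneg_of_le_pi (by linarith) (by linarith)
      nlinarith [mul_nonneg d2 d1]
    have c2 : ‖Complex.sin (((-b : ℝ) : ℂ) + (b : ℂ) * Complex.I)‖ ≤
        ‖Complex.sin (((2 * φ1 - b : ℝ) : ℂ) + (b : ℂ) * Complex.I)‖ := by
      refine abs_le_of_sq_le_sq' ?_ (norm_nonneg _) |>.2
      rw [n1, n2]
      nlinarith
    have c3 := wpath1_k hb0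
    have c4 : 2 * b ^ 2 ≤ sin b ^ 2 + sinh b ^ 2 := by
      nlinarith [sq_nonneg (sin b - sinh b), mul_self_le_mul_self (by linarith) c3]
    calc 2 * b ^ 2 ≤ _ := c4
      _ = _ := n2.symm
      _ ≤ _ := by
        rw [sq]
        exact mul_le_mul_of_nonneg_right c2 (norm_nonneg _)

/-- continuity of the integrand in `Wk.int` -/
theorem wk_cont {φ1 : ℝ} {ω j : ℂ} (hω : ω ≠ 0) (hP : ∀ s ∈ Icc (0 : ℝ) 1, PP ω j (pX φ1 s) ≠ 0)
    (hQ : ∀ s ∈ Icc (0 : ℝ) 1, QQ j (pX φ1 s) ≠ 0) :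
    ContinuousOn (fun s => ‖psi ω j (pX φ1 s)‖ ^ 2 * √‖G2 φ1 ω j s‖) (Icc 0 1) := by
  have hX : Continuous (pX φ1) := by
    unfold pX pth
    fun_prop
  have hPc : Continuous fun s => PP ω j (pX φ1 s) := by
    unfold PP
    fun_prop
  have hQc : Continuous fun s => QQ j (pX φ1 s) := by
    unfold QQ
    fun_prop
  have h1 : ContinuousOn (fun s => psi ω j (pX φ1 s)) (Icc 0 1) := by
    unfold psi
    refine ContinuousOn.div (Continuous.continuousOn (by unfold PP QQ; fun_prop))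
      (Continuous.continuousOn (by unfold PP; fun_prop)) ?_
    intro s hs
    exact mul_ne_zero (mul_ne_zero (by norm_num) hω) (pow_ne_zero _ (hP s hs))
  have h2 : ContinuousOn (fun s => G2 φ1 ω j s) (Icc 0 1) := by
    unfold G2
    exact ContinuousOn.div (continuous_const.mul hPc).continuousOn hQc.continuousOn hQ
  exact (h1.norm.pow 2).mul h2.norm.sqrt

end Pool.Agent.HillD
end

-- part Pool.Agent.P.MP_ae2765_an.WPath
section

/-! Geometry of the complex path. -/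

namespace Pool.Agent.HillD
open Real Set Filter Topology Asymptotics

/-- The parameters on the complex tangent line, `D = δ0 ^ 2`, `ε = 1 / (1 + D)`, `t = D / ω0`. -/
theorem line_par {δ0 ω0 s r : ℝ} {τ : ℂ} (hδ : 0 < δ0) (hω : 0 < ω0) (hs0 : 0 ≤ s) (hs1 : s ≤ 1)
    (hr : r ≤ 1 / 5) (hτ : ‖τ‖ ≤ r) : ∃ ρ : ℂ,
      ρ * (1 + s * τ) = (1 + τ) ^ 2 ∧ ‖ρ - 1‖ ≤ r * (2 + r) ∧ Sa ρ (2 * r) ∧
      ‖ρ⁻¹ - 1‖ ≤ r * ((1 - s) / (1 - r) ^ 2 + 1 / (1 - r)) ∧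
      Sa ((1 + s * τ) / (1 + τ)) r ∧ lJ δ0 τ ≠ 0 ∧ lΩ ω0 s τ ≠ 0 ∧
      1 - 2 * lJ δ0 τ = lJ δ0 τ * lΩ ω0 s τ * ((δ0 ^ 2 / ω0 : ℝ) * ρ) ∧
      (∀ X : ℂ, PP (lΩ ω0 s τ) (lJ δ0 τ) X =
        lJ δ0 τ * lΩ ω0 s τ * (1 + (δ0 ^ 2 / ω0 : ℝ) * ρ * X)) ∧
      ∀ X : ℂ, QQ (lJ δ0 τ) X = lJ δ0 τ * (1 + δ0 ^ 2 : ℝ) *
        (2 * (1 / (1 + δ0 ^ 2) : ℝ) + (1 - 1 / (1 + δ0 ^ 2) : ℝ) * (1 + X) * (1 + τ) ^ 2) := by
  have hr0 : 0 ≤ r := (norm_nonneg _).trans hτ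
  have hsn : ‖(s : ℂ) * τ‖ ≤ s * r := by
    rw [norm_mul, Complex.norm_real, Real.norm_eq_abs, abs_of_nonneg hs0]
    exact mul_le_mul_of_nonneg_left hτ hs0
  have hsr : s * r ≤ 1 / 5 := by nlinarith
  have hv : 1 - s * r ≤ ‖1 + (s : ℂ) * τ‖ := by
    have := norm_sub_le (1 + (s : ℂ) * τ) (s * τ)
    rw [add_sub_cancel_right, norm_one] at this
    linarith
  have hu : 1 - r ≤ ‖1 + τ‖ := by
    have := norm_sub_le (1 + τ) τ
    rw [add_sub_cancel_right, norm_one] at this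
    linarith
  have hv0 : 0 < ‖1 + (s : ℂ) * τ‖ := by linarith
  have hu0 : 0 < ‖1 + τ‖ := by linarith
  have hvne : 1 + (s : ℂ) * τ ≠ 0 := norm_pos_iff.1 hv0
  have hvne' : 1 + τ * (s : ℂ) ≠ 0 := by rwa [mul_comm]
  have hune : 1 + τ ≠ 0 := norm_pos_iff.1 hu0
  have h1s : ‖(1 - (s : ℂ))‖ = 1 - s := by
    rw [← Complex.ofReal_one, ← Complex.ofReal_sub, Complex.norm_real, Real.norm_eq_abs,
      abs_of_nonneg (by linarith)]
  have hA : Sa (1 + τ) r := sa_one_add hτ (by linarith)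
  have hB : Sa ((1 + τ) / (1 + s * τ)) r := by
    have e : (1 + τ) / (1 + s * τ) = 1 + (1 - s) * τ / (1 + s * τ) := by
      field_simp
      ring
    rw [e]
    refine sa_one_add ?_ (by linarith)
    rw [norm_div, norm_mul, h1s, div_le_iff₀ hv0]
    have t1 : (1 - s) * ‖τ‖ ≤ (1 - s) * r := mul_le_mul_of_nonneg_left hτ (by linarith)
    have t2 : r * (1 - s * r) ≤ r * ‖1 + (s : ℂ) * τ‖ := mul_le_mul_of_nonneg_left hv hr0
    have t3 : 0 ≤ r * s * (1 - r) := mul_nonneg (mul_nonneg hr0 hs0) (by linarith)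
    nlinarith
  have hD : (0 : ℝ) < δ0 ^ 2 := by positivity
  have hden : (δ0 : ℂ) ^ 2 * (1 + τ) ^ 2 + 2 ≠ 0 := by
    have h2 := ((hA.mul hA hr0 hr0 (by linarith)).pos_mul hD).1
    intro h
    have h3 : ((δ0 ^ 2 : ℝ) : ℂ) * ((1 + τ) * (1 + τ)) = -2 := by
      push_cast
      linear_combination h
    rw [h3] at h2
    norm_num at h2
  have hωc : (ω0 : ℂ) ≠ 0 := Complex.ofReal_ne_zero.2 hω.ne'
  have hE : (1 : ℂ) + (δ0 : ℂ) ^ 2 ≠ 0 := by
    have : ((1 + δ0 ^ 2 : ℝ) : ℂ) ≠ 0 := Complex.ofReal_ne_zero.2 (by positivity)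
    simpa using this
  have hkey : 1 - 2 * lJ δ0 τ = lJ δ0 τ * lΩ ω0 s τ *
      ((δ0 ^ 2 / ω0 : ℝ) * ((1 + τ) ^ 2 / (1 + s * τ))) := by
    unfold lJ lΩ
    push_cast
    field_simp
    ring
  refine ⟨(1 + τ) ^ 2 / (1 + s * τ), div_mul_cancel₀ _ hvne, ?_, ?_, ?_, ?_, ?_, ?_, hkey,
    fun X => ?_, fun X => ?_⟩
  · have e : (1 + τ) ^ 2 / (1 + s * τ) - 1 = τ * (1 + (1 - s) + τ) / (1 + s * τ) := by
      field_simp
      ring
    rw [e, norm_div, norm_mul, div_le_iff₀ hv0]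
    have t0 : ‖1 + (1 - (s : ℂ)) + τ‖ ≤ 2 - s + r := by
      have := norm_add₃_le (a := (1 : ℂ)) (b := 1 - (s : ℂ)) (c := τ)
      rw [norm_one, h1s] at this
      linarith
    have t1 : ‖τ‖ * ‖1 + (1 - (s : ℂ)) + τ‖ ≤ r * (2 - s + r) :=
      mul_le_mul hτ t0 (norm_nonneg _) hr0
    have t2 : r * (2 + r) * (1 - s * r) ≤ r * (2 + r) * ‖1 + (s : ℂ) * τ‖ :=
      mul_le_mul_of_nonneg_left hv (by positivity)
    have t3 : 0 ≤ r * s * (1 - r * (2 + r)) :=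
      mul_nonneg (mul_nonneg hr0 hs0) (by nlinarith)
    nlinarith
  · have e : (1 + τ) ^ 2 / (1 + s * τ) = (1 + τ) * ((1 + τ) / (1 + s * τ)) := by ring
    rw [e, two_mul]
    exact hA.mul hB hr0 hr0 (by linarith)
  · have e : ((1 + τ) ^ 2 / (1 + s * τ))⁻¹ - 1
        = -(τ * (1 + τ)⁻¹) * (1 + (1 - s) * (1 + τ)⁻¹) := by
      field_simp
      ring
    have hr1 : 0 < 1 - r := by linarith
    have hw : ‖(1 + τ)⁻¹‖ ≤ (1 - r)⁻¹ := by
      rw [norm_inv]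
      exact inv_anti₀ hr1 hu
    have t0 : ‖1 + (1 - (s : ℂ)) * (1 + τ)⁻¹‖ ≤ 1 + (1 - s) * (1 - r)⁻¹ := by
      refine (norm_add_le _ _).trans ?_
      rw [norm_one, norm_mul, h1s]
      have := mul_le_mul_of_nonneg_left hw (show 0 ≤ 1 - s by linarith)
      linarith
    have t1 : ‖τ * (1 + τ)⁻¹‖ ≤ r * (1 - r)⁻¹ := by
      rw [norm_mul]
      exact mul_le_mul hτ hw (norm_nonneg _) hr0
    rw [e, norm_mul, norm_neg]
    refine (mul_le_mul t1 t0 (norm_nonneg _) (by positivity)).trans (le_of_eq ?_)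
    field_simp
    ring
  · have := hB.inv
    rwa [inv_div] at this
  · exact one_div_ne_zero hden
  · exact mul_ne_zero hωc hvne
  · unfold PP
    rw [hkey]
    ring
  · unfold QQ lJ
    push_cast
    field_simp
    ring

end Pool.Agent.HillD
end
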