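import Pool.Agent.K.MP_ae2765_an.C6
import Pool.Agent.P.MP_4c4e6e_co.EngRun

-- part Pool.Agent.P.MP_ae2765_an.WR1t
section

/-! First region: the angle condition along the path. -/

namespace Pool.Agent.HillD
open Real Set Filter Topology Asymptotics

theorem wr1t_sa {z : ℂ} {σ a c : ℝ} (h : Sa z σ) (h0 : 0 ≤ σ) (h1 : σ < 1) (ha : 0 < a)
    (hc : 0 ≤ c) : Sa (a + c * z) σ := by
  rcases hc.eq_or_lt with rfl | hc
  · simpa using sa_real ha h0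
  · exact (sa_real ha h0).add (h.pos_mul hc) h0 h1

theorem wr1t_pt {δ0 ω0 s : ℝ} {τ : ℂ} (hδ : 0 < δ0) (hω : 0 < ω0)
    (hs0 : 0 ≤ s) (hs1 : s ≤ 1) (hτ : ‖τ‖ ≤ 13 / 100) (φ : ℝ) :
    q2 (lΩ ω0 s τ) (lJ δ0 τ) φ ∈ Complex.slitPlane ∧
      ‖eh (lΩ ω0 s τ) (lJ δ0 τ) φ ^ 2 / (2 * qh (lΩ ω0 s τ) (lJ δ0 τ) φ)‖ ≤
        3744 / 10000 * (δ0 ^ 2 / ω0) ^ 2 / (ω0 * √(2 / (1 + δ0 ^ 2))) *
          (sin φ ^ 2 * cos φ ^ 2) := by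
  obtain ⟨ρ, -, h2, h3, -, -, hJ, hΩ, hk, hP, hQ⟩ := line_par hδ hω hs0 hs1 (by norm_num) hτ
  have hE : 0 < 1 + δ0 ^ 2 := by positivity
  have hε : 0 < 1 / (1 + δ0 ^ 2) := by positivity
  have hε1 : 1 / (1 + δ0 ^ 2) ≤ 1 := by rw [div_le_one hE]; nlinarith
  have ht : 0 < δ0 ^ 2 / ω0 := by positivity
  have hX : Complex.cos φ ^ 2 = ((cos φ ^ 2 : ℝ) : ℂ) := by push_cast; rfl
  have hX0 : 0 ≤ cos φ ^ 2 := sq_nonneg _
  have hX1 : cos φ ^ 2 ≤ 1 := cos_sq_le_one φ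
  have hS : (ω0 * √(2 / (1 + δ0 ^ 2))) ^ 2 = 2 * ω0 ^ 2 * (1 / (1 + δ0 ^ 2)) := by
    rw [mul_pow, sq_sqrt (by positivity)]; ring
  have hS0 : 0 < ω0 * √(2 / (1 + δ0 ^ 2)) := by positivity
  have hEε : ((1 + δ0 ^ 2 : ℝ) : ℂ) * ((1 / (1 + δ0 ^ 2) : ℝ) : ℂ) = 1 := by
    rw [← Complex.ofReal_mul, mul_one_div_cancel hE.ne', Complex.ofReal_one]
  generalize ω0 * √(2 / (1 + δ0 ^ 2)) = S at hS hS0 ⊢
  generalize 1 / (1 + δ0 ^ 2) = ε at *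
  generalize δ0 ^ 2 / ω0 = t at *
  generalize 1 + δ0 ^ 2 = E at *
  have hsτ : ‖(s : ℂ) * τ‖ ≤ 13 / 100 := by
    rw [norm_mul, Complex.norm_real, Real.norm_of_nonneg hs0]
    nlinarith [norm_nonneg τ]
  have a1 : Sa (1 + s * τ) (13 / 100) := sa_one_add hsτ (by norm_num)
  have a2 : Sa (1 + τ) (13 / 100) := sa_one_add hτ (by norm_num)
  have a3 := a1.mul a1 (by norm_num) (by norm_num) (by norm_num)
  have a4 := a2.mul a2 (by norm_num) (by norm_num) (by norm_num)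
  have a5 := wr1t_sa h3 (by norm_num) (by norm_num) one_pos (mul_nonneg ht.le hX0)
  have a6 := wr1t_sa a4 (by norm_num) (by norm_num) (a := 2 * ε) (by positivity)
    (c := (1 - ε) * (1 + cos φ ^ 2)) (mul_nonneg (by linarith) (by positivity))
  set p : ℂ := (1 : ℝ) + ((t * cos φ ^ 2 : ℝ) : ℂ) * ρ with hp
  set Q : ℂ := ((2 * ε : ℝ) : ℂ) + (((1 - ε) * (1 + cos φ ^ 2) : ℝ) : ℂ) * ((1 + τ) * (1 + τ))
    with hQd
  have eP : PP (lΩ ω0 s τ) (lJ δ0 τ) (Complex.cos φ ^ 2) = lJ δ0 τ * lΩ ω0 s τ * p := by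
    rw [hP, hp]; push_cast; ring
  have eQ : QQ (lJ δ0 τ) (Complex.cos φ ^ 2) = lJ δ0 τ * E * Q := by
    rw [hQ, hQd]; push_cast; ring
  have hE' : (E : ℂ) ≠ 0 := left_ne_zero_of_mul_eq_one hEε
  have eq2 : q2 (lΩ ω0 s τ) (lJ δ0 τ) φ =
      ((S ^ 2 : ℝ) : ℂ) * ((1 + s * τ) * (1 + s * τ) * p * Q⁻¹) := by
    have := a6.ne
    rw [q2, eP, eQ, hS, show ((2 * ω0 ^ 2 * ε : ℝ) : ℂ) = 2 * ω0 ^ 2 * (E : ℂ)⁻¹ by
      rw [← eq_inv_of_mul_eq_one_right hEε]; push_cast; ring]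
    unfold lΩ
    field_simp
  have eeh : eh (lΩ ω0 s τ) (lJ δ0 τ) φ = ((t * cos φ * sin φ / 2 : ℝ) : ℂ) * ρ / p := by
    have := a5.ne
    rw [eh, eP, hk]
    push_cast
    field_simp
  refine ⟨?_, ?_⟩
  · rw [eq2]
    exact (((a3.mul a5 (by norm_num) (by norm_num) (by norm_num)).mul a6.inv (by norm_num)
      (by norm_num) (by norm_num)).pos_mul (by positivity)).slit
  have n1 : 1 ≤ ‖p‖ := by
    refine le_trans ?_ (Complex.re_le_norm p)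
    rw [hp, Complex.add_re, Complex.ofReal_re, Complex.re_ofReal_mul]
    nlinarith [mul_nonneg (mul_nonneg ht.le hX0) h3.1.le]
  have n2 : ‖ρ‖ ≤ 12769 / 10000 := by
    have := norm_add_le (ρ - 1) 1
    rw [sub_add_cancel, norm_one] at this
    linarith
  have n3 : 87 / 100 ≤ ‖1 + (s : ℂ) * τ‖ := by
    have := norm_sub_le (1 + (s : ℂ) * τ) (s * τ)
    rw [add_sub_cancel_right, norm_one] at this
    linarith
  have n4 : ‖1 + τ‖ ≤ 113 / 100 := by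
    have := norm_add_le 1 τ
    rw [norm_one] at this
    linarith
  have n5 : ‖Q‖ ≤ 2 * (113 / 100) ^ 2 := by
    refine (norm_add_le _ _).trans ?_
    rw [norm_mul, norm_mul, Complex.norm_real, Complex.norm_real, Real.norm_of_nonneg (by positivity),
      Real.norm_of_nonneg (mul_nonneg (by linarith) (by positivity))]
    have b1 : ‖1 + τ‖ * ‖1 + τ‖ ≤ (113 / 100) ^ 2 := by nlinarith [norm_nonneg (1 + τ)]
    have b2 : (1 - ε) * (1 + cos φ ^ 2) ≤ (1 - ε) * 2 :=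
      mul_le_mul_of_nonneg_left (by linarith) (by linarith)
    have b3 := mul_le_mul b2 b1 (by positivity) (by linarith)
    nlinarith
  have n6 : 0 < ‖Q‖ := norm_pos_iff.2 a6.ne
  have n7 : 5444 / 10000 * S ≤ ‖qh (lΩ ω0 s τ) (lJ δ0 τ) φ‖ := by
    rw [qh, norm_csqrt, eq2]
    refine le_sqrt_of_sq_le ?_
    rw [norm_mul, norm_mul, norm_mul, norm_mul, norm_inv, Complex.norm_real,
      Real.norm_of_nonneg (by positivity), mul_pow, mul_comm, ← div_eq_mul_inv]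
    refine mul_le_mul_of_nonneg_left ?_ (by positivity)
    rw [le_div_iff₀ n6]
    have b1 : (87 / 100) ^ 2 ≤ ‖1 + (s : ℂ) * τ‖ * ‖1 + (s : ℂ) * τ‖ := by nlinarith
    have b2 := mul_le_mul b1 n1 zero_le_one (by positivity)
    nlinarith
  have n8 : ‖eh (lΩ ω0 s τ) (lJ δ0 τ) φ‖ ≤ |t * cos φ * sin φ / 2| * (12769 / 10000) := by
    rw [eeh, norm_div, norm_mul, Complex.norm_real, Real.norm_eq_abs]
    exact (div_le_self (by positivity) n1).trans (by gcongr)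
  rw [norm_div, norm_pow, norm_mul, Complex.norm_ofNat]
  calc _ ≤ (|t * cos φ * sin φ / 2| * (12769 / 10000)) ^ 2 / (2 * (5444 / 10000 * S)) := by
        gcongr
    _ = (12769 / 10000) ^ 2 / (8 * (5444 / 10000)) * (t ^ 2 / S * (sin φ ^ 2 * cos φ ^ 2)) := by
        rw [mul_pow, sq_abs]; field_simp; ring
    _ ≤ 3744 / 10000 * (t ^ 2 / S * (sin φ ^ 2 * cos φ ^ 2)) := by
        exact mul_le_mul_of_nonneg_right (by norm_num) (by positivity)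
    _ = _ := by ring

/-- the real axis -/
theorem r1_tt {δ0 ω0 s : ℝ} {τ : ℂ} (hδ : 0 < δ0) (hω : 0 < ω0)
    (hs0 : 0 ≤ s) (hs1 : s ≤ 1) (hτ : ‖τ‖ ≤ 13 / 100) :
    (∀ φ ∈ Icc (0 : ℝ) (π / 2), q2 (lΩ ω0 s τ) (lJ δ0 τ) φ ∈ Complex.slitPlane) ∧
      ‖Tt (π / 2) (lΩ ω0 s τ) (lJ δ0 τ)‖ ≤
        7352 / 100000 * (δ0 ^ 2 / ω0) ^ 2 / (ω0 * √(2 / (1 + δ0 ^ 2))) := by
  refine ⟨fun φ _ => (wr1t_pt hδ hω hs0 hs1 hτ φ).1, ?_⟩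
  rw [Tt, norm_neg]
  refine (intervalIntegral.norm_integral_le_of_norm_le (by positivity)
    (Eventually.of_forall fun φ _ => (wr1t_pt hδ hω hs0 hs1 hτ φ).2)
    (Continuous.intervalIntegrable (by fun_prop) _ _)).trans ?_
  rw [intervalIntegral.integral_const_mul, integral_sin_sq_mul_cos_sq,
    show 4 * (π / 2) = 2 * π by ring, sin_two_pi, mul_zero, sin_zero, mul_div_assoc, mul_div_assoc]
  have h0 : 0 ≤ (δ0 ^ 2 / ω0) ^ 2 / (ω0 * √(2 / (1 + δ0 ^ 2))) := by positivity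
  nlinarith [mul_le_mul_of_nonneg_left pi_lt_d4.le h0]

end Pool.Agent.HillD
end

-- part Pool.Agent.P.MP_ae2765_an.Eng2
section

/-! A two level branch and bound on top of the affine arithmetic checker: a common initial
program is evaluated once for each box in the first two variables, and the third variable is
subdivided afterwards. -/

namespace Pool.Agent.P.MP_4c4e6e_co.Eng

/-- straight line programs -/
inductive Pre where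
  | nil
  | lt (e : E) (p : Pre)
  | rng (lo hi m : Nat) (p : Pre)
  | keep (l : List Nat) (p : Pre)

/-- meaning of a straight line program followed by the property `Φ` of the final environment -/
def Pre.holds : Pre → (List ℝ → Prop) → List ℝ → Prop
  | .nil, Φ, env => Φ env
  | .lt e p, Φ, env => ∀ v : ℝ, v = e.val env → p.holds Φ (v :: env)
  | .rng lo hi m p, Φ, env =>
      ∀ v : ℝ, (lo : ℝ) / (m : ℝ) ≤ v → v ≤ (hi : ℝ) / (m : ℝ) → p.holds Φ (v :: env)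
  | .keep l p, Φ, env => p.holds Φ (l.map fun i => env.getD i 0)

theorem Pre.holds_mono {Φ Ψ : List ℝ → Prop} (h : ∀ r, Φ r → Ψ r) (p : Pre) :
    ∀ env, p.holds Φ env → p.holds Ψ env := by
  induction p with
  | nil => exact h
  | lt e p ih => exact fun env H v hv => ih _ (H v hv)
  | rng lo hi m p ih => exact fun env H v h1 h2 => ih _ (H v h1 h2)
  | keep l p ih => exact fun env H => ih _ H

/-- evaluate the nine numbers of an affine form -/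
noncomputable def frc (x : AF) (k : AF → Bool) : Bool :=
  AF.rec (fun cp cn ap an bp bn dp dn r =>
    fN cp fun cp => fN cn fun cn => fN ap fun ap => fN an fun an => fN bp fun bp =>
    fN bn fun bn => fN dp fun dp => fN dn fun dn => fN r fun r =>
      k ⟨cp, cn, ap, an, bp, bn, dp, dn, r⟩) x

theorem frc_eq (x : AF) (k : AF → Bool) : frc x k = k x := by
  cases x
  simp only [frc, fN_eq]

noncomputable def keepK (env : List AF) (l : List Nat) : (List AF → Bool) → Bool :=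
  List.rec (fun k => k [])
    (fun i _ ih k => getK env i fun x => frc x fun y => ih fun xs => k (y :: xs)) l

noncomputable def runPre (p : Pre) : List AF → (List AF → Bool) → Bool :=
  Pre.rec (motive := fun _ => List AF → (List AF → Bool) → Bool)
    (fun env k => k env)
    (fun e _ f env k => evK env e fun x => f (x :: env) k)
    (fun lo hi m _ f env k =>
      f (⟨Nat.div (Nat.mul (Nat.add lo hi) 549755813888) m, 0, 0, 0, 0, 0, 0, 0,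
        Nat.add (Nat.div (Nat.mul (Nat.sub hi lo) 549755813888) m) 2⟩ :: env) k)
    (fun l _ f env k => keepK env l fun env' => f env' k) p

variable {e1 e2 e3 : ℝ}

theorem keepK_ok {l : List AF} {r : List ℝ} (H : List.Forall₂ (Rep e1 e2 e3) l r)
    (is : List Nat) : ∀ k : List AF → Bool, keepK l is k = true →
      ∃ l', List.Forall₂ (Rep e1 e2 e3) l' (is.map fun i => r.getD i 0) ∧ k l' = true := by
  induction is with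
  | nil => exact fun k h => ⟨[], List.Forall₂.nil, h⟩
  | cons i is ih =>
    intro k h
    obtain ⟨z, hz, h⟩ := getK_ok H i _ h
    rw [frc_eq] at h
    obtain ⟨l', hl, h⟩ := ih _ h
    exact ⟨z :: l', List.Forall₂.cons hz hl, h⟩

theorem runPre_ok (h1 : |e1| ≤ 1) (h2 : |e2| ≤ 1) (h3 : |e3| ≤ 1) (p : Pre)
    (k : List AF → Bool) : ∀ {l : List AF} {r : List ℝ}, List.Forall₂ (Rep e1 e2 e3) l r →
      runPre p l k = true →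
      p.holds (fun r' => ∃ l', List.Forall₂ (Rep e1 e2 e3) l' r' ∧ k l' = true) r := by
  induction p with
  | nil => exact fun H h => ⟨_, H, h⟩
  | lt e p ih =>
    intro l r H h v hv
    obtain ⟨a, ha, h⟩ := evK_ok h1 h2 h3 H e _ h
    exact ih (List.Forall₂.cons (hv ▸ ha) H) h
  | rng lo hi m p ih =>
    intro l r H h v hv1 hv2
    exact ih (List.Forall₂.cons (rng_ok hv1 hv2) H) h
  | keep is p ih =>
    intro l r H h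
    obtain ⟨l', hl, h⟩ := keepK_ok H is _ h
    exact ih hl h

/-- subdivision of the third variable along a binary certificate -/
noncomputable def bb3 (q : Pg) (env : List AF) (fuel : Nat) :
    Nat → Nat → Nat → (Nat → Bool) → Bool :=
  Nat.rec (fun _ _ _ _ => false)
    (fun _ ih w l g k =>
      fN (Nat.div w 2) fun w' =>
      Nat.rec
        (Bool.rec false (k w') (run q (⟨Nat.add l g, 0, 0, 0, 0, 0, g, 0, 0⟩ :: env)))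
        (fun _ _ => fN (Nat.div (Nat.succ g) 2) fun g' => fN (Nat.add l g) fun hi =>
          ih w' l g' fun w'' => ih w'' hi g' k)
        (Nat.mod w 2)) fuel

/-- the certificate left after one tree -/
noncomputable def skip3 (fuel : Nat) : Nat → Nat :=
  Nat.rec (fun w => w)
    (fun _ ih w => Nat.rec (Nat.div w 2) (fun _ _ => ih (ih (Nat.div w 2))) (Nat.mod w 2)) fuel

theorem bb3_succ (q : Pg) (env : List AF) (f w l g : ℕ) (k : ℕ → Bool) :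
    bb3 q env (f + 1) w l g k =
      fN (Nat.div w 2) fun w' =>
      Nat.rec
        (Bool.rec false (k w') (run q (⟨Nat.add l g, 0, 0, 0, 0, 0, g, 0, 0⟩ :: env)))
        (fun _ _ => fN (Nat.div (Nat.succ g) 2) fun g' => fN (Nat.add l g) fun hi =>
          bb3 q env f w' l g' fun w'' => bb3 q env f w'' hi g' k)
        (Nat.mod w 2) := rfl

theorem skip3_succ (f w : ℕ) : skip3 (f + 1) w =
    Nat.rec (Nat.div w 2) (fun _ _ => skip3 f (skip3 f (Nat.div w 2))) (Nat.mod w 2) := rfl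

theorem bb3_skip (q : Pg) (env : List AF) (fuel : ℕ) : ∀ (w l g : ℕ) (k : ℕ → Bool),
    bb3 q env fuel w l g k = true → k (skip3 fuel w) = true := by
  induction fuel with
  | zero => intro w l g k h; exact absurd h (by simp [bb3])
  | succ f ih =>
    intro w l g k h
    rw [bb3_succ, fN_eq] at h
    rw [skip3_succ]
    generalize Nat.mod w 2 = j at h ⊢
    rcases j with _ | j
    · exact (andB h).2
    · have h' := h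
      simp only [fN_eq] at h'
      exact ih _ _ _ _ (ih _ _ _ _ h')

theorem bb3_leaf (q : Pg) (x : ℝ) (fuel : ℕ) : ∀ (w l g : ℕ), (l : ℝ) ≤ x * 2 ^ 40 →
    x * 2 ^ 40 ≤ l + 2 * g → ∃ l' g' : ℕ, (l' : ℝ) ≤ x * 2 ^ 40 ∧ x * 2 ^ 40 ≤ l' + 2 * g' ∧
      ∀ (env : List AF) (k : ℕ → Bool), bb3 q env fuel w l g k = true →
        run q (⟨Nat.add l' g', 0, 0, 0, 0, 0, g', 0, 0⟩ :: env) = true := by
  induction fuel with
  | zero => exact fun w l g a b => ⟨l, g, a, b, fun env k h => absurd h (by simp [bb3])⟩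
  | succ f ih =>
    intro w l g a b
    have hd : Nat.div (Nat.succ g) 2 = (g + 1) / 2 := rfl
    have ha : Nat.add l g = l + g := rfl
    rcases hj : Nat.mod w 2 with _ | j
    · refine ⟨l, g, a, b, fun env k h => ?_⟩
      rw [bb3_succ, fN_eq, hj] at h
      exact (andB h).1
    · have hg : (g : ℝ) ≤ 2 * (((g + 1) / 2 : ℕ) : ℝ) := by
        exact_mod_cast (by omega : g ≤ 2 * ((g + 1) / 2))
      rcases le_total (x * 2 ^ 40) ((l + g : ℕ) : ℝ) with c | c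
      · obtain ⟨l', g', a', b', H⟩ := ih (Nat.div w 2) l ((g + 1) / 2) a
          (by push_cast at c; linarith)
        refine ⟨l', g', a', b', fun env k h => ?_⟩
        rw [bb3_succ, fN_eq, hj] at h
        simp only [fN_eq] at h
        exact H env _ h
      · obtain ⟨l', g', a', b', H⟩ := ih (skip3 f (Nat.div w 2)) (l + g) ((g + 1) / 2) c
          (by push_cast; linarith)
        refine ⟨l', g', a', b', fun env k h => ?_⟩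
        rw [bb3_succ, fN_eq, hj] at h
        simp only [fN_eq] at h
        exact H env _ (bb3_skip _ _ _ _ _ _ _ h)

/-- Both final programs hold after the common first part, on the box in the first two variables and
the given ranges of the third. -/
def Cov2 (p : Pre) (q : Pg) (l3 g3 : ℕ) (q' : Pg) (l4 g4 : ℕ) (l1 g1 l2 g2 : ℕ) : Prop :=
  ∀ x1 x2 : ℝ, (l1 : ℝ) ≤ x1 * 2 ^ 40 → x1 * 2 ^ 40 ≤ l1 + 2 * g1 →
    (l2 : ℝ) ≤ x2 * 2 ^ 40 → x2 * 2 ^ 40 ≤ l2 + 2 * g2 →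
    (∀ x3 : ℝ, (l3 : ℝ) ≤ x3 * 2 ^ 40 → x3 * 2 ^ 40 ≤ l3 + 2 * g3 →
      p.holds (fun r => q.holds (x3 :: r)) [x2, x1]) ∧
    (∀ x3 : ℝ, (l4 : ℝ) ≤ x3 * 2 ^ 40 → x3 * 2 ^ 40 ≤ l4 + 2 * g4 →
      p.holds (fun r => q'.holds (x3 :: r)) [x2, x1])

noncomputable def leaf2 (p : Pre) (q : Pg) (l3 g3 : Nat) (q' : Pg) (l4 g4 : Nat)
    (w l1 g1 l2 g2 : Nat) : Bool :=
  runPre p [⟨Nat.add l2 g2, 0, 0, 0, g2, 0, 0, 0, 0⟩, ⟨Nat.add l1 g1, 0, g1, 0, 0, 0, 0, 0, 0⟩]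
    fun env => bb3 q env 12 w l3 g3 fun w' => bb3 q' env 12 w' l4 g4 fun _ => true

theorem leaf_aux {p : Pre} {q : Pg} {l3 g3 w l1 g1 l2 g2 : ℕ} {k : List AF → Bool}
    (hk : ∀ env, k env = true → ∃ k', bb3 q env 12 w l3 g3 k' = true)
    (h : runPre p [⟨Nat.add l2 g2, 0, 0, 0, g2, 0, 0, 0, 0⟩,
      ⟨Nat.add l1 g1, 0, g1, 0, 0, 0, 0, 0, 0⟩] k = true) {x1 x2 x3 : ℝ}
    (a1 : (l1 : ℝ) ≤ x1 * 2 ^ 40) (b1 : x1 * 2 ^ 40 ≤ l1 + 2 * g1)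
    (a2 : (l2 : ℝ) ≤ x2 * 2 ^ 40) (b2 : x2 * 2 ^ 40 ≤ l2 + 2 * g2)
    (a3 : (l3 : ℝ) ≤ x3 * 2 ^ 40) (b3 : x3 * 2 ^ 40 ≤ l3 + 2 * g3) :
    p.holds (fun r => q.holds (x3 :: r)) [x2, x1] := by
  obtain ⟨l', g', a', b', H⟩ := bb3_leaf q x3 12 w l3 g3 a3 b3
  obtain ⟨e1, h1, k1⟩ := noise a1 b1
  obtain ⟨e2, h2, k2⟩ := noise a2 b2
  obtain ⟨e3, h3, k3⟩ := noise a' b'
  refine Pre.holds_mono ?_ p _ (runPre_ok h1 h2 h3 p k (r := [x2, x1]) ?_ h)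
  · rintro r ⟨env, he, hk'⟩
    obtain ⟨k', hb⟩ := hk env hk'
    refine run_ok h1 h2 h3 q (List.Forall₂.cons ?_ he) (H env k' hb)
    simp [Rep, k3]
  · refine List.Forall₂.cons ?_ (List.Forall₂.cons ?_ List.Forall₂.nil)
    · simp [Rep, k2]
    · simp [Rep, k1]

theorem leaf2_ok {p : Pre} {q q' : Pg} {l3 g3 l4 g4 w l1 g1 l2 g2 : ℕ}
    (h : leaf2 p q l3 g3 q' l4 g4 w l1 g1 l2 g2 = true) : Cov2 p q l3 g3 q' l4 g4 l1 g1 l2 g2 :=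
  fun _ _ a1 b1 a2 b2 =>
    ⟨fun _ a3 b3 => leaf_aux (fun _ hk => ⟨_, hk⟩) h a1 b1 a2 b2 a3 b3,
      fun _ a3 b3 => leaf_aux (w := skip3 12 w) (fun _ hk => ⟨_, bb3_skip _ _ _ _ _ _ _ hk⟩)
        h a1 b1 a2 b2 a3 b3⟩

/-- Outer branch and bound. The certificate is read in base `2 ^ 64`: digit 0 splits the first
variable, digit 1 the second, and a digit `d + 2` is a leaf with inner certificate `d`. -/
noncomputable def bb2 (p : Pre) (q : Pg) (l3 g3 : Nat) (q' : Pg) (l4 g4 : Nat) (fuel : Nat) :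
    Nat → Nat → Nat → Nat → Nat → (Nat → Bool) → Bool :=
  Nat.rec (fun _ _ _ _ _ _ => false)
    (fun _ ih w l1 g1 l2 g2 k =>
      fN (Nat.div w 18446744073709551616) fun w' =>
      fN (Nat.mod w 18446744073709551616) fun d =>
      Bool.rec
        (Bool.rec
          (Bool.rec false (k w') (leaf2 p q l3 g3 q' l4 g4 (Nat.sub d 2) l1 g1 l2 g2))
          (fN (Nat.div (Nat.succ g2) 2) fun g => fN (Nat.add l2 g2) fun hi =>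
            ih w' l1 g1 l2 g fun w'' => ih w'' l1 g1 hi g k)
          (Nat.beq d 1))
        (fN (Nat.div (Nat.succ g1) 2) fun g => fN (Nat.add l1 g1) fun hi =>
          ih w' l1 g l2 g2 fun w'' => ih w'' hi g l2 g2 k)
        (Nat.beq d 0)) fuel

theorem cov2_1 {p : Pre} {q q' : Pg} {l3 g3 l4 g4 l1 g1 l2 g2 g m : ℕ}
    (h1 : Cov2 p q l3 g3 q' l4 g4 l1 g l2 g2) (h2 : Cov2 p q l3 g3 q' l4 g4 m g l2 g2)
    (hm : m ≤ l1 + 2 * g) (hg : l1 + 2 * g1 ≤ m + 2 * g) :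
    Cov2 p q l3 g3 q' l4 g4 l1 g1 l2 g2 := by
  intro x1 x2 a1 b1 a2 b2
  have hm' : (m : ℝ) ≤ l1 + 2 * g := by exact_mod_cast hm
  have hg' : (l1 : ℝ) + 2 * g1 ≤ m + 2 * g := by exact_mod_cast hg
  rcases le_total (x1 * 2 ^ 40) (m : ℝ) with h | h
  · exact h1 x1 x2 a1 (by linarith) a2 b2
  · exact h2 x1 x2 h (by linarith) a2 b2

theorem cov2_2 {p : Pre} {q q' : Pg} {l3 g3 l4 g4 l1 g1 l2 g2 g m : ℕ}
    (h1 : Cov2 p q l3 g3 q' l4 g4 l1 g1 l2 g) (h2 : Cov2 p q l3 g3 q' l4 g4 l1 g1 m g)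
    (hm : m ≤ l2 + 2 * g) (hg : l2 + 2 * g2 ≤ m + 2 * g) :
    Cov2 p q l3 g3 q' l4 g4 l1 g1 l2 g2 := by
  intro x1 x2 a1 b1 a2 b2
  have hm' : (m : ℝ) ≤ l2 + 2 * g := by exact_mod_cast hm
  have hg' : (l2 : ℝ) + 2 * g2 ≤ m + 2 * g := by exact_mod_cast hg
  rcases le_total (x2 * 2 ^ 40) (m : ℝ) with h | h
  · exact h1 x1 x2 a1 b1 a2 (by linarith)
  · exact h2 x1 x2 a1 b1 h (by linarith)

theorem bb2_aux (p : Pre) (q : Pg) (l3 g3 : ℕ) (q' : Pg) (l4 g4 : ℕ) (fuel : ℕ) :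
    ∀ (w l1 g1 l2 g2 : ℕ) (k : ℕ → Bool), bb2 p q l3 g3 q' l4 g4 fuel w l1 g1 l2 g2 k = true →
      Cov2 p q l3 g3 q' l4 g4 l1 g1 l2 g2 ∧ ∃ w', k w' = true := by
  induction fuel with
  | zero => intro w l1 g1 l2 g2 k h; exact absurd h (by simp [bb2])
  | succ f ih =>
    intro w l1 g1 l2 g2 k h
    have hs : bb2 p q l3 g3 q' l4 g4 (f + 1) w l1 g1 l2 g2 k =
      fN (Nat.div w 18446744073709551616) fun w' =>
      fN (Nat.mod w 18446744073709551616) fun d =>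
      Bool.rec
        (Bool.rec
          (Bool.rec false (k w') (leaf2 p q l3 g3 q' l4 g4 (Nat.sub d 2) l1 g1 l2 g2))
          (fN (Nat.div (Nat.succ g2) 2) fun g => fN (Nat.add l2 g2) fun hi =>
            bb2 p q l3 g3 q' l4 g4 f w' l1 g1 l2 g fun w'' =>
              bb2 p q l3 g3 q' l4 g4 f w'' l1 g1 hi g k)
          (Nat.beq d 1))
        (fN (Nat.div (Nat.succ g1) 2) fun g => fN (Nat.add l1 g1) fun hi =>
          bb2 p q l3 g3 q' l4 g4 f w' l1 g l2 g2 fun w'' =>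
            bb2 p q l3 g3 q' l4 g4 f w'' hi g l2 g2 k)
        (Nat.beq d 0) := rfl
    rw [hs, fN_eq, fN_eq] at h
    have hd : ∀ g : ℕ, Nat.div (Nat.succ g) 2 = (g + 1) / 2 := fun _ => rfl
    have ha : ∀ a b : ℕ, Nat.add a b = a + b := fun _ _ => rfl
    generalize Nat.beq (Nat.mod w 18446744073709551616) 0 = c0 at h
    generalize Nat.beq (Nat.mod w 18446744073709551616) 1 = c1 at h
    cases c0
    · cases c1
      · obtain ⟨h1, h2⟩ := andB h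
        exact ⟨leaf2_ok h1, _, h2⟩
      · have h' := h
        simp only [fN_eq] at h'
        obtain ⟨c1, w1, h'⟩ := ih _ _ _ _ _ _ h'
        obtain ⟨c2, w2, h'⟩ := ih _ _ _ _ _ _ h'
        exact ⟨cov2_2 c1 c2 (by rw [hd, ha]; omega) (by rw [hd, ha]; omega), _, h'⟩
    · have h' := h
      simp only [fN_eq] at h'
      obtain ⟨c1, w1, h'⟩ := ih _ _ _ _ _ _ h'
      obtain ⟨c2, w2, h'⟩ := ih _ _ _ _ _ _ h'
      exact ⟨cov2_1 c1 c2 (by rw [hd, ha]; omega) (by rw [hd, ha]; omega), _, h'⟩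

theorem bb2_ok {p : Pre} {q q' : Pg} {l3 g3 l4 g4 fuel w l1 g1 l2 g2 : ℕ}
    (h : bb2 p q l3 g3 q' l4 g4 fuel w l1 g1 l2 g2 (fun _ => true) = true) :
    Cov2 p q l3 g3 q' l4 g4 l1 g1 l2 g2 :=
  (bb2_aux p q l3 g3 q' l4 g4 fuel w l1 g1 l2 g2 _ h).1

end Pool.Agent.P.MP_4c4e6e_co.Eng
end

-- part Pool.Agent.P.MP_ae2765_an.Prog
section

/-! The programs to be checked. -/

namespace Pool.Agent.HillD.Num
open Pool.Agent.P.MP_4c4e6e_co.Eng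

def pAng : Pg :=
  (.lt (.sub (.c 1 1) (.v 1))
  (.lt (.sq (.v 1))
  (.rng 0 1 5000
  (.rng 0 1 5000
  (.rng 0 1 5000
  (.lt (.sub (.add (.mul (.v 3) (.sub (.c 1 12) (.mul (.v 3) (.sub (.c 1 5040) (.mul (.v 3) (.sub (.c 1 14968800) (.sm 1 163459296000 (.v 3)))))))) (.v 2)) (.c 1 10000))
  (.lt (.sub (.add (.mul (.v 6) (.sub (.c 1 2) (.mul (.v 4) (.sub (.c 1 180) (.mul (.v 4) (.sub (.c 1 226800) (.mul (.v 4) (.sub (.c 1 1362160800) (.sm 1 25009272288000 (.v 4)))))))))) (.v 2)) (.c 1 10000))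
  (.lt (.sub (.add (.mul (.v 7) (.add (.c 1 2) (.mul (.v 5) (.add (.c 1 720) (.mul (.v 5) (.add (.c 1 3628800) (.sm 1 87178291200 (.v 5)))))))) (.v 2)) (.c 1 10000))
  (.lt (.mul (.v 10) (.v 0))
  (.lt (.mul (.v 11) (.v 3))
  (.lt (.sqrt (.add (.add (.c 1 1) (.sm 2 1 (.v 0))) (.sq (.v 1))))
  (.lt (.add (.add (.c 1 1) (.v 12)) (.mul (.v 10) (.v 5)))
  (.lt (.mul (.v 11) (.v 5))
  (.lt (.sqrt (.add (.sq (.v 1)) (.sq (.v 0))))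
  (.lt (.add (.mul (.add (.c 1 1) (.v 4)) (.v 2)) (.mul (.mul (.v 16) (.v 7)) (.v 1)))
  (.lt (.sub (.mul (.add (.c 1 1) (.v 5)) (.v 2)) (.mul (.mul (.v 17) (.v 8)) (.v 3)))
  (.lt (.sub (.sub (.sm 231 281 (.v 1)) (.sm 160 281 (.v 0))) (.sm 2769 10000 (.mul (.v 7) (.v 2))))
  (.ite (.sub (.v 0) (.mul (.v 6) (.add (.sm 13 50 (.v 3)) (.sm 803 1250 (.v 18)))))
  .tru
  (.ite (.sub (.v 0) (.mul (.v 6) (.mul (.v 16) (.add (.sm 13 50 (.v 3)) (.sm 2769 10000 (.sqrt (.add (.add (.c 1 1) (.sm 2 1 (.v 11))) (.sq (.v 9)))))))))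
  .tru
  .fls)))))))))))))))))))

def pSup : Pg :=
  (.lt (.sq (.v 2))
  (.lt (.sub (.c 1 1) (.v 0))
  (.lt (.sq (.v 1))
  (.lt (.sq (.v 1))
  (.lt (.mul (.mul (.v 3) (.v 2)) (.sub (.v 5) (.c 3 10)))
  (.lt (.sub (.c 1 1) (.v 5))
  (.lt (.mul (.sm 37 100 (.v 0)) (.v 5))
  (.lt (.mul (.sq (.v 1)) (.v 1))
  (.lt (.add (.add (.v 5) (.sm 2 1 (.v 3))) (.v 4))
  (.lt (.sqrt (.v 0))
  (.lt (.mul (.v 1) (.v 0))
  (.lt (.sub (.c 3 1) (.sm 5 1 (.v 11)))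
  (.lt (.add (.sqrt (.add (.add (.add (.mul (.sq (.v 0)) (.v 9)) (.sm 6 1 (.mul (.v 0) (.v 7)))) (.sm 9 1 (.v 8))) (.c 1 50))) (.sm 5 1 (.v 5)))
  (.lt (.add (.sqrt (.add (.add (.add (.mul (.sq (.v 7)) (.v 10)) (.sm 2 1 (.mul (.v 7) (.v 8)))) (.v 9)) (.c 1 50))) (.v 6))
  (.lt (.add (.c 1 1) (.sm 5 1 (.v 14)))
  (.lt (.add (.sqrt (.add (.add (.add (.mul (.sq (.v 0)) (.v 12)) (.sm 2 1 (.mul (.v 0) (.v 10)))) (.v 11)) (.c 1 50))) (.sm 5 1 (.v 8)))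
  (.lt (.sub (.c 1 1) (.sm 5 1 (.v 16)))
  (.lt (.add (.sqrt (.add (.add (.add (.mul (.sq (.v 0)) (.v 14)) (.sm 2 1 (.mul (.v 0) (.v 12)))) (.v 13)) (.c 1 50))) (.sm 5 1 (.v 10)))
  (.ite (.sub (.mul (.add (.c 16 5) (.sm 5 2 (.v 10))) (.v 7)) (.mul (.v 15) (.v 5)))
  (.ite (.sub (.mul (.mul (.sm 707 500 (.add (.c 33 2) (.sm 23 1 (.v 10)))) (.mul (.v 7) (.v 9))) (.sqrt (.v 8))) (.mul (.mul (.mul (.v 15) (.v 20)) (.sq (.v 5))) (.add (.v 17) (.sm 2 1 (.v 16)))))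
  (.ite (.sub (.sm 13 2 (.v 7)) (.mul (.sq (.v 4)) (.v 2)))
  (.ite (.sub (.sm 4 1 (.v 7)) (.mul (.mul (.add (.mul (.v 18) (.v 17)) (.v 11)) (.v 4)) (.v 0)))
  .tru
  .fls)
  .fls)
  .fls)
  .fls)))))))))))))))))))

def pC2 : Pg :=
  (.lt (.sq (.v 2))
  (.lt (.sq (.v 2))
  (.ite (.sub (.mul (.sm 311 5 (.v 1)) (.sq (.v 0))) (.c 25 4))
  .tru
  (.ite (.sub (.mul (.sm 153 10 (.v 1)) (.v 0)) (.c 5 2))
  .tru
  (.lt (.sm 133 250 (.v 0))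
  (.lt (.sm 25 26 (.add (.sm 1 5 (.sq (.v 0))) (.c 21 10000)))
  (.lt (.sm 625 1352 (.sq (.add (.sm 22 125 (.mul (.v 2) (.v 5))) (.c 9 500))))
  (.lt (.add (.add (.add (.sm 11 500 (.v 2)) (.v 0)) (.sm 1 2 (.v 1))) (.sq (.v 1)))
  (.lt (.sqrt (.add (.c 1 1) (.v 5)))
  (.ite (.sub (.sm 1767 1000 (.sub (.v 7) (.mul (.sm 2 1 (.v 9)) (.inv (.add (.v 0) (.v 9)))))) (.sm 20 3 (.mul (.mul (.v 6) (.v 5)) (.v 1))))
  .tru
  (.lt (.mul (.v 9) (.inv (.add (.c 1 1) (.v 0))))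
  (.lt (.mul (.sm 6 1 (.sub (.c 1 1) (.sq (.v 0)))) (.inv (.add (.add (.c 1 1) (.sm 4 1 (.v 0))) (.sq (.v 0)))))
  (.lt (.sub (.sm 1 2 (.mul (.sub (.c 1 1) (.v 9)) (.sub (.c 4 1) (.v 9)))) (.c 11 500))
  (.ite (.v 0)
  (.ite (.sub (.sm 5 2 (.mul (.v 0) (.v 1))) (.mul (.mul (.v 8) (.v 4)) (.add (.sm 10 3 (.v 10)) (.c 800 9))))
  .tru
  .fls)
  .fls))))))))))))))

def errBody : Pg :=
  (.lt (.sq (.v 0))
  (.rng 0 1 5000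
  (.rng 0 1 5000
  (.rng 0 1 5000
  (.lt (.sub (.add (.mul (.v 3) (.sub (.c 1 12) (.mul (.v 3) (.sub (.c 1 5040) (.mul (.v 3) (.sub (.c 1 14968800) (.sm 1 163459296000 (.v 3)))))))) (.v 2)) (.c 1 10000))
  (.lt (.sub (.add (.mul (.v 5) (.sub (.c 1 2) (.mul (.v 4) (.sub (.c 1 180) (.mul (.v 4) (.sub (.c 1 226800) (.mul (.v 4) (.sub (.c 1 1362160800) (.sm 1 25009272288000 (.v 4)))))))))) (.v 2)) (.c 1 10000))
  (.lt (.sub (.add (.mul (.v 6) (.add (.c 1 2) (.mul (.v 5) (.add (.c 1 720) (.mul (.v 5) (.add (.c 1 3628800) (.sm 1 87178291200 (.v 5)))))))) (.v 2)) (.c 1 10000))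
  (.lt (.mul (.v 10) (.v 0))
  (.lt (.mul (.v 11) (.v 3))
  (.lt (.sq (.v 1))
  (.lt (.sm 2769 10000 (.v 2))
  (.lt (.sq (.v 4))
  (.lt (.sqrt (.add (.add (.c 1 1) (.sm 2 1 (.v 3))) (.v 2)))
  (.lt (.sub (.v 0) (.v 2))
  (.lt (.inv (.v 0))
  (.lt (.add (.sqrt (.add (.sub (.c 17 4) (.sm 12 1 (.v 6))) (.sm 9 1 (.v 5)))) (.sm 3 1 (.v 4)))
  (.lt (.sm 12769 10000 (.add (.mul (.v 4) (.add (.sqrt (.add (.add (.c 36 1) (.sm 12 1 (.v 7))) (.v 6))) (.v 5))) (.v 0)))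
  (.lt (.sm 23 10 (.add (.mul (.v 10) (.add (.sqrt (.add (.sub (.c 65 4) (.sm 8 1 (.v 8))) (.v 7))) (.v 6))) (.v 1)))
  (.lt (.mul (.sm 367 2000 (.mul (.sq (.v 3)) (.v 3))) (.add (.mul (.v 22) (.v 1)) (.mul (.v 23) (.v 0))))
  (.lt (.mul (.sm 2769 10000 (.v 20)) (.sqrt (.add (.add (.c 1 1) (.sm 2 1 (.v 14))) (.v 7))))
  (.lt (.sqrt (.add (.sq (.add (.add (.c 1 1) (.v 22)) (.mul (.v 21) (.v 15)))) (.sq (.mul (.v 21) (.v 14)))))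
  (.ite (.v 7)
  (.ite (.sub (.v 0) (.v 1))
  (.ite (.sub (.mul (.mul (.sqrt (.mul (.v 7) (.inv (.add (.v 0) (.v 1))))) (.v 29)) (.sub (.add (.v 30) (.mul (.v 31) (.v 21))) (.mul (.v 27) (.v 2)))) (.add (.v 32) (.mul (.v 33) (.v 21))))
  (.ite (.sub (.add (.v 34) (.mul (.v 35) (.v 20))) (.mul (.mul (.v 28) (.sq (.v 2))) (.sqrt (.mul (.add (.v 8) (.v 10)) (.inv (.sub (.v 0) (.v 1)))))))
  .tru
  .fls)
  .fls)
  .fls)
  .fls))))))))))))))))))))))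

def r1Body : Pg :=
  (.lt (.mul (.v 5) (.inv (.add (.c 2 1) (.v 5))))
  (.lt (.mul (.v 4) (.inv (.add (.c 3 1) (.v 3))))
  (.lt (.add (.v 1) (.v 0))
  (.lt (.mul (.v 2) (.v 1))
  (.lt (.add (.sm 3 2 (.v 3)) (.sm 5 2 (.v 2)))
  (.lt (.neg (.v 0))
  (.lt (.neg (.sm 1 2 (.add (.mul (.add (.v 3) (.v 1)) (.v 0)) (.sm 4 1 (.v 2)))))
  (.lt (.neg (.sm 1 3 (.add (.mul (.add (.sm 2 1 (.v 4)) (.v 2)) (.v 0)) (.sm 5 1 (.mul (.v 3) (.v 1))))))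
  (.lt (.neg (.sm 1 4 (.add (.mul (.add (.sm 3 1 (.v 5)) (.v 3)) (.v 0)) (.sm 6 1 (.mul (.v 4) (.v 1))))))
  (.lt (.neg (.sm 1 5 (.add (.mul (.add (.sm 4 1 (.v 6)) (.v 4)) (.v 0)) (.sm 7 1 (.mul (.v 5) (.v 1))))))
  (.lt (.neg (.sm 1 6 (.add (.mul (.add (.sm 5 1 (.v 7)) (.v 5)) (.v 0)) (.sm 8 1 (.mul (.v 6) (.v 1))))))
  (.lt (.neg (.sm 1 7 (.add (.mul (.add (.sm 6 1 (.v 8)) (.v 6)) (.v 0)) (.sm 9 1 (.mul (.v 7) (.v 1))))))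
  (.lt (.neg (.sm 1 8 (.add (.mul (.add (.sm 7 1 (.v 9)) (.v 7)) (.v 0)) (.sm 10 1 (.mul (.v 8) (.v 1))))))
  (.lt (.neg (.sm 1 9 (.add (.mul (.add (.sm 8 1 (.v 10)) (.v 8)) (.v 0)) (.sm 11 1 (.mul (.v 9) (.v 1))))))
  (.lt (.neg (.sm 1 10 (.add (.mul (.add (.sm 9 1 (.v 11)) (.v 9)) (.v 0)) (.sm 12 1 (.mul (.v 10) (.v 1))))))
  (.lt (.neg (.sm 1 11 (.add (.mul (.add (.sm 10 1 (.v 12)) (.v 10)) (.v 0)) (.sm 13 1 (.mul (.v 11) (.v 1))))))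
  (.lt (.neg (.sm 1 12 (.add (.mul (.add (.sm 11 1 (.v 13)) (.v 11)) (.v 0)) (.sm 14 1 (.mul (.v 12) (.v 1))))))
  (.lt (.neg (.sm 1 13 (.add (.mul (.add (.sm 12 1 (.v 14)) (.v 12)) (.v 0)) (.sm 15 1 (.mul (.v 13) (.v 1))))))
  (.ite (.sub (.c 1 1000000) (.sq (.v 1)))
  (.ite (.sub (.c 1 1000000) (.sq (.v 0)))
  (.lt (.add (.add (.add (.add (.add (.add (.c 1 1) (.sm 1 2 (.v 11))) (.sm 3 8 (.v 9))) (.sm 5 16 (.v 7))) (.sm 35 128 (.v 5))) (.sm 63 256 (.v 3))) (.sm 231 1024 (.v 1)))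
  (.lt (.add (.add (.add (.add (.add (.sm 1 2 (.v 13)) (.sm 3 8 (.v 11))) (.sm 5 16 (.v 9))) (.sm 35 128 (.v 7))) (.sm 63 256 (.v 5))) (.sm 231 1024 (.v 3)))
  (.lt (.add (.add (.add (.add (.add (.add (.c 1 2) (.sm 3 8 (.v 13))) (.sm 5 16 (.v 11))) (.sm 35 128 (.v 9))) (.sm 63 256 (.v 7))) (.sm 231 1024 (.v 5))) (.sm 429 2048 (.v 3)))
  (.lt (.add (.add (.add (.add (.add (.sm 3 8 (.v 15)) (.sm 5 16 (.v 13))) (.sm 35 128 (.v 11))) (.sm 63 256 (.v 9))) (.sm 231 1024 (.v 7))) (.sm 429 2048 (.v 5)))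
  (.lt (.add (.add (.add (.add (.add (.add (.c 3 8) (.sm 5 16 (.v 15))) (.sm 35 128 (.v 13))) (.sm 63 256 (.v 11))) (.sm 231 1024 (.v 9))) (.sm 429 2048 (.v 7))) (.sm 6435 32768 (.v 5)))
  (.lt (.add (.v 4) (.mul (.v 22) (.v 3)))
  (.lt (.add (.v 4) (.mul (.v 23) (.v 3)))
  (.lt (.add (.v 4) (.mul (.v 24) (.v 3)))
  (.lt (.add (.v 4) (.mul (.v 25) (.v 3)))
  (.lt (.add (.v 3) (.mul (.v 26) (.v 2)))
  (.lt (.add (.v 3) (.mul (.v 27) (.v 2)))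
  (.lt (.add (.v 3) (.mul (.v 28) (.v 2)))
  (.lt (.sm 1 2 (.add (.v 6) (.v 5)))
  (.lt (.sm 1 2 (.add (.v 6) (.v 5)))
  (.lt (.sm 1 2 (.add (.v 6) (.v 5)))
  (.lt (.sm 1 2 (.add (.v 14) (.v 13)))
  (.lt (.sm 1 2 (.add (.v 14) (.v 13)))
  (.lt (.sm 1 2 (.add (.v 14) (.v 13)))
  (.lt (.sm 1 2 (.add (.v 14) (.v 13)))
  (.lt (.sm 1 2 (.add (.v 3) (.v 2)))
  (.lt (.sm 1 2 (.add (.v 3) (.v 2)))
  (.lt (.sm 1 2 (.add (.v 3) (.v 2)))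
  (.lt (.mul (.v 47) (.sm 2 1 (.inv (.add (.c 2 1) (.v 45)))))
  (.lt (.mul (.v 47) (.sm 2 1 (.inv (.add (.c 3 1) (.v 43)))))
  (.lt (.add (.v 14) (.mul (.v 40) (.v 13)))
  (.lt (.add (.v 14) (.mul (.v 41) (.v 13)))
  (.lt (.add (.v 1) (.mul (.v 42) (.v 0)))
  (.lt (.sm 1 2 (.sub (.v 2) (.v 1)))
  (.lt (.sm 1 2 (.sub (.v 18) (.v 17)))
  (.lt (.sm 1 2 (.sub (.v 18) (.v 17)))
  (.lt (.sm 1 2 (.sub (.v 1) (.v 0)))
  (.lt (.add (.v 18) (.mul (.v 47) (.v 17)))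
  (.lt (.add (.v 18) (.mul (.v 48) (.v 17)))
  (.lt (.add (.v 1) (.mul (.v 49) (.v 0)))
  (.lt (.sm 1 2 (.sub (.v 2) (.v 1)))
  (.lt (.add (.v 15) (.mul (.v 51) (.v 14)))
  (.lt (.add (.v 15) (.mul (.v 52) (.v 14)))
  (.lt (.add (.v 1) (.mul (.v 53) (.v 0)))
  (.rng 4989 5011 5000
  (.lt (.mul (.v 12) (.v 0))
  (.rng 4989 5011 5000
  (.lt (.mul (.mul (.v 17) (.v 13)) (.v 0))
  (.rng 4989 5011 5000
  (.lt (.mul (.mul (.sq (.v 19)) (.v 12)) (.v 0))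
  (.rng 4989 5011 5000
  (.lt (.mul (.mul (.v 22) (.v 11)) (.v 0))
  (.rng 4989 5011 5000
  (.lt (.mul (.mul (.mul (.v 24) (.v 23)) (.v 12)) (.v 0))
  (.rng 4989 5011 5000
  (.lt (.mul (.mul (.sq (.v 26)) (.v 11)) (.v 0))
  (.lt (.sm 6367 10000 (.mul (.v 69) (.sqrt (.mul (.add (.c 3 1) (.v 70)) (.inv (.add (.c 2 1) (.v 73)))))))
  (.lt (.mul (.add (.add (.v 9) (.sm 1 2 (.mul (.add (.c 1 1) (.v 71)) (.v 5)))) (.sm 100 13 (.mul (.sub (.v 69) (.c 1 1)) (.v 0)))) (.inv (.sub (.v 11) (.sm 1 2 (.mul (.v 73) (.v 5))))))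
  (.lt (.sub (.v 73) (.mul (.v 74) (.v 0)))
  (.lt (.sub (.c 2 1) (.v 0))
  (.lt (.sub (.c 1 1) (.mul (.v 1) (.v 0)))
  (.lt (.add (.add (.add (.mul (.sub (.sm 2 1 (.mul (.v 76) (.v 3))) (.v 79)) (.v 15)) (.mul (.sub (.c 1 1) (.sm 4 1 (.v 76))) (.v 13))) (.mul (.v 0) (.v 9))) (.mul (.v 77) (.sub (.add (.sub (.sub (.sm 3 1 (.v 11)) (.sm 1 4 (.mul (.sq (.v 1)) (.v 5)))) (.sm 2 1 (.mul (.v 3) (.v 13)))) (.mul (.v 1) (.v 7))) (.mul (.mul (.v 1) (.v 3)) (.v 9)))))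
  (.lt (.sm 20000 169 (.v 5))
  (.ite (.sub (.v 1) (.v 0))
  .tru
  (.ite (.sub (.neg (.v 1)) (.v 0))
  .tru
  (.rng 0 1 1
  (.rng 0 1 1
  (.rng 0 1 1
  (.rng 0 1 1
  (.lt (.mul (.mul (.v 3) (.v 11)) (.v 86))
  (.lt (.mul (.mul (.v 3) (.v 14)) (.v 87))
  (.lt (.mul (.mul (.v 3) (.v 15)) (.v 87))
  (.lt (.mul (.mul (.v 3) (.v 20)) (.v 88))
  (.lt (.sm 1 2 (.v 11))
  (.lt (.add (.add (.sub (.add (.mul (.sub (.sm 6 1 (.mul (.v 87) (.v 90))) (.sm 6 1 (.mul (.sq (.v 87)) (.v 14)))) (.v 26)) (.mul (.sm 12 1 (.mul (.v 87) (.sub (.sm 2 1 (.v 87)) (.c 1 1)))) (.v 24))) (.mul (.sm 3 1 (.mul (.v 13) (.v 11))) (.v 20))) (.mul (.v 88) (.sub (.add (.mul (.sm 6 1 (.mul (.v 87) (.sq (.v 14)))) (.v 26)) (.mul (.sub (.c 6 1) (.sm 24 1 (.v 87))) (.v 22))) (.mul (.sm 3 1 (.mul (.v 12) (.v 11))) (.v 16))))) (.mul (.sq (.v 88)) (.add (.sub (.sm 8 1 (.v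 1)) (.mul (.sm 2 1 (.mul (.sq (.v 14)) (.v 14))) (.v 26))) (.mul (.mul (.sq (.v 12)) (.v 12)) (.v 4)))))
  (.lt (.sub (.sub (.sm 2 1 (.mul (.v 88) (.v 15))) (.v 91)) (.mul (.v 89) (.sq (.v 15))))
  (.lt (.add (.add (.add (.mul (.v 0) (.add (.sub (.v 26) (.mul (.v 16) (.v 28))) (.mul (.v 2) (.v 22)))) (.mul (.sub (.c 1 1) (.sm 4 1 (.v 89))) (.add (.sub (.v 24) (.mul (.v 16) (.v 26))) (.mul (.v 2) (.v 20))))) (.mul (.v 13) (.add (.sub (.v 20) (.mul (.v 16) (.v 22))) (.mul (.v 2) (.v 18))))) (.mul (.v 90) (.sub (.sm 2 1 (.add (.sub (.v 3) (.mul (.v 16) (.v 24))) (.mul (.v 2) (.v 4)))) (.mul (.sm 2 1 (.sq (.v 2))) (.add (.sub (.v 5) (.mul (.v 16) (.v 18))) (.mul (.v 2) (.v 6)))))))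
  (.lt (.sub (.add (.sub (.add (.add (.add (.v 4) (.sm 3 1 (.mul (.v 3) (.v 5)))) (.sm 3 1 (.mul (.sq (.v 3)) (.v 6)))) (.mul (.mul (.sq (.v 3)) (.v 3)) (.v 7))) (.sm 3 1 (.mul (.v 17) (.add (.add (.v 25) (.sm 2 1 (.mul (.v 3) (.v 21)))) (.mul (.sq (.v 3)) (.v 19)))))) (.sm 3 1 (.mul (.sq (.v 17)) (.add (.v 27) (.mul (.v 3) (.v 23)))))) (.mul (.mul (.sq (.v 17)) (.v 17)) (.v 29)))
  (.ite (.sub (.add (.add (.v 3) (.sm 3 1 (.mul (.v 92) (.v 1)))) (.mul (.sq (.v 92)) (.v 0))) (.sm 6000000 2197 (.v 19)))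
  .tru
  .fls)))))))))))))))))))))))))))))))))))))))))))))))))))))))))))))))))))))))))
  .fls)
  .fls)))))))))))))))))))

def pE1 : Pg :=
  (.lt (.c 1 231945)
  (.lt (.c 21 2500000)
  (.lt (.c 380 9869)
  (.lt (.c 19 200)
  (.lt (.c 171 16450)
  (.lt (.c 621 50000)
  (.lt (.c 13332663 200000)
  (.lt (.c 19 10000)
  (.lt (.v 10)
  (.lt (.mul (.sq (.v 11)) (.v 10))
  (.lt (.mul (.sq (.v 12)) (.sub (.c 1 1) (.v 11)))
  (.lt (.mul (.sub (.c 1 1) (.v 12)) (.v 13))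
  (.lt (.v 13)
  (.lt (.sub (.c 1 1) (.v 14))
  (.lt (.v 14)
  errBody)))))))))))))))

def pE2 : Pg :=
  (.lt (.c 1 649446)
  (.lt (.c 3 250000)
  (.lt (.c 110 9869)
  (.lt (.c 11 400)
  (.lt (.c 583 197400)
  (.lt (.c 53 12500)
  (.lt (.c 14878479 250000)
  (.lt (.sm 113 100 (.v 9))
  (.lt (.c 1 1)
  (.lt (.sm 143 2500 (.sq (.sq (.v 11))))
  (.lt (.sm 2391 10000 (.mul (.sq (.v 12)) (.v 12)))
  (.lt (.v 13)
  (.lt (.v 13)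
  (.lt (.sub (.c 1 1) (.v 14))
  (.lt (.v 14)
  errBody)))))))))))))))

def pE3 : Pg :=
  (.lt (.c 1 649446)
  (.lt (.c 3 250000)
  (.lt (.c 110 9869)
  (.lt (.c 11 400)
  (.lt (.c 583 197400)
  (.lt (.c 53 12500)
  (.lt (.c 14878479 250000)
  (.lt (.sm 113 100 (.v 9))
  (.lt (.c 1 1)
  (.lt (.c 49 500000)
  (.lt (.c 211 100000)
  (.lt (.v 13)
  (.lt (.v 13)
  (.lt (.sub (.c 1 1) (.v 14))
  (.lt (.v 14)
  errBody)))))))))))))))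

def pRA : Pg :=
  (.ite (.sub (.sm 4761 4 (.mul (.mul (.sq (.v 2)) (.sq (.v 1))) (.v 1))) (.c 2 1)) .tru
  (.lt (.mul (.sub (.c 1 1) (.v 1)) (.v 1))
  (.lt (.v 3)
  (.lt (.c 1 1)
  (.lt (.mul (.v 2) (.v 5))
  (.lt (.v 3)
  (.lt (.sub (.c 1 1) (.v 6))
  (.lt (.v 7)
  (.lt (.add (.c 7 10000) (.sm 31 500000 (.mul (.v 5) (.v 3))))
  (.lt (.v 8)
  r1Body))))))))))

def pRC : Pg :=
  (.ite (.sub (.sm 23716 25 (.mul (.mul (.v 1) (.v 2)) (.sq (.v 2)))) (.sm 2 1 (.sq (.sub (.c 1 1) (.mul (.v 1) (.v 2)))))) .tru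
  (.lt (.c 1 1)
  (.lt (.mul (.sub (.c 1 1) (.mul (.v 2) (.v 3))) (.v 2))
  (.lt (.v 4)
  (.lt (.v 5)
  (.lt (.sub (.c 1 1) (.mul (.v 5) (.v 6)))
  (.lt (.mul (.v 6) (.v 7))
  (.lt (.add (.c 31 100000) (.sm 39 500000 (.v 8)))
  (.lt (.v 7)
  r1Body)))))))))

def p3Step (k : Nat) (p : Pre) : Pre :=
  (.lt (.sub (.sm (Nat.mul k k) 1 (.v 27)) (.c 1 1))
  (.lt (.sub (.sm (Nat.mul (Nat.sub k 1) (Nat.sub k 2)) 1 (.v 27)) (.v 26))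
  (.lt (.mul (.v 26) (.v 2))
  (.lt (.add (.mul (.v 27) (.v 4)) (.v 3))
  (.lt (.mul (.v 28) (.v 6))
  (.lt (.mul (.v 3) (.v 11))
  (.lt (.mul (.v 4) (.v 13))
  (.lt (.sub (.mul (.v 5) (.v 15)) (.mul (.v 32) (.v 13)))
  (.lt (.sm 1 (Nat.mul (Nat.add k 1) (Nat.add k 2)) (.add (.mul (.v 7) (.v 5)) (.v 2)))
  (.lt (.sm 1 (Nat.mul (Nat.add k 1) (Nat.add k 2)) (.add (.mul (.v 8) (.v 5)) (.sub (.v 2) (.mul (.v 37) (.v 3)))))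
  (.lt (.sm 1 (Nat.mul (Nat.add k 1) (Nat.add k 2)) (.add (.sub (.mul (.v 9) (.v 5)) (.sm 2 1 (.v 7))) (.v 2)))
  (.lt (.sm 1 (Nat.mul (Nat.add k 1) (Nat.add k 2)) (.add (.mul (.v 10) (.add (.mul (.v 35) (.v 14)) (.v 12))) (.sub (.mul (.v 9) (.v 20)) (.mul (.v 39) (.v 4)))))
  (.lt (.sm 1 (Nat.mul (Nat.add k 1) (Nat.add k 2)) (.add (.sub (.mul (.v 11) (.add (.mul (.v 36) (.v 16)) (.v 14))) (.sm 2 1 (.v 8))) (.sub (.sub (.mul (.v 10) (.v 22)) (.mul (.v 37) (.v 19))) (.mul (.v 40) (.v 4)))))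
  (.lt (.sm 1 (Nat.mul (Nat.add k 1) (Nat.add k 2)) (.add (.sub (.sub (.mul (.v 12) (.mul (.v 37) (.v 18))) (.sm 2 1 (.v 8))) (.v 10)) (.sub (.mul (.v 11) (.v 24)) (.mul (.v 38) (.v 21)))))
  (.lt (.add (.v 26) (.v 5))
  (.lt (.add (.v 28) (.v 5))
  (.lt (.add (.v 30) (.v 5))
  (.lt (.add (.v 32) (.v 5))
  (.lt (.add (.v 34) (.v 5))
  (.lt (.add (.v 36) (.v 5))
  (.lt (.add (.v 38) (.sm (Nat.add k 2) 1 (.v 11)))
  (.lt (.add (.v 40) (.sm (Nat.add k 2) 1 (.v 11)))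
  (.lt (.add (.v 42) (.sm (Nat.add k 2) 1 (.v 11)))
  (.lt (.add (.v 44) (.sm (Nat.add k 2) 1 (.v 11)))
  (.lt (.add (.v 46) (.sm (Nat.add k 2) 1 (.v 11)))
  (.lt (.add (.v 48) (.sm (Nat.add k 2) 1 (.v 11)))
  (.keep [17, 16, 15, 14, 13, 12, 26, 27, 28, 29, 30, 31, 11, 10, 9, 8, 7, 6, 5, 4, 3, 2, 1, 0, 50, 51, 52, 53, 54, 55, 56, 57]
  p)))))))))))))))))))))))))))

noncomputable def p3Loop (n : Nat) : Nat → Pre :=
  Nat.rec (fun _ => Pre.nil) (fun _ ih k => p3Step k (ih (Nat.add k 2))) n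

noncomputable def p3Pre0 : Pre :=
  (.lt (.sq (.v 1))
  (.lt (.sub (.c 10 1) (.sm 2 1 (.v 0)))
  (.lt (.sq (.sm 10 999 (.mul (.v 2) (.v 0))))
  (.lt (.mul (.v 1) (.v 2))
  (.lt (.sm 1 4 (.sq (.v 2)))
  (.rng 0 13 20000000
  (.rng 0 13 1000000
  (.lt (.c 0 1)
  (.lt (.c 1 1)
  (.keep [0, 1, 1, 1, 1, 1, 1, 1, 1, 1, 1, 1, 0, 1, 1, 1, 1, 1, 1, 1, 1, 1, 1, 1, 5, 4, 6, 3, 2, 10, 8, 7]
  (p3Loop 15 0)))))))))))

noncomputable def p3Pre1 : Pre :=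
  (.lt (.sq (.v 1))
  (.lt (.sub (.c 10 1) (.sm 2 1 (.v 0)))
  (.lt (.sq (.sm 10 999 (.mul (.v 2) (.v 0))))
  (.lt (.mul (.v 1) (.v 2))
  (.lt (.sm 1 4 (.sq (.v 2)))
  (.rng 0 13 20000000
  (.rng 0 13 1000000
  (.lt (.c 0 1)
  (.lt (.c 1 1)
  (.keep [0, 1, 1, 1, 1, 1, 1, 1, 1, 1, 1, 1, 0, 1, 1, 1, 1, 1, 0, 1, 1, 1, 1, 1, 5, 4, 6, 3, 2, 10, 8, 7]
  (p3Loop 15 1)))))))))))

def pPA : Pg :=
  (.rng 4999 5000 5000
  (.lt (.v 1)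
  (.lt (.neg (.sm 2 1 (.mul (.mul (.v 34) (.v 1)) (.v 32))))
  (.lt (.mul (.v 35) (.sub (.sm 4 1 (.sq (.v 2))) (.v 2)))
  (.lt (.sq (.v 1))
  (.lt (.mul (.v 2) (.v 3))
  (.lt (.sq (.v 4))
  (.rng 0 2 1
  (.rng 0 2 1
  (.rng 0 2 1
  (.lt (.add (.v 23) (.sm 3 50000 (.sub (.v 2) (.c 1 1))))
  (.lt (.add (.add (.mul (.v 25) (.v 8)) (.mul (.v 26) (.v 9))) (.sm 3 12500 (.sub (.v 2) (.c 1 1))))
  (.lt (.add (.add (.add (.add (.mul (.v 26) (.v 8)) (.mul (.v 28) (.v 7))) (.mul (.v 29) (.v 6))) (.mul (.v 30) (.v 5))) (.sm 3 3125 (.sub (.v 2) (.c 1 1))))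
  (.rng 0 2 1
  (.rng 0 2 1
  (.rng 0 2 1
  (.lt (.add (.v 35) (.sm 1 500 (.sub (.v 2) (.c 1 1))))
  (.lt (.add (.add (.mul (.v 37) (.v 14)) (.mul (.v 38) (.v 15))) (.sm 1 125 (.sub (.v 2) (.c 1 1))))
  (.lt (.add (.add (.add (.add (.mul (.v 38) (.v 14)) (.mul (.v 40) (.v 13))) (.mul (.v 41) (.v 12))) (.mul (.v 42) (.v 11))) (.sm 4 125 (.sub (.v 2) (.c 1 1))))
  (.lt (.mul (.v 45) (.sub (.v 17) (.mul (.v 48) (.v 16))))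
  (.lt (.add (.v 45) (.v 46))
  (.lt (.add (.add (.v 18) (.sm 2 1 (.mul (.v 46) (.v 19)))) (.v 1))
  (.lt (.sub (.sub (.c 1 1) (.mul (.v 50) (.v 47))) (.v 49))
  (.lt (.mul (.sub (.mul (.v 50) (.v 52)) (.v 51)) (.v 20))
  (.lt (.neg (.mul (.v 50) (.mul (.v 53) (.add (.v 20) (.v 18)))))
  (.lt (.add (.add (.add (.v 21) (.sm 2 1 (.v 19))) (.mul (.v 50) (.v 18))) (.v 0))
  (.lt (.mul (.sub (.mul (.v 53) (.v 55)) (.v 54)) (.v 22))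
  (.lt (.inv (.v 6))
  (.lt (.neg (.mul (.v 6) (.sq (.v 0))))
  (.lt (.neg (.mul (.add (.mul (.v 7) (.v 0)) (.mul (.v 3) (.v 1))) (.v 1)))
  (.lt (.mul (.v 56) (.v 2))
  (.lt (.add (.mul (.v 57) (.v 2)) (.mul (.v 11) (.v 3)))
  (.lt (.add (.add (.mul (.v 58) (.v 2)) (.mul (.v 12) (.v 3))) (.mul (.v 7) (.v 4)))
  (.lt (.inv (.v 10))
  (.lt (.neg (.mul (.v 10) (.sq (.v 0))))
  (.lt (.neg (.mul (.add (.mul (.v 11) (.v 0)) (.mul (.v 8) (.v 1))) (.v 1)))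
  (.lt (.mul (.v 15) (.v 2))
  (.lt (.add (.mul (.v 16) (.v 2)) (.mul (.v 15) (.v 3)))
  (.lt (.add (.add (.mul (.v 17) (.v 2)) (.mul (.v 16) (.v 3))) (.mul (.v 12) (.v 4)))
  (.lt (.sqrt (.v 2))
  (.lt (.inv (.v 0))
  (.lt (.sm 1 2 (.mul (.v 3) (.v 0)))
  (.lt (.sm 1 2 (.mul (.sub (.v 3) (.sq (.v 0))) (.v 1)))
  (.lt (.mul (.v 3) (.v 32))
  (.lt (.add (.mul (.v 4) (.v 32)) (.mul (.v 2) (.v 33)))
  (.lt (.add (.add (.mul (.v 5) (.v 32)) (.mul (.v 3) (.v 33))) (.mul (.v 2) (.v 34)))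
  (.lt (.mul (.v 15) (.v 35))
  (.lt (.add (.mul (.v 16) (.v 35)) (.mul (.v 15) (.v 36)))
  (.lt (.add (.add (.mul (.v 17) (.v 35)) (.mul (.v 16) (.v 36))) (.mul (.v 15) (.v 37)))
  (.lt (.add (.v 32) (.sm 1 2 (.v 2)))
  (.lt (.add (.v 32) (.sm 1 2 (.v 2)))
  (.lt (.add (.v 32) (.sm 1 2 (.v 2)))
  (.lt (.add (.sq (.v 2)) (.sq (.v 8)))
  (.lt (.inv (.v 0))
  (.lt (.mul (.sub (.mul (.v 9) (.v 4)) (.mul (.v 3) (.v 10))) (.v 0))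
  (.lt (.mul (.add (.mul (.v 4) (.v 5)) (.mul (.v 10) (.v 11))) (.v 1))
  (.lt (.sub (.mul (.sub (.mul (.v 10) (.v 6)) (.mul (.v 4) (.v 12))) (.v 2)) (.mul (.v 0) (.v 1)))
  (.lt (.neg (.mul (.v 15) (.sq (.v 16))))
  (.lt (.neg (.mul (.add (.mul (.v 16) (.v 0)) (.mul (.v 15) (.v 17))) (.v 17)))
  (.lt (.mul (.v 28) (.v 18))
  (.lt (.add (.mul (.v 29) (.v 2)) (.mul (.v 28) (.v 19)))
  (.lt (.add (.add (.mul (.v 30) (.v 2)) (.mul (.v 29) (.v 3))) (.mul (.v 28) (.v 20)))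
  (.lt (.inv (.sm 23 25 (.add (.sub (.sm 1 2 (.v 93)) (.sm 1 2 (.v 92))) (.c 57 25))))
  (.lt (.mul (.sq (.v 32)) (.v 32))
  (.lt (.sm 50 49 (.add (.sm 1 16 (.mul (.sq (.v 1)) (.add (.c 16 5) (.sm 5 2 (.v 0))))) (.c 1 1250)))
  (.lt (.sm 1250 2401 (.sq (.add (.sqrt (.sm 31 2500 (.mul (.mul (.sq (.v 2)) (.v 2)) (.add (.c 33 2) (.sm 23 1 (.v 1)))))) (.c 9 1000))))
  (.lt (.add (.v 0) (.sm 11 500 (.mul (.v 3) (.add (.c 1 1) (.sqrt (.sm 137 100 (.v 35)))))))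
  (.lt (.sm 1 2 (.add (.sq (.v 12)) (.c 1 1)))
  (.lt (.add (.add (.sm 4 1 (.v 1)) (.mul (.v 3) (.add (.c 2 1) (.v 0)))) (.sm 11 10 (.mul (.sq (.v 3)) (.add (.c 4 1) (.v 0)))))
  (.lt (.add (.v 14) (.sm 1 4 (.v 8)))
  (.lt (.sm 1001 2500 (.inv (.add (.sqrt (.add (.c 1 1) (.sm 40 999 (.v 101)))) (.sm 1001 5000 (.v 100)))))
  (.lt (.sub (.v 69) (.v 0))
  (.ite (.v 19)
  (.ite (.sub (.c 9 100) (.v 7))
  (.ite (.v 0)
  (.ite (.sub (.add (.sm 32967 1000 (.v 0)) (.sm 2 1 (.v 2))) (.sm 2 1 (.v 3)))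
  .tru
  .fls)
  (.rng 0 2 1
  (.lt (.add (.add (.sm 16 1 (.v 6)) (.mul (.v 8) (.add (.add (.c 8 1) (.sm 4 1 (.v 5))) (.sq (.v 18))))) (.mul (.sq (.v 8)) (.add (.sm 11 10 (.add (.add (.c 16 1) (.sm 4 1 (.v 5))) (.sq (.v 18)))) (.sm 61 100 (.sq (.add (.c 4 1) (.v 5)))))))
  (.lt (.add (.mul (.v 17) (.add (.c 1 1) (.sm 11 10 (.mul (.sub (.v 1) (.c 1 1)) (.v 9))))) (.sm 1 4 (.v 12)))
  (.lt (.mul (.v 73) (.v 105))
  (.lt (.sm 1001 20000 (.add (.sqrt (.v 108)) (.sqrt (.add (.v 108) (.sm 4 1 (.v 107))))))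
  (.lt (.mul (.sm 6 1 (.sub (.c 1 1) (.sq (.v 0)))) (.inv (.add (.add (.c 1 1) (.sm 4 1 (.v 0))) (.sq (.v 0)))))
  (.lt (.sub (.add (.sub (.c 2991 1000) (.sm 7 2 (.v 2))) (.sm 3 4 (.sq (.v 2)))) (.sm 1 4 (.mul (.sq (.sub (.c 2 1) (.v 2))) (.sub (.c 1 1) (.v 47)))))
  (.ite (.v 0)
  (.ite (.add (.add (.mul (.v 0) (.v 1)) (.mul (.sm 1 2 (.v 77)) (.sub (.v 9) (.v 10)))) (.sm 2 1 (.sub (.v 4) (.v 5))))
  .tru
  .fls)
  .fls)))))))))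
  .fls)
  .fls)))))))))))))))))))))))))))))))))))))))))))))))))))))))))))))))))))))))))

def pPB : Pg :=
  (.rng 4999 5000 5000
  (.lt (.c 3 5)
  (.lt (.neg (.sm 2 1 (.mul (.mul (.mul (.v 34) (.v 1)) (.v 32)) (.v 2))))
  (.rng 0 2 1
  (.rng 0 2 1
  (.lt (.add (.v 18) (.sm 3 50000 (.sub (.v 1) (.c 1 1))))
  (.lt (.add (.add (.mul (.v 20) (.v 3)) (.mul (.v 21) (.v 4))) (.sm 3 12500 (.sub (.v 1) (.c 1 1))))
  (.rng 0 2 1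
  (.rng 0 2 1
  (.lt (.add (.v 28) (.sm 1 500 (.sub (.v 1) (.c 1 1))))
  (.lt (.add (.add (.mul (.v 30) (.v 7)) (.mul (.v 31) (.v 8))) (.sm 1 125 (.sub (.v 1) (.c 1 1))))
  (.lt (.mul (.v 37) (.sub (.v 9) (.mul (.v 40) (.v 8))))
  (.lt (.add (.v 37) (.v 38))
  (.lt (.add (.add (.v 10) (.sm 2 1 (.mul (.v 38) (.v 11)))) (.v 1))
  (.lt (.sub (.sub (.c 1 1) (.mul (.v 42) (.v 39))) (.v 41))
  (.lt (.mul (.sub (.mul (.v 42) (.v 44)) (.v 43)) (.v 12))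
  (.lt (.inv (.v 3))
  (.lt (.neg (.mul (.v 3) (.sq (.v 0))))
  (.lt (.mul (.v 44) (.v 1))
  (.lt (.add (.mul (.v 45) (.v 1)) (.mul (.v 7) (.v 2)))
  (.lt (.inv (.v 5))
  (.lt (.neg (.mul (.v 5) (.sq (.v 0))))
  (.lt (.mul (.v 9) (.v 1))
  (.lt (.add (.mul (.v 10) (.v 1)) (.mul (.v 9) (.v 2)))
  (.lt (.sqrt (.v 1))
  (.lt (.inv (.v 0))
  (.lt (.sm 1 2 (.mul (.v 2) (.v 0)))
  (.lt (.mul (.v 2) (.v 21))
  (.lt (.add (.mul (.v 3) (.v 21)) (.mul (.v 1) (.v 22)))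
  (.lt (.mul (.v 10) (.v 23))
  (.lt (.add (.mul (.v 11) (.v 23)) (.mul (.v 10) (.v 24)))
  (.lt (.add (.v 21) (.sm 1 2 (.v 1)))
  (.lt (.add (.v 21) (.sm 1 2 (.v 1)))
  (.lt (.add (.sq (.v 1)) (.sq (.v 5)))
  (.lt (.inv (.v 0))
  (.lt (.mul (.sub (.mul (.v 6) (.v 3)) (.mul (.v 2) (.v 7))) (.v 0))
  (.lt (.neg (.mul (.v 9) (.sq (.v 10))))
  (.lt (.mul (.v 18) (.v 11))
  (.lt (.add (.mul (.v 19) (.v 1)) (.mul (.v 18) (.v 12)))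
  (.lt (.inv (.sm 23 25 (.add (.sub (.sm 1 2 (.v 70)) (.sm 1 2 (.v 69))) (.c 57 25))))
  (.lt (.mul (.sq (.v 21)) (.v 21))
  (.lt (.sm 50 49 (.add (.sm 1 16 (.mul (.sq (.v 1)) (.add (.c 16 5) (.sm 5 2 (.v 0))))) (.c 1 1250)))
  (.lt (.sm 1250 2401 (.sq (.add (.sqrt (.sm 31 2500 (.mul (.mul (.sq (.v 2)) (.v 2)) (.add (.c 33 2) (.sm 23 1 (.v 1)))))) (.c 9 1000))))
  (.lt (.add (.v 0) (.sm 11 500 (.mul (.v 3) (.add (.c 1 1) (.sqrt (.sm 137 100 (.v 24)))))))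
  (.lt (.sm 1 2 (.add (.sq (.v 8)) (.c 1 1)))
  (.lt (.add (.add (.sm 4 1 (.v 1)) (.mul (.v 3) (.add (.c 2 1) (.v 0)))) (.sm 11 10 (.mul (.sq (.v 3)) (.add (.c 4 1) (.v 0)))))
  (.lt (.add (.v 10) (.sm 1 4 (.v 7)))
  (.lt (.sm 1001 2500 (.inv (.add (.sqrt (.add (.c 1 1) (.sm 40 999 (.v 78)))) (.sm 1001 5000 (.v 77)))))
  (.lt (.sub (.v 46) (.mul (.v 48) (.v 0)))
  (.ite (.v 15)
  (.ite (.sub (.c 9 100) (.v 7))
  (.ite (.v 0)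
  (.ite (.sub (.add (.sm 32967 1000 (.v 0)) (.sm 2 1 (.v 2))) (.sm 2 1 (.v 3)))
  .tru
  .fls)
  .fls)
  .fls)
  .fls))))))))))))))))))))))))))))))))))))))))))))))))))

end Pool.Agent.HillD.Num
end
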