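import Pool.Agent.K.MP_ae2765_an.C8
import Pool.Agent.K.MP_ae2765_an.C9
import Pool.Agent.K.MP_ae2765_an.C10
import Pool.Agent.K.MP_ae2765_an.C11
import Pool.Agent.K.MP_ae2765_an.C7
import Pool.Agent.K.MP_ae2765_an.C6

-- part Pool.Agent.P.MP_ae2765_an.Cov
section

/-! The checked statements. -/

namespace Pool.Agent.HillD.Num
open Pool.Agent.P.MP_4c4e6e_co.Eng

theorem Ang_cov : Cov pAng 0 549755813888 0 549755813888 0 5426089883075 :=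
  Ang_c0

theorem Sup_cov : Cov pSup 0 549755813888 0 714682558055 0 549755813888 :=
  (cov1 (g1 := 549755813888) Sup_c0 (cov2 (g2 := 714682558055) (cov3 (g3 := 549755813888) Sup_c1 Sup_c2 (by norm_num) (by norm_num)) (cov3 (g3 := 549755813888) (cov2 (g2 := 357341279028) Sup_c3 (cov1 (g1 := 274877906944) Sup_c4 Sup_c5 (by norm_num) (by norm_num)) (by norm_num) (by norm_num)) (cov2 (g2 := 357341279028) Sup_c6 (cov1 (g1 := 274877906944) Sup_c7 (cov3 (g3 := 274877906944) (cov2 (g2 := 178670639514) Sup_c8 Sup_c9 (by norm_num) (by norm_num)) Sup_c10 (by norm_num) (by norm_num)) (by norm_num) (by norm_num)) (by norm_num) (by norm_num)) (by norm_num) (by norm_num)) (by norm_num) (by norm_num)) (by norm_num) (by norm_num))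

theorem C2_cov : Cov pC2 0 549755813888 0 549755813888 0 549755813888 :=
  C2_c0

theorem E1_cov : Cov pE1 0 108851651150 0 549755813888 0 5426089883075 :=
  (cov1 (g1 := 108851651150) E1_c0 (cov2 (g2 := 549755813888) E1_c1 E1_c2 (by norm_num) (by norm_num)) (by norm_num) (by norm_num))

theorem E2_cov : Cov pE2 0 115448720917 0 25508669765 0 5426089883075 :=
  (cov1 (g1 := 115448720917) E2_c0 (cov2 (g2 := 25508669765) E2_c1 E2_c2 (by norm_num) (by norm_num)) (by norm_num) (by norm_num))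

theorem E3_cov : Cov pE3 230897441832 434307092972 0 25508669765 0 5426089883075 :=
  (cov1 (g1 := 434307092972) (cov2 (g2 := 25508669765) (cov3 (g3 := 5426089883075) E3_c0 E3_c1 (by norm_num) (by norm_num)) (cov3 (g3 := 5426089883075) E3_c2 E3_c3 (by norm_num) (by norm_num)) (by norm_num) (by norm_num)) (cov2 (g2 := 25508669765) (cov3 (g3 := 5426089883075) E3_c4 E3_c5 (by norm_num) (by norm_num)) (cov3 (g3 := 5426089883075) E3_c6 E3_c7 (by norm_num) (by norm_num)) (by norm_num) (by norm_num)) (by norm_num) (by norm_num))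

theorem RA_cov : Cov pRA 0 1429365116109 0 549755813888 0 1099511627776 :=
  RA_c0

theorem RB_cov : Cov pRA 2858730232217 1099511627777 0 35184372089 0 1099511627776 :=
  RB_c0

theorem RC_cov : Cov pRC 0 549755813888 0 125344325567 0 1099511627776 :=
  RC_c0

theorem P0_cov : Cov2 p3Pre0 pPA 0 329853488333 pPB 0 549755813888 0 869273892920 0 549755813888 :=
  (cov2_1 (g1 := 869273892920) (cov2_1 (g1 := 434636946460) P0_c0 P0_c1 (by norm_num) (by norm_num)) (cov2_1 (g1 := 434636946460) (cov2_1 (g1 := 217318473230) P0_c2 (cov2_1 (g1 := 108659236615) P0_c3 P0_c4 (by norm_num) (by norm_num)) (by norm_num) (by norm_num)) (cov2_1 (g1 := 217318473230) (cov2_1 (g1 := 108659236615) P0_c5 P0_c6 (by norm_num) (by norm_num)) (cov2_1 (g1 := 108659236615) P0_c7 P0_c8 (by norm_num) (by norm_num)) (by norm_num) (by norm_num))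 (by norm_num) (by norm_num)) (by norm_num) (by norm_num))

theorem P1_cov : Cov2 p3Pre1 pPA 0 329853488333 pPB 0 549755813888 0 869273892920 0 549755813888 :=
  (cov2_1 (g1 := 869273892920) P1_c0 (cov2_1 (g1 := 434636946460) (cov2_1 (g1 := 217318473230) P1_c1 P1_c2 (by norm_num) (by norm_num)) (cov2_1 (g1 := 217318473230) P1_c3 P1_c4 (by norm_num) (by norm_num)) (by norm_num) (by norm_num)) (by norm_num) (by norm_num))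

end Pool.Agent.HillD.Num
end

-- part Pool.Agent.P.MP_ae2765_an.Real
section

/-! The checked statements in terms of real numbers. -/

set_option linter.unusedSimpArgs false
set_option maxRecDepth 4000

namespace Pool.Agent.HillD.Num
open Pool.Agent.P.MP_4c4e6e_co.Eng

theorem Ang_real (t ep z : ℝ) (ht0 : 0 ≤ t) (ht1 : t ≤ 1) (hep0 : 0 ≤ ep) (hep1 : ep ≤ 1) (hz0 : 0 ≤ z) (hz1 : z ≤ 987 / 100) :
    ∀ e : ℝ, e = 1 - ep →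
    ∀ zz : ℝ, zz = z ^ 2 →
    ∀ r0 : ℝ, 0 ≤ r0 → r0 ≤ 1 / 5000 →
    ∀ r1 : ℝ, 0 ≤ r1 → r1 ≤ 1 / 5000 →
    ∀ r2 : ℝ, 0 ≤ r2 → r2 ≤ 1 / 5000 →
    ∀ Xr : ℝ, Xr = zz * (1 / 12 - zz * (1 / 5040 - zz * (1 / 14968800 - 1 / 163459296000 * zz))) + r0 - 1 / 10000 →
    ∀ Xi : ℝ, Xi = z * (1 / 2 - zz * (1 / 180 - zz * (1 / 226800 - zz * (1 / 1362160800 - 1 / 25009272288000 * zz)))) + r1 - 1 / 10000 →
    ∀ Xn : ℝ, Xn = z * (1 / 2 + zz * (1 / 720 + zz * (1 / 3628800 + 1 / 87178291200 * zz))) + r2 - 1 / 10000 →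
    ∀ T : ℝ, T = t * Xn →
    ∀ R : ℝ, R = t * Xr →
    ∀ d : ℝ, d = √(1 + 2 * R + T ^ 2) →
    ∀ Qr : ℝ, Qr = 1 + ep + e * Xr →
    ∀ Qi : ℝ, Qi = e * Xi →
    ∀ Q0 : ℝ, Q0 = √(Qr ^ 2 + Qi ^ 2) →
    ∀ Gr : ℝ, Gr = (1 + R) * Qr + t * Xi * Qi →
    ∀ Gi : ℝ, Gi = (1 + R) * Qi - t * Xi * Qr →
    ∀ yy : ℝ, yy = 231 / 281 * Gr - 160 / 281 * Gi - 2769 / 10000 * (T * Q0) →
    (0 < yy - d * (13 / 50 * Q0 + 803 / 1250 * ep)) ∨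
    0 < yy - d * (e * (13 / 50 * Q0 + 2769 / 10000 * √(1 + 2 * Xr + Xn ^ 2))) := by
  have hc := Ang_cov t ep z (by push_cast; linarith) (by push_cast; linarith) (by push_cast; linarith) (by push_cast; linarith) (by push_cast; linarith) (by push_cast; linarith)
  simp only [pAng, Pg.holds, E.val, List.getD_cons_succ, List.getD_cons_zero, Nat.cast_ofNat, Nat.cast_one,
    Nat.cast_zero, div_one, zero_div, and_true, or_false] at hc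
  exact hc

theorem Sup_real (x y A0 : ℝ) (hx0 : 0 ≤ x) (hx1 : x ≤ 1) (hy0 : 0 ≤ y) (hy1 : y ≤ 13 / 10) (hA00 : 0 ≤ A0) (hA01 : A0 ≤ 1) :
    ∀ p : ℝ, p = x ^ 2 →
    ∀ q : ℝ, q = 1 - p →
    ∀ pp : ℝ, pp = p ^ 2 →
    ∀ qq : ℝ, qq = q ^ 2 →
    ∀ r : ℝ, r = p * q * (y - 3 / 10) →
    ∀ B : ℝ, B = 1 - A0 →
    ∀ mp : ℝ, mp = 37 / 100 * B * p →
    ∀ B3 : ℝ, B3 = B ^ 2 * B →
    ∀ d2 : ℝ, d2 = pp + 2 * r + qq →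
    ∀ d : ℝ, d = √d2 →
    ∀ d3 : ℝ, d3 = d2 * d →
    ∀ a3 : ℝ, a3 = 3 - 5 * A0 →
    ∀ n3 : ℝ, n3 = √(a3 ^ 2 * pp + 6 * (a3 * r) + 9 * qq + 1 / 50) + 5 * mp →
    ∀ yy : ℝ, yy = √(B ^ 2 * pp + 2 * (B * r) + qq + 1 / 50) + mp →
    ∀ a6 : ℝ, a6 = 1 + 5 * A0 →
    ∀ n16 : ℝ, n16 = √(a6 ^ 2 * pp + 2 * (a6 * r) + qq + 1 / 50) + 5 * mp →
    ∀ a5 : ℝ, a5 = 1 - 5 * A0 →
    ∀ n15 : ℝ, n15 = √(a5 ^ 2 * pp + 2 * (a5 * r) + qq + 1 / 50) + 5 * mp →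
    0 < (16 / 5 + 5 / 2 * B3) * d3 - pp * n3 ∧
      0 < 707 / 500 * (33 / 2 + 23 * B3) * (d3 * d2) * √d - pp * x * n3 ^ 2 * (p + 2 * q) ∧
        0 < 13 / 2 * d3 - yy ^ 2 * n16 ∧
          0 < 4 * d3 - (A0 * p + mp) * yy * n15 := by
  have hc := Sup_cov x y A0 (by push_cast; linarith) (by push_cast; linarith) (by push_cast; linarith) (by push_cast; linarith) (by push_cast; linarith) (by push_cast; linarith)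
  simp only [pSup, Pg.holds, E.val, List.getD_cons_succ, List.getD_cons_zero, Nat.cast_ofNat, Nat.cast_one,
    Nat.cast_zero, div_one, zero_div, and_true, or_false] at hc
  exact hc

theorem C2_real (be x s : ℝ) (hbe0 : 0 ≤ be) (hbe1 : be ≤ 1) (hx0 : 0 ≤ x) (hx1 : x ≤ 1) (hs0 : 0 ≤ s) (hs1 : s ≤ 1) :
    ∀ b : ℝ, b = be ^ 2 →
    ∀ io : ℝ, io = x ^ 2 →
    (0 < 311 / 5 * b * io ^ 2 - 25 / 4) ∨
    (0 < 153 / 10 * b * io - 5 / 2) ∨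
    ∀ v : ℝ, v = 133 / 250 * io →
    ∀ bbar : ℝ, bbar = 25 / 26 * (1 / 5 * v ^ 2 + 21 / 10000) →
    ∀ hN : ℝ, hN = 625 / 1352 * (22 / 125 * (io * x) + 9 / 500) ^ 2 →
    ∀ E : ℝ, E = 11 / 500 * v + hN + 1 / 2 * bbar + bbar ^ 2 →
    ∀ rt : ℝ, rt = √(1 + b) →
    (0 < 1767 / 1000 * (s - 2 * be * (rt + be)⁻¹) - 20 / 3 * (b * io * E)) ∨
    ∀ yy : ℝ, yy = be * (1 + rt)⁻¹ →
    ∀ K : ℝ, K = 6 * (1 - yy ^ 2) * (1 + 4 * yy + yy ^ 2)⁻¹ →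
    ∀ cc : ℝ, cc = 1 / 2 * ((1 - s) * (4 - s)) - 11 / 500 →
    0 < cc ∧
      0 < 5 / 2 * (cc * K) - io * E * (10 / 3 * s + 800 / 9) := by
  have hc := C2_cov be x s (by push_cast; linarith) (by push_cast; linarith) (by push_cast; linarith) (by push_cast; linarith) (by push_cast; linarith) (by push_cast; linarith)
  simp only [pC2, Pg.holds, E.val, List.getD_cons_succ, List.getD_cons_zero, Nat.cast_ofNat, Nat.cast_one,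
    Nat.cast_zero, div_one, zero_div, and_true, or_false] at hc
  exact hc

theorem errBody_real {z e ep t k1 k2 f1 f2 cS u0 u1 v0 v1 w0 w1 : ℝ} {tl : List ℝ}
    (hc : errBody.holds (z :: e :: ep :: t :: k1 :: k2 :: f1 :: f2 :: cS :: u0 :: u1 :: v0 :: v1 :: w0 :: w1 :: tl)) :
    ∀ zz : ℝ, zz = z ^ 2 →
    ∀ r0 : ℝ, 0 ≤ r0 → r0 ≤ 1 / 5000 →
    ∀ r1 : ℝ, 0 ≤ r1 → r1 ≤ 1 / 5000 →
    ∀ r2 : ℝ, 0 ≤ r2 → r2 ≤ 1 / 5000 →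
    ∀ Xr : ℝ, Xr = zz * (1 / 12 - zz * (1 / 5040 - zz * (1 / 14968800 - 1 / 163459296000 * zz))) + r0 - 1 / 10000 →
    ∀ Xi : ℝ, Xi = z * (1 / 2 - zz * (1 / 180 - zz * (1 / 226800 - zz * (1 / 1362160800 - 1 / 25009272288000 * zz)))) + r1 - 1 / 10000 →
    ∀ Xn : ℝ, Xn = z * (1 / 2 + zz * (1 / 720 + zz * (1 / 3628800 + 1 / 87178291200 * zz))) + r2 - 1 / 10000 →
    ∀ T : ℝ, T = t * Xn →
    ∀ R : ℝ, R = t * Xr →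
    ∀ T2 : ℝ, T2 = T ^ 2 →
    ∀ TW : ℝ, TW = 2769 / 10000 * T →
    ∀ X2 : ℝ, X2 = Xn ^ 2 →
    ∀ d : ℝ, d = √(1 + 2 * R + T2) →
    ∀ dm : ℝ, dm = d - TW →
    ∀ wb : ℝ, wb = dm⁻¹ →
    ∀ f35 : ℝ, f35 = √(17 / 4 - 12 * R + 9 * T2) + 3 * TW →
    ∀ G1 : ℝ, G1 = 12769 / 10000 * (X2 * (√(36 + 12 * R + T2) + TW) + f35) →
    ∀ G2 : ℝ, G2 = 23 / 10 * (Xn * (√(65 / 4 - 8 * R + T2) + TW) + f35) →
    ∀ g : ℝ, g = 367 / 2000 * (wb ^ 2 * wb) * (k1 * G1 + k2 * G2) →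
    ∀ exW : ℝ, exW = 2769 / 10000 * e * √(1 + 2 * Xr + X2) →
    ∀ Q0 : ℝ, Q0 = √((1 + ep + e * Xr) ^ 2 + (e * Xi) ^ 2) →
    0 < dm ∧
      0 < Q0 - exW ∧
        0 < √(dm * (Q0 + exW)⁻¹) * cS * (u0 + u1 * z - f1 * g) - (v0 + v1 * z) ∧
          0 < w0 + w1 * zz - f2 * g ^ 2 * √((d + TW) * (Q0 - exW)⁻¹) := by
  simp only [errBody, Pg.holds, E.val, List.getD_cons_succ, List.getD_cons_zero, Nat.cast_ofNat, Nat.cast_one,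
    Nat.cast_zero, div_one, zero_div, and_true, or_false] at hc
  exact hc

theorem r1Body_real {w E0 ep e n t ae av : ℝ} {tl : List ℝ}
    (hc : r1Body.holds (w :: E0 :: ep :: e :: n :: t :: ae :: av :: tl)) :
    ∀ ka : ℝ, ka = t * (2 + t)⁻¹ →
    ∀ mu : ℝ, mu = e * (3 + ep)⁻¹ →
    ∀ S : ℝ, S = ka + mu →
    ∀ P : ℝ, P = ka * mu →
    ∀ C : ℝ, C = 3 / 2 * ka + 5 / 2 * mu →
    ∀ g1 : ℝ, g1 = -C →
    ∀ g2 : ℝ, g2 = -(1 / 2 * ((S + C) * g1 + 4 * P)) →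
    ∀ g3 : ℝ, g3 = -(1 / 3 * ((2 * S + C) * g2 + 5 * (P * g1))) →
    ∀ g4 : ℝ, g4 = -(1 / 4 * ((3 * S + C) * g3 + 6 * (P * g2))) →
    ∀ g5 : ℝ, g5 = -(1 / 5 * ((4 * S + C) * g4 + 7 * (P * g3))) →
    ∀ g6 : ℝ, g6 = -(1 / 6 * ((5 * S + C) * g5 + 8 * (P * g4))) →
    ∀ g7 : ℝ, g7 = -(1 / 7 * ((6 * S + C) * g6 + 9 * (P * g5))) →
    ∀ g8 : ℝ, g8 = -(1 / 8 * ((7 * S + C) * g7 + 10 * (P * g6))) →
    ∀ g9 : ℝ, g9 = -(1 / 9 * ((8 * S + C) * g8 + 11 * (P * g7))) →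
    ∀ g10 : ℝ, g10 = -(1 / 10 * ((9 * S + C) * g9 + 12 * (P * g8))) →
    ∀ g11 : ℝ, g11 = -(1 / 11 * ((10 * S + C) * g10 + 13 * (P * g9))) →
    ∀ g12 : ℝ, g12 = -(1 / 12 * ((11 * S + C) * g11 + 14 * (P * g10))) →
    ∀ g13 : ℝ, g13 = -(1 / 13 * ((12 * S + C) * g12 + 15 * (P * g11))) →
    0 < 1 / 1000000 - g12 ^ 2 ∧
      0 < 1 / 1000000 - g13 ^ 2 ∧
        (∀ nu0 : ℝ, nu0 = 1 + 1 / 2 * g2 + 3 / 8 * g4 + 5 / 16 * g6 + 35 / 128 * g8 + 63 / 256 * g10 + 231 / 1024 * g12 →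
        ∀ nu1 : ℝ, nu1 = 1 / 2 * g1 + 3 / 8 * g3 + 5 / 16 * g5 + 35 / 128 * g7 + 63 / 256 * g9 + 231 / 1024 * g11 →
        ∀ nu2 : ℝ, nu2 = 1 / 2 + 3 / 8 * g2 + 5 / 16 * g4 + 35 / 128 * g6 + 63 / 256 * g8 + 231 / 1024 * g10 + 429 / 2048 * g12 →
        ∀ nu3 : ℝ, nu3 = 3 / 8 * g1 + 5 / 16 * g3 + 35 / 128 * g5 + 63 / 256 * g7 + 231 / 1024 * g9 + 429 / 2048 * g11 →
        ∀ nu4 : ℝ, nu4 = 3 / 8 + 5 / 16 * g2 + 35 / 128 * g4 + 63 / 256 * g6 + 231 / 1024 * g8 + 429 / 2048 * g10 + 6435 / 32768 * g12 →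
        ∀ u0 : ℝ, u0 = nu0 + ka * nu1 →
        ∀ u1 : ℝ, u1 = nu1 + ka * nu2 →
        ∀ u2 : ℝ, u2 = nu2 + ka * nu3 →
        ∀ u3 : ℝ, u3 = nu3 + ka * nu4 →
        ∀ uu0 : ℝ, uu0 = u0 + ka * u1 →
        ∀ uu1 : ℝ, uu1 = u1 + ka * u2 →
        ∀ uu2 : ℝ, uu2 = u2 + ka * u3 →
        ∀ xu0 : ℝ, xu0 = 1 / 2 * (u0 + u1) →
        ∀ xu1 : ℝ, xu1 = 1 / 2 * (u1 + u2) →
        ∀ xu2 : ℝ, xu2 = 1 / 2 * (u2 + u3) →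
        ∀ xa0 : ℝ, xa0 = 1 / 2 * (nu0 + nu1) →
        ∀ xa1 : ℝ, xa1 = 1 / 2 * (nu1 + nu2) →
        ∀ xa2 : ℝ, xa2 = 1 / 2 * (nu2 + nu3) →
        ∀ xa3 : ℝ, xa3 = 1 / 2 * (nu3 + nu4) →
        ∀ xx0 : ℝ, xx0 = 1 / 2 * (xa0 + xa1) →
        ∀ xx1 : ℝ, xx1 = 1 / 2 * (xa1 + xa2) →
        ∀ xx2 : ℝ, xx2 = 1 / 2 * (xa2 + xa3) →
        ∀ a0 : ℝ, a0 = av * (2 * (2 + t)⁻¹) →
        ∀ b0 : ℝ, b0 = ae * (2 * (3 + ep)⁻¹) →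
        ∀ uuv0 : ℝ, uuv0 = uu0 + mu * uu1 →
        ∀ uuv1 : ℝ, uuv1 = uu1 + mu * uu2 →
        ∀ N00_0 : ℝ, N00_0 = uuv0 + mu * uuv1 →
        ∀ N01_0 : ℝ, N01_0 = 1 / 2 * (uuv0 - uuv1) →
        ∀ uuy0 : ℝ, uuy0 = 1 / 2 * (uu0 - uu1) →
        ∀ uuy1 : ℝ, uuy1 = 1 / 2 * (uu1 - uu2) →
        ∀ N02_0 : ℝ, N02_0 = 1 / 2 * (uuy0 - uuy1) →
        ∀ xuv0 : ℝ, xuv0 = xu0 + mu * xu1 →
        ∀ xuv1 : ℝ, xuv1 = xu1 + mu * xu2 →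
        ∀ N10_0 : ℝ, N10_0 = xuv0 + mu * xuv1 →
        ∀ N11_0 : ℝ, N11_0 = 1 / 2 * (xuv0 - xuv1) →
        ∀ xxv0 : ℝ, xxv0 = xx0 + mu * xx1 →
        ∀ xxv1 : ℝ, xxv1 = xx1 + mu * xx2 →
        ∀ N20_0 : ℝ, N20_0 = xxv0 + mu * xxv1 →
        ∀ thM0 : ℝ, 4989 / 5000 ≤ thM0 → thM0 ≤ 5011 / 5000 →
        ∀ M0 : ℝ, M0 = N00_0 * thM0 →
        ∀ theM : ℝ, 4989 / 5000 ≤ theM → theM ≤ 5011 / 5000 →
        ∀ eM : ℝ, eM = b0 * N01_0 * theM →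
        ∀ the2 : ℝ, 4989 / 5000 ≤ the2 → the2 ≤ 5011 / 5000 →
        ∀ e2 : ℝ, e2 = b0 ^ 2 * N02_0 * the2 →
        ∀ thaM : ℝ, 4989 / 5000 ≤ thaM → thaM ≤ 5011 / 5000 →
        ∀ aM : ℝ, aM = a0 * N10_0 * thaM →
        ∀ thea : ℝ, 4989 / 5000 ≤ thea → thea ≤ 5011 / 5000 →
        ∀ ea : ℝ, ea = a0 * b0 * N11_0 * thea →
        ∀ tha2 : ℝ, 4989 / 5000 ≤ tha2 → tha2 ≤ 5011 / 5000 →
        ∀ a2 : ℝ, a2 = a0 ^ 2 * N20_0 * tha2 →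
        ∀ pk : ℝ, pk = 6367 / 10000 * (E0 * √((3 + ep) * (2 + t)⁻¹)) →
        ∀ sg : ℝ, sg = (eM + 1 / 2 * ((1 + ep) * aM) + 100 / 13 * ((w - 1) * pk)) * (M0 - 1 / 2 * (n * aM))⁻¹ →
        ∀ s : ℝ, s = e - n * sg →
        ∀ k : ℝ, k = 2 - s →
        ∀ sk : ℝ, sk = 1 - s * k →
        ∀ F2 : ℝ, F2 = (2 * (e * sg) - ae) * M0 + (1 - 4 * e) * eM + sk * aM + n * (3 * e2 - 1 / 4 * (k ^ 2 * a2) - 2 * (sg * eM) + k * ea - k * sg * aM) →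
        ∀ q2 : ℝ, q2 = 20000 / 169 * pk →
        (0 < F2 - q2) ∨
        (0 < -F2 - q2) ∨
        ∀ r0 : ℝ, 0 ≤ r0 → r0 ≤ 1 →
        ∀ r1 : ℝ, 0 ≤ r1 → r1 ≤ 1 →
        ∀ r2 : ℝ, 0 ≤ r2 → r2 ≤ 1 →
        ∀ r3 : ℝ, 0 ≤ r3 → r3 ≤ 1 →
        ∀ a3 : ℝ, a3 = r0 * a2 * av →
        ∀ a2e : ℝ, a2e = r1 * ea * av →
        ∀ ae2 : ℝ, ae2 = r2 * ea * ae →
        ∀ e3 : ℝ, e3 = r3 * e2 * ae →
        ∀ h : ℝ, h = 1 / 2 * k →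
        ∀ l3 : ℝ, l3 = (6 * (e * ae) - 6 * (e ^ 2 * sg)) * M0 + 12 * (e * (2 * e - 1)) * eM - 3 * (s * sk) * aM + n * (6 * (e * sg ^ 2) * M0 + (6 - 24 * e) * e2 - 3 * (k * sk) * a2) + n ^ 2 * (8 * e3 - 2 * (sg ^ 2 * sg) * M0 + k ^ 2 * k * a3) →
        ∀ c0 : ℝ, c0 = 2 * (e * sg) - ae - n * sg ^ 2 →
        ∀ l12 : ℝ, l12 = c0 * (eM - sg * M0 + h * aM) + (1 - 4 * e) * (e2 - sg * eM + h * ea) + sk * (ea - sg * aM + h * a2) + n * (2 * (e3 - sg * e2 + h * ae2) - 2 * h ^ 2 * (a2e - sg * a2 + h * a3)) →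
        ∀ l111 : ℝ, l111 = e3 + 3 * (h * ae2) + 3 * (h ^ 2 * a2e) + h ^ 2 * h * a3 - 3 * (sg * (e2 + 2 * (h * ea) + h ^ 2 * a2)) + 3 * (sg ^ 2 * (eM + h * aM)) - sg ^ 2 * sg * M0 →
        0 < l3 + 3 * (n * l12) + n ^ 2 * l111 - 6000000 / 2197 * pk) := by
  simp only [r1Body, Pg.holds, E.val, List.getD_cons_succ, List.getD_cons_zero, Nat.cast_ofNat, Nat.cast_one,
    Nat.cast_zero, div_one, zero_div, and_true, or_false] at hc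
  exact hc

theorem pPA_real {w t0 t1 t2 t3 t4 t5 m0 m1 m2 m3 m4 m5 y0 y1 y2 y3 y4 y5 h0 h1 h2 h3 h4 h5 A0 B0 Z nu jk al a s1 : ℝ} {tl : List ℝ}
    (hc : pPA.holds (w :: t0 :: t1 :: t2 :: t3 :: t4 :: t5 :: m0 :: m1 :: m2 :: m3 :: m4 :: m5 :: y0 :: y1 :: y2 :: y3 :: y4 :: y5 :: h0 :: h1 :: h2 :: h3 :: h4 :: h5 :: A0 :: B0 :: Z :: nu :: jk :: al :: a :: s1 :: tl)) :
    ∀ ka : ℝ, 4999 / 5000 ≤ ka → ka ≤ 5000 / 5000 →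
    ∀ sg : ℝ, sg = w →
    ∀ d1 : ℝ, d1 = -(2 * (s1 * ka * al)) →
    ∀ d2 : ℝ, d2 = s1 * (4 * ka ^ 2 - ka) →
    ∀ dd : ℝ, dd = d1 ^ 2 →
    ∀ du : ℝ, du = d1 * sg →
    ∀ uu : ℝ, uu = sg ^ 2 →
    ∀ Ye0 : ℝ, 0 ≤ Ye0 → Ye0 ≤ 2 →
    ∀ Ye1 : ℝ, 0 ≤ Ye1 → Ye1 ≤ 2 →
    ∀ Ye2 : ℝ, 0 ≤ Ye2 → Ye2 ≤ 2 →
    ∀ Y0 : ℝ, Y0 = y0 + 3 / 50000 * (Ye0 - 1) →
    ∀ Y1 : ℝ, Y1 = y1 * d1 + y2 * sg + 3 / 12500 * (Ye1 - 1) →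
    ∀ Y2 : ℝ, Y2 = y1 * d2 + y3 * dd + y4 * du + y5 * uu + 3 / 3125 * (Ye2 - 1) →
    ∀ He0 : ℝ, 0 ≤ He0 → He0 ≤ 2 →
    ∀ He1 : ℝ, 0 ≤ He1 → He1 ≤ 2 →
    ∀ He2 : ℝ, 0 ≤ He2 → He2 ≤ 2 →
    ∀ H0 : ℝ, H0 = h0 + 1 / 500 * (He0 - 1) →
    ∀ H1 : ℝ, H1 = h1 * d1 + h2 * sg + 1 / 125 * (He1 - 1) →
    ∀ H2 : ℝ, H2 = h1 * d2 + h3 * dd + h4 * du + h5 * uu + 4 / 125 * (He2 - 1) →
    ∀ B1 : ℝ, B1 = B0 * (sg - jk * d1) →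
    ∀ S0 : ℝ, S0 = A0 + B0 →
    ∀ S1 : ℝ, S1 = d1 + 2 * (A0 * sg) + B1 →
    ∀ dn0 : ℝ, dn0 = 1 - nu * A0 - Z →
    ∀ dn1 : ℝ, dn1 = (Z * jk - nu) * d1 →
    ∀ B2 : ℝ, B2 = -(B0 * (jk * (d2 + du))) →
    ∀ S2 : ℝ, S2 = d2 + 2 * du + A0 * uu + B2 →
    ∀ dn2 : ℝ, dn2 = (Z * jk - nu) * d2 →
    ∀ iS0 : ℝ, iS0 = S0⁻¹ →
    ∀ iS1 : ℝ, iS1 = -(S1 * iS0 ^ 2) →
    ∀ iS2 : ℝ, iS2 = -((S1 * iS1 + S2 * iS0) * iS0) →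
    ∀ AA0 : ℝ, AA0 = B0 * iS0 →
    ∀ AA1 : ℝ, AA1 = B0 * iS1 + B1 * iS0 →
    ∀ AA2 : ℝ, AA2 = B0 * iS2 + B1 * iS1 + B2 * iS0 →
    ∀ idn0 : ℝ, idn0 = dn0⁻¹ →
    ∀ idn1 : ℝ, idn1 = -(dn1 * idn0 ^ 2) →
    ∀ idn2 : ℝ, idn2 = -((dn1 * idn1 + dn2 * idn0) * idn0) →
    ∀ qq0 : ℝ, qq0 = S0 * idn0 →
    ∀ qq1 : ℝ, qq1 = S0 * idn1 + S1 * idn0 →
    ∀ qq2 : ℝ, qq2 = S0 * idn2 + S1 * idn1 + S2 * idn0 →
    ∀ r0 : ℝ, r0 = √qq0 →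
    ∀ ir : ℝ, ir = r0⁻¹ →
    ∀ r1 : ℝ, r1 = 1 / 2 * (qq1 * ir) →
    ∀ r2 : ℝ, r2 = 1 / 2 * ((qq2 - r1 ^ 2) * ir) →
    ∀ Mi0 : ℝ, Mi0 = r0 * Y0 →
    ∀ Mi1 : ℝ, Mi1 = r0 * Y1 + r1 * Y0 →
    ∀ Mi2 : ℝ, Mi2 = r0 * Y2 + r1 * Y1 + r2 * Y0 →
    ∀ ay0 : ℝ, ay0 = AA0 * Y0 →
    ∀ ay1 : ℝ, ay1 = AA0 * Y1 + AA1 * Y0 →
    ∀ ay2 : ℝ, ay2 = AA0 * Y2 + AA1 * Y1 + AA2 * Y0 →
    ∀ Mr0 : ℝ, Mr0 = H0 + 1 / 2 * ay0 →
    ∀ Mr1 : ℝ, Mr1 = H1 + 1 / 2 * ay1 →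
    ∀ Mr2 : ℝ, Mr2 = H2 + 1 / 2 * ay2 →
    ∀ n0 : ℝ, n0 = Mr0 ^ 2 + Mi0 ^ 2 →
    ∀ inn : ℝ, inn = n0⁻¹ →
    ∀ l1i : ℝ, l1i = (Mi1 * Mr0 - Mr1 * Mi0) * inn →
    ∀ l1r : ℝ, l1r = (Mr1 * Mr0 + Mi1 * Mi0) * inn →
    ∀ l2i : ℝ, l2i = (Mi2 * Mr0 - Mr2 * Mi0) * inn - l1r * l1i →
    ∀ iq1 : ℝ, iq1 = -(r1 * ir ^ 2) →
    ∀ iq2 : ℝ, iq2 = -((r1 * iq1 + r2 * ir) * ir) →
    ∀ Tb0 : ℝ, Tb0 = AA0 * ir →
    ∀ Tb1 : ℝ, Tb1 = AA0 * iq1 + AA1 * ir →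
    ∀ Tb2 : ℝ, Tb2 = AA0 * iq2 + AA1 * iq1 + AA2 * ir →
    ∀ v : ℝ, v = (23 / 25 * (1 / 2 * a - 1 / 2 * al + 57 / 25))⁻¹ →
    ∀ A13 : ℝ, A13 = AA0 ^ 2 * AA0 →
    ∀ bb0 : ℝ, bb0 = 50 / 49 * (1 / 16 * (v ^ 2 * (16 / 5 + 5 / 2 * A13)) + 1 / 1250) →
    ∀ hN : ℝ, hN = 1250 / 2401 * (√(31 / 2500 * (v ^ 2 * v * (33 / 2 + 23 * A13))) + 9 / 1000) ^ 2 →
    ∀ EE : ℝ, EE = hN + 11 / 500 * (v * (1 + √(137 / 100 * AA0))) →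
    ∀ at1 : ℝ, at1 = 1 / 2 * (l1i ^ 2 + 1) →
    ∀ E1 : ℝ, E1 = 4 * EE + bb0 * (2 + at1) + 11 / 10 * (bb0 ^ 2 * (4 + at1)) →
    ∀ I1 : ℝ, I1 = l1i + 1 / 4 * Tb1 →
    ∀ rho : ℝ, rho = 1001 / 2500 * (√(1 + 40 / 999 * a) + 1001 / 5000 * al)⁻¹ →
    ∀ ex : ℝ, ex = sg - rho →
    0 < n0 ∧
      0 < 9 / 100 - bb0 ∧
        ((0 < ex ∧
          0 < 32967 / 1000 * ex + 2 * I1 - 2 * E1) ∨
        ∀ dl : ℝ, 0 ≤ dl → dl ≤ 2 →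
        ∀ E2 : ℝ, E2 = 16 * EE + bb0 * (8 + 4 * at1 + l1i ^ 2) + bb0 ^ 2 * (11 / 10 * (16 + 4 * at1 + l1i ^ 2) + 61 / 100 * (4 + at1) ^ 2) →
        ∀ I2 : ℝ, I2 = l2i * (1 + 11 / 10 * ((dl - 1) * bb0)) + 1 / 4 * Tb2 →
        ∀ s : ℝ, s = sg * al →
        ∀ yy : ℝ, yy = 1001 / 20000 * (√s1 + √(s1 + 4 * a)) →
        ∀ K : ℝ, K = 6 * (1 - yy ^ 2) * (1 + 4 * yy + yy ^ 2)⁻¹ →
        ∀ cc : ℝ, cc = 2991 / 1000 - 7 / 2 * s + 3 / 4 * s ^ 2 - 1 / 4 * ((2 - s) ^ 2 * (1 - AA0)) →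
        0 < cc ∧
          0 < cc * K + 1 / 2 * sg * (I1 - E1) + 2 * (I2 - E2)) := by
  simp only [pPA, Pg.holds, E.val, List.getD_cons_succ, List.getD_cons_zero, Nat.cast_ofNat, Nat.cast_one,
    Nat.cast_zero, div_one, zero_div, and_true, or_false] at hc
  exact hc

theorem pPB_real {w t0 t1 t2 t3 t4 t5 m0 m1 m2 m3 m4 m5 y0 y1 y2 y3 y4 y5 h0 h1 h2 h3 h4 h5 A0 B0 Z nu jk al a s1 : ℝ} {tl : List ℝ}
    (hc : pPB.holds (w :: t0 :: t1 :: t2 :: t3 :: t4 :: t5 :: m0 :: m1 :: m2 :: m3 :: m4 :: m5 :: y0 :: y1 :: y2 :: y3 :: y4 :: y5 :: h0 :: h1 :: h2 :: h3 :: h4 :: h5 :: A0 :: B0 :: Z :: nu :: jk :: al :: a :: s1 :: tl)) :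
    ∀ ka : ℝ, 4999 / 5000 ≤ ka → ka ≤ 5000 / 5000 →
    ∀ sg : ℝ, sg = 3 / 5 →
    ∀ d1 : ℝ, d1 = -(2 * (s1 * ka * al * w)) →
    ∀ Ye0 : ℝ, 0 ≤ Ye0 → Ye0 ≤ 2 →
    ∀ Ye1 : ℝ, 0 ≤ Ye1 → Ye1 ≤ 2 →
    ∀ Y0 : ℝ, Y0 = y0 + 3 / 50000 * (Ye0 - 1) →
    ∀ Y1 : ℝ, Y1 = y1 * d1 + y2 * sg + 3 / 12500 * (Ye1 - 1) →
    ∀ He0 : ℝ, 0 ≤ He0 → He0 ≤ 2 →
    ∀ He1 : ℝ, 0 ≤ He1 → He1 ≤ 2 →
    ∀ H0 : ℝ, H0 = h0 + 1 / 500 * (He0 - 1) →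
    ∀ H1 : ℝ, H1 = h1 * d1 + h2 * sg + 1 / 125 * (He1 - 1) →
    ∀ B1 : ℝ, B1 = B0 * (sg - jk * d1) →
    ∀ S0 : ℝ, S0 = A0 + B0 →
    ∀ S1 : ℝ, S1 = d1 + 2 * (A0 * sg) + B1 →
    ∀ dn0 : ℝ, dn0 = 1 - nu * A0 - Z →
    ∀ dn1 : ℝ, dn1 = (Z * jk - nu) * d1 →
    ∀ iS0 : ℝ, iS0 = S0⁻¹ →
    ∀ iS1 : ℝ, iS1 = -(S1 * iS0 ^ 2) →
    ∀ AA0 : ℝ, AA0 = B0 * iS0 →
    ∀ AA1 : ℝ, AA1 = B0 * iS1 + B1 * iS0 →
    ∀ idn0 : ℝ, idn0 = dn0⁻¹ →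
    ∀ idn1 : ℝ, idn1 = -(dn1 * idn0 ^ 2) →
    ∀ qq0 : ℝ, qq0 = S0 * idn0 →
    ∀ qq1 : ℝ, qq1 = S0 * idn1 + S1 * idn0 →
    ∀ r0 : ℝ, r0 = √qq0 →
    ∀ ir : ℝ, ir = r0⁻¹ →
    ∀ r1 : ℝ, r1 = 1 / 2 * (qq1 * ir) →
    ∀ Mi0 : ℝ, Mi0 = r0 * Y0 →
    ∀ Mi1 : ℝ, Mi1 = r0 * Y1 + r1 * Y0 →
    ∀ ay0 : ℝ, ay0 = AA0 * Y0 →
    ∀ ay1 : ℝ, ay1 = AA0 * Y1 + AA1 * Y0 →
    ∀ Mr0 : ℝ, Mr0 = H0 + 1 / 2 * ay0 →
    ∀ Mr1 : ℝ, Mr1 = H1 + 1 / 2 * ay1 →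
    ∀ n0 : ℝ, n0 = Mr0 ^ 2 + Mi0 ^ 2 →
    ∀ inn : ℝ, inn = n0⁻¹ →
    ∀ l1i : ℝ, l1i = (Mi1 * Mr0 - Mr1 * Mi0) * inn →
    ∀ iq1 : ℝ, iq1 = -(r1 * ir ^ 2) →
    ∀ Tb0 : ℝ, Tb0 = AA0 * ir →
    ∀ Tb1 : ℝ, Tb1 = AA0 * iq1 + AA1 * ir →
    ∀ v : ℝ, v = (23 / 25 * (1 / 2 * a - 1 / 2 * al + 57 / 25))⁻¹ →
    ∀ A13 : ℝ, A13 = AA0 ^ 2 * AA0 →
    ∀ bb0 : ℝ, bb0 = 50 / 49 * (1 / 16 * (v ^ 2 * (16 / 5 + 5 / 2 * A13)) + 1 / 1250) →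
    ∀ hN : ℝ, hN = 1250 / 2401 * (√(31 / 2500 * (v ^ 2 * v * (33 / 2 + 23 * A13))) + 9 / 1000) ^ 2 →
    ∀ EE : ℝ, EE = hN + 11 / 500 * (v * (1 + √(137 / 100 * AA0))) →
    ∀ at1 : ℝ, at1 = 1 / 2 * (l1i ^ 2 + 1) →
    ∀ E1 : ℝ, E1 = 4 * EE + bb0 * (2 + at1) + 11 / 10 * (bb0 ^ 2 * (4 + at1)) →
    ∀ I1 : ℝ, I1 = l1i + 1 / 4 * Tb1 →
    ∀ rho : ℝ, rho = 1001 / 2500 * (√(1 + 40 / 999 * a) + 1001 / 5000 * al)⁻¹ →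
    ∀ ex : ℝ, ex = sg - w * rho →
    0 < n0 ∧
      0 < 9 / 100 - bb0 ∧
        0 < ex ∧
          0 < 32967 / 1000 * ex + 2 * I1 - 2 * E1 := by
  simp only [pPB, Pg.holds, E.val, List.getD_cons_succ, List.getD_cons_zero, Nat.cast_ofNat, Nat.cast_one,
    Nat.cast_zero, div_one, zero_div, and_true, or_false] at hc
  exact hc

theorem E1_real (x y z0 : ℝ) (hx0 : 0 ≤ x) (hx1 : x ≤ 99 / 500) (hy0 : 0 ≤ y) (hy1 : y ≤ 1) (hz00 : 0 ≤ z0) (hz01 : z0 ≤ 987 / 100) :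
    ∃ tl : List ℝ, errBody.holds (z0 :: (1 - y) :: y :: (1 - y) * x :: x ^ 2 * (1 - y) :: x ^ 2 * y :: x :: 19 / 10000 :: 13332663 / 200000 :: 621 / 50000 :: 171 / 16450 :: 19 / 200 :: 380 / 9869 :: 21 / 2500000 :: 1 / 231945 :: tl) := by
  have hc := E1_cov x y z0 (by push_cast; linarith) (by push_cast; linarith) (by push_cast; linarith) (by push_cast; linarith) (by push_cast; linarith) (by push_cast; linarith)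
  simp only [pE1, Pg.holds, E.val, List.getD_cons_succ, List.getD_cons_zero, Nat.cast_ofNat, Nat.cast_one,
    Nat.cast_zero, div_one, zero_div, and_true, or_false] at hc
  exact ⟨_, hc _ rfl _ rfl _ rfl _ rfl _ rfl _ rfl _ rfl _ rfl _ rfl _ rfl _ rfl _ rfl _ rfl _ rfl _ rfl⟩

theorem E2_real (x y z0 : ℝ) (hx0 : 0 ≤ x) (hx1 : x ≤ 21 / 100) (hy0 : 0 ≤ y) (hy1 : y ≤ 29 / 625) (hz00 : 0 ≤ z0) (hz01 : z0 ≤ 987 / 100) :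
    ∃ tl : List ℝ, errBody.holds (z0 :: (1 - y) :: y :: x :: 2391 / 10000 * (x ^ 2 * x) :: 143 / 2500 * (x ^ 2) ^ 2 :: 1 :: 113 / 100 * x :: 14878479 / 250000 :: 53 / 12500 :: 583 / 197400 :: 11 / 400 :: 110 / 9869 :: 3 / 250000 :: 1 / 649446 :: tl) := by
  have hc := E2_cov x y z0 (by push_cast; linarith) (by push_cast; linarith) (by push_cast; linarith) (by push_cast; linarith) (by push_cast; linarith) (by push_cast; linarith)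
  simp only [pE2, Pg.holds, E.val, List.getD_cons_succ, List.getD_cons_zero, Nat.cast_ofNat, Nat.cast_one,
    Nat.cast_zero, div_one, zero_div, and_true, or_false] at hc
  exact ⟨_, hc _ rfl _ rfl _ rfl _ rfl _ rfl _ rfl _ rfl _ rfl _ rfl _ rfl _ rfl _ rfl _ rfl _ rfl _ rfl⟩

theorem E3_real (x y z0 : ℝ) (hx0 : 21 / 100 ≤ x) (hx1 : x ≤ 1) (hy0 : 0 ≤ y) (hy1 : y ≤ 29 / 625) (hz00 : 0 ≤ z0) (hz01 : z0 ≤ 987 / 100) :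
    ∃ tl : List ℝ, errBody.holds (z0 :: (1 - y) :: y :: x :: 211 / 100000 :: 49 / 500000 :: 1 :: 113 / 100 * x :: 14878479 / 250000 :: 53 / 12500 :: 583 / 197400 :: 11 / 400 :: 110 / 9869 :: 3 / 250000 :: 1 / 649446 :: tl) := by
  have hc := E3_cov x y z0 (by push_cast; linarith) (by push_cast; linarith) (by push_cast; linarith) (by push_cast; linarith) (by push_cast; linarith) (by push_cast; linarith)
  simp only [pE3, Pg.holds, E.val, List.getD_cons_succ, List.getD_cons_zero, Nat.cast_ofNat, Nat.cast_one,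
    Nat.cast_zero, div_one, zero_div, and_true, or_false] at hc
  exact ⟨_, hc _ rfl _ rfl _ rfl _ rfl _ rfl _ rfl _ rfl _ rfl _ rfl _ rfl _ rfl _ rfl _ rfl _ rfl _ rfl⟩

theorem RA_real (x y z0 : ℝ) (hx0 : 0 ≤ x) (hx1 : x ≤ 13 / 5) (hy0 : 0 ≤ y) (hy1 : y ≤ 1) (hz00 : 0 ≤ z0) (hz01 : z0 ≤ 2)
    (hv : 4761 / 4 * (x ^ 2 * y ^ 2 * y) - 2 ≤ 0) :
    ∃ tl : List ℝ, r1Body.holds (z0 :: (7 / 10000 + 31 / 500000 * (x * ((1 - y) * y * x))) :: y :: (1 - y) :: (1 - y) * y :: (1 - y) * y * x :: 1 :: x :: tl) := by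
  have hc := RA_cov x y z0 (by push_cast; linarith) (by push_cast; linarith) (by push_cast; linarith) (by push_cast; linarith) (by push_cast; linarith) (by push_cast; linarith)
  simp only [pRA, Pg.holds, E.val, List.getD_cons_succ, List.getD_cons_zero, Nat.cast_ofNat, Nat.cast_one,
    Nat.cast_zero, div_one, zero_div, and_true, or_false] at hc
  rcases hc with hc | hc
  · exact absurd hc (not_lt.2 hv)
  · exact ⟨_, hc _ rfl _ rfl _ rfl _ rfl _ rfl _ rfl _ rfl _ rfl _ rfl⟩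

theorem RB_real (x y z0 : ℝ) (hx0 : 13 / 5 ≤ x) (hx1 : x ≤ 23 / 5) (hy0 : 0 ≤ y) (hy1 : y ≤ 8 / 125) (hz00 : 0 ≤ z0) (hz01 : z0 ≤ 2)
    (hv : 4761 / 4 * (x ^ 2 * y ^ 2 * y) - 2 ≤ 0) :
    ∃ tl : List ℝ, r1Body.holds (z0 :: (7 / 10000 + 31 / 500000 * (x * ((1 - y) * y * x))) :: y :: (1 - y) :: (1 - y) * y :: (1 - y) * y * x :: 1 :: x :: tl) := by
  have hc := RB_cov x y z0 (by push_cast; linarith) (by push_cast; linarith) (by push_cast; linarith) (by push_cast; linarith) (by push_cast; linarith) (by push_cast; linarith)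
  simp only [pRA, Pg.holds, E.val, List.getD_cons_succ, List.getD_cons_zero, Nat.cast_ofNat, Nat.cast_one,
    Nat.cast_zero, div_one, zero_div, and_true, or_false] at hc
  rcases hc with hc | hc
  · exact absurd hc (not_lt.2 hv)
  · exact ⟨_, hc _ rfl _ rfl _ rfl _ rfl _ rfl _ rfl _ rfl _ rfl _ rfl⟩

theorem RC_real (x y z0 : ℝ) (hx0 : 0 ≤ x) (hx1 : x ≤ 1) (hy0 : 0 ≤ y) (hy1 : y ≤ 57 / 250) (hz00 : 0 ≤ z0) (hz01 : z0 ≤ 2)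
    (hv : 23716 / 25 * (y * x * x ^ 2) - 2 * (1 - y * x) ^ 2 ≤ 0) :
    ∃ tl : List ℝ, r1Body.holds (z0 :: (31 / 100000 + 39 / 500000 * x) :: y * x :: (1 - y * x) :: x :: x :: (1 - y * x) * y :: 1 :: tl) := by
  have hc := RC_cov x y z0 (by push_cast; linarith) (by push_cast; linarith) (by push_cast; linarith) (by push_cast; linarith) (by push_cast; linarith) (by push_cast; linarith)
  simp only [pRC, Pg.holds, E.val, List.getD_cons_succ, List.getD_cons_zero, Nat.cast_ofNat, Nat.cast_one,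
    Nat.cast_zero, div_one, zero_div, and_true, or_false] at hc
  rcases hc with hc | hc
  · exact absurd hc (not_lt.2 hv)
  · exact ⟨_, hc _ rfl _ rfl _ rfl _ rfl _ rfl _ rfl _ rfl _ rfl⟩

theorem P0_real (al xx : ℝ) (h0 : 0 ≤ al) (h1 : al ≤ 3953 / 2500) (h2 : 0 ≤ xx) (h3 : xx ≤ 1) :
    (∀ w : ℝ, 0 ≤ w → w ≤ 3 / 5 → p3Pre0.holds (fun r => pPA.holds (w :: r)) [xx, al]) ∧
    (∀ w : ℝ, 0 ≤ w → w ≤ 1 → p3Pre0.holds (fun r => pPB.holds (w :: r)) [xx, al]) := by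
  have hc := P0_cov al xx (by push_cast; linarith) (by push_cast; linarith) (by push_cast; linarith) (by push_cast; linarith)
  exact ⟨fun w a b => hc.1 w (by push_cast; linarith) (by push_cast; linarith),
    fun w a b => hc.2 w (by push_cast; linarith) (by push_cast; linarith)⟩

theorem P1_real (al xx : ℝ) (h0 : 0 ≤ al) (h1 : al ≤ 3953 / 2500) (h2 : 0 ≤ xx) (h3 : xx ≤ 1) :
    (∀ w : ℝ, 0 ≤ w → w ≤ 3 / 5 → p3Pre1.holds (fun r => pPA.holds (w :: r)) [xx, al]) ∧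
    (∀ w : ℝ, 0 ≤ w → w ≤ 1 → p3Pre1.holds (fun r => pPB.holds (w :: r)) [xx, al]) := by
  have hc := P1_cov al xx (by push_cast; linarith) (by push_cast; linarith) (by push_cast; linarith) (by push_cast; linarith)
  exact ⟨fun w a b => hc.1 w (by push_cast; linarith) (by push_cast; linarith),
    fun w a b => hc.2 w (by push_cast; linarith) (by push_cast; linarith)⟩

end Pool.Agent.HillD.Num
end

-- part Pool.Agent.P.MP_ae2765_an.WR1a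
section

/-! First region: the angle condition along the path. -/

namespace Pool.Agent.HillD
open Real Set Filter Topology Asymptotics Pool.Agent.HillD.Num Pool.Agent.P.MP_4c4e6e_co.Eng

theorem wr1a_key {a c p q m : ℂ} {K A B σ : ℝ} (hK : 0 < K) (hm : Sa m σ) (hσ : 0 ≤ σ)
    (hA : ‖p - a‖ ≤ A) (hB : ‖q - c‖ ≤ B)
    (h : 0 < 231 / 281 * (a * (starRingEnd ℂ) c).re - 160 / 281 * (a * (starRingEnd ℂ) c).im -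
      A * ‖c‖ - ‖a‖ * (2 * σ * ‖c‖ + B)) :
    p ≠ 0 ∧ q ≠ 0 ∧ (K * m ^ 2 * p / q).im ≤ 231 / 281 * ‖K * m ^ 2 * p / q‖ := by
  have hA0 : 0 ≤ A := (norm_nonneg _).trans hA
  have hB0 : 0 ≤ B := (norm_nonneg _).trans hB
  have hz : ‖a * (starRingEnd ℂ) c‖ = ‖a‖ * ‖c‖ := by rw [norm_mul, Complex.norm_conj]
  have hS : 231 / 281 * (a * (starRingEnd ℂ) c).re - 160 / 281 * (a * (starRingEnd ℂ) c).im ≤
      ‖a‖ * ‖c‖ := by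
    rw [← hz]
    generalize a * (starRingEnd ℂ) c = z
    rw [Complex.norm_eq_sqrt_sq_add_sq]
    refine Real.le_sqrt_of_sq_le ?_
    nlinarith [sq_nonneg (160 / 281 * z.re + 231 / 281 * z.im)]
  have na := norm_nonneg a
  have nc := norm_nonneg c
  have p1 : 0 ≤ A * ‖c‖ := by positivity
  have p2 : 0 ≤ ‖a‖ * (2 * σ * ‖c‖ + B) := by positivity
  have hac : 0 < ‖a‖ * ‖c‖ := by linarith
  have ha : 0 < ‖a‖ := na.lt_of_ne' fun e => by simp [e] at hac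
  have hc : 0 < ‖c‖ := nc.lt_of_ne' fun e => by simp [e] at hac
  have ha' : a ≠ 0 := norm_pos_iff.1 ha
  have hc' : c ≠ 0 := norm_pos_iff.1 hc
  have q1 : 0 ≤ A / ‖a‖ := by positivity
  have q2 : 0 ≤ B / ‖c‖ := by positivity
  have e0 : (σ + σ + A / ‖a‖ + B / ‖c‖) * (‖a‖ * ‖c‖) =
      A * ‖c‖ + ‖a‖ * (2 * σ * ‖c‖ + B) := by
    field_simp
    ring
  have h1 : σ + σ + A / ‖a‖ + B / ‖c‖ < 1 := by
    refine lt_of_mul_lt_mul_right ?_ hac.le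
    linarith
  have s1 : Sa (1 + (p - a) / a) (A / ‖a‖) :=
    sa_one_add (by rw [norm_div]; gcongr) (by linarith)
  have s2 : Sa (1 + (q - c) / c) (B / ‖c‖) :=
    sa_one_add (by rw [norm_div]; gcongr) (by linarith)
  have e1 : 1 + (p - a) / a = p / a := by field_simp; ring
  have e2 : 1 + (q - c) / c = q / c := by field_simp; ring
  rw [e1] at s1
  rw [e2] at s2
  have hp : p ≠ 0 := fun e => s1.ne (by simp [e])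
  have hq : q ≠ 0 := fun e => s2.ne (by simp [e])
  refine ⟨hp, hq, ?_⟩
  have s3 := (((hm.mul hm hσ hσ (by linarith)).mul s1 (by linarith) q1 (by linarith)).mul s2.inv
    (by linarith) q2 h1).pos_mul (c := K / ‖c‖ ^ 2) (by positivity)
  have s4 := ang_lemma (z := a * (starRingEnd ℂ) c) (cs := 160 / 281) (sn := 231 / 281)
    (by norm_num) (by norm_num) (by norm_num) s3 (by linarith) (by rw [hz]; linarith)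
  have e3 : a * (starRingEnd ℂ) c * (((K / ‖c‖ ^ 2 : ℝ) : ℂ) * (m * m * (p / a) * (q / c)⁻¹)) =
      K * m ^ 2 * p / q := by
    have hc2 : (starRingEnd ℂ) c ≠ 0 := by simpa using hc'
    push_cast
    rw [← Complex.conj_mul']
    field_simp
  rwa [e3] at s4

theorem r1_ang {δ0 ω0 s u : ℝ} {τ : ℂ} (hδ : 0 < δ0) (hω : 0 < ω0) (ht : δ0 ^ 2 ≤ ω0)
    (hs0 : 0 ≤ s) (hs1 : s ≤ δ0 ^ 2 / (1 + δ0 ^ 2)) (hτ : ‖τ‖ ≤ 13 / 100)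
    (hu : u ∈ Icc (0 : ℝ) 1) :
    PP (lΩ ω0 s τ) (lJ δ0 τ) (pX (π / 2) u) ≠ 0 ∧ QQ (lJ δ0 τ) (pX (π / 2) u) ≠ 0 ∧
      (G2 (π / 2) (lΩ ω0 s τ) (lJ δ0 τ) u).im ≤
        231 / 281 * ‖G2 (π / 2) (lΩ ω0 s τ) (lJ δ0 τ) u‖ := by
  have hE : (0 : ℝ) < 1 + δ0 ^ 2 := by positivity
  have he : δ0 ^ 2 / (1 + δ0 ^ 2) = 1 - 1 / (1 + δ0 ^ 2) := by field_simp; ring
  have hε0 : (0 : ℝ) < 1 / (1 + δ0 ^ 2) := by positivity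
  have hε1 : 1 / (1 + δ0 ^ 2) ≤ (1 : ℝ) := by linarith
  have ht0 : 0 ≤ δ0 ^ 2 / ω0 := by positivity
  have ht1 : δ0 ^ 2 / ω0 ≤ 1 := (div_le_one hω).2 ht
  rw [he] at hs1
  obtain ⟨ρ, -, r1, -, -, r2, hJ, hΩ, -, hP, hQ⟩ :=
    line_par (r := 13 / 100) hδ hω hs0 (by linarith) (by norm_num) hτ
  obtain ⟨ρ0, r3, r4, r5, r6, -⟩ :=
    line_par (s := 0) (r := 13 / 100) hδ hω le_rfl (by norm_num) (by norm_num) hτ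
  obtain ⟨z0, z1, -, -, x1, x2, x3⟩ := pX90 hu rfl
  unfold G2
  rw [hP, hQ]
  have hπ : (0 : ℝ) < π ^ 2 * ω0 ^ 2 / (1 + δ0 ^ 2) := by positivity
  have hE' : ((1 + δ0 ^ 2 : ℝ) : ℂ) ≠ 0 := by exact_mod_cast hE.ne'
  have e4 : ∀ p Q : ℂ, 4 * ((π / 2 : ℝ) : ℂ) ^ 2 * lΩ ω0 s τ * (lJ δ0 τ * lΩ ω0 s τ * p) /
      (lJ δ0 τ * ((1 + δ0 ^ 2 : ℝ) : ℂ) * Q) =
      ((π ^ 2 * ω0 ^ 2 / (1 + δ0 ^ 2) : ℝ) : ℂ) * (1 + s * τ) ^ 2 * p / Q := fun p Q => by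
    rw [Complex.ofReal_div _ (1 + δ0 ^ 2)]
    unfold lΩ
    push_cast [- Complex.ofReal_add]
    generalize ((1 + δ0 ^ 2 : ℝ) : ℂ) = E at hE'
    rcases eq_or_ne Q 0 with rfl | hQ0
    · simp
    field_simp
    ring
  rw [e4]
  generalize π ^ 2 * ω0 ^ 2 / (1 + δ0 ^ 2) = K at hπ
  generalize (π * (1 - u)) ^ 2 = z at z0 z1 x1 x2 x3
  generalize pX (π / 2) u = X at x1 x2 x3 ⊢
  generalize δ0 ^ 2 / ω0 = t at ht0 ht1 ⊢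
  generalize 1 / (1 + δ0 ^ 2) = ε at hε0 hε1 hs1 ⊢
  have hρ0 : ρ0 = (1 + τ) ^ 2 := by simpa using r3
  rw [← hρ0]
  have hρ0' : ρ0 ≠ 0 := r5.ne
  rw [abs_le] at x1 x2 x3
  have hc := Ang_real t ε z ht0 ht1 hε0.le hε1 z0 z1 _ rfl _ rfl
    (X.re - z ^ 2 * (1 / 12 - z ^ 2 * (1 / 5040 - z ^ 2 *
      (1 / 14968800 - 1 / 163459296000 * z ^ 2))) + 1 / 10000) (by linarith) (by linarith)
    (-X.im - z * (1 / 2 - z ^ 2 * (1 / 180 - z ^ 2 * (1 / 226800 - z ^ 2 *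
      (1 / 1362160800 - 1 / 25009272288000 * z ^ 2)))) + 1 / 10000) (by linarith) (by linarith)
    (‖X‖ - z * (1 / 2 + z ^ 2 * (1 / 720 + z ^ 2 *
      (1 / 3628800 + 1 / 87178291200 * z ^ 2))) + 1 / 10000) (by linarith) (by linarith)
    X.re (by ring) (-X.im) (by ring) ‖X‖ (by ring) _ rfl _ rfl ‖1 + t * X‖ (by
      rw [Complex.norm_eq_sqrt_sq_add_sq (1 + t * X), mul_pow, Complex.sq_norm, Complex.normSq_apply]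
      simp only [Complex.add_re, Complex.add_im, Complex.one_re, Complex.one_im,
        Complex.re_ofReal_mul, Complex.im_ofReal_mul]
      congr 1
      ring) _ rfl _ rfl ‖((1 + ε : ℝ) : ℂ) + ((1 - ε : ℝ) : ℂ) * X‖ (by
      rw [Complex.norm_eq_sqrt_sq_add_sq]
      simp only [Complex.add_re, Complex.add_im, Complex.ofReal_re, Complex.ofReal_im,
        Complex.re_ofReal_mul, Complex.im_ofReal_mul]
      congr 1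
      ring)
    ((1 + t * X) * (starRingEnd ℂ) (((1 + ε : ℝ) : ℂ) + ((1 - ε : ℝ) : ℂ) * X)).re (by
      simp only [Complex.add_re, Complex.add_im, Complex.ofReal_re, Complex.ofReal_im,
        Complex.mul_re, Complex.mul_im, Complex.conj_re, Complex.conj_im, Complex.one_re,
        Complex.one_im]
      ring)
    ((1 + t * X) * (starRingEnd ℂ) (((1 + ε : ℝ) : ℂ) + ((1 - ε : ℝ) : ℂ) * X)).im (by
      simp only [Complex.add_re, Complex.add_im, Complex.ofReal_re, Complex.ofReal_im,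
        Complex.mul_re, Complex.mul_im, Complex.conj_re, Complex.conj_im, Complex.one_re,
        Complex.one_im]
      ring) _ rfl
  clear x1 x2 x3
  have hA : ‖(1 + t * ρ * X) - (1 + t * X)‖ ≤ 2769 / 10000 * (t * ‖X‖) := by
    rw [show (1 + t * ρ * X) - (1 + t * X) = (ρ - 1) * (t * X) by ring, norm_mul, norm_mul,
      Complex.norm_real, Real.norm_of_nonneg ht0]
    exact mul_le_mul_of_nonneg_right (by linarith) (by positivity)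
  have fin : ∀ {p Q : ℂ} {R : Prop}, p ≠ 0 ∧ Q ≠ 0 ∧ R → lJ δ0 τ * lΩ ω0 s τ * p ≠ 0 ∧
      lJ δ0 τ * ((1 + δ0 ^ 2 : ℝ) : ℂ) * Q ≠ 0 ∧ R := fun h =>
    ⟨mul_ne_zero (mul_ne_zero hJ hΩ) h.1, mul_ne_zero (mul_ne_zero hJ hE') h.2.1, h.2.2⟩
  refine fin ?_
  rcases hc with hc | hc
  · have hB : ‖(2 * (ε : ℂ) + ((1 - ε : ℝ) : ℂ) * (1 + X) * ρ0) / ρ0 -
        (((1 + ε : ℝ) : ℂ) + ((1 - ε : ℝ) : ℂ) * X)‖ ≤ 803 / 1250 * ε := by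
      rw [show (2 * (ε : ℂ) + ((1 - ε : ℝ) : ℂ) * (1 + X) * ρ0) / ρ0 -
        (((1 + ε : ℝ) : ℂ) + ((1 - ε : ℝ) : ℂ) * X) = (ρ0⁻¹ - 1) * ((2 * ε : ℝ) : ℂ) by
          push_cast; field_simp; ring, norm_mul, Complex.norm_real,
        Real.norm_of_nonneg (by linarith)]
      have : ‖ρ0⁻¹ - 1‖ ≤ 803 / 2500 := r6.trans (by norm_num)
      nlinarith
    obtain ⟨k1, k2, k3⟩ := wr1a_key hπ r2 (by norm_num) hA hB (by linarith)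
    have k4 : 2 * (ε : ℂ) + ((1 - ε : ℝ) : ℂ) * (1 + X) * ρ0 ≠ 0 := fun e => k2 (by rw [e]; simp)
    refine ⟨k1, k4, ?_⟩
    have e5 : (K : ℂ) * ((1 + s * τ) / (1 + τ)) ^ 2 * (1 + t * ρ * X) /
        ((2 * (ε : ℂ) + ((1 - ε : ℝ) : ℂ) * (1 + X) * ρ0) / ρ0) =
        K * (1 + s * τ) ^ 2 * (1 + t * ρ * X) /
          (2 * (ε : ℂ) + ((1 - ε : ℝ) : ℂ) * (1 + X) * ρ0) := by
      rw [div_pow, ← hρ0]
      field_simp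
    rwa [e5] at k3
  · have n1 : √(1 + 2 * X.re + ‖X‖ ^ 2) = ‖1 + X‖ := by
      rw [Complex.norm_eq_sqrt_sq_add_sq (1 + X), Complex.sq_norm, Complex.normSq_apply]
      simp only [Complex.add_re, Complex.add_im, Complex.one_re, Complex.one_im]
      congr 1
      ring
    rw [n1] at hc
    have hB : ‖(2 * (ε : ℂ) + ((1 - ε : ℝ) : ℂ) * (1 + X) * ρ0) -
        (((1 + ε : ℝ) : ℂ) + ((1 - ε : ℝ) : ℂ) * X)‖ ≤ 2769 / 10000 * ((1 - ε) * ‖1 + X‖) := by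
      rw [show (2 * (ε : ℂ) + ((1 - ε : ℝ) : ℂ) * (1 + X) * ρ0) -
        (((1 + ε : ℝ) : ℂ) + ((1 - ε : ℝ) : ℂ) * X) = (ρ0 - 1) * (((1 - ε : ℝ) : ℂ) * (1 + X)) by
          push_cast; ring, norm_mul, norm_mul, Complex.norm_real,
        Real.norm_of_nonneg (by linarith)]
      exact mul_le_mul_of_nonneg_right (by linarith) (mul_nonneg (by linarith) (norm_nonneg _))
    have hm : Sa (1 + s * τ) (13 / 100 * (1 - ε)) := by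
      refine sa_one_add ?_ (by linarith)
      rw [norm_mul, Complex.norm_real, Real.norm_of_nonneg hs0]
      nlinarith [norm_nonneg τ]
    exact wr1a_key hπ hm (by linarith) hA hB (by linarith)

end Pool.Agent.HillD
end

-- part Pool.Agent.P.MP_ae2765_an.WR1b
section

/-! First region: barrier and weight along the path. -/

namespace Pool.Agent.HillD
open Real Set Filter Topology Asymptotics Pool.Agent.HillD.Num Pool.Agent.P.MP_4c4e6e_co.Eng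

theorem wr1b_norm (a b : ℝ) (X : ℂ) :
    ‖(a : ℂ) + b * X‖ = √(a ^ 2 + 2 * a * (b * X.re) + (b * ‖X‖) ^ 2) := by
  rw [← Real.sqrt_sq (norm_nonneg ((a : ℂ) + b * X))]
  congr 1
  rw [mul_pow, Complex.sq_norm, Complex.sq_norm, Complex.normSq_apply, Complex.normSq_apply]
  simp only [Complex.add_re, Complex.mul_re, Complex.ofReal_re, Complex.ofReal_im, Complex.add_im,
    Complex.mul_im]
  ring

theorem wr1b_id {Ω J X a : ℂ} (hΩ : Ω ≠ 0) (hJ : J ≠ 0) (hp : 1 + a * X ≠ 0)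
    (h1 : 1 - 2 * J = J * Ω * a) (hP : PP Ω J X = J * Ω * (1 + a * X)) :
    psi Ω J X * (1 + a * X) ^ 3 =
      a ^ 2 / (8 * Ω) * (X ^ 2 * (1 + a * X + 5) + (3 * (1 + a * X) - 5)) +
        a / (4 * Ω ^ 2) * ((3 * (1 + a * X) - 5) - X * (1 + a * X - 5)) := by
  have hP0 : PP Ω J X ≠ 0 := by rw [hP]; exact mul_ne_zero (mul_ne_zero hJ hΩ) hp
  have h2 : Ω * a + 2 ≠ 0 := by
    intro h
    have : (1 : ℂ) = J * (Ω * a + 2) := by linear_combination h1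
    rw [h, mul_zero] at this
    exact one_ne_zero this
  have hJ' : J = 1 / (Ω * a + 2) := by
    field_simp
    linear_combination -h1
  rw [psi_eq hΩ hP0, hP, h1]
  have hw : Ω * J / (J * Ω * (1 + a * X)) = 1 / (1 + a * X) := by field_simp
  rw [hw]
  have h3 : J * Ω * a * (3 - 5 * (1 / (1 + a * X))) / (8 * Ω * (J * Ω * (1 + a * X)) ^ 2) =
      (Ω * a + 2) * a * (3 - 5 * (1 / (1 + a * X))) / (8 * Ω ^ 2 * (1 + a * X) ^ 2) := by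
    rw [hJ']
    field_simp
  rw [h3]
  field_simp
  ring

theorem wr1b_tri {a b c T R TW K : ℝ} {X w : ℂ} {t : ℝ} (hT : T = t * ‖X‖) (hR : R = t * X.re)
    (hw : ‖w‖ ≤ TW) (hb : 0 ≤ b) (hK : a ^ 2 + 2 * a * b * R + b ^ 2 * T ^ 2 ≤ K) (hc : c = b * TW) :
    ‖(a : ℂ) + b * (t * X + w)‖ ≤ √K + c := by
  have h1 : (a : ℂ) + b * (t * X + w) = ((a : ℂ) + ((b * t : ℝ) : ℂ) * X) + b * w := by
    push_cast; ring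
  rw [h1]
  refine (norm_add_le _ _).trans (add_le_add ?_ ?_)
  · rw [wr1b_norm]
    apply Real.sqrt_le_sqrt
    rw [hT, hR] at hK
    calc _ = a ^ 2 + 2 * a * b * (t * X.re) + b ^ 2 * (t * ‖X‖) ^ 2 := by ring
      _ ≤ K := hK
  · rw [norm_mul, Complex.norm_real, Real.norm_of_nonneg hb, hc]
    exact mul_le_mul_of_nonneg_left hw hb

theorem wr1b_p {X ρ : ℂ} {t T R TW d : ℝ} (ht : 0 ≤ t) (hρ : ‖ρ - 1‖ ≤ 2769 / 10000)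
    (hT : T = t * ‖X‖) (hR : R = t * X.re) (hTW : TW = 2769 / 10000 * T)
    (hd : d = √(1 + 2 * R + T ^ 2)) :
    d - TW ≤ ‖1 + t * ρ * X‖ ∧ ‖1 + t * ρ * X‖ ≤ d + TW ∧
      ‖1 + t * ρ * X + 5‖ ≤ √(36 + 12 * R + T ^ 2) + TW ∧
      ‖3 * (1 + t * ρ * X) - 5‖ ≤ √(17 / 4 - 12 * R + 9 * T ^ 2) + 3 * TW ∧
      ‖1 + t * ρ * X - 5‖ ≤ √(65 / 4 - 8 * R + T ^ 2) + TW := by
  have hw : ‖(t : ℂ) * (ρ - 1) * X‖ ≤ TW := by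
    rw [norm_mul, norm_mul, Complex.norm_real, Real.norm_of_nonneg ht, hTW, hT]
    have := mul_le_mul_of_nonneg_left hρ (mul_nonneg ht (norm_nonneg X))
    linarith
  refine ⟨?_, ?_, ?_, ?_, ?_⟩
  · have h1 : ‖((1 : ℝ) : ℂ) + t * X‖ = d := by
      rw [wr1b_norm, hd, hT, hR]; congr 1; ring
    have h2 : ((1 : ℝ) : ℂ) + t * X = (1 + t * ρ * X) - t * (ρ - 1) * X := by push_cast; ring
    have h3 := norm_sub_le (1 + t * ρ * X) (t * (ρ - 1) * X)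
    rw [← h2, h1] at h3
    linarith
  · have := wr1b_tri (a := 1) (b := 1) (c := TW) (K := 1 + 2 * R + T ^ 2) hT hR hw (by norm_num)
      (by linarith) (by ring)
    rw [hd]
    convert this using 2
    push_cast; ring
  · have := wr1b_tri (a := 6) (b := 1) (c := TW) (K := 36 + 12 * R + T ^ 2) hT hR hw (by norm_num)
      (by linarith) (by ring)
    convert this using 2
    push_cast; ring
  · have := wr1b_tri (a := -2) (b := 3) (c := 3 * TW) (K := 17 / 4 - 12 * R + 9 * T ^ 2) hT hR hw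
      (by norm_num) (by linarith) (by ring)
    convert this using 2
    push_cast; ring
  · have := wr1b_tri (a := -4) (b := 1) (c := TW) (K := 65 / 4 - 8 * R + T ^ 2) hT hR hw
      (by norm_num) (by linarith) (by ring)
    convert this using 2
    push_cast; ring

theorem wr1b_psi {Ω J X ρ : ℂ} {t ω0 c k1 k2 dm A1 A2 A3 : ℝ} (hω : 0 < ω0) (ht : 0 ≤ t)
    (hΩ : 87 / 100 * ω0 ≤ ‖Ω‖) (hJ : J ≠ 0) (hρ : ‖ρ - 1‖ ≤ 2769 / 10000)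
    (h1 : 1 - 2 * J = J * Ω * (t * ρ)) (hP : PP Ω J X = J * Ω * (1 + t * ρ * X))
    (hk1 : t ^ 2 / ω0 ≤ c * k1) (hk2 : t / ω0 ^ 2 ≤ c * k2) (hdm : 0 < dm)
    (hp : dm ≤ ‖1 + t * ρ * X‖) (hA1 : ‖1 + t * ρ * X + 5‖ ≤ A1)
    (hA2 : ‖3 * (1 + t * ρ * X) - 5‖ ≤ A2) (hA3 : ‖1 + t * ρ * X - 5‖ ≤ A3) :
    ‖psi Ω J X‖ ≤ c * (367 / 2000 * (dm⁻¹ ^ 2 * dm⁻¹) *
      (k1 * (12769 / 10000 * (‖X‖ ^ 2 * A1 + A2)) + k2 * (23 / 10 * (‖X‖ * A3 + A2)))) := by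
  have hΩ0 : 0 < ‖Ω‖ := lt_of_lt_of_le (by positivity) hΩ
  have hp0 : 1 + t * ρ * X ≠ 0 := norm_pos_iff.1 (lt_of_lt_of_le hdm hp)
  have hid := wr1b_id (norm_pos_iff.1 hΩ0) hJ hp0 h1 hP
  have hρ' : ‖ρ‖ ≤ 12769 / 10000 := by
    have := norm_add_le (ρ - 1) 1
    rw [sub_add_cancel, norm_one] at this
    linarith
  have ha : ‖(t : ℂ) * ρ‖ ≤ t * (12769 / 10000) := by
    rw [norm_mul, Complex.norm_real, Real.norm_of_nonneg ht]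
    exact mul_le_mul_of_nonneg_left hρ' ht
  generalize (t : ℂ) * ρ = a at *
  generalize 1 + a * X = p at *
  have hc1 : ‖a ^ 2 / (8 * Ω)‖ ≤ 367 / 2000 * (12769 / 10000) * (c * k1) := by
    rw [norm_div, norm_pow, norm_mul, Complex.norm_ofNat]
    calc ‖a‖ ^ 2 / (8 * ‖Ω‖) ≤ (t * (12769 / 10000)) ^ 2 / (8 * (87 / 100 * ω0)) := by gcongr
      _ = (12769 / 10000) ^ 2 / (8 * (87 / 100)) * (t ^ 2 / ω0) := by field_simp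
      _ ≤ 367 / 2000 * (12769 / 10000) * (t ^ 2 / ω0) := by gcongr; norm_num
      _ ≤ _ := by gcongr
  have hc2 : ‖a / (4 * Ω ^ 2)‖ ≤ 367 / 2000 * (23 / 10) * (c * k2) := by
    rw [norm_div, norm_mul, norm_pow, Complex.norm_ofNat]
    calc ‖a‖ / (4 * ‖Ω‖ ^ 2) ≤ (t * (12769 / 10000)) / (4 * (87 / 100 * ω0) ^ 2) := by gcongr
      _ = (12769 / 10000) / (4 * (87 / 100) ^ 2) * (t / ω0 ^ 2) := by field_simp
      _ ≤ 367 / 2000 * (23 / 10) * (t / ω0 ^ 2) := by gcongr; norm_num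
      _ ≤ _ := by gcongr
  have hb1 : ‖X ^ 2 * (p + 5) + (3 * p - 5)‖ ≤ ‖X‖ ^ 2 * A1 + A2 := by
    refine (norm_add_le _ _).trans (add_le_add ?_ hA2)
    rw [norm_mul, norm_pow]
    gcongr
  have hb2 : ‖(3 * p - 5) - X * (p - 5)‖ ≤ ‖X‖ * A3 + A2 := by
    refine (norm_sub_le _ _).trans ?_
    rw [norm_mul, add_comm]
    gcongr
  have hck1 : 0 ≤ c * k1 := le_trans (by positivity) hk1
  have hck2 : 0 ≤ c * k2 := le_trans (by positivity) hk2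
  have hm : ‖psi Ω J X‖ * dm ^ 3 ≤ 367 / 2000 * (12769 / 10000) * (c * k1) * (‖X‖ ^ 2 * A1 + A2) +
      367 / 2000 * (23 / 10) * (c * k2) * (‖X‖ * A3 + A2) := by
    calc ‖psi Ω J X‖ * dm ^ 3 ≤ ‖psi Ω J X‖ * ‖p‖ ^ 3 := by gcongr
      _ = ‖psi Ω J X * p ^ 3‖ := by rw [norm_mul, norm_pow]
      _ ≤ _ := by
        rw [hid]
        refine (norm_add_le _ _).trans (add_le_add ?_ ?_)
        · rw [norm_mul]; gcongr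
        · rw [norm_mul]; gcongr
  rw [← le_div_iff₀ (by positivity)] at hm
  refine hm.trans (le_of_eq ?_)
  field_simp

theorem wr1b_G {Ω J X σ p Q : ℂ} {ω0 E u dm dp Qm Qp : ℝ} (hω : 0 < ω0) (hE : 0 < E)
    (hX : X = pX (π / 2) u) (hΩ : Ω = ω0 * σ) (hJ : J ≠ 0) (hs1 : 87 / 100 ≤ ‖σ‖)
    (hs2 : ‖σ‖ ≤ 113 / 100) (hP : PP Ω J X = J * Ω * p) (hQ : QQ J X = J * E * Q)
    (hdm : 0 < dm) (hp1 : dm ≤ ‖p‖) (hp2 : ‖p‖ ≤ dp) (hQm : 0 < Qm) (hQ1 : Qm ≤ ‖Q‖)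
    (hQ2 : ‖Q‖ ≤ Qp) :
    √(dm * Qp⁻¹) * (2221 / 1000 * (87 / 100) * (ω0 * √(2 / E))) ≤ √‖G2 (π / 2) Ω J u‖ ∧
      √‖G2 (π / 2) Ω J u‖ ≤ 22215 / 10000 * (113 / 100) * (ω0 * √(2 / E)) * √(dp * Qm⁻¹) := by
  have hQ0 : 0 < ‖Q‖ := lt_of_lt_of_le hQm hQ1
  have hQn : Q ≠ 0 := norm_pos_iff.1 hQ0
  have hE0 : (E : ℂ) ≠ 0 := Complex.ofReal_ne_zero.2 hE.ne'
  have hG : G2 (π / 2) Ω J u = ((π ^ 2 / 2 * ω0 ^ 2 * (2 / E) : ℝ) : ℂ) * σ ^ 2 * (p * Q⁻¹) := by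
    unfold G2
    rw [← hX, hP, hQ, hΩ]
    push_cast
    field_simp
    ring
  have hN : ‖G2 (π / 2) Ω J u‖ = π ^ 2 / 2 * ω0 ^ 2 * (2 / E) * ‖σ‖ ^ 2 * (‖p‖ * ‖Q‖⁻¹) := by
    rw [hG, norm_mul, norm_mul, norm_mul, norm_pow, norm_inv, Complex.norm_real,
      Real.norm_of_nonneg (by positivity)]
  have hπ1 : (2221 / 1000 : ℝ) ^ 2 ≤ π ^ 2 / 2 := by nlinarith [Real.pi_gt_d4]
  have hπ2 : π ^ 2 / 2 ≤ (22215 / 10000 : ℝ) ^ 2 := by nlinarith [Real.pi_lt_d4, Real.pi_pos]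
  have hQp : 0 < Qp := lt_of_lt_of_le hQ0 hQ2
  have hdp : 0 < dp := lt_of_lt_of_le hdm (hp1.trans hp2)
  rw [hN]
  constructor
  · apply Real.le_sqrt_of_sq_le
    rw [mul_pow, mul_pow, mul_pow, mul_pow, Real.sq_sqrt (by positivity),
      Real.sq_sqrt (by positivity)]
    calc _ = (2221 / 1000 : ℝ) ^ 2 * ω0 ^ 2 * (2 / E) * (87 / 100) ^ 2 * (dm * Qp⁻¹) := by ring
      _ ≤ _ := by gcongr
  · apply Real.sqrt_le_iff.2 ⟨by positivity, ?_⟩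
    rw [mul_pow, mul_pow, mul_pow, mul_pow, Real.sq_sqrt (by positivity),
      Real.sq_sqrt (by positivity)]
    calc _ ≤ (22215 / 10000 : ℝ) ^ 2 * ω0 ^ 2 * (2 / E) * (113 / 100) ^ 2 * (dp * Qm⁻¹) := by
          gcongr
      _ = _ := by ring

theorem wr1b_sig {s ω0 : ℝ} {τ : ℂ} (hω : 0 < ω0) (hs0 : 0 ≤ s) (hs1 : s ≤ 1)
    (hτ : ‖τ‖ ≤ 13 / 100) : 87 / 100 ≤ ‖1 + (s : ℂ) * τ‖ ∧ ‖1 + (s : ℂ) * τ‖ ≤ 113 / 100 ∧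
      87 / 100 * ω0 ≤ ‖lΩ ω0 s τ‖ := by
  have hσ : ‖(s : ℂ) * τ‖ ≤ 13 / 100 := by
    rw [norm_mul, Complex.norm_real, Real.norm_of_nonneg hs0]
    nlinarith [norm_nonneg τ]
  have hσ1 : 87 / 100 ≤ ‖1 + (s : ℂ) * τ‖ := by
    have := norm_sub_le (1 + (s : ℂ) * τ) (s * τ)
    rw [add_sub_cancel_right, norm_one] at this
    linarith
  refine ⟨hσ1, ?_, ?_⟩
  · have := norm_add_le (1 : ℂ) (s * τ)
    rw [norm_one] at this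
    linarith
  · unfold lΩ
    rw [norm_mul, Complex.norm_real, Real.norm_of_nonneg hω.le]
    nlinarith

theorem wr1b_Q {ε : ℝ} {τ : ℂ} (X : ℂ) (hε1 : 0 ≤ 1 - ε) (hτ : ‖τ‖ ≤ 13 / 100) :
    √((1 + ε + (1 - ε) * X.re) ^ 2 + ((1 - ε) * -X.im) ^ 2) -
        2769 / 10000 * (1 - ε) * √(1 + 2 * X.re + ‖X‖ ^ 2) ≤
      ‖2 * (ε : ℂ) + ((1 - ε : ℝ) : ℂ) * (1 + X) * (1 + τ) ^ 2‖ ∧
    ‖2 * (ε : ℂ) + ((1 - ε : ℝ) : ℂ) * (1 + X) * (1 + τ) ^ 2‖ ≤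
      √((1 + ε + (1 - ε) * X.re) ^ 2 + ((1 - ε) * -X.im) ^ 2) +
        2769 / 10000 * (1 - ε) * √(1 + 2 * X.re + ‖X‖ ^ 2) := by
  have hq0 : ‖((1 + ε : ℝ) : ℂ) + ((1 - ε : ℝ) : ℂ) * X‖ =
      √((1 + ε + (1 - ε) * X.re) ^ 2 + ((1 - ε) * -X.im) ^ 2) := by
    rw [wr1b_norm, mul_pow, Complex.sq_norm, Complex.normSq_apply]
    congr 1; ring
  have hq1 : ‖((1 - ε : ℝ) : ℂ) * (1 + X) * ((1 + τ) ^ 2 - 1)‖ ≤
      2769 / 10000 * (1 - ε) * √(1 + 2 * X.re + ‖X‖ ^ 2) := by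
    have e1 : ‖1 + X‖ = √(1 + 2 * X.re + ‖X‖ ^ 2) := by
      have := wr1b_norm 1 1 X
      simpa using this
    have e2 : ‖(1 + τ) ^ 2 - 1‖ ≤ 2769 / 10000 := by
      have : (1 + τ) ^ 2 - 1 = τ * (2 + τ) := by ring
      rw [this, norm_mul]
      have h2 := norm_add_le (2 : ℂ) τ
      rw [Complex.norm_ofNat] at h2
      nlinarith [norm_nonneg τ, norm_nonneg (2 + τ)]
    rw [norm_mul, norm_mul, Complex.norm_real, Real.norm_of_nonneg hε1, e1]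
    have := mul_le_mul_of_nonneg_left e2
      (mul_nonneg hε1 (Real.sqrt_nonneg (1 + 2 * X.re + ‖X‖ ^ 2)))
    linarith
  have hq2 : (2 * (ε : ℂ) + ((1 - ε : ℝ) : ℂ) * (1 + X) * (1 + τ) ^ 2) =
      (((1 + ε : ℝ) : ℂ) + ((1 - ε : ℝ) : ℂ) * X) +
        ((1 - ε : ℝ) : ℂ) * (1 + X) * ((1 + τ) ^ 2 - 1) := by
    push_cast; ring
  have hq3 := norm_add_le (((1 + ε : ℝ) : ℂ) + ((1 - ε : ℝ) : ℂ) * X)
    (((1 - ε : ℝ) : ℂ) * (1 + X) * ((1 + τ) ^ 2 - 1))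
  have hq4 := norm_sub_le (2 * (ε : ℂ) + ((1 - ε : ℝ) : ℂ) * (1 + X) * (1 + τ) ^ 2)
    (((1 - ε : ℝ) : ℂ) * (1 + X) * ((1 + τ) ^ 2 - 1))
  rw [← hq2, hq0] at hq3
  rw [hq2, add_sub_cancel_right, ← hq2, hq0] at hq4
  constructor <;> linarith

theorem wr1b_fin {G ψ g A B S n f1 f2 cS U V W : ℝ} (hn : 0 < n) (hψ0 : 0 ≤ ψ)
    (hψ : ψ ≤ n * f1 * g) (hf2 : 113 / 100 * (n * f1 ^ 2) ≤ f2) (hc0 : 0 ≤ cS) (hS : 0 ≤ S)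
    (hcS : cS ≤ 2221 / 1000 * (87 / 100) * S) (hv : 0 ≤ V) (hA : 0 ≤ A) (hB : 0 ≤ B) (hG : 0 ≤ G)
    (g1 : A * (2221 / 1000 * (87 / 100) * S) ≤ G) (g2 : G ≤ 22215 / 10000 * (113 / 100) * S * B)
    (b3 : 0 < A * cS * (U - f1 * g) - V) (b4 : 0 < W - f2 * g ^ 2 * B) :
    G * (ψ - n * U) < -(n * V) ∧ ψ ^ 2 * G ≤ n * S * (22215 / 10000) * W := by
  have h1 : 0 < U - f1 * g := by
    by_contra h
    have := mul_nonpos_of_nonneg_of_nonpos (mul_nonneg hA hc0) (not_lt.1 h)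
    linarith
  have h2 : A * cS ≤ G := (mul_le_mul_of_nonneg_left hcS hA).trans g1
  constructor
  · have h3 : G * (ψ - n * U) ≤ G * (-(n * (U - f1 * g))) :=
      mul_le_mul_of_nonneg_left (by linarith) hG
    have h4 : A * cS * (U - f1 * g) ≤ G * (U - f1 * g) := mul_le_mul_of_nonneg_right h2 h1.le
    have h5 : n * V < n * (G * (U - f1 * g)) := mul_lt_mul_of_pos_left (by linarith) hn
    linarith
  · calc ψ ^ 2 * G ≤ (n * f1 * g) ^ 2 * (22215 / 10000 * (113 / 100) * S * B) := by gcongr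
      _ = n * S * (22215 / 10000) * (113 / 100 * (n * f1 ^ 2) * g ^ 2 * B) := by ring
      _ ≤ n * S * (22215 / 10000) * (f2 * g ^ 2 * B) := by gcongr
      _ ≤ _ := by gcongr; linarith

theorem r1_pt {δ0 ω0 s u z ε t n k1 k2 f1 f2 cS u0 u1 v0 v1 w0 w1 : ℝ} {τ : ℂ} {tl : List ℝ}
    (hδ : 0 < δ0) (hω : 0 < ω0) (hs0 : 0 ≤ s) (hs1 : s ≤ 1) (hτ : ‖τ‖ ≤ 13 / 100)
    (hu : u ∈ Icc (0 : ℝ) 1) (hz : z = (π * (1 - u)) ^ 2) (hε : ε = 1 / (1 + δ0 ^ 2))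
    (ht : t = δ0 ^ 2 / ω0) (hn : 0 < n) (hf1 : 0 ≤ f1) (hk1 : t ^ 2 / ω0 ≤ n * f1 * k1)
    (hk2 : t / ω0 ^ 2 ≤ n * f1 * k2) (hf2 : 113 / 100 * (n * f1 ^ 2) ≤ f2) (hc0 : 0 ≤ cS)
    (hcS : cS ≤ 2221 / 1000 * (87 / 100) * (ω0 * √(2 / (1 + δ0 ^ 2)))) (hv : 0 ≤ v0 + v1 * z)
    (hb : errBody.holds
      (z :: (1 - ε) :: ε :: t :: k1 :: k2 :: f1 :: f2 :: cS :: u0 :: u1 :: v0 :: v1 :: w0 :: w1 :: tl)) :
    √‖G2 (π / 2) (lΩ ω0 s τ) (lJ δ0 τ) u‖ *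
        (‖psi (lΩ ω0 s τ) (lJ δ0 τ) (pX (π / 2) u)‖ - n * (u0 + u1 * z)) < -(n * (v0 + v1 * z)) ∧
      ‖psi (lΩ ω0 s τ) (lJ δ0 τ) (pX (π / 2) u)‖ ^ 2 * √‖G2 (π / 2) (lΩ ω0 s τ) (lJ δ0 τ) u‖ ≤
        n * (ω0 * √(2 / (1 + δ0 ^ 2))) * (22215 / 10000) * (w0 + w1 * z ^ 2) := by
  obtain ⟨ρ, -, hρ, -, -, -, hJ, -, h1, hP, hQ⟩ :=
    line_par (r := 13 / 100) hδ hω hs0 hs1 (by norm_num) hτ
  obtain ⟨hσ1, hσ2, hΩ⟩ := wr1b_sig hω hs0 hs1 hτ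
  have hE : 0 < 1 + δ0 ^ 2 := by positivity
  have hε1 : 0 ≤ 1 - ε := by
    rw [hε, sub_nonneg, div_le_one hE]; linarith [sq_nonneg δ0]
  obtain ⟨-, -, -, -, x1, x2, x3⟩ := pX90 hu hz
  rw [abs_le] at x1 x2 x3
  generalize hX : pX (π / 2) u = X at *
  have ht0 : 0 ≤ t := by rw [ht]; positivity
  rw [← ht] at h1 hP
  rw [← hε] at hQ
  have hρ' : ‖ρ - 1‖ ≤ 2769 / 10000 := by linarith
  obtain ⟨b1, b2, b3, b4⟩ := errBody_real hb _ rfl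
    (X.re - z ^ 2 * (1 / 12 - z ^ 2 * (1 / 5040 - z ^ 2 *
      (1 / 14968800 - 1 / 163459296000 * z ^ 2))) + 1 / 10000) (by linarith) (by linarith)
    (-X.im - z * (1 / 2 - z ^ 2 * (1 / 180 - z ^ 2 * (1 / 226800 - z ^ 2 *
      (1 / 1362160800 - 1 / 25009272288000 * z ^ 2)))) + 1 / 10000) (by linarith) (by linarith)
    (‖X‖ - z * (1 / 2 + z ^ 2 * (1 / 720 + z ^ 2 *
      (1 / 3628800 + 1 / 87178291200 * z ^ 2))) + 1 / 10000) (by linarith) (by linarith)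
    X.re (by ring) (-X.im) (by ring) ‖X‖ (by ring)
    _ rfl _ rfl _ rfl _ rfl _ rfl _ rfl _ rfl _ rfl _ rfl _ rfl _ rfl _ rfl _ rfl _ rfl
  obtain ⟨p1, p2, p3, p4, p5⟩ := wr1b_p (X := X) ht0 hρ' rfl rfl rfl rfl
  have hψ := wr1b_psi hω ht0 hΩ hJ hρ' h1 (hP X) hk1 hk2 b1 p1 p3 p4 p5
  obtain ⟨q1, q2⟩ := wr1b_Q X hε1 hτ
  obtain ⟨g1, g2⟩ := wr1b_G hω hE hX.symm rfl hJ hσ1 hσ2 (hP X) (hQ X) b1 p1 p2 b2 q1 q2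
  exact wr1b_fin hn (norm_nonneg _) hψ hf2 hc0 (by positivity) hcS hv (Real.sqrt_nonneg _)
    (Real.sqrt_nonneg _) (Real.sqrt_nonneg _) g1 g2 b3 b4

end Pool.Agent.HillD
end
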