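import Pool.Agent.K.MP_ae2765_an.C12
import Pool.Agent.K.MP_ae2765_an.C6

-- part Pool.Agent.P.MP_ae2765_an.WR1c
section

/-! First region: the estimates on the disc of radius `13 / 100`. -/

namespace Pool.Agent.HillD
open Real Set Filter Topology Asymptotics Pool.Agent.HillD.Num Pool.Agent.P.MP_4c4e6e_co.Eng

theorem wr1c_int : ∫ u in (0 : ℝ)..1, ((π * (1 - u)) ^ 2) ^ 2 = π ^ 4 / 5 := by
  have h : ∀ u : ℝ, ((π * (1 - u)) ^ 2) ^ 2 = π ^ 4 * (1 - u) ^ 4 := fun u => by ring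
  simp only [h]
  rw [intervalIntegral.integral_const_mul,
    intervalIntegral.integral_comp_sub_left (fun x : ℝ => x ^ 4) 1]
  simp only [sub_self, sub_zero, integral_pow]
  norm_num
  ring

theorem wr1c_pi : π ^ 4 / 5 ≤ 194821 / 10000 := by
  have h1 := Real.pi_lt_d4
  have h0 := Real.pi_pos
  have h2 : π ^ 4 ≤ (3.1416 : ℝ) ^ 4 := pow_le_pow_left₀ h0.le h1.le 4
  norm_num at h2 ⊢
  linarith

theorem wr1c_core {δ0 ω0 s n S γ N T b0 b1 c u0 u1 w0 w1 : ℝ} {τ : ℂ} (hδ : 0 < δ0)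
    (hω : 0 < ω0) (hS : S = ω0 * √(2 / (1 + δ0 ^ 2))) (ht : δ0 ^ 2 ≤ ω0)
    (hs0 : 0 ≤ s) (hs1 : s ≤ δ0 ^ 2 / (1 + δ0 ^ 2)) (hτ : ‖τ‖ ≤ 13 / 100) (hn : 0 < n)
    (hS0 : 0 < S) (hu0 : u0 = γ * b0) (hu1 : u1 * (987 / 100) = γ * b1) (hu1' : 0 ≤ u1)
    (hc : 0 ≤ c) (hw1 : 0 ≤ w1)
    (hN : n * S * (22215 / 10000 * (w0 + w1 * (194821 / 10000))) ≤ N)
    (hT : 7352 / 100000 * (δ0 ^ 2 / ω0) ^ 2 / S ≤ T)
    (hpt : ∀ u ∈ Icc (0 : ℝ) 1, ∀ z : ℝ, z = (π * (1 - u)) ^ 2 →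
      √‖G2 (π / 2) (lΩ ω0 s τ) (lJ δ0 τ) u‖ *
        (‖psi (lΩ ω0 s τ) (lJ δ0 τ) (pX (π / 2) u)‖ - n * (u0 + u1 * z)) <
          -(n * (c / 4 + c / (9869 / 1000) * z)) ∧
      ‖psi (lΩ ω0 s τ) (lJ δ0 τ) (pX (π / 2) u)‖ ^ 2 * √‖G2 (π / 2) (lΩ ω0 s τ) (lJ δ0 τ) u‖ ≤
        n * (ω0 * √(2 / (1 + δ0 ^ 2))) * (22215 / 10000) * (w0 + w1 * z ^ 2)) :
    Wk (π / 2) (lΩ ω0 s τ) (lJ δ0 τ) (231 / 281) γ N T
      (fun u => n * (b0 + b1 * (1 - u) ^ 2)) (fun u => -(n * (c * (1 - u)))) := by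
  have hE : 0 < 1 + δ0 ^ 2 := by positivity
  have hs1' : s ≤ 1 := hs1.trans (by rw [div_le_one hE]; linarith)
  obtain ⟨ρ, -, -, -, -, -, -, hΩ, -⟩ := line_par (r := 13 / 100) hδ hω hs0 hs1' (by norm_num) hτ
  have hP : ∀ u ∈ Icc (0 : ℝ) 1, PP (lΩ ω0 s τ) (lJ δ0 τ) (pX (π / 2) u) ≠ 0 :=
    fun u hu => (r1_ang hδ hω ht hs0 hs1 hτ hu).1
  have hQ : ∀ u ∈ Icc (0 : ℝ) 1, QQ (lJ δ0 τ) (pX (π / 2) u) ≠ 0 :=
    fun u hu => (r1_ang hδ hω ht hs0 hs1 hτ hu).2.1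
  obtain ⟨hslit, htt⟩ := r1_tt hδ hω hs0 hs1' hτ
  refine ⟨hΩ, hP, hQ, fun u hu => (r1_ang hδ hω ht hs0 hs1 hτ hu).2.2, fun u hu => ?_, ?_, hslit,
    htt.trans (by rw [← hS]; exact hT)⟩
  · obtain ⟨h1, -⟩ := hpt u hu _ rfl
    obtain ⟨-, -, hz1, hz2, -⟩ := pX90 hu rfl
    set z := (π * (1 - u)) ^ 2 with hz
    have e1 : u0 + u1 * z ≤ γ * (b0 + b1 * (1 - u) ^ 2) := by
      have : u1 * z ≤ u1 * (987 / 100 * (1 - u) ^ 2) :=
        mul_le_mul_of_nonneg_left (by linarith) hu1'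
      calc u0 + u1 * z ≤ u0 + u1 * (987 / 100) * (1 - u) ^ 2 := by linarith
        _ = γ * (b0 + b1 * (1 - u) ^ 2) := by rw [hu0, hu1]; ring
    have e2 : c * (1 - u) ≤ c / 4 + c / (9869 / 1000) * z := by
      have h3 : (1 - u) ≤ 1 / 4 + z / (9869 / 1000) := by nlinarith [sq_nonneg (1 - u - 1 / 2)]
      calc c * (1 - u) ≤ c * (1 / 4 + z / (9869 / 1000)) := mul_le_mul_of_nonneg_left h3 hc
        _ = c / 4 + c / (9869 / 1000) * z := by ring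
    have e3 : n * (u0 + u1 * z) ≤ γ * (n * (b0 + b1 * (1 - u) ^ 2)) := by
      have := mul_le_mul_of_nonneg_left e1 hn.le
      linarith
    have e4 := mul_le_mul_of_nonneg_left e2 hn.le
    have e5 : √‖G2 (π / 2) (lΩ ω0 s τ) (lJ δ0 τ) u‖ *
        (‖psi (lΩ ω0 s τ) (lJ δ0 τ) (pX (π / 2) u)‖ - γ * (n * (b0 + b1 * (1 - u) ^ 2))) ≤
        √‖G2 (π / 2) (lΩ ω0 s τ) (lJ δ0 τ) u‖ *
        (‖psi (lΩ ω0 s τ) (lJ δ0 τ) (pX (π / 2) u)‖ - n * (u0 + u1 * z)) :=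
      mul_le_mul_of_nonneg_left (by linarith) (Real.sqrt_nonneg _)
    change √‖G2 (π / 2) (lΩ ω0 s τ) (lJ δ0 τ) u‖ *
        (‖psi (lΩ ω0 s τ) (lJ δ0 τ) (pX (π / 2) u)‖ - γ * (n * (b0 + b1 * (1 - u) ^ 2))) <
        -(n * (c * (1 - u)))
    linarith
  · have hc1 := wk_cont hΩ hP hQ
    have hi1 : IntervalIntegrable (fun u => ‖psi (lΩ ω0 s τ) (lJ δ0 τ) (pX (π / 2) u)‖ ^ 2 *
        √‖G2 (π / 2) (lΩ ω0 s τ) (lJ δ0 τ) u‖) MeasureTheory.volume 0 1 :=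
      ContinuousOn.intervalIntegrable_of_Icc zero_le_one hc1
    have hi2 : IntervalIntegrable (fun u : ℝ => ((π * (1 - u)) ^ 2) ^ 2)
        MeasureTheory.volume 0 1 := (by fun_prop : Continuous _).intervalIntegrable _ _
    have hi3 : IntervalIntegrable (fun u : ℝ => n * S * (22215 / 10000) *
        (w0 + w1 * ((π * (1 - u)) ^ 2) ^ 2)) MeasureTheory.volume 0 1 :=
      (by fun_prop : Continuous _).intervalIntegrable _ _
    have h1 := intervalIntegral.integral_mono_on zero_le_one hi1 hi3 fun u hu => by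
      have := (hpt u hu _ rfl).2
      rwa [← hS] at this
    refine h1.trans (le_trans ?_ hN)
    rw [intervalIntegral.integral_const_mul, intervalIntegral.integral_add (by simp)
      (hi2.const_mul w1), intervalIntegral.integral_const_mul, wr1c_int]
    simp only [intervalIntegral.integral_const, sub_zero, one_smul]
    have h2 := mul_le_mul_of_nonneg_left wr1c_pi hw1
    have h3 : 0 ≤ n * S * (22215 / 10000) := by positivity
    calc n * S * (22215 / 10000) * (w0 + w1 * (π ^ 4 / 5))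
        ≤ n * S * (22215 / 10000) * (w0 + w1 * (194821 / 10000)) :=
          mul_le_mul_of_nonneg_left (by linarith) h3
      _ = n * S * (22215 / 10000 * (w0 + w1 * (194821 / 10000))) := by ring

theorem wr1c_sq {δ0 ω0 S : ℝ} (hS : S = ω0 * √(2 / (1 + δ0 ^ 2))) :
    S ^ 2 * (1 + δ0 ^ 2) = 2 * ω0 ^ 2 := by
  have hE : 0 < 1 + δ0 ^ 2 := by positivity
  rw [hS, mul_pow, Real.sq_sqrt (by positivity)]
  field_simp

theorem wr1c_tt {t S a c : ℝ} (hS : 0 < S) (h : c ≤ a * S ^ 2) :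
    c * t ^ 2 / S ≤ S * a * t ^ 2 := by
  rw [div_le_iff₀ hS]
  have := mul_le_mul_of_nonneg_right h (sq_nonneg t)
  linarith

theorem r1_err1 {δ0 ω0 s n S : ℝ} {τ : ℂ} (hδ : 0 < δ0) (hω : 0 < ω0)
    (hn : n = δ0 ^ 2 / (1 + δ0 ^ 2) ^ 2) (hS : S = ω0 * √(2 / (1 + δ0 ^ 2)))
    (h1 : (1 + δ0 ^ 2) ^ 2 / ω0 ≤ 23 / 5) (h2 : 69 / 2 ≤ S)
    (hs0 : 0 ≤ s) (hs1 : s ≤ δ0 ^ 2 / (1 + δ0 ^ 2)) (hτ : ‖τ‖ ≤ 13 / 100) :
    Wk (π / 2) (lΩ ω0 s τ) (lJ δ0 τ) (231 / 281) (54 / 100) (n * S * (2053 / 10000000))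
      (n * S * (31 / 500000 * ((1 + δ0 ^ 2) ^ 2 / ω0 * (δ0 ^ 2 / ω0))))
      (fun u => n * (23 / 1000 + 19 / 100 * (1 - u) ^ 2)) (fun u => -(n * (38 / 100 * (1 - u)))) := by
  have hD : 0 < δ0 ^ 2 := by positivity
  have hE : 0 < 1 + δ0 ^ 2 := by positivity
  have hsq := wr1c_sq hS
  have hS0 : 0 < S := by linarith
  have hS2 : 119025 / 100 ≤ S ^ 2 := by nlinarith
  have hn0 : 0 < n := by rw [hn]; positivity
  have hω2 : 595125 / 1000 * (1 + δ0 ^ 2) ≤ ω0 ^ 2 := by nlinarith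
  have hEω : (1 + δ0 ^ 2) / ω0 ^ 2 ≤ 1000 / 595125 := by
    rw [div_le_iff₀ (by positivity)]; linarith
  obtain ⟨x, hx⟩ : ∃ x, x = (1 + δ0 ^ 2) / ω0 := ⟨_, rfl⟩
  obtain ⟨ε, hε⟩ : ∃ ε, ε = 1 / (1 + δ0 ^ 2) := ⟨_, rfl⟩
  have hx0 : 0 ≤ x := by rw [hx]; positivity
  have hε0 : 0 ≤ ε := by rw [hε]; positivity
  have hε1 : ε ≤ 1 := by rw [hε, div_le_one hE]; linarith
  have hx1 : x ≤ 99 / 500 := by
    have e : x ^ 3 = (1 + δ0 ^ 2) ^ 2 / ω0 * ((1 + δ0 ^ 2) / ω0 ^ 2) := by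
      rw [hx]; field_simp
    have h3 : x ^ 3 ≤ 23 / 5 * (1000 / 595125) := by
      rw [e]
      exact mul_le_mul h1 hEω (by positivity) (by norm_num)
    exact le_of_pow_le_pow_left₀ (n := 3) (by norm_num) (by norm_num) (h3.trans (by norm_num))
  have htx : (1 - ε) * x = δ0 ^ 2 / ω0 := by rw [hx, hε]; field_simp; ring
  have ht : δ0 ^ 2 ≤ ω0 := by
    have : δ0 ^ 2 / ω0 ≤ 1 := by rw [← htx]; nlinarith
    rwa [div_le_one hω] at this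
  have hs1' : s ≤ 1 := hs1.trans (by rw [div_le_one hE]; linarith)
  refine wr1c_core (u0 := 621 / 50000) (u1 := 171 / 16450) (w0 := 21 / 2500000)
    (w1 := 1 / 231945) hδ hω hS ht hs0 hs1 hτ hn0 hS0 (by norm_num) (by norm_num) (by norm_num)
    (by norm_num) (by norm_num) (mul_le_mul_of_nonneg_left (by norm_num) (by positivity)) ?_
    fun u hu z hz => ?_
  · have e : n * S * (31 / 500000 * ((1 + δ0 ^ 2) ^ 2 / ω0 * (δ0 ^ 2 / ω0))) =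
        S * (31 / 500000) * (δ0 ^ 2 / ω0) ^ 2 := by rw [hn]; field_simp
    rw [e]
    exact wr1c_tt hS0 (by linarith)
  · obtain ⟨hz0, hz1, -⟩ := pX90 hu hz
    obtain ⟨tl, hb⟩ := E1_real x ε z hx0 hx1 hε0 hε1 hz0 hz1
    have e1 : (38 / 100 : ℝ) / 4 = 19 / 200 := by norm_num
    have e2 : (38 / 100 : ℝ) / (9869 / 1000) = 380 / 9869 := by norm_num
    rw [e1, e2]
    refine r1_pt hδ hω hs0 hs1' hτ hu hz hε htx hn0 hx0 (le_of_eq ?_) (le_of_eq ?_) ?_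
      (by norm_num) ?_ (by positivity) hb
    · rw [hn, hx, hε]; field_simp; ring
    · rw [hn, hx, hε]; field_simp; ring
    · have e : n * x ^ 2 = δ0 ^ 2 / ω0 ^ 2 := by rw [hn, hx]; field_simp
      have h4 : δ0 ^ 2 / ω0 ^ 2 ≤ (1 + δ0 ^ 2) / ω0 ^ 2 := by gcongr; linarith
      rw [e]
      linarith
    · rw [← hS]; linarith

theorem r1_err2 {δ0 ω0 s n S : ℝ} {τ : ℂ} (hδ : 0 < δ0) (hω : 0 < ω0)
    (hn : n = δ0 ^ 2 / ω0) (hS : S = ω0 * √(2 / (1 + δ0 ^ 2))) (ht : δ0 ^ 2 ≤ ω0)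
    (h1 : 23 / 5 ≤ (1 + δ0 ^ 2) ^ 2 / ω0) (h2 : 154 / 5 ≤ S)
    (hs0 : 0 ≤ s) (hs1 : s ≤ δ0 ^ 2 / (1 + δ0 ^ 2)) (hτ : ‖τ‖ ≤ 13 / 100) :
    Wk (π / 2) (lΩ ω0 s τ) (lJ δ0 τ) (231 / 281) (53 / 100) (n * S * (934 / 10000000))
      (n * S * (39 / 500000 * n))
      (fun u => n * (8 / 1000 + 55 / 1000 * (1 - u) ^ 2)) (fun u => -(n * (11 / 100 * (1 - u)))) := by
  have hD : 0 < δ0 ^ 2 := by positivity
  have hE : 0 < 1 + δ0 ^ 2 := by positivity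
  have hsq := wr1c_sq hS
  have hS0 : 0 < S := by linarith
  have hS2 : 94864 / 100 ≤ S ^ 2 := by nlinarith
  have hn0 : 0 < n := by rw [hn]; positivity
  have hn1 : n ≤ 1 := by rw [hn, div_le_one hω]; exact ht
  have hω2 : 47432 / 100 * (1 + δ0 ^ 2) ≤ ω0 ^ 2 := by nlinarith
  have hωE : 23 / 5 * ω0 ≤ (1 + δ0 ^ 2) ^ 2 := by rwa [le_div_iff₀ hω] at h1
  have hE1 : 625 / 29 ≤ 1 + δ0 ^ 2 := by
    have h3 : (23 / 5 * ω0) ^ 2 ≤ ((1 + δ0 ^ 2) ^ 2) ^ 2 := pow_le_pow_left₀ (by positivity) hωE 2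
    have h4 : (625 / 29 : ℝ) ^ 3 * (1 + δ0 ^ 2) ≤ (1 + δ0 ^ 2) ^ 3 * (1 + δ0 ^ 2) := by nlinarith
    exact le_of_pow_le_pow_left₀ (n := 3) (by norm_num) hE.le (le_of_mul_le_mul_right h4 hE)
  obtain ⟨ε, hε⟩ : ∃ ε, ε = 1 / (1 + δ0 ^ 2) := ⟨_, rfl⟩
  have hε0 : 0 ≤ ε := by rw [hε]; positivity
  have hε1 : ε ≤ 29 / 625 := by rw [hε, div_le_iff₀ hE]; linarith
  have hs1' : s ≤ 1 := hs1.trans (by rw [div_le_one hE]; linarith)
  refine wr1c_core (u0 := 53 / 12500) (u1 := 583 / 197400) (w0 := 3 / 250000)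
    (w1 := 1 / 649446) hδ hω hS ht hs0 hs1 hτ hn0 hS0 (by norm_num) (by norm_num) (by norm_num)
    (by norm_num) (by norm_num) (mul_le_mul_of_nonneg_left (by norm_num) (by positivity)) ?_
    fun u hu z hz => ?_
  · have e : n * S * (39 / 500000 * n) = S * (39 / 500000) * (δ0 ^ 2 / ω0) ^ 2 := by
      rw [hn]; ring
    rw [e]
    exact wr1c_tt hS0 (by linarith)
  · obtain ⟨hz0, hz1, -⟩ := pX90 hu hz
    have e1 : (11 / 100 : ℝ) / 4 = 11 / 400 := by norm_num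
    have e2 : (11 / 100 : ℝ) / (9869 / 1000) = 110 / 9869 := by norm_num
    rw [e1, e2]
    have hcS : (14878479 / 250000 : ℝ) ≤
        2221 / 1000 * (87 / 100) * (ω0 * √(2 / (1 + δ0 ^ 2))) := by rw [← hS]; linarith
    rcases le_total n (21 / 100) with h | h
    · obtain ⟨tl, hb⟩ := E2_real n ε z hn0.le h hε0 hε1 hz0 hz1
      have h5 : 1 / ω0 ≤ 2391 / 10000 * n ^ 2 := by
        have h6 : 596 / 625 * (1 + δ0 ^ 2) ≤ δ0 ^ 2 := by linarith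
        have h7 : (596 / 625 * (1 + δ0 ^ 2)) ^ 2 ≤ (δ0 ^ 2) ^ 2 :=
          pow_le_pow_left₀ (by positivity) h6 2
        have h8 : ω0 ≤ 2391 / 10000 * (δ0 ^ 2) ^ 2 := by nlinarith
        have e : 2391 / 10000 * n ^ 2 = 2391 / 10000 * (δ0 ^ 2) ^ 2 / ω0 / ω0 := by
          rw [hn]; field_simp
        rw [e]
        refine div_le_div_of_nonneg_right ?_ hω.le
        rw [le_div_iff₀ hω]; linarith
      refine r1_pt hδ hω hs0 hs1' hτ hu hz hε hn hn0 zero_le_one ?_ ?_ (le_of_eq (by ring))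
        (by norm_num) hcS (by positivity) hb
      · have := mul_le_mul_of_nonneg_left h5 (sq_nonneg n)
        calc n ^ 2 / ω0 = n ^ 2 * (1 / ω0) := by ring
          _ ≤ n ^ 2 * (2391 / 10000 * n ^ 2) := this
          _ = n * 1 * (2391 / 10000 * (n ^ 2 * n)) := by ring
      · have h9 : (1 / ω0) ^ 2 ≤ (2391 / 10000 * n ^ 2) ^ 2 := pow_le_pow_left₀ (by positivity) h5 2
        have h10 : (1 / ω0) ^ 2 ≤ 143 / 2500 * (n ^ 2) ^ 2 := by nlinarith [sq_nonneg (n ^ 2)]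
        calc n / ω0 ^ 2 = n * (1 / ω0) ^ 2 := by ring
          _ ≤ n * (143 / 2500 * (n ^ 2) ^ 2) := mul_le_mul_of_nonneg_left h10 hn0.le
          _ = n * 1 * (143 / 2500 * (n ^ 2) ^ 2) := by ring
    · obtain ⟨tl, hb⟩ := E3_real n ε z h hn1 hε0 hε1 hz0 hz1
      refine r1_pt hδ hω hs0 hs1' hτ hu hz hε hn hn0 zero_le_one ?_ ?_ (le_of_eq (by ring))
        (by norm_num) hcS (by positivity) hb
      · have h5 : n / ω0 ≤ 211 / 100000 := by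
          rw [hn, div_div, div_le_iff₀ (by positivity)]
          nlinarith
        calc n ^ 2 / ω0 = n * (n / ω0) := by ring
          _ ≤ n * (211 / 100000) := mul_le_mul_of_nonneg_left h5 hn0.le
          _ = n * 1 * (211 / 100000) := by ring
      · have h5 : 1 / ω0 ^ 2 ≤ 49 / 500000 := by
          rw [div_le_iff₀ (by positivity)]
          linarith
        calc n / ω0 ^ 2 = n * (1 / ω0 ^ 2) := by ring
          _ ≤ n * (49 / 500000) := mul_le_mul_of_nonneg_left h5 hn0.le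
          _ = n * 1 * (49 / 500000) := by ring

end Pool.Agent.HillD
end

-- part Pool.Agent.P.MP_ae2765_an.WR1d
section

/-! First region: the Taylor coefficients of the main term through moments. -/

namespace Pool.Agent.HillD
open Real Set Filter Topology Asymptotics

/-- normalised moments of `A = av X / (1 + t X)` and `B = ae (1 - X) / (1 + ε + (1 - ε) X)` -/
noncomputable def mom (ε t av ae : ℝ) (i k : ℕ) : ℝ :=
  2 / π * √((3 + ε) * (2 + t)⁻¹) * ∫ φ in (0 : ℝ)..π / 2,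
    √((1 + t * cos φ ^ 2) / (1 + ε + (1 - ε) * cos φ ^ 2)) *
      ((av * (cos φ ^ 2 / (1 + t * cos φ ^ 2))) ^ i *
        (ae * ((1 - cos φ ^ 2) / (1 + ε + (1 - ε) * cos φ ^ 2))) ^ k)

noncomputable def wr1d_r (ε t φ : ℝ) : ℝ :=
  √((1 + t * cos φ ^ 2) / (1 + ε + (1 - ε) * cos φ ^ 2))

noncomputable def wr1d_A (t av φ : ℝ) : ℝ := av * (cos φ ^ 2 / (1 + t * cos φ ^ 2))

noncomputable def wr1d_B (ε ae φ : ℝ) : ℝ :=
  ae * ((1 - cos φ ^ 2) / (1 + ε + (1 - ε) * cos φ ^ 2))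

noncomputable def wr1d_I (ε t av ae : ℝ) (i k : ℕ) : ℝ :=
  ∫ φ in (0 : ℝ)..π / 2, wr1d_r ε t φ * (wr1d_A t av φ ^ i * wr1d_B ε ae φ ^ k)

theorem wr1d_mom (ε t av ae : ℝ) (i k : ℕ) :
    mom ε t av ae i k = 2 / π * √((3 + ε) * (2 + t)⁻¹) * wr1d_I ε t av ae i k := rfl

theorem wr1d_d1 {t : ℝ} (ht : 0 ≤ t) (φ : ℝ) : 1 ≤ 1 + t * cos φ ^ 2 :=
  le_add_of_nonneg_right (by positivity)

theorem wr1d_d2 {ε : ℝ} (hε0 : 0 ≤ ε) (hε1 : ε ≤ 1) (φ : ℝ) :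
    1 ≤ 1 + ε + (1 - ε) * cos φ ^ 2 := by
  have := mul_nonneg (sub_nonneg.2 hε1) (sq_nonneg (cos φ))
  linarith

theorem wr1d_cont {ε t : ℝ} (hε0 : 0 ≤ ε) (hε1 : ε ≤ 1) (ht : 0 ≤ t) (av ae : ℝ) (i k : ℕ) :
    Continuous fun φ => wr1d_r ε t φ * (wr1d_A t av φ ^ i * wr1d_B ε ae φ ^ k) := by
  have h1 : ∀ φ, 1 + t * cos φ ^ 2 ≠ 0 := fun φ => by linarith [wr1d_d1 ht φ]
  have h2 : ∀ φ, 1 + ε + (1 - ε) * cos φ ^ 2 ≠ 0 := fun φ => by linarith [wr1d_d2 hε0 hε1 φ]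
  have c1 : Continuous (wr1d_r ε t) :=
    (Continuous.div (by fun_prop) (by fun_prop) h2).sqrt
  have c2 : Continuous (wr1d_A t av) :=
    continuous_const.mul (Continuous.div (by fun_prop) (by fun_prop) h1)
  have c3 : Continuous (wr1d_B ε ae) :=
    continuous_const.mul (Continuous.div (by fun_prop) (by fun_prop) h2)
  exact c1.mul ((c2.pow i).mul (c3.pow k))

theorem wr1d_lin {ε t : ℝ} (hε0 : 0 ≤ ε) (hε1 : ε ≤ 1) (ht : 0 ≤ t) (av ae : ℝ)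
    (a00 a01 a10 a02 a11 a20 a03 a12 a21 a30 : ℝ) {f : ℝ → ℝ}
    (hf : ∀ φ, f φ = wr1d_r ε t φ * (a00 + a01 * wr1d_B ε ae φ + a10 * wr1d_A t av φ
      + a02 * wr1d_B ε ae φ ^ 2 + a11 * (wr1d_A t av φ * wr1d_B ε ae φ) + a20 * wr1d_A t av φ ^ 2
      + a03 * wr1d_B ε ae φ ^ 3 + a12 * (wr1d_A t av φ * wr1d_B ε ae φ ^ 2)
      + a21 * (wr1d_A t av φ ^ 2 * wr1d_B ε ae φ) + a30 * wr1d_A t av φ ^ 3)) :
    ∫ φ in (0 : ℝ)..π / 2, f φ = a00 * wr1d_I ε t av ae 0 0 + a01 * wr1d_I ε t av ae 0 1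
      + a10 * wr1d_I ε t av ae 1 0 + a02 * wr1d_I ε t av ae 0 2 + a11 * wr1d_I ε t av ae 1 1
      + a20 * wr1d_I ε t av ae 2 0 + a03 * wr1d_I ε t av ae 0 3 + a12 * wr1d_I ε t av ae 1 2
      + a21 * wr1d_I ε t av ae 2 1 + a30 * wr1d_I ε t av ae 3 0 := by
  have hc := wr1d_cont hε0 hε1 ht av ae
  unfold wr1d_I
  generalize hg : (fun (i k : ℕ) (φ : ℝ) =>
    wr1d_r ε t φ * (wr1d_A t av φ ^ i * wr1d_B ε ae φ ^ k)) = g
  have hg' : ∀ i k φ, wr1d_r ε t φ * (wr1d_A t av φ ^ i * wr1d_B ε ae φ ^ k) = g i k φ :=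
    fun i k φ => by rw [← hg]
  have e : f = fun φ => a00 * g 0 0 φ + a01 * g 0 1 φ + a10 * g 1 0 φ + a02 * g 0 2 φ
      + a11 * g 1 1 φ + a20 * g 2 0 φ + a03 * g 0 3 φ + a12 * g 1 2 φ + a21 * g 2 1 φ
      + a30 * g 3 0 φ := by
    funext φ
    simp only [← hg']
    rw [hf]; ring
  simp only [hg'] at hc ⊢
  have hc' : ∀ i k, Continuous (g i k) := hc
  have c00 := hc' 0 0
  have c01 := hc' 0 1
  have c10 := hc' 1 0
  have c02 := hc' 0 2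
  have c11 := hc' 1 1
  have c20 := hc' 2 0
  have c03 := hc' 0 3
  have c12 := hc' 1 2
  have c21 := hc' 2 1
  have c30 := hc' 3 0
  rw [e]
  iterate 9
    rw [intervalIntegral.integral_add (Continuous.intervalIntegrable (by fun_prop) _ _)
      (Continuous.intervalIntegrable (by fun_prop) _ _)]
  simp only [intervalIntegral.integral_const_mul]

theorem wr1d_pt {δ0 ω0 ε t n av ae : ℝ} (hδ : 0 < δ0) (hω : 0 < ω0)
    (hε : ε = 1 / (1 + δ0 ^ 2)) (ht : t = δ0 ^ 2 / ω0)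
    (hav : t = n * av) (hae : (1 - ε) * ε = n * ae) (φ : ℝ) :
    qr ω0 (jj δ0) φ = ω0 * √(2 / (1 + δ0 ^ 2)) * wr1d_r ε t φ ∧
      yv ω0 (jj δ0) φ = n * wr1d_A t av φ ∧ bv (jj δ0) φ = 1 - ε - n * wr1d_B ε ae φ := by
  have hX : 0 ≤ cos φ ^ 2 := sq_nonneg _
  unfold qr yv bv wr1d_r wr1d_A wr1d_B Pr Qr jj
  generalize cos φ ^ 2 = X at hX
  have hD : 0 < δ0 ^ 2 := by positivity
  generalize δ0 ^ 2 = D at hD hε ht
  have k1 : 1 - 2 * (1 / (D + 2)) = D / (D + 2) := by field_simp; ring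
  have k2 : 1 + ε + (1 - ε) * X = (D + 2 + D * X) / (1 + D) := by rw [hε]; field_simp; ring
  refine ⟨?_, ?_, ?_⟩
  · rw [mul_assoc ω0, ← Real.sqrt_mul (by positivity), ← Real.sqrt_sq hω.le,
      ← Real.sqrt_mul (by positivity), Real.sqrt_sq hω.le]
    congr 1
    rw [k1, k2, ht]
    field_simp
  · rw [← mul_assoc, ← hav, k1, ht]
    field_simp
  · rw [← mul_assoc, ← hae, k1, k2, hε]
    field_simp
    ring

theorem mom_ineq {ε t av ae n : ℝ} (hε0 : 0 ≤ ε) (hε1 : ε ≤ 1) (ht : 0 ≤ t) (hav : 0 ≤ av)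
    (hae : 0 ≤ ae) (hn : 0 ≤ n) (htn : t = n * av) (i k : ℕ) :
    0 ≤ mom ε t av ae i k ∧ mom ε t av ae (i + 1) k ≤ av * mom ε t av ae i k ∧
      mom ε t av ae i (k + 1) ≤ ae * mom ε t av ae i k ∧ 0 < mom ε t av ae 0 0 ∧
      n * mom ε t av ae 1 0 ≤ mom ε t av ae 0 0 := by
  have hπ : (0 : ℝ) ≤ π / 2 := by positivity
  have hC : 0 < 2 / π * √((3 + ε) * (2 + t)⁻¹) := by positivity
  have hc := wr1d_cont hε0 hε1 ht av ae
  have hr : ∀ φ, 0 < wr1d_r ε t φ := fun φ =>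
    Real.sqrt_pos.2 (div_pos (by linarith [wr1d_d1 ht φ]) (by linarith [wr1d_d2 hε0 hε1 φ]))
  have hA : ∀ φ, 0 ≤ wr1d_A t av φ ∧ wr1d_A t av φ ≤ av ∧ n * wr1d_A t av φ ≤ 1 := by
    intro φ
    have h1 := wr1d_d1 ht φ
    have h2 := cos_sq_le_one φ
    have h3 : (0 : ℝ) < 1 + t * cos φ ^ 2 := by linarith
    unfold wr1d_A
    refine ⟨by positivity, mul_le_of_le_one_right hav ((div_le_one h3).2 (by linarith)), ?_⟩
    rw [← mul_assoc, ← htn, ← mul_div_assoc, div_le_one h3]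
    linarith
  have hB : ∀ φ, 0 ≤ wr1d_B ε ae φ ∧ wr1d_B ε ae φ ≤ ae := by
    intro φ
    have h1 := wr1d_d2 hε0 hε1 φ
    have h2 := cos_sq_le_one φ
    have h3 : (0 : ℝ) < 1 + ε + (1 - ε) * cos φ ^ 2 := by linarith
    have h4 := sq_nonneg (cos φ)
    unfold wr1d_B
    exact ⟨mul_nonneg hae (div_nonneg (by linarith) h3.le),
      mul_le_of_le_one_right hae ((div_le_one h3).2 (by linarith))⟩
  have hg : ∀ i k φ, 0 ≤ wr1d_r ε t φ * (wr1d_A t av φ ^ i * wr1d_B ε ae φ ^ k) := fun i k φ =>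
    mul_nonneg (hr φ).le (mul_nonneg (pow_nonneg (hA φ).1 _) (pow_nonneg (hB φ).1 _))
  have key : ∀ (a b : ℝ) (i k i' k' : ℕ),
      (∀ φ, a * (wr1d_r ε t φ * (wr1d_A t av φ ^ i * wr1d_B ε ae φ ^ k))
        ≤ b * (wr1d_r ε t φ * (wr1d_A t av φ ^ i' * wr1d_B ε ae φ ^ k'))) →
      a * mom ε t av ae i k ≤ b * mom ε t av ae i' k' := by
    intro a b i k i' k' h
    have h1 : a * wr1d_I ε t av ae i k ≤ b * wr1d_I ε t av ae i' k' := by
      unfold wr1d_I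
      rw [← intervalIntegral.integral_const_mul, ← intervalIntegral.integral_const_mul]
      exact intervalIntegral.integral_mono_on hπ
        ((continuous_const.mul (hc i k)).intervalIntegrable _ _)
        ((continuous_const.mul (hc i' k')).intervalIntegrable _ _) (fun φ _ => h φ)
    rw [wr1d_mom, wr1d_mom, mul_left_comm a, mul_left_comm b]
    exact mul_le_mul_of_nonneg_left h1 hC.le
  refine ⟨?_, ?_, ?_, ?_, ?_⟩
  · rw [wr1d_mom]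
    exact mul_nonneg hC.le (intervalIntegral.integral_nonneg hπ (fun φ _ => hg i k φ))
  · have := key 1 av (i + 1) k i k (fun φ => by
      have := mul_le_mul_of_nonneg_right (hA φ).2.1 (hg i k φ)
      rw [pow_succ]; linarith)
    rwa [one_mul] at this
  · have := key 1 ae i (k + 1) i k (fun φ => by
      have := mul_le_mul_of_nonneg_right (hB φ).2 (hg i k φ)
      rw [pow_succ]; linarith)
    rwa [one_mul] at this
  · rw [wr1d_mom]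
    refine mul_pos hC (intervalIntegral.intervalIntegral_pos_of_pos
      ((hc 0 0).intervalIntegrable _ _) (fun φ => ?_) (by positivity))
    simpa using hr φ
  · have := key n 1 1 0 0 0 (fun φ => by
      have := mul_le_mul_of_nonneg_right (hA φ).2.2 (hr φ).le
      simp only [pow_zero, pow_one, mul_one, one_mul] at this ⊢
      linarith)
    rwa [one_mul] at this

theorem F_mom {δ0 ω0 ε e t n av ae sg s k sk h c : ℝ} {M : ℕ → ℕ → ℝ} (hδ : 0 < δ0) (hω : 0 < ω0)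
    (hε : ε = 1 / (1 + δ0 ^ 2)) (he : e = 1 - ε) (ht : t = δ0 ^ 2 / ω0) (hn : 0 < n)
    (hav : t = n * av) (hae : e * ε = n * ae) (hs : s = e - n * sg) (hk : k = 2 - s)
    (hsk : sk = 1 - s * k) (hh : h = 1 / 2 * k) (hM : M = mom ε t av ae)
    (hc : c = n * (ω0 * √(2 / (1 + δ0 ^ 2))) * (π / 2) / √((3 + ε) * (2 + t)⁻¹)) :
    F1 (π / 2) ω0 (jj δ0) s = c * (M 0 1 - sg * M 0 0 + h * M 1 0) ∧
    2 * F2 (π / 2) ω0 (jj δ0) s = c * ((2 * (e * sg) - ae) * M 0 0 + (1 - 4 * e) * M 0 1 +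
      sk * M 1 0 + n * (3 * M 0 2 - 1 / 4 * (k ^ 2 * M 2 0) - 2 * (sg * M 0 1) + k * M 1 1 -
        k * sg * M 1 0)) ∧
    6 * F3 (π / 2) ω0 (jj δ0) s = c *
      (((6 * (e * ae) - 6 * (e ^ 2 * sg)) * M 0 0 + 12 * (e * (2 * e - 1)) * M 0 1 -
          3 * (s * sk) * M 1 0 +
          n * (6 * (e * sg ^ 2) * M 0 0 + (6 - 24 * e) * M 0 2 - 3 * (k * sk) * M 2 0) +
          n ^ 2 * (8 * M 0 3 - 2 * (sg ^ 2 * sg) * M 0 0 + k ^ 2 * k * M 3 0)) +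
        3 * (n * ((2 * (e * sg) - ae - n * sg ^ 2) * (M 0 1 - sg * M 0 0 + h * M 1 0) +
          (1 - 4 * e) * (M 0 2 - sg * M 0 1 + h * M 1 1) + sk * (M 1 1 - sg * M 1 0 + h * M 2 0) +
          n * (2 * (M 0 3 - sg * M 0 2 + h * M 1 2) -
            2 * h ^ 2 * (M 2 1 - sg * M 2 0 + h * M 3 0)))) +
        n ^ 2 * (M 0 3 + 3 * (h * M 1 2) + 3 * (h ^ 2 * M 2 1) + h ^ 2 * h * M 3 0 -
          3 * (sg * (M 0 2 + 2 * (h * M 1 1) + h ^ 2 * M 2 0)) +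
          3 * (sg ^ 2 * (M 0 1 + h * M 1 0)) - sg ^ 2 * sg * M 0 0)) := by
  have hε0 : 0 ≤ ε := by rw [hε]; positivity
  have hε1 : ε ≤ 1 := by
    rw [hε, div_le_one (by positivity)]
    exact le_add_of_nonneg_right (sq_nonneg _)
  have ht0 : 0 ≤ t := by rw [ht]; positivity
  have hpt := wr1d_pt hδ hω hε ht hav (he ▸ hae)
  generalize ω0 * √(2 / (1 + δ0 ^ 2)) = S at hpt hc
  have hcM : ∀ i k, S * n * wr1d_I ε t av ae i k = c * M i k := by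
    intro i k
    have h1 : 0 < √((3 + ε) * (2 + t)⁻¹) := by positivity
    rw [hM, wr1d_mom, hc]
    field_simp
  have hε' : ε = 1 - e := by rw [he]; ring
  have hae' : e * (1 - e) = n * ae := by rw [← hε']; exact hae
  rw [← he] at hpt
  refine ⟨?_, ?_, ?_⟩
  · unfold F1
    rw [wr1d_lin hε0 hε1 ht0 av ae (S * n * (-sg)) (S * n) (S * n * h) 0 0 0 0 0 0 0
      (fun φ => by
        rw [(hpt φ).1, (hpt φ).2.1, (hpt φ).2.2]
        unfold el1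
        rw [hh, hk, hs]
        ring)]
    linear_combination (-sg) * hcM 0 0 + hcM 0 1 + h * hcM 1 0
  · unfold F2
    rw [← intervalIntegral.integral_const_mul,
      wr1d_lin hε0 hε1 ht0 av ae (S * n * (2 * (e * sg) - ae)) (S * n * (1 - 4 * e - 2 * n * sg))
      (S * n * (sk - n * k * sg)) (S * n * (3 * n)) (S * n * (n * k)) (S * n * (-(n * k ^ 2 / 4)))
      0 0 0 0
      (fun φ => by
        rw [(hpt φ).1, (hpt φ).2.1, (hpt φ).2.2]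
        unfold el1 el2
        rw [hsk, hk, hs]
        linear_combination (-(S * wr1d_r ε t φ)) * hae')]
    linear_combination (2 * (e * sg) - ae) * hcM 0 0 + (1 - 4 * e - 2 * n * sg) * hcM 0 1
      + (sk - n * k * sg) * hcM 1 0 + (3 * n) * hcM 0 2 + (n * k) * hcM 1 1
      + (-(n * k ^ 2 / 4)) * hcM 2 0
  · unfold F3
    rw [← intervalIntegral.integral_const_mul,
      wr1d_lin hε0 hε1 ht0 av ae
      (S * n * (6 * e * ae - 6 * e ^ 2 * sg + 6 * n * e * sg ^ 2 - 3 * n ^ 2 * sg ^ 3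
        - 3 * n * (2 * e * sg - ae - n * sg ^ 2) * sg))
      (S * n * (12 * e * (2 * e - 1) + 3 * n * (2 * e * sg - ae - n * sg ^ 2 - (1 - 4 * e) * sg)
        + 3 * n ^ 2 * sg ^ 2))
      (S * n * (-3 * s * sk + 3 * n * ((2 * e * sg - ae - n * sg ^ 2) * h - sk * sg)
        + 3 * n ^ 2 * sg ^ 2 * h))
      (S * n * (n * (6 - 24 * e) + 3 * n * (1 - 4 * e - 2 * n * sg) - 3 * n ^ 2 * sg))
      (S * n * (3 * n * ((1 - 4 * e) * h + sk) - 6 * n ^ 2 * sg * h))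
      (S * n * (-3 * n * k * sk + 3 * n * (sk * h + 2 * n * h ^ 2 * sg) - 3 * n ^ 2 * sg * h ^ 2))
      (S * n * (15 * n ^ 2)) (S * n * (9 * n ^ 2 * h)) (S * n * (-3 * n ^ 2 * h ^ 2))
      (S * n * (n ^ 2 * k ^ 3 - 5 * n ^ 2 * h ^ 3))
      (fun φ => by
        rw [(hpt φ).1, (hpt φ).2.1, (hpt φ).2.2]
        unfold el1 el2 el3
        rw [hsk, hh, hk, hs]
        linear_combination (S * wr1d_r ε t φ * (6 * e - 3 * n * (wr1d_B ε ae φ - sg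
          + 1 / 2 * (2 - (e - n * sg)) * wr1d_A t av φ))) * hae')]
    linear_combination (6 * e * ae - 6 * e ^ 2 * sg + 6 * n * e * sg ^ 2 - 3 * n ^ 2 * sg ^ 3
        - 3 * n * (2 * e * sg - ae - n * sg ^ 2) * sg) * hcM 0 0
      + (12 * e * (2 * e - 1) + 3 * n * (2 * e * sg - ae - n * sg ^ 2 - (1 - 4 * e) * sg)
        + 3 * n ^ 2 * sg ^ 2) * hcM 0 1
      + (-3 * s * sk + 3 * n * ((2 * e * sg - ae - n * sg ^ 2) * h - sk * sg)
        + 3 * n ^ 2 * sg ^ 2 * h) * hcM 1 0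
      + (n * (6 - 24 * e) + 3 * n * (1 - 4 * e - 2 * n * sg) - 3 * n ^ 2 * sg) * hcM 0 2
      + (3 * n * ((1 - 4 * e) * h + sk) - 6 * n ^ 2 * sg * h) * hcM 1 1
      + (-3 * n * k * sk + 3 * n * (sk * h + 2 * n * h ^ 2 * sg) - 3 * n ^ 2 * sg * h ^ 2)
        * hcM 2 0
      + (15 * n ^ 2) * hcM 0 3 + (9 * n ^ 2 * h) * hcM 1 2 + (-3 * n ^ 2 * h ^ 2) * hcM 2 1
      + (n ^ 2 * k ^ 3 - 5 * n ^ 2 * h ^ 3) * hcM 3 0

end Pool.Agent.HillD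
end

-- part Pool.Agent.P.MP_ae2765_an.WMom0
section

/-! The moment expansion. -/

namespace Pool.Agent.HillD
open Real Set Filter Topology Asymptotics

lemma wmom0_rec (κ μ : ℝ) (n : ℕ) : ((n : ℝ) + 2) * gco κ μ (n + 2) =
    -((((n : ℝ) + 1) * (κ + μ) + (3 / 2 * κ + 5 / 2 * μ)) * gco κ μ (n + 1) +
      ((n : ℝ) + 4) * (κ * μ * gco κ μ n)) := by
  have h : ((n : ℝ) + 2) ≠ 0 := by positivity
  rw [gco]
  push_cast
  field_simp

lemma wmom0_id (κ μ x : ℝ) (N : ℕ) :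
    (1 + κ * x) * (1 + μ * x) * (∑ n ∈ Finset.range (N + 1), gco κ μ n * (n * x ^ (n - 1))) +
      (3 / 2 * κ + 5 / 2 * μ + 4 * (κ * μ) * x) * ∑ n ∈ Finset.range (N + 1), gco κ μ n * x ^ n =
    -(((N : ℝ) + 1) * gco κ μ (N + 1)) * x ^ N + ((N : ℝ) + 4) * (κ * μ) * gco κ μ N * x ^ (N + 1) := by
  induction N with
  | zero =>
    simp only [zero_add, Finset.range_one, Finset.sum_singleton, gco]
    push_cast
    ring
  | succ N ih =>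
    rw [Finset.sum_range_succ _ (N + 1), Finset.sum_range_succ _ (N + 1), Nat.add_sub_cancel]
    have h := wmom0_rec κ μ N
    push_cast
    linear_combination ih + x ^ (N + 1) * h

lemma wmom0_mvt {h h' : ℝ → ℝ} {K c : ℝ} (hK : 0 ≤ K)
    (hd : ∀ x ∈ Icc (-1 : ℝ) 1, HasDerivAt h (h' x) x)
    (hb : ∀ x ∈ Icc (-1 : ℝ) 1, |h' x| ≤ 13 * K * x ^ 12) (hc : |c| ≤ 1) : |h c - h 0| ≤ K := by
  have hB : ∀ x : ℝ, HasDerivAt (fun x : ℝ => K * x ^ 13) (13 * K * x ^ 12) x := fun x => by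
    refine ((hasDerivAt_pow 13 x).const_mul K).congr_deriv ?_
    push_cast
    ring
  have key : ∀ (f f' : ℝ → ℝ), (∀ x ∈ Icc (-1 : ℝ) 1, HasDerivAt f (f' x) x) →
      (∀ x ∈ Icc (-1 : ℝ) 1, 0 ≤ f' x) → MonotoneOn f (Icc (-1 : ℝ) 1) := fun f f' a b =>
    monotoneOn_of_hasDerivWithinAt_nonneg (f' := f') (convex_Icc _ _)
      (fun x hx => (a x hx).continuousAt.continuousWithinAt)
      (fun x hx => (a x (interior_subset hx)).hasDerivWithinAt)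
      (fun x hx => b x (interior_subset hx))
  have m1 := key (fun x => K * x ^ 13 - h x) (fun x => 13 * K * x ^ 12 - h' x)
    (fun x hx => (hB x).sub (hd x hx)) (fun x hx => sub_nonneg.2 (abs_le.1 (hb x hx)).2)
  have m2 := key (fun x => K * x ^ 13 + h x) (fun x => 13 * K * x ^ 12 + h' x)
    (fun x hx => (hB x).add (hd x hx)) (fun x hx => by linarith [(abs_le.1 (hb x hx)).1])
  have hc' : c ∈ Icc (-1 : ℝ) 1 := abs_le.1 hc
  have h0 : (0 : ℝ) ∈ Icc (-1 : ℝ) 1 := ⟨by norm_num, by norm_num⟩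
  have hp : |K * c ^ 13| ≤ K := by
    rw [abs_mul, abs_of_nonneg hK, abs_pow]
    exact mul_le_of_le_one_right hK (pow_le_one₀ (abs_nonneg _) hc)
  obtain ⟨p1, p2⟩ := abs_le.1 hp
  rcases le_total 0 c with h1 | h1
  · have a1 := m1 h0 hc' h1
    have a2 := m2 h0 hc' h1
    simp only [ne_eq, OfNat.ofNat_ne_zero, not_false_eq_true, zero_pow, mul_zero] at a1 a2
    rw [abs_le]
    constructor <;> linarith
  · have a1 := m1 hc' h0 h1
    have a2 := m2 hc' h0 h1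
    simp only [ne_eq, OfNat.ofNat_ne_zero, not_false_eq_true, zero_pow, mul_zero] at a1 a2
    rw [abs_le]
    constructor <;> linarith

lemma wmom0_lin {κ x : ℝ} (hκ0 : 0 ≤ κ) (hκ : κ ≤ 1 / 3) (hx : x ∈ Icc (-1 : ℝ) 1) :
    0 < 1 + κ * x ∧ 1 + κ * x ≤ 4 / 3 := by
  obtain ⟨h1, h2⟩ := hx
  constructor <;> nlinarith

lemma wmom0_deriv {κ μ x : ℝ} (hu : 0 < 1 + κ * x) (hv : 0 < 1 + μ * x) :
    HasDerivAt (fun c => (∑ n ∈ Finset.range 13, gco κ μ n * c ^ n) *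
      ((1 + κ * c) * √(1 + κ * c) * ((1 + μ * c) ^ 2 * √(1 + μ * c))))
      (√(1 + κ * x) * ((1 + μ * x) * √(1 + μ * x)) *
        (-(13 * gco κ μ 13) * x ^ 12 + 16 * (κ * μ) * gco κ μ 12 * x ^ 13)) x := by
  have hG : HasDerivAt (fun c => ∑ n ∈ Finset.range 13, gco κ μ n * c ^ n)
      (∑ n ∈ Finset.range 13, gco κ μ n * (n * x ^ (n - 1))) x :=
    HasDerivAt.fun_sum fun n _ => (hasDerivAt_pow n x).const_mul _
  have hU : HasDerivAt (fun c => 1 + κ * c) κ x := by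
    simpa using ((hasDerivAt_id x).const_mul κ).const_add 1
  have hV : HasDerivAt (fun c => 1 + μ * c) μ x := by
    simpa using ((hasDerivAt_id x).const_mul μ).const_add 1
  have h := hG.mul ((hU.mul (hU.sqrt hu.ne')).mul ((hV.pow 2).mul (hV.sqrt hv.ne')))
  have hid := wmom0_id κ μ x 12
  have ha : √(1 + κ * x) ^ 2 = 1 + κ * x := Real.sq_sqrt hu.le
  have hb : √(1 + μ * x) ^ 2 = 1 + μ * x := Real.sq_sqrt hv.le
  have ha0 : √(1 + κ * x) ≠ 0 := (Real.sqrt_pos.2 hu).ne'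
  have hb0 : √(1 + μ * x) ≠ 0 := (Real.sqrt_pos.2 hv).ne'
  refine h.congr_deriv ?_
  simp only [Pi.mul_apply, Pi.pow_apply]
  have e1 : (1 + κ * x) * (κ / (2 * √(1 + κ * x))) = κ / 2 * √(1 + κ * x) := by
    field_simp
    rw [ha]
  have e2 : (1 + μ * x) ^ 2 * (μ / (2 * √(1 + μ * x))) = μ / 2 * ((1 + μ * x) * √(1 + μ * x)) := by
    field_simp
    rw [hb]
  rw [e1, e2]
  norm_num at hid ⊢
  linear_combination (√(1 + κ * x) * ((1 + μ * x) * √(1 + μ * x))) * hid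

theorem mom_pt {κ μ c : ℝ} (hκ0 : 0 ≤ κ) (hκ : κ ≤ 1 / 3) (hμ0 : 0 ≤ μ) (hμ : μ ≤ 1 / 3)
    (h12 : gco κ μ 12 ^ 2 < 1 / 1000000) (h13 : gco κ μ 13 ^ 2 < 1 / 1000000) (hc : |c| ≤ 1) :
    |(∑ n ∈ Finset.range 13, gco κ μ n * c ^ n) *
      ((1 + κ * c) * √(1 + κ * c) * ((1 + μ * c) ^ 2 * √(1 + μ * c))) - 1| ≤ 21 / 10000 := by
  have g12 : |gco κ μ 12| ≤ 1 / 1000 := abs_le_of_sq_le_sq' (by linarith) (by norm_num) |> abs_le.2
  have g13 : |gco κ μ 13| ≤ 1 / 1000 := abs_le_of_sq_le_sq' (by linarith) (by norm_num) |> abs_le.2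
  have h := wmom0_mvt (K := 21 / 10000) (c := c) (by norm_num)
    (fun x hx => wmom0_deriv (wmom0_lin hκ0 hκ hx).1 (wmom0_lin hμ0 hμ hx).1) (fun x hx => ?_) hc
  · have e : (∑ n ∈ Finset.range 13, gco κ μ n * (0 : ℝ) ^ n) = 1 := by
      rw [Finset.sum_range_succ']
      simp [gco]
    rw [e] at h
    simpa using h
  · obtain ⟨u0, u1⟩ := wmom0_lin hκ0 hκ hx
    obtain ⟨v0, v1⟩ := wmom0_lin hμ0 hμ hx
    have a1 : √(1 + κ * x) * √(1 + μ * x) ≤ 4 / 3 := by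
      rw [← Real.sqrt_mul u0.le]
      refine Real.sqrt_le_iff.2 ⟨by norm_num, ?_⟩
      nlinarith
    have a0 : 0 ≤ √(1 + κ * x) * √(1 + μ * x) := by positivity
    have a2 : √(1 + κ * x) * ((1 + μ * x) * √(1 + μ * x)) ≤ 16 / 9 := by nlinarith
    have a3 : 0 ≤ √(1 + κ * x) * ((1 + μ * x) * √(1 + μ * x)) := by positivity
    have x12 : 0 ≤ x ^ 12 := by positivity
    have hx1 : |x| ≤ 1 := abs_le.2 hx
    have P0 : 0 ≤ κ * μ := mul_nonneg hκ0 hμ0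
    have P1 : κ * μ ≤ 1 / 9 := by nlinarith
    have b1 : |-(13 * gco κ μ 13) + 16 * (κ * μ) * (gco κ μ 12 * x)| ≤ 13 / 1000 + 16 / 9000 := by
      refine (abs_add_le _ _).trans (add_le_add ?_ ?_)
      · rw [abs_neg, abs_mul, abs_of_pos (by norm_num : (0 : ℝ) < 13)]
        linarith
      · rw [abs_mul, abs_of_nonneg (by positivity : 0 ≤ 16 * (κ * μ)), abs_mul]
        have : |gco κ μ 12| * |x| ≤ 1 / 1000 :=
          (mul_le_of_le_one_right (abs_nonneg _) hx1).trans g12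
        have h0 : 0 ≤ |gco κ μ 12| * |x| := by positivity
        nlinarith
    have e : -(13 * gco κ μ 13) * x ^ 12 + 16 * (κ * μ) * gco κ μ 12 * x ^ 13
        = (-(13 * gco κ μ 13) + 16 * (κ * μ) * (gco κ μ 12 * x)) * x ^ 12 := by ring
    rw [e, abs_mul, abs_of_nonneg a3, abs_mul, abs_of_nonneg x12, ← mul_assoc]
    refine mul_le_mul_of_nonneg_right ?_ x12
    calc _ ≤ (16 / 9 : ℝ) * (13 / 1000 + 16 / 9000) :=
          mul_le_mul a2 b1 (abs_nonneg _) (by norm_num)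
      _ ≤ _ := by norm_num

end Pool.Agent.HillD
end

-- part Pool.Agent.P.MP_ae2765_an.WMom
section

/-! The moment expansion. -/

namespace Pool.Agent.HillD
open Real Set Filter Topology Asymptotics

theorem wmom_wal_succ (k : ℕ) : wal (k + 2) = (k + 1) / (k + 2) * wal k := by
  unfold wal
  have h1 : (k + 2) % 2 = k % 2 := by omega
  rw [h1]
  split_ifs with h
  · obtain ⟨m, rfl⟩ : ∃ m, k = 2 * m := ⟨k / 2, by omega⟩
    have e1 : (2 * m + 2) / 2 = m + 1 := by omega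
    have e2 : 2 * m / 2 = m := by omega
    rw [e1, e2]
    have h3 := Nat.succ_mul_centralBinom_succ m
    rw [Nat.centralBinom_eq_two_mul_choose, Nat.centralBinom_eq_two_mul_choose] at h3
    have e3 : 2 * (m + 1) = 2 * m + 2 := by ring
    rw [e3] at h3
    have h4 : ((m : ℝ) + 1) * ((2 * m + 2).choose (m + 1) : ℝ) =
        2 * (2 * m + 1) * ((2 * m).choose m : ℝ) := by exact_mod_cast h3
    have h5 : ((m : ℝ) + 1) ≠ 0 := by positivity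
    have h6 : ((2 * m + 2).choose (m + 1) : ℝ) =
        2 * (2 * m + 1) * ((2 * m).choose m : ℝ) / ((m : ℝ) + 1) := by
      rw [eq_div_iff h5]; linarith
    rw [h6]
    push_cast
    field_simp
    ring
  · simp

theorem wmom_pi (k : ℕ) : ∫ x in (0 : ℝ)..π, cos x ^ k = π * wal k := by
  induction k using Nat.strong_induction_on with
  | _ k ih =>
    match k, ih with
    | 0, _ => simp [wal]
    | 1, _ => simp [wal]
    | k + 2, ih =>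
      rw [integral_cos_pow, ih k (by omega), wmom_wal_succ]
      simp only [sin_pi, sin_zero, mul_zero, sub_zero, zero_div, zero_add]
      ring

theorem wallis (k : ℕ) : ∫ φ in (0 : ℝ)..π / 2, cos (2 * φ) ^ k = π / 2 * wal k := by
  have h := intervalIntegral.integral_comp_mul_left (a := 0) (b := π / 2)
    (fun x => cos x ^ k) (c := 2) two_ne_zero
  rw [h]
  have e1 : (2 : ℝ) * 0 = 0 := by ring
  have e2 : (2 : ℝ) * (π / 2) = π := by ring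
  rw [e1, e2, wmom_pi, smul_eq_mul]
  ring

theorem wmom_mono (κ μ : ℝ) (i : ℕ) :
    ∫ φ in (0 : ℝ)..π / 2, cos (2 * φ) ^ i *
      ∑ n ∈ Finset.range 13, gco κ μ n * cos (2 * φ) ^ n = π / 2 * nuc κ μ i := by
  have e : ∀ φ : ℝ, cos (2 * φ) ^ i * ∑ n ∈ Finset.range 13, gco κ μ n * cos (2 * φ) ^ n =
      ∑ n ∈ Finset.range 13, gco κ μ n * cos (2 * φ) ^ (n + i) := by
    intro φ
    rw [Finset.mul_sum]
    refine Finset.sum_congr rfl fun n _ => ?_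
    rw [pow_add]; ring
  simp_rw [e]
  rw [intervalIntegral.integral_finsetSum]
  · unfold nuc
    rw [Finset.mul_sum]
    refine Finset.sum_congr rfl fun n _ => ?_
    rw [intervalIntegral.integral_const_mul, wallis]
    ring
  · intro n _
    exact Continuous.intervalIntegrable (by fun_prop) _ _

theorem mom_rel {κ μ : ℝ} (hκ0 : 0 ≤ κ) (hκ : κ ≤ 1 / 3) (hμ0 : 0 ≤ μ) (hμ : μ ≤ 1 / 3)
    (h12 : gco κ μ 12 ^ 2 < 1 / 1000000) (h13 : gco κ μ 13 ^ 2 < 1 / 1000000)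
    (w0 w1 w2 w3 w4 : ℝ)
    (hw : ∀ c : ℝ, |c| ≤ 1 → 0 ≤ w0 + w1 * c + w2 * c ^ 2 + w3 * c ^ 3 + w4 * c ^ 4) :
    ∃ x : ℝ, 4989 / 5000 ≤ x ∧ x ≤ 5011 / 5000 ∧
      ∫ φ in (0 : ℝ)..π / 2, (w0 + w1 * cos (2 * φ) + w2 * cos (2 * φ) ^ 2 + w3 * cos (2 * φ) ^ 3 +
          w4 * cos (2 * φ) ^ 4) / ((1 + κ * cos (2 * φ)) * √(1 + κ * cos (2 * φ)) *
            ((1 + μ * cos (2 * φ)) ^ 2 * √(1 + μ * cos (2 * φ)))) =
        π / 2 * ((w0 * nuc κ μ 0 + w1 * nuc κ μ 1 + w2 * nuc κ μ 2 + w3 * nuc κ μ 3 +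
          w4 * nuc κ μ 4) * x) := by
  set G : ℝ → ℝ := fun φ => ∑ n ∈ Finset.range 13, gco κ μ n * cos (2 * φ) ^ n with hG
  set w : ℝ → ℝ := fun φ => w0 + w1 * cos (2 * φ) + w2 * cos (2 * φ) ^ 2 +
    w3 * cos (2 * φ) ^ 3 + w4 * cos (2 * φ) ^ 4 with hwd
  set W : ℝ → ℝ := fun φ => (1 + κ * cos (2 * φ)) * √(1 + κ * cos (2 * φ)) *
    ((1 + μ * cos (2 * φ)) ^ 2 * √(1 + μ * cos (2 * φ))) with hW
  have hGc : Continuous G := by rw [hG]; fun_prop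
  have hwc : Continuous w := by rw [hwd]; fun_prop
  have hWc : Continuous W := by rw [hW]; fun_prop
  have hWpos : ∀ φ, 0 < W φ := by
    intro φ
    have h1 := neg_one_le_cos (2 * φ)
    have hu : 0 < 1 + κ * cos (2 * φ) := by nlinarith
    have hv : 0 < 1 + μ * cos (2 * φ) := by nlinarith
    have := sqrt_pos.2 hu
    have := sqrt_pos.2 hv
    simp only [hW]
    positivity
  have hw0 : ∀ φ, 0 ≤ w φ := fun φ => hw _ (abs_cos_le_one _)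
  have hIc : Continuous fun φ => w φ / W φ := hwc.div hWc fun φ => (hWpos φ).ne'
  have hpt : ∀ φ, |G φ * W φ - 1| ≤ 21 / 10000 := fun φ =>
    mom_pt hκ0 hκ hμ0 hμ h12 h13 (abs_cos_le_one _)
  have hpi : (0 : ℝ) ≤ π / 2 := by positivity
  have hI0 : ∀ φ, 0 ≤ w φ / W φ := fun φ => div_nonneg (hw0 φ) (hWpos φ).le
  have hwG : ∀ φ, w φ * G φ = w φ / W φ * (G φ * W φ) := by
    intro φ
    have := (hWpos φ).ne'
    field_simp
  have hlo : ∀ φ, 9979 / 10000 * (w φ / W φ) ≤ w φ * G φ := by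
    intro φ
    rw [hwG]
    have := (abs_le.1 (hpt φ)).1
    nlinarith [hI0 φ]
  have hhi : ∀ φ, w φ * G φ ≤ 10021 / 10000 * (w φ / W φ) := by
    intro φ
    rw [hwG]
    have := (abs_le.1 (hpt φ)).2
    nlinarith [hI0 φ]
  set A : ℝ := ∫ φ in (0 : ℝ)..π / 2, w φ / W φ with hA
  set S : ℝ := w0 * nuc κ μ 0 + w1 * nuc κ μ 1 + w2 * nuc κ μ 2 + w3 * nuc κ μ 3 +
    w4 * nuc κ μ 4 with hS
  have hB : ∫ φ in (0 : ℝ)..π / 2, w φ * G φ = π / 2 * S := by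
    have e : ∀ φ, w φ * G φ = w0 * (cos (2 * φ) ^ 0 * G φ) + w1 * (cos (2 * φ) ^ 1 * G φ) +
        w2 * (cos (2 * φ) ^ 2 * G φ) + w3 * (cos (2 * φ) ^ 3 * G φ) +
        w4 * (cos (2 * φ) ^ 4 * G φ) := by
      intro φ
      simp only [hwd]
      ring
    have hi : ∀ (a : ℝ) (i : ℕ), IntervalIntegrable (fun φ => a * (cos (2 * φ) ^ i * G φ))
        MeasureTheory.volume 0 (π / 2) := fun a i =>
      Continuous.intervalIntegrable (by fun_prop) _ _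
    simp_rw [e]
    rw [intervalIntegral.integral_add ((((hi _ _).add (hi _ _)).add (hi _ _)).add (hi _ _)) (hi _ _),
      intervalIntegral.integral_add (((hi _ _).add (hi _ _)).add (hi _ _)) (hi _ _),
      intervalIntegral.integral_add ((hi _ _).add (hi _ _)) (hi _ _),
      intervalIntegral.integral_add (hi _ _) (hi _ _)]
    simp only [intervalIntegral.integral_const_mul, hG, wmom_mono]
    rw [hS]
    ring
  have hiI : IntervalIntegrable (fun φ => w φ / W φ) MeasureTheory.volume 0 (π / 2) :=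
    hIc.intervalIntegrable _ _
  have hiB : IntervalIntegrable (fun φ => w φ * G φ) MeasureTheory.volume 0 (π / 2) :=
    (hwc.mul hGc).intervalIntegrable _ _
  have h1 : 9979 / 10000 * A ≤ π / 2 * S := by
    rw [← hB, hA, ← intervalIntegral.integral_const_mul]
    exact intervalIntegral.integral_mono_on hpi (hiI.const_mul _) hiB fun φ _ => hlo φ
  have h2 : π / 2 * S ≤ 10021 / 10000 * A := by
    rw [← hB, hA, ← intervalIntegral.integral_const_mul]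
    exact intervalIntegral.integral_mono_on hpi hiB (hiI.const_mul _) fun φ _ => hhi φ
  have hA0 : 0 ≤ A := intervalIntegral.integral_nonneg hpi fun φ _ => hI0 φ
  show ∃ x : ℝ, 4989 / 5000 ≤ x ∧ x ≤ 5011 / 5000 ∧ A = π / 2 * (S * x)
  rcases hA0.eq_or_lt with h0 | h0
  · refine ⟨1, by norm_num, by norm_num, ?_⟩
    rw [← h0] at h1 h2
    rw [← h0]
    linarith
  · have hBpos : 0 < π / 2 * S := by linarith
    refine ⟨A / (π / 2 * S), ?_, ?_, ?_⟩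
    · rw [le_div_iff₀ hBpos]; linarith
    · rw [div_le_iff₀ hBpos]; linarith
    · rw [← mul_assoc, mul_div_cancel₀ _ hBpos.ne']

end Pool.Agent.HillD
end

-- part Pool.Agent.P.MP_ae2765_an.WR1e
section

/-! First region: the numerical criterion. -/

namespace Pool.Agent.HillD
open Real Set Filter Topology Asymptotics Pool.Agent.HillD.Num Pool.Agent.P.MP_4c4e6e_co.Eng

theorem wr1e_g (κ μ : ℝ) (n n1 n2 : ℕ) (h1 : n1 = n + 1) (h2 : n2 = n + 2) (x y z : ℝ)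
    (hx : x = 1 / ((n : ℝ) + 2)) (hy : y = (n : ℝ) + 1) (hz : z = (n : ℝ) + 4) :
    gco κ μ n2 = -(x * ((y * (κ + μ) + (3 / 2 * κ + 5 / 2 * μ)) * gco κ μ n1 +
      z * (κ * μ * gco κ μ n))) := by
  subst h1 h2 hx hy hz
  rw [gco]
  push_cast
  ring

theorem wr1e_g2 (κ μ : ℝ) :
    gco κ μ 2 = -(1 / 2 * ((κ + μ + (3 / 2 * κ + 5 / 2 * μ)) * gco κ μ 1 + 4 * (κ * μ))) := by
  rw [wr1e_g κ μ 0 1 2 rfl rfl (1 / 2) 1 4 (by norm_num) (by norm_num) (by norm_num),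
    show gco κ μ 0 = 1 from rfl]
  ring

theorem wr1e_nuc (κ μ : ℝ) :
    nuc κ μ 0 = 1 + 1 / 2 * gco κ μ 2 + 3 / 8 * gco κ μ 4 + 5 / 16 * gco κ μ 6 +
      35 / 128 * gco κ μ 8 + 63 / 256 * gco κ μ 10 + 231 / 1024 * gco κ μ 12 ∧
    nuc κ μ 1 = 1 / 2 * gco κ μ 1 + 3 / 8 * gco κ μ 3 + 5 / 16 * gco κ μ 5 +
      35 / 128 * gco κ μ 7 + 63 / 256 * gco κ μ 9 + 231 / 1024 * gco κ μ 11 ∧
    nuc κ μ 2 = 1 / 2 + 3 / 8 * gco κ μ 2 + 5 / 16 * gco κ μ 4 + 35 / 128 * gco κ μ 6 +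
      63 / 256 * gco κ μ 8 + 231 / 1024 * gco κ μ 10 + 429 / 2048 * gco κ μ 12 ∧
    nuc κ μ 3 = 3 / 8 * gco κ μ 1 + 5 / 16 * gco κ μ 3 + 35 / 128 * gco κ μ 5 +
      63 / 256 * gco κ μ 7 + 231 / 1024 * gco κ μ 9 + 429 / 2048 * gco κ μ 11 ∧
    nuc κ μ 4 = 3 / 8 + 5 / 16 * gco κ μ 2 + 35 / 128 * gco κ μ 4 + 63 / 256 * gco κ μ 6 +
      231 / 1024 * gco κ μ 8 + 429 / 2048 * gco κ μ 10 + 6435 / 32768 * gco κ μ 12 := by
  have g0 : gco κ μ 0 = 1 := rfl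
  have w0 : wal 0 = 1 := by norm_num [wal]
  have w1 : wal 1 = 0 := by norm_num [wal]
  have w2 : wal 2 = 1 / 2 := by norm_num [wal]
  have w3 : wal 3 = 0 := by norm_num [wal]
  have w4 : wal 4 = 3 / 8 := by norm_num [wal, Nat.choose]
  have w5 : wal 5 = 0 := by norm_num [wal]
  have w6 : wal 6 = 5 / 16 := by norm_num [wal, Nat.choose]
  have w7 : wal 7 = 0 := by norm_num [wal]
  have w8 : wal 8 = 35 / 128 := by norm_num [wal, Nat.choose]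
  have w9 : wal 9 = 0 := by norm_num [wal]
  have w10 : wal 10 = 63 / 256 := by norm_num [wal, Nat.choose]
  have w11 : wal 11 = 0 := by norm_num [wal]
  have w12 : wal 12 = 231 / 1024 := by norm_num [wal, Nat.choose]
  have w13 : wal 13 = 0 := by norm_num [wal]
  have w14 : wal 14 = 429 / 2048 := by norm_num [wal, Nat.choose]
  have w15 : wal 15 = 0 := by norm_num [wal]
  have w16 : wal 16 = 6435 / 32768 := by norm_num [wal, Nat.choose]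
  simp only [nuc, Finset.sum_range_succ, Finset.sum_range_zero, Nat.reduceAdd, g0, w0, w1, w2, w3,
    w4, w5, w6, w7, w8, w9, w10, w11, w12, w13, w14, w15, w16]
  refine ⟨?_, ?_, ?_, ?_, ?_⟩ <;> ring

theorem wr1e_pt {ε t av ae x : ℝ} (hε0 : 0 ≤ ε) (ht0 : 0 ≤ t)
    (hx : |x| ≤ 1) {i k : ℕ} (hi : i ≤ 2) (hk : k ≤ 2) :
    √((3 + ε) * (2 + t)⁻¹) * (√((1 + t * (1 / 2 + x / 2)) / (1 + ε + (1 - ε) * (1 / 2 + x / 2))) *
      ((av * ((1 / 2 + x / 2) / (1 + t * (1 / 2 + x / 2)))) ^ i *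
        (ae * ((1 - (1 / 2 + x / 2)) / (1 + ε + (1 - ε) * (1 / 2 + x / 2)))) ^ k)) =
    (av * (2 * (2 + t)⁻¹)) ^ i * (ae * (2 * (3 + ε)⁻¹)) ^ k *
      ((((1 + x) / 2) ^ i * ((1 - x) / 2) ^ k * (1 + t * (2 + t)⁻¹ * x) ^ (2 - i) *
        (1 + (1 - ε) * (3 + ε)⁻¹ * x) ^ (2 - k)) /
        ((1 + t * (2 + t)⁻¹ * x) * √(1 + t * (2 + t)⁻¹ * x) *
          ((1 + (1 - ε) * (3 + ε)⁻¹ * x) ^ 2 * √(1 + (1 - ε) * (3 + ε)⁻¹ * x)))) := by
  obtain ⟨hx1, hx2⟩ := abs_le.1 hx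
  have a0 : 0 < 2 + t := by linarith
  have b0 : 0 < 3 + ε := by linarith
  have e1 : 1 + t * (1 / 2 + x / 2) = (2 + t) / 2 * (1 + t * (2 + t)⁻¹ * x) := by
    field_simp
    ring
  have e2 : 1 + ε + (1 - ε) * (1 / 2 + x / 2) = (3 + ε) / 2 * (1 + (1 - ε) * (3 + ε)⁻¹ * x) := by
    field_simp
    ring
  have hu : 0 < 1 + t * (2 + t)⁻¹ * x := by
    have : 0 < (2 + t) / 2 * (1 + t * (2 + t)⁻¹ * x) := by rw [← e1]; nlinarith
    exact (mul_pos_iff_of_pos_left (by linarith)).1 this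
  have hv : 0 < 1 + (1 - ε) * (3 + ε)⁻¹ * x := by
    have : 0 < (3 + ε) / 2 * (1 + (1 - ε) * (3 + ε)⁻¹ * x) := by rw [← e2]; nlinarith
    exact (mul_pos_iff_of_pos_left (by linarith)).1 this
  rw [e1, e2]
  generalize 1 + t * (2 + t)⁻¹ * x = u at hu ⊢
  generalize 1 + (1 - ε) * (3 + ε)⁻¹ * x = v at hv ⊢
  have e3 : √((3 + ε) * (2 + t)⁻¹) * √((2 + t) / 2 * u / ((3 + ε) / 2 * v)) = √u / √v := by
    rw [← Real.sqrt_mul (by positivity), ← Real.sqrt_div hu.le]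
    congr 1
    field_simp
  rw [← mul_assoc, e3]
  have hp : 0 < √u := Real.sqrt_pos.2 hu
  have hq : 0 < √v := Real.sqrt_pos.2 hv
  have hp2 : u = √u ^ 2 := (Real.sq_sqrt hu.le).symm
  generalize √u = p at hp hp2 ⊢
  generalize √v = q at hq ⊢
  subst hp2
  have e4 : 1 - (1 / 2 + x / 2) = (1 - x) / 2 := by ring
  have e5 : 1 / 2 + x / 2 = (1 + x) / 2 := by ring
  rw [e4, e5]
  generalize (1 - x) / 2 = Y
  generalize (1 + x) / 2 = X
  generalize 2 + t = a at a0 ⊢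
  generalize 3 + ε = b at b0 ⊢
  interval_cases i <;> interval_cases k <;> simp only [Nat.reduceSub, pow_zero, pow_one] <;>
    field_simp

theorem wr1e_mom {ε t av ae ka mu : ℝ} (hε0 : 0 ≤ ε) (hε1 : ε ≤ 1) (ht0 : 0 ≤ t) (ht1 : t ≤ 1)
    (hka : ka = t * (2 + t)⁻¹) (hmu : mu = (1 - ε) * (3 + ε)⁻¹)
    (h12 : gco ka mu 12 ^ 2 < 1 / 1000000) (h13 : gco ka mu 13 ^ 2 < 1 / 1000000)
    {i k : ℕ} (hi : i ≤ 2) (hk : k ≤ 2) (r a b d f : ℝ)
    (hw : ∀ x : ℝ, r * ((1 + a * x) * (1 + b * x) * (1 + d * x) * (1 + f * x)) =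
      ((1 + x) / 2) ^ i * ((1 - x) / 2) ^ k * (1 + ka * x) ^ (2 - i) * (1 + mu * x) ^ (2 - k)) :
    ∃ x : ℝ, 4989 / 5000 ≤ x ∧ x ≤ 5011 / 5000 ∧ mom ε t av ae i k =
      (av * (2 * (2 + t)⁻¹)) ^ i * (ae * (2 * (3 + ε)⁻¹)) ^ k *
        ((r * nuc ka mu 0 + r * (a + b + d + f) * nuc ka mu 1 +
          r * (a * b + a * d + a * f + b * d + b * f + d * f) * nuc ka mu 2 +
          r * (a * b * d + a * b * f + a * d * f + b * d * f) * nuc ka mu 3 +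
          r * (a * b * d * f) * nuc ka mu 4) * x) := by
  have a0 : 0 < 2 + t := by linarith
  have b0 : 0 < 3 + ε := by linarith
  have k0 : 0 ≤ ka := by rw [hka]; positivity
  have k1 : ka ≤ 1 / 3 := by
    rw [hka, ← div_eq_mul_inv, div_le_iff₀ a0]; linarith
  have m0 : 0 ≤ mu := by rw [hmu]; exact mul_nonneg (by linarith) (by positivity)
  have m1 : mu ≤ 1 / 3 := by
    rw [hmu, ← div_eq_mul_inv, div_le_iff₀ b0]; linarith
  have hw' : ∀ x : ℝ, r + r * (a + b + d + f) * x +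
      r * (a * b + a * d + a * f + b * d + b * f + d * f) * x ^ 2 +
      r * (a * b * d + a * b * f + a * d * f + b * d * f) * x ^ 3 + r * (a * b * d * f) * x ^ 4 =
      ((1 + x) / 2) ^ i * ((1 - x) / 2) ^ k * (1 + ka * x) ^ (2 - i) * (1 + mu * x) ^ (2 - k) :=
    fun x => by rw [← hw]; ring
  obtain ⟨x, hx1, hx2, hx⟩ := mom_rel k0 k1 m0 m1 h12 h13 _ _ _ _ _ (fun x hx => by
    obtain ⟨h1, h2⟩ := abs_le.1 hx
    rw [hw']
    have p1 : 0 ≤ (1 + x) / 2 := by linarith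
    have p2 : 0 ≤ (1 - x) / 2 := by linarith
    have p3 : 0 ≤ 1 + ka * x := by nlinarith
    have p4 : 0 ≤ 1 + mu * x := by nlinarith
    positivity)
  refine ⟨x, hx1, hx2, ?_⟩
  simp only [hw'] at hx
  rw [mom, mul_assoc, ← intervalIntegral.integral_const_mul]
  simp only [Real.cos_sq, wr1e_pt hε0 ht0 (abs_cos_le_one _) hi hk]
  rw [intervalIntegral.integral_const_mul, ← hka, ← hmu, hx]
  field_simp

theorem wr1e_r {x y z : ℝ} (h0 : 0 ≤ y) (h1 : y ≤ z * x) :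
    ∃ r : ℝ, 0 ≤ r ∧ r ≤ 1 ∧ y = r * x * z := by
  rcases (h0.trans h1).eq_or_lt with h | h
  · exact ⟨0, le_rfl, zero_le_one, by linarith⟩
  · refine ⟨y / (z * x), div_nonneg h0 h.le, (div_le_one h).2 h1, ?_⟩
    rw [mul_assoc, mul_comm x, div_mul_cancel₀ _ h.ne']

theorem wr1e_k2 {c pk B e F L : ℝ} (hc : 0 < c) (hB : B ≤ c * pk) (b : |e| ≤ B / (13 / 100) ^ 2)
    (h : F + e = 0) (hL : 2 * F = c * L) :
    ¬ 0 < L - 20000 / 169 * pk ∧ ¬ 0 < -L - 20000 / 169 * pk := by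
  have e2 : B / (13 / 100) ^ 2 = 10000 / 169 * B := by ring
  rw [e2] at b
  obtain ⟨b1, b2⟩ := abs_le.1 b
  constructor
  · intro h0
    have h1 := mul_pos hc h0
    have h2 : c * (L - 20000 / 169 * pk) = c * L - 20000 / 169 * (c * pk) := by ring
    rw [h2, ← hL] at h1
    generalize c * pk = P at h1 hB
    linarith
  · intro h0
    have h1 := mul_pos hc h0
    have h2 : c * (-L - 20000 / 169 * pk) = -(c * L) - 20000 / 169 * (c * pk) := by ring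
    rw [h2, ← hL] at h1
    generalize c * pk = P at h1 hB
    linarith

theorem wr1e_k3 {c pk B e F L : ℝ} (hc : 0 < c) (hB : B ≤ c * pk) (b : |e| ≤ B / (13 / 100) ^ 3)
    (hL : 6 * F = c * L) (h0 : 0 < L - 6000000 / 2197 * pk) : 0 < F + e := by
  have e2 : B / (13 / 100) ^ 3 = 1000000 / 2197 * B := by ring
  rw [e2] at b
  obtain ⟨b1, b2⟩ := abs_le.1 b
  have h1 := mul_pos hc h0
  have h2 : c * (L - 6000000 / 2197 * pk) = c * L - 6000000 / 2197 * (c * pk) := by ring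
  rw [h2, ← hL] at h1
  generalize c * pk = P at h1 hB
  linarith

theorem r1_main {δ0 ω0 ε t n av ae E0 s e1 e2 e3 : ℝ} (hδ : 0 < δ0) (hω : 0 < ω0)
    (hε : ε = 1 / (1 + δ0 ^ 2)) (ht : t = δ0 ^ 2 / ω0) (ht1 : t ≤ 1) (hn : 0 < n)
    (hav : t = n * av) (hae : (1 - ε) * ε = n * ae) (hE : 0 < E0)
    (hb : ∀ w : ℝ, 0 ≤ w → w ≤ 2 → ∃ tl : List ℝ,
      r1Body.holds (w :: E0 :: ε :: (1 - ε) :: n :: t :: ae :: av :: tl))
    (b1 : |e1| ≤ n * (ω0 * √(2 / (1 + δ0 ^ 2))) * E0 / (13 / 100))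
    (b2 : |e2| ≤ n * (ω0 * √(2 / (1 + δ0 ^ 2))) * E0 / (13 / 100) ^ 2)
    (b3 : |e3| ≤ n * (ω0 * √(2 / (1 + δ0 ^ 2))) * E0 / (13 / 100) ^ 3)
    (h1 : F1 (π / 2) ω0 (jj δ0) s + e1 = 0) (h2 : F2 (π / 2) ω0 (jj δ0) s + e2 = 0) :
    0 < F3 (π / 2) ω0 (jj δ0) s + e3 := by
  have hε0 : 0 ≤ ε := by rw [hε]; positivity
  have hε1 : ε ≤ 1 := by
    rw [hε, div_le_one (by positivity)]; nlinarith [sq_nonneg δ0]
  have ht0 : 0 ≤ t := by rw [ht]; positivity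
  have hav0 : 0 ≤ av := nonneg_of_mul_nonneg_right (hav ▸ ht0) hn
  have hae0 : 0 ≤ ae :=
    nonneg_of_mul_nonneg_right (hae ▸ mul_nonneg (sub_nonneg.2 hε1) hε0) hn
  obtain ⟨sg, hsg⟩ : ∃ sg : ℝ, s = 1 - ε - n * sg := ⟨(1 - ε - s) / n, by field_simp; ring⟩
  obtain ⟨M, hM⟩ : ∃ M, M = mom ε t av ae := ⟨_, rfl⟩
  obtain ⟨k, hk⟩ : ∃ k : ℝ, k = 2 - s := ⟨_, rfl⟩
  obtain ⟨sk, hsk⟩ : ∃ sk : ℝ, sk = 1 - s * k := ⟨_, rfl⟩
  obtain ⟨h, hh⟩ : ∃ h : ℝ, h = 1 / 2 * k := ⟨_, rfl⟩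
  obtain ⟨c, hc⟩ : ∃ c : ℝ,
      c = n * (ω0 * √(2 / (1 + δ0 ^ 2))) * (π / 2) / √((3 + ε) * (2 + t)⁻¹) := ⟨_, rfl⟩
  obtain ⟨pk, hpk⟩ : ∃ pk : ℝ, pk = 6367 / 10000 * (E0 * √((3 + ε) * (2 + t)⁻¹)) := ⟨_, rfl⟩
  obtain ⟨f1, f2, f3⟩ := F_mom hδ hω hε rfl ht hn hav hae hsg hk hsk hh hM hc
  have hR : 0 < √((3 + ε) * (2 + t)⁻¹) := Real.sqrt_pos.2 (by positivity)
  have hS : 0 < n * (ω0 * √(2 / (1 + δ0 ^ 2))) := by positivity
  have hc0 : 0 < c := by rw [hc]; positivity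
  have hpk0 : 0 < pk := by rw [hpk]; positivity
  have hB : n * (ω0 * √(2 / (1 + δ0 ^ 2))) * E0 ≤ c * pk := by
    have e : c * pk = n * (ω0 * √(2 / (1 + δ0 ^ 2))) * E0 * (π / 2 * (6367 / 10000)) := by
      rw [hc, hpk]; field_simp
    rw [e]
    exact le_mul_of_one_le_right (by positivity) (by linarith [Real.pi_gt_d4])
  generalize n * (ω0 * √(2 / (1 + δ0 ^ 2))) * E0 = B at b1 b2 b3 hB
  have hcp : 0 < c * pk := mul_pos hc0 hpk0
  obtain ⟨b11, b12⟩ := abs_le.1 b1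
  obtain ⟨w, hw0, hw2, hw⟩ : ∃ w : ℝ, 0 ≤ w ∧ w ≤ 2 ∧ e1 = c * (100 / 13 * ((w - 1) * pk)) := by
    refine ⟨1 + 13 / 100 * e1 / (c * pk), ?_, ?_, by field_simp; ring⟩
    · have : -1 ≤ 13 / 100 * e1 / (c * pk) := by
        rw [le_div_iff₀ hcp]; linarith
      linarith
    · have : 13 / 100 * e1 / (c * pk) ≤ 1 := by
        rw [div_le_iff₀ hcp]; linarith
      linarith
  have hI := fun i k => mom_ineq hε0 hε1 ht0 hav0 hae0 hn.le hav i k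
  simp only [← hM] at hI
  have hden : 0 < M 0 0 - 1 / 2 * (n * M 1 0) := by
    obtain ⟨_, _, _, a, b⟩ := hI 0 0
    linarith
  have hsg' : sg = (M 0 1 + 1 / 2 * ((1 + ε) * M 1 0) + 100 / 13 * ((w - 1) * pk)) *
      (M 0 0 - 1 / 2 * (n * M 1 0))⁻¹ := by
    rw [eq_mul_inv_iff_mul_eq₀ hden.ne']
    have e : c * (M 0 1 - sg * M 0 0 + h * M 1 0 + 100 / 13 * ((w - 1) * pk)) = 0 := by
      rw [mul_add, ← f1, ← hw, h1]
    have e' := (mul_eq_zero.1 e).resolve_left hc0.ne'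
    rw [hh, hk, hsg] at e'
    linear_combination -e'
  obtain ⟨tl, htl⟩ := hb w hw0 hw2
  obtain ⟨ka, hka⟩ : ∃ ka : ℝ, ka = t * (2 + t)⁻¹ := ⟨_, rfl⟩
  obtain ⟨mu, hmu⟩ : ∃ mu : ℝ, mu = (1 - ε) * (3 + ε)⁻¹ := ⟨_, rfl⟩
  obtain ⟨h12, h13, H⟩ := r1Body_real htl ka hka mu hmu _ rfl _ rfl _ rfl (gco ka mu 1) rfl
    _ (wr1e_g2 ka mu)
    _ (wr1e_g ka mu 1 2 3 rfl rfl (1 / 3) 2 5 (by norm_num) (by norm_num) (by norm_num))
    _ (wr1e_g ka mu 2 3 4 rfl rfl (1 / 4) 3 6 (by norm_num) (by norm_num) (by norm_num))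
    _ (wr1e_g ka mu 3 4 5 rfl rfl (1 / 5) 4 7 (by norm_num) (by norm_num) (by norm_num))
    _ (wr1e_g ka mu 4 5 6 rfl rfl (1 / 6) 5 8 (by norm_num) (by norm_num) (by norm_num))
    _ (wr1e_g ka mu 5 6 7 rfl rfl (1 / 7) 6 9 (by norm_num) (by norm_num) (by norm_num))
    _ (wr1e_g ka mu 6 7 8 rfl rfl (1 / 8) 7 10 (by norm_num) (by norm_num) (by norm_num))
    _ (wr1e_g ka mu 7 8 9 rfl rfl (1 / 9) 8 11 (by norm_num) (by norm_num) (by norm_num))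
    _ (wr1e_g ka mu 8 9 10 rfl rfl (1 / 10) 9 12 (by norm_num) (by norm_num) (by norm_num))
    _ (wr1e_g ka mu 9 10 11 rfl rfl (1 / 11) 10 13 (by norm_num) (by norm_num) (by norm_num))
    _ (wr1e_g ka mu 10 11 12 rfl rfl (1 / 12) 11 14 (by norm_num) (by norm_num) (by norm_num))
    _ (wr1e_g ka mu 11 12 13 rfl rfl (1 / 13) 12 15 (by norm_num) (by norm_num) (by norm_num))
  obtain ⟨n0, n1, n2, n3, n4⟩ := wr1e_nuc ka mu
  have hm := fun i k hi hk => wr1e_mom (av := av) (ae := ae) (i := i) (k := k) hε0 hε1 ht0 ht1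
    hka hmu (sub_pos.1 h12) (sub_pos.1 h13) hi hk
  simp only [← hM] at hm
  obtain ⟨x00, l00, u00, m00⟩ := hm 0 0 (by norm_num) (by norm_num) 1 ka ka mu mu
    fun x => by norm_num; ring
  obtain ⟨x01, l01, u01, m01⟩ := hm 0 1 (by norm_num) (by norm_num) (1 / 2) ka ka mu (-1)
    fun x => by norm_num; ring
  obtain ⟨x02, l02, u02, m02⟩ := hm 0 2 (by norm_num) (by norm_num) (1 / 4) ka ka (-1) (-1)
    fun x => by norm_num; ring
  obtain ⟨x10, l10, u10, m10⟩ := hm 1 0 (by norm_num) (by norm_num) (1 / 2) 1 ka mu mu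
    fun x => by norm_num; ring
  obtain ⟨x11, l11, u11, m11⟩ := hm 1 1 (by norm_num) (by norm_num) (1 / 4) 1 ka mu (-1)
    fun x => by norm_num; ring
  obtain ⟨x20, l20, u20, m20⟩ := hm 2 0 (by norm_num) (by norm_num) (1 / 4) 1 1 mu mu
    fun x => by norm_num; ring
  obtain ⟨a0, ha0⟩ : ∃ a0 : ℝ, a0 = av * (2 * (2 + t)⁻¹) := ⟨_, rfl⟩
  obtain ⟨b0, hb0⟩ : ∃ b0 : ℝ, b0 = ae * (2 * (3 + ε)⁻¹) := ⟨_, rfl⟩
  rw [← ha0, ← hb0] at m00 m01 m02 m10 m11 m20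
  have H' := H _ n0 _ n1 _ n2 _ n3 _ n4 _ rfl _ rfl _ rfl _ rfl _ rfl _ rfl _ rfl _ rfl _ rfl _ rfl
    _ rfl _ rfl _ rfl _ rfl _ rfl _ rfl _ rfl a0 ha0 b0 hb0 _ rfl _ rfl _ rfl _ rfl _ rfl _ rfl _ rfl
    _ rfl _ rfl _ rfl _ rfl _ rfl _ rfl _ rfl
    x00 l00 u00 (M 0 0) (by rw [m00]; ring) x01 l01 u01 (M 0 1) (by rw [m01]; ring)
    x02 l02 u02 (M 0 2) (by rw [m02]; ring) x10 l10 u10 (M 1 0) (by rw [m10]; ring)
    x11 l11 u11 (M 1 1) (by rw [m11]; ring) x20 l20 u20 (M 2 0) (by rw [m20]; ring)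
    pk hpk sg hsg' s hsg k hk sk hsk _ rfl _ rfl
  rcases H' with H' | H' | H'
  · exact absurd H' (wr1e_k2 hc0 hB b2 h2 f2).1
  · exact absurd H' (wr1e_k2 hc0 hB b2 h2 f2).2
  obtain ⟨r0, p0, q0, s0⟩ := wr1e_r (hI 3 0).1 (hI 2 0).2.1
  obtain ⟨r1, p1, q1, s1⟩ := wr1e_r (hI 2 1).1 (hI 1 1).2.1
  obtain ⟨r2, p2, q2, s2⟩ := wr1e_r (hI 1 2).1 (hI 1 1).2.2.1
  obtain ⟨r3, p3, q3, s3⟩ := wr1e_r (hI 0 3).1 (hI 0 2).2.2.1
  exact wr1e_k3 hc0 hB b3 f3 (H' r0 p0 q0 r1 p1 q1 r2 p2 q2 r3 p3 q3 _ s0 _ s1 _ s2 _ s3 h hh _ rfl _ rfl _ rfl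
    _ rfl)

end Pool.Agent.HillD
end
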