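import Pool.Agent.K.MP_ae2765_an.C6

-- part Pool.Agent.P.MP_ae2765_an.WBr0
section

/-! Real parameters: the disc, the root along the path, and the primitive. -/

namespace Pool.Agent.HillD
open Real Set Filter Topology Asymptotics

variable {ω j φ1 : ℝ}

theorem wbr0_cos {φ : ℂ} (h : ‖φ‖ ≤ π / 2) (him : (Complex.cos φ ^ 2).im = 0) :
    0 ≤ (Complex.cos φ ^ 2).re := by
  have hre : (Complex.cos φ).re = cos φ.re * cosh φ.im := by
    rw [Complex.cos_eq]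
    simp [Complex.cos_ofReal_re, Complex.cosh_ofReal_re, Complex.sin_ofReal_im,
      Complex.sinh_ofReal_im, Complex.cos_ofReal_im, Complex.cosh_ofReal_im]
  have hi : (Complex.cos φ).im = -(sin φ.re * sinh φ.im) := by
    rw [Complex.cos_eq]
    simp [Complex.sin_ofReal_re, Complex.sinh_ofReal_re, Complex.sin_ofReal_im,
      Complex.sinh_ofReal_im, Complex.cos_ofReal_im, Complex.cosh_ofReal_im]
  have hb : (Complex.cos φ).im = 0 := by
    rw [sq, Complex.mul_im] at him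
    have h2 : (Complex.cos φ).re * (Complex.cos φ).im = 0 := by linarith
    rcases mul_eq_zero.1 h2 with h3 | h3
    · rw [hre] at h3
      have h4 : cos φ.re = 0 := (mul_eq_zero.1 h3).resolve_right (cosh_pos _).ne'
      have h5 : π / 2 ≤ |φ.re| := by
        by_contra h5
        have h6 := abs_lt.1 (not_le.1 h5)
        exact (cos_pos_of_mem_Ioo ⟨h6.1, h6.2⟩).ne' h4
      have h6 : φ.re ^ 2 + φ.im ^ 2 ≤ (π / 2) ^ 2 := by
        have e : ‖φ‖ ^ 2 = φ.re ^ 2 + φ.im ^ 2 := by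
          rw [Complex.sq_norm, Complex.normSq_apply]; ring
        rw [← e]
        exact pow_le_pow_left₀ (norm_nonneg _) h 2
      have h7 : (π / 2) ^ 2 ≤ φ.re ^ 2 := by
        rw [← sq_abs φ.re]
        exact pow_le_pow_left₀ (by positivity) h5 2
      have h8 : φ.im = 0 := by
        have : φ.im ^ 2 ≤ 0 := by linarith
        exact pow_eq_zero_iff (two_ne_zero) |>.1 (le_antisymm this (sq_nonneg _))
      rw [hi, h8, sinh_zero, mul_zero, neg_zero]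
    · exact h3
  rw [sq, Complex.mul_re, hb]
  nlinarith [mul_self_nonneg (Complex.cos φ).re]

theorem wbr0_slit (hω : 0 < ω) (hj : 0 < j) (hj2 : j < 1 / 2) {X : ℂ}
    (hX : X.im = 0 → 0 ≤ X.re) : PP ω j X ∈ Complex.slitPlane ∧ QQ j X ∈ Complex.slitPlane ∧
      2 * (ω : ℂ) * PP ω j X / QQ j X ∈ Complex.slitPlane := by
  have hκ : 0 < 1 - 2 * j := by linarith
  have hωj : 0 < ω * j := mul_pos hω hj
  have pr : (PP ω j X).re = ω * j + (1 - 2 * j) * X.re := by simp [PP]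
  have pi : (PP ω j X).im = (1 - 2 * j) * X.im := by simp [PP]
  have qr' : (QQ j X).re = 1 + (1 - 2 * j) * X.re := by simp [QQ]
  have qi : (QQ j X).im = (1 - 2 * j) * X.im := by simp [QQ]
  have hQ : QQ j X ∈ Complex.slitPlane := by
    rw [Complex.mem_slitPlane_iff, qr', qi]
    by_cases h : X.im = 0
    · left
      have := mul_nonneg hκ.le (hX h)
      linarith
    · exact Or.inr (mul_ne_zero hκ.ne' h)
  have hP : PP ω j X ∈ Complex.slitPlane := by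
    rw [Complex.mem_slitPlane_iff, pr, pi]
    by_cases h : X.im = 0
    · left
      have := mul_nonneg hκ.le (hX h)
      linarith
    · exact Or.inr (mul_ne_zero hκ.ne' h)
  refine ⟨hP, hQ, ?_⟩
  have hQ0 : QQ j X ≠ 0 := Complex.slitPlane_ne_zero hQ
  have hn : 0 < Complex.normSq (QQ j X) := Complex.normSq_pos.2 hQ0
  have a1 : (2 * (ω : ℂ) * PP ω j X).re = 2 * ω * (PP ω j X).re := by simp
  have a2 : (2 * (ω : ℂ) * PP ω j X).im = 2 * ω * (PP ω j X).im := by simp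
  rw [Complex.mem_slitPlane_iff]
  by_cases h : X.im = 0
  · left
    have h1 := mul_nonneg hκ.le (hX h)
    rw [Complex.div_re, a1, a2, pi, qi, h, pr, qr']
    have h2 : 0 < ω * j + (1 - 2 * j) * X.re := by linarith
    have h3 : 0 < 1 + (1 - 2 * j) * X.re := by linarith
    simp only [mul_zero, zero_div, add_zero]
    positivity
  · by_cases h1 : ω * j = 1
    · left
      have e : PP ω j X = QQ j X := by
        unfold PP QQ
        have : (ω : ℂ) * j = 1 := by exact_mod_cast h1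
        rw [this]
      rw [e, mul_div_assoc, div_self hQ0]
      simpa using hω
    · right
      rw [Complex.div_im, a1, a2, pi, qi, pr, qr', ← sub_div]
      refine div_ne_zero ?_ hn.ne'
      have e : 2 * ω * ((1 - 2 * j) * X.im) * (1 + (1 - 2 * j) * X.re) -
          2 * ω * (ω * j + (1 - 2 * j) * X.re) * ((1 - 2 * j) * X.im) =
          2 * ω * ((1 - 2 * j) * X.im) * (1 - ω * j) := by ring
      rw [e]
      exact mul_ne_zero (mul_ne_zero (by positivity) (mul_ne_zero hκ.ne' h))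
        (sub_ne_zero.2 (Ne.symm h1))

theorem disc_ex (hω : 0 < ω) (hj : 0 < j) (hj2 : j < 1 / 2) : ∃ R : ℝ, π / 2 < R ∧
    ∀ φ ∈ Metric.ball (0 : ℂ) R, PP ω j (Complex.cos φ ^ 2) ∈ Complex.slitPlane ∧
      QQ j (Complex.cos φ ^ 2) ∈ Complex.slitPlane ∧ q2 ω j φ ∈ Complex.slitPlane := by
  have cP : Continuous fun φ : ℂ => PP ω j (Complex.cos φ ^ 2) := by unfold PP; fun_prop
  have cQ : Continuous fun φ : ℂ => QQ j (Complex.cos φ ^ 2) := by unfold QQ; fun_prop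
  set U : Set ℂ := (fun φ : ℂ => PP ω j (Complex.cos φ ^ 2)) ⁻¹' Complex.slitPlane ∩
    (fun φ : ℂ => QQ j (Complex.cos φ ^ 2)) ⁻¹' Complex.slitPlane with hU
  have hUo : IsOpen U :=
    (Complex.isOpen_slitPlane.preimage cP).inter (Complex.isOpen_slitPlane.preimage cQ)
  have cq : ContinuousOn (q2 ω j) U := by
    unfold q2
    exact ContinuousOn.div (continuous_const.mul cP).continuousOn cQ.continuousOn
      fun φ hφ => Complex.slitPlane_ne_zero hφ.2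
  have hV : IsOpen (U ∩ q2 ω j ⁻¹' Complex.slitPlane) :=
    cq.isOpen_inter_preimage hUo Complex.isOpen_slitPlane
  have hsub : Metric.closedBall (0 : ℂ) (π / 2) ⊆ U ∩ q2 ω j ⁻¹' Complex.slitPlane := by
    intro φ hφ
    rw [mem_closedBall_zero_iff] at hφ
    obtain ⟨h1, h2, h3⟩ := wbr0_slit hω hj hj2 (wbr0_cos hφ)
    exact ⟨⟨h1, h2⟩, h3⟩
  obtain ⟨ε, hε, h⟩ := (isCompact_closedBall (0 : ℂ) (π / 2)).exists_thickening_subset_open hV hsub
  rw [thickening_closedBall hε (by positivity)] at h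
  exact ⟨ε + π / 2, by linarith, fun φ hφ => ⟨(h hφ).1.1, (h hφ).1.2, (h hφ).2⟩⟩

theorem pth_mem (h0 : 0 < φ1) (h1 : φ1 ≤ π / 2) {R : ℝ} (hR : π / 2 < R) {s : ℝ}
    (hs : s ∈ Icc (0 : ℝ) 1) : pth φ1 s ∈ Metric.ball (0 : ℂ) R := by
  rw [mem_ball_zero_iff]
  have e : Complex.I + (1 - Complex.I) * (s : ℂ) = ((1 - s : ℝ) : ℂ) * Complex.I + (s : ℂ) := by
    push_cast; ring
  have h2 : ‖Complex.I + (1 - Complex.I) * (s : ℂ)‖ ≤ 1 := by
    rw [e]
    refine (norm_add_le _ _).trans ?_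
    rw [norm_mul, Complex.norm_I, Complex.norm_real, Complex.norm_real, Real.norm_eq_abs,
      Real.norm_eq_abs, abs_of_nonneg hs.1, abs_of_nonneg (by linarith [hs.2])]
    linarith
  unfold pth
  rw [norm_mul, Complex.norm_real, Real.norm_eq_abs, abs_of_pos h0]
  nlinarith

theorem wbr0_sqrt {w : ℂ} (h : 0 < (Complex.sqrt w).re) : w ∈ Complex.slitPlane := by
  have e := csqrt_sq w
  generalize Complex.sqrt w = g at h e
  rw [← e, Complex.mem_slitPlane_iff, sq, Complex.mul_re, Complex.mul_im]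
  by_cases hg : g.im = 0
  · left
    rw [hg]
    nlinarith [mul_pos h h]
  · right
    have : g.re * g.im + g.im * g.re = 2 * g.re * g.im := by ring
    rw [this]
    exact mul_ne_zero (by positivity) hg

theorem gp_eq (hω : 0 < ω) (hj : 0 < j) (hj2 : j < 1 / 2) (h0 : 0 < φ1) (h1 : φ1 ≤ π / 2)
    (hg : ∀ s ∈ Icc (0 : ℝ) 1, 0 < (gp φ1 ω j s).re) :
    ∀ s ∈ Icc (0 : ℝ) 1, gp φ1 ω j s = φ1 * (1 + Complex.I) * qh ω j (pth φ1 s) := by
  obtain ⟨R, hR, hd⟩ := disc_ex hω hj hj2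
  have hd' := fun s (hs : s ∈ Icc (0 : ℝ) 1) => hd _ (pth_mem h0 h1 hR hs)
  have cp : Continuous (pth φ1) := by unfold pth; fun_prop
  have cP : Continuous fun s : ℝ => PP ω j (Complex.cos (pth φ1 s) ^ 2) := by unfold PP; fun_prop
  have cQ : Continuous fun s : ℝ => QQ j (Complex.cos (pth φ1 s) ^ 2) := by unfold QQ; fun_prop
  have cG : ContinuousOn (fun s : ℝ => Complex.I * G2 φ1 ω j s) (Icc 0 1) := by
    unfold G2 pX
    exact continuousOn_const.mul (ContinuousOn.div (continuous_const.mul cP).continuousOn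
      cQ.continuousOn fun s hs => Complex.slitPlane_ne_zero (hd' s hs).2.1)
  have cq : ContinuousOn (fun s : ℝ => q2 ω j (pth φ1 s)) (Icc 0 1) := by
    unfold q2
    exact ContinuousOn.div (continuous_const.mul cP).continuousOn
      cQ.continuousOn fun s hs => Complex.slitPlane_ne_zero (hd' s hs).2.1
  have cs := Complex.differentiableOn_sqrt.continuousOn
  have c1 : ContinuousOn (gp φ1 ω j) (Icc 0 1) :=
    cs.comp cG fun s hs => wbr0_sqrt (hg s hs)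
  have c2 : ContinuousOn (fun s : ℝ => (φ1 : ℂ) * (1 + Complex.I) * qh ω j (pth φ1 s)) (Icc 0 1) :=
    continuousOn_const.mul (cs.comp cq fun s hs => (hd' s hs).2.2)
  have hI : (1 + Complex.I) ^ 2 = 2 * Complex.I := by
    linear_combination Complex.I_sq
  have hsq : ∀ s : ℝ, gp φ1 ω j s ^ 2 =
      ((φ1 : ℂ) * (1 + Complex.I) * qh ω j (pth φ1 s)) ^ 2 := by
    intro s
    unfold gp qh
    rw [mul_pow, mul_pow, csqrt_sq, csqrt_sq, hI]
    unfold G2 q2 pX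
    ring
  have hne : ∀ {s : ℝ}, s ∈ Icc (0 : ℝ) 1 →
      (φ1 : ℂ) * (1 + Complex.I) * qh ω j (pth φ1 s) ≠ 0 := by
    intro s hs h
    have h2 := hsq s
    rw [h, zero_pow two_ne_zero, pow_eq_zero_iff two_ne_zero] at h2
    have h3 := hg s hs
    rw [h2] at h3
    simp at h3
  rcases isPreconnected_Icc.eq_or_eq_neg_of_sq_eq c1 c2 (fun s _ => hsq s) hne with h | h
  · exact fun s hs => h hs
  · exfalso
    have h2 := h (right_mem_Icc.2 zero_le_one)
    have h3 := hg 1 (right_mem_Icc.2 zero_le_one)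
    have e : pth φ1 1 = (φ1 : ℂ) := by unfold pth; simp
    obtain ⟨-, -, a1, -, -, a2, -⟩ := real_axis (φ := φ1) hω hj hj2
    rw [h2, Pi.neg_apply, e, a2] at h3
    simp at h3
    nlinarith [mul_pos h0 a1]

end Pool.Agent.HillD
end

-- part Pool.Agent.P.MP_ae2765_an.WBr0d
section

/-! Real parameters: the disc, the root along the path, and the primitive. -/

namespace Pool.Agent.HillD
open Real Set Filter Topology Asymptotics

variable {ω j φ1 : ℝ}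

theorem wbr0d_alg {w k P Q c s : ℂ} (hw : w ≠ 0) (hP : P ≠ 0) (hQ : Q ≠ 0)
    (hs : s ^ 2 + c ^ 2 = 1) :
    ((k * -s * s + k * c * c) * (2 * P) - k * c * s * (2 * -(2 * k * c * s))) / (2 * P) ^ 2 =
      k * (5 * k * Q * c ^ 2 * (1 - c ^ 2) -
        2 * P * (Q * (1 - 2 * c ^ 2) + k * c ^ 2 * (1 - c ^ 2))) / (8 * w * P ^ 3) *
        (2 * w * P / Q) - (k * c * s / (2 * P)) ^ 2 - -(k * c * s) / Q * (k * c * s / (2 * P)) := by
  have e : s ^ 2 = 1 - c ^ 2 := by linear_combination hs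
  have e1 : ((k * -s * s + k * c * c) * (2 * P) - k * c * s * (2 * -(2 * k * c * s))) =
      k * (2 * c ^ 2 - 1) * (2 * P) + 4 * k ^ 2 * c ^ 2 * (1 - c ^ 2) := by
    linear_combination (-(2 * k * P) + 4 * k ^ 2 * c ^ 2) * e
  have e2 : (k * c * s / (2 * P)) ^ 2 = k ^ 2 * c ^ 2 * (1 - c ^ 2) / (2 * P) ^ 2 := by
    rw [div_pow, mul_pow, mul_pow, e]
  have e3 : -(k * c * s) / Q * (k * c * s / (2 * P)) =
      -(k ^ 2 * c ^ 2 * (1 - c ^ 2)) / (Q * (2 * P)) := by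
    rw [div_mul_div_comm, ← e]
    congr 1
    ring
  rw [e1, e2, e3]
  field_simp
  ring

/-- derivatives of `qh` and `eh`; `L = Q' / (2 Q)` -/
theorem qh_eh_deriv {φ : ℂ} (hω : 0 < ω)
    (hP : PP ω j (Complex.cos φ ^ 2) ≠ 0) (hQ : QQ j (Complex.cos φ ^ 2) ≠ 0)
    (hq : q2 ω j φ ∈ Complex.slitPlane) (L : ℂ)
    (hL : L = -((1 - 2 * j) * Complex.cos φ * Complex.sin φ) / QQ j (Complex.cos φ ^ 2)) :
    HasDerivAt (qh ω j) (-(2 * eh ω j φ + L) * qh ω j φ) φ ∧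
    HasDerivAt (eh ω j)
      (psi ω j (Complex.cos φ ^ 2) * q2 ω j φ - eh ω j φ ^ 2 - L * eh ω j φ) φ := by
  have hw : (ω : ℂ) ≠ 0 := by exact_mod_cast hω.ne'
  have dX : HasDerivAt (fun x : ℂ => (1 - 2 * (j : ℂ)) * Complex.cos x ^ 2)
      (-(2 * (1 - 2 * (j : ℂ)) * Complex.cos φ * Complex.sin φ)) φ := by
    refine (((Complex.hasDerivAt_cos φ).fun_pow 2).const_mul (1 - 2 * (j : ℂ))).congr_deriv ?_
    simp only [Nat.cast_ofNat, Nat.add_one_sub_one, pow_one]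
    ring
  have dP : HasDerivAt (fun x : ℂ => PP ω j (Complex.cos x ^ 2))
      (-(2 * (1 - 2 * (j : ℂ)) * Complex.cos φ * Complex.sin φ)) φ := dX.const_add _
  have dQ : HasDerivAt (fun x : ℂ => QQ j (Complex.cos x ^ 2))
      (-(2 * (1 - 2 * (j : ℂ)) * Complex.cos φ * Complex.sin φ)) φ := dX.const_add _
  have q0 : q2 ω j φ ≠ 0 := Complex.slitPlane_ne_zero hq
  constructor
  · have d2 : HasDerivAt (q2 ω j) (-(2 * (2 * eh ω j φ + L)) * q2 ω j φ) φ := by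
      refine ((dP.const_mul (2 * (ω : ℂ))).fun_div dQ hQ).congr_deriv ?_
      rw [hL]
      unfold eh q2
      generalize PP ω j (Complex.cos φ ^ 2) = P at hP ⊢
      generalize QQ j (Complex.cos φ ^ 2) = Q at hQ ⊢
      field_simp
      ring
    have d3 := d2.cpow_const (c := (2⁻¹ : ℂ)) hq
    refine d3.congr_deriv ?_
    unfold qh Complex.sqrt
    rw [Complex.cpow_sub _ _ q0, Complex.cpow_one]
    field_simp
  · have dn : HasDerivAt (fun x : ℂ => (1 - 2 * (j : ℂ)) * Complex.cos x * Complex.sin x)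
        ((1 - 2 * (j : ℂ)) * -Complex.sin φ * Complex.sin φ +
          (1 - 2 * (j : ℂ)) * Complex.cos φ * Complex.cos φ) φ :=
      ((Complex.hasDerivAt_cos φ).const_mul _).fun_mul (Complex.hasDerivAt_sin φ)
    refine (dn.fun_div (dP.const_mul 2) (mul_ne_zero two_ne_zero hP)).congr_deriv ?_
    rw [hL]
    exact wbr0d_alg hw hP hQ (Complex.sin_sq_add_cos_sq φ)

end Pool.Agent.HillD
end

-- part Pool.Agent.P.MP_ae2765_an.WBr1
section

/-! Real parameters: the disc, the root along the path, and the primitive. -/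

namespace Pool.Agent.HillD
open Real Set Filter Topology Asymptotics

variable {ω j φ1 : ℝ}

/-- on the imaginary axis the integrand is purely imaginary -/
theorem wbr1_imag (hω : 0 < ω) (hj : 0 < j) (hj2 : j < 1 / 2) (y : ℝ) :
    (Complex.I * qh ω j (Complex.I * y) * (1 + psi ω j (Complex.cos (Complex.I * y) ^ 2) / 2) +
      eh ω j (Complex.I * y)).re = 0 := by
  have hc : Complex.cos (Complex.I * y) = ((cosh y : ℝ) : ℂ) := by
    rw [mul_comm, Complex.cos_mul_I, Complex.ofReal_cosh]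
  have hs : Complex.sin (Complex.I * y) = ((sinh y : ℝ) : ℂ) * Complex.I := by
    rw [mul_comm, Complex.sin_mul_I, Complex.ofReal_sinh]
  generalize cosh y = c at hc
  generalize sinh y = s at hs
  have hk : 0 < 1 - 2 * j := by linarith
  have hP : 0 < ω * j + (1 - 2 * j) * c ^ 2 := by positivity
  have hQ : 0 < 1 + (1 - 2 * j) * c ^ 2 := by positivity
  have hr : 0 ≤ 2 * ω * (ω * j + (1 - 2 * j) * c ^ 2) / (1 + (1 - 2 * j) * c ^ 2) := by positivity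
  have h2 : q2 ω j (Complex.I * y) =
      ((2 * ω * (ω * j + (1 - 2 * j) * c ^ 2) / (1 + (1 - 2 * j) * c ^ 2) : ℝ) : ℂ) := by
    unfold q2 PP QQ
    rw [hc]
    push_cast
    ring
  have hq : qh ω j (Complex.I * y) =
      ((√(2 * ω * (ω * j + (1 - 2 * j) * c ^ 2) / (1 + (1 - 2 * j) * c ^ 2)) : ℝ) : ℂ) := by
    unfold qh
    rw [h2, Complex.sqrt_of_nonneg (Complex.zero_le_real.mpr hr), Complex.ofReal_re]
  have hψ : psi ω j (Complex.cos (Complex.I * y) ^ 2) =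
      (((1 - 2 * j) * (5 * (1 - 2 * j) * (1 + (1 - 2 * j) * c ^ 2) * c ^ 2 * (1 - c ^ 2) -
        2 * (ω * j + (1 - 2 * j) * c ^ 2) * ((1 + (1 - 2 * j) * c ^ 2) * (1 - 2 * c ^ 2) +
          (1 - 2 * j) * c ^ 2 * (1 - c ^ 2))) /
        (8 * ω * (ω * j + (1 - 2 * j) * c ^ 2) ^ 3) : ℝ) : ℂ) := by
    unfold psi PP QQ
    rw [hc]
    push_cast
    ring
  have he : eh ω j (Complex.I * y) =
      (((1 - 2 * j) * c * s / (2 * (ω * j + (1 - 2 * j) * c ^ 2)) : ℝ) : ℂ) * Complex.I := by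
    unfold eh PP
    rw [hc, hs]
    push_cast
    ring
  rw [hq, hψ, he]
  generalize √(2 * ω * (ω * j + (1 - 2 * j) * c ^ 2) / (1 + (1 - 2 * j) * c ^ 2)) = a
  generalize (1 - 2 * j) * (5 * (1 - 2 * j) * (1 + (1 - 2 * j) * c ^ 2) * c ^ 2 * (1 - c ^ 2) -
        2 * (ω * j + (1 - 2 * j) * c ^ 2) * ((1 + (1 - 2 * j) * c ^ 2) * (1 - 2 * c ^ 2) +
          (1 - 2 * j) * c ^ 2 * (1 - c ^ 2))) /
        (8 * ω * (ω * j + (1 - 2 * j) * c ^ 2) ^ 3) = b
  generalize (1 - 2 * j) * c * s / (2 * (ω * j + (1 - 2 * j) * c ^ 2)) = d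
  have : Complex.I * (a : ℂ) * (1 + (b : ℂ) / 2) + (d : ℂ) * Complex.I =
      ((a * (1 + b / 2) + d : ℝ) : ℂ) * Complex.I := by
    push_cast
    ring
  rw [this, Complex.mul_I_re, Complex.ofReal_im, neg_zero]

theorem wbr1_er_cont (hω : 0 < ω) (hj : 0 < j) (hj2 : j < 1 / 2) : Continuous (er ω j) := by
  unfold er
  refine Continuous.div (by fun_prop) (by unfold Pr; fun_prop) fun φ => ?_
  exact mul_ne_zero two_ne_zero (real_axis (φ := φ) hω hj hj2).1.ne'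

/-- the derivative of the corrected primitive -/
theorem wbr1_corr {φ : ℂ} (hω : 0 < ω) {H : ℂ → ℂ}
    (hP : PP ω j (Complex.cos φ ^ 2) ≠ 0) (hQ : QQ j (Complex.cos φ ^ 2) ≠ 0)
    (hq : q2 ω j φ ∈ Complex.slitPlane)
    (hH : HasDerivAt H
      (Complex.I * qh ω j φ * (1 + psi ω j (Complex.cos φ ^ 2) / 2) + eh ω j φ) φ) :
    HasDerivAt (fun z => H z - Complex.I * (eh ω j z / (2 * qh ω j z)))
      (Complex.I * (qh ω j φ - eh ω j φ ^ 2 / (2 * qh ω j φ)) + eh ω j φ) φ := by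
  obtain ⟨hq', he'⟩ := qh_eh_deriv hω hP hQ hq _ rfl
  have hsq : qh ω j φ ^ 2 = q2 ω j φ := csqrt_sq _
  have hne : qh ω j φ ≠ 0 := by
    intro h
    rw [h] at hsq
    exact Complex.slitPlane_ne_zero hq (by rw [← hsq]; ring)
  have h := hH.sub ((he'.div (hq'.const_mul 2) (mul_ne_zero two_ne_zero hne)).const_mul Complex.I)
  refine h.congr_deriv ?_
  rw [← hsq]
  generalize -((1 - 2 * (j : ℂ)) * Complex.cos φ * Complex.sin φ) /
    QQ j (Complex.cos φ ^ 2) = L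
  generalize psi ω j (Complex.cos φ ^ 2) = p
  generalize eh ω j φ = e
  generalize qh ω j φ = q at hne
  field_simp
  ring

theorem prim (hω : 0 < ω) (hj : 0 < j) (hj2 : j < 1 / 2) (h0 : 0 < φ1) (h1 : φ1 ≤ π / 2)
    {R : ℝ} (hR : π / 2 < R)
    (hd : ∀ φ ∈ Metric.ball (0 : ℂ) R, PP ω j (Complex.cos φ ^ 2) ∈ Complex.slitPlane ∧
      QQ j (Complex.cos φ ^ 2) ∈ Complex.slitPlane ∧ q2 ω j φ ∈ Complex.slitPlane) :
    ∃ H : ℂ → ℂ, H (Complex.I * φ1) = 0 ∧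
      (∀ φ ∈ Metric.ball (0 : ℂ) R, HasDerivAt H
        (Complex.I * qh ω j φ * (1 + psi ω j (Complex.cos φ ^ 2) / 2) + eh ω j φ) φ) ∧
      (H φ1).im = Mn φ1 ω j + er ω j φ1 / (2 * qr ω j φ1) + (Tt φ1 ω j).re := by
  have hωc : (ω : ℂ) ≠ 0 := Complex.ofReal_ne_zero.mpr hω.ne'
  have hdiff : DifferentiableOn ℂ (fun φ : ℂ =>
      Complex.I * qh ω j φ * (1 + psi ω j (Complex.cos φ ^ 2) / 2) + eh ω j φ)
      (Metric.ball (0 : ℂ) R) := by
    intro φ hφ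
    obtain ⟨hP, hQ, hq⟩ := hd φ hφ
    have hP0 := Complex.slitPlane_ne_zero hP
    have hQ0 := Complex.slitPlane_ne_zero hQ
    obtain ⟨hq', he'⟩ := qh_eh_deriv hω hP0 hQ0 hq _ rfl
    have hψ : DifferentiableAt ℂ (fun z : ℂ => psi ω j (Complex.cos z ^ 2)) φ := by
      unfold psi
      refine DifferentiableAt.div (by unfold PP QQ; fun_prop) (by unfold PP; fun_prop) ?_
      exact mul_ne_zero (mul_ne_zero (by norm_num) hωc) (pow_ne_zero _ hP0)
    exact (((hq'.differentiableAt.const_mul _).mul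
      ((hψ.div_const 2).const_add 1)).add he'.differentiableAt).differentiableWithinAt
  obtain ⟨H, hH0, hH⟩ := hdiff.isExactOn_ball.with_val_at (Complex.I * φ1) 0
  refine ⟨H, hH0, hH, ?_⟩
  have hmem : ∀ t ∈ uIcc (0 : ℝ) φ1, |t| < R := by
    intro t ht
    rw [uIcc_of_le h0.le] at ht
    rw [abs_of_nonneg ht.1]
    linarith [ht.2]
  -- the imaginary axis
  have hA : (H 0).im = 0 := by
    have hder : ∀ t ∈ uIcc (0 : ℝ) φ1,
        HasDerivAt (fun y : ℝ => (H (Complex.I * y)).im) ((fun _ => 0) t) t := by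
      intro t ht
      have hb : Complex.I * (t : ℂ) ∈ Metric.ball (0 : ℂ) R := by
        simpa using hmem t ht
      have h2 : HasDerivAt (fun z : ℂ => Complex.I * z) Complex.I (t : ℂ) := by
        simpa using (hasDerivAt_id (t : ℂ)).const_mul Complex.I
      have h3 := ((hH _ hb).comp (t : ℂ) h2).comp_ofReal
      have h4 := Complex.imCLM.hasFDerivAt.comp_hasDerivAt t h3
      refine h4.congr_deriv ?_
      rw [Complex.imCLM_apply, Complex.mul_I_im]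
      exact wbr1_imag hω hj hj2 t
    have h5 := intervalIntegral.integral_eq_sub_of_hasDerivAt hder
      (continuous_const.intervalIntegrable _ _)
    simp only [intervalIntegral.integral_zero, hH0, Complex.ofReal_zero, mul_zero,
      Complex.zero_im] at h5
    linarith
  -- the real axis
  have hqc := (qr_cont hω hj hj2).1
  have hec := wbr1_er_cont hω hj hj2
  have hfc : Continuous fun t => er ω j t ^ 2 / (2 * qr ω j t) :=
    (hec.pow 2).div (continuous_const.mul hqc) fun t =>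
      mul_ne_zero two_ne_zero (real_axis (φ := t) hω hj hj2).2.2.1.ne'
  have hder : ∀ t ∈ uIcc (0 : ℝ) φ1,
      HasDerivAt (fun y : ℝ => (H y).im - er ω j y / (2 * qr ω j y))
        (qr ω j t - er ω j t ^ 2 / (2 * qr ω j t)) t := by
    intro t ht
    have hb : (t : ℂ) ∈ Metric.ball (0 : ℂ) R := by
      simpa using hmem t ht
    obtain ⟨hP, hQ, hq⟩ := hd _ hb
    have h3 := (wbr1_corr hω (Complex.slitPlane_ne_zero hP) (Complex.slitPlane_ne_zero hQ) hq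
      (hH _ hb)).comp_ofReal
    have h4 := Complex.imCLM.hasFDerivAt.comp_hasDerivAt t h3
    have hfun : (fun y : ℝ => (H y).im - er ω j y / (2 * qr ω j y)) =
        Complex.imCLM ∘ fun y : ℝ => H y - Complex.I * (eh ω j y / (2 * qh ω j y)) := by
      funext y
      obtain ⟨-, -, -, -, -, hqy, hey⟩ := real_axis (φ := y) hω hj hj2
      have : eh ω j y / (2 * qh ω j y) = ((er ω j y / (2 * qr ω j y) : ℝ) : ℂ) := by
        rw [hqy, hey]
        push_cast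
        ring
      simp only [Function.comp, Complex.imCLM_apply, Complex.sub_im, this, Complex.I_mul_im,
        Complex.ofReal_re]
    rw [hfun]
    refine h4.congr_deriv ?_
    obtain ⟨-, -, -, -, -, hqy, hey⟩ := real_axis (φ := t) hω hj hj2
    have : qh ω j t - eh ω j t ^ 2 / (2 * qh ω j t) =
        ((qr ω j t - er ω j t ^ 2 / (2 * qr ω j t) : ℝ) : ℂ) := by
      rw [hqy, hey]
      push_cast
      ring
    rw [this, hey, Complex.imCLM_apply, Complex.add_im, Complex.I_mul_im, Complex.ofReal_re,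
      Complex.ofReal_im, add_zero]
  have h5 := intervalIntegral.integral_eq_sub_of_hasDerivAt hder
    ((hqc.sub hfc).intervalIntegrable _ _)
  rw [intervalIntegral.integral_sub (hqc.intervalIntegrable _ _) (hfc.intervalIntegrable _ _)]
    at h5
  have hT : (Tt φ1 ω j).re = -∫ t in (0 : ℝ)..φ1, er ω j t ^ 2 / (2 * qr ω j t) := by
    unfold Tt
    have : (fun t : ℝ => eh ω j t ^ 2 / (2 * qh ω j t)) =
        fun t : ℝ => ((er ω j t ^ 2 / (2 * qr ω j t) : ℝ) : ℂ) := by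
      funext t
      obtain ⟨-, -, -, -, -, hqy, hey⟩ := real_axis (φ := t) hω hj hj2
      rw [hqy, hey]
      push_cast
      ring
    rw [this, intervalIntegral.integral_ofReal, Complex.neg_re, Complex.ofReal_re]
  have he0 : er ω j 0 = 0 := by simp [er]
  rw [hT]
  unfold Mn
  simp only [Complex.ofReal_zero, hA, he0, zero_div, sub_zero] at h5
  linarith

end Pool.Agent.HillD
end

-- part Pool.Agent.P.MP_ae2765_an.WHol
section

/-! Holomorphic dependence on a parameter. -/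

namespace Pool.Agent.HillD
open Real Set Filter Topology Asymptotics

theorem whol_meas {U : Set ℂ} {F : ℂ → ℝ → ℂ} {a b : ℝ} (hab : a ≤ b)
    (hc : ContinuousOn (fun p : ℂ × ℝ => F p.1 p.2) (U ×ˢ Icc a b)) {x : ℂ} (hx : x ∈ U) :
    ContinuousOn (F x) (uIcc a b) := by
  rw [uIcc_of_le hab]
  exact hc.comp (f := fun s : ℝ => ((x, s) : ℂ × ℝ)) (by fun_prop) (fun s hs => ⟨hx, hs⟩)

/-- parametric integrals -/
theorem hol_int {U : Set ℂ} (hU : IsOpen U) {F : ℂ → ℝ → ℂ} {a b : ℝ} (hab : a ≤ b)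
    (hc : ContinuousOn (fun p : ℂ × ℝ => F p.1 p.2) (U ×ˢ Icc a b))
    (hd : ∀ s ∈ Icc a b, DifferentiableOn ℂ (fun τ => F τ s) U) :
    DifferentiableOn ℂ (fun τ => ∫ s in a..b, F τ s) U := by
  intro τ hτ
  obtain ⟨R, hR, hRU⟩ := Metric.nhds_basis_closedBall.mem_iff.1 (hU.mem_nhds hτ)
  have hK : IsCompact (Metric.closedBall τ R ×ˢ Icc a b) :=
    (isCompact_closedBall τ R).prod isCompact_Icc
  obtain ⟨C, hC⟩ := hK.exists_bound_of_continuousOn (hc.mono (prod_mono hRU subset_rfl))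
  have hI : ∀ t ∈ uIoc a b, t ∈ Icc a b := fun t ht => by
    rw [uIoc_of_le hab] at ht
    exact Ioc_subset_Icc_self ht
  have hm : ∀ x ∈ U, MeasureTheory.AEStronglyMeasurable (F x)
      (MeasureTheory.volume.restrict (uIoc a b)) := fun x hx =>
    ((whol_meas hab hc hx).mono uIoc_subset_uIcc).aestronglyMeasurable measurableSet_uIoc
  have hb : ∀ x ∈ Metric.ball τ (R / 2), Metric.closedBall x (R / 2) ⊆ Metric.closedBall τ R :=
    fun x hx => Metric.closedBall_subset_closedBall' (by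
      have := Metric.mem_ball.1 hx
      linarith)
  have hbU : ∀ x ∈ Metric.ball τ (R / 2), x ∈ U := fun x hx =>
    hRU (hb x hx (Metric.mem_closedBall_self (by linarith)))
  have hder : ∀ t ∈ uIoc a b, ∀ x ∈ U,
      HasDerivAt (fun x => F x t) (deriv (fun x => F x t) x) x := fun t ht x hx =>
    ((hd t (hI t ht)).differentiableAt (hU.mem_nhds hx)).hasDerivAt
  refine (intervalIntegral.hasDerivAt_integral_of_dominated_loc_of_deriv_le
    (μ := MeasureTheory.volume) (F' := fun x t => deriv (fun x => F x t) x)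
    (bound := fun _ => C / (R / 2)) (Metric.ball_mem_nhds τ (half_pos hR))
    (Filter.eventually_of_mem (hU.mem_nhds hτ) hm) (whol_meas hab hc hτ).intervalIntegrable ?_
    (Filter.Eventually.of_forall fun t ht x hx => ?_) intervalIntegrable_const
    (Filter.Eventually.of_forall fun t ht x hx => hder t ht x (hbU x hx))).2.differentiableAt
      |>.differentiableWithinAt
  · have hu : Tendsto (fun n : ℕ => ((R / ((n : ℝ) + 1) : ℝ) : ℂ)) atTop (𝓝[≠] 0) := by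
      refine tendsto_nhdsWithin_iff.2 ⟨?_, Filter.Eventually.of_forall fun n => ?_⟩
      · have h1 : Tendsto (fun n : ℕ => R / ((n : ℝ) + 1)) atTop (𝓝 0) :=
          tendsto_const_nhds.div_atTop
            (tendsto_atTop_add_const_right _ _ tendsto_natCast_atTop_atTop)
        have h2 := (Complex.continuous_ofReal.tendsto 0).comp h1
        rw [Complex.ofReal_zero] at h2
        exact h2
      · have : R / ((n : ℝ) + 1) ≠ 0 := by positivity
        exact mem_compl_singleton_iff.2 (Complex.ofReal_ne_zero.2 this)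
    refine aestronglyMeasurable_of_tendsto_ae atTop
      (f := fun (n : ℕ) t => (((R / ((n : ℝ) + 1) : ℝ) : ℂ))⁻¹ •
        (F (τ + ((R / ((n : ℝ) + 1) : ℝ) : ℂ)) t - F τ t)) (fun n => ?_) ?_
    · refine ((hm _ (hRU ?_)).sub (hm τ hτ)).const_smul (((R / ((n : ℝ) + 1) : ℝ) : ℂ))⁻¹
      rw [Metric.mem_closedBall, dist_eq_norm, add_sub_cancel_left, Complex.norm_real,
        Real.norm_eq_abs, abs_of_pos (by positivity)]
      exact div_le_self hR.le (by linarith [Nat.cast_nonneg (α := ℝ) n])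
    · rw [MeasureTheory.ae_restrict_iff' measurableSet_uIoc]
      exact Filter.Eventually.of_forall fun t ht =>
        (hder t ht τ hτ).tendsto_slope_zero.comp hu
  · refine Complex.norm_deriv_le_of_forall_mem_sphere_norm_le (half_pos hR) ?_ fun z hz => ?_
    · refine DifferentiableOn.diffContOnCl ((hd t (hI t ht)).mono ?_)
      exact Metric.closure_ball_subset_closedBall.trans ((hb x hx).trans hRU)
    · exact hC (z, t) ⟨hb x hx (Metric.sphere_subset_closedBall hz), hI t ht⟩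

/-- uniqueness for linear systems on `[0, 1]` -/
theorem ode_uniq {a11 a12 a21 a22 x y x' y' : ℝ → ℂ} (c11 : ContinuousOn a11 (Icc 0 1))
    (c12 : ContinuousOn a12 (Icc 0 1)) (c21 : ContinuousOn a21 (Icc 0 1))
    (c22 : ContinuousOn a22 (Icc 0 1))
    (h : ∀ s ∈ Icc (0 : ℝ) 1, HasDerivWithinAt x (a11 s * x s + a12 s * y s) (Icc 0 1) s ∧
      HasDerivWithinAt y (a21 s * x s + a22 s * y s) (Icc 0 1) s)
    (h' : ∀ s ∈ Icc (0 : ℝ) 1, HasDerivWithinAt x' (a11 s * x' s + a12 s * y' s) (Icc 0 1) s ∧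
      HasDerivWithinAt y' (a21 s * x' s + a22 s * y' s) (Icc 0 1) s)
    (e1 : x 0 = x' 0) (e2 : y 0 = y' 0) : ∀ s ∈ Icc (0 : ℝ) 1, x s = x' s ∧ y s = y' s := by
  obtain ⟨K1, k1⟩ := isCompact_Icc.exists_bound_of_continuousOn c11
  obtain ⟨K2, k2⟩ := isCompact_Icc.exists_bound_of_continuousOn c12
  obtain ⟨K3, k3⟩ := isCompact_Icc.exists_bound_of_continuousOn c21
  obtain ⟨K4, k4⟩ := isCompact_Icc.exists_bound_of_continuousOn c22
  have hD : ∀ s ∈ Icc (0 : ℝ) 1, HasDerivWithinAt (fun s => ((x s - x' s, y s - y' s) : ℂ × ℂ))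
      (a11 s * (x s - x' s) + a12 s * (y s - y' s),
        a21 s * (x s - x' s) + a22 s * (y s - y' s)) (Icc 0 1) s := fun s hs => by
    refine HasDerivWithinAt.prodMk ?_ ?_
    · convert (h s hs).1.fun_sub (h' s hs).1 using 1
      ring
    · convert (h s hs).2.fun_sub (h' s hs).2 using 1
      ring
  have key := eq_zero_of_abs_deriv_le_mul_abs_self_of_eq_zero_right (K := K1 + K2 + K3 + K4)
    (fun s hs => (hD s hs).continuousWithinAt)
    (fun s hs => (hD s (Ico_subset_Icc_self hs)).mono_of_mem_nhdsWithin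
      (Icc_mem_nhdsGE_of_mem hs))
    (by rw [e1, e2, sub_self, sub_self]; rfl) (fun s hs => by
      have hs' := Ico_subset_Icc_self hs
      generalize x s - x' s = u
      generalize y s - y' s = v
      have hu : ‖u‖ ≤ ‖((u, v) : ℂ × ℂ)‖ := norm_fst_le ((u, v) : ℂ × ℂ)
      have hv : ‖v‖ ≤ ‖((u, v) : ℂ × ℂ)‖ := norm_snd_le ((u, v) : ℂ × ℂ)
      have hN : 0 ≤ ‖((u, v) : ℂ × ℂ)‖ := norm_nonneg _
      generalize ‖((u, v) : ℂ × ℂ)‖ = N at hu hv hN ⊢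
      have g : ∀ (c w : ℂ) (K : ℝ), ‖c‖ ≤ K → ‖w‖ ≤ N → ‖c * w‖ ≤ K * N := fun c w K hc hw => by
        rw [norm_mul]
        exact mul_le_mul hc hw (norm_nonneg _) ((norm_nonneg _).trans hc)
      have p1 := mul_nonneg ((norm_nonneg _).trans (k1 s hs')) hN
      have p2 := mul_nonneg ((norm_nonneg _).trans (k2 s hs')) hN
      have p3 := mul_nonneg ((norm_nonneg _).trans (k3 s hs')) hN
      have p4 := mul_nonneg ((norm_nonneg _).trans (k4 s hs')) hN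
      rw [Prod.norm_mk]
      refine max_le ((norm_add_le _ _).trans ?_) ((norm_add_le _ _).trans ?_)
      · have := g _ _ _ (k1 s hs') hu
        have := g _ _ _ (k2 s hs') hv
        linarith
      · have := g _ _ _ (k3 s hs') hu
        have := g _ _ _ (k4 s hs') hv
        linarith)
  intro s hs
  have := Prod.mk_eq_zero.1 (key s hs)
  exact ⟨sub_eq_zero.1 this.1, sub_eq_zero.1 this.2⟩

end Pool.Agent.HillD
end

-- part Pool.Agent.P.MP_ae2765_an.WSol0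
section

/-! Holomorphic solutions of a linear system on a disc. -/

namespace Pool.Agent.HillD
open Real Set Filter Topology Asymptotics

theorem wsol0_path (t s : ℝ) :
    HasDerivAt (fun s : ℝ => Complex.I * ((t * (1 - s) : ℝ) : ℂ)) (-(Complex.I * t)) s := by
  have h1 : HasDerivAt (fun s : ℝ => t * (1 - s)) (-t) s := by
    simpa using ((hasDerivAt_id s).const_sub 1).const_mul t
  have h2 := h1.ofReal_comp.const_mul Complex.I
  rwa [Complex.ofReal_neg, mul_neg] at h2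

/-- reality on the imaginary axis -/
theorem imag_axis {R t : ℝ} {f1 f2 u y : ℂ → ℂ} (ht : 0 ≤ t) (htR : t < R)
    (h1 : DifferentiableOn ℂ f1 (Metric.ball 0 R)) (h2 : DifferentiableOn ℂ f2 (Metric.ball 0 R))
    (h : ∀ z ∈ Metric.ball (0 : ℂ) R,
      HasDerivAt u (f1 z * y z) z ∧ HasDerivAt y (f2 z * u z) z)
    (r1 : ∀ s ∈ Icc (0 : ℝ) t, (f1 (Complex.I * s)).im = 0)
    (r2 : ∀ s ∈ Icc (0 : ℝ) t, (f2 (Complex.I * s)).im = 0)
    (hu : (u (Complex.I * t)).im = 0) (hy : (y (Complex.I * t)).re = 0) :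
    (u 0).im = 0 ∧ (y 0).re = 0 := by
  obtain ⟨z, hz⟩ : ∃ z : ℝ → ℂ, z = fun s : ℝ => Complex.I * ((t * (1 - s) : ℝ) : ℂ) := ⟨_, rfl⟩
  have hd : ∀ s, HasDerivAt z (-(Complex.I * t)) s := fun s => hz ▸ wsol0_path t s
  have hI : ∀ s ∈ Icc (0 : ℝ) 1, t * (1 - s) ∈ Icc (0 : ℝ) t := fun s hs =>
    ⟨mul_nonneg ht (by linarith [hs.2]), by nlinarith [hs.1]⟩
  have hm : ∀ s ∈ Icc (0 : ℝ) 1, z s ∈ Metric.ball (0 : ℂ) R := by
    intro s hs
    rw [hz, mem_ball_zero_iff, norm_mul, Complex.norm_I, one_mul, Complex.norm_real,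
      Real.norm_of_nonneg (hI s hs).1]
    exact (hI s hs).2.trans_lt htR
  have hc : ContinuousOn z (Icc 0 1) := fun s _ => (hd s).continuousAt.continuousWithinAt
  have c1 : ContinuousOn (fun s => f1 (z s) * -(Complex.I * t)) (Icc 0 1) :=
    (h1.continuousOn.comp hc hm).mul continuousOn_const
  have c2 : ContinuousOn (fun s => f2 (z s) * -(Complex.I * t)) (Icc 0 1) :=
    (h2.continuousOn.comp hc hm).mul continuousOn_const
  have d1 : ∀ s ∈ Icc (0 : ℝ) 1,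
      HasDerivAt (fun s => u (z s)) (f1 (z s) * y (z s) * -(Complex.I * t)) s := fun s hs =>
    ((h _ (hm s hs)).1.hasFDerivAt.restrictScalars ℝ).comp_hasDerivAt s (hd s) |>.congr_deriv (by
      simp [mul_comm])
  have d2 : ∀ s ∈ Icc (0 : ℝ) 1,
      HasDerivAt (fun s => y (z s)) (f2 (z s) * u (z s) * -(Complex.I * t)) s := fun s hs =>
    ((h _ (hm s hs)).2.hasFDerivAt.restrictScalars ℝ).comp_hasDerivAt s (hd s) |>.congr_deriv (by
      simp [mul_comm])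
  have e1 : ∀ s ∈ Icc (0 : ℝ) 1, star (f1 (z s)) = f1 (z s) := fun s hs =>
    Complex.conj_eq_iff_im.2 (by rw [hz]; exact r1 _ (hI s hs))
  have e2 : ∀ s ∈ Icc (0 : ℝ) 1, star (f2 (z s)) = f2 (z s) := fun s hs =>
    Complex.conj_eq_iff_im.2 (by rw [hz]; exact r2 _ (hI s hs))
  have e3 : star (-(Complex.I * t) : ℂ) = Complex.I * t := by simp
  have z0 : z 0 = Complex.I * t := by simp [hz]
  have z1 : z 1 = 0 := by simp [hz]
  have key := ode_uniq (a11 := fun _ => 0) (a22 := fun _ => 0)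
    (x := fun s => u (z s)) (y := fun s => y (z s))
    (x' := fun s => star (u (z s))) (y' := fun s => -star (y (z s)))
    continuousOn_const c1 c2 continuousOn_const
    (fun s hs => ⟨((d1 s hs).congr_deriv (by ring)).hasDerivWithinAt,
      ((d2 s hs).congr_deriv (by ring)).hasDerivWithinAt⟩)
    (fun s hs => ⟨((d1 s hs).star.congr_deriv (by
        rw [star_mul', star_mul', e1 s hs, e3]; ring)).hasDerivWithinAt,
      ((d2 s hs).star.neg.congr_deriv (by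
        rw [star_mul', star_mul', e2 s hs, e3]; ring)).hasDerivWithinAt⟩)
    (by rw [z0]; exact (Complex.conj_eq_iff_im.2 hu).symm)
    (by
      rw [z0]
      apply Complex.ext <;> simp [hy]) 1 ⟨zero_le_one, le_rfl⟩
  rw [z1] at key
  refine ⟨Complex.conj_eq_iff_im.1 key.1.symm, ?_⟩
  have := congrArg Complex.re key.2
  simp at this
  linarith

end Pool.Agent.HillD
end

-- part Pool.Agent.P.MP_ae2765_an.WHol2
section

/-! Linear systems on `[0, 1]` depending holomorphically on a parameter. -/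

namespace Pool.Agent.HillD
open Real Set Filter Topology Asymptotics

/-- Picard terms. -/
noncomputable def whol2_v (a11 a12 a21 a22 : ℂ → ℝ → ℂ) (x0 y0 : ℂ) : ℕ → ℂ → ℝ → ℂ × ℂ
  | 0 => fun _ _ => (x0, y0)
  | n + 1 => fun τ s =>
      (∫ u in (0 : ℝ)..s, (a11 τ u * (whol2_v a11 a12 a21 a22 x0 y0 n τ u).1 +
          a12 τ u * (whol2_v a11 a12 a21 a22 x0 y0 n τ u).2),
        ∫ u in (0 : ℝ)..s, (a21 τ u * (whol2_v a11 a12 a21 a22 x0 y0 n τ u).1 +
          a22 τ u * (whol2_v a11 a12 a21 a22 x0 y0 n τ u).2))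

theorem whol2_int_cont {U : Set ℂ} {F : ℂ → ℝ → ℂ}
    (hF : Continuous fun p : U × ℝ => F p.1 p.2) :
    Continuous fun p : U × ℝ => ∫ u in (0 : ℝ)..p.2, F p.1 u := by
  have h1 : Continuous (Function.uncurry fun (p : U × ℝ) (u : ℝ) => F p.1 u) :=
    hF.comp (f := fun q : (U × ℝ) × ℝ => (q.1.1, q.2)) (by fun_prop)
  exact intervalIntegral.continuous_parametric_intervalIntegral_of_continuous h1 continuous_snd

theorem whol2_on {U : Set ℂ} {E : Type} [TopologicalSpace E] {F : ℂ → ℝ → E}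
    (hF : Continuous fun p : U × ℝ => F p.1 p.2) (T : Set ℝ) :
    ContinuousOn (fun p : ℂ × ℝ => F p.1 p.2) (U ×ˢ T) := by
  rw [continuousOn_iff_continuous_domRestrict]
  exact hF.comp (f := fun q : (U ×ˢ T : Set (ℂ × ℝ)) => ((⟨q.1.1, q.2.1⟩ : U), q.1.2))
    (by fun_prop)

theorem whol2_sec {U : Set ℂ} {E : Type} [TopologicalSpace E] {F : ℂ → ℝ → E}
    (hF : Continuous fun p : U × ℝ => F p.1 p.2) {τ : ℂ} (hτ : τ ∈ U) : Continuous (F τ) :=
  hF.comp (f := fun u : ℝ => ((⟨τ, hτ⟩ : U), u)) (by fun_prop)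

theorem whol2_step {a b : ℝ → ℂ} {w : ℝ → ℂ × ℂ} {M C : ℝ} {n : ℕ} (hM : 0 ≤ M)
    (ha : ∀ u, ‖a u‖ ≤ M) (hb : ∀ u, ‖b u‖ ≤ M)
    (hw : ∀ u, ‖w u‖ ≤ C * (2 * M * |u|) ^ n / n.factorial) (u : ℝ) :
    ‖a u * (w u).1 + b u * (w u).2‖ ≤ 2 * M * (C * (2 * M * |u|) ^ n / n.factorial) := by
  have h1 : ‖(w u).1‖ ≤ C * (2 * M * |u|) ^ n / n.factorial := (norm_fst_le _).trans (hw u)
  have h2 : ‖(w u).2‖ ≤ C * (2 * M * |u|) ^ n / n.factorial := (norm_snd_le _).trans (hw u)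
  have h3 := mul_le_mul (ha u) h1 (norm_nonneg _) hM
  have h4 := mul_le_mul (hb u) h2 (norm_nonneg _) hM
  have h5 := norm_add_le (a u * (w u).1) (b u * (w u).2)
  rw [norm_mul, norm_mul] at h5
  linarith

theorem whol2_bd {f : ℝ → ℂ} {M C : ℝ} {n : ℕ}
    (hf : ∀ u, ‖f u‖ ≤ 2 * M * (C * (2 * M * |u|) ^ n / n.factorial)) (s : ℝ) :
    ‖∫ u in (0 : ℝ)..s, f u‖ ≤ C * (2 * M * |s|) ^ (n + 1) / (n + 1).factorial := by
  have h1 : ‖∫ u in (0 : ℝ)..s, f u‖ ≤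
      ∫ u in Set.uIoc 0 s, (2 * M * (C * (2 * M) ^ n / n.factorial)) * |u - 0| ^ n := by
    rw [intervalIntegral.norm_intervalIntegral_eq]
    refine MeasureTheory.norm_integral_le_of_norm_le ?_ (Eventually.of_forall fun u => ?_)
    · exact Continuous.integrableOn_uIoc (by fun_prop)
    · refine (hf u).trans (le_of_eq ?_)
      rw [sub_zero, mul_pow]; ring
  rw [MeasureTheory.integral_const_mul, integral_pow_abs_sub_uIoc, sub_zero] at h1
  refine h1.trans (le_of_eq ?_)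
  have h2 : (n.factorial : ℝ) ≠ 0 := by positivity
  rw [Nat.factorial_succ]
  push_cast
  field_simp
  ring

theorem whol2_sum (M C : ℝ) : Summable fun n : ℕ => C * (4 * M) ^ n / n.factorial := by
  have := (Real.summable_pow_div_factorial (4 * M)).mul_left C
  refine this.congr fun n => ?_
  ring

theorem whol2_mono {M C u : ℝ} (hM : 0 ≤ M) (hC : 0 ≤ C) (hu : |u| ≤ 2) (n : ℕ) :
    C * (2 * M * |u|) ^ n / n.factorial ≤ C * (4 * M) ^ n / n.factorial := by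
  have h1 : 2 * M * |u| ≤ 4 * M := by nlinarith
  have h2 : 0 ≤ 2 * M * |u| := by positivity
  gcongr

theorem whol2_der {a b : ℝ → ℂ} {v : ℕ → ℝ → ℂ × ℂ} {w : ℕ → ℝ → ℂ} {c : ℂ} {M C : ℝ}
    (hM : 0 ≤ M) (hC : 0 ≤ C) (ca : Continuous a) (cb : Continuous b)
    (cv : ∀ n, Continuous (v n)) (ha : ∀ u, ‖a u‖ ≤ M) (hb : ∀ u, ‖b u‖ ≤ M)
    (hv : ∀ n u, ‖v n u‖ ≤ C * (2 * M * |u|) ^ n / n.factorial)
    (w0 : ∀ s, w 0 s = c)
    (hw : ∀ n s, w (n + 1) s = ∫ u in (0 : ℝ)..s, (a u * (v n u).1 + b u * (v n u).2)) :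
    ∑' n, w n 0 = c ∧ ∀ s ∈ Icc (0 : ℝ) 1, HasDerivAt (fun s => ∑' n, w n s)
      (a s * ∑' n, (v n s).1 + b s * ∑' n, (v n s).2) s := by
  have hsw : ∀ s : ℝ, Summable fun n => w (n + 1) s := by
    intro s
    have h0 : Summable fun n : ℕ => C * (2 * M * |s|) ^ n / n.factorial := by
      have := (Real.summable_pow_div_factorial (2 * M * |s|)).mul_left C
      refine this.congr fun n => ?_
      ring
    refine Summable.of_norm_bounded ((summable_nat_add_iff 1).2 h0) fun n => ?_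
    rw [hw]
    exact whol2_bd (whol2_step hM ha hb (hv n)) s
  have hsplit : ∀ s : ℝ, ∑' n, w n s = c + ∑' n, w (n + 1) s := by
    intro s
    rw [Summable.tsum_eq_zero_add ((summable_nat_add_iff 1).1 (hsw s)), w0]
  refine ⟨?_, fun s hs => ?_⟩
  · rw [hsplit]
    simp [hw]
  have hs2 : s ∈ Ioo (-2 : ℝ) 2 := ⟨by linarith [hs.1], by linarith [hs.2]⟩
  have hs3 : |s| ≤ 2 := abs_le.2 ⟨hs2.1.le, hs2.2.le⟩
  have hd : HasDerivAt (fun z => ∑' n, w (n + 1) z)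
      (∑' n, (a s * (v n s).1 + b s * (v n s).2)) s := by
    refine hasDerivAt_tsum_of_isPreconnected (g := fun n z => w (n + 1) z)
      (g' := fun n z => a z * (v n z).1 + b z * (v n z).2)
      ((whol2_sum M C).mul_left (2 * M)) isOpen_Ioo isPreconnected_Ioo (fun n z _ => ?_)
      (fun n z hz => ?_) hs2 (hsw s) hs2
    · have hc : Continuous fun u => a u * (v n u).1 + b u * (v n u).2 := by
        have := cv n
        fun_prop
      have := (hc.integral_hasStrictDerivAt 0 z).hasDerivAt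
      refine this.congr_of_eventuallyEq (Eventually.of_forall fun t => hw n t)
    · refine (whol2_step hM ha hb (hv n) z).trans ?_
      exact mul_le_mul_of_nonneg_left
        (whol2_mono hM hC (abs_le.2 ⟨hz.1.le, hz.2.le⟩) n) (by positivity)
  have s1 : Summable fun n => (v n s).1 :=
    Summable.of_norm_bounded (whol2_sum M C) fun n =>
      ((norm_fst_le _).trans (hv n s)).trans (whol2_mono hM hC hs3 n)
  have s2 : Summable fun n => (v n s).2 :=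
    Summable.of_norm_bounded (whol2_sum M C) fun n =>
      ((norm_snd_le _).trans (hv n s)).trans (whol2_mono hM hC hs3 n)
  rw [(s1.mul_left _).tsum_add (s2.mul_left _), tsum_mul_left, tsum_mul_left] at hd
  have := hd.const_add c
  exact this.congr_of_eventuallyEq (Eventually.of_forall hsplit)

theorem whol2_ext {U : Set ℂ} (hU : IsOpen U) {a11 a12 a21 a22 : ℂ → ℝ → ℂ}
    (c11 : Continuous fun p : U × ℝ => a11 p.1 p.2)
    (c12 : Continuous fun p : U × ℝ => a12 p.1 p.2)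
    (c21 : Continuous fun p : U × ℝ => a21 p.1 p.2)
    (c22 : Continuous fun p : U × ℝ => a22 p.1 p.2)
    (d11 : ∀ s ∈ Icc (0 : ℝ) 1, DifferentiableOn ℂ (fun τ => a11 τ s) U)
    (d12 : ∀ s ∈ Icc (0 : ℝ) 1, DifferentiableOn ℂ (fun τ => a12 τ s) U)
    (d21 : ∀ s ∈ Icc (0 : ℝ) 1, DifferentiableOn ℂ (fun τ => a21 τ s) U)
    (d22 : ∀ s ∈ Icc (0 : ℝ) 1, DifferentiableOn ℂ (fun τ => a22 τ s) U)
    (hb : ∀ τ0 ∈ U, ∃ r > 0, ∃ M ≥ 0, Metric.ball τ0 r ⊆ U ∧ ∀ τ ∈ Metric.ball τ0 r, ∀ u,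
      ‖a11 τ u‖ ≤ M ∧ ‖a12 τ u‖ ≤ M ∧ ‖a21 τ u‖ ≤ M ∧ ‖a22 τ u‖ ≤ M) (x0 y0 : ℂ) :
    ∃ x y : ℂ → ℝ → ℂ,
      ContinuousOn (fun p : ℂ × ℝ => x p.1 p.2) (U ×ˢ Icc 0 1) ∧
      ContinuousOn (fun p : ℂ × ℝ => y p.1 p.2) (U ×ˢ Icc 0 1) ∧
      (∀ s ∈ Icc (0 : ℝ) 1, DifferentiableOn ℂ (fun τ => x τ s) U ∧
        DifferentiableOn ℂ (fun τ => y τ s) U) ∧
      ∀ τ ∈ U, x τ 0 = x0 ∧ y τ 0 = y0 ∧ ∀ s ∈ Icc (0 : ℝ) 1,
        HasDerivWithinAt (x τ) (a11 τ s * x τ s + a12 τ s * y τ s) (Icc 0 1) s ∧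
        HasDerivWithinAt (y τ) (a21 τ s * x τ s + a22 τ s * y τ s) (Icc 0 1) s := by
  set v := whol2_v a11 a12 a21 a22 x0 y0 with hv
  have v0 : ∀ τ s, v 0 τ s = (x0, y0) := fun _ _ => rfl
  have v1 : ∀ n τ s, v (n + 1) τ s =
      (∫ u in (0 : ℝ)..s, (a11 τ u * (v n τ u).1 + a12 τ u * (v n τ u).2),
        ∫ u in (0 : ℝ)..s, (a21 τ u * (v n τ u).1 + a22 τ u * (v n τ u).2)) := fun _ _ _ => rfl
  clear_value v
  have cv : ∀ n, Continuous fun p : U × ℝ => v n p.1 p.2 := by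
    intro n
    induction n with
    | zero => simp only [v0]; exact continuous_const
    | succ n ih =>
      simp only [v1]
      refine Continuous.prodMk ?_ ?_
      · exact whol2_int_cont (F := fun τ u => a11 τ u * (v n τ u).1 + a12 τ u * (v n τ u).2)
          ((c11.mul ih.fst).add (c12.mul ih.snd))
      · exact whol2_int_cont (F := fun τ u => a21 τ u * (v n τ u).1 + a22 τ u * (v n τ u).2)
          ((c21.mul ih.fst).add (c22.mul ih.snd))
  have dv : ∀ n, ∀ s ∈ Icc (0 : ℝ) 1, DifferentiableOn ℂ (fun τ => v n τ s) U := by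
    intro n
    induction n with
    | zero => intro s _; simp only [v0]; exact differentiableOn_const _
    | succ n ih =>
      intro s hs
      simp only [v1]
      have hsub : ∀ u ∈ Icc (0 : ℝ) s, u ∈ Icc (0 : ℝ) 1 := fun u hu => ⟨hu.1, hu.2.trans hs.2⟩
      refine DifferentiableOn.prodMk ?_ ?_
      · refine hol_int (F := fun τ u => a11 τ u * (v n τ u).1 + a12 τ u * (v n τ u).2) hU hs.1
          (whol2_on (F := fun τ u => a11 τ u * (v n τ u).1 + a12 τ u * (v n τ u).2)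
            ((c11.mul (cv n).fst).add (c12.mul (cv n).snd)) _) fun u hu => ?_
        exact ((d11 u (hsub u hu)).mul (ih u (hsub u hu)).fst).add
          ((d12 u (hsub u hu)).mul (ih u (hsub u hu)).snd)
      · refine hol_int (F := fun τ u => a21 τ u * (v n τ u).1 + a22 τ u * (v n τ u).2) hU hs.1
          (whol2_on (F := fun τ u => a21 τ u * (v n τ u).1 + a22 τ u * (v n τ u).2)
            ((c21.mul (cv n).fst).add (c22.mul (cv n).snd)) _) fun u hu => ?_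
        exact ((d21 u (hsub u hu)).mul (ih u (hsub u hu)).fst).add
          ((d22 u (hsub u hu)).mul (ih u (hsub u hu)).snd)
  have bv : ∀ (τ : ℂ) (M : ℝ), 0 ≤ M →
      (∀ u, ‖a11 τ u‖ ≤ M ∧ ‖a12 τ u‖ ≤ M ∧ ‖a21 τ u‖ ≤ M ∧ ‖a22 τ u‖ ≤ M) →
      ∀ n u, ‖v n τ u‖ ≤ ‖(x0, y0)‖ * (2 * M * |u|) ^ n / n.factorial := by
    intro τ M hM h n
    induction n with
    | zero => intro u; simp [v0]
    | succ n ih =>
      intro u
      rw [v1, Prod.norm_def]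
      exact max_le (whol2_bd (whol2_step hM (fun u => (h u).1) (fun u => (h u).2.1) ih) u)
        (whol2_bd (whol2_step hM (fun u => (h u).2.2.1) (fun u => (h u).2.2.2) ih) u)
  have habs : ∀ s ∈ Icc (0 : ℝ) 1, |s| ≤ 2 := fun s hs =>
    abs_le.2 ⟨by linarith [hs.1], by linarith [hs.2]⟩
  have key : ∀ w : ℕ → ℂ → ℝ → ℂ, (∀ n τ s, ‖w n τ s‖ ≤ ‖v n τ s‖) →
      (∀ n, Continuous fun p : U × ℝ => w n p.1 p.2) →
      (∀ n, ∀ s ∈ Icc (0 : ℝ) 1, DifferentiableOn ℂ (fun τ => w n τ s) U) →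
      ContinuousOn (fun p : ℂ × ℝ => ∑' n, w n p.1 p.2) (U ×ˢ Icc 0 1) ∧
        ∀ s ∈ Icc (0 : ℝ) 1, DifferentiableOn ℂ (fun τ => ∑' n, w n τ s) U := by
    intro w hw cw dw
    refine ⟨fun p hp => ?_, fun s hs τ0 hτ0 => ?_⟩
    · obtain ⟨r, hr, M, hM, hsub, hbd⟩ := hb p.1 hp.1
      have h1 : ContinuousOn (fun p : ℂ × ℝ => ∑' n, w n p.1 p.2)
          (Metric.ball p.1 r ×ˢ Icc 0 1) := by
        refine continuousOn_tsum (fun n => (whol2_on (cw n) _).mono (prod_mono hsub subset_rfl))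
          (whol2_sum M ‖(x0, y0)‖) fun n q hq => ?_
        exact ((hw n _ _).trans (bv q.1 M hM (hbd q.1 hq.1) n q.2)).trans
          (whol2_mono hM (norm_nonneg _) (habs _ hq.2) n)
      refine (h1 p ⟨Metric.mem_ball_self hr, hp.2⟩).mono_of_mem_nhdsWithin ?_
      have h2 : (Metric.ball p.1 r ×ˢ (univ : Set ℝ)) ∈ 𝓝 p :=
        (Metric.isOpen_ball.prod isOpen_univ).mem_nhds ⟨Metric.mem_ball_self hr, mem_univ _⟩
      filter_upwards [self_mem_nhdsWithin, mem_nhdsWithin_of_mem_nhds h2] with q h3 h4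
      exact ⟨h4.1, h3.2⟩
    · obtain ⟨r, hr, M, hM, hsub, hbd⟩ := hb τ0 hτ0
      have h1 : DifferentiableOn ℂ (fun τ => ∑' n, w n τ s) (Metric.ball τ0 r) := by
        refine Complex.differentiableOn_tsum_of_summable_norm (whol2_sum M ‖(x0, y0)‖)
          (fun n => (dw n s hs).mono hsub) Metric.isOpen_ball fun n τ hτ => ?_
        exact ((hw n _ _).trans (bv τ M hM (hbd τ hτ) n s)).trans
          (whol2_mono hM (norm_nonneg _) (habs _ hs) n)
      exact (h1.differentiableAt (Metric.ball_mem_nhds τ0 hr)).differentiableWithinAt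
  obtain ⟨kx1, kx2⟩ := key (fun n τ s => (v n τ s).1) (fun n τ s => norm_fst_le _)
    (fun n => (cv n).fst) fun n s hs => (dv n s hs).fst
  obtain ⟨ky1, ky2⟩ := key (fun n τ s => (v n τ s).2) (fun n τ s => norm_snd_le _)
    (fun n => (cv n).snd) fun n s hs => (dv n s hs).snd
  refine ⟨fun τ s => ∑' n, (v n τ s).1, fun τ s => ∑' n, (v n τ s).2, kx1, ky1,
    fun s hs => ⟨kx2 s hs, ky2 s hs⟩, fun τ hτ => ?_⟩
  obtain ⟨r, hr, M, hM, hsub, hbd⟩ := hb τ hτ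
  have h := hbd τ (Metric.mem_ball_self hr)
  obtain ⟨e1, e2⟩ := whol2_der (a := a11 τ) (b := a12 τ) (v := fun n => v n τ)
    (w := fun n s => (v n τ s).1) (c := x0) hM (norm_nonneg (x0, y0)) (whol2_sec c11 hτ)
    (whol2_sec c12 hτ) (fun n => whol2_sec (cv n) hτ) (fun u => (h u).1) (fun u => (h u).2.1)
    (bv τ M hM h) (fun s => by rw [v0]) (fun n s => by rw [v1])
  obtain ⟨e3, e4⟩ := whol2_der (a := a21 τ) (b := a22 τ) (v := fun n => v n τ)
    (w := fun n s => (v n τ s).2) (c := y0) hM (norm_nonneg (x0, y0)) (whol2_sec c21 hτ)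
    (whol2_sec c22 hτ) (fun n => whol2_sec (cv n) hτ) (fun u => (h u).2.2.1)
    (fun u => (h u).2.2.2) (bv τ M hM h) (fun s => by rw [v0]) (fun n s => by rw [v1])
  exact ⟨e1, e3, fun s hs => ⟨(e2 s hs).hasDerivWithinAt, (e4 s hs).hasDerivWithinAt⟩⟩

theorem whol2_pc {U : Set ℂ} {a : ℂ → ℝ → ℂ}
    (c : ContinuousOn (fun p : ℂ × ℝ => a p.1 p.2) (U ×ˢ Icc 0 1)) :
    Continuous fun p : U × ℝ => a p.1 (projIcc (0 : ℝ) 1 zero_le_one p.2) := by
  have h1 : Continuous fun p : U × ℝ =>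
      (((p.1 : ℂ), ((projIcc (0 : ℝ) 1 zero_le_one p.2 : Icc (0 : ℝ) 1) : ℝ)) : ℂ × ℝ) := by
    refine Continuous.prodMk (by fun_prop) ?_
    exact continuous_subtype_val.comp (continuous_projIcc.comp continuous_snd)
  exact c.comp_continuous h1 fun p => ⟨p.1.2, (projIcc (0 : ℝ) 1 zero_le_one p.2).2⟩

theorem whol2_loc {U K : Set ℂ} (hK : IsCompact K) (hKU : K ⊆ U) {a : ℂ → ℝ → ℂ}
    (c : ContinuousOn (fun p : ℂ × ℝ => a p.1 p.2) (U ×ˢ Icc 0 1)) :
    ∃ M, ∀ τ ∈ K, ∀ u : ℝ, ‖a τ (projIcc (0 : ℝ) 1 zero_le_one u)‖ ≤ M := by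
  obtain ⟨M, hM⟩ := (hK.prod isCompact_Icc).exists_bound_of_continuousOn
    (c.mono (prod_mono hKU subset_rfl))
  exact ⟨M, fun τ hτ u => hM (τ, _) ⟨hτ, (projIcc (0 : ℝ) 1 zero_le_one u).2⟩⟩

theorem hol_ode {U : Set ℂ} (hU : IsOpen U) {a11 a12 a21 a22 : ℂ → ℝ → ℂ}
    (c11 : ContinuousOn (fun p : ℂ × ℝ => a11 p.1 p.2) (U ×ˢ Icc 0 1))
    (c12 : ContinuousOn (fun p : ℂ × ℝ => a12 p.1 p.2) (U ×ˢ Icc 0 1))
    (c21 : ContinuousOn (fun p : ℂ × ℝ => a21 p.1 p.2) (U ×ˢ Icc 0 1))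
    (c22 : ContinuousOn (fun p : ℂ × ℝ => a22 p.1 p.2) (U ×ˢ Icc 0 1))
    (d11 : ∀ s ∈ Icc (0 : ℝ) 1, DifferentiableOn ℂ (fun τ => a11 τ s) U)
    (d12 : ∀ s ∈ Icc (0 : ℝ) 1, DifferentiableOn ℂ (fun τ => a12 τ s) U)
    (d21 : ∀ s ∈ Icc (0 : ℝ) 1, DifferentiableOn ℂ (fun τ => a21 τ s) U)
    (d22 : ∀ s ∈ Icc (0 : ℝ) 1, DifferentiableOn ℂ (fun τ => a22 τ s) U) (x0 y0 : ℂ) :
    ∃ x y : ℂ → ℝ → ℂ,
      ContinuousOn (fun p : ℂ × ℝ => x p.1 p.2) (U ×ˢ Icc 0 1) ∧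
      ContinuousOn (fun p : ℂ × ℝ => y p.1 p.2) (U ×ˢ Icc 0 1) ∧
      (∀ s ∈ Icc (0 : ℝ) 1, DifferentiableOn ℂ (fun τ => x τ s) U ∧
        DifferentiableOn ℂ (fun τ => y τ s) U) ∧
      ∀ τ ∈ U, x τ 0 = x0 ∧ y τ 0 = y0 ∧ ∀ s ∈ Icc (0 : ℝ) 1,
        HasDerivWithinAt (x τ) (a11 τ s * x τ s + a12 τ s * y τ s) (Icc 0 1) s ∧
        HasDerivWithinAt (y τ) (a21 τ s * x τ s + a22 τ s * y τ s) (Icc 0 1) s := by
  have hp : ∀ s ∈ Icc (0 : ℝ) 1, ((projIcc (0 : ℝ) 1 zero_le_one s : Icc (0 : ℝ) 1) : ℝ) = s :=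
    fun s hs => by rw [projIcc_of_mem _ hs]
  obtain ⟨x, y, h1, h2, h3, h4⟩ := whol2_ext hU
    (a11 := fun τ u => a11 τ (projIcc (0 : ℝ) 1 zero_le_one u))
    (a12 := fun τ u => a12 τ (projIcc (0 : ℝ) 1 zero_le_one u))
    (a21 := fun τ u => a21 τ (projIcc (0 : ℝ) 1 zero_le_one u))
    (a22 := fun τ u => a22 τ (projIcc (0 : ℝ) 1 zero_le_one u))
    (whol2_pc c11) (whol2_pc c12) (whol2_pc c21) (whol2_pc c22)
    (fun s _ => d11 _ (projIcc (0 : ℝ) 1 zero_le_one s).2)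
    (fun s _ => d12 _ (projIcc (0 : ℝ) 1 zero_le_one s).2)
    (fun s _ => d21 _ (projIcc (0 : ℝ) 1 zero_le_one s).2)
    (fun s _ => d22 _ (projIcc (0 : ℝ) 1 zero_le_one s).2) (fun τ0 hτ0 => by
      obtain ⟨r, hr, hsub⟩ := Metric.nhds_basis_closedBall.mem_iff.1 (hU.mem_nhds hτ0)
      have hK := isCompact_closedBall τ0 r
      obtain ⟨M1, m1⟩ := whol2_loc hK hsub c11
      obtain ⟨M2, m2⟩ := whol2_loc hK hsub c12
      obtain ⟨M3, m3⟩ := whol2_loc hK hsub c21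
      obtain ⟨M4, m4⟩ := whol2_loc hK hsub c22
      refine ⟨r, hr, |M1| + |M2| + |M3| + |M4|, by positivity,
        Metric.ball_subset_closedBall.trans hsub, fun τ hτ u => ?_⟩
      have hτ' := Metric.ball_subset_closedBall hτ
      have := m1 τ hτ' u
      have := m2 τ hτ' u
      have := m3 τ hτ' u
      have := m4 τ hτ' u
      have := le_abs_self M1
      have := le_abs_self M2
      have := le_abs_self M3
      have := le_abs_self M4
      have := abs_nonneg M1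
      have := abs_nonneg M2
      have := abs_nonneg M3
      have := abs_nonneg M4
      refine ⟨?_, ?_, ?_, ?_⟩ <;> linarith) x0 y0
  refine ⟨x, y, h1, h2, h3, fun τ hτ => ⟨(h4 τ hτ).1, (h4 τ hτ).2.1, fun s hs => ?_⟩⟩
  have := (h4 τ hτ).2.2 s hs
  simp only [hp s hs] at this
  exact this

end Pool.Agent.HillD
end

-- part Pool.Agent.P.MP_ae2765_an.WSol
section

/-! Holomorphic solutions of a linear system on a disc. -/

namespace Pool.Agent.HillD
open Real Set Filter Topology Asymptotics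

theorem wsol_mem {R : ℝ} {p z : ℂ} (hp : p ∈ Metric.ball (0 : ℂ) R)
    (hz : z ∈ Metric.ball (0 : ℂ) R) {s : ℝ} (hs : s ∈ Icc (0 : ℝ) 1) :
    p + (s : ℂ) * (z - p) ∈ Metric.ball (0 : ℂ) R := by
  have h := (convex_ball (0 : ℂ) R).add_smul_sub_mem hp hz hs
  simpa only [Complex.real_smul] using h

theorem wsol_cont {R : ℝ} {f : ℂ → ℂ} (h : DifferentiableOn ℂ f (Metric.ball 0 R)) {p : ℂ}
    (hp : p ∈ Metric.ball (0 : ℂ) R) :
    ContinuousOn (fun q : ℂ × ℝ => (q.1 - p) * f (p + (q.2 : ℂ) * (q.1 - p)))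
      (Metric.ball 0 R ×ˢ Icc 0 1) := by
  have c0 : Continuous (fun q : ℂ × ℝ => p + (q.2 : ℂ) * (q.1 - p)) := by fun_prop
  have c1 : Continuous (fun q : ℂ × ℝ => q.1 - p) := by fun_prop
  exact c1.continuousOn.mul (h.continuousOn.comp c0.continuousOn
    (fun q hq => wsol_mem hp hq.1 hq.2))

theorem wsol_diff {R : ℝ} {f : ℂ → ℂ} (h : DifferentiableOn ℂ f (Metric.ball 0 R)) {p : ℂ}
    (hp : p ∈ Metric.ball (0 : ℂ) R) : ∀ s ∈ Icc (0 : ℝ) 1,
    DifferentiableOn ℂ (fun z : ℂ => (z - p) * f (p + (s : ℂ) * (z - p))) (Metric.ball 0 R) := by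
  intro s hs
  have c0 : Differentiable ℂ (fun z : ℂ => p + (s : ℂ) * (z - p)) := by fun_prop
  have c1 : Differentiable ℂ (fun z : ℂ => z - p) := by fun_prop
  exact c1.differentiableOn.mul (h.comp c0.differentiableOn (fun z hz => wsol_mem hp hz hs))

/-- rescaling of the time variable -/
theorem wsol_scale {x : ℝ → ℂ} {σ s : ℝ} (hσ : σ ∈ Icc (0 : ℝ) 1) {c : ℂ}
    (h : HasDerivWithinAt x c (Icc 0 1) (σ * s)) :
    HasDerivWithinAt (fun t => x (σ * t)) ((σ : ℂ) * c) (Icc 0 1) s := by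
  have h0 : HasDerivWithinAt (fun t : ℝ => σ * t) σ (Icc 0 1) s := by
    simpa using ((hasDerivAt_id s).const_mul σ).hasDerivWithinAt
  have hm : MapsTo (fun t : ℝ => σ * t) (Icc 0 1) (Icc 0 1) := fun t ht =>
    ⟨mul_nonneg hσ.1 ht.1, mul_le_one₀ hσ.2 ht.1 ht.2⟩
  have h1 := HasDerivWithinAt.scomp (h := fun t : ℝ => σ * t) s h h0 hm
  simpa only [Complex.real_smul, Function.comp_def] using h1

/-- the derivative of a holomorphic function from its radial derivative -/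
theorem wsol_rad {R : ℝ} {u g : ℂ → ℂ} {p : ℂ} (hp : p ∈ Metric.ball (0 : ℂ) R)
    (hu : DifferentiableOn ℂ u (Metric.ball 0 R)) (hg : ContinuousOn g (Metric.ball 0 R))
    (h : ∀ z ∈ Metric.ball (0 : ℂ) R,
      HasDerivWithinAt (fun σ : ℝ => u (p + (σ : ℂ) * (z - p))) ((z - p) * g z) (Icc 0 1) 1) :
    ∀ z ∈ Metric.ball (0 : ℂ) R, HasDerivAt u (g z) z := by
  have hd : ∀ z ∈ Metric.ball (0 : ℂ) R, HasDerivAt u (deriv u z) z := fun z hz =>
    (hu.differentiableAt (Metric.isOpen_ball.mem_nhds hz)).hasDerivAt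
  have key : ∀ z ∈ Metric.ball (0 : ℂ) R, z ≠ p → deriv u z = g z := by
    intro z hz hne
    have e : p + ((1 : ℝ) : ℂ) * (z - p) = z := by push_cast; ring
    have h1 : HasDerivAt (fun w : ℂ => p + w * (z - p)) (z - p) ((1 : ℝ) : ℂ) := by
      simpa using ((hasDerivAt_id ((1 : ℝ) : ℂ)).mul_const (z - p)).const_add p
    have h2 : HasDerivAt u (deriv u z) (p + ((1 : ℝ) : ℂ) * (z - p)) := by
      rw [e]; exact hd z hz
    have h3 : HasDerivAt (fun w : ℂ => u (p + w * (z - p))) (deriv u z * (z - p))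
        ((1 : ℝ) : ℂ) := h2.comp ((1 : ℝ) : ℂ) h1
    have h4 := (h3.comp_ofReal).hasDerivWithinAt (s := Icc (0 : ℝ) 1)
    have h5 := (uniqueDiffOn_Icc (zero_lt_one' ℝ) 1 ⟨zero_le_one, le_rfl⟩).eq_deriv _ h4 (h z hz)
    have hz0 : z - p ≠ 0 := sub_ne_zero.2 hne
    apply mul_right_cancel₀ hz0
    rw [h5]; ring
  intro z hz
  by_cases hne : z = p
  · subst hne
    have c1 : ContinuousAt (deriv u) z :=
      (hu.deriv Metric.isOpen_ball).continuousOn.continuousAt (Metric.isOpen_ball.mem_nhds hz)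
    have c2 : ContinuousAt g z := hg.continuousAt (Metric.isOpen_ball.mem_nhds hz)
    have ev : deriv u =ᶠ[𝓝[≠] z] g := by
      filter_upwards [mem_nhdsWithin_of_mem_nhds (Metric.isOpen_ball.mem_nhds hz),
        self_mem_nhdsWithin] with w hw hwz
      exact key w hw hwz
    have e : deriv u z = g z :=
      tendsto_nhds_unique ((c1.tendsto.mono_left nhdsWithin_le_nhds).congr' ev)
        (c2.tendsto.mono_left nhdsWithin_le_nhds)
    rw [← e]; exact hd z hz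
  · rw [← key z hz hne]; exact hd z hz

theorem hol_sol {R : ℝ} {f1 f2 : ℂ → ℂ} (h1 : DifferentiableOn ℂ f1 (Metric.ball 0 R))
    (h2 : DifferentiableOn ℂ f2 (Metric.ball 0 R)) {p : ℂ} (hp : p ∈ Metric.ball (0 : ℂ) R)
    (u0 y0 : ℂ) : ∃ u y : ℂ → ℂ, u p = u0 ∧ y p = y0 ∧
      ∀ z ∈ Metric.ball (0 : ℂ) R, HasDerivAt u (f1 z * y z) z ∧ HasDerivAt y (f2 z * u z) z := by
  obtain ⟨x, y, -, -, dxy, hode⟩ := hol_ode (U := Metric.ball (0 : ℂ) R) Metric.isOpen_ball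
    (a11 := fun _ _ => 0) (a12 := fun z s => (z - p) * f1 (p + (s : ℂ) * (z - p)))
    (a21 := fun z s => (z - p) * f2 (p + (s : ℂ) * (z - p))) (a22 := fun _ _ => 0)
    continuousOn_const (wsol_cont h1 hp) (wsol_cont h2 hp) continuousOn_const
    (fun _ _ => differentiableOn_const _) (wsol_diff h1 hp) (wsol_diff h2 hp)
    (fun _ _ => differentiableOn_const _) u0 y0
  have one : (1 : ℝ) ∈ Icc (0 : ℝ) 1 := ⟨zero_le_one, le_rfl⟩
  have zer : (0 : ℝ) ∈ Icc (0 : ℝ) 1 := ⟨le_rfl, zero_le_one⟩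
  have cs : ∀ {f : ℂ → ℂ}, DifferentiableOn ℂ f (Metric.ball 0 R) → ∀ z ∈ Metric.ball (0 : ℂ) R,
      ContinuousOn (fun s : ℝ => (z - p) * f (p + (s : ℂ) * (z - p))) (Icc 0 1) := by
    intro f hf z hz
    have c0 : Continuous (fun s : ℝ => p + (s : ℂ) * (z - p)) := by fun_prop
    exact continuousOn_const.mul (hf.continuousOn.comp c0.continuousOn
      (fun s hs => wsol_mem hp hz hs))
  have sc : ∀ z ∈ Metric.ball (0 : ℂ) R, ∀ σ ∈ Icc (0 : ℝ) 1,
      x (p + (σ : ℂ) * (z - p)) 1 = x z σ ∧ y (p + (σ : ℂ) * (z - p)) 1 = y z σ := by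
    intro z hz σ hσ
    have hz' := wsol_mem hp hz hσ
    obtain ⟨e1, e2, hd⟩ := hode z hz
    obtain ⟨e1', e2', hd'⟩ := hode _ hz'
    have hu := ode_uniq (a11 := fun _ => 0) (a22 := fun _ => 0) continuousOn_const
      (cs h1 _ hz') (cs h2 _ hz') continuousOn_const hd'
      (x' := fun t => x z (σ * t)) (y' := fun t => y z (σ * t)) ?_
      (by rw [e1', mul_zero, e1]) (by rw [e2', mul_zero, e2]) 1 one
    · simpa only [mul_one] using hu
    · intro s hs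
      have hm : σ * s ∈ Icc (0 : ℝ) 1 := ⟨mul_nonneg hσ.1 hs.1, mul_le_one₀ hσ.2 hs.1 hs.2⟩
      have ea : p + (s : ℂ) * (p + (σ : ℂ) * (z - p) - p) = p + ((σ * s : ℝ) : ℂ) * (z - p) := by
        push_cast; ring
      refine ⟨(wsol_scale hσ (hd _ hm).1).congr_deriv ?_,
        (wsol_scale hσ (hd _ hm).2).congr_deriv ?_⟩
      · rw [ea]; ring
      · rw [ea]; ring
  have du := (dxy 1 one).1
  have dy := (dxy 1 one).2
  refine ⟨fun z => x z 1, fun z => y z 1, ?_, ?_, ?_⟩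
  · have := (sc p hp 0 zer).1
    rw [(hode p hp).1] at this
    simpa using this
  · have := (sc p hp 0 zer).2
    rw [(hode p hp).2.1] at this
    simpa using this
  · have A := wsol_rad (g := fun z => f1 z * y z 1) hp du
      (h1.continuousOn.mul dy.continuousOn) (fun z hz => by
        have h := ((hode z hz).2.2 1 one).1
        have e : p + ((1 : ℝ) : ℂ) * (z - p) = z := by push_cast; ring
        refine (h.congr (fun σ hσ => (sc z hz σ hσ).1) (sc z hz 1 one).1).congr_deriv ?_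
        rw [e]; ring)
    have B := wsol_rad (g := fun z => f2 z * x z 1) hp dy
      (h2.continuousOn.mul du.continuousOn) (fun z hz => by
        have h := ((hode z hz).2.2 1 one).2
        have e : p + ((1 : ℝ) : ℂ) * (z - p) = z := by push_cast; ring
        refine (h.congr (fun σ hσ => (sc z hz σ hσ).2) (sc z hz 1 one).2).congr_deriv ?_
        rw [e]; ring)
    exact fun z hz => ⟨A z hz, B z hz⟩

end Pool.Agent.HillD
end

-- part Pool.Agent.P.MP_ae2765_an.WBr2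
section

/-! From the solution along the complex path to the real solutions. -/

namespace Pool.Agent.HillD
open Real Set Filter Topology Asymptotics

noncomputable def wbr2_r (j φ : ℂ) : ℂ :=
  Complex.sqrt (QQ j (Complex.cos φ ^ 2) / (2 * (1 - j)))

noncomputable def wbr2_L (j φ : ℂ) : ℂ :=
  -((1 - 2 * j) * Complex.cos φ * Complex.sin φ) / QQ j (Complex.cos φ ^ 2)

theorem wbr2_sqrt_real {a : ℝ} (ha : 0 ≤ a) : Complex.sqrt (a : ℂ) = ((√a : ℝ) : ℂ) := by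
  have h := Complex.sqrt_of_nonneg (a := (a : ℂ)) (by exact_mod_cast ha)
  simpa using h

theorem wbr2_r_deriv {j : ℝ} (hj2 : j < 1 / 2) {φ : ℂ}
    (hQ : QQ j (Complex.cos φ ^ 2) ∈ Complex.slitPlane) :
    HasDerivAt (wbr2_r j) (wbr2_L j φ * wbr2_r j φ) φ ∧ wbr2_r j φ ≠ 0 := by
  have hc : (0 : ℝ) < 2 * (1 - j) := by linarith
  have hc' : (2 * (1 - (j : ℂ))) = ((2 * (1 - j) : ℝ) : ℂ) := by push_cast; ring
  have hcne : (2 * (1 - (j : ℂ))) ≠ 0 := by rw [hc']; exact_mod_cast hc.ne'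
  have hQ0 := Complex.slitPlane_ne_zero hQ
  have hsl : QQ j (Complex.cos φ ^ 2) / (2 * (1 - j)) ∈ Complex.slitPlane := by
    rw [hc', Complex.mem_slitPlane_iff, Complex.div_ofReal_re, Complex.div_ofReal_im]
    rcases hQ with h | h
    · exact Or.inl (div_pos h hc)
    · exact Or.inr (div_ne_zero h hc.ne')
  have hq : HasDerivAt (fun φ : ℂ => QQ j (Complex.cos φ ^ 2) / (2 * (1 - (j : ℂ))))
      ((1 - 2 * j) * (2 * Complex.cos φ * -Complex.sin φ) / (2 * (1 - (j : ℂ)))) φ := by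
    have := ((((Complex.hasDerivAt_cos φ).fun_pow 2).const_mul (1 - 2 * (j : ℂ))).const_add
      1).div_const (2 * (1 - (j : ℂ)))
    simpa [QQ] using this
  have hd : DifferentiableAt ℂ (wbr2_r j) φ :=
    (Complex.differentiableAt_sqrt hsl).comp φ hq.differentiableAt
  have hsq : ∀ x : ℂ, wbr2_r j x ^ 2 = QQ j (Complex.cos x ^ 2) / (2 * (1 - (j : ℂ))) :=
    fun x => csqrt_sq _
  have hne : wbr2_r j φ ≠ 0 := by
    intro h
    have := hsq φ
    rw [h] at this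
    exact Complex.slitPlane_ne_zero hsl (by rw [← this]; ring)
  refine ⟨?_, hne⟩
  have h2 := hd.hasDerivAt.fun_pow 2
  simp only [hsq] at h2
  have h3 := h2.unique hq
  refine (hd.hasDerivAt).congr_deriv ?_
  apply mul_left_cancel₀ (mul_ne_zero (two_ne_zero' ℂ) hne)
  have h4 : 2 * wbr2_r j φ * deriv (wbr2_r j) φ =
      (1 - 2 * j) * (2 * Complex.cos φ * -Complex.sin φ) / (2 * (1 - (j : ℂ))) := by
    rw [← h3]; norm_num
  rw [h4]
  symm
  have h5 : 2 * wbr2_r j φ * (wbr2_L j φ * wbr2_r j φ) = 2 * wbr2_L j φ * wbr2_r j φ ^ 2 := by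
    ring
  rw [h5, hsq, wbr2_L]
  field_simp

theorem wbr2_comp {φ1 s : ℝ} {F : ℂ → ℂ} {F' : ℂ} (h : HasDerivAt F F' (pth φ1 s)) :
    HasDerivAt (fun t : ℝ => F (pth φ1 t)) (F' * (φ1 * (1 - Complex.I))) s := by
  have hp : HasDerivAt (fun z : ℂ => (φ1 : ℂ) * (Complex.I + (1 - Complex.I) * z))
      (φ1 * (1 - Complex.I)) (s : ℂ) := by
    simpa using (((hasDerivAt_id (s : ℂ)).const_mul (1 - Complex.I)).const_add
      Complex.I).const_mul (φ1 : ℂ)
  exact (HasDerivAt.comp (s : ℂ) (h₂ := F) h hp).comp_ofReal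

theorem wbr2_path {ω j φ1 R : ℝ} {A B : ℝ → ℂ} {H u w : ℂ → ℂ} (hω : 0 < ω) (hj : 0 < j)
    (hj2 : j < 1 / 2) (h0 : 0 < φ1) (h1 : φ1 ≤ π / 2) (hR : π / 2 < R)
    (hd : ∀ φ ∈ Metric.ball (0 : ℂ) R, PP ω j (Complex.cos φ ^ 2) ∈ Complex.slitPlane ∧
      QQ j (Complex.cos φ ^ 2) ∈ Complex.slitPlane ∧ q2 ω j φ ∈ Complex.slitPlane)
    (hg : ∀ s ∈ Icc (0 : ℝ) 1, 0 < (gp φ1 ω j s).re)
    (hs : RicSol (gp φ1 ω j) (fun s => psi ω j (pX φ1 s)) A B)
    (hH0 : H (Complex.I * φ1) = 0)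
    (hH : ∀ φ ∈ Metric.ball (0 : ℂ) R, HasDerivAt H
      (Complex.I * qh ω j φ * (1 + psi ω j (Complex.cos φ ^ 2) / 2) + eh ω j φ) φ)
    (hu : ∀ z ∈ Metric.ball (0 : ℂ) R, HasDerivAt u (w z) z ∧
      HasDerivAt w (-q2 ω j z * u z - wbr2_L j z * w z) z)
    (u0 : u (Complex.I * φ1) = 1)
    (w0 : w (Complex.I * φ1) = eh ω j (Complex.I * φ1) + Complex.I * qh ω j (Complex.I * φ1)) :
    u φ1 = Complex.exp (H φ1) * A 1 ∧
      w φ1 = Complex.exp (H φ1) *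
        ((eh ω j φ1 + Complex.I * qh ω j φ1) * A 1 + Complex.I * qh ω j φ1 * B 1) := by
  have hm : ∀ s ∈ Icc (0 : ℝ) 1, pth φ1 s ∈ Metric.ball (0 : ℂ) R :=
    fun s hs => pth_mem h0 h1 hR hs
  have hQ : ∀ s ∈ Icc (0 : ℝ) 1, QQ j (Complex.cos (pth φ1 s) ^ 2) ≠ 0 :=
    fun s hs => Complex.slitPlane_ne_zero (hd _ (hm s hs)).2.1
  have hpc : Continuous (pth φ1) := by unfold pth; fun_prop
  have p0 : pth φ1 0 = Complex.I * φ1 := by simp [pth, mul_comm]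
  have p1 : pth φ1 1 = φ1 := by simp [pth]
  have key := ode_uniq (a11 := fun _ => 0) (a12 := fun _ => (φ1 : ℂ) * (1 - Complex.I))
    (a21 := fun s => -q2 ω j (pth φ1 s) * (φ1 * (1 - Complex.I)))
    (a22 := fun s => -wbr2_L j (pth φ1 s) * (φ1 * (1 - Complex.I)))
    (x := fun s => u (pth φ1 s)) (y := fun s => w (pth φ1 s))
    (x' := fun s => Complex.exp (H (pth φ1 s)) * A s)
    (y' := fun s => Complex.exp (H (pth φ1 s)) *
      ((eh ω j (pth φ1 s) + Complex.I * qh ω j (pth φ1 s)) * A s +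
        Complex.I * qh ω j (pth φ1 s) * B s))
    continuousOn_const continuousOn_const ?_ ?_ ?_ ?_ ?_ ?_ 1 ⟨zero_le_one, le_rfl⟩
  · simpa only [p1] using key
  · refine (ContinuousOn.neg ?_).mul continuousOn_const
    unfold q2
    refine ContinuousOn.div ?_ ?_ hQ
    · unfold PP; fun_prop
    · unfold QQ; fun_prop
  · refine (ContinuousOn.neg ?_).mul continuousOn_const
    unfold wbr2_L
    refine ContinuousOn.div ?_ ?_ hQ
    · fun_prop
    · unfold QQ; fun_prop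
  · intro s hs'
    obtain ⟨a, b⟩ := hu _ (hm s hs')
    constructor
    · refine ((wbr2_comp a).hasDerivWithinAt).congr_deriv ?_
      ring
    · refine ((wbr2_comp b).hasDerivWithinAt).congr_deriv ?_
      ring
  · intro s hs'
    obtain ⟨dP, dQ, dq⟩ := hd _ (hm s hs')
    obtain ⟨a, b⟩ := hs.2.2 s hs'
    obtain ⟨c, d⟩ := qh_eh_deriv (j := j) hω (Complex.slitPlane_ne_zero dP)
      (Complex.slitPlane_ne_zero dQ) dq (wbr2_L j (pth φ1 s)) rfl
    have e := ((wbr2_comp (hH _ (hm s hs'))).cexp).hasDerivWithinAt (s := Icc 0 1)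
    have c' := (wbr2_comp c).hasDerivWithinAt (s := Icc 0 1)
    have d' := (wbr2_comp d).hasDerivWithinAt (s := Icc 0 1)
    have hq2 : q2 ω j (pth φ1 s) = qh ω j (pth φ1 s) ^ 2 := (csqrt_sq _).symm
    rw [gp_eq hω hj hj2 h0 h1 hg s hs'] at a b
    simp only [pX] at a b
    have hI : (1 + Complex.I) = Complex.I * (1 - Complex.I) := by
      linear_combination Complex.I_mul_I
    rw [hI] at a b
    rw [hq2] at d'
    constructor
    · refine (e.fun_mul a).congr_deriv ?_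
      ring
    · refine (e.fun_mul (((d'.fun_add (c'.const_mul Complex.I)).fun_mul a).fun_add
        ((c'.const_mul Complex.I).fun_mul b))).congr_deriv ?_
      rw [hq2]
      generalize Complex.exp (H (pth φ1 s)) = E
      generalize qh ω j (pth φ1 s) = q
      generalize eh ω j (pth φ1 s) = η
      generalize wbr2_L j (pth φ1 s) = L
      generalize psi ω j (Complex.cos (pth φ1 s) ^ 2) = ψ
      linear_combination (E * φ1 * (1 - Complex.I) * q ^ 2 * A s * (1 + ψ)) *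
        Complex.I_mul_I
  · simp only [p0, u0, hH0, hs.1]; simp
  · simp only [p0, w0, hH0, hs.1, hs.2.1]; simp

theorem wbr2_real {m ω φ1 R α β : ℝ} (hm : m < 1) {u y f1 f2 : ℂ → ℂ} (h0 : 0 < φ1)
    (hR : φ1 < R)
    (h : ∀ z ∈ Metric.ball (0 : ℂ) R, HasDerivAt u (f1 z * y z) z ∧ HasDerivAt y (f2 z * u z) z)
    (e1 : ∀ t : ℝ, f1 t = cA m ω t) (e2 : ∀ t : ℝ, f2 t = -cB m ω t)
    (u0 : u 0 = α) (y0 : y 0 = Complex.I * β) :
    u φ1 = α * sx m ω (π / 2) φ1 + Complex.I * (β * sx m ω 0 φ1) ∧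
      y φ1 = α * sy m ω (π / 2) φ1 + Complex.I * (β * sy m ω 0 φ1) := by
  have hl : ∀ s : ℝ, HasDerivAt (fun s : ℝ => φ1 * s) φ1 s := fun s => by
    simpa using (hasDerivAt_id s).const_mul φ1
  have hre : ∀ {g : ℝ → ℝ} {g' s : ℝ}, HasDerivAt g g' (φ1 * s) →
      HasDerivAt (fun s : ℝ => ((g (φ1 * s) : ℝ) : ℂ)) ((g' * φ1 : ℝ) : ℂ) s :=
    fun {g g' s} hg => (HasDerivAt.comp s (h₂ := g) hg (hl s)).ofReal_comp
  have hco : ∀ {F : ℂ → ℂ} {F' : ℂ} {s : ℝ}, HasDerivAt F F' ((φ1 * s : ℝ) : ℂ) →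
      HasDerivAt (fun s : ℝ => F ((φ1 * s : ℝ) : ℂ)) (F' * φ1) s := fun {F F' s} hF => by
    have hp : HasDerivAt (fun z : ℂ => (φ1 : ℂ) * z) φ1 (s : ℂ) := by
      simpa using (hasDerivAt_id (s : ℂ)).const_mul (φ1 : ℂ)
    push_cast at hF ⊢
    exact (HasDerivAt.comp (s : ℂ) (h₂ := F) hF hp).comp_ofReal
  have hA := cA_cont hm ω
  have hB := cB_cont hm ω
  have key := ode_uniq (a11 := fun _ => 0) (a12 := fun s => (cA m ω (φ1 * s) : ℂ) * φ1)
    (a21 := fun s => -(cB m ω (φ1 * s) : ℂ) * φ1) (a22 := fun _ => 0)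
    (x := fun s => u ((φ1 * s : ℝ) : ℂ)) (y := fun s => y ((φ1 * s : ℝ) : ℂ))
    (x' := fun s => α * (sx m ω (π / 2) (φ1 * s) : ℂ) + Complex.I * (β * sx m ω 0 (φ1 * s)))
    (y' := fun s => α * (sy m ω (π / 2) (φ1 * s) : ℂ) + Complex.I * (β * sy m ω 0 (φ1 * s)))
    continuousOn_const (by fun_prop) (by fun_prop) continuousOn_const ?_ ?_ ?_ ?_ 1
    ⟨zero_le_one, le_rfl⟩
  · simpa only [mul_one] using key
  · intro s hs
    have hmem : ((φ1 * s : ℝ) : ℂ) ∈ Metric.ball (0 : ℂ) R := by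
      rw [mem_ball_zero_iff, Complex.norm_real, Real.norm_eq_abs,
        abs_of_nonneg (mul_nonneg h0.le hs.1)]
      nlinarith [hs.2]
    obtain ⟨a, b⟩ := h _ hmem
    rw [e1] at a
    rw [e2] at b
    constructor
    · refine ((hco a).hasDerivWithinAt).congr_deriv ?_
      ring
    · refine ((hco b).hasDerivWithinAt).congr_deriv ?_
      ring
  · intro s hs
    obtain ⟨a, b⟩ := s_lin hm ω (π / 2) (φ1 * s)
    obtain ⟨c, d⟩ := s_lin hm ω 0 (φ1 * s)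
    constructor
    · refine ((((hre a).const_mul (α : ℂ)).fun_add
        (((hre c).const_mul (β : ℂ)).const_mul Complex.I)).hasDerivWithinAt).congr_deriv ?_
      push_cast
      ring
    · refine ((((hre b).const_mul (α : ℂ)).fun_add
        (((hre d).const_mul (β : ℂ)).const_mul Complex.I)).hasDerivWithinAt).congr_deriv ?_
      push_cast
      ring
  · simp [u0, sx_zero hm]
  · simp [y0, sy_zero hm]

/-- real values on the imaginary axis -/
theorem wbr2_imag {ω j : ℝ} (hω : 0 < ω) (hj : 0 < j) (hj2 : j < 1 / 2) (s : ℝ) :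
    ∃ a b c d : ℝ, wbr2_r j (Complex.I * s) = a ∧ PP ω j (Complex.cos (Complex.I * s) ^ 2) = b ∧
      qh ω j (Complex.I * s) = c ∧ eh ω j (Complex.I * s) = Complex.I * d := by
  have hc : Complex.cos (Complex.I * s) = (cosh s : ℝ) := by
    rw [mul_comm, Complex.cos_mul_I]; simp
  have hsn : Complex.sin (Complex.I * s) = Complex.I * (sinh s : ℝ) := by
    rw [mul_comm, Complex.sin_mul_I]; simp [mul_comm]
  have hk : 0 < 1 - 2 * j := by linarith
  have hk' : 0 < 1 - j := by linarith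
  have hP : PP ω j (Complex.cos (Complex.I * s) ^ 2) =
      ((ω * j + (1 - 2 * j) * cosh s ^ 2 : ℝ) : ℂ) := by
    rw [hc, PP]; push_cast; ring
  have hQ : QQ j (Complex.cos (Complex.I * s) ^ 2) =
      ((1 + (1 - 2 * j) * cosh s ^ 2 : ℝ) : ℂ) := by
    rw [hc, QQ]; push_cast; ring
  refine ⟨√((1 + (1 - 2 * j) * cosh s ^ 2) / (2 * (1 - j))), _,
    √(2 * ω * (ω * j + (1 - 2 * j) * cosh s ^ 2) / (1 + (1 - 2 * j) * cosh s ^ 2)),
    (1 - 2 * j) * cosh s * sinh s / (2 * (ω * j + (1 - 2 * j) * cosh s ^ 2)), ?_, hP, ?_, ?_⟩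
  · rw [← wbr2_sqrt_real (by positivity), wbr2_r, hQ]
    congr 1
    push_cast
    ring
  · rw [← wbr2_sqrt_real (by positivity), qh, q2, hP, hQ]
    congr 1
    push_cast
    ring
  · rw [eh, hP, hc, hsn]
    push_cast
    ring

theorem bridge {δ ω φ1 : ℝ} {A B : ℝ → ℂ} {k z : ℂ} (hδ : 0 < δ) (hω : 0 < ω) (h0 : 0 < φ1)
    (h1 : φ1 ≤ π / 2) (hg : ∀ s ∈ Icc (0 : ℝ) 1, 0 < (gp φ1 ω (jj δ) s).re)
    (hs : RicSol (gp φ1 ω (jj δ)) (fun s => psi ω (jj δ) (pX φ1 s)) A B)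
    (hk : A 1 = Complex.exp k) (hz : B 1 = z * A 1) : Br φ1 δ ω k z := by
  obtain ⟨hj, hj2⟩ := jj_bd hδ
  obtain ⟨R, hR, hd⟩ := disc_ex hω hj hj2
  obtain ⟨H, hH0, hH, hHim⟩ := prim hω hj hj2 h0 h1 hR hd
  have hm := mm_lt_one δ
  have hω' : (ω : ℂ) ≠ 0 := by exact_mod_cast hω.ne'
  have hj' : (1 - (jj δ : ℂ)) ≠ 0 := by
    have : (1 - jj δ : ℝ) ≠ 0 := by linarith
    exact_mod_cast this
  have hrr : ∀ t : ℝ, wbr2_r (jj δ) t = pm (mm δ) t := fun t => by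
    rw [pm, ← wbr2_sqrt_real (Dm_pos hm t).le, wbr2_r, (real_axis hω hj hj2).2.2.2.2.1,
      (cA_cB hδ hω t).2.2.1]
    congr 1
    push_cast
    ring
  obtain ⟨f1, hf1⟩ : ∃ f1 : ℂ → ℂ, f1 = fun φ => (ω : ℂ) / wbr2_r (jj δ) φ := ⟨_, rfl⟩
  obtain ⟨f2, hf2⟩ : ∃ f2 : ℂ → ℂ, f2 = fun φ =>
    -(PP ω (jj δ) (Complex.cos φ ^ 2) / (1 - (jj δ : ℂ)) / wbr2_r (jj δ) φ) := ⟨_, rfl⟩
  have e1 : ∀ t : ℝ, f1 t = cA (mm δ) ω t := fun t => by
    simp only [hf1, hrr, cA]; push_cast; ring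
  have e2 : ∀ t : ℝ, f2 t = -cB (mm δ) ω t := fun t => by
    simp only [hf2, hrr, cB, (cA_cB hδ hω t).2.2.2, (real_axis hω hj hj2).2.2.2.1]
    push_cast; ring
  have d1 : ∀ φ ∈ Metric.ball (0 : ℂ) R, HasDerivAt f1 (-wbr2_L (jj δ) φ * f1 φ) φ := by
    intro φ hφ
    obtain ⟨a, b⟩ := wbr2_r_deriv hj2 (hd φ hφ).2.1
    rw [hf1]
    refine ((hasDerivAt_const φ (ω : ℂ)).fun_div a b).congr_deriv ?_
    field_simp
    ring
  have D1 : DifferentiableOn ℂ f1 (Metric.ball 0 R) :=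
    fun φ hφ => (d1 φ hφ).differentiableAt.differentiableWithinAt
  have D2 : DifferentiableOn ℂ f2 (Metric.ball 0 R) := by
    intro φ hφ
    obtain ⟨a, b⟩ := wbr2_r_deriv hj2 (hd φ hφ).2.1
    rw [hf2]
    refine (DifferentiableAt.fun_neg (DifferentiableAt.fun_div ?_ a.differentiableAt
      b)).differentiableWithinAt
    unfold PP
    fun_prop
  have n1 : ∀ φ ∈ Metric.ball (0 : ℂ) R, f1 φ ≠ 0 := fun φ hφ => by
    rw [hf1]; exact div_ne_zero hω' (wbr2_r_deriv hj2 (hd φ hφ).2.1).2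
  have pr12 : ∀ φ ∈ Metric.ball (0 : ℂ) R, f1 φ * f2 φ = -q2 ω (jj δ) φ := fun φ hφ => by
    have b := (wbr2_r_deriv hj2 (hd φ hφ).2.1).2
    have hQ := Complex.slitPlane_ne_zero (hd φ hφ).2.1
    have hsq : wbr2_r (jj δ) φ ^ 2 =
      QQ (jj δ) (Complex.cos φ ^ 2) / (2 * (1 - (jj δ : ℂ))) := csqrt_sq _
    have : f1 φ * f2 φ = -(ω * PP ω (jj δ) (Complex.cos φ ^ 2) / (1 - (jj δ : ℂ)) /
        wbr2_r (jj δ) φ ^ 2) := by
      simp only [hf1, hf2]; field_simp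
    rw [this, hsq, q2]
    field_simp
  have hφR : φ1 < R := lt_of_le_of_lt h1 hR
  have hp : Complex.I * φ1 ∈ Metric.ball (0 : ℂ) R := by
    simpa [abs_of_pos h0] using hφR
  have hp1 : (φ1 : ℂ) ∈ Metric.ball (0 : ℂ) R := by
    simpa [abs_of_pos h0] using hφR
  obtain ⟨u, y, u0, y0, huy⟩ := hol_sol D1 D2 hp 1
    ((eh ω (jj δ) (Complex.I * φ1) + Complex.I * qh ω (jj δ) (Complex.I * φ1)) /
      f1 (Complex.I * φ1))
  obtain ⟨U, W⟩ := wbr2_path (u := u) (w := fun φ => f1 φ * y φ) hω hj hj2 h0 h1 hR hd hg hs hH0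
    hH (fun φ hφ => ⟨(huy φ hφ).1, by
      refine ((d1 φ hφ).fun_mul (huy φ hφ).2).congr_deriv ?_
      rw [← pr12 φ hφ]
      ring⟩) u0 (by
      simp only [y0]
      field_simp [n1 _ hp])
  obtain ⟨i1, i2⟩ := imag_axis h0.le hφR D1 D2 huy
    (fun s _ => by
      obtain ⟨a, b, c, d, ha, -, -, -⟩ := wbr2_imag hω hj hj2 s
      simp only [hf1, ha]
      norm_cast)
    (fun s _ => by
      obtain ⟨a, b, c, d, ha, hb, -, -⟩ := wbr2_imag hω hj hj2 s
      simp only [hf2, ha, hb]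
      norm_cast)
    (by simp [u0])
    (by
      obtain ⟨a, b, c, d, ha, -, hc, hd⟩ := wbr2_imag hω hj hj2 φ1
      simp only [y0, hf1, ha, hc, hd]
      have : (Complex.I * d + Complex.I * c) / ((ω : ℂ) / a) =
          Complex.I * (((d + c) / (ω / a) : ℝ) : ℂ) := by push_cast; ring
      rw [this]
      simp only [Complex.mul_re, Complex.I_re, Complex.I_im, Complex.ofReal_im]
      ring)
  obtain ⟨X, Y⟩ := wbr2_real (α := (u 0).re) (β := (y 0).im) hm h0 hφR huy e1 e2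
    (Complex.ext (by simp) (by simp [i1])) (Complex.ext (by simp [i2]) (by simp))
  obtain ⟨-, -, -, -, -, hq, he⟩ := real_axis (φ := φ1) hω hj hj2
  have hE : Complex.exp (H φ1) * Complex.exp k = (exp ((H φ1 + k).re) : ℝ) *
      Complex.exp (Complex.I * (ph0 φ1 ω (jj δ) k : ℝ)) := by
    rw [← Complex.exp_add, Complex.ofReal_exp, ← Complex.exp_add]
    congr 1
    apply Complex.ext
    · simp
    · simp only [Complex.add_im, Complex.ofReal_im, Complex.mul_im, Complex.I_re, Complex.I_im,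
        Complex.ofReal_re, ph0, hHim]
      ring
  have hE0 : ((exp ((H φ1 + k).re) : ℝ) : ℂ) ≠ 0 := by exact_mod_cast (exp_pos _).ne'
  have hA0 : ((cA (mm δ) ω φ1 : ℝ) : ℂ) ≠ 0 := by exact_mod_cast (cA_cB hδ hω φ1).1.ne'
  rw [hk, hE] at U
  simp only [e1] at W
  rw [hz, hk, hq, he] at W
  refine ⟨(u 0).re / exp ((H φ1 + k).re), (y 0).im / exp ((H φ1 + k).re), ?_, ?_⟩
  · rw [X] at U
    generalize exp ((H φ1 + k).re) = E at *
    push_cast
    field_simp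
    linear_combination U
  · rw [Y] at W
    rw [etaC]
    generalize exp ((H φ1 + k).re) = E at *
    push_cast
    field_simp
    linear_combination W + (er ω (jj δ) φ1 + Complex.I * qr ω (jj δ) φ1 * (1 + z)) * hE

end Pool.Agent.HillD
end

-- part Pool.Agent.P.MP_ae2765_an.WRic
section

/-! The Riccati lemma. -/

namespace Pool.Agent.HillD
open Real Set Filter Topology Asymptotics

lemma wric_ici {E : Type} [NormedAddCommGroup E] [NormedSpace ℝ E] {f : ℝ → E} {v : E}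
    {a b s : ℝ} (h : HasDerivWithinAt f v (Icc a b) s) (hs : s ∈ Ico a b) :
    HasDerivWithinAt f v (Ici s) s :=
  h.mono_of_mem_nhdsWithin (Icc_mem_nhdsGE_of_mem hs)

lemma wric_ioi {E : Type} [NormedAddCommGroup E] [NormedSpace ℝ E] {f : ℝ → E} {v : E}
    {a b s : ℝ} (h : HasDerivWithinAt f v (Icc a b) s) (hs : s ∈ Ioo a b) :
    HasDerivWithinAt f v (Ioi s) s :=
  (wric_ici h (Ioo_subset_Ico_self hs)).mono Ioi_subset_Ici_self

/-- the solution does not vanish -/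
lemma wric_ne {g ψ A B : ℝ → ℂ} (hg : ContinuousOn g (Icc 0 1)) (hψ : ContinuousOn ψ (Icc 0 1))
    (hs : RicSol g ψ A B) {t : ℝ} (ht : t ∈ Icc (0 : ℝ) 1) (hA : A t = 0) (hB : B t = 0) :
    False := by
  obtain ⟨h0, -, hd⟩ := hs
  obtain ⟨M, hM⟩ := isCompact_Icc.exists_bound_of_continuousOn hg
  obtain ⟨M', hM'⟩ := isCompact_Icc.exists_bound_of_continuousOn hψ
  have hM0 : 0 ≤ M := (norm_nonneg _).trans (hM t ht)
  have hM0' : 0 ≤ M' := (norm_nonneg _).trans (hM' t ht)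
  have hmap : MapsTo (fun u : ℝ => t - u) (Icc 0 t) (Icc 0 1) := fun u hu =>
    ⟨by linarith [hu.2], by linarith [hu.1, ht.2]⟩
  have hder : ∀ u ∈ Icc (0 : ℝ) t, HasDerivWithinAt (fun u : ℝ => (A (t - u), B (t - u)))
      ((-1 : ℝ) • (g (t - u) * (B (t - u) - ψ (t - u) * A (t - u) / 2),
        g (t - u) * (ψ (t - u) * A (t - u) - 2 * B (t - u) - ψ (t - u) * B (t - u) / 2)))
      (Icc 0 t) u := by
    intro u hu
    have h1 := ((hd _ (hmap hu)).1.prodMk (hd _ (hmap hu)).2)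
    have h2 : HasDerivWithinAt (fun u : ℝ => t - u) (-1) (Icc 0 t) u := by
      simpa using ((hasDerivAt_id u).const_sub t).hasDerivWithinAt
    exact h1.scomp u h2 hmap
  have key := eq_zero_of_abs_deriv_le_mul_abs_self_of_eq_zero_right (K := M * (2 + 2 * M'))
    (fun u hu => (hder u hu).continuousWithinAt)
    (fun u hu => wric_ici (hder u (Ico_subset_Icc_self hu)) hu) (by simp [hA, hB]) ?_ t
    ⟨ht.1, le_rfl⟩
  · simp only [sub_self, Prod.mk_eq_zero] at key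
    rw [h0] at key
    exact one_ne_zero key.1
  · intro u hu
    have hu' := hmap (Ico_subset_Icc_self hu)
    have g1 := hM _ hu'
    have g2 := hM' _ hu'
    generalize g (t - u) = G at g1 ⊢
    generalize ψ (t - u) = P at g2 ⊢
    generalize A (t - u) = x
    generalize B (t - u) = y
    have hx : ‖x‖ ≤ ‖(x, y)‖ := norm_fst_le (x, y)
    have hy : ‖y‖ ≤ ‖(x, y)‖ := norm_snd_le (x, y)
    have hn := norm_nonneg (x, y)
    generalize ‖(x, y)‖ = r at hx hy hn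
    have px : ‖P * x‖ ≤ M' * r := by
      rw [norm_mul]; exact mul_le_mul g2 hx (norm_nonneg _) hM0'
    have py : ‖P * y‖ ≤ M' * r := by
      rw [norm_mul]; exact mul_le_mul g2 hy (norm_nonneg _) hM0'
    have hr : 0 ≤ M' * r := mul_nonneg hM0' hn
    rw [norm_smul, norm_neg, norm_one, one_mul, Prod.norm_def, max_le_iff, norm_mul, norm_mul,
      mul_assoc]
    constructor
    · refine mul_le_mul g1 ?_ (norm_nonneg _) hM0
      have := norm_sub_le y (P * x / 2)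
      rw [norm_div, Complex.norm_two] at this
      linarith
    · refine mul_le_mul g1 ?_ (norm_nonneg _) hM0
      have a1 := norm_sub_le (P * x - 2 * y) (P * y / 2)
      have a2 := norm_sub_le (P * x) (2 * y)
      rw [norm_div, Complex.norm_two] at a1
      rw [norm_mul 2 y, Complex.norm_two] at a2
      linarith

lemma wric_pt {z g ψ : ℂ} {c γ bb : ℝ} (hz : ‖z‖ ≤ bb) (hre : c * ‖g‖ ≤ g.re)
    (hγc : γ + bb ≤ 2 * c) :
    inner ℝ z (g * (ψ - 2 * z - z ^ 2)) ≤ ‖g‖ * ‖z‖ * (‖ψ‖ - γ * ‖z‖) := by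
  have e : inner ℝ z (g * (ψ - 2 * z - z ^ 2))
      = (g * ψ * (starRingEnd ℂ) z).re - 2 * ‖z‖ ^ 2 * g.re - ‖z‖ ^ 2 * (g * z).re := by
    rw [Complex.inner, Complex.sq_norm, Complex.normSq_apply]
    simp only [pow_two, Complex.mul_re, Complex.mul_im, Complex.sub_re, Complex.sub_im,
      Complex.conj_re, Complex.conj_im, Complex.re_ofNat, Complex.im_ofNat]
    ring
  have h1 : (g * ψ * (starRingEnd ℂ) z).re ≤ ‖g‖ * ‖ψ‖ * ‖z‖ := by
    refine (Complex.re_le_norm _).trans (le_of_eq ?_)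
    rw [norm_mul, norm_mul, Complex.norm_conj]
  have h2 : -(‖g‖ * ‖z‖) ≤ (g * z).re := by
    have := Complex.abs_re_le_norm (g * z)
    rw [norm_mul] at this
    exact (abs_le.1 this).1
  have h3 : ‖g‖ * ‖z‖ ≤ ‖g‖ * bb := mul_le_mul_of_nonneg_left hz (norm_nonneg _)
  have h4 : ‖g‖ * (γ + bb) ≤ ‖g‖ * (2 * c) := mul_le_mul_of_nonneg_left hγc (norm_nonneg _)
  have h5 : γ * ‖g‖ ≤ 2 * g.re + (g * z).re := by linarith
  have h6 := mul_le_mul_of_nonneg_left h5 (sq_nonneg ‖z‖)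
  rw [e]
  nlinarith

lemma wric_id (z a g ψ : ℂ) :
    inner ℝ (z * a) (g * (ψ * a - 2 * (z * a) - ψ * (z * a) / 2))
      - ‖z‖ ^ 2 * inner ℝ a (g * (z * a - ψ * a / 2))
      = ‖a‖ ^ 2 * inner ℝ z (g * (ψ - 2 * z - z ^ 2)) := by
  simp only [Complex.inner, Complex.sq_norm, Complex.normSq_apply]
  simp only [pow_two, Complex.mul_re, Complex.mul_im, Complex.sub_re, Complex.sub_im,
    Complex.conj_re, Complex.conj_im, Complex.re_ofNat, Complex.im_ofNat, Complex.div_ofNat_re,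
    Complex.div_ofNat_im]
  ring

/-- the barrier -/
lemma wric_bar {g ψ A B : ℝ → ℂ} {b b' : ℝ → ℝ} {c γ bb : ℝ}
    (hg : ContinuousOn g (Icc 0 1)) (hψ : ContinuousOn ψ (Icc 0 1)) (hs : RicSol g ψ A B)
    (hre : ∀ s ∈ Icc (0 : ℝ) 1, c * ‖g s‖ ≤ (g s).re)
    (hb : ∀ s ∈ Icc (0 : ℝ) 1, HasDerivAt b (b' s) s ∧ 0 < b s ∧ b s ≤ bb)
    (hbar : ∀ s ∈ Icc (0 : ℝ) 1, ‖g s‖ * (‖ψ s‖ - γ * b s) < b' s)
    (hγc : γ + bb ≤ 2 * c) : ∀ s ∈ Icc (0 : ℝ) 1, A s ≠ 0 ∧ ‖B s / A s‖ ≤ b s := by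
  have hne := fun t ht => wric_ne hg hψ hs (t := t) ht
  obtain ⟨h0, h0', hd⟩ := hs
  have hder : ∀ s ∈ Icc (0 : ℝ) 1, HasDerivWithinAt (fun s => ‖B s‖ ^ 2 - b s ^ 2 * ‖A s‖ ^ 2)
      (2 * inner ℝ (B s) (g s * (ψ s * A s - 2 * B s - ψ s * B s / 2))
        - (2 * b s * b' s * ‖A s‖ ^ 2
          + b s ^ 2 * (2 * inner ℝ (A s) (g s * (B s - ψ s * A s / 2))))) (Icc 0 1) s := by
    intro s hs
    have h1 : HasDerivWithinAt (fun s => b s ^ 2) (2 * b s * b' s) (Icc 0 1) s := by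
      simpa using ((hb s hs).1.fun_pow 2).hasDerivWithinAt
    exact (hd s hs).2.norm_sq.fun_sub (h1.fun_mul (hd s hs).1.norm_sq)
  have key := image_le_of_deriv_right_lt_deriv_boundary (B := fun _ => (0 : ℝ))
    (B' := fun _ => (0 : ℝ)) (fun s hs => (hder s hs).continuousWithinAt)
    (fun s hs => wric_ici (hder s (Ico_subset_Icc_self hs)) hs)
    (by simp [h0, h0', sq_nonneg]) (fun x => hasDerivAt_const x 0) ?_
  · intro s hs
    have h1 := key hs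
    have hA : A s ≠ 0 := by
      intro hA
      refine hne s hs hA ?_
      simp only [hA, norm_zero] at h1
      have : ‖B s‖ ^ 2 = 0 := le_antisymm (by linarith) (sq_nonneg _)
      simpa using this
    refine ⟨hA, ?_⟩
    rw [norm_div, div_le_iff₀ (norm_pos_iff.2 hA)]
    refine (pow_le_pow_iff_left₀ (norm_nonneg _)
      (mul_nonneg (hb s hs).2.1.le (norm_nonneg _)) two_ne_zero).1 ?_
    rw [mul_pow]
    linarith
  · intro s hs' h1
    have hs := Ico_subset_Icc_self hs'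
    have hA : A s ≠ 0 := by
      intro hA
      refine hne s hs hA ?_
      simp only [hA, norm_zero] at h1
      have : ‖B s‖ ^ 2 = 0 := by linarith
      simpa using this
    obtain ⟨z, hz⟩ : ∃ z, B s = z * A s := ⟨B s / A s, by field_simp⟩
    have hA' : 0 < ‖A s‖ := norm_pos_iff.2 hA
    have hb0 := (hb s hs).2.1
    have hzb : ‖z‖ = b s := by
      refine (pow_left_inj₀ (norm_nonneg _) hb0.le two_ne_zero).1 ?_
      refine mul_right_cancel₀ (pow_pos hA' 2).ne' ?_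
      rw [hz, norm_mul, mul_pow] at h1
      linarith
    have e := wric_id z (A s) (g s) (ψ s)
    have p := wric_pt (ψ := ψ s) (hzb.le.trans (hb s hs).2.2) (hre s hs) hγc
    rw [hzb] at e p
    have q := mul_lt_mul_of_pos_left (hbar s hs) hb0
    have r : inner ℝ z (g s * (ψ s - 2 * z - z ^ 2)) < b s * b' s := by linarith
    have r' := mul_lt_mul_of_pos_left r (pow_pos hA' 2)
    show _ < (0 : ℝ)
    rw [hz]
    linarith

theorem ric {g ψ A B : ℝ → ℂ} {b b' : ℝ → ℝ} {c γ bb N : ℝ}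
    (hg : ContinuousOn g (Icc 0 1)) (hψ : ContinuousOn ψ (Icc 0 1)) (hs : RicSol g ψ A B)
    (hre : ∀ s ∈ Icc (0 : ℝ) 1, c * ‖g s‖ ≤ (g s).re)
    (hb : ∀ s ∈ Icc (0 : ℝ) 1, HasDerivAt b (b' s) s ∧ 0 < b s ∧ b s ≤ bb)
    (hbar : ∀ s ∈ Icc (0 : ℝ) 1, ‖g s‖ * (‖ψ s‖ - γ * b s) < b' s)
    (hγ : 0 < γ) (hγc : γ + bb ≤ 2 * c) (hN : ∫ s in (0 : ℝ)..1, ‖ψ s‖ ^ 2 * ‖g s‖ ≤ N) :
    (∀ s ∈ Icc (0 : ℝ) 1, A s ≠ 0) ∧
      A 1 = Complex.exp (∫ s in (0 : ℝ)..1, g s * (B s / A s - ψ s / 2)) ∧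
      ‖B 1 / A 1‖ ≤ b 1 ∧
      ‖(∫ s in (0 : ℝ)..1, g s * (B s / A s - ψ s / 2)) + B 1 / A 1 / 2‖ ≤ N / (2 * γ ^ 2) := by
  have hbr := wric_bar hg hψ hs hre hb hbar hγc
  obtain ⟨h0, h0', hd⟩ := hs
  have h01 : (0 : ℝ) ≤ 1 := zero_le_one
  have one_mem : (1 : ℝ) ∈ Icc (0 : ℝ) 1 := ⟨h01, le_rfl⟩
  obtain ⟨z, hz⟩ : ∃ z : ℝ → ℂ, z = fun s => B s / A s := ⟨_, rfl⟩
  have hz' : ∀ s, B s / A s = z s := fun s => by rw [hz]
  have hz0 : z 0 = 0 := by rw [← hz', h0', zero_div]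
  have dz : ∀ s ∈ Icc (0 : ℝ) 1,
      HasDerivWithinAt z (g s * (ψ s - 2 * z s - z s ^ 2)) (Icc 0 1) s := by
    intro s hs
    have hA := (hbr s hs).1
    have h1 := (hd s hs).2.fun_div (hd s hs).1 hA
    rw [← hz] at h1
    refine h1.congr_deriv ?_
    rw [← hz']
    field_simp
    ring
  have cz : ContinuousOn z (Icc 0 1) := fun s hs => (dz s hs).continuousWithinAt
  have ch : ContinuousOn (fun s => g s * (z s - ψ s / 2)) (Icc 0 1) :=
    hg.mul (cz.sub (hψ.div_const 2))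
  simp only [hz'] at hbr ⊢
  refine ⟨fun s hs => (hbr s hs).1, ?_, (hbr 1 one_mem).2, ?_⟩
  · obtain ⟨h, hc, hh⟩ : ∃ h : ℝ → ℂ, Continuous h ∧
        ∀ s ∈ Icc (0 : ℝ) 1, h s = g s * (z s - ψ s / 2) :=
      ⟨IccExtend h01 ((Icc (0 : ℝ) 1).domRestrict fun s => g s * (z s - ψ s / 2)),
        ch.domRestrict.Icc_extend', fun s hs => by rw [IccExtend_of_mem h01 _ hs]; rfl⟩
    have dE : ∀ s ∈ Icc (0 : ℝ) 1, HasDerivWithinAt
        (fun u => A u * Complex.exp (-∫ x in (0 : ℝ)..u, h x)) 0 (Icc 0 1) s := by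
      intro s hs
      have h1 : HasDerivAt (fun u => ∫ x in (0 : ℝ)..u, h x) (h s) s :=
        (hc.integral_hasStrictDerivAt 0 s).hasDerivAt
      have h2 := (hd s hs).1.fun_mul h1.fun_neg.cexp.hasDerivWithinAt
      refine h2.congr_deriv ?_
      have hA := (hbr s hs).1
      rw [hh s hs, ← hz']
      field_simp
      ring
    have k := constant_of_has_deriv_right_zero (fun s hs => (dE s hs).continuousWithinAt)
      (fun s hs => wric_ici (dE s (Ico_subset_Icc_self hs)) hs) 1 one_mem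
    have e : ∫ x in (0 : ℝ)..1, h x = ∫ s in (0 : ℝ)..1, g s * (z s - ψ s / 2) :=
      intervalIntegral.integral_congr fun s hs => hh s (by rwa [uIcc_of_le h01] at hs)
    rw [intervalIntegral.integral_same, neg_zero, Complex.exp_zero, h0, mul_one, e,
      Complex.exp_neg] at k
    exact (mul_inv_eq_one₀ (Complex.exp_ne_zero _)).1 k
  · have cd : ContinuousOn (fun s => g s * (ψ s - 2 * z s - z s ^ 2)) (Icc 0 1) :=
      hg.mul ((hψ.sub (continuousOn_const.mul cz)).sub (cz.pow 2))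
    have e1 := intervalIntegral.integral_eq_sub_of_hasDeriv_right_of_le h01 cz
      (fun s hs => wric_ioi (dz s (Ioo_subset_Icc_self hs)) hs)
      (cd.intervalIntegrable_of_Icc h01)
    rw [hz0, sub_zero] at e1
    have e2 : (∫ s in (0 : ℝ)..1, g s * (z s - ψ s / 2)) + z 1 / 2
        = ∫ s in (0 : ℝ)..1, -(g s * z s ^ 2 / 2) := by
      rw [← e1, ← intervalIntegral.integral_div, ← intervalIntegral.integral_add
        (ch.intervalIntegrable_of_Icc h01) ((cd.div_const 2).intervalIntegrable_of_Icc h01)]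
      exact intervalIntegral.integral_congr fun s _ => by ring
    have c1 : ContinuousOn (fun s => ‖ψ s‖ ^ 2 * ‖g s‖) (Icc 0 1) := (hψ.norm.pow 2).mul hg.norm
    have c2 : ContinuousOn (fun s => ‖g s‖ * ‖z s‖ ^ 2) (Icc 0 1) := hg.norm.mul (cz.norm.pow 2)
    have e3 : ‖∫ s in (0 : ℝ)..1, -(g s * z s ^ 2 / 2)‖
        ≤ (∫ s in (0 : ℝ)..1, ‖g s‖ * ‖z s‖ ^ 2) / 2 := by
      refine (intervalIntegral.norm_integral_le_integral_norm h01).trans (le_of_eq ?_)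
      rw [← intervalIntegral.integral_div]
      refine intervalIntegral.integral_congr fun s _ => ?_
      simp only [norm_neg, norm_div, norm_mul, norm_pow, Complex.norm_two]
    have c3 : ContinuousOn (fun s => ‖ψ s‖ ^ 2 * ‖g s‖ / γ - γ * (‖g s‖ * ‖z s‖ ^ 2))
        (Icc 0 1) := (c1.div_const γ).sub (continuousOn_const.mul c2)
    have e4 := intervalIntegral.sub_le_integral_of_hasDeriv_right_of_le h01 (cz.norm.pow 2)
      (fun s hs => wric_ioi (dz s (Ioo_subset_Icc_self hs)).norm_sq hs)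
      (c3.integrableOn_Icc) (fun s hs => by
        have hs' := Ioo_subset_Icc_self hs
        have p := wric_pt (ψ := ψ s) ((hbr s hs').2.trans (hb s hs').2.2) (hre s hs') hγc
        have q : 0 ≤ ‖g s‖ * (‖ψ s‖ - γ * ‖z s‖) ^ 2 / γ := by positivity
        have r : ‖g s‖ * (‖ψ s‖ - γ * ‖z s‖) ^ 2 / γ = ‖ψ s‖ ^ 2 * ‖g s‖ / γ
            - γ * (‖g s‖ * ‖z s‖ ^ 2) - 2 * (‖g s‖ * ‖z s‖ * (‖ψ s‖ - γ * ‖z s‖)) := by
          field_simp
          ring
        linarith)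
    rw [intervalIntegral.integral_sub ((c1.div_const γ).intervalIntegrable_of_Icc h01)
      ((c2.intervalIntegrable_of_Icc h01).const_mul γ), intervalIntegral.integral_div,
      intervalIntegral.integral_const_mul] at e4
    simp only [Pi.pow_apply, hz0, norm_zero] at e4
    have e5 : (∫ s in (0 : ℝ)..1, ‖ψ s‖ ^ 2 * ‖g s‖) / γ ≤ N / γ :=
      div_le_div_of_nonneg_right hN hγ.le
    have e6 : γ * ∫ s in (0 : ℝ)..1, ‖g s‖ * ‖z s‖ ^ 2 ≤ N / γ := by
      nlinarith [sq_nonneg ‖z 1‖]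
    rw [e2]
    refine e3.trans ?_
    rw [le_div_iff₀ hγ] at e6
    rw [div_le_div_iff₀ two_pos (by positivity)]
    nlinarith

end Pool.Agent.HillD
end

-- part Pool.Agent.P.MP_ae2765_an.WPack
section

/-! The WKB data as holomorphic functions of the parameter. -/

namespace Pool.Agent.HillD
open Real Set Filter Topology Asymptotics

section cont
variable {α : Type} [TopologicalSpace α] {S : Set α} {Ω J X : α → ℂ}

theorem wpack_cP (hΩ : ContinuousOn Ω S) (hJ : ContinuousOn J S) (hX : ContinuousOn X S) :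
    ContinuousOn (fun p => PP (Ω p) (J p) (X p)) S := by
  unfold PP
  fun_prop

theorem wpack_cQ (hJ : ContinuousOn J S) (hX : ContinuousOn X S) :
    ContinuousOn (fun p => QQ (J p) (X p)) S := by
  unfold QQ
  fun_prop

theorem wpack_cpsi (hΩ : ContinuousOn Ω S) (hJ : ContinuousOn J S) (hX : ContinuousOn X S)
    (h0 : ∀ p ∈ S, Ω p ≠ 0) (hP : ∀ p ∈ S, PP (Ω p) (J p) (X p) ≠ 0) :
    ContinuousOn (fun p => psi (Ω p) (J p) (X p)) S := by
  have h1 := wpack_cP hΩ hJ hX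
  have h2 := wpack_cQ hJ hX
  unfold psi
  refine ContinuousOn.div (by fun_prop) (by fun_prop) fun p hp => ?_
  exact mul_ne_zero (mul_ne_zero (by norm_num) (h0 p hp)) (pow_ne_zero _ (hP p hp))

end cont

section diff
variable {S : Set ℂ} {Ω J : ℂ → ℂ} {X : ℂ}

theorem wpack_dP (hΩ : DifferentiableOn ℂ Ω S) (hJ : DifferentiableOn ℂ J S) :
    DifferentiableOn ℂ (fun p => PP (Ω p) (J p) X) S := by
  unfold PP
  fun_prop

theorem wpack_dQ (hJ : DifferentiableOn ℂ J S) :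
    DifferentiableOn ℂ (fun p => QQ (J p) X) S := by
  unfold QQ
  fun_prop

theorem wpack_dpsi (hΩ : DifferentiableOn ℂ Ω S) (hJ : DifferentiableOn ℂ J S)
    (h0 : ∀ p ∈ S, Ω p ≠ 0) (hP : ∀ p ∈ S, PP (Ω p) (J p) X ≠ 0) :
    DifferentiableOn ℂ (fun p => psi (Ω p) (J p) X) S := by
  have h1 := wpack_dP (X := X) hΩ hJ
  have h2 := wpack_dQ (X := X) hJ
  unfold psi
  refine DifferentiableOn.div (by fun_prop) (by fun_prop) fun p hp => ?_
  exact mul_ne_zero (mul_ne_zero (by norm_num) (h0 p hp)) (pow_ne_zero _ (hP p hp))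

end diff

theorem wpack_cX (φ1 : ℝ) : Continuous (pX φ1) := by
  unfold pX pth
  fun_prop

theorem wpack_ne {ω j φ : ℂ} (h : q2 ω j φ ∈ Complex.slitPlane) :
    PP ω j (Complex.cos φ ^ 2) ≠ 0 ∧ QQ j (Complex.cos φ ^ 2) ≠ 0 ∧ qh ω j φ ≠ 0 := by
  have h0 := Complex.slitPlane_ne_zero h
  refine ⟨fun e => h0 ?_, fun e => h0 ?_, fun e => h0 ?_⟩
  · unfold q2
    rw [e, mul_zero, zero_div]
  · unfold q2
    rw [e, div_zero]
  · rw [← csqrt_sq (q2 ω j φ)]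
    unfold qh at e
    rw [e]
    norm_num

theorem wpack_Tt {U : Set ℂ} (hU : IsOpen U) {Ω J : ℂ → ℂ} {φ1 : ℝ} (h0 : 0 < φ1)
    (hΩ : DifferentiableOn ℂ Ω U) (hJ : DifferentiableOn ℂ J U)
    (hs : ∀ τ ∈ U, ∀ φ ∈ Icc (0 : ℝ) φ1, q2 (Ω τ) (J τ) φ ∈ Complex.slitPlane) :
    DifferentiableOn ℂ (fun τ => Tt φ1 (Ω τ) (J τ)) U := by
  unfold Tt
  refine DifferentiableOn.neg (hol_int hU
    (F := fun τ φ => eh (Ω τ) (J τ) φ ^ 2 / (2 * qh (Ω τ) (J τ) φ)) h0.le ?_ ?_)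
  · have cΩ : ContinuousOn (fun p : ℂ × ℝ => Ω p.1) (U ×ˢ Icc 0 φ1) :=
      hΩ.continuousOn.comp continuous_fst.continuousOn fun p hp => hp.1
    have cJ : ContinuousOn (fun p : ℂ × ℝ => J p.1) (U ×ˢ Icc 0 φ1) :=
      hJ.continuousOn.comp continuous_fst.continuousOn fun p hp => hp.1
    have cX : ContinuousOn (fun p : ℂ × ℝ => Complex.cos p.2 ^ 2) (U ×ˢ Icc 0 φ1) := by fun_prop
    have cP := wpack_cP cΩ cJ cX
    have cQ := wpack_cQ cJ cX
    have ce : ContinuousOn (fun p : ℂ × ℝ => eh (Ω p.1) (J p.1) p.2) (U ×ˢ Icc 0 φ1) := by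
      unfold eh
      have c1 : Continuous fun p : ℂ × ℝ => Complex.cos p.2 := by fun_prop
      have c2 : Continuous fun p : ℂ × ℝ => Complex.sin p.2 := by fun_prop
      exact ContinuousOn.div (((continuousOn_const.sub (continuousOn_const.mul cJ)).mul
        c1.continuousOn).mul c2.continuousOn) (continuousOn_const.mul cP) fun p hp =>
        mul_ne_zero two_ne_zero (wpack_ne (hs p.1 hp.1 p.2 hp.2)).1
    have c2 : ContinuousOn (fun p : ℂ × ℝ => q2 (Ω p.1) (J p.1) p.2) (U ×ˢ Icc 0 φ1) := by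
      unfold q2
      exact ContinuousOn.div ((continuousOn_const.mul cΩ).mul cP) cQ fun p hp =>
        (wpack_ne (hs p.1 hp.1 p.2 hp.2)).2.1
    have cq : ContinuousOn (fun p : ℂ × ℝ => qh (Ω p.1) (J p.1) p.2) (U ×ˢ Icc 0 φ1) :=
      c2.cpow_const fun p hp => hs p.1 hp.1 p.2 hp.2
    exact ContinuousOn.div (ce.pow 2) (continuousOn_const.mul cq) fun p hp =>
      mul_ne_zero two_ne_zero (wpack_ne (hs p.1 hp.1 p.2 hp.2)).2.2
  · intro φ hφ
    have dP := wpack_dP (X := Complex.cos φ ^ 2) hΩ hJ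
    have dQ := wpack_dQ (X := Complex.cos φ ^ 2) hJ
    have de : DifferentiableOn ℂ (fun τ => eh (Ω τ) (J τ) φ) U := by
      unfold eh
      exact DifferentiableOn.div (by fun_prop) (by fun_prop) fun p hp =>
        mul_ne_zero two_ne_zero (wpack_ne (hs p hp φ hφ)).1
    have d2 : DifferentiableOn ℂ (fun τ => q2 (Ω τ) (J τ) φ) U := by
      unfold q2
      exact DifferentiableOn.div (by fun_prop) dQ fun p hp => (wpack_ne (hs p hp φ hφ)).2.1
    have dq : DifferentiableOn ℂ (fun τ => qh (Ω τ) (J τ) φ) U :=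
      d2.cpow_const fun p hp => hs p hp φ hφ
    exact DifferentiableOn.div (by fun_prop) (by fun_prop) fun p hp =>
      mul_ne_zero two_ne_zero (wpack_ne (hs p hp φ hφ)).2.2

theorem wpack_sl {U : Set ℂ} {F : ℂ → ℝ → ℂ}
    (h : ContinuousOn (fun p : ℂ × ℝ => F p.1 p.2) (U ×ˢ Icc 0 1)) {τ : ℂ} (hτ : τ ∈ U) :
    ContinuousOn (F τ) (Icc 0 1) :=
  ContinuousOn.comp (g := fun p : ℂ × ℝ => F p.1 p.2) (f := fun s : ℝ => (τ, s)) h
    (Continuous.prodMk_right τ).continuousOn fun _ hs => ⟨hτ, hs⟩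

theorem wpack_sol {U : Set ℂ} (hU : IsOpen U) {g ψ : ℂ → ℝ → ℂ}
    (cg : ContinuousOn (fun p : ℂ × ℝ => g p.1 p.2) (U ×ˢ Icc 0 1))
    (cψ : ContinuousOn (fun p : ℂ × ℝ => ψ p.1 p.2) (U ×ˢ Icc 0 1))
    (dg : ∀ s ∈ Icc (0 : ℝ) 1, DifferentiableOn ℂ (fun τ => g τ s) U)
    (dψ : ∀ s ∈ Icc (0 : ℝ) 1, DifferentiableOn ℂ (fun τ => ψ τ s) U) :
    ∃ A B : ℂ → ℝ → ℂ,
      ContinuousOn (fun p : ℂ × ℝ => A p.1 p.2) (U ×ˢ Icc 0 1) ∧
      ContinuousOn (fun p : ℂ × ℝ => B p.1 p.2) (U ×ˢ Icc 0 1) ∧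
      (∀ s ∈ Icc (0 : ℝ) 1, DifferentiableOn ℂ (fun τ => A τ s) U ∧
        DifferentiableOn ℂ (fun τ => B τ s) U) ∧ ∀ τ ∈ U, RicSol (g τ) (ψ τ) (A τ) (B τ) := by
  have c21 : ContinuousOn (fun p : ℂ × ℝ => g p.1 p.2 * ψ p.1 p.2) (U ×ˢ Icc 0 1) := cg.mul cψ
  have ch : ContinuousOn (fun p : ℂ × ℝ => g p.1 p.2 * ψ p.1 p.2 / 2) (U ×ˢ Icc 0 1) :=
    c21.div_const 2
  have c11 : ContinuousOn (fun p : ℂ × ℝ => -(g p.1 p.2 * ψ p.1 p.2 / 2)) (U ×ˢ Icc 0 1) :=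
    ch.neg
  have ct : ContinuousOn (fun p : ℂ × ℝ => 2 * g p.1 p.2) (U ×ˢ Icc 0 1) :=
    continuousOn_const.mul cg
  have c22 : ContinuousOn (fun p : ℂ × ℝ => -(2 * g p.1 p.2) - g p.1 p.2 * ψ p.1 p.2 / 2)
      (U ×ˢ Icc 0 1) := ct.neg.sub ch
  have d21 : ∀ s ∈ Icc (0 : ℝ) 1, DifferentiableOn ℂ (fun τ => g τ s * ψ τ s) U :=
    fun s hs => (dg s hs).mul (dψ s hs)
  have dh : ∀ s ∈ Icc (0 : ℝ) 1, DifferentiableOn ℂ (fun τ => g τ s * ψ τ s / 2) U :=
    fun s hs => (d21 s hs).div_const 2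
  have d11 : ∀ s ∈ Icc (0 : ℝ) 1, DifferentiableOn ℂ (fun τ => -(g τ s * ψ τ s / 2)) U :=
    fun s hs => (dh s hs).neg
  have dt : ∀ s ∈ Icc (0 : ℝ) 1, DifferentiableOn ℂ (fun τ => 2 * g τ s) U :=
    fun s hs => (dg s hs).const_mul 2
  have d22 : ∀ s ∈ Icc (0 : ℝ) 1,
      DifferentiableOn ℂ (fun τ => -(2 * g τ s) - g τ s * ψ τ s / 2) U :=
    fun s hs => (dt s hs).neg.sub (dh s hs)
  obtain ⟨A, B, cA', cB', dAB, hAB⟩ := hol_ode hU (a11 := fun τ s => -(g τ s * ψ τ s / 2))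
    (a12 := g) (a21 := fun τ s => g τ s * ψ τ s)
    (a22 := fun τ s => -(2 * g τ s) - g τ s * ψ τ s / 2) c11 cg c21 c22 d11 dg d21 d22 1 0
  refine ⟨A, B, cA', cB', dAB, fun τ hτ => ?_⟩
  obtain ⟨e1, e2, e3⟩ := hAB τ hτ
  refine ⟨e1, e2, fun s hs => ⟨?_, ?_⟩⟩
  · convert (e3 s hs).1 using 1
    ring
  · convert (e3 s hs).2 using 1
    ring

theorem wpack_abs {U : Set ℂ} (hU : IsOpen U) {g ψ : ℂ → ℝ → ℂ} {b b' : ℝ → ℝ} {c γ bb N : ℝ}
    (cg : ContinuousOn (fun p : ℂ × ℝ => g p.1 p.2) (U ×ˢ Icc 0 1))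
    (cψ : ContinuousOn (fun p : ℂ × ℝ => ψ p.1 p.2) (U ×ˢ Icc 0 1))
    (dg : ∀ s ∈ Icc (0 : ℝ) 1, DifferentiableOn ℂ (fun τ => g τ s) U)
    (dψ : ∀ s ∈ Icc (0 : ℝ) 1, DifferentiableOn ℂ (fun τ => ψ τ s) U)
    (hre : ∀ τ ∈ U, ∀ s ∈ Icc (0 : ℝ) 1, c * ‖g τ s‖ ≤ (g τ s).re)
    (hb : ∀ s ∈ Icc (0 : ℝ) 1, HasDerivAt b (b' s) s ∧ 0 < b s ∧ b s ≤ bb)
    (hbar : ∀ τ ∈ U, ∀ s ∈ Icc (0 : ℝ) 1, ‖g τ s‖ * (‖ψ τ s‖ - γ * b s) < b' s)
    (hγ : 0 < γ) (hγc : γ + bb ≤ 2 * c)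
    (hN : ∀ τ ∈ U, ∫ s in (0 : ℝ)..1, ‖ψ τ s‖ ^ 2 * ‖g τ s‖ ≤ N) :
    ∃ k z : ℂ → ℂ, DifferentiableOn ℂ k U ∧ DifferentiableOn ℂ z U ∧
      ∀ τ ∈ U, ‖z τ‖ ≤ b 1 ∧ ‖k τ + z τ / 2‖ ≤ N / (2 * γ ^ 2) ∧
        ∃ A B : ℝ → ℂ, RicSol (g τ) (ψ τ) A B ∧ A 1 = Complex.exp (k τ) ∧ B 1 = z τ * A 1 := by
  obtain ⟨A, B, cA', cB', dAB, hsol⟩ := wpack_sol hU cg cψ dg dψ
  have hric := fun τ (hτ : τ ∈ U) => ric (wpack_sl cg hτ) (wpack_sl cψ hτ) (hsol τ hτ)
    (hre τ hτ) hb (hbar τ hτ) hγ hγc (hN τ hτ)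
  have one : (1 : ℝ) ∈ Icc (0 : ℝ) 1 := ⟨zero_le_one, le_rfl⟩
  refine ⟨fun τ => ∫ s in (0 : ℝ)..1, g τ s * (B τ s / A τ s - ψ τ s / 2),
    fun τ => B τ 1 / A τ 1, ?_, ?_, fun τ hτ => ⟨(hric τ hτ).2.2.1, (hric τ hτ).2.2.2,
      A τ, B τ, hsol τ hτ, (hric τ hτ).2.1, (div_mul_cancel₀ _ ((hric τ hτ).1 1 one)).symm⟩⟩
  · refine hol_int hU (F := fun τ s => g τ s * (B τ s / A τ s - ψ τ s / 2)) zero_le_one ?_ ?_
    · exact cg.mul ((cB'.div cA' fun p hp => (hric p.1 hp.1).1 p.2 hp.2).sub (cψ.div_const 2))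
    · intro s hs
      exact (dg s hs).mul (((dAB s hs).2.div (dAB s hs).1 fun p hp => (hric p hp).1 s hs).sub
        ((dψ s hs).div_const 2))
  · exact (dAB 1 one).2.div (dAB 1 one).1 fun p hp => (hric p hp).1 1 one

theorem pack {Ω J : ℂ → ℂ} {φ1 r κ0 c γ bb N T : ℝ} {b b' : ℝ → ℝ} (h0 : 0 < φ1)
    (h1 : φ1 ≤ π / 2) (hΩ : DifferentiableOn ℂ Ω (Metric.ball 0 r))
    (hJ : DifferentiableOn ℂ J (Metric.ball 0 r))
    (hW : ∀ τ ∈ Metric.ball (0 : ℂ) r, Wk φ1 (Ω τ) (J τ) κ0 γ N T b b')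
    (hb : ∀ s ∈ Icc (0 : ℝ) 1, HasDerivAt b (b' s) s ∧ 0 < b s ∧ b s ≤ bb)
    (hκ : κ0 < 1) (hc : 0 ≤ c) (hc2 : 2 * c ^ 2 ≤ 1 - κ0) (hγ : 0 < γ) (hγc : γ + bb ≤ 2 * c) :
    ∃ k z : ℂ → ℂ, DifferentiableOn ℂ k (Metric.ball 0 r) ∧ DifferentiableOn ℂ z (Metric.ball 0 r) ∧
      DifferentiableOn ℂ (fun τ => Tt φ1 (Ω τ) (J τ)) (Metric.ball 0 r) ∧
      ∀ τ ∈ Metric.ball (0 : ℂ) r, ‖z τ‖ ≤ b 1 ∧ ‖k τ + z τ / 2‖ ≤ N / (2 * γ ^ 2) ∧
        ∀ δ ω : ℝ, 0 < δ → 0 < ω → Ω τ = ω → J τ = jj δ → Br φ1 δ ω (k τ) (z τ) := by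
  have hU : IsOpen (Metric.ball (0 : ℂ) r) := Metric.isOpen_ball
  generalize Metric.ball (0 : ℂ) r = U at *
  have hroot : ∀ τ ∈ U, ∀ s ∈ Icc (0 : ℝ) 1,
      Complex.I * G2 φ1 (Ω τ) (J τ) s ∈ Complex.slitPlane ∧
      ‖gp φ1 (Ω τ) (J τ) s‖ = √‖G2 φ1 (Ω τ) (J τ) s‖ ∧ 0 < (gp φ1 (Ω τ) (J τ) s).re ∧
      c * ‖gp φ1 (Ω τ) (J τ) s‖ ≤ (gp φ1 (Ω τ) (J τ) s).re := by
    intro τ hτ s hs
    refine sqrt_I_mul ?_ hκ ((hW τ hτ).ang s hs) hc hc2
    unfold G2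
    have : (φ1 : ℂ) ≠ 0 := Complex.ofReal_ne_zero.2 h0.ne'
    exact div_ne_zero (mul_ne_zero (mul_ne_zero (mul_ne_zero (by norm_num) (pow_ne_zero _ this))
      (hW τ hτ).ne0) ((hW τ hτ).neP s hs)) ((hW τ hτ).neQ s hs)
  have cΩ : ContinuousOn (fun p : ℂ × ℝ => Ω p.1) (U ×ˢ Icc 0 1) :=
    hΩ.continuousOn.comp continuous_fst.continuousOn fun p hp => hp.1
  have cJ : ContinuousOn (fun p : ℂ × ℝ => J p.1) (U ×ˢ Icc 0 1) :=
    hJ.continuousOn.comp continuous_fst.continuousOn fun p hp => hp.1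
  have cX : ContinuousOn (fun p : ℂ × ℝ => pX φ1 p.2) (U ×ˢ Icc 0 1) :=
    ((wpack_cX φ1).comp continuous_snd).continuousOn
  have cP := wpack_cP cΩ cJ cX
  have cQ := wpack_cQ cJ cX
  have cψ : ContinuousOn (fun p : ℂ × ℝ => psi (Ω p.1) (J p.1) (pX φ1 p.2)) (U ×ˢ Icc 0 1) :=
    wpack_cpsi cΩ cJ cX (fun p hp => (hW p.1 hp.1).ne0) fun p hp => (hW p.1 hp.1).neP p.2 hp.2
  have cG : ContinuousOn (fun p : ℂ × ℝ => G2 φ1 (Ω p.1) (J p.1) p.2) (U ×ˢ Icc 0 1) := by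
    unfold G2
    exact ContinuousOn.div ((continuousOn_const.mul cΩ).mul cP) cQ fun p hp =>
      (hW p.1 hp.1).neQ p.2 hp.2
  have cg : ContinuousOn (fun p : ℂ × ℝ => gp φ1 (Ω p.1) (J p.1) p.2) (U ×ˢ Icc 0 1) :=
    (continuousOn_const.mul cG).cpow_const fun p hp => (hroot p.1 hp.1 p.2 hp.2).1
  have dψ : ∀ s ∈ Icc (0 : ℝ) 1, DifferentiableOn ℂ (fun τ => psi (Ω τ) (J τ) (pX φ1 s)) U :=
    fun s hs => wpack_dpsi hΩ hJ (fun p hp => (hW p hp).ne0) fun p hp => (hW p hp).neP s hs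
  have dg : ∀ s ∈ Icc (0 : ℝ) 1, DifferentiableOn ℂ (fun τ => gp φ1 (Ω τ) (J τ) s) U := by
    intro s hs
    have dP := wpack_dP (X := pX φ1 s) hΩ hJ
    have dQ := wpack_dQ (X := pX φ1 s) hJ
    have dG : DifferentiableOn ℂ (fun τ => G2 φ1 (Ω τ) (J τ) s) U := by
      unfold G2
      exact DifferentiableOn.div (by fun_prop) dQ fun p hp => (hW p hp).neQ s hs
    exact (dG.const_mul Complex.I).cpow_const fun p hp => (hroot p hp s hs).1
  have hT := wpack_Tt hU h0 hΩ hJ fun τ hτ => (hW τ hτ).slit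
  obtain ⟨k, z, dk, dz, h⟩ := wpack_abs hU (g := fun τ => gp φ1 (Ω τ) (J τ))
    (ψ := fun τ s => psi (Ω τ) (J τ) (pX φ1 s)) (c := c) (N := N) cg cψ dg dψ
    (fun τ hτ s hs => (hroot τ hτ s hs).2.2.2) hb
    (fun τ hτ s hs => by
      rw [(hroot τ hτ s hs).2.1]
      exact (hW τ hτ).bar s hs) hγ hγc
    (fun τ hτ => by
      refine le_of_eq_of_le ?_ (hW τ hτ).int
      refine intervalIntegral.integral_congr fun s hs => ?_
      rw [uIcc_of_le zero_le_one] at hs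
      rw [(hroot τ hτ s hs).2.1])
  refine ⟨k, z, dk, dz, hT, fun τ hτ => ⟨(h τ hτ).1, (h τ hτ).2.1, ?_⟩⟩
  intro δ ω hδ hω e1 e2
  obtain ⟨A, B, hs, hk, hz⟩ := (h τ hτ).2.2
  have hr := fun s hs' => (hroot τ hτ s hs').2.2.1
  simp only [e1, e2] at hs hr
  exact bridge hδ hω h0 h1 hr hs hk hz

end Pool.Agent.HillD
end

-- part Pool.Agent.P.MP_ae2765_an.WRp0
section

/-! Continuity of the solutions in the parameters, and phase functions. -/

namespace Pool.Agent.HillD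
open Real Set Filter Topology Asymptotics

theorem wrp0_cA {m ω : ℝ} (hm : m < 1) (t : ℝ) :
    ContinuousAt (fun w : (ℝ × ℝ) × ℝ => cA w.1.1 w.1.2 w.2) ((m, ω), t) := by
  have cp : Continuous fun w : (ℝ × ℝ) × ℝ => pm w.1.1 w.2 := by unfold pm Dm; fun_prop
  exact ContinuousAt.div (by fun_prop) cp.continuousAt (pm_pos hm t).ne'

theorem wrp0_cB {m ω : ℝ} (hm : m < 1) (t : ℝ) :
    ContinuousAt (fun w : (ℝ × ℝ) × ℝ => cB w.1.1 w.1.2 w.2) ((m, ω), t) := by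
  have cp : Continuous fun w : (ℝ × ℝ) × ℝ => pm w.1.1 w.2 := by unfold pm Dm; fun_prop
  exact ContinuousAt.div (by fun_prop) cp.continuousAt (pm_pos hm t).ne'

theorem wrp0_key {m ω η : ℝ} (hm : m < 1) (hη0 : 0 < η) :
    ∀ᶠ z : ℝ × ℝ in 𝓝 (m, ω), ∀ t ∈ Icc 0 π,
      |cA z.1 z.2 t - cA m ω t| < η ∧ |cB z.1 z.2 t - cB m ω t| < η := by
  refine isCompact_Icc.eventually_forall_of_forall_eventually fun t _ => ?_
  have a1 := wrp0_cA (ω := ω) hm t
  have b1 := wrp0_cB (ω := ω) hm t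
  have a2 : ContinuousAt (fun w : (ℝ × ℝ) × ℝ => cA m ω w.2) ((m, ω), t) :=
    ((cA_cont hm ω).comp continuous_snd).continuousAt
  have b2 : ContinuousAt (fun w : (ℝ × ℝ) × ℝ => cB m ω w.2) ((m, ω), t) :=
    ((cB_cont hm ω).comp continuous_snd).continuousAt
  have a3 := (a1.sub a2).abs.eventually_lt (continuousAt_const (y := η)) (by simpa using hη0)
  have b3 := (b1.sub b2).abs.eventually_lt (continuousAt_const (y := η)) (by simpa using hη0)
  exact a3.and b3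

theorem wrp0_th {m ω : ℝ} (hm : m < 1) (θ0 : ℝ) {t : ℝ} (ht : t ∈ Icc 0 π) :
    ContinuousAt (fun z : ℝ × ℝ => th z.1 z.2 θ0 t) (m, ω) := by
  obtain ⟨K, hK⟩ := exists_bound (cA_cont hm ω) (cB_cont hm ω) π
  have hK' : ∀ x ∈ Icc 0 t, |cB m ω x - cA m ω x| ≤ K := fun x hx => by
    have := hK x ⟨by linarith [hx.1, pi_pos], hx.2.trans ht.2⟩
    have h2 := abs_sub (cB m ω x) (cA m ω x)
    linarith
  rw [ContinuousAt, Metric.tendsto_nhds]
  intro ε hε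
  set C := exp (K * t) * π * exp (K * t) with hC
  have hC0 : 0 < C := by have := pi_pos; positivity
  set η := ε / (2 * C) with hη
  have hη0 : 0 < η := by positivity
  have key := wrp0_key (ω := ω) hm hη0
  have hlt : ∀ᶠ z : ℝ × ℝ in 𝓝 (m, ω), z.1 < 1 :=
    continuousAt_fst.eventually_lt continuousAt_const hm
  filter_upwards [key, hlt] with z hz hz1
  have s1 := th_spec hz1 z.2 θ0
  have s2 := th_spec hm ω θ0
  have := cmp_near (cA_cont hm ω) (cB_cont hm ω) s1.1 s2.1 ht.1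
    (fun x hx => (hz x ⟨hx.1, hx.2.trans ht.2⟩).1.le)
    (fun x hx => (hz x ⟨hx.1, hx.2.trans ht.2⟩).2.le) hK' (by rw [s1.2, s2.2])
  rw [Real.dist_eq]
  have e : exp (K * t) * η * π * exp (K * t) = ε / 2 := by
    have : exp (K * t) * η * π * exp (K * t) = η * C := by rw [hC]; ring
    rw [this, hη]; field_simp
  have e2 : exp (K * t) * η * t * exp (K * t) ≤ exp (K * t) * η * π * exp (K * t) := by
    have := ht.2
    gcongr
  linarith

theorem wrp0_rad {m ω : ℝ} (hm : m < 1) (θ0 : ℝ) {t : ℝ} (ht : t ∈ Icc 0 π) :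
    ContinuousAt (fun z : ℝ × ℝ => rad (cA z.1 z.2) (cB z.1 z.2) (th z.1 z.2 θ0) t) (m, ω) := by
  unfold rad
  refine ContinuousAt.rexp ?_
  obtain ⟨K, hK⟩ := exists_bound (cA_cont hm ω) (cB_cont hm ω) π
  have hlt : ∀ᶠ z : ℝ × ℝ in 𝓝 (m, ω), z.1 < 1 :=
    continuousAt_fst.eventually_lt continuousAt_const hm
  have hsub : ∀ s ∈ uIoc (0 : ℝ) t, s ∈ Icc 0 π := fun s hs => by
    rw [uIoc_of_le ht.1] at hs
    exact ⟨hs.1.le, hs.2.trans ht.2⟩
  refine intervalIntegral.continuousAt_of_dominated_interval (bound := fun _ => (K : ℝ) + 2)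
    ?_ ?_ intervalIntegrable_const ?_
  · filter_upwards [hlt] with z hz
    have h1 := cA_cont hz z.2
    have h2 := cB_cont hz z.2
    have h3 := (th_spec hz z.2 θ0).1.cont
    exact Continuous.aestronglyMeasurable (by fun_prop)
  · filter_upwards [wrp0_key (ω := ω) hm one_pos] with z hz
    refine Eventually.of_forall fun s hs => ?_
    have hs' := hsub s hs
    obtain ⟨k1, k2⟩ := hz s hs'
    have k3 := hK s ⟨by linarith [hs'.1, pi_pos], hs'.2⟩
    have k4 : |cA z.1 z.2 s - cB z.1 z.2 s| ≤ K + 2 := by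
      have e1 := abs_sub (cA z.1 z.2 s) (cB z.1 z.2 s)
      have e2 := abs_sub_abs_le_abs_sub (cA z.1 z.2 s) (cA m ω s)
      have e3 := abs_sub_abs_le_abs_sub (cB z.1 z.2 s) (cB m ω s)
      linarith
    rw [Real.norm_eq_abs, abs_mul, abs_mul]
    have h1 := abs_sin_le_one (th z.1 z.2 θ0 s)
    have h2 := abs_cos_le_one (th z.1 z.2 θ0 s)
    calc _ ≤ ((K : ℝ) + 2) * 1 * 1 := by gcongr
      _ = K + 2 := by ring
  · refine Eventually.of_forall fun s hs => ?_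
    have hs' := hsub s hs
    have a1 : ContinuousAt (fun z : ℝ × ℝ => cA z.1 z.2 s) (m, ω) :=
      (wrp0_cA (ω := ω) hm s).comp (f := fun z : ℝ × ℝ => (z, s)) (by fun_prop)
    have b1 : ContinuousAt (fun z : ℝ × ℝ => cB z.1 z.2 s) (m, ω) :=
      (wrp0_cB (ω := ω) hm s).comp (f := fun z : ℝ × ℝ => (z, s)) (by fun_prop)
    have c1 := wrp0_th (ω := ω) hm θ0 hs'
    exact ((a1.sub b1).mul (continuous_sin.continuousAt.comp c1)).mul
      (continuous_cos.continuousAt.comp c1)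

theorem s_cont {m ω : ℝ} (hm : m < 1) (θ0 : ℝ) {t : ℝ} (ht : t ∈ Icc 0 π) :
    ContinuousAt (fun p : ℝ × ℝ => th p.1 p.2 θ0 t) (m, ω) ∧
    ContinuousAt (fun p : ℝ × ℝ => sx p.1 p.2 θ0 t) (m, ω) ∧
    ContinuousAt (fun p : ℝ × ℝ => sy p.1 p.2 θ0 t) (m, ω) := by
  have c1 := wrp0_th (ω := ω) hm θ0 ht
  have c2 := wrp0_rad (ω := ω) hm θ0 ht
  exact ⟨c1, c2.mul (continuous_sin.continuousAt.comp c1),
    c2.mul (continuous_cos.continuousAt.comp c1)⟩

end Pool.Agent.HillD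
end

-- part Pool.Agent.P.MP_ae2765_an.WRp
section

/-! Continuity of the solutions in the parameters, and phase functions. -/

namespace Pool.Agent.HillD
open Real Set Filter Topology Asymptotics

theorem tr90_true (δ ω : ℝ) : Tr true (π / 2) δ ω 0 1 :=
  ⟨1, one_ne_zero, fun x y _ => by simp⟩

theorem tr90_false (δ ω : ℝ) : Tr false (π / 2) δ ω 1 0 :=
  ⟨-1, by norm_num, fun x y _ => by simp⟩

theorem wrp_parts {a b : ℝ} {U : ℂ} (h : (a : ℂ) + Complex.I * (b : ℂ) = U) :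
    U.re = a ∧ U.im = b := by
  rw [← h]
  constructor <;> simp

theorem wrp_wron (δ ω t : ℝ) : sx (mm δ) ω (π / 2) t * sy (mm δ) ω 0 t -
    sy (mm δ) ω (π / 2) t * sx (mm δ) ω 0 t = 1 := by
  have hm := mm_lt_one δ
  rw [wronski (s_lin hm ω (π / 2)) (s_lin hm ω 0) t, sx_zero hm, sy_zero hm, sx_zero hm,
    sy_zero hm]
  simp

/-- the coefficient of the even solution -/
noncomputable def wrpA (φ1 δ ω : ℝ) (k z : ℂ) : ℝ :=
  (Complex.exp (Complex.I * (ph0 φ1 ω (jj δ) k : ℝ))).re * sy (mm δ) ω 0 φ1 -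
    (etaC φ1 δ ω z * Complex.exp (Complex.I * (ph0 φ1 ω (jj δ) k : ℝ))).re * sx (mm δ) ω 0 φ1

/-- the coefficient of the odd solution -/
noncomputable def wrpB (φ1 δ ω : ℝ) (k z : ℂ) : ℝ :=
  (etaC φ1 δ ω z * Complex.exp (Complex.I * (ph0 φ1 ω (jj δ) k : ℝ))).im *
      sx (mm δ) ω (π / 2) φ1 -
    (Complex.exp (Complex.I * (ph0 φ1 ω (jj δ) k : ℝ))).im * sy (mm δ) ω (π / 2) φ1

theorem wrp_br {φ1 δ ω : ℝ} {k z : ℂ} (h : Br φ1 δ ω k z) :
    (Complex.exp (Complex.I * (ph0 φ1 ω (jj δ) k : ℝ))).re =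
      wrpA φ1 δ ω k z * sx (mm δ) ω (π / 2) φ1 ∧
    (Complex.exp (Complex.I * (ph0 φ1 ω (jj δ) k : ℝ))).im =
      wrpB φ1 δ ω k z * sx (mm δ) ω 0 φ1 ∧
    (etaC φ1 δ ω z * Complex.exp (Complex.I * (ph0 φ1 ω (jj δ) k : ℝ))).re =
      wrpA φ1 δ ω k z * sy (mm δ) ω (π / 2) φ1 ∧
    (etaC φ1 δ ω z * Complex.exp (Complex.I * (ph0 φ1 ω (jj δ) k : ℝ))).im =
      wrpB φ1 δ ω k z * sy (mm δ) ω 0 φ1 := by
  obtain ⟨α, β, h1, h2⟩ := h
  obtain ⟨a1, a2⟩ := wrp_parts h1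
  obtain ⟨a3, a4⟩ := wrp_parts h2
  have w := wrp_wron δ ω φ1
  have e1 : wrpA φ1 δ ω k z = α := by
    rw [wrpA, a1, a3]
    linear_combination α * w
  have e2 : wrpB φ1 δ ω k z = β := by
    rw [wrpB, a2, a4]
    linear_combination β * w
  rw [e1, e2]
  exact ⟨a1, a2, a3, a4⟩

theorem wrp_pos {φ1 δ ω : ℝ} {k z : ℂ} (hδ : 0 < δ) (hω : 0 < ω) (hz : 0 < (1 + z).re)
    (h : Br φ1 δ ω k z) : 0 < wrpA φ1 δ ω k z * wrpB φ1 δ ω k z := by
  obtain ⟨a1, a2, a3, a4⟩ := wrp_br h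
  have w := wrp_wron δ ω φ1
  have hU : (Complex.exp (Complex.I * (ph0 φ1 ω (jj δ) k : ℝ))).re ^ 2 +
      (Complex.exp (Complex.I * (ph0 φ1 ω (jj δ) k : ℝ))).im ^ 2 = 1 := by
    rw [mul_comm, Complex.exp_ofReal_mul_I_re, Complex.exp_ofReal_mul_I_im, cos_sq_add_sin_sq]
  have h1 : (etaC φ1 δ ω z).im = qr ω (jj δ) φ1 * (1 + z).re / cA (mm δ) ω φ1 := by
    rw [etaC, Complex.div_ofReal_im]
    simp
  have h2 : wrpA φ1 δ ω k z * wrpB φ1 δ ω k z = (etaC φ1 δ ω z).im := by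
    rw [Complex.mul_re] at a3
    rw [Complex.mul_im] at a4
    generalize (Complex.exp (Complex.I * (ph0 φ1 ω (jj δ) k : ℝ))).re = u at *
    generalize (Complex.exp (Complex.I * (ph0 φ1 ω (jj δ) k : ℝ))).im = v at *
    linear_combination (-(wrpA φ1 δ ω k z * wrpB φ1 δ ω k z)) * w - u * a4 + v * a3 +
      (etaC φ1 δ ω z).im * hU - wrpB φ1 δ ω k z * sy (mm δ) ω 0 φ1 * a1 +
      wrpA φ1 δ ω k z * sy (mm δ) ω (π / 2) φ1 * a2
  rw [h2, h1]
  exact div_pos (mul_pos (real_axis hω (jj_bd hδ).1 (jj_bd hδ).2).2.2.1 hz) (cA_cB hδ hω φ1).1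

theorem wrp_rel {typ : Bool} {φ1 δ ω v1 y1 ϕ : ℝ} {k z : ℂ} (h : Br φ1 δ ω k z)
    (hT : Tr typ φ1 δ ω v1 y1) (hϕ : (((y1 : ℂ) - etaC φ1 δ ω z * v1) *
      Complex.exp (Complex.I * ((ph0 φ1 ω (jj δ) k - ϕ : ℝ) : ℂ))).im = 0) :
    wrpA φ1 δ ω k z * pr typ δ ω (π / 2) * sin ϕ = wrpB φ1 δ ω k z * pr typ δ ω 0 * cos ϕ := by
  obtain ⟨a1, a2, a3, a4⟩ := wrp_br h
  obtain ⟨c, hc, hT⟩ := hT
  have t1 : _ = c * pr typ δ ω (π / 2) := hT _ _ (s_lin (mm_lt_one δ) ω (π / 2))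
  have t2 : _ = c * pr typ δ ω 0 := hT _ _ (s_lin (mm_lt_one δ) ω 0)
  have e : ((y1 : ℂ) - etaC φ1 δ ω z * v1) *
      Complex.exp (Complex.I * ((ph0 φ1 ω (jj δ) k - ϕ : ℝ) : ℂ)) =
      (Complex.exp (Complex.I * (ph0 φ1 ω (jj δ) k : ℝ)) * y1 -
        etaC φ1 δ ω z * Complex.exp (Complex.I * (ph0 φ1 ω (jj δ) k : ℝ)) * v1) *
        Complex.exp (((-ϕ : ℝ) : ℂ) * Complex.I) := by
    rw [show Complex.I * ((ph0 φ1 ω (jj δ) k - ϕ : ℝ) : ℂ) =
      Complex.I * (ph0 φ1 ω (jj δ) k : ℝ) + ((-ϕ : ℝ) : ℂ) * Complex.I by push_cast; ring,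
      Complex.exp_add]
    ring
  rw [e, Complex.mul_im, Complex.exp_ofReal_mul_I_re, Complex.exp_ofReal_mul_I_im, cos_neg,
    sin_neg, Complex.sub_re, Complex.sub_im, Complex.re_mul_ofReal, Complex.re_mul_ofReal,
    Complex.im_mul_ofReal, Complex.im_mul_ofReal, a1, a2, a3, a4] at hϕ
  refine mul_left_cancel₀ hc ?_
  linear_combination -hϕ - wrpA φ1 δ ω k z * sin ϕ * t1 + wrpB φ1 δ ω k z * cos ϕ * t2

theorem wrp_eta {φ1 : ℝ} {δ ω : ℝ → ℝ} {z : ℝ → ℂ} (cδ : ContinuousAt δ 0)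
    (cω : ContinuousAt ω 0) (hδ : 0 < δ 0) (hω : 0 < ω 0) (cz : ContinuousAt z 0) :
    ContinuousAt (fun τ => etaC φ1 (δ τ) (ω τ) (z τ)) 0 := by
  obtain ⟨p1, p2, -⟩ := real_axis (φ := φ1) hω (jj_bd hδ).1 (jj_bd hδ).2
  have cj : ContinuousAt (fun τ => jj (δ τ)) 0 :=
    continuousAt_const.div ((cδ.pow 2).add continuousAt_const) (by positivity)
  have cm : ContinuousAt (fun τ => mm (δ τ)) 0 :=
    (cδ.pow 2).div (continuousAt_const.mul (continuousAt_const.add (cδ.pow 2))) (by positivity)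
  have ck : ContinuousAt (fun τ => 1 - 2 * jj (δ τ)) 0 :=
    continuousAt_const.sub (continuousAt_const.mul cj)
  have cP : ContinuousAt (fun τ => Pr (ω τ) (jj (δ τ)) φ1) 0 :=
    (cω.mul cj).add (ck.mul continuousAt_const)
  have cQ : ContinuousAt (fun τ => Qr (jj (δ τ)) φ1) 0 :=
    continuousAt_const.add (ck.mul continuousAt_const)
  have ce : ContinuousAt (fun τ => er (ω τ) (jj (δ τ)) φ1) 0 :=
    ((ck.mul continuousAt_const).mul continuousAt_const).div (continuousAt_const.mul cP)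
      (by positivity)
  have cq : ContinuousAt (fun τ => qr (ω τ) (jj (δ τ)) φ1) 0 :=
    (((continuousAt_const.mul cω).mul cP).div cQ p2.ne').sqrt
  have cp : ContinuousAt (fun τ => pm (mm (δ τ)) φ1) 0 :=
    (continuousAt_const.sub (cm.mul continuousAt_const)).sqrt
  have ca : ContinuousAt (fun τ => cA (mm (δ τ)) (ω τ) φ1) 0 :=
    cω.div cp (pm_pos (mm_lt_one _) _).ne'
  exact (ce.ofReal.add ((continuousAt_const.mul cq.ofReal).mul (continuousAt_const.add cz))).div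
    ca.ofReal (Complex.ofReal_ne_zero.2 (cA_cB hδ hω φ1).1.ne')

theorem rp_of_br {typ : Bool} {φ1 : ℝ} {δ ω v1 y1 ϕ : ℝ → ℝ} {k z : ℝ → ℂ}
    (hφ : φ1 ∈ Icc 0 π) (cδ : ContinuousAt δ 0) (cω : ContinuousAt ω 0) (hδ : 0 < δ 0)
    (hω : 0 < ω 0) (cz : ContinuousAt z 0) (hz : 0 < (1 + z 0).re)
    (cp : ContinuousAt (fun τ => ph0 φ1 (ω τ) (jj (δ τ)) (k τ)) 0) (cϕ : ContinuousAt ϕ 0)
    (hB : ∀ᶠ τ in 𝓝 (0 : ℝ), Br φ1 (δ τ) (ω τ) (k τ) (z τ))
    (hT : ∀ᶠ τ in 𝓝 (0 : ℝ), Tr typ φ1 (δ τ) (ω τ) (v1 τ) (y1 τ))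
    (hϕ : ∀ᶠ τ in 𝓝 (0 : ℝ), (((y1 τ : ℂ) - etaC φ1 (δ τ) (ω τ) (z τ) * v1 τ) *
      Complex.exp (Complex.I * ((ph0 φ1 (ω τ) (jj (δ τ)) (k τ) - ϕ τ : ℝ) : ℂ))).im = 0) :
    Rp typ δ ω ϕ := by
  have cm : ContinuousAt (fun τ => mm (δ τ)) 0 :=
    (cδ.pow 2).div (continuousAt_const.mul (continuousAt_const.add (cδ.pow 2))) (by positivity)
  have cs : ∀ θ0, ContinuousAt (fun τ => sx (mm (δ τ)) (ω τ) θ0 φ1) 0 ∧
      ContinuousAt (fun τ => sy (mm (δ τ)) (ω τ) θ0 φ1) 0 := fun θ0 =>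
    ⟨ContinuousAt.comp (f := fun τ => (mm (δ τ), ω τ))
        (s_cont (mm_lt_one _) θ0 hφ).2.1 (cm.prodMk cω),
      ContinuousAt.comp (f := fun τ => (mm (δ τ), ω τ))
        (s_cont (mm_lt_one _) θ0 hφ).2.2 (cm.prodMk cω)⟩
  have cU : ContinuousAt
      (fun τ => Complex.exp (Complex.I * (ph0 φ1 (ω τ) (jj (δ τ)) (k τ) : ℝ))) 0 :=
    (continuousAt_const.mul cp.ofReal).cexp
  have cY := (wrp_eta (φ1 := φ1) cδ cω hδ hω cz).mul cU
  refine ⟨cδ, cω, cϕ, fun τ => wrpA φ1 (δ τ) (ω τ) (k τ) (z τ),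
    fun τ => wrpB φ1 (δ τ) (ω τ) (k τ) (z τ), ?_, ?_, wrp_pos hδ hω hz hB.self_of_nhds, ?_⟩
  · exact ((Complex.continuous_re.continuousAt.comp cU).mul (cs 0).2).sub
      ((Complex.continuous_re.continuousAt.comp cY).mul (cs 0).1)
  · exact ((Complex.continuous_im.continuousAt.comp cY).mul (cs (π / 2)).1).sub
      ((Complex.continuous_im.continuousAt.comp cU).mul (cs (π / 2)).2)
  · filter_upwards [hB, hT, hϕ] with τ h1 h2 h3 using wrp_rel h1 h2 h3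

end Pool.Agent.HillD
end
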