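import Pool.Agent.K.MP_ae2765_an.C6
import Pool.Agent.K.MP_ae2765_an.C14
import Pool.Agent.K.MP_ae2765_an.C13
import Pool.Agent.K.MP_ae2765_an.C12

-- part Pool.Agent.P.MP_ae2765_an.WJet0
section

/-! Algebra of jets at `0`. -/

namespace Pool.Agent.HillD
open Real Set Filter Topology Asymptotics

variable {𝕜 : Type} [RCLike 𝕜] {f g : ℝ → 𝕜} {a0 a1 a2 a3 b0 b1 b2 b3 : 𝕜}

theorem wjet0_small : ∀ᶠ τ in 𝓝 (0 : ℝ), |τ| ≤ 1 := by
  filter_upwards [Metric.closedBall_mem_nhds (0 : ℝ) one_pos] with τ hτ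
  simpa using hτ

theorem wjet0_mono (c : 𝕜) {n m : ℕ} (h : m ≤ n) :
    (fun τ : ℝ => c * (τ : 𝕜) ^ n) =O[𝓝 0] fun τ : ℝ => τ ^ m := by
  refine IsBigO.of_bound ‖c‖ ?_
  filter_upwards [wjet0_small] with τ hτ
  rw [norm_mul, norm_pow, norm_pow, RCLike.norm_ofReal, Real.norm_eq_abs]
  exact mul_le_mul_of_nonneg_left (pow_le_pow_of_le_one (abs_nonneg _) hτ h) (norm_nonneg _)

theorem wjet0_pow {n m : ℕ} (h : m ≤ n) :
    (fun τ : ℝ => τ ^ n) =O[𝓝 0] fun τ : ℝ => τ ^ m := by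
  simpa using wjet0_mono (𝕜 := ℝ) 1 h

theorem wjet0_zero {c : 𝕜} {n : ℕ}
    (h : (fun τ : ℝ => c * (τ : 𝕜) ^ n) =O[𝓝 0] fun τ : ℝ => τ ^ (n + 1)) : c = 0 := by
  obtain ⟨C, hC⟩ := h.bound
  have h1 : ∀ᶠ τ in 𝓝[≠] (0 : ℝ), ‖c‖ ≤ C * |τ| := by
    filter_upwards [nhdsWithin_le_nhds hC, self_mem_nhdsWithin] with τ hτ hne
    rw [norm_mul, norm_pow, norm_pow, RCLike.norm_ofReal, Real.norm_eq_abs] at hτ
    have hp : 0 < |τ| ^ n := pow_pos (abs_pos.mpr hne) n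
    refine le_of_mul_le_mul_right ?_ hp
    calc ‖c‖ * |τ| ^ n ≤ C * |τ| ^ (n + 1) := hτ
      _ = C * |τ| * |τ| ^ n := by ring
  have h2 : Tendsto (fun τ : ℝ => C * |τ|) (𝓝[≠] (0 : ℝ)) (𝓝 0) := by
    have : ContinuousAt (fun τ : ℝ => C * |τ|) 0 := by fun_prop
    simpa using this.tendsto.mono_left nhdsWithin_le_nhds
  exact norm_le_zero_iff.mp (ge_of_tendsto h2 h1)

theorem wjet0_bdd (h : ContinuousAt f 0) : f =O[𝓝 0] fun _ : ℝ => (1 : ℝ) :=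
  h.tendsto.isBigO_one ℝ

theorem wjet0_mul {u v : ℝ → 𝕜} (hu : u =O[𝓝 0] fun τ : ℝ => τ ^ 3) (hv : ContinuousAt v 0) :
    (fun τ => u τ * v τ) =O[𝓝 0] fun τ : ℝ => τ ^ 3 := by
  simpa using hu.mul (wjet0_bdd hv)

theorem wjet0_pc (c0 c1 c2 : 𝕜) :
    Continuous fun τ : ℝ => c0 + c1 * (τ : 𝕜) + c2 * (τ : 𝕜) ^ 2 := by
  have := RCLike.continuous_ofReal (K := 𝕜)
  fun_prop

theorem J3.j2 (h : J3 f a0 a1 a2 a3) : J2 f a0 a1 a2 := by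
  unfold J3 at h
  unfold J2
  refine ((h.trans (wjet0_pow (by norm_num))).add (wjet0_mono a3 (le_refl 3))).congr_left ?_
  intro τ
  ring

theorem J2.val (h : J2 f a0 a1 a2) : f 0 = a0 := by
  unfold J2 at h
  obtain ⟨C, hC⟩ := h.bound
  have := hC.self_of_nhds
  simpa [sub_eq_zero] using this

theorem J2.cont (h : J2 f a0 a1 a2) : ContinuousAt f 0 := by
  have hv := h.val
  unfold J2 at h
  have h1 : Tendsto (fun τ : ℝ => τ ^ 3) (𝓝 0) (𝓝 0) := by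
    simpa using (continuous_pow 3).tendsto (0 : ℝ)
  have h2 := (h.trans_tendsto h1).add ((wjet0_pc a0 a1 a2).tendsto 0)
  unfold ContinuousAt
  rw [hv]
  simpa using h2

theorem J2.congr (h : J2 f a0 a1 a2) (e : f =ᶠ[𝓝 0] g) : J2 g a0 a1 a2 := by
  unfold J2 at h ⊢
  refine h.congr' ?_ EventuallyEq.rfl
  filter_upwards [e] with τ hτ
  rw [hτ]

theorem J3.congr (h : J3 f a0 a1 a2 a3) (e : f =ᶠ[𝓝 0] g) : J3 g a0 a1 a2 a3 := by
  unfold J3 at h ⊢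
  refine h.congr' ?_ EventuallyEq.rfl
  filter_upwards [e] with τ hτ
  rw [hτ]

theorem J2.of_eq (h : J2 f a0 a1 a2) (e0 : a0 = b0) (e1 : a1 = b1) (e2 : a2 = b2) :
    J2 f b0 b1 b2 := e0 ▸ e1 ▸ e2 ▸ h

theorem J2.unique (h : J2 f a0 a1 a2) (h' : J2 f b0 b1 b2) : a0 = b0 ∧ a1 = b1 ∧ a2 = b2 := by
  have e0 : a0 = b0 := h.val.symm.trans h'.val
  subst e0
  unfold J2 at h h'
  have hd := h'.sub h
  have e1 : a1 - b1 = 0 := by
    refine wjet0_zero (n := 1) ?_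
    refine ((hd.trans (wjet0_pow (by norm_num))).sub
      (wjet0_mono (a2 - b2) (le_refl 2))).congr_left ?_
    intro τ
    ring
  have e1' : a1 = b1 := sub_eq_zero.mp e1
  subst e1'
  have e2 : a2 - b2 = 0 := by
    refine wjet0_zero (n := 2) (hd.congr_left ?_)
    intro τ
    ring
  exact ⟨rfl, rfl, sub_eq_zero.mp e2⟩

theorem j2_poly (a0 a1 a2 : 𝕜) :
    J2 (fun τ : ℝ => a0 + a1 * (τ : 𝕜) + a2 * (τ : 𝕜) ^ 2) a0 a1 a2 := by
  unfold J2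
  exact (isBigO_zero _ _).congr_left fun τ => by ring

theorem j2_const (a0 : 𝕜) : J2 (fun _ => a0) a0 0 0 := by
  unfold J2
  exact (isBigO_zero _ _).congr_left fun τ => by ring

theorem j2_lin (a0 a1 : 𝕜) : J2 (fun τ : ℝ => a0 + a1 * (τ : 𝕜)) a0 a1 0 := by
  unfold J2
  exact (isBigO_zero _ _).congr_left fun τ => by ring

theorem j3_const (a0 : 𝕜) : J3 (fun _ => a0) a0 0 0 0 := by
  unfold J3
  exact (isBigO_zero _ _).congr_left fun τ => by ring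

theorem J2.add (h : J2 f a0 a1 a2) (h' : J2 g b0 b1 b2) :
    J2 (fun τ => f τ + g τ) (a0 + b0) (a1 + b1) (a2 + b2) := by
  unfold J2 at h h' ⊢
  exact (IsBigO.add h h').congr_left fun τ => by ring

theorem J2.sub (h : J2 f a0 a1 a2) (h' : J2 g b0 b1 b2) :
    J2 (fun τ => f τ - g τ) (a0 - b0) (a1 - b1) (a2 - b2) := by
  unfold J2 at h h' ⊢
  exact (IsBigO.sub h h').congr_left fun τ => by ring

theorem J2.neg (h : J2 f a0 a1 a2) : J2 (fun τ => -f τ) (-a0) (-a1) (-a2) := by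
  unfold J2 at h ⊢
  exact h.neg_left.congr_left fun τ => by ring

theorem J2.const_mul (h : J2 f a0 a1 a2) (c : 𝕜) :
    J2 (fun τ => c * f τ) (c * a0) (c * a1) (c * a2) := by
  unfold J2 at h ⊢
  exact (h.const_mul_left c).congr_left fun τ => by ring

theorem J2.mul (h : J2 f a0 a1 a2) (h' : J2 g b0 b1 b2) :
    J2 (fun τ => f τ * g τ) (a0 * b0) (a0 * b1 + a1 * b0) (a0 * b2 + a1 * b1 + a2 * b0) := by
  have hg := h'.cont
  unfold J2 at h h' ⊢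
  have h1 := wjet0_mul h hg
  have h2 := wjet0_mul h' (wjet0_pc a0 a1 a2).continuousAt
  have h3 := wjet0_mono (a1 * b2 + a2 * b1) (le_refl 3)
  have h4 := wjet0_mono (a2 * b2) (by norm_num : 3 ≤ 4)
  exact (((h1.add h2).add h3).add h4).congr_left fun τ => by ring

theorem J2.inv (h : J2 f a0 a1 a2) (h0 : a0 ≠ 0) :
    J2 (fun τ => (f τ)⁻¹) a0⁻¹ (-(a1 * a0⁻¹ ^ 2)) (-((a1 * -(a1 * a0⁻¹ ^ 2) + a2 * a0⁻¹) * a0⁻¹)) := by
  have hc := h.cont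
  have hf0 : f 0 ≠ 0 := by rw [h.val]; exact h0
  have hm := (h.mul (j2_poly a0⁻¹ (-(a1 * a0⁻¹ ^ 2))
    (-((a1 * -(a1 * a0⁻¹ ^ 2) + a2 * a0⁻¹) * a0⁻¹)))).of_eq (b0 := 1) (b1 := 0) (b2 := 0)
    (by field_simp) (by field_simp; ring) (by field_simp; ring)
  unfold J2 at hm ⊢
  refine (wjet0_mul hm.neg_left (hc.inv₀ hf0)).congr' ?_ EventuallyEq.rfl
  filter_upwards [hc.eventually_ne hf0] with τ hτ
  generalize a0⁻¹ + -(a1 * a0⁻¹ ^ 2) * (τ : 𝕜) +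
    -((a1 * -(a1 * a0⁻¹ ^ 2) + a2 * a0⁻¹) * a0⁻¹) * (τ : 𝕜) ^ 2 = p
  simp only [Pi.inv_apply]
  field_simp
  ring

theorem J3.add (h : J3 f a0 a1 a2 a3) (h' : J3 g b0 b1 b2 b3) :
    J3 (fun τ => f τ + g τ) (a0 + b0) (a1 + b1) (a2 + b2) (a3 + b3) := by
  unfold J3 at h h' ⊢
  exact (IsBigO.add h h').congr_left fun τ => by ring

/-- rescaling the parameter -/
theorem J2.scale (h : J2 f a0 a1 a2) (c : ℝ) :
    J2 (fun τ => f (c * τ)) a0 (a1 * (c : 𝕜)) (a2 * (c : 𝕜) ^ 2) := by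
  unfold J2 at h ⊢
  have ht : Tendsto (fun τ : ℝ => c * τ) (𝓝 0) (𝓝 0) := by
    simpa using (continuous_const_mul c).tendsto (0 : ℝ)
  have h1 := h.comp_tendsto ht
  have h2 : ((fun τ : ℝ => τ ^ 3) ∘ fun τ : ℝ => c * τ) =O[𝓝 0] fun τ : ℝ => τ ^ 3 :=
    ((isBigO_refl (fun τ : ℝ => τ ^ 3) (𝓝 0)).const_mul_left (c ^ 3)).congr_left fun τ => by
      simp only [Function.comp]; ring
  refine (h1.trans h2).congr_left fun τ => ?_
  simp only [Function.comp]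
  push_cast
  ring

/-- a perturbation of third order does not change the two-jet -/
theorem J2.of_sub (h : J2 f a0 a1 a2) (e : (fun τ => g τ - f τ) =O[𝓝 0] fun τ : ℝ => τ ^ 3) :
    J2 g a0 a1 a2 := by
  unfold J2 at h ⊢
  exact (IsBigO.add e h).congr_left fun τ => by ring

end Pool.Agent.HillD
end

-- part Pool.Agent.P.MP_ae2765_an.WJet1
section

/-! Algebra of jets at `0`. -/

namespace Pool.Agent.HillD
open Real Set Filter Topology Asymptotics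

theorem wjet1_cauchy {H : ℂ → ℂ} {r M : ℝ} (hr : 0 < r)
    (hd : DifferentiableOn ℂ H (Metric.ball 0 r))
    (hM : ∀ τ ∈ Metric.ball (0 : ℂ) r, ‖H τ‖ ≤ M) (n : ℕ) :
    ‖iteratedDeriv n H 0 / (n.factorial : ℂ)‖ ≤ M / r ^ n := by
  have hf : (0 : ℝ) < n.factorial := by exact_mod_cast n.factorial_pos
  have key : ∀ s ∈ Ioo 0 r, ‖iteratedDeriv n H 0 / (n.factorial : ℂ)‖ ≤ M / s ^ n := by
    intro s hs
    have hsub : Metric.closedBall (0 : ℂ) s ⊆ Metric.ball 0 r :=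
      Metric.closedBall_subset_ball hs.2
    have h := Complex.norm_iteratedDeriv_le_of_forall_mem_sphere_norm_le (C := M) n hs.1
      (hd.diffContOnCl_ball hsub) fun z hz => hM z (hsub (Metric.sphere_subset_closedBall hz))
    rw [norm_div, Complex.norm_natCast, div_le_iff₀ hf]
    refine h.trans (le_of_eq ?_)
    ring
  have ht : Tendsto (fun s : ℝ => M / s ^ n) (𝓝[<] r) (𝓝 (M / r ^ n)) := by
    refine Tendsto.mono_left ?_ nhdsWithin_le_nhds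
    exact (continuousAt_const.div (continuous_pow n).continuousAt (pow_pos hr n).ne').tendsto
  exact ge_of_tendsto ht (mem_of_superset (Ioo_mem_nhdsLT hr) key)

/-- Cauchy estimates for the three-jet of a bounded holomorphic function on a disc. -/
theorem hol_jet {H : ℂ → ℂ} {r M : ℝ} (hr : 0 < r) (hd : DifferentiableOn ℂ H (Metric.ball 0 r))
    (hM : ∀ τ ∈ Metric.ball (0 : ℂ) r, ‖H τ‖ ≤ M) :
    ∃ c1 c2 c3 : ℂ, ‖H 0‖ ≤ M ∧ ‖c1‖ ≤ M / r ∧ ‖c2‖ ≤ M / r ^ 2 ∧ ‖c3‖ ≤ M / r ^ 3 ∧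
      J3 (fun τ : ℝ => H τ) (H 0) c1 c2 c3 := by
  refine ⟨_, _, _, hM 0 (Metric.mem_ball_self hr), by simpa using wjet1_cauchy hr hd hM 1,
    wjet1_cauchy hr hd hM 2, wjet1_cauchy hr hd hM 3, ?_⟩
  have ha : AnalyticAt ℂ H 0 := hd.analyticAt (Metric.ball_mem_nhds 0 hr)
  have h := (ha.hasFPowerSeriesAt.isBigO_sub_partialSum_pow 4).comp_tendsto
    (show Tendsto (fun τ : ℝ => (τ : ℂ)) (𝓝 0) (𝓝 0) by
      simpa using Complex.continuous_ofReal.tendsto 0)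
  unfold J3
  refine (h.congr (fun τ => ?_) (fun τ => ?_)).trans (isBigO_refl (fun τ : ℝ => τ ^ 4) _)
  · simp [FormalMultilinearSeries.partialSum, Finset.sum_range_succ, mul_comm]
  · simp only [Function.comp, Complex.norm_real, Real.norm_eq_abs]
    exact Even.pow_abs (by decide) τ

end Pool.Agent.HillD
end

-- part Pool.Agent.P.MP_ae2765_an.WJet
section

/-! Algebra of jets at `0`. -/

namespace Pool.Agent.HillD
open Real Set Filter Topology Asymptotics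

variable {𝕜 : Type} [RCLike 𝕜] {f g : ℝ → 𝕜} {a0 a1 a2 a3 b0 b1 b2 b3 : 𝕜}

theorem wjet_pow (n : ℕ) : (fun τ : ℝ => τ ^ (n + 1)) =O[𝓝 0] fun τ : ℝ => τ := by
  have h : (fun τ : ℝ => τ ^ n) =O[𝓝 0] fun _ : ℝ => (1 : ℝ) :=
    (continuous_pow n).continuousAt.isBigO_one ℝ
  simpa only [pow_succ, one_mul] using h.mul (isBigO_refl (fun τ : ℝ => τ) (𝓝 0))

theorem wjet_small (h : J2 f 0 a1 a2) : f =O[𝓝 0] fun τ : ℝ => τ := by
  have h1 : (fun τ : ℝ => (τ : 𝕜)) =O[𝓝 0] fun τ : ℝ => τ :=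
    IsBigO.of_bound 1 (Eventually.of_forall fun τ => by simp)
  have h2 : (fun τ : ℝ => (τ : 𝕜) ^ 2) =O[𝓝 0] fun τ : ℝ => τ := (h1.pow 2).trans (wjet_pow 1)
  have h3 := (IsBigO.trans h (wjet_pow 2)).add ((h1.const_mul_left a1).add (h2.const_mul_left a2))
  refine h3.congr_left fun τ => ?_
  ring

/-- composition with a function that has a second order expansion -/
theorem wjet_comp (h : J2 f a0 a1 a2) {G : 𝕜 → 𝕜}
    (hG : (fun w => G (a0 + w) - (b0 + b1 * w + b2 * w ^ 2)) =O[𝓝 0] fun w : 𝕜 => w ^ 3) :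
    J2 (fun τ => G (f τ)) b0 (b1 * a1) (b1 * a2 + b2 * a1 ^ 2) := by
  have hw : J2 (fun τ => f τ - a0) 0 a1 a2 :=
    (h.sub (j2_const a0)).of_eq (sub_self _) (sub_zero _) (sub_zero _)
  have hp := ((j2_const b0).add (hw.const_mul b1)).add ((hw.mul hw).const_mul b2)
  have ht : Tendsto (fun τ => f τ - a0) (𝓝 0) (𝓝 0) := by
    have := hw.cont.tendsto
    rwa [hw.val] at this
  refine (hp.of_sub ?_).of_eq (by ring) (by ring) (by ring)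
  refine ((hG.comp_tendsto ht).trans ((wjet_small hw).pow 3)).congr_left fun τ => ?_
  simp only [Function.comp, add_sub_cancel]
  ring

section complex
variable {F : ℝ → ℂ} {c0 c1 c2 c3 : ℂ} {u : ℝ → ℝ} {r0 r1 r2 : ℝ}

theorem J2.re (h : J2 F c0 c1 c2) : J2 (fun τ => (F τ).re) c0.re c1.re c2.re := by
  refine IsBigO.trans (IsBigO.of_bound 1 (Eventually.of_forall fun τ => ?_)) h
  rw [one_mul, Real.norm_eq_abs]
  refine le_trans (le_of_eq ?_) (Complex.abs_re_le_norm _)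
  simp [← Complex.ofReal_pow]

theorem J2.im (h : J2 F c0 c1 c2) : J2 (fun τ => (F τ).im) c0.im c1.im c2.im := by
  refine IsBigO.trans (IsBigO.of_bound 1 (Eventually.of_forall fun τ => ?_)) h
  rw [one_mul, Real.norm_eq_abs]
  refine le_trans (le_of_eq ?_) (Complex.abs_im_le_norm _)
  simp [← Complex.ofReal_pow]

theorem J3.im (h : J3 F c0 c1 c2 c3) : J3 (fun τ => (F τ).im) c0.im c1.im c2.im c3.im := by
  refine IsBigO.trans (IsBigO.of_bound 1 (Eventually.of_forall fun τ => ?_)) h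
  rw [one_mul, Real.norm_eq_abs]
  refine le_trans (le_of_eq ?_) (Complex.abs_im_le_norm _)
  simp [← Complex.ofReal_pow]

theorem J2.ofReal (h : J2 u r0 r1 r2) : J2 (fun τ => (u τ : ℂ)) (r0 : ℂ) (r1 : ℂ) (r2 : ℂ) := by
  refine IsBigO.trans (IsBigO.of_bound 1 (Eventually.of_forall fun τ => ?_)) h
  rw [one_mul, ← Complex.norm_real]
  refine le_of_eq ?_
  simp

theorem J2.clog (h : J2 F c0 c1 c2) (h0 : c0 ∈ Complex.slitPlane) :
    J2 (fun τ => Complex.log (F τ)) (Complex.log c0) (c1 / c0) (c2 / c0 - c1 ^ 2 / (2 * c0 ^ 2)) := by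
  have hc : c0 ≠ 0 := Complex.slitPlane_ne_zero h0
  have ht : Tendsto (fun w : ℂ => w / c0) (𝓝 0) (𝓝 0) := by
    simpa using (continuous_id.div_const c0).tendsto (0 : ℂ)
  have h1 := (Complex.log_sub_logTaylor_isBigO 2).comp_tendsto ht
  have h2 : (fun w : ℂ => (w / c0) ^ (2 + 1)) =O[𝓝 0] fun w : ℂ => w ^ 3 := by
    refine ((isBigO_refl (fun w : ℂ => w ^ 3) (𝓝 0)).const_mul_left (c0⁻¹ ^ 3)).congr_left
      fun w => ?_
    ring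
  have ht1 : Tendsto (fun w : ℂ => 1 + w / c0) (𝓝 0) (𝓝 1) := by
    simpa using ht.const_add 1
  have ha : Tendsto (fun w : ℂ => c0.arg + (1 + w / c0).arg) (𝓝 0) (𝓝 c0.arg) := by
    have := ((Complex.continuousAt_arg Complex.one_mem_slitPlane).tendsto.comp ht1).const_add c0.arg
    simpa using this
  have h3 : ∀ᶠ w : ℂ in 𝓝 0, c0.arg + (1 + w / c0).arg ∈ Ioo (-π) π :=
    ha.eventually (Ioo_mem_nhds (Complex.neg_pi_lt_arg c0)
      (lt_of_le_of_ne (Complex.arg_le_pi c0) (Complex.slitPlane_arg_ne_pi h0)))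
  have h4 : ∀ᶠ w : ℂ in 𝓝 0, 1 + w / c0 ≠ 0 := ht1.eventually_ne one_ne_zero
  refine (wjet_comp (b0 := Complex.log c0) (b1 := c0⁻¹) (b2 := -(2 * c0 ^ 2)⁻¹) h
    ((h1.trans h2).congr' ?_ EventuallyEq.rfl)).of_eq rfl (by ring) (by ring)
  filter_upwards [h3, h4] with w h3 h4
  have h5 : c0 + w = c0 * (1 + w / c0) := by field_simp
  rw [h5, (Complex.log_mul_eq_add_log_iff hc h4).2 (Ioo_subset_Ioc_self h3)]
  simp only [Function.comp, Complex.logTaylor, Finset.sum_range_succ, Finset.sum_range_zero]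
  push_cast
  ring

theorem J2.cexp (h : J2 F c0 c1 c2) :
    J2 (fun τ => Complex.exp (F τ)) (Complex.exp c0) (Complex.exp c0 * c1)
      (Complex.exp c0 * (c2 + c1 ^ 2 / 2)) := by
  have h1 := (Complex.exp_sub_sum_range_isBigO_pow 3).const_mul_left (Complex.exp c0)
  refine (wjet_comp (b0 := Complex.exp c0) (b1 := Complex.exp c0) (b2 := Complex.exp c0 / 2) h
    (h1.congr_left fun w => ?_)).of_eq rfl rfl (by ring)
  rw [Complex.exp_add]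
  simp only [Finset.sum_range_succ, Finset.sum_range_zero, Nat.factorial]
  push_cast
  ring

end complex

section triples
variable {u v : ℝ → ℝ} {x y : T3}

theorem JT.mul (h : JT u x) (h' : JT v y) : JT (fun τ => u τ * v τ) (jmul x y) := J2.mul h h'

theorem JT.inv (h : JT u x) (h0 : x.1 ≠ 0) : JT (fun τ => (u τ)⁻¹) (jinv x) := J2.inv h h0

theorem JT.sqrt (h : JT u x) (h0 : 0 < x.1) : JT (fun τ => √(u τ)) (jsqrt x) := by
  have h' : J2 u x.1 x.2.1 x.2.2 := h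
  have hs : 0 < √x.1 := Real.sqrt_pos.2 h0
  have hs2 : √x.1 * √x.1 = x.1 := Real.mul_self_sqrt h0.le
  have hp := j2_poly (jsqrt x).1 (jsqrt x).2.1 (jsqrt x).2.2
  set p : ℝ → ℝ := fun τ => (jsqrt x).1 + (jsqrt x).2.1 * ((τ : ℝ) : ℝ)
    + (jsqrt x).2.2 * ((τ : ℝ) : ℝ) ^ 2 with hpdef
  change J2 p _ _ _ at hp
  have h1 : J2 (fun τ => u τ - p τ * p τ) 0 0 0 := by
    refine (h'.sub (hp.mul hp)).of_eq ?_ ?_ ?_
    · simp only [jsqrt]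
      rw [hs2, sub_self]
    · simp only [jsqrt]
      field_simp
      ring
    · simp only [jsqrt]
      field_simp
      ring
  have h2 : (fun τ => u τ - p τ * p τ) =O[𝓝 0] fun τ : ℝ => τ ^ 3 := by
    refine IsBigO.congr_left h1 fun τ => ?_
    simp
  have hc : ContinuousAt (fun τ => √(u τ) + p τ) 0 := h'.cont.sqrt.add hp.cont
  have hv : √(u 0) + p 0 ≠ 0 := by
    rw [h'.val, hp.val]
    exact (add_pos hs hs).ne'
  have h3 : (fun τ => (√(u τ) + p τ)⁻¹) =O[𝓝 0] fun _ : ℝ => (1 : ℝ) := (hc.inv₀ hv).isBigO_one ℝ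
  have h4 : ∀ᶠ τ in 𝓝 (0 : ℝ), 0 < u τ :=
    h'.cont.eventually (lt_mem_nhds (by rw [h'.val]; exact h0))
  have h5 : ∀ᶠ τ in 𝓝 (0 : ℝ), √(u τ) + p τ ≠ 0 := hc.eventually_ne hv
  refine hp.of_sub ((h2.mul h3).congr' ?_ (Eventually.of_forall fun τ => mul_one _))
  filter_upwards [h4, h5] with τ h4 h5
  have h6 : √(u τ) * √(u τ) = u τ := Real.mul_self_sqrt h4.le
  rw [mul_inv_eq_iff_eq_mul₀ h5]
  linear_combination -h6

end triples

end Pool.Agent.HillD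
end

-- part Pool.Agent.P.MP_ae2765_an.WMain
section

/-! The three-jet of the main term along the tangent line. -/

namespace Pool.Agent.HillD
open Real Set Filter Topology Asymptotics

lemma wmain_sqrt {x T : ℝ} (hT : 0 < T) : |√x - T| * T ≤ |T ^ 2 - x| := by
  rcases le_total 0 x with hx | hx
  · have h1 : T ^ 2 - x = -((√x - T) * (√x + T)) := by
      have := Real.sq_sqrt hx
      nlinarith
    rw [h1, abs_neg, abs_mul, abs_of_nonneg (by positivity : 0 ≤ √x + T)]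
    exact mul_le_mul_of_nonneg_left (by linarith [Real.sqrt_nonneg x]) (abs_nonneg _)
  · rw [Real.sqrt_eq_zero_of_nonpos hx, zero_sub, abs_neg, abs_of_pos hT]
    exact le_trans (by nlinarith) (le_abs_self _)

noncomputable def wmainW (τ b c1 c2 c3 : ℝ) : ℝ :=
  ((c2 ^ 2 + 2 * c1 * c3) + 2 * b * (2 * c3 + 2 * c1 * c2) + b * (c1 ^ 2 + 2 * c2)) +
  (2 * c2 * c3 + 2 * b * (c2 ^ 2 + 2 * c1 * c3) + b * (2 * c3 + 2 * c1 * c2)) * τ +
  (c3 ^ 2 + 2 * b * (2 * c2 * c3) + b * (c2 ^ 2 + 2 * c1 * c3)) * τ ^ 2 +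
  (2 * b * c3 ^ 2 + b * (2 * c2 * c3)) * τ ^ 3 + b * c3 ^ 2 * τ ^ 4

lemma wmain_unif (s : ℝ) : ∃ C ε : ℝ, 0 < ε ∧ ∀ τ y b : ℝ, |τ| ≤ ε → y ∈ Icc (0 : ℝ) 1 →
    b ∈ Icc (0 : ℝ) 1 →
    |√((1 + s * τ) * (1 + (s + (2 - s) * y) * τ + y * τ ^ 2) / (1 + b * (2 * τ + τ ^ 2))) -
      (1 + el1 s y b * τ + (el2 s y b + el1 s y b ^ 2) / 2 * τ ^ 2 +
        (el3 s y b + 3 * el1 s y b * el2 s y b + el1 s y b ^ 3) / 6 * τ ^ 3)| ≤ C * τ ^ 4 := by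
  have hK : IsCompact (Icc (-1 : ℝ) 1 ×ˢ (Icc (0 : ℝ) 1 ×ˢ Icc (0 : ℝ) 1)) :=
    isCompact_Icc.prod (isCompact_Icc.prod isCompact_Icc)
  obtain ⟨A, hA⟩ := hK.exists_bound_of_continuousOn (f := fun p : ℝ × ℝ × ℝ =>
    wmainW p.1 p.2.2 (el1 s p.2.1 p.2.2) ((el2 s p.2.1 p.2.2 + el1 s p.2.1 p.2.2 ^ 2) / 2)
      ((el3 s p.2.1 p.2.2 + 3 * el1 s p.2.1 p.2.2 * el2 s p.2.1 p.2.2 +
        el1 s p.2.1 p.2.2 ^ 3) / 6))
    (by unfold wmainW el1 el2 el3; fun_prop)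
  obtain ⟨B, hB⟩ := hK.exists_bound_of_continuousOn (f := fun p : ℝ × ℝ × ℝ =>
    el1 s p.2.1 p.2.2 + (el2 s p.2.1 p.2.2 + el1 s p.2.1 p.2.2 ^ 2) / 2 * p.1 +
      (el3 s p.2.1 p.2.2 + 3 * el1 s p.2.1 p.2.2 * el2 s p.2.1 p.2.2 +
        el1 s p.2.1 p.2.2 ^ 3) / 6 * p.1 ^ 2)
    (by unfold el1 el2 el3; fun_prop)
  refine ⟨4 * A, min (1 / 6) (1 / (2 * (|B| + 1))), by positivity, fun τ y b hτ hy hb => ?_⟩
  have h1 : |τ| ≤ 1 / 6 := hτ.trans (min_le_left _ _)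
  have h2 : |τ| ≤ 1 / (2 * (|B| + 1)) := hτ.trans (min_le_right _ _)
  have h3 := abs_le.1 h1
  have hm : (τ, y, b) ∈ Icc (-1 : ℝ) 1 ×ˢ (Icc (0 : ℝ) 1 ×ˢ Icc (0 : ℝ) 1) :=
    ⟨⟨by linarith [h3.1], by linarith [h3.2]⟩, hy, hb⟩
  have hA' := hA _ hm
  have hB' := hB _ hm
  simp only [Real.norm_eq_abs] at hA' hB'
  have hid : (1 + el1 s y b * τ + (el2 s y b + el1 s y b ^ 2) / 2 * τ ^ 2 +
        (el3 s y b + 3 * el1 s y b * el2 s y b + el1 s y b ^ 3) / 6 * τ ^ 3) ^ 2 *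
        (1 + b * (2 * τ + τ ^ 2)) - (1 + s * τ) * (1 + (s + (2 - s) * y) * τ + y * τ ^ 2) =
      τ ^ 4 * wmainW τ b (el1 s y b) ((el2 s y b + el1 s y b ^ 2) / 2)
        ((el3 s y b + 3 * el1 s y b * el2 s y b + el1 s y b ^ 3) / 6) := by
    unfold wmainW el1 el2 el3; ring
  generalize wmainW τ b (el1 s y b) ((el2 s y b + el1 s y b ^ 2) / 2)
    ((el3 s y b + 3 * el1 s y b * el2 s y b + el1 s y b ^ 3) / 6) = W at hA' hid
  generalize (el3 s y b + 3 * el1 s y b * el2 s y b + el1 s y b ^ 3) / 6 = c3 at hB' hid ⊢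
  generalize (el2 s y b + el1 s y b ^ 2) / 2 = c2 at hB' hid ⊢
  generalize el1 s y b = c1 at hB' hid ⊢
  generalize (1 + s * τ) * (1 + (s + (2 - s) * y) * τ + y * τ ^ 2) = N at hid ⊢
  have hD : 1 / 2 ≤ 1 + b * (2 * τ + τ ^ 2) := by
    have : -(1 / 2) ≤ 2 * τ + τ ^ 2 := by nlinarith [sq_nonneg τ]
    nlinarith [hb.1, hb.2]
  have hT : 1 / 2 ≤ 1 + c1 * τ + c2 * τ ^ 2 + c3 * τ ^ 3 := by
    have h4 : |τ * (c1 + c2 * τ + c3 * τ ^ 2)| ≤ 1 / 2 := by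
      rw [abs_mul]
      calc _ ≤ 1 / (2 * (|B| + 1)) * (|B| + 1) :=
            mul_le_mul h2 (by linarith [le_abs_self B]) (abs_nonneg _) (by positivity)
        _ = _ := by field_simp
    have := (abs_le.1 h4).1
    nlinarith
  generalize 1 + b * (2 * τ + τ ^ 2) = D at hid hD ⊢
  generalize 1 + c1 * τ + c2 * τ ^ 2 + c3 * τ ^ 3 = T at hid hT ⊢
  have h5 := wmain_sqrt (x := N / D) (by linarith : 0 < T)
  have h6 : |T ^ 2 - N / D| * D = τ ^ 4 * |W| := by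
    have hD0 : 0 < D := by linarith
    rw [← abs_of_pos hD0, ← abs_mul, abs_of_pos hD0, sub_mul, div_mul_cancel₀ _ hD0.ne', hid,
      abs_mul, abs_of_nonneg (by positivity : 0 ≤ τ ^ 4)]
  have h7 : τ ^ 4 * |W| ≤ τ ^ 4 * A := mul_le_mul_of_nonneg_left hA' (by positivity)
  have h8 := mul_le_mul_of_nonneg_left hD (abs_nonneg (T ^ 2 - N / D))
  have h9 := mul_le_mul_of_nonneg_left hT (abs_nonneg (√(N / D) - T))
  linarith

lemma wmain_qr {δ0 ω0 s τ φ : ℝ} (hδ : 0 < δ0) (hω : 0 < ω0) (hτ : 0 < 1 + τ) :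
    qr (ω0 * (1 + s * τ)) (jj (δ0 * (1 + τ))) φ = qr ω0 (jj δ0) φ *
      √((1 + s * τ) * (1 + (s + (2 - s) * yv ω0 (jj δ0) φ) * τ + yv ω0 (jj δ0) φ * τ ^ 2) /
        (1 + bv (jj δ0) φ * (2 * τ + τ ^ 2))) := by
  obtain ⟨j1, j2⟩ := jj_bd hδ
  obtain ⟨p1, p2, -⟩ := real_axis (φ := φ) hω j1 j2
  unfold qr
  rw [← Real.sqrt_mul (by positivity)]
  refine congrArg _ ?_
  have hX : 0 ≤ cos φ ^ 2 := sq_nonneg _
  unfold yv bv Pr Qr jj
  generalize cos φ ^ 2 = X at hX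
  have e1 : ∀ δ : ℝ, 1 - 2 * (1 / (δ ^ 2 + 2)) = δ ^ 2 / (δ ^ 2 + 2) := fun δ => by
    field_simp; ring
  have e2 : ∀ ω δ : ℝ, ω * (1 / (δ ^ 2 + 2)) + δ ^ 2 / (δ ^ 2 + 2) * X =
      (ω + δ ^ 2 * X) / (δ ^ 2 + 2) := fun ω δ => by field_simp
  have e3 : ∀ δ : ℝ, 1 + δ ^ 2 / (δ ^ 2 + 2) * X = (δ ^ 2 + 2 + δ ^ 2 * X) / (δ ^ 2 + 2) :=
    fun δ => by field_simp
  simp only [e1, e2, e3]
  have e4 : 1 + δ0 ^ 2 / (δ0 ^ 2 + 2) * (1 + X) / ((δ0 ^ 2 + 2 + δ0 ^ 2 * X) / (δ0 ^ 2 + 2)) *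
      (2 * τ + τ ^ 2) = ((δ0 * (1 + τ)) ^ 2 + 2 + (δ0 * (1 + τ)) ^ 2 * X) /
        (δ0 ^ 2 + 2 + δ0 ^ 2 * X) := by
    field_simp; ring
  rw [e4]
  field_simp
  ring

lemma wmain_mem {δ0 ω0 φ : ℝ} (hδ : 0 < δ0) (hω : 0 < ω0) :
    yv ω0 (jj δ0) φ ∈ Icc (0 : ℝ) 1 ∧ bv (jj δ0) φ ∈ Icc (0 : ℝ) 1 := by
  obtain ⟨j1, j2⟩ := jj_bd hδ
  obtain ⟨p1, p2, -⟩ := real_axis (φ := φ) hω j1 j2
  have hX : 0 ≤ cos φ ^ 2 := sq_nonneg _
  have hk : 0 ≤ 1 - 2 * jj δ0 := by linarith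
  refine ⟨⟨div_nonneg (mul_nonneg hk hX) p1.le, (div_le_one p1).2 ?_⟩,
    ⟨div_nonneg (mul_nonneg hk (by linarith)) p2.le, (div_le_one p2).2 ?_⟩⟩
  · unfold Pr; nlinarith [mul_pos hω j1]
  · unfold Qr; nlinarith

lemma wmain_int {u v0 v1 v2 v3 : ℝ → ℝ} (hu : Continuous u) (h0 : Continuous v0)
    (h1 : Continuous v1) (h2 : Continuous v2) (h3 : Continuous v3) (a b τ : ℝ) :
    (∫ x in a..b, u x) - ((∫ x in a..b, v0 x) + (∫ x in a..b, v1 x) * τ +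
      (∫ x in a..b, v2 x) * τ ^ 2 + (∫ x in a..b, v3 x) * τ ^ 3) =
      ∫ x in a..b, (u x - (v0 x + v1 x * τ + v2 x * τ ^ 2 + v3 x * τ ^ 3)) := by
  rw [intervalIntegral.integral_sub, intervalIntegral.integral_add, intervalIntegral.integral_add,
    intervalIntegral.integral_add, intervalIntegral.integral_mul_const,
    intervalIntegral.integral_mul_const, intervalIntegral.integral_mul_const] <;>
  exact Continuous.intervalIntegrable (by fun_prop) _ _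

theorem main_jet3 {δ0 ω0 φ1 : ℝ} (hδ : 0 < δ0) (hω : 0 < ω0) (s : ℝ) :
    J3 (fun τ => Mn φ1 (ω0 * (1 + s * τ)) (jj (δ0 * (1 + τ)))) (Mn φ1 ω0 (jj δ0))
      (F1 φ1 ω0 (jj δ0) s) (F2 φ1 ω0 (jj δ0) s) (F3 φ1 ω0 (jj δ0) s) := by
  obtain ⟨C, ε, hε, hC⟩ := wmain_unif s
  obtain ⟨j1, j2⟩ := jj_bd hδ
  obtain ⟨c1, c2, c3, -⟩ := qr_cont hω j1 j2
  obtain ⟨M, hM⟩ := (isCompact_uIcc (a := (0 : ℝ)) (b := φ1)).exists_bound_of_continuousOn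
    c1.continuousOn
  refine IsBigO.of_bound (|M| * C * |φ1 - 0|) ?_
  have ev1 : ∀ᶠ τ in 𝓝 (0 : ℝ), |τ| ≤ ε := by
    have : ContinuousAt (fun τ : ℝ => |τ|) 0 := continuous_abs.continuousAt
    exact this.eventually_le_const (by simpa using hε)
  have ev2 : ∀ᶠ τ in 𝓝 (0 : ℝ), 0 < 1 + τ := by
    have : ContinuousAt (fun τ : ℝ => 1 + τ) 0 := by fun_prop
    exact this.eventually_const_lt (by simp)
  have ev3 : ∀ᶠ τ in 𝓝 (0 : ℝ), 0 < 1 + s * τ := by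
    have : ContinuousAt (fun τ : ℝ => 1 + s * τ) 0 := by fun_prop
    exact this.eventually_const_lt (by simp)
  filter_upwards [ev1, ev2, ev3] with τ h1 h2 h3
  obtain ⟨k1, k2⟩ := jj_bd (mul_pos hδ h2)
  obtain ⟨d1, -⟩ := qr_cont (mul_pos hω h3) k1 k2
  have g1 : Continuous fun φ => qr ω0 (jj δ0) φ * el1 s (yv ω0 (jj δ0) φ) (bv (jj δ0) φ) := by
    unfold el1; fun_prop
  have g2 : Continuous fun φ => qr ω0 (jj δ0) φ * ((el2 s (yv ω0 (jj δ0) φ) (bv (jj δ0) φ) +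
      el1 s (yv ω0 (jj δ0) φ) (bv (jj δ0) φ) ^ 2) / 2) := by
    unfold el1 el2; fun_prop
  have g3 : Continuous fun φ => qr ω0 (jj δ0) φ * ((el3 s (yv ω0 (jj δ0) φ) (bv (jj δ0) φ) +
      3 * el1 s (yv ω0 (jj δ0) φ) (bv (jj δ0) φ) * el2 s (yv ω0 (jj δ0) φ) (bv (jj δ0) φ) +
      el1 s (yv ω0 (jj δ0) φ) (bv (jj δ0) φ) ^ 3) / 6) := by
    unfold el1 el2 el3; fun_prop
  simp only [RCLike.ofReal_real_eq_id, id_eq]
  unfold Mn F1 F2 F3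
  rw [wmain_int d1 c1 g1 g2 g3]
  refine (intervalIntegral.norm_integral_le_of_norm_le_const (C := |M| * (C * τ ^ 4))
    fun φ hφ => ?_).trans (le_of_eq ?_)
  · obtain ⟨m1, m2⟩ := wmain_mem (φ := φ) hδ hω
    have h4 := hC τ _ _ h1 m1 m2
    have h5 := (hM φ (uIoc_subset_uIcc hφ)).trans (le_abs_self M)
    rw [wmain_qr hδ hω h2]
    refine le_trans (le_of_eq ?_) (mul_le_mul h5 h4 (abs_nonneg _) (abs_nonneg _))
    rw [Real.norm_eq_abs, Real.norm_eq_abs, ← abs_mul]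
    refine congrArg _ ?_
    ring
  · rw [Real.norm_eq_abs, abs_of_nonneg (by positivity : 0 ≤ τ ^ 4)]
    ring

end Pool.Agent.HillD
end

-- part Pool.Agent.P.MP_ae2765_an.WLine
section

/-! The phase along the tangent line when the path ends at `π / 2`. -/

namespace Pool.Agent.HillD
open Real Set Filter Topology Asymptotics

theorem wline_den {δ0 : ℝ} (hδ : 0 < δ0) {τ : ℂ} (h : ‖τ‖ < 1) :
    (δ0 : ℂ) ^ 2 * (1 + τ) ^ 2 + 2 ≠ 0 := by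
  intro h0
  have hre : |τ.re| < 1 := (Complex.abs_re_le_norm τ).trans_lt h
  have h1 : 0 < 1 + τ.re := by linarith [(abs_lt.1 hre).1]
  have e1 := congrArg Complex.re h0
  have e2 := congrArg Complex.im h0
  simp [pow_two] at e1 e2
  have hd : 0 < δ0 * δ0 := mul_pos hδ hδ
  have him : τ.im = 0 := by
    rcases e2 with e2 | e2
    · exact absurd e2 hδ.ne'
    · have e3 : (2 * (1 + τ.re)) * τ.im = 0 := by linarith
      exact (mul_eq_zero.1 e3).resolve_left (by positivity)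
  rw [him] at e1
  nlinarith [mul_pos hd (mul_pos h1 h1)]

theorem wline_jet {δ0 ω0 s r E C : ℝ} (hδ : 0 < δ0) (hω : 0 < ω0) (hr : 0 < r) {H : ℂ → ℂ}
    (hd : DifferentiableOn ℂ H (Metric.ball 0 r)) (hM : ∀ τ ∈ Metric.ball (0 : ℂ) r, ‖H τ‖ ≤ E)
    {ϕ : ℝ → ℝ}
    (hϕ : ∀ τ : ℝ, ϕ τ = Mn (π / 2) (ω0 * (1 + s * τ)) (jj (δ0 * (1 + τ))) + (H τ).im + C) :
    ∃ c0 e1 e2 e3 : ℝ, |e1| ≤ E / r ∧ |e2| ≤ E / r ^ 2 ∧ |e3| ≤ E / r ^ 3 ∧
      J3 ϕ c0 (F1 (π / 2) ω0 (jj δ0) s + e1) (F2 (π / 2) ω0 (jj δ0) s + e2)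
        (F3 (π / 2) ω0 (jj δ0) s + e3) := by
  obtain ⟨c1, c2, c3, -, h1, h2, h3, hJ⟩ := hol_jet hr hd hM
  have h4 := ((main_jet3 (φ1 := π / 2) hδ hω s).add hJ.im).add (j3_const C)
  refine ⟨Mn (π / 2) ω0 (jj δ0) + (H 0).im + C, c1.im, c2.im, c3.im,
    (Complex.abs_im_le_norm _).trans h1, (Complex.abs_im_le_norm _).trans h2,
    (Complex.abs_im_le_norm _).trans h3, ?_⟩
  simp only [add_zero] at h4
  exact h4.congr (Eventually.of_forall fun τ => (hϕ τ).symm)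

theorem wline_er (ω j : ℝ) : er ω j (π / 2) = 0 := by simp [er]

theorem wline_im {q a x : ℝ} {z : ℂ} (hz : 1 + z ≠ 0) :
    ((((0 : ℝ) : ℂ) - (((0 : ℝ) : ℂ) + Complex.I * q * (1 + z)) / (a : ℂ) * ((1 : ℝ) : ℂ)) *
      Complex.exp (Complex.I *
        ((x - (x + (Complex.log (1 + z)).im + π / 2) : ℝ) : ℂ))).im = 0 := by
  set L := Complex.log (1 + z) with hL
  have h1 : 1 + z = Complex.exp L := (Complex.exp_log hz).symm
  have h2 : Complex.exp L * Complex.exp (Complex.I * ((x - (x + L.im + π / 2) : ℝ) : ℂ)) =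
      (Real.exp L.re : ℂ) * (-Complex.I) := by
    rw [← Complex.exp_add, ← Complex.exp_neg_pi_div_two_mul_I, Complex.ofReal_exp,
      ← Complex.exp_add]
    congr 1
    apply Complex.ext
    · simp
    · simp
      ring
  have h3 : (((0 : ℝ) : ℂ) - (((0 : ℝ) : ℂ) + Complex.I * q * (1 + z)) / (a : ℂ) * ((1 : ℝ) : ℂ)) *
      Complex.exp (Complex.I * ((x - (x + L.im + π / 2) : ℝ) : ℂ)) =
      ((-(q / a * Real.exp L.re) : ℝ) : ℂ) := by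
    have h4 : (((0 : ℝ) : ℂ) - (((0 : ℝ) : ℂ) + Complex.I * q * (1 + z)) / (a : ℂ) *
        ((1 : ℝ) : ℂ)) * Complex.exp (Complex.I * ((x - (x + L.im + π / 2) : ℝ) : ℂ)) =
        -(Complex.I * q / a) * (Complex.exp L *
          Complex.exp (Complex.I * ((x - (x + L.im + π / 2) : ℝ) : ℂ))) := by
      rw [h1, Complex.ofReal_zero, Complex.ofReal_one]
      ring
    rw [h4, h2, Complex.ofReal_neg, Complex.ofReal_mul, Complex.ofReal_div]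
    linear_combination ((q : ℂ) / a * (Real.exp L.re : ℂ)) * Complex.I_sq
  rw [h3, Complex.ofReal_im]

theorem line90 (typ : Bool) {δ0 ω0 s r κ0 c γ bb N T E : ℝ} {b b' : ℝ → ℝ} (hδ : 0 < δ0)
    (hω : 0 < ω0) (hr : 0 < r) (hr1 : r < 1)
    (hW : ∀ τ ∈ Metric.ball (0 : ℂ) r, Wk (π / 2) (lΩ ω0 s τ) (lJ δ0 τ) κ0 γ N T b b')
    (hb : ∀ u ∈ Icc (0 : ℝ) 1, HasDerivAt b (b' u) u ∧ 0 < b u ∧ b u ≤ bb)
    (hκ : κ0 < 1) (hc : 0 ≤ c) (hc2 : 2 * c ^ 2 ≤ 1 - κ0) (hγ : 0 < γ) (hγc : γ + bb ≤ 2 * c)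
    (hb1 : b 1 ≤ 1 / 2) (hE : N / (2 * γ ^ 2) + T + b 1 / 2 + b 1 ^ 2 ≤ E) :
    ∃ (ϕ : ℝ → ℝ) (c0 e1 e2 e3 : ℝ),
      Rp typ (fun τ => δ0 * (1 + τ)) (fun τ => ω0 * (1 + s * τ)) ϕ ∧
      |e1| ≤ E / r ∧ |e2| ≤ E / r ^ 2 ∧ |e3| ≤ E / r ^ 3 ∧
      J3 ϕ c0 (F1 (π / 2) ω0 (jj δ0) s + e1) (F2 (π / 2) ω0 (jj δ0) s + e2)
        (F3 (π / 2) ω0 (jj δ0) s + e3) := by
  have hπ : 0 < π / 2 := by positivity
  have hΩ : DifferentiableOn ℂ (lΩ ω0 s) (Metric.ball 0 r) := by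
    unfold lΩ; fun_prop
  have hJ : DifferentiableOn ℂ (lJ δ0) (Metric.ball 0 r) := by
    unfold lJ
    refine DifferentiableOn.div (by fun_prop) (by fun_prop) fun τ hτ => wline_den hδ ?_
    exact (mem_ball_zero_iff.1 hτ).trans hr1
  obtain ⟨k, z, dk, dz, dT, hkz⟩ := pack hπ le_rfl hΩ hJ hW hb hκ hc hc2 hγ hγc
  have eΩ : ∀ τ : ℝ, lΩ ω0 s τ = ((ω0 * (1 + s * τ) : ℝ) : ℂ) := by
    intro τ; unfold lΩ; push_cast; rfl
  have eJ : ∀ τ : ℝ, lJ δ0 τ = ((jj (δ0 * (1 + τ)) : ℝ) : ℂ) := by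
    intro τ; unfold lJ jj; push_cast; rw [mul_pow]
  have cδ : ContinuousAt (fun τ : ℝ => δ0 * (1 + τ)) 0 := by fun_prop
  have cω : ContinuousAt (fun τ : ℝ => ω0 * (1 + s * τ)) 0 := by fun_prop
  have hδ0 : 0 < δ0 * (1 + (0 : ℝ)) := by simpa using hδ
  have hω0 : 0 < ω0 * (1 + s * (0 : ℝ)) := by simpa using hω
  have h0r : (0 : ℂ) ∈ Metric.ball (0 : ℂ) r := Metric.mem_ball_self hr
  have cz : ContinuousAt (fun τ : ℝ => z τ) 0 := by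
    have h1 : ContinuousAt z ((0 : ℝ) : ℂ) := by
      rw [Complex.ofReal_zero]
      exact (dz.differentiableAt (Metric.ball_mem_nhds _ hr)).continuousAt
    exact ContinuousAt.comp (f := fun τ : ℝ => (τ : ℂ)) h1 Complex.continuous_ofReal.continuousAt
  have hzn : ∀ τ ∈ Metric.ball (0 : ℂ) r, ‖z τ‖ ≤ 1 / 2 := fun τ hτ => (hkz τ hτ).1.trans hb1
  have hzre : ∀ τ ∈ Metric.ball (0 : ℂ) r, 0 < (1 + z τ).re := by
    intro τ hτ
    have h1 := (Complex.abs_re_le_norm (z τ)).trans (hzn τ hτ)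
    rw [Complex.add_re, Complex.one_re]
    linarith [(abs_le.1 h1).1]
  have hev : ∀ᶠ τ : ℝ in 𝓝 0, (τ : ℂ) ∈ Metric.ball (0 : ℂ) r := by
    filter_upwards [Metric.ball_mem_nhds (0 : ℝ) hr] with τ hτ
    rw [mem_ball_zero_iff] at hτ ⊢
    rwa [Complex.norm_real]
  have hB : ∀ᶠ τ : ℝ in 𝓝 0, Br (π / 2) (δ0 * (1 + τ)) (ω0 * (1 + s * τ)) (k τ) (z τ) := by
    filter_upwards [hev, cδ.eventually (lt_mem_nhds hδ0), cω.eventually (lt_mem_nhds hω0)]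
      with τ h1 h2 h3
    exact (hkz τ h1).2.2 _ _ h2 h3 (eΩ τ) (eJ τ)
  have hb0 : 0 < b 1 := (hb 1 ⟨zero_le_one, le_rfl⟩).2.1
  have d1 : DifferentiableOn ℂ (fun τ => k τ + Complex.I * Tt (π / 2) (lΩ ω0 s τ) (lJ δ0 τ))
      (Metric.ball 0 r) := dk.add (dT.const_mul _)
  have n1 : ∀ τ ∈ Metric.ball (0 : ℂ) r,
      ‖k τ + Complex.I * Tt (π / 2) (lΩ ω0 s τ) (lJ δ0 τ)‖ ≤ E := by
    intro τ hτ
    have e : k τ + Complex.I * Tt (π / 2) (lΩ ω0 s τ) (lJ δ0 τ) =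
        (k τ + z τ / 2) + Complex.I * Tt (π / 2) (lΩ ω0 s τ) (lJ δ0 τ) - z τ / 2 := by ring
    have h1 := (hkz τ hτ).1
    have h2 := (hkz τ hτ).2.1
    have h3 := (hW τ hτ).tt
    rw [e]
    refine (norm_sub_le _ _).trans ?_
    refine (add_le_add (norm_add_le _ _) le_rfl).trans ?_
    rw [norm_mul, Complex.norm_I, one_mul, norm_div, Complex.norm_two]
    nlinarith [sq_nonneg (b 1)]
  have eph : ∀ τ : ℝ, ph0 (π / 2) (ω0 * (1 + s * τ)) (jj (δ0 * (1 + τ))) (k τ) =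
      Mn (π / 2) (ω0 * (1 + s * τ)) (jj (δ0 * (1 + τ))) +
        (k τ + Complex.I * Tt (π / 2) (lΩ ω0 s τ) (lJ δ0 τ)).im + 0 := by
    intro τ
    rw [ph0, wline_er, eΩ, eJ, Complex.add_im, Complex.I_mul_im]
    ring
  obtain ⟨c0, e1, e2, e3, h1, h2, h3, hJ3⟩ := wline_jet hδ hω hr d1 n1 eph
  have cp := hJ3.j2.cont
  have hmem : π / 2 ∈ Icc 0 π := ⟨hπ.le, by linarith⟩
  have hz0 : 0 < (1 + z ((0 : ℝ) : ℂ)).re := hzre _ (by rwa [Complex.ofReal_zero])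
  cases typ with
  | true =>
    refine ⟨_, c0, e1, e2, e3, ?_, h1, h2, h3, hJ3⟩
    refine rp_of_br (v1 := fun _ => 0) (y1 := fun _ => 1) (k := fun τ : ℝ => k τ)
      (z := fun τ : ℝ => z τ) hmem cδ cω hδ0 hω0 cz hz0 cp cp hB
      (Eventually.of_forall fun τ => tr90_true _ _) (Eventually.of_forall fun τ => ?_)
    simp
  | false =>
    have d2 : DifferentiableOn ℂ (fun τ => k τ + Complex.I * Tt (π / 2) (lΩ ω0 s τ) (lJ δ0 τ)
        + Complex.log (1 + z τ)) (Metric.ball 0 r) :=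
      d1.add ((dz.const_add 1).clog fun τ hτ => Or.inl (hzre τ hτ))
    have n2 : ∀ τ ∈ Metric.ball (0 : ℂ) r,
        ‖k τ + Complex.I * Tt (π / 2) (lΩ ω0 s τ) (lJ δ0 τ) + Complex.log (1 + z τ)‖ ≤ E := by
      intro τ hτ
      have e : k τ + Complex.I * Tt (π / 2) (lΩ ω0 s τ) (lJ δ0 τ) + Complex.log (1 + z τ) =
          (k τ + z τ / 2) + Complex.I * Tt (π / 2) (lΩ ω0 s τ) (lJ δ0 τ) + z τ / 2
            + (Complex.log (1 + z τ) - z τ) := by ring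
      have g1 := (hkz τ hτ).1
      have g2 := (hkz τ hτ).2.1
      have g3 := (hW τ hτ).tt
      have g4 := hzn τ hτ
      have g5 := Complex.norm_log_one_add_sub_self_le (z := z τ) (by linarith)
      have g6 : (1 - ‖z τ‖)⁻¹ ≤ 2 := by
        rw [inv_le_comm₀ (by linarith) (by norm_num)]
        linarith
      have g7 : ‖z τ‖ ^ 2 ≤ b 1 ^ 2 := pow_le_pow_left₀ (norm_nonneg _) g1 2
      have g8 := mul_le_mul_of_nonneg_left g6 (sq_nonneg ‖z τ‖)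
      rw [e]
      refine (norm_add_le _ _).trans ?_
      refine (add_le_add (norm_add₃_le) le_rfl).trans ?_
      rw [norm_mul, Complex.norm_I, one_mul, norm_div, Complex.norm_two]
      linarith
    have eph2 : ∀ τ : ℝ, ph0 (π / 2) (ω0 * (1 + s * τ)) (jj (δ0 * (1 + τ))) (k τ) +
        (Complex.log (1 + z τ)).im + π / 2 =
        Mn (π / 2) (ω0 * (1 + s * τ)) (jj (δ0 * (1 + τ))) +
          (k τ + Complex.I * Tt (π / 2) (lΩ ω0 s τ) (lJ δ0 τ) + Complex.log (1 + z τ)).im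
          + π / 2 := by
      intro τ
      rw [eph, Complex.add_im _ (Complex.log _)]
      ring
    obtain ⟨c0', e1', e2', e3', h1', h2', h3', hJ3'⟩ := wline_jet hδ hω hr d2 n2 eph2
    refine ⟨_, c0', e1', e2', e3', ?_, h1', h2', h3', hJ3'⟩
    refine rp_of_br (v1 := fun _ => 1) (y1 := fun _ => 0) (k := fun τ : ℝ => k τ)
      (z := fun τ : ℝ => z τ) hmem cδ cω hδ0 hω0 cz hz0 cp hJ3'.j2.cont hB
      (Eventually.of_forall fun τ => tr90_false _ _) ?_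
    filter_upwards [hev] with τ hτ
    have hne : 1 + z τ ≠ 0 := by
      intro h
      have := hzre τ hτ
      rw [h] at this
      simp at this
    rw [etaC, wline_er]
    exact wline_im hne

end Pool.Agent.HillD
end

-- part Pool.Agent.P.MP_ae2765_an.WR1
section

/-! First region: the criterion holds. -/

namespace Pool.Agent.HillD
open Real Set Filter Topology Asymptotics Pool.Agent.HillD.Num Pool.Agent.P.MP_4c4e6e_co.Eng

theorem wr1_sq {δ0 ω0 a : ℝ} (ha : 0 ≤ a) (h : a ≤ ω0 * √(2 / (1 + δ0 ^ 2))) :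
    a ^ 2 ≤ ω0 ^ 2 * (2 / (1 + δ0 ^ 2)) := by
  have h1 := pow_le_pow_left₀ ha h 2
  rwa [mul_pow, Real.sq_sqrt (by positivity)] at h1

theorem wr1_cube {a b : ℝ} (hb : 0 ≤ b) (h : a ^ 3 ≤ b ^ 3) : a ≤ b :=
  le_of_pow_le_pow_left₀ (by norm_num) hb h

theorem wr1_deriv (n p q q' u : ℝ) (hq : q' = 2 * q) :
    HasDerivAt (fun u : ℝ => n * (p + q * (1 - u) ^ 2)) (-(n * (q' * (1 - u)))) u := by
  have h1 : HasDerivAt (fun u : ℝ => 1 - u) (-1) u := by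
    simpa using (hasDerivAt_id u).const_sub 1
  have h2 := (((h1.fun_pow 2).const_mul q).const_add p).const_mul n
  refine h2.congr_deriv ?_
  rw [hq, show (2 - 1 : ℕ) = 1 from rfl]
  push_cast
  ring

theorem r1_good1 (typ : Bool) {δ0 ω0 s : ℝ} (hδ : 0 < δ0) (hω : 0 < ω0)
    (h1 : (1 + δ0 ^ 2) ^ 2 / ω0 ≤ 23 / 5) (h2 : 69 / 2 ≤ ω0 * √(2 / (1 + δ0 ^ 2)))
    (hs0 : 0 ≤ s) (hs1 : s ≤ δ0 ^ 2 / (1 + δ0 ^ 2)) : Good typ δ0 ω0 s := by
  obtain ⟨x, hx⟩ : ∃ x, x = (1 + δ0 ^ 2) ^ 2 / ω0 := ⟨_, rfl⟩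
  obtain ⟨y, hy⟩ : ∃ y, y = 1 / (1 + δ0 ^ 2) := ⟨_, rfl⟩
  obtain ⟨S, hS⟩ : ∃ S, S = ω0 * √(2 / (1 + δ0 ^ 2)) := ⟨_, rfl⟩
  have hE : 0 < 1 + δ0 ^ 2 := by positivity
  have hD : 0 < δ0 ^ 2 := by positivity
  have hx0 : 0 < x := by rw [hx]; positivity
  have hy0 : 0 < y := by rw [hy]; positivity
  have hy1 : y < 1 := by rw [hy, div_lt_one hE]; linarith
  have hn : (1 - y) * y = δ0 ^ 2 / (1 + δ0 ^ 2) ^ 2 := by rw [hy]; field_simp; ring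
  have ht : (1 - y) * y * x = δ0 ^ 2 / ω0 := by rw [hn, hx]; field_simp
  have hn0 : 0 < (1 - y) * y := mul_pos (by linarith) hy0
  have hn1 : (1 - y) * y ≤ 1 / 4 := by nlinarith [sq_nonneg (y - 1 / 2)]
  have hq := wr1_sq (by norm_num) h2
  have hv : 4761 / 4 * (x ^ 2 * y ^ 2 * y) - 2 ≤ 0 := by
    have e : x ^ 2 * y ^ 2 * y * (ω0 ^ 2 * (2 / (1 + δ0 ^ 2))) = 2 := by
      rw [hx, hy]; field_simp
    have h0 : 0 ≤ x ^ 2 * y ^ 2 * y := by positivity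
    nlinarith [mul_le_mul_of_nonneg_left hq h0]
  rw [← hx] at h1
  have ht1 : (1 - y) * y * x ≤ 1 := by
    have h3 : y * x ≤ 1 := by
      refine wr1_cube zero_le_one ?_
      have e : (y * x) ^ 3 = x * (x ^ 2 * y ^ 2 * y) := by ring
      have h0 : 0 ≤ x ^ 2 * y ^ 2 * y := by positivity
      rw [e]
      nlinarith
    have h4 : 0 ≤ y * x := by positivity
    nlinarith
  rw [← hS] at h2
  have hS0 : 0 < S := by linarith
  obtain ⟨ϕ, c0, e1, e2, e3, hR, b1, b2, b3, hJ⟩ := line90 typ (s := s) (r := 13 / 100)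
    (c := 2982 / 10000) (bb := 213 / 1000 * ((1 - y) * y))
    (E := (1 - y) * y * S * (7 / 10000 + 31 / 500000 * (x * ((1 - y) * y * x)))) hδ hω
    (by norm_num) (by norm_num)
    (fun τ hτ => r1_err1 hδ hω hn hS (hx ▸ h1) h2 hs0 hs1 (mem_ball_zero_iff.1 hτ).le)
    (fun u hu => ⟨wr1_deriv _ _ _ _ u (by norm_num), by positivity, by
      have h3 : (1 - u) ^ 2 ≤ 1 := by nlinarith [hu.1, hu.2]
      nlinarith⟩)
    (by norm_num) (by norm_num) (by norm_num) (by norm_num) (by linarith)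
    (by show (1 - y) * y * (23 / 1000 + 19 / 100 * (1 - 1) ^ 2) ≤ 1 / 2; nlinarith)
    (by
      rw [← hx, ← ht]
      generalize (1 - y) * y = n at *
      have h3 : n * (69 / 2) ≤ n * S := mul_le_mul_of_nonneg_left h2 hn0.le
      have h4 : n * n ≤ n * (1 / 4) := mul_le_mul_of_nonneg_left hn1 hn0.le
      have e : n * S * (7 / 10000 + 31 / 500000 * (x * (n * x)))
          = n * S * (7 / 10000) + n * S * (31 / 500000 * (x * (n * x))) := by ring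
      have e' : n * S * (2053 / 10000000) / (2 * (54 / 100) ^ 2) = n * S * (2053 / 5832000) := by
        ring
      have e'' : n * (23 / 1000 + 19 / 100 * (1 - 1) ^ 2) = n * (23 / 1000) := by ring
      rw [e, e', e'']
      nlinarith)
  refine Or.inl ⟨ϕ, c0, _, _, _, hR, hJ, fun h3 h4 => ?_⟩
  rw [hS] at b1 b2 b3
  refine r1_main (av := x) (ae := 1) hδ hω hy ht ht1 hn0 rfl (mul_one _).symm (by positivity)
    (fun w hw0 hw2 => ?_) b1 b2 b3 h3 h4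
  rcases le_total x (13 / 5) with hx1 | hx1
  · exact RA_real x y w hx0.le hx1 hy0.le hy1.le hw0 hw2 hv
  · refine RB_real x y w hx1 h1 hy0.le ?_ hw0 hw2 hv
    refine wr1_cube (by norm_num) ?_
    have h5 : (13 / 5 : ℝ) ^ 2 ≤ x ^ 2 := pow_le_pow_left₀ (by norm_num) hx1 2
    have h6 : 0 ≤ y ^ 3 := by positivity
    nlinarith [mul_le_mul_of_nonneg_right h5 h6]

theorem r1_good2 (typ : Bool) {δ0 ω0 s : ℝ} (hδ : 0 < δ0) (hω : 0 < ω0) (ht : δ0 ^ 2 ≤ ω0)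
    (h1 : 23 / 5 ≤ (1 + δ0 ^ 2) ^ 2 / ω0) (h2 : 154 / 5 ≤ ω0 * √(2 / (1 + δ0 ^ 2)))
    (hs0 : 0 ≤ s) (hs1 : s ≤ δ0 ^ 2 / (1 + δ0 ^ 2)) : Good typ δ0 ω0 s := by
  obtain ⟨x, hx⟩ : ∃ x, x = δ0 ^ 2 / ω0 := ⟨_, rfl⟩
  obtain ⟨y, hy⟩ : ∃ y, y = ω0 / (δ0 ^ 2 * (1 + δ0 ^ 2)) := ⟨_, rfl⟩
  obtain ⟨S, hS⟩ : ∃ S, S = ω0 * √(2 / (1 + δ0 ^ 2)) := ⟨_, rfl⟩
  have hE : 0 < 1 + δ0 ^ 2 := by positivity
  have hD : 0 < δ0 ^ 2 := by positivity
  have hx0 : 0 < x := by rw [hx]; positivity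
  have hy0 : 0 < y := by rw [hy]; positivity
  have hx1 : x ≤ 1 := by rw [hx, div_le_one hω]; exact ht
  have hε : y * x = 1 / (1 + δ0 ^ 2) := by rw [hx, hy]; field_simp
  have hq := wr1_sq (by norm_num) h2
  have hv : 23716 / 25 * (y * x * x ^ 2) - 2 * (1 - y * x) ^ 2 ≤ 0 := by
    have e : y * x * x ^ 2 * (ω0 ^ 2 * (2 / (1 + δ0 ^ 2))) = 2 * (1 - y * x) ^ 2 := by
      rw [hε, hx]; field_simp; ring
    have h0 : 0 ≤ y * x * x ^ 2 := by positivity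
    nlinarith [mul_le_mul_of_nonneg_left hq h0]
  have hy1 : y ≤ 57 / 250 := by
    obtain ⟨th, hth⟩ : ∃ th, th = (1 + δ0 ^ 2) ^ 2 / ω0 := ⟨_, rfl⟩
    obtain ⟨ε, hε'⟩ : ∃ ε, ε = 1 / (1 + δ0 ^ 2) := ⟨_, rfl⟩
    obtain ⟨Q, hQ⟩ : ∃ Q, Q = ω0 ^ 2 * (2 / (1 + δ0 ^ 2)) := ⟨_, rfl⟩
    have e1 : ε ^ 3 * (th ^ 2 * Q) = 2 := by rw [hth, hε', hQ]; field_simp
    have e2 : y * ((1 - ε) * th) = 1 := by rw [hth, hε', hy]; field_simp; ring
    rw [← hth] at h1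
    rw [← hQ] at hq
    have hε0 : 0 < ε := by rw [hε']; positivity
    have h3 : (23 / 5 : ℝ) ^ 2 ≤ th ^ 2 := pow_le_pow_left₀ (by norm_num) h1 2
    have h4 : (23 / 5 : ℝ) ^ 2 * (154 / 5) ^ 2 ≤ th ^ 2 * Q :=
      mul_le_mul h3 hq (by norm_num) (by positivity)
    have h5 : ε ≤ 29 / 625 := by
      refine wr1_cube (by norm_num) ?_
      have h6 : 0 ≤ ε ^ 3 := by positivity
      nlinarith [mul_le_mul_of_nonneg_left h4 h6]
    have h7 : (1 - 29 / 625) * (23 / 5) ≤ (1 - ε) * th :=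
      mul_le_mul (by linarith) h1 (by norm_num) (by linarith)
    nlinarith [mul_le_mul_of_nonneg_left h7 hy0.le]
  rw [← hS] at h2
  have hS0 : 0 < S := by linarith
  obtain ⟨ϕ, c0, e1, e2, e3, hR, b1, b2, b3, hJ⟩ := line90 typ (s := s) (r := 13 / 100)
    (c := 2982 / 10000) (bb := 63 / 1000 * x)
    (E := x * S * (31 / 100000 + 39 / 500000 * x)) hδ hω
    (by norm_num) (by norm_num)
    (fun τ hτ => r1_err2 hδ hω hx hS ht h1 h2 hs0 hs1 (mem_ball_zero_iff.1 hτ).le)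
    (fun u hu => ⟨wr1_deriv _ _ _ _ u (by norm_num), by positivity, by
      have h3 : (1 - u) ^ 2 ≤ 1 := by nlinarith [hu.1, hu.2]
      nlinarith⟩)
    (by norm_num) (by norm_num) (by norm_num) (by norm_num) (by linarith)
    (by show x * (8 / 1000 + 55 / 1000 * (1 - 1) ^ 2) ≤ 1 / 2; nlinarith)
    (by
      have h3 : x * (154 / 5) ≤ x * S := mul_le_mul_of_nonneg_left h2 hx0.le
      have h4 : x * x ≤ x * 1 := mul_le_mul_of_nonneg_left hx1 hx0.le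
      have e : x * S * (31 / 100000 + 39 / 500000 * x)
          = x * S * (31 / 100000) + x * S * (39 / 500000 * x) := by ring
      have e' : x * S * (934 / 10000000) / (2 * (53 / 100) ^ 2) = x * S * (934 / 5618000) := by
        ring
      have e'' : x * (8 / 1000 + 55 / 1000 * (1 - 1) ^ 2) = x * (8 / 1000) := by ring
      rw [e, e', e'']
      nlinarith)
  refine Or.inl ⟨ϕ, c0, _, _, _, hR, hJ, fun h3 h4 => ?_⟩
  rw [hS] at b1 b2 b3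
  exact r1_main (av := 1) (ae := (1 - y * x) * y) hδ hω hε hx hx1 hx0 (mul_one _).symm (by ring)
    (by positivity) (fun w hw0 hw2 => RC_real x y w hx0.le hx1 hy0.le hy1 hw0 hw2 hv)
    b1 b2 b3 h3 h4

end Pool.Agent.HillD
end

-- part Pool.Agent.P.MP_ae2765_an.WSup
section

/-! Universal bounds for the three parts of the error potential. -/

namespace Pool.Agent.HillD
open Real Set Filter Topology Asymptotics Pool.Agent.HillD.Num Pool.Agent.P.MP_4c4e6e_co.Eng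

theorem wsup_sq (v : ℂ) (a b p : ℝ) :
    (p * ‖(a : ℂ) + b * v‖) ^ 2 = a ^ 2 * p ^ 2 + 2 * a * b * (p ^ 2 * v.re) + b ^ 2 * (‖v‖ * p) ^ 2 := by
  rw [mul_pow, mul_pow, Complex.sq_norm, Complex.sq_norm, Complex.normSq_apply, Complex.normSq_apply]
  simp only [Complex.add_re, Complex.add_im, Complex.mul_re, Complex.mul_im, Complex.ofReal_re,
    Complex.ofReal_im]
  ring

theorem wsup_le {v A w : ℂ} {A0 p a b c S m : ℝ} (hp : 0 ≤ p) (hA : ‖A - A0‖ ≤ m)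
    (hw : w = ((a : ℂ) + b * v) + c * (A - A0))
    (hS : S = a ^ 2 * p ^ 2 + 2 * a * b * (p ^ 2 * v.re) + b ^ 2 * (‖v‖ * p) ^ 2) :
    p * ‖w‖ ≤ √(S + 1 / 50) + |c| * (m * p) := by
  have h1 : p * ‖(a : ℂ) + b * v‖ ≤ √(S + 1 / 50) :=
    Real.le_sqrt_of_sq_le (by rw [wsup_sq, hS]; linarith)
  have h2 : ‖w‖ ≤ ‖(a : ℂ) + b * v‖ + |c| * m := by
    rw [hw]
    refine (norm_add_le _ _).trans (add_le_add le_rfl ?_)
    rw [norm_mul, Complex.norm_real, Real.norm_eq_abs]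
    exact mul_le_mul_of_nonneg_left hA (abs_nonneg c)
  have h3 := mul_le_mul_of_nonneg_left h2 hp
  linarith only [h1, h3]

theorem wsup_real {p x N sN V B u1 u2 u3 u4 u5 n3 yy n16 n15 m : ℝ} (hp0 : 0 < p) (hx0 : 0 < x)
    (hV : 0 ≤ V) (h1 : 0 ≤ u1) (h2 : 0 ≤ u2) (h3 : 0 ≤ u3) (h4 : 0 ≤ u4) (h5 : 0 ≤ u5)
    (a1 : p * u1 ≤ n3) (a2 : p * u2 ≤ yy) (a3 : p * u3 ≤ n16) (a4 : p * u4 ≤ n15) (a5 : p * u5 ≤ m)
    (k1 : 0 < (16 / 5 + 5 / 2 * (B ^ 2 * B)) * ((p * N) ^ 2 * (p * N)) - p ^ 2 * n3)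
    (k2 : 0 < 707 / 500 * (33 / 2 + 23 * (B ^ 2 * B)) * ((p * N) ^ 2 * (p * N) * (p * N) ^ 2) *
      (x * sN) - p ^ 2 * x * n3 ^ 2 * (p + 2 * (V * p)))
    (k3 : 0 < 13 / 2 * ((p * N) ^ 2 * (p * N)) - yy ^ 2 * n16)
    (k4 : 0 < 4 * ((p * N) ^ 2 * (p * N)) - m * yy * n15) :
    N ≠ 0 ∧ u1 ≤ (16 / 5 + 5 / 2 * B ^ 3) * N ^ 3 ∧
      u1 ^ 2 * (1 + 2 * V) ≤ 707 / 500 * (33 / 2 + 23 * B ^ 3) * (N ^ 5 * sN) ∧
      u2 ^ 2 * u3 ≤ 13 / 2 * N ^ 3 ∧ u5 * u2 * u4 ≤ 4 * N ^ 3 := by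
  have b1 : 0 ≤ p * u1 := by positivity
  have b2 : 0 ≤ p * u2 := by positivity
  have b3 : 0 ≤ p * u3 := by positivity
  have b4 : 0 ≤ p * u4 := by positivity
  have b5 : 0 ≤ p * u5 := by positivity
  have c3 : (p * u2) ^ 2 * (p * u3) ≤ yy ^ 2 * n16 :=
    mul_le_mul (pow_le_pow_left₀ b2 a2 2) a3 b3 (sq_nonneg _)
  have c4 : p * u5 * (p * u2) * (p * u4) ≤ m * yy * n15 :=
    mul_le_mul (mul_le_mul a5 a2 b2 (b5.trans a5)) a4 b4 (mul_nonneg (b5.trans a5) (b2.trans a2))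
  have hp3 : 0 < p ^ 3 := by positivity
  refine ⟨fun h => ?_, ?_, ?_, ?_, ?_⟩
  · have : 0 ≤ (p * u2) ^ 2 * (p * u3) := by positivity
    rw [h] at k3
    simp only [mul_zero] at k3
    linarith only [k3, c3, this]
  · refine le_of_mul_le_mul_left ?_ hp3
    have c1 := mul_le_mul_of_nonneg_left a1 (sq_nonneg p)
    calc _ = p ^ 2 * (p * u1) := by ring
      _ ≤ _ := c1.trans (sub_pos.1 k1).le
      _ = _ := by ring
  · refine le_of_mul_le_mul_left ?_ (show 0 < p ^ 5 * x by positivity)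
    have c2 : p ^ 2 * x * (p * u1) ^ 2 * (p + 2 * (V * p)) ≤
        p ^ 2 * x * n3 ^ 2 * (p + 2 * (V * p)) :=
      mul_le_mul_of_nonneg_right (mul_le_mul_of_nonneg_left (pow_le_pow_left₀ b1 a1 2)
        (by positivity)) (by positivity)
    calc _ = p ^ 2 * x * (p * u1) ^ 2 * (p + 2 * (V * p)) := by ring
      _ ≤ _ := c2.trans (sub_pos.1 k2).le
      _ = _ := by ring
  · refine le_of_mul_le_mul_left ?_ hp3
    calc _ = (p * u2) ^ 2 * (p * u3) := by ring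
      _ ≤ _ := c3.trans (sub_pos.1 k3).le
      _ = _ := by ring
  · refine le_of_mul_le_mul_left ?_ hp3
    calc _ = p * u5 * (p * u2) * (p * u4) := by ring
      _ ≤ _ := c4.trans (sub_pos.1 k4).le
      _ = _ := by ring

theorem sup_bd {v A : ℂ} {A0 : ℝ} (h0 : 0 ≤ A0) (h1 : A0 ≤ 1) (hv : -(3 / 10 * ‖v‖) ≤ v.re)
    (hA : ‖A - A0‖ ≤ 37 / 100 * (1 - A0)) :
    1 + v ≠ 0 ∧ ‖3 + 3 * v - 5 * A‖ ≤ (16 / 5 + 5 / 2 * (1 - A0) ^ 3) * ‖1 + v‖ ^ 3 ∧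
      ‖3 + 3 * v - 5 * A‖ ^ 2 * (1 + 2 * ‖v‖) ≤
        707 / 500 * (33 / 2 + 23 * (1 - A0) ^ 3) * (‖1 + v‖ ^ 5 * √‖1 + v‖) ∧
      ‖1 + v - A‖ ^ 2 * ‖1 + v + 5 * A‖ ≤ 13 / 2 * ‖1 + v‖ ^ 3 ∧
      ‖A‖ * ‖1 + v - A‖ * ‖1 + v - 5 * A‖ ≤ 4 * ‖1 + v‖ ^ 3 := by
  have hV : 0 ≤ ‖v‖ := norm_nonneg v
  obtain ⟨p, hp⟩ : ∃ p : ℝ, p = (1 + ‖v‖)⁻¹ := ⟨_, rfl⟩
  have hp0 : 0 < p := by rw [hp]; positivity
  have hp1 : p * (1 + ‖v‖) = 1 := by rw [hp]; field_simp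
  have hp2 : p ≤ 1 := by nlinarith
  have hq : ‖v‖ * p = 1 - p := by linarith
  have hy : ∃ y : ℝ, 0 ≤ y ∧ y ≤ 13 / 10 ∧ p ^ 2 * v.re = p * (‖v‖ * p) * (y - 3 / 10) := by
    rcases hV.eq_or_lt with h | h
    · refine ⟨3 / 10, by norm_num, by norm_num, ?_⟩
      rw [norm_eq_zero.1 h.symm]; simp
    · refine ⟨3 / 10 + v.re / ‖v‖, ?_, ?_, ?_⟩
      · have : -(3 / 10) ≤ v.re / ‖v‖ := by rw [le_div_iff₀ h]; linarith
        linarith
      · have : v.re / ‖v‖ ≤ 1 := by rw [div_le_one h]; exact Complex.re_le_norm v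
        linarith
      · field_simp
        ring
  obtain ⟨y, hy0, hy1, hr⟩ := hy
  have hx : p = √p ^ 2 := (Real.sq_sqrt hp0.le).symm
  have hx0 : 0 < √p := Real.sqrt_pos.2 hp0
  obtain ⟨N, hN⟩ : ∃ N : ℝ, N = ‖1 + v‖ := ⟨_, rfl⟩
  have hN0 : 0 ≤ N := hN ▸ norm_nonneg _
  have hd2 : (p * N) ^ 2 = p ^ 2 + 2 * (p ^ 2 * v.re) + (‖v‖ * p) ^ 2 := by
    have := wsup_sq v 1 1 p
    simp only [Complex.ofReal_one, one_mul, one_pow, mul_one] at this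
    rw [hN, this]
  have hd : p * N = √((p * N) ^ 2) := (Real.sqrt_sq (by positivity)).symm
  obtain ⟨k1, k2, k3, k4⟩ := Sup_real (√p) y A0 hx0.le (Real.sqrt_le_one.2 hp2) hy0 hy1 h0 h1
    p hx _ hq _ rfl _ rfl _ hr _ rfl _ rfl _ rfl _ hd2 _ hd _ rfl _ rfl _ rfl _ rfl _ rfl _ rfl
    _ rfl _ rfl
  have a1 := wsup_le (v := v) (w := 3 + 3 * v - 5 * A) (a := 3 - 5 * A0) (b := 3) (c := -5)
    (S := (3 - 5 * A0) ^ 2 * p ^ 2 + 6 * ((3 - 5 * A0) * (p ^ 2 * v.re)) + 9 * (‖v‖ * p) ^ 2)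
    hp0.le hA (by push_cast; ring) (by ring)
  have a2 := wsup_le (v := v) (w := 1 + v - A) (a := 1 - A0) (b := 1) (c := -1)
    (S := (1 - A0) ^ 2 * p ^ 2 + 2 * ((1 - A0) * (p ^ 2 * v.re)) + (‖v‖ * p) ^ 2)
    hp0.le hA (by push_cast; ring) (by ring)
  have a3 := wsup_le (v := v) (w := 1 + v + 5 * A) (a := 1 + 5 * A0) (b := 1) (c := 5)
    (S := (1 + 5 * A0) ^ 2 * p ^ 2 + 2 * ((1 + 5 * A0) * (p ^ 2 * v.re)) + (‖v‖ * p) ^ 2)
    hp0.le hA (by push_cast; ring) (by ring)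
  have a4 := wsup_le (v := v) (w := 1 + v - 5 * A) (a := 1 - 5 * A0) (b := 1) (c := -5)
    (S := (1 - 5 * A0) ^ 2 * p ^ 2 + 2 * ((1 - 5 * A0) * (p ^ 2 * v.re)) + (‖v‖ * p) ^ 2)
    hp0.le hA (by push_cast; ring) (by ring)
  have a5 : p * ‖A‖ ≤ A0 * p + 37 / 100 * (1 - A0) * p := by
    have h2 : ‖A‖ ≤ ‖(A0 : ℂ)‖ + ‖A - A0‖ := by
      simpa using norm_add_le (A0 : ℂ) (A - A0)
    rw [Complex.norm_real, Real.norm_of_nonneg h0] at h2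
    have h3 := mul_le_mul_of_nonneg_left (h2.trans (add_le_add le_rfl hA)) hp0.le
    linarith only [h3]
  rw [show |(-5 : ℝ)| = 5 by norm_num] at a1 a4
  rw [show |(-1 : ℝ)| = 1 by norm_num, one_mul] at a2
  rw [show |(5 : ℝ)| = 5 by norm_num] at a3
  rw [← hN]
  rw [Real.sqrt_mul hp0.le] at k2
  have key := wsup_real hp0 hx0 hV (norm_nonneg _) (norm_nonneg _) (norm_nonneg _) (norm_nonneg _)
    (norm_nonneg _) a1 a2 a3 a4 a5 k1 k2 k3 k4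
  exact ⟨fun h => key.1 (by rw [hN, h, norm_zero]), key.2⟩

end Pool.Agent.HillD
end
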