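import Pool.Agent.K.MP_ae2765_an.C6
import Pool.Agent.K.MP_ae2765_an.C15

-- part Pool.Agent.P.MP_ae2765_an.WErrA
section

/-! Large amplitude: pointwise estimates along the path. -/

namespace Pool.Agent.HillD
open Real Set Filter Topology Asymptotics Pool.Agent.HillD.Num Pool.Agent.P.MP_4c4e6e_co.Eng

lemma werra_fin {n t e q v K Λ U : ℝ} (ht : 0 < t) (he : 0 < e) (hq : 9969 / 10000 ≤ q)
    (hv : 0 < v) (hvt : 2 ≤ v ^ 2 * t ^ 2) (hK : 0 ≤ K) (hΛ : 0 ≤ Λ) (hU : 0 < U)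
    (h : n ^ 2 * U ≤ 707 / 500 * K * e ^ 11) :
    (n / (8 * t ^ 2 * e ^ 6)) ^ 2 * (Λ * t * e / q) ≤ 788 / 100000 * (v ^ 3 * K) * (Λ / U) := by
  have hq0 : 0 < q := by linarith
  have h1 : 14142 / 10000 ≤ v * t := by
    refine (abs_le_of_sq_le_sq' ?_ (mul_pos hv ht).le).2
    rw [mul_pow]
    linarith
  have h2 : (14142 / 10000 : ℝ) ^ 3 ≤ (v * t) ^ 3 := pow_le_pow_left₀ (by norm_num) h1 3
  have h3 : (14142 / 10000 : ℝ) ^ 3 * (9969 / 10000) ≤ (v * t) ^ 3 * q :=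
    mul_le_mul h2 hq (by norm_num) (by positivity)
  have h4 : n ^ 2 * U / e ^ 11 ≤ 707 / 500 * K := by
    rw [div_le_iff₀ (by positivity)]; exact h
  have h5 : (707 / 500 : ℝ) / (64 * t ^ 3 * q) ≤ 788 / 100000 * v ^ 3 := by
    rw [div_le_iff₀ (by positivity)]
    have : 788 / 100000 * v ^ 3 * (64 * t ^ 3 * q) = 788 / 100000 * 64 * ((v * t) ^ 3 * q) := by
      ring
    rw [this]
    nlinarith
  have e1 : (n / (8 * t ^ 2 * e ^ 6)) ^ 2 * (Λ * t * e / q) =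
      n ^ 2 * U / e ^ 11 * (1 / (64 * t ^ 3 * q)) * (Λ / U) := by
    field_simp
    ring
  rw [e1]
  refine mul_le_mul_of_nonneg_right ?_ (by positivity)
  calc n ^ 2 * U / e ^ 11 * (1 / (64 * t ^ 3 * q))
      ≤ 707 / 500 * K * (1 / (64 * t ^ 3 * q)) :=
        mul_le_mul_of_nonneg_right h4 (by positivity)
    _ = 707 / 500 / (64 * t ^ 3 * q) * K := by ring
    _ ≤ 788 / 100000 * v ^ 3 * K := mul_le_mul_of_nonneg_right h5 hK
    _ = 788 / 100000 * (v ^ 3 * K) := by ring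

/-- comparison of norms in the right half plane -/
lemma werra_norm {X : ℂ} {b : ℝ} (hX : 0 ≤ X.re) (hb0 : 0 ≤ b) (hb1 : b ≤ 1) :
    ‖b + X‖ ≤ ‖1 + X‖ := by
  refine abs_le_of_sq_le_sq' ?_ (norm_nonneg _) |>.2
  rw [Complex.sq_norm, Complex.sq_norm, Complex.normSq_apply, Complex.normSq_apply]
  simp only [Complex.add_re, Complex.add_im, Complex.ofReal_re, Complex.ofReal_im,
    Complex.one_re, Complex.one_im, zero_add]
  nlinarith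

/-- the angle and the size of `G2` -/
lemma werra_ang {φ1 p0 b jl μρ μω : ℝ} {ω j ρ X : ℂ} (h0 : 0 < φ1) (h1 : φ1 ≤ π / 2)
    (hp : 0 < p0) (hb0 : 0 ≤ b) (hb1 : b ≤ 1) (hXr : 0 ≤ X.re) (hXi : X.im ≤ 0)
    (hbX : p0 ≤ b + X.re) (hj : ‖j‖ ≤ jl) (hjl : jl ≤ 3 / 1000) (hρ : ‖ρ - 1‖ ≤ μρ)
    (hρ1 : μρ ≤ 77 / 200) (hω : Sa ω μω) (hω0 : 0 ≤ μω) (hω1 : μω ≤ 3 / 20) {G : ℂ}
    (hG : G = 4 * (φ1 : ℂ) ^ 2 * ω * ((1 - 2 * j) * (b + X + p0 * (ρ - 1))) / QQ j X) :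
    994 / 1000 ≤ ‖QQ j X‖ ∧ G.im ≤ (μω + μρ + 21 / 10 * jl) * ‖G‖ ∧
      √‖G‖ ≤ π * √(7 / 5 * ‖ω‖) := by
  have hjl0 : 0 ≤ jl := (norm_nonneg _).trans hj
  have hμ0 : 0 ≤ μρ := (norm_nonneg _).trans hρ
  have h2j : ‖2 * j‖ ≤ 2 * jl := by
    rw [norm_mul, Complex.norm_two]; linarith
  have hκ : 994 / 1000 ≤ ‖1 - 2 * j‖ := by
    have := norm_sub_norm_le (1 : ℂ) (2 * j)
    rw [norm_one] at this
    linarith
  have hκ0 : (1 - 2 * j) ≠ 0 := norm_pos_iff.1 (by linarith)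
  have h1X : 1 ≤ ‖1 + X‖ := by
    have := Complex.re_le_norm (1 + X)
    rw [Complex.add_re, Complex.one_re] at this
    linarith
  have h1X0 : (1 + X) ≠ 0 := norm_pos_iff.1 (by linarith)
  have hbX1 : p0 ≤ ‖b + X‖ := by
    have := Complex.re_le_norm (b + X)
    rw [Complex.add_re, Complex.ofReal_re] at this
    linarith
  have hbX0 : ((b : ℂ) + X) ≠ 0 := norm_pos_iff.1 (by linarith)
  have hXn : ‖X‖ ≤ ‖1 + X‖ := by
    have := werra_norm hXr le_rfl zero_le_one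
    rwa [Complex.ofReal_zero, zero_add] at this
  have hQ : 994 / 1000 ≤ ‖QQ j X‖ := by
    have e : QQ j X = (1 + X) - 2 * j * X := by unfold QQ; ring
    have h2 := norm_sub_norm_le (1 + X) (2 * j * X)
    have h3 : ‖2 * j * X‖ ≤ 6 / 1000 * ‖1 + X‖ := by
      rw [norm_mul]
      exact mul_le_mul (by linarith) hXn (norm_nonneg _) (by norm_num)
    rw [e]
    linarith
  have hQ0 : QQ j X ≠ 0 := norm_pos_iff.1 (by linarith)
  obtain ⟨e1, he1⟩ : ∃ e1 : ℂ, e1 = p0 * (ρ - 1) / (b + X) := ⟨_, rfl⟩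
  obtain ⟨e2, he2⟩ : ∃ e2 : ℂ, e2 = 2 * j / (1 - 2 * j) / (1 + X) := ⟨_, rfl⟩
  have n1 : ‖e1‖ ≤ μρ := by
    rw [he1, norm_div, norm_mul, Complex.norm_real, Real.norm_eq_abs, abs_of_pos hp,
      div_le_iff₀ (by linarith), mul_comm μρ]
    exact mul_le_mul hbX1 hρ (norm_nonneg _) (norm_nonneg _)
  have n2 : ‖e2‖ ≤ 21 / 10 * jl := by
    rw [he2, norm_div, norm_div]
    refine (div_le_self (by positivity) h1X).trans ?_
    rw [div_le_iff₀ (by linarith)]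
    nlinarith
  have s1 : Sa (1 + e1) μρ := sa_one_add n1 (by linarith)
  have s2 : Sa (1 + e2) (21 / 10 * jl) := sa_one_add n2 (by linarith)
  have hφ : 0 < 4 * φ1 ^ 2 := by positivity
  have s3 : Sa (((4 * φ1 ^ 2 : ℝ) : ℂ) * (ω * (1 + e1) * (1 + e2)⁻¹)) (μω + μρ + 21 / 10 * jl) :=
    ((hω.mul s1 hω0 hμ0 (by linarith)).mul s2.inv (by linarith) (by linarith)
      (by linarith)).pos_mul hφ
  have eQ : QQ j X = (1 - 2 * j) * (1 + X) * (1 + e2) := by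
    rw [he2]; unfold QQ; field_simp; ring
  have eP : (b : ℂ) + X + p0 * (ρ - 1) = (b + X) * (1 + e1) := by
    rw [he1]; field_simp
  have eG : G = (b + X) / (1 + X) * (((4 * φ1 ^ 2 : ℝ) : ℂ) * (ω * (1 + e1) * (1 + e2)⁻¹)) := by
    have := s2.ne
    rw [hG, eQ, eP]
    push_cast
    field_simp
  have hN : 0 < Complex.normSq (1 + X) := Complex.normSq_pos.2 h1X0
  have zre : 0 ≤ ((b + X) / (1 + X)).re := by
    rw [Complex.div_re, ← add_div]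
    refine div_nonneg ?_ hN.le
    simp only [Complex.add_re, Complex.add_im, Complex.ofReal_re, Complex.ofReal_im,
      Complex.one_re, Complex.one_im, zero_add]
    nlinarith [mul_nonneg (add_nonneg hb0 hXr) (add_nonneg zero_le_one hXr), mul_self_nonneg X.im]
  have zim : ((b + X) / (1 + X)).im ≤ 0 := by
    rw [Complex.div_im, ← sub_div]
    refine div_nonpos_of_nonpos_of_nonneg ?_ hN.le
    simp only [Complex.add_re, Complex.add_im, Complex.ofReal_re, Complex.ofReal_im,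
      Complex.one_re, Complex.one_im, zero_add]
    nlinarith [mul_nonneg (sub_nonneg.2 hb1) (neg_nonneg.2 hXi)]
  have zn : ‖((b : ℂ) + X) / (1 + X)‖ ≤ 1 := by
    rw [norm_div, div_le_one (by linarith)]
    exact werra_norm hXr hb0 hb1
  refine ⟨hQ, ?_, ?_⟩
  · rw [eG]
    exact (ang_quad s3 (by linarith) zre zim).1
  · have m1 : ‖1 + e1‖ ≤ 277 / 200 := by
      have := norm_add_le (1 : ℂ) e1
      rw [norm_one] at this
      linarith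
    have m2 : 9937 / 10000 ≤ ‖1 + e2‖ := by
      have := norm_sub_norm_le (1 : ℂ) (-e2)
      rw [norm_one, norm_neg, sub_neg_eq_add] at this
      linarith
    have m3 : ‖1 + e1‖ * ‖1 + e2‖⁻¹ ≤ 7 / 5 := by
      rw [← div_eq_mul_inv, div_le_iff₀ (by linarith)]
      linarith
    have m4 : 4 * φ1 ^ 2 ≤ π ^ 2 := by nlinarith
    have m5 : ‖G‖ ≤ π ^ 2 * (7 / 5 * ‖ω‖) := by
      rw [eG, norm_mul]
      refine (mul_le_of_le_one_left (norm_nonneg _) zn).trans ?_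
      rw [norm_mul, norm_mul, norm_mul, norm_inv, Complex.norm_real, Real.norm_eq_abs,
        abs_of_pos hφ, mul_assoc ‖ω‖, mul_comm (7 / 5 : ℝ)]
      exact mul_le_mul m4 (mul_le_mul_of_nonneg_left m3 (norm_nonneg _)) (by positivity)
        (by positivity)
    refine (Real.sqrt_le_sqrt m5).trans_eq ?_
    rw [Real.sqrt_mul (sq_nonneg _), Real.sqrt_sq pi_pos.le]

/-- the three terms of the error potential -/
lemma werra_psi {ω j ρ X w A : ℂ} {p0 m : ℝ} (hp : 0 < p0) (hω' : ω ≠ 0) (hρ' : ρ ≠ 0)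
    (hκ0 : 1 - 2 * j ≠ 0) (d0 : 1 + w ≠ 0) (eP : PP ω j X = (1 - 2 * j) * p0 * ρ * (1 + w))
    (eωj : ω * j = (1 - 2 * j) * p0 * ρ * A) (hmd : m = ‖ω * (1 - 2 * j) * ρ ^ 2‖ * p0 ^ 2)
    (S3 : ‖1 + w - A‖ ^ 2 * ‖1 + w + 5 * A‖ ≤ 13 / 2 * ‖1 + w‖ ^ 3)
    (S4 : ‖A‖ * ‖1 + w - A‖ * ‖1 + w - 5 * A‖ ≤ 4 * ‖1 + w‖ ^ 3) :
    ‖psi ω j X‖ ≤ ‖3 + 3 * w - 5 * A‖ / (8 * m * ‖1 + w‖ ^ 3) +
      (13 / (16 * ‖ω‖) + 1 / ‖ω‖ ^ 2) := by
  have hp' : (p0 : ℂ) ≠ 0 := by exact_mod_cast hp.ne'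
  have hωn : 0 < ‖ω‖ := norm_pos_iff.2 hω'
  have hd : 0 < ‖1 + w‖ := norm_pos_iff.2 d0
  have hP0 : PP ω j X ≠ 0 := by
    rw [eP]; exact mul_ne_zero (mul_ne_zero (mul_ne_zero hκ0 hp') hρ') d0
  have er : ω * j / PP ω j X = A / (1 + w) := by
    rw [eP, eωj]; field_simp
  have eψ : psi ω j X = (1 + w - A) ^ 2 * (1 + w + 5 * A) / ((1 + w) ^ 3 * (8 * ω)) -
      A * (1 + w - A) * (1 + w - 5 * A) / ((1 + w) ^ 3 * (4 * ω ^ 2)) +
      (3 + 3 * w - 5 * A) / (8 * (ω * (1 - 2 * j) * ρ ^ 2 * (p0 : ℂ) ^ 2) * (1 + w) ^ 3) := by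
    rw [psi_eq hω' hP0, er, eP]
    field_simp
  have t1 : ‖(1 + w - A) ^ 2 * (1 + w + 5 * A) / ((1 + w) ^ 3 * (8 * ω))‖ ≤ 13 / (16 * ‖ω‖) := by
    rw [norm_div, norm_mul, norm_mul, norm_mul, norm_pow, norm_pow, Complex.norm_ofNat,
      div_le_div_iff₀ (by positivity) (by positivity)]
    have := mul_le_mul_of_nonneg_right S3 hωn.le
    linarith
  have t2 : ‖A * (1 + w - A) * (1 + w - 5 * A) / ((1 + w) ^ 3 * (4 * ω ^ 2))‖ ≤ 1 / ‖ω‖ ^ 2 := by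
    rw [norm_div, norm_mul, norm_mul, norm_mul, norm_mul, norm_pow, norm_pow, Complex.norm_ofNat,
      div_le_div_iff₀ (by positivity) (by positivity)]
    have := mul_le_mul_of_nonneg_right S4 (sq_nonneg ‖ω‖)
    linarith
  have t3 : ‖(3 + 3 * w - 5 * A) /
      (8 * (ω * (1 - 2 * j) * ρ ^ 2 * (p0 : ℂ) ^ 2) * (1 + w) ^ 3)‖ =
      ‖3 + 3 * w - 5 * A‖ / (8 * m * ‖1 + w‖ ^ 3) := by
    rw [norm_div, norm_mul, norm_mul, norm_mul, norm_pow, norm_pow, Complex.norm_ofNat,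
      Complex.norm_real, Real.norm_eq_abs, abs_of_pos hp, hmd]
  rw [eψ]
  refine (norm_add_le _ _).trans ?_
  rw [t3]
  have := (norm_sub_le _ _).trans (add_le_add t1 t2)
  linarith

/-- the weighted bound for the third term -/
lemma werra_last {φ1 s p0 r ξ V d n m q g v K : ℝ} (hφ : 0 < φ1) (hpρ : 0 < p0 * r)
    (hd : 0 < d) (hm0 : 0 < m) (hQ : 994 / 1000 ≤ q) (hv : 0 < v) (hm : 2 ≤ v ^ 2 * m)
    (hK : 0 ≤ K) (q3 : 2 * (φ1 * (1 - s)) ^ 2 ≤ ξ) (hV : V = ξ / (p0 * r))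
    (hg : g = 4 * φ1 ^ 2 / (p0 * r) * m * d / q)
    (S2 : n ^ 2 * (1 + 2 * V) ≤ 707 / 500 * K * (d ^ 5 * √d)) :
    (n / (8 * m * d ^ 3)) ^ 2 * √g ≤ 788 / 100000 * (v ^ 3 * K) *
      (2 * φ1 / √(p0 * r) / (1 + (2 * φ1 / √(p0 * r) * (1 - s)) ^ 2)) := by
  obtain ⟨Λ, hΛ⟩ : ∃ Λ : ℝ, Λ = 2 * φ1 / √(p0 * r) := ⟨_, rfl⟩
  rw [← hΛ]
  have hΛ0 : 0 ≤ Λ := by rw [hΛ]; positivity
  have hΛ2 : Λ ^ 2 = 4 * φ1 ^ 2 / (p0 * r) := by
    rw [hΛ, div_pow, Real.sq_sqrt hpρ.le]; ring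
  have eS : √g = Λ * √m * √d / √q := by
    rw [hg, ← hΛ2, Real.sqrt_div (by positivity), Real.sqrt_mul (by positivity),
      Real.sqrt_mul (sq_nonneg _), Real.sqrt_sq hΛ0]
  have hU : 1 + (Λ * (1 - s)) ^ 2 ≤ 1 + 2 * V := by
    have e2 : (Λ * (1 - s)) ^ 2 = 2 * (2 * (φ1 * (1 - s)) ^ 2 / (p0 * r)) := by
      rw [mul_pow, hΛ2]; ring
    rw [hV, e2]
    have := div_le_div_of_nonneg_right q3 hpρ.le
    linarith
  have hq : 9969 / 10000 ≤ √q := Real.le_sqrt_of_sq_le (by linarith)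
  have he := Real.sq_sqrt hd.le
  have ht := Real.sq_sqrt hm0.le
  have key := werra_fin (n := n) (t := √m) (e := √d)
    (K := K) (U := 1 + (Λ * (1 - s)) ^ 2) (Real.sqrt_pos.2 hm0)
    (Real.sqrt_pos.2 hd) hq hv (by rw [ht]; exact hm) hK hΛ0 (by positivity) (by
      have e : √d ^ 11 = d ^ 5 * √d := by
        rw [show 11 = 2 * 5 + 1 from rfl, pow_succ, pow_mul, he]
      rw [e]
      exact (mul_le_mul_of_nonneg_left hU (sq_nonneg _)).trans S2)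
  have e6 : √d ^ 6 = d ^ 3 := by
    rw [show 6 = 2 * 3 from rfl, pow_mul, he]
  rw [ht, e6] at key
  rw [eS]
  exact key

lemma werra_x {n m d v K : ℝ} (hd : 0 < d) (hm0 : 0 < m) (hm : 2 ≤ v ^ 2 * m) (hK : 0 ≤ K)
    (S1 : n ≤ K * d ^ 3) : n / (8 * m * d ^ 3) ≤ v ^ 2 * K / 16 := by
  rw [div_le_div_iff₀ (by positivity) (by norm_num)]
  have h := mul_le_mul_of_nonneg_right hm (mul_nonneg hK (pow_pos hd 3).le)
  linarith

theorem err_pt {φ1 x1 p0 A0 jl μρ μω v s : ℝ} {ω j ρ : ℂ}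
    (h0 : π / 4 ≤ φ1) (h1 : φ1 ≤ π / 2) (hx : cos φ1 ^ 2 = x1) (hp : 0 < p0) (hpx : x1 ≤ p0)
    (hp1 : p0 - x1 ≤ 1) (hA : x1 = (1 - A0) * p0) (hj : ‖j‖ ≤ jl) (hjl : jl ≤ 3 / 1000)
    (hP : ω * j + (1 - 2 * j) * x1 = (1 - 2 * j) * p0 * ρ) (hρ : ‖ρ - 1‖ ≤ μρ)
    (hρ1 : μρ ≤ 77 / 200) (hρ2 : Sa ρ (3 / 10)) (hρ3 : x1 = 0 ∨ μρ ≤ 27 / 100)
    (hω : Sa ω μω) (hω0 : 0 ≤ μω) (hω1 : μω ≤ 3 / 20)
    (hv : 0 < v) (hm : 2 ≤ v ^ 2 * (‖ω * (1 - 2 * j) * ρ ^ 2‖ * p0 ^ 2)) (hs : s ∈ Icc (0 : ℝ) 1) :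
    PP ω j (pX φ1 s) ≠ 0 ∧ QQ j (pX φ1 s) ≠ 0 ∧
      (G2 φ1 ω j s).im ≤ (μω + μρ + 21 / 10 * jl) * ‖G2 φ1 ω j s‖ ∧
      √‖G2 φ1 ω j s‖ ≤ π * √(7 / 5 * ‖ω‖) ∧
      ∃ x y : ℝ, 0 ≤ x ∧ 0 ≤ y ∧ ‖psi ω j (pX φ1 s)‖ ≤ x + y ∧
        x ≤ v ^ 2 * (16 / 5 + 5 / 2 * (1 - A0) ^ 3) / 16 ∧ y = 13 / (16 * ‖ω‖) + 1 / ‖ω‖ ^ 2 ∧
        x ^ 2 * √‖G2 φ1 ω j s‖ ≤ 788 / 100000 * (v ^ 3 * (33 / 2 + 23 * (1 - A0) ^ 3)) *
          (2 * φ1 / √(p0 * ‖ρ‖) / (1 + (2 * φ1 / √(p0 * ‖ρ‖) * (1 - s)) ^ 2)) := by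
  obtain ⟨q1, q2, q3⟩ := pX_quad h0 h1 hs
  rw [hx] at q1 q2 q3
  have hG2 : G2 φ1 ω j s = 4 * (φ1 : ℂ) ^ 2 * ω * PP ω j (pX φ1 s) / QQ j (pX φ1 s) := rfl
  generalize G2 φ1 ω j s = G at hG2 ⊢
  generalize pX φ1 s = X at q1 q2 q3 hG2 ⊢
  have hφ : 0 < φ1 := by linarith [pi_pos]
  have hx0 : 0 ≤ x1 := by rw [← hx]; positivity
  have hB0 : 0 ≤ 1 - A0 := by
    by_contra h
    have : (1 - A0) * p0 < 0 := mul_neg_of_neg_of_pos (by linarith) hp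
    linarith
  have hA0 : 0 ≤ A0 := by
    by_contra h
    have : A0 * p0 < 0 := mul_neg_of_neg_of_pos (by linarith) hp
    linarith
  have hω' := hω.ne
  have hρ' := hρ2.ne
  have hp' : (p0 : ℂ) ≠ 0 := by exact_mod_cast hp.ne'
  have hρn : 0 < ‖ρ‖ := norm_pos_iff.2 hρ'
  have hωn : 0 < ‖ω‖ := norm_pos_iff.2 hω'
  rw [Complex.sub_re, Complex.ofReal_re] at q1
  have q2' : X.im ≤ 0 := by rwa [Complex.sub_im, Complex.ofReal_im, sub_zero] at q2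
  have eP0 : PP ω j X = (1 - 2 * j) * (((p0 - x1 : ℝ) : ℂ) + X + p0 * (ρ - 1)) := by
    unfold PP
    push_cast
    linear_combination hP
  obtain ⟨hQ, hang, hsz⟩ := werra_ang (b := p0 - x1) (X := X) (G := G) hφ h1 hp (by linarith) hp1
    (by linarith) q2' (by linarith) hj hjl hρ hρ1 hω hω0 hω1 (by rw [hG2, eP0])
  have hκ0 : (1 - 2 * j) ≠ 0 := by
    intro h
    rw [h, mul_zero, zero_mul, norm_zero, zero_mul, mul_zero] at hm
    linarith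
  obtain ⟨w, hw⟩ : ∃ w : ℂ, w = (X - x1) * ((p0 : ℂ) * ρ)⁻¹ := ⟨_, rfl⟩
  obtain ⟨A, hA'⟩ : ∃ A : ℂ, A = 1 - ((1 - A0 : ℝ) : ℂ) / ρ := ⟨_, rfl⟩
  have hwre : -(3 / 10 * ‖w‖) ≤ w.re := by
    rw [hw]
    refine (ang_quad (hρ2.pos_mul hp).inv (by norm_num) ?_ q2).2
    rw [Complex.sub_re, Complex.ofReal_re]; exact q1
  have hAA : ‖A - A0‖ ≤ 37 / 100 * (1 - A0) := by
    have e : A - A0 = ((1 - A0 : ℝ) : ℂ) * ((ρ - 1) / ρ) := by
      rw [hA']; push_cast; field_simp; ring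
    rw [e, norm_mul, Complex.norm_real, Real.norm_eq_abs, abs_of_nonneg hB0, mul_comm]
    rcases hρ3 with h | h
    · have : 1 - A0 = 0 := by
        rw [h] at hA
        exact (mul_eq_zero.1 hA.symm).resolve_right hp.ne'
      rw [this, mul_zero, mul_zero]
    · refine mul_le_mul_of_nonneg_right ?_ hB0
      have h2 := norm_sub_norm_le (1 : ℂ) (1 - ρ)
      rw [norm_one, sub_sub_cancel, norm_sub_rev] at h2
      rw [norm_div, div_le_iff₀ hρn]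
      linarith
  obtain ⟨d0, S1, S2, S3, S4⟩ := sup_bd hA0 (by linarith) hwre hAA
  have hd : 0 < ‖1 + w‖ := norm_pos_iff.2 d0
  have eP : PP ω j X = (1 - 2 * j) * p0 * ρ * (1 + w) := by
    rw [eP0, hw]; push_cast; field_simp; ring
  have hP0 : PP ω j X ≠ 0 := by
    rw [eP]; exact mul_ne_zero (mul_ne_zero (mul_ne_zero hκ0 hp') hρ') d0
  have hx1 : (x1 : ℂ) = ((1 - A0 : ℝ) : ℂ) * p0 := by exact_mod_cast hA
  have eωj : ω * j = (1 - 2 * j) * p0 * ρ * A := by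
    rw [hA', mul_sub, mul_one, mul_assoc ((1 - 2 * j) * p0), mul_div_cancel₀ _ hρ']
    linear_combination hP - (1 - 2 * j) * hx1
  obtain ⟨m, hmd⟩ : ∃ m : ℝ, m = ‖ω * (1 - 2 * j) * ρ ^ 2‖ * p0 ^ 2 := ⟨_, rfl⟩
  rw [← hmd] at hm
  have hm0 : 0 < m := by
    rw [hmd]
    exact mul_pos (norm_pos_iff.2 (mul_ne_zero (mul_ne_zero hω' hκ0) (pow_ne_zero 2 hρ')))
      (by positivity)
  have hB3 : 0 ≤ (1 - A0) ^ 3 := pow_nonneg hB0 3
  refine ⟨hP0, norm_pos_iff.1 (by linarith), hang, hsz,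
    ‖3 + 3 * w - 5 * A‖ / (8 * m * ‖1 + w‖ ^ 3), _,
    div_nonneg (norm_nonneg _) (mul_pos (mul_pos (by norm_num) hm0) (pow_pos hd 3)).le,
    add_nonneg (div_nonneg (by norm_num) (by linarith)) (div_nonneg zero_le_one (sq_nonneg _)),
    werra_psi hp hω' hρ' hκ0 d0 eP eωj hmd S3 S4, werra_x hd hm0 hm (by linarith) S1, rfl, ?_⟩
  refine werra_last hφ (mul_pos hp hρn) hd hm0 hQ hv hm (by linarith) q3 ?_ ?_ S2
  · rw [hw, norm_mul, norm_inv, norm_mul, Complex.norm_real, Real.norm_eq_abs, abs_of_pos hp,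
      div_eq_mul_inv]
  · have hQ0 : ‖QQ j X‖ ≠ 0 := by linarith
    rw [hG2, eP, hmd]
    simp only [norm_div, norm_mul, norm_pow, Complex.norm_ofNat, Complex.norm_real,
      Real.norm_eq_abs, abs_of_pos hp, abs_of_pos hφ]
    field_simp

end Pool.Agent.HillD
end

-- part Pool.Agent.P.MP_ae2765_an.WErrB
section

/-! Large amplitude: the real axis. -/

namespace Pool.Agent.HillD
open Real Set Filter Topology Asymptotics

theorem werrb_psi {p u x : ℝ} (hp : 0 < p) (hx : 0 ≤ x) :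
    HasDerivAt (fun y : ℝ => (-u + y ^ (3 / 2 : ℝ) / p) / (3 * √(p + y) ^ 3))
      ((u + √x) / (2 * √(p + x) ^ 5)) x := by
  have h1 : HasDerivAt (fun y : ℝ => y ^ (3 / 2 : ℝ)) (3 / 2 * x ^ (3 / 2 - 1 : ℝ)) x :=
    Real.hasDerivAt_rpow_const (Or.inr (by norm_num))
  have e1 : x ^ (3 / 2 - 1 : ℝ) = √x := by
    rw [Real.sqrt_eq_rpow]; norm_num
  have e2 : x ^ (3 / 2 : ℝ) = √x ^ 3 := by
    rw [Real.sqrt_eq_rpow, ← Real.rpow_natCast, ← Real.rpow_mul hx]; norm_num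
  have hW : 0 < p + x := by linarith
  have hR : 0 < √(p + x) := Real.sqrt_pos.2 hW
  have h2 : HasDerivAt (fun y : ℝ => √(p + y)) (1 / (2 * √(p + x))) x :=
    ((hasDerivAt_id x).const_add p).sqrt hW.ne'
  have h3 := ((h1.div_const p).const_add (-u)).div ((h2.pow 3).const_mul 3)
    (by simp only [Pi.pow_apply]; positivity)
  have e3 : √(p + x) ^ 2 = p + √x ^ 2 := by rw [Real.sq_sqrt hW.le, Real.sq_sqrt hx]
  refine h3.congr_deriv ?_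
  simp only [Pi.pow_apply, e1, e2]
  generalize √(p + x) = R at *
  generalize √x = ζ at *
  field_simp
  have e4 : p = R ^ 2 - ζ ^ 2 := by linarith
  rw [e4]
  push_cast
  ring

theorem werrb_cos {φ1 φ : ℝ} (h1 : φ1 ≤ π / 2) (h : φ ∈ Icc (0 : ℝ) φ1) :
    0 ≤ cos φ1 ∧ cos φ1 ≤ cos φ ∧ 0 ≤ sin φ ∧ 0 ≤ cos φ ^ 2 - cos φ1 ^ 2 := by
  have hπ := Real.pi_pos
  have a : 0 ≤ cos φ1 := Real.cos_nonneg_of_neg_pi_div_two_le_of_le (by linarith [h.1, h.2]) h1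
  have b : cos φ1 ≤ cos φ := Real.cos_le_cos_of_nonneg_of_le_pi h.1 (by linarith) h.2
  exact ⟨a, b, Real.sin_nonneg_of_nonneg_of_le_pi h.1 (by linarith [h.2]), by nlinarith⟩

theorem werrb_cont {φ1 p : ℝ} (h0 : 0 ≤ φ1) (h1 : φ1 ≤ π / 2) (hp : 0 < p) :
    IntervalIntegrable (fun φ => (cos φ1 + √(cos φ ^ 2 - cos φ1 ^ 2)) * (cos φ * sin φ) /
      √(p + (cos φ ^ 2 - cos φ1 ^ 2)) ^ 5) MeasureTheory.volume 0 φ1 := by
  refine ContinuousOn.intervalIntegrable ?_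
  rw [uIcc_of_le h0]
  refine ContinuousOn.div (by fun_prop) (by fun_prop) fun φ h => ?_
  have := (werrb_cos h1 h).2.2.2
  have : 0 < √(p + (cos φ ^ 2 - cos φ1 ^ 2)) := Real.sqrt_pos.2 (by linarith)
  positivity

theorem werrb_int {φ1 p : ℝ} (h0 : 0 ≤ φ1) (h1 : φ1 ≤ π / 2) (hp : 0 < p) :
    ∫ φ in (0 : ℝ)..φ1, (cos φ1 + √(cos φ ^ 2 - cos φ1 ^ 2)) * (cos φ * sin φ) /
      √(p + (cos φ ^ 2 - cos φ1 ^ 2)) ^ 5 ≤ (1 + cos φ1 / √p) / (3 * p) := by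
  have hd : ∀ φ ∈ uIcc (0 : ℝ) φ1, HasDerivAt (fun φ => -((-cos φ1 +
      (cos φ ^ 2 - cos φ1 ^ 2) ^ (3 / 2 : ℝ) / p) / (3 * √(p + (cos φ ^ 2 - cos φ1 ^ 2)) ^ 3)))
      ((cos φ1 + √(cos φ ^ 2 - cos φ1 ^ 2)) * (cos φ * sin φ) /
        √(p + (cos φ ^ 2 - cos φ1 ^ 2)) ^ 5) φ := by
    intro φ h
    rw [uIcc_of_le h0] at h
    have hξ := (werrb_cos h1 h).2.2.2
    have a : HasDerivAt (fun φ => cos φ ^ 2 - cos φ1 ^ 2) (2 * cos φ * -sin φ) φ := by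
      simpa using ((Real.hasDerivAt_cos φ).pow 2).sub_const (cos φ1 ^ 2)
    have b := ((werrb_psi (u := cos φ1) hp hξ).comp φ a).neg
    refine b.congr_deriv ?_
    ring
  rw [intervalIntegral.integral_eq_sub_of_hasDerivAt hd (werrb_cont h0 h1 hp)]
  obtain ⟨a, -, -, hξ⟩ := werrb_cos h1 (⟨le_rfl, h0⟩ : (0 : ℝ) ∈ Icc (0 : ℝ) φ1)
  generalize cos 0 ^ 2 - cos φ1 ^ 2 = x at hξ
  have e2 : x ^ (3 / 2 : ℝ) = √x ^ 3 := by
    rw [Real.sqrt_eq_rpow, ← Real.rpow_natCast, ← Real.rpow_mul hξ]; norm_num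
  have hR : 0 < √(p + x) := Real.sqrt_pos.2 (by linarith)
  have hq : 0 < √p := Real.sqrt_pos.2 hp
  have e3 : √x ^ 3 ≤ √(p + x) ^ 3 :=
    pow_le_pow_left₀ (Real.sqrt_nonneg _) (Real.sqrt_le_sqrt (by linarith)) 3
  have e4 : (-cos φ1 + √x ^ 3 / p) / (3 * √(p + x) ^ 3) ≤ 1 / (3 * p) := by
    rw [div_le_div_iff₀ (by positivity) (by positivity)]
    have : √x ^ 3 / p * (3 * p) = 3 * √x ^ 3 := by field_simp
    nlinarith [mul_nonneg a hp.le]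
  have e5 : √p ^ 3 = p * √p := by rw [pow_succ, Real.sq_sqrt hp.le]
  rw [e2, sub_self, Real.zero_rpow (by norm_num), add_zero p, e5]
  have e6 : (1 + cos φ1 / √p) / (3 * p) = 1 / (3 * p) + cos φ1 / (3 * (p * √p)) := by
    field_simp
  rw [e6, zero_div, add_zero, neg_div, neg_neg]
  linarith

theorem werrb_pt {c s u ζ R p v n a k Q : ℝ} (hc : 0 ≤ c) (hs : 0 ≤ s) (hcs : s ^ 2 + c ^ 2 = 1)
    (hu : c ≤ u + ζ) (hR : 0 < R) (hp : 0 < p) (hv : 0 < v) (hn : 247 / 250 * R ^ 2 ≤ n)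
    (hk : 0 < k) (hQ : 0 < Q) (hQ1 : Q ≤ 503 / 500 * (1 + c ^ 2)) (ha : 2 ≤ v ^ 2 * (a * p ^ 2)) :
    (k * c * s / (2 * (k * n))) ^ 2 / (2 * √(2 * a * n / Q)) ≤
      33 / 500 * (v * p) * ((u + ζ) * (c * s) / R ^ 5) := by
  have hn0 : 0 < n := lt_of_lt_of_le (by positivity) hn
  have ha0 : 0 < a := by
    by_contra h
    have : v ^ 2 * (a * p ^ 2) ≤ 0 :=
      mul_nonpos_of_nonneg_of_nonpos (sq_nonneg _) (mul_nonpos_of_nonpos_of_nonneg (not_lt.1 h)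
        (sq_nonneg _))
    linarith
  have hS : 0 < √(2 * a * n / Q) := Real.sqrt_pos.2 (by positivity)
  have hS2 : √(2 * a * n / Q) ^ 2 * Q = 2 * a * n := by
    rw [Real.sq_sqrt (by positivity)]; field_simp
  generalize √(2 * a * n / Q) = S at *
  have A : s * R ≤ 51 / 100 * (v * p * S) := by
    refine le_of_sq_le_sq ?_ (by positivity)
    refine le_of_mul_le_mul_right ?_ hQ
    have b1 : s ^ 2 * Q ≤ 503 / 500 := by
      have : s ^ 2 * (1 + c ^ 2) ≤ 1 := by nlinarith [sq_nonneg (c ^ 2)]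
      nlinarith [mul_le_mul_of_nonneg_left hQ1 (sq_nonneg s)]
    have b2 : (51 / 100 * (v * p * S)) ^ 2 * Q = 2601 / 5000 * ((v ^ 2 * (a * p ^ 2)) * n) := by
      have : (51 / 100 * (v * p * S)) ^ 2 * Q = (51 / 100 * (v * p)) ^ 2 * (S ^ 2 * Q) := by ring
      rw [this, hS2]; ring
    have b3 : 2 * n ≤ (v ^ 2 * (a * p ^ 2)) * n := mul_le_mul_of_nonneg_right ha hn0.le
    have b4 : (s * R) ^ 2 * Q ≤ 503 / 500 * R ^ 2 := by
      have : (s * R) ^ 2 * Q = (s ^ 2 * Q) * R ^ 2 := by ring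
      rw [this]
      exact mul_le_mul_of_nonneg_right b1 (sq_nonneg _)
    rw [b2]
    nlinarith [sq_nonneg R]
  have B : 122 / 125 * R ^ 4 ≤ n ^ 2 := by
    have := pow_le_pow_left₀ (by positivity) hn 2
    nlinarith [pow_pos hR 4]
  have C : s * R ^ 5 ≤ 66 / 125 * (v * p * S) * n ^ 2 := by
    have h1 : s * R * R ^ 4 ≤ 51 / 100 * (v * p * S) * R ^ 4 :=
      mul_le_mul_of_nonneg_right A (by positivity)
    have h2 : v * p * S * (122 / 125 * R ^ 4) ≤ v * p * S * n ^ 2 :=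
      mul_le_mul_of_nonneg_left B (by positivity)
    have h3 : 0 ≤ v * p * S * R ^ 4 := by positivity
    nlinarith
  have e1 : (k * c * s / (2 * (k * n))) ^ 2 / (2 * S) = c * (c * s) * s / (8 * n ^ 2 * S) := by
    field_simp; norm_num
  have e2 : 33 / 500 * (v * p) * ((u + ζ) * (c * s) / R ^ 5) =
      33 / 500 * (v * p) * ((u + ζ) * (c * s)) / R ^ 5 := by ring
  rw [e1, e2, div_le_div_iff₀ (by positivity) (by positivity)]
  have h4 : c * (c * s) ≤ (u + ζ) * (c * s) := mul_le_mul_of_nonneg_right hu (by positivity)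
  calc c * (c * s) * s * R ^ 5 = c * (c * s) * (s * R ^ 5) := by ring
    _ ≤ (u + ζ) * (c * s) * (66 / 125 * (v * p * S) * n ^ 2) :=
      mul_le_mul h4 C (by positivity) (le_trans (by positivity) h4)
    _ = _ := by ring

theorem werrb_low {p0 ξ : ℝ} {ρ : ℂ} (hp : 0 < p0) (hξ : 0 ≤ ξ) (hρ : Sa ρ (3 / 10)) :
    247 / 250 * (p0 * ‖ρ‖ + ξ) ≤ ‖(p0 : ℂ) * ρ + ξ‖ ∧ Sa ((p0 : ℂ) * ρ + ξ) (3 / 10) := by
  have h1 : 477 / 500 * ‖ρ‖ - 1 / 10000 * ‖ρ‖ ≤ ρ.re := by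
    have h2 : (9539 / 10000 : ℝ) ≤ √(1 - (3 / 10) ^ 2) := Real.le_sqrt_of_sq_le (by norm_num)
    have := hρ.re_ge
    nlinarith [norm_nonneg ρ]
  have h3 : ‖ρ‖ ^ 2 = ρ.re ^ 2 + ρ.im ^ 2 := by rw [Complex.sq_norm, Complex.normSq_apply]; ring
  have h4 : ‖(p0 : ℂ) * ρ + ξ‖ ^ 2 = (p0 * ‖ρ‖) ^ 2 + 2 * (p0 * ξ * ρ.re) + ξ ^ 2 := by
    rw [mul_pow, h3, Complex.sq_norm, Complex.normSq_apply]
    simp
    ring
  refine ⟨le_of_sq_le_sq ?_ (norm_nonneg _), ?_⟩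
  · have h5 : p0 * ξ * (477 / 500 * ‖ρ‖ - 1 / 10000 * ‖ρ‖) ≤ p0 * ξ * ρ.re :=
      mul_le_mul_of_nonneg_left h1 (by positivity)
    have h6 : 0 ≤ p0 * ξ * ‖ρ‖ := by positivity
    rw [h4]
    nlinarith [sq_nonneg (p0 * ‖ρ‖ - ξ)]
  · rcases hξ.eq_or_lt with rfl | h
    · simpa using hρ.pos_mul hp
    · exact (hρ.pos_mul hp).add (sa_real h (by norm_num)) (by norm_num) (by norm_num)

theorem werrb_Q {X : ℝ} {j : ℂ} (h0 : 0 ≤ X) (hj : ‖j‖ ≤ 3 / 1000) :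
    Sa (1 - 2 * j) (3 / 500) ∧ Sa (QQ j X) (3 / 500) ∧ ‖QQ j X‖ ≤ 503 / 500 * (1 + X) := by
  have h1 : ‖-(2 * j)‖ ≤ 3 / 500 := by
    rw [norm_neg, norm_mul, Complex.norm_two]; linarith
  have h2 : Sa (1 - 2 * j) (3 / 500) := by
    rw [sub_eq_add_neg]; exact sa_one_add h1 (by norm_num)
  refine ⟨h2, ?_, ?_⟩
  · have h3 : Sa (1 : ℂ) (3 / 500) := by simpa using sa_real (σ := 3 / 500) one_pos (by norm_num)
    rcases h0.eq_or_lt with rfl | h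
    · simpa [QQ] using h3
    · rw [QQ, mul_comm]
      exact h3.add (h2.pos_mul h) (by norm_num) (by norm_num)
  · have h4 : ‖1 - 2 * j‖ ≤ 503 / 500 := by
      rw [sub_eq_add_neg]
      refine (norm_add_le _ _).trans ?_
      rw [norm_one]; linarith
    refine (norm_add_le _ _).trans ?_
    rw [norm_one, norm_mul, Complex.norm_real, Real.norm_of_nonneg h0]
    nlinarith

theorem err_tt {φ1 x1 p0 A0 jl μρ μω v : ℝ} {ω j ρ : ℂ}
    (h0 : π / 4 ≤ φ1) (h1 : φ1 ≤ π / 2) (hx : cos φ1 ^ 2 = x1) (hp : 0 < p0) (hpx : x1 ≤ p0)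
    (hp1 : p0 - x1 ≤ 1) (hA : x1 = (1 - A0) * p0) (hj : ‖j‖ ≤ jl) (hjl : jl ≤ 3 / 1000)
    (hP : ω * j + (1 - 2 * j) * x1 = (1 - 2 * j) * p0 * ρ) (hρ : ‖ρ - 1‖ ≤ μρ)
    (hρ1 : μρ ≤ 77 / 200) (hρ2 : Sa ρ (3 / 10)) (hρ3 : x1 = 0 ∨ μρ ≤ 27 / 100)
    (hω : Sa ω μω) (hω0 : 0 ≤ μω) (hω1 : μω ≤ 3 / 20)
    (hv : 0 < v) (hm : 2 ≤ v ^ 2 * (‖ω * (1 - 2 * j) * ρ ^ 2‖ * p0 ^ 2)) :
    (∀ φ ∈ Icc (0 : ℝ) φ1, q2 ω j φ ∈ Complex.slitPlane) ∧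
      ‖Tt φ1 ω j‖ ≤ 11 / 500 * (v * (1 + √(137 / 100 * (1 - A0)))) := by
  have hπ := Real.pi_pos
  have h00 : 0 ≤ φ1 := by linarith
  have hρ0 : 0 < ‖ρ‖ := norm_pos_iff.2 hρ2.ne
  have hpp : 0 < p0 * ‖ρ‖ := by positivity
  have eX : ∀ φ : ℝ, Complex.cos φ ^ 2 = ((cos φ ^ 2 : ℝ) : ℂ) := fun φ => by push_cast; rfl
  have eP : ∀ φ : ℝ, PP ω j ((cos φ ^ 2 : ℝ) : ℂ) =
      (1 - 2 * j) * ((p0 : ℂ) * ρ + ((cos φ ^ 2 - cos φ1 ^ 2 : ℝ) : ℂ)) := fun φ => by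
    rw [PP, hx, Complex.ofReal_sub]
    linear_combination hP
  refine ⟨fun φ h => ?_, ?_⟩
  · obtain ⟨-, -, -, hξ⟩ := werrb_cos h1 h
    obtain ⟨a1, a2, -⟩ := werrb_Q (sq_nonneg (cos φ)) (hj.trans hjl)
    have a3 := ((((hω.mono hω1).mul a1 (by norm_num) (by norm_num) (by norm_num)).mul
      (werrb_low hp hξ hρ2).2 (by norm_num) (by norm_num) (by norm_num)).mul a2.inv
      (by norm_num) (by norm_num) (by norm_num)).pos_mul two_pos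
    rw [q2, eX, eP]
    convert a3.slit using 1
    push_cast
    ring
  · rw [Tt, norm_neg]
    refine (intervalIntegral.norm_integral_le_of_norm_le h00 (Eventually.of_forall fun φ h => ?_)
      ((werrb_cont h00 h1 hpp).const_mul (33 / 500 * (v * (p0 * ‖ρ‖))))).trans ?_
    · obtain ⟨b1, b2, b3, hξ⟩ := werrb_cos h1 (Ioc_subset_Icc_self h)
      obtain ⟨a1, a2, a3⟩ := werrb_Q (sq_nonneg (cos φ)) (hj.trans hjl)
      have hW : 0 < p0 * ‖ρ‖ + (cos φ ^ 2 - cos φ1 ^ 2) := by linarith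
      have key := werrb_pt (c := cos φ) (s := sin φ) (u := cos φ1)
        (ζ := √(cos φ ^ 2 - cos φ1 ^ 2)) (R := √(p0 * ‖ρ‖ + (cos φ ^ 2 - cos φ1 ^ 2)))
        (p := p0 * ‖ρ‖) (v := v) (n := ‖(p0 : ℂ) * ρ + ((cos φ ^ 2 - cos φ1 ^ 2 : ℝ) : ℂ)‖)
        (a := ‖ω‖ * ‖1 - 2 * j‖) (k := ‖1 - 2 * j‖) (Q := ‖QQ j ((cos φ ^ 2 : ℝ) : ℂ)‖)
        (b1.trans b2) b3 (Real.sin_sq_add_cos_sq φ)
        (by
          refine le_of_sq_le_sq ?_ (by positivity)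
          nlinarith [Real.sq_sqrt hξ, mul_nonneg b1 (Real.sqrt_nonneg (cos φ ^ 2 - cos φ1 ^ 2))])
        (Real.sqrt_pos.2 hW) hpp hv (by rw [Real.sq_sqrt hW.le]; exact (werrb_low hp hξ hρ2).1)
        (norm_pos_iff.2 a1.ne) (norm_pos_iff.2 a2.ne) a3
        (by
          rw [norm_mul, norm_mul, norm_pow] at hm
          refine hm.trans (le_of_eq ?_)
          ring)
      refine le_trans (le_of_eq ?_) key
      rw [norm_div, norm_pow, norm_mul, qh, norm_csqrt, q2, eh, eX, eP, ← Complex.ofReal_cos,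
        ← Complex.ofReal_sin]
      simp only [norm_div, norm_mul, Complex.norm_two, Complex.norm_real,
        Real.norm_of_nonneg (b1.trans b2), Real.norm_of_nonneg b3]
      congr 3
      ring
    · rw [intervalIntegral.integral_const_mul]
      have hc : 0 ≤ cos φ1 := (werrb_cos h1 (⟨le_rfl, h00⟩ : (0 : ℝ) ∈ Icc (0 : ℝ) φ1)).1
      have c1 : cos φ1 / √(p0 * ‖ρ‖) ≤ √(137 / 100 * (1 - A0)) := by
        rcases hρ3 with h | h
        · have : cos φ1 = 0 := by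
            rw [← hx] at h; exact pow_eq_zero_iff two_ne_zero |>.1 h
          rw [this, zero_div]
          exact Real.sqrt_nonneg _
        · refine Real.le_sqrt_of_sq_le ?_
          have d1 : 73 / 100 ≤ ‖ρ‖ := by
            have := norm_sub_norm_le (1 : ℂ) ρ
            rw [norm_one, norm_sub_rev] at this
            linarith
          have d2 : 0 ≤ (1 - A0) * p0 := by rw [← hA, ← hx]; positivity
          rw [div_pow, Real.sq_sqrt hpp.le, hx, div_le_iff₀ hpp, hA]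
          nlinarith
      calc 33 / 500 * (v * (p0 * ‖ρ‖)) * _
          ≤ 33 / 500 * (v * (p0 * ‖ρ‖)) * ((1 + cos φ1 / √(p0 * ‖ρ‖)) / (3 * (p0 * ‖ρ‖))) :=
            mul_le_mul_of_nonneg_left (werrb_int h00 h1 hpp) (by positivity)
        _ = 11 / 500 * (v * (1 + cos φ1 / √(p0 * ‖ρ‖))) := by field_simp; norm_num
        _ ≤ _ := by gcongr

end Pool.Agent.HillD
end

-- part Pool.Agent.P.MP_ae2765_an.WErr
section

/-! Large amplitude: all estimates at one parameter. -/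

namespace Pool.Agent.HillD
open Real Set Filter Topology Asymptotics

theorem werr_int (L : ℝ) : ∫ s in (0 : ℝ)..1, L / (1 + (L * (1 - s)) ^ 2) ≤ π / 2 := by
  have h : ∀ s ∈ uIcc (0 : ℝ) 1, HasDerivAt (fun s => -arctan (L * (1 - s)))
      (L / (1 + (L * (1 - s)) ^ 2)) s := fun s _ => by
    have h1 : HasDerivAt (fun s : ℝ => L * (1 - s)) (L * (0 - 1)) s :=
      ((hasDerivAt_const s (1 : ℝ)).sub (hasDerivAt_id s)).const_mul L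
    exact h1.arctan.neg.congr_deriv (by ring)
  have hc : Continuous fun s : ℝ => L / (1 + (L * (1 - s)) ^ 2) :=
    continuous_const.div (by fun_prop) fun s => by positivity
  rw [intervalIntegral.integral_eq_sub_of_hasDerivAt h (hc.intervalIntegrable _ _)]
  simpa using (arctan_lt_pi_div_two L).le

theorem werr_y {ωl W : ℝ} (h0 : 1 ≤ ωl) (h : ωl ≤ W) :
    13 / (16 * W) + 1 / W ^ 2 ≤ 13 / (16 * ωl) + 1 / ωl ^ 2 ∧
      (13 / (16 * W) + 1 / W ^ 2) ^ 2 * (π * √(7 / 5 * W)) ≤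
        (13 / (16 * ωl) + 1 / ωl ^ 2) ^ 2 * (π * √(7 / 5 * ωl)) := by
  have p0 : 0 < ωl := by linarith
  refine ⟨by gcongr, ?_⟩
  obtain ⟨r, hr, rfl⟩ : ∃ r, 1 ≤ r ∧ W = r * ωl :=
    ⟨W / ωl, (one_le_div p0).2 h, by field_simp⟩
  have p1 : 0 < r := by linarith
  have h1 : 13 / (16 * (r * ωl)) + 1 / (r * ωl) ^ 2 ≤ (13 / (16 * ωl) + 1 / ωl ^ 2) / r := by
    have : 1 / (r * ωl) ^ 2 ≤ 1 / (r * ωl ^ 2) := by
      refine one_div_le_one_div_of_le (by positivity) ?_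
      rw [mul_pow]
      exact mul_le_mul_of_nonneg_right (by nlinarith) (by positivity)
    refine (add_le_add le_rfl this).trans_eq ?_
    field_simp
  have h2 : √(7 / 5 * (r * ωl)) ≤ r ^ 2 * √(7 / 5 * ωl) := by
    rw [← sqrt_sq (sq_nonneg r), ← sqrt_mul (by positivity)]
    refine sqrt_le_sqrt ?_
    have : r ≤ (r ^ 2) ^ 2 := by
      rw [← pow_mul]
      exact le_self_pow₀ hr (by norm_num)
    nlinarith
  calc _ ≤ ((13 / (16 * ωl) + 1 / ωl ^ 2) / r) ^ 2 * (π * (r ^ 2 * √(7 / 5 * ωl))) := by gcongr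
    _ = _ := by field_simp

theorem err2 {φ1 x1 p0 A0 jl μρ μω v ωl κ0 γ bb ν : ℝ} {ω j ρ : ℂ}
    (h0 : π / 4 ≤ φ1) (h1 : φ1 ≤ π / 2) (hx : cos φ1 ^ 2 = x1) (hp : 0 < p0) (hpx : x1 ≤ p0)
    (hp1 : p0 - x1 ≤ 1) (hA : x1 = (1 - A0) * p0) (hj : ‖j‖ ≤ jl) (hjl : jl ≤ 3 / 1000)
    (hP : ω * j + (1 - 2 * j) * x1 = (1 - 2 * j) * p0 * ρ) (hρ : ‖ρ - 1‖ ≤ μρ)
    (hρ1 : μρ ≤ 77 / 200) (hρ2 : Sa ρ (3 / 10)) (hρ3 : x1 = 0 ∨ μρ ≤ 27 / 100)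
    (hω : Sa ω μω) (hω0 : 0 ≤ μω) (hω1 : μω ≤ 3 / 20)
    (hv : 0 < v) (hm : 2 ≤ v ^ 2 * (‖ω * (1 - 2 * j) * ρ ^ 2‖ * p0 ^ 2))
    (hl0 : 1 ≤ ωl) (hl : ωl ≤ ‖ω‖) (hκ : μω + μρ + 21 / 10 * jl ≤ κ0)
    (hb : v ^ 2 * (16 / 5 + 5 / 2 * (1 - A0) ^ 3) / 16 + (13 / (16 * ωl) + 1 / ωl ^ 2) < γ * bb)
    (hν0 : 0 < ν) (hν : (13 / (16 * ωl) + 1 / ωl ^ 2) ^ 2 * (π * √(7 / 5 * ωl)) ≤ ν ^ 2) :
    Wk φ1 ω j κ0 γ ((√(31 / 2500 * (v ^ 3 * (33 / 2 + 23 * (1 - A0) ^ 3))) + ν) ^ 2)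
      (11 / 500 * (v * (1 + √(137 / 100 * (1 - A0))))) (fun _ => bb) (fun _ => 0) := by
  have pt := fun s hs => err_pt (s := s) h0 h1 hx hp hpx hp1 hA hj hjl hP hρ hρ1 hρ2 hρ3 hω hω0
    hω1 hv hm hs
  have tt := err_tt h0 h1 hx hp hpx hp1 hA hj hjl hP hρ hρ1 hρ2 hρ3 hω hω0 hω1 hv hm
  have hne : ω ≠ 0 := norm_pos_iff.1 (by linarith)
  have hφ : 0 < φ1 := by linarith [pi_pos]
  obtain ⟨y1, y2⟩ := werr_y hl0 hl
  refine ⟨hne, fun s hs => (pt s hs).1, fun s hs => (pt s hs).2.1, fun s hs =>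
    (pt s hs).2.2.1.trans (mul_le_mul_of_nonneg_right hκ (norm_nonneg _)), fun s hs => ?_, ?_,
    tt.1, tt.2⟩
  · obtain ⟨a1, a2, -, -, x, y, -, -, a3, a4, rfl, -⟩ := pt s hs
    refine mul_neg_of_pos_of_neg (sqrt_pos.2 (norm_pos_iff.2 ?_)) (by linarith)
    exact div_ne_zero (mul_ne_zero (mul_ne_zero (mul_ne_zero (by norm_num)
      (pow_ne_zero 2 (Complex.ofReal_ne_zero.2 hφ.ne'))) hne) a1) a2
  · have hA0 : 0 ≤ 1 - A0 := nonneg_of_mul_nonneg_left (by rw [← hA, ← hx]; positivity) hp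
    obtain ⟨K, hK⟩ : ∃ K, K = v ^ 3 * (33 / 2 + 23 * (1 - A0) ^ 3) := ⟨_, rfl⟩
    obtain ⟨L, hL⟩ : ∃ L, L = 2 * φ1 / √(p0 * ‖ρ‖) := ⟨_, rfl⟩
    have pK : 0 < K := by rw [hK]; positivity
    rw [← hK, ← hL] at pt
    rw [← hK]
    have ea : √(31 / 2500 * K) ^ 2 = 31 / 2500 * K := sq_sqrt (by positivity)
    have pa : 0 < √(31 / 2500 * K) := sqrt_pos.2 (by positivity)
    generalize √(31 / 2500 * K) = a at ea pa ⊢
    have hc : Continuous fun s : ℝ => L / (1 + (L * (1 - s)) ^ 2) :=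
      continuous_const.div (by fun_prop) fun s => by positivity
    have hi := intervalIntegral.integral_mono_on (μ := MeasureTheory.volume) zero_le_one
      ((wk_cont hne (fun s hs => (pt s hs).1) fun s hs => (pt s hs).2.1).intervalIntegrable_of_Icc
        zero_le_one)
      (g := fun s => (1 + ν / a) * (788 / 100000 * K) * (L / (1 + (L * (1 - s)) ^ 2)) +
        (1 + a / ν) * ν ^ 2)
      (((continuous_const.mul hc).add continuous_const).intervalIntegrable _ _) fun s hs => by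
        obtain ⟨-, -, -, a2, x, y, x0, y0, a3, -, a5, a6⟩ := pt s hs
        have b1 : y ^ 2 * √‖G2 φ1 ω j s‖ ≤ ν ^ 2 := by
          refine (mul_le_mul_of_nonneg_left a2 (sq_nonneg y)).trans ?_
          rw [a5]
          exact y2.trans hν
        have b2 : (x + y) ^ 2 ≤ (1 + ν / a) * x ^ 2 + (1 + a / ν) * y ^ 2 := by
          have : (1 + ν / a) * x ^ 2 + (1 + a / ν) * y ^ 2 - (x + y) ^ 2 =
              (ν * x - a * y) ^ 2 / (a * ν) := by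
            field_simp
            ring
          have b3 : 0 ≤ (ν * x - a * y) ^ 2 / (a * ν) := by positivity
          linarith
        calc _ ≤ ((1 + ν / a) * x ^ 2 + (1 + a / ν) * y ^ 2) * √‖G2 φ1 ω j s‖ :=
              mul_le_mul_of_nonneg_right ((pow_le_pow_left₀ (norm_nonneg _) a3 2).trans b2)
                (sqrt_nonneg _)
          _ = (1 + ν / a) * (x ^ 2 * √‖G2 φ1 ω j s‖) + (1 + a / ν) * (y ^ 2 * √‖G2 φ1 ω j s‖) := by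
              ring
          _ ≤ (1 + ν / a) * (788 / 100000 * K * (L / (1 + (L * (1 - s)) ^ 2))) +
              (1 + a / ν) * ν ^ 2 := by gcongr
          _ = _ := by ring
    refine hi.trans ?_
    rw [intervalIntegral.integral_add ((hc.const_mul _).intervalIntegrable _ _)
      intervalIntegrable_const, intervalIntegral.integral_const_mul,
      intervalIntegral.integral_const, sub_zero, one_smul]
    have b4 : 788 / 100000 * K * (π / 2) ≤ a ^ 2 := by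
      rw [ea]
      nlinarith [pi_lt_d4]
    calc _ ≤ (1 + ν / a) * (788 / 100000 * K) * (π / 2) + (1 + a / ν) * ν ^ 2 := by
          gcongr
          exact werr_int L
      _ = (1 + ν / a) * (788 / 100000 * K * (π / 2)) + (1 + a / ν) * ν ^ 2 := by ring
      _ ≤ (1 + ν / a) * a ^ 2 + (1 + a / ν) * ν ^ 2 := by gcongr
      _ = _ := by
          field_simp
          ring

end Pool.Agent.HillD
end

-- part Pool.Agent.P.MP_ae2765_an.WC2d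
section

/-! Second region: large amplitude away from the turning point. -/

namespace Pool.Agent.HillD
open Real Set Filter Topology Asymptotics

theorem wc2d_mono {φ1 κ0 γ N N' T T' : ℝ} {ω j : ℂ} {b b' : ℝ → ℝ}
    (h : Wk φ1 ω j κ0 γ N T b b') (hN : N ≤ N') (hT : T ≤ T') : Wk φ1 ω j κ0 γ N' T' b b' :=
  ⟨h.ne0, h.neP, h.neQ, h.ang, h.bar, h.int.trans hN, h.slit, h.tt.trans hT⟩

theorem wc2d_low {z : ℂ} {r : ℝ} (h : ‖z‖ ≤ r) : 1 - r ≤ ‖1 + z‖ := by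
  have h1 := norm_sub_le (1 + z) z
  rw [add_sub_cancel_right, norm_one] at h1
  linarith

theorem wc2d_j {δ0 : ℝ} {τ : ℂ} (h1 : 475 ≤ δ0 ^ 2) (hτ : ‖τ‖ ≤ 3 / 20) :
    ‖lJ δ0 τ‖ ≤ 3 / 1000 := by
  have a1 := wc2d_low hτ
  have a2 := norm_sub_le ((δ0 : ℂ) ^ 2 * (1 + τ) ^ 2 + 2) 2
  rw [add_sub_cancel_right, norm_mul, norm_pow, norm_pow, Complex.norm_real, Real.norm_eq_abs,
    sq_abs, Complex.norm_two] at a2
  have a3 : (17 / 20 : ℝ) ^ 2 ≤ ‖1 + τ‖ ^ 2 := pow_le_pow_left₀ (by norm_num) (by linarith) 2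
  have a4 : 475 * (17 / 20 : ℝ) ^ 2 ≤ δ0 ^ 2 * ‖1 + τ‖ ^ 2 :=
    mul_le_mul h1 a3 (by norm_num) (by positivity)
  rw [lJ, norm_div, norm_one, div_le_iff₀ (by linarith)]
  linarith

theorem wc2d_aa {δ0 ω0 : ℝ} (hδ : 0 < δ0) (hω : 0 < ω0) :
    aa ω0 (jj δ0) ^ 2 ≤ (ω0 / δ0 ^ 2) ^ 2 * ω0 / 2 := by
  have e : 1 - 2 * jj δ0 = δ0 ^ 2 / (δ0 ^ 2 + 2) := by
    unfold jj
    field_simp
    ring
  rw [aa, mul_pow, sq_sqrt (by rw [e]; positivity), e, jj]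
  have e2 : (ω0 * (1 / (δ0 ^ 2 + 2))) ^ 2 * (ω0 / (2 * (δ0 ^ 2 / (δ0 ^ 2 + 2)))) =
      (ω0 / δ0 ^ 2) ^ 2 * ω0 / 2 * (δ0 ^ 2 / (δ0 ^ 2 + 2)) := by
    field_simp
  rw [e2]
  exact mul_le_of_le_one_right (by positivity) ((div_le_one (by positivity)).2 (by linarith))

theorem wc2d_rho {s : ℝ} {τ ρ : ℂ} (hs0 : 0 ≤ s) (hs1 : s ≤ 1) (hτ : ‖τ‖ ≤ 3 / 20)
    (hρ : ρ * (1 + s * τ) = (1 + τ) ^ 2) :
    (20 / 23 : ℝ) ^ 4 ≤ ‖1 + s * τ‖ * ‖ρ⁻¹‖ ^ 2 := by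
  have a0 : ‖(s : ℂ) * τ‖ ≤ s * (3 / 20) := by
    rw [norm_mul, Complex.norm_real, Real.norm_of_nonneg hs0]
    exact mul_le_mul_of_nonneg_left hτ hs0
  have a1 := wc2d_low a0
  have a2 := wc2d_low hτ
  have a3 : ‖1 + τ‖ ≤ 23 / 20 := by
    have := norm_add_le 1 τ
    rw [norm_one] at this
    linarith
  have a4 : ‖1 + τ‖ ≤ 23 / 20 * ‖1 + s * τ‖ := by
    have h1 := norm_add_le (1 + s * τ) (((1 - s : ℝ) : ℂ) * τ)
    have h2 : 1 + s * τ + ((1 - s : ℝ) : ℂ) * τ = 1 + τ := by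
      push_cast
      ring
    rw [h2, norm_mul, Complex.norm_real, Real.norm_of_nonneg (by linarith)] at h1
    have h3 := mul_le_mul_of_nonneg_left hτ (sub_nonneg.2 hs1)
    linarith
  have a5 := congrArg norm hρ
  rw [norm_mul, norm_pow] at a5
  rw [norm_inv]
  generalize ‖1 + (s : ℂ) * τ‖ = A at *
  generalize ‖1 + τ‖ = B at *
  have hA : 0 < A := by linarith
  have hB : 0 < B := by linarith
  have a6 : ‖ρ‖ = B ^ 2 / A := by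
    rw [← a5]
    field_simp
  have a7 : A * (B ^ 2 / A)⁻¹ ^ 2 = A ^ 3 / (B ^ 3 * B) := by
    field_simp
  have a8 : B ^ 3 * B ≤ (23 / 20 * A) ^ 3 * (23 / 20) :=
    mul_le_mul (pow_le_pow_left₀ hB.le a4 3) a3 hB.le (by positivity)
  rw [a6, a7, le_div_iff₀ (by positivity)]
  linarith

theorem c2_disc {δ0 ω0 s x : ℝ} {τ : ℂ} (hδ : 0 < δ0) (ht : ω0 ≤ δ0 ^ 2) (h1 : 475 ≤ ω0)
    (hx0 : 0 < x) (hx : x ^ 2 * aa ω0 (jj δ0) = 5 / 2) (hs0 : 0 ≤ s) (hs1 : s ≤ 1)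
    (hτ : ‖τ‖ ≤ 3 / 20) :
    Wk (π / 2) (lΩ ω0 s τ) (lJ δ0 τ) (79 / 200) (26 / 25)
      ((22 / 125 * (x ^ 2 * x) + 9 / 500) ^ 2) (11 / 500 * (133 / 250 * x ^ 2))
      (fun _ => 25 / 26 * (1 / 5 * (133 / 250 * x ^ 2) ^ 2 + 21 / 10000)) (fun _ => 0) := by
  have hω : 0 < ω0 := by linarith
  have hD : 0 < δ0 ^ 2 := by positivity
  obtain ⟨ρ, r1, -, r3, r4, -, -, -, r8, -, -⟩ :=
    line_par (r := 3 / 20) hδ hω hs0 hs1 (by norm_num) hτ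
  have hj := wc2d_j (h1.trans ht) hτ
  have a0 : ‖(s : ℂ) * τ‖ ≤ s * (3 / 20) := by
    rw [norm_mul, Complex.norm_real, Real.norm_of_nonneg hs0]
    exact mul_le_mul_of_nonneg_left hτ hs0
  have a1 := wc2d_low a0
  have hn : ‖lΩ ω0 s τ‖ = ω0 * ‖1 + s * τ‖ := by
    rw [lΩ, norm_mul, Complex.norm_real, Real.norm_of_nonneg hω.le]
  have hp : 0 < ω0 / δ0 ^ 2 := by positivity
  have hk : 497 / 500 ≤ ‖1 - 2 * lJ δ0 τ‖ := by
    have h := wc2d_low (z := -(2 * lJ δ0 τ)) (r := 6 / 1000)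
      (by rw [norm_neg, norm_mul, Complex.norm_two]; linarith)
    rw [← sub_eq_add_neg] at h
    linarith
  have hm : 2 ≤ (133 / 250 * x ^ 2) ^ 2 *
      (‖lΩ ω0 s τ * (1 - 2 * lJ δ0 τ) * ρ⁻¹ ^ 2‖ * (ω0 / δ0 ^ 2) ^ 2) := by
    have b1 := wc2d_rho hs0 hs1 hτ r1
    have b2 := wc2d_aa hδ hω
    have b3 : 497 / 500 * (20 / 23 : ℝ) ^ 4 ≤
        ‖1 - 2 * lJ δ0 τ‖ * (‖1 + s * τ‖ * ‖ρ⁻¹‖ ^ 2) :=
      mul_le_mul hk b1 (by positivity) (norm_nonneg _)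
    have b4 : (5 / 2 : ℝ) ^ 2 ≤ (x ^ 2) ^ 2 * ((ω0 / δ0 ^ 2) ^ 2 * ω0 / 2) := by
      rw [← hx, mul_pow]
      exact mul_le_mul_of_nonneg_left b2 (by positivity)
    have b5 := mul_le_mul b4 b3 (by positivity) (by positivity)
    rw [norm_mul, norm_mul, norm_pow, hn]
    calc (2 : ℝ) ≤ 2 * (133 / 250) ^ 2 * ((5 / 2) ^ 2 * (497 / 500 * (20 / 23) ^ 4)) := by
          norm_num
      _ ≤ 2 * (133 / 250) ^ 2 * ((x ^ 2) ^ 2 * ((ω0 / δ0 ^ 2) ^ 2 * ω0 / 2) *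
          (‖1 - 2 * lJ δ0 τ‖ * (‖1 + s * τ‖ * ‖ρ⁻¹‖ ^ 2))) :=
          mul_le_mul_of_nonneg_left b5 (by positivity)
      _ = _ := by ring
  have hν : (13 / (16 * 403) + 1 / 403 ^ 2 : ℝ) ^ 2 * (π * √(7 / 5 * 403)) ≤ (9 / 500) ^ 2 := by
    have b1 : √(7 / 5 * 403) ≤ 119 / 5 := sqrt_le_iff.2 ⟨by norm_num, by norm_num⟩
    have b2 : π * √(7 / 5 * 403) ≤ 3.15 * (119 / 5) :=
      mul_le_mul pi_lt_d2.le b1 (sqrt_nonneg _) (by norm_num)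
    refine (mul_le_mul_of_nonneg_left b2 (by positivity)).trans ?_
    norm_num
  have key := err2 (φ1 := π / 2) (x1 := 0) (p0 := ω0 / δ0 ^ 2) (A0 := 1) (jl := 3 / 1000)
    (μω := s * (3 / 20)) (v := 133 / 250 * x ^ 2) (ωl := 403) (κ0 := 79 / 200) (γ := 26 / 25)
    (bb := 25 / 26 * (1 / 5 * (133 / 250 * x ^ 2) ^ 2 + 21 / 10000)) (ν := 9 / 500)
    (ω := lΩ ω0 s τ) (j := lJ δ0 τ) (ρ := ρ⁻¹) (by linarith [pi_pos]) le_rfl (by simp) hp hp.le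
    (by rw [sub_zero]; exact (div_le_one hD).2 ht) (by ring) hj le_rfl ?_ r4 ?_ ?_ (Or.inl rfl)
    ((sa_one_add a0 (by linarith)).pos_mul hω) (by positivity) (by linarith) (by positivity) hm
    (by norm_num) ?_ ?_ ?_ (by norm_num) hν
  · refine wc2d_mono key (pow_le_pow_left₀ (by positivity) ?_ 2) (le_of_eq (by simp))
    refine add_le_add_left (sqrt_le_iff.2 ⟨by positivity, ?_⟩) _
    have : 0 ≤ x ^ 6 := by positivity
    nlinarith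
  · have hρ := r3.ne
    have e1 : (δ0 : ℂ) ≠ 0 := Complex.ofReal_ne_zero.2 hδ.ne'
    have e2 : (ω0 : ℂ) ≠ 0 := Complex.ofReal_ne_zero.2 hω.ne'
    rw [r8]
    push_cast
    field_simp
    ring
  · norm_num
    linarith
  · exact r3.inv.mono (by norm_num)
  · rw [hn]
    calc (403 : ℝ) ≤ 475 * (17 / 20) := by norm_num
      _ ≤ _ := mul_le_mul h1 (by linarith) (by norm_num) hω.le
  · norm_num
    linarith
  · norm_num
    linarith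

end Pool.Agent.HillD
end

-- part Pool.Agent.P.MP_ae2765_an.WO1
section

/-! Large amplitude: the main term. -/

namespace Pool.Agent.HillD
open Real Set Filter Topology Asymptotics

variable {φ1 ω j s : ℝ}

theorem wo1_alg {s w w1 β c : ℝ} (hs0 : 0 ≤ s) (hs1 : s ≤ 1) (hw0 : 0 ≤ w) (hw : w ≤ 1)
    (hw1 : w ≤ w1) (hβ0 : 0 ≤ β) (hβ : β ≤ c * w) :
    w * (3 - 7 / 2 * s + 3 / 4 * s ^ 2 - (2 - s) ^ 2 / 4 * w1 - 5 * c) -
      s / 2 * el1 s (1 - w) (1 - β) ≤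
      2 * ((el2 s (1 - w) (1 - β) + el1 s (1 - w) (1 - β) ^ 2) / 2) := by
  have h1 : 0 ≤ w * ((2 - s) ^ 2 / 4 * (w1 - w)) :=
    mul_nonneg hw0 (mul_nonneg (by positivity) (sub_nonneg.2 hw1))
  have h2 : 0 ≤ β * (2 + 3 * β + 3 / 2 * s - (2 - s) * w) := by
    apply mul_nonneg hβ0
    have : 0 ≤ s * w := mul_nonneg hs0 hw0
    nlinarith
  have h3 : 2 * ((el2 s (1 - w) (1 - β) + el1 s (1 - w) (1 - β) ^ 2) / 2) -
      (w * (3 - 7 / 2 * s + 3 / 4 * s ^ 2 - (2 - s) ^ 2 / 4 * w1 - 5 * c) -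
      s / 2 * el1 s (1 - w) (1 - β)) = w * ((2 - s) ^ 2 / 4 * (w1 - w)) +
        β * (2 + 3 * β + 3 / 2 * s - (2 - s) * w) + 5 * (c * w - β) := by
    unfold el1 el2
    ring
  linarith

theorem wo1_pt (hω : 0 < ω) (hj : 0 < j) (hj2 : j < 1 / 2) (ht : ω * j ≤ 1) (φ : ℝ) :
    yv ω j φ = 1 - ω * j / Pr ω j φ ∧ bv j φ = 1 - 2 * j / Qr j φ ∧ 0 ≤ ω * j / Pr ω j φ ∧
      ω * j / Pr ω j φ ≤ 1 ∧ 0 ≤ 2 * j / Qr j φ ∧
      2 * j / Qr j φ ≤ 2 / ω * (ω * j / Pr ω j φ) := by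
  obtain ⟨hP, hQ, -⟩ := real_axis (φ := φ) hω hj hj2
  have hκ : 0 ≤ (1 - 2 * j) * cos φ ^ 2 := mul_nonneg (by linarith) (sq_nonneg _)
  refine ⟨?_, ?_, by positivity, ?_, by positivity, ?_⟩
  · unfold yv
    rw [eq_sub_iff_add_eq, ← add_div, div_eq_one_iff_eq hP.ne']
    unfold Pr
    ring
  · unfold bv
    rw [eq_sub_iff_add_eq, ← add_div, div_eq_one_iff_eq hQ.ne']
    unfold Qr
    ring
  · rw [div_le_one hP]
    unfold Pr
    linarith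
  · have e : 2 / ω * (ω * j / Pr ω j φ) = 2 * j / Pr ω j φ := by
      field_simp
    rw [e]
    apply div_le_div_of_nonneg_left (by positivity) hP
    unfold Pr Qr
    linarith

theorem wo1_mono (hω : 0 < ω) (hj : 0 < j) (hj2 : j < 1 / 2) (h1 : φ1 ≤ π / 2) {φ : ℝ}
    (hφ : φ ∈ Icc 0 φ1) : ω * j / Pr ω j φ ≤ ω * j / Pr ω j φ1 := by
  obtain ⟨hP, -⟩ := real_axis (φ := φ1) hω hj hj2
  apply div_le_div_of_nonneg_left (by positivity) hP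
  have hc : cos φ1 ≤ cos φ :=
    cos_le_cos_of_nonneg_of_le_pi hφ.1 (by linarith [pi_pos]) hφ.2
  have hc0 : 0 ≤ cos φ1 :=
    cos_nonneg_of_mem_Icc ⟨by linarith [pi_pos, hφ.1, hφ.2], h1⟩
  have : cos φ1 ^ 2 ≤ cos φ ^ 2 := pow_le_pow_left₀ hc0 hc 2
  have := mul_le_mul_of_nonneg_left this (show 0 ≤ 1 - 2 * j by linarith)
  unfold Pr
  linarith

theorem O_F (hω : 0 < ω) (hj : 0 < j) (hj2 : j < 1 / 2) (ht : ω * j ≤ 1) (h0 : 0 ≤ φ1)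
    (h1 : φ1 ≤ π / 2) (hs0 : 0 ≤ s) (hs1 : s ≤ 1) :
    0 ≤ O1 φ1 ω j ∧ s / 2 * (Mn φ1 ω j + O1 φ1 ω j) - O1 φ1 ω j ≤ F1 φ1 ω j s ∧
      O1 φ1 ω j * (3 - 7 / 2 * s + 3 / 4 * s ^ 2 - (2 - s) ^ 2 / 4 * (ω * j / Pr ω j φ1) - 10 / ω) -
        s / 2 * F1 φ1 ω j s ≤ 2 * F2 φ1 ω j s := by
  obtain ⟨cq, cy, cb, cw⟩ := qr_cont hω hj hj2
  have hq : ∀ φ, 0 ≤ qr ω j φ := fun φ => (real_axis (φ := φ) hω hj hj2).2.2.1.le
  have c1 : Continuous fun φ => el1 s (yv ω j φ) (bv j φ) := by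
    unfold el1
    fun_prop
  have c2 : Continuous fun φ => el2 s (yv ω j φ) (bv j φ) := by
    unfold el2
    fun_prop
  have iM : IntervalIntegrable (qr ω j) MeasureTheory.volume 0 φ1 := cq.intervalIntegrable _ _
  have iO : IntervalIntegrable (fun φ => qr ω j φ * (ω * j / Pr ω j φ)) MeasureTheory.volume 0 φ1 :=
    (cq.mul cw).intervalIntegrable _ _
  have i1 : IntervalIntegrable (fun φ => qr ω j φ * el1 s (yv ω j φ) (bv j φ))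
      MeasureTheory.volume 0 φ1 := (cq.mul c1).intervalIntegrable _ _
  have i2 : IntervalIntegrable (fun φ => qr ω j φ *
      ((el2 s (yv ω j φ) (bv j φ) + el1 s (yv ω j φ) (bv j φ) ^ 2) / 2))
      MeasureTheory.volume 0 φ1 :=
    (cq.mul ((c2.add (c1.pow 2)).div_const 2)).intervalIntegrable _ _
  refine ⟨?_, ?_, ?_⟩
  · exact intervalIntegral.integral_nonneg h0 fun φ _ =>
      mul_nonneg (hq φ) (wo1_pt hω hj hj2 ht φ).2.2.1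
  · unfold Mn O1 F1
    rw [← intervalIntegral.integral_add iM iO, ← intervalIntegral.integral_const_mul,
      ← intervalIntegral.integral_sub ((iM.add iO).const_mul _) iO]
    refine intervalIntegral.integral_mono_on h0 (((iM.add iO).const_mul _).sub iO) i1 ?_
    intro φ _
    obtain ⟨ey, eb, -, -, hβ, -⟩ := wo1_pt hω hj hj2 ht φ
    rw [ey, eb]
    have := mul_nonneg (hq φ) hβ
    unfold el1
    nlinarith
  · unfold O1 F1 F2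
    rw [← intervalIntegral.integral_mul_const, ← intervalIntegral.integral_const_mul,
      ← intervalIntegral.integral_const_mul,
      ← intervalIntegral.integral_sub (iO.mul_const _) (i1.const_mul _)]
    refine intervalIntegral.integral_mono_on h0 ((iO.mul_const _).sub (i1.const_mul _))
      (i2.const_mul _) ?_
    intro φ hφ
    obtain ⟨ey, eb, hw0, hw, hβ0, hβ⟩ := wo1_pt hω hj hj2 ht φ
    have key := mul_le_mul_of_nonneg_left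
      (wo1_alg hs0 hs1 hw0 hw (wo1_mono hω hj hj2 h1 hφ) hβ0 hβ) (hq φ)
    rw [ey, eb]
    have e : 10 / ω = 5 * (2 / ω) := by ring
    rw [e]
    linarith

end Pool.Agent.HillD
end
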