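import Pool.Agent.K.MP_ae2765_an.C6
import Pool.Agent.K.MP_ae2765_an.C16
import Pool.Agent.K.MP_ae2765_an.C15

-- part Pool.Agent.P.MP_ae2765_an.WO2
section

/-! Large amplitude: the main term. -/

namespace Pool.Agent.HillD
open Real Set Filter Topology Asymptotics

variable {φ1 ω j s : ℝ}

lemma wo2_den {ρ : ℝ} (hρ : 0 < ρ) (φ : ℝ) : 0 < cos φ ^ 2 + ρ * sin φ ^ 2 := by
  have h := sin_sq_add_cos_sq φ
  rcases le_total ρ 1 with h1 | h1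
  · nlinarith [sq_nonneg (cos φ), sq_nonneg (sin φ)]
  · nlinarith [sq_nonneg (cos φ), sq_nonneg (sin φ)]

lemma wo2_deriv {ρ : ℝ} (hρ : 0 < ρ) (φ : ℝ) :
    HasDerivAt (fun φ => arctan ((1 - ρ) * (sin φ * cos φ) / (cos φ ^ 2 + ρ * sin φ ^ 2)))
      (1 - ρ / (cos φ ^ 2 + ρ ^ 2 * sin φ ^ 2)) φ := by
  have hD := wo2_den hρ φ
  have hE := wo2_den (pow_pos hρ 2) φ
  have h1 : HasDerivAt (fun φ => (1 - ρ) * (sin φ * cos φ))
      ((1 - ρ) * (cos φ * cos φ + sin φ * -sin φ)) φ :=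
    ((hasDerivAt_sin φ).mul (hasDerivAt_cos φ)).const_mul _
  have h2 : HasDerivAt (fun φ => cos φ ^ 2 + ρ * sin φ ^ 2)
      (2 * cos φ * -sin φ + ρ * (2 * sin φ * cos φ)) φ := by
    have h3 := ((hasDerivAt_cos φ).fun_pow 2).fun_add
      (((hasDerivAt_sin φ).fun_pow 2).const_mul ρ)
    refine h3.congr_deriv ?_
    norm_num
  refine (h1.fun_div h2 hD.ne').arctan.congr_deriv ?_
  have h5 := sin_sq_add_cos_sq φ
  clear h1 h2
  generalize sin φ = S at *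
  generalize cos φ = C at *
  have h6 : (C ^ 2 + ρ * S ^ 2) ^ 2 + ((1 - ρ) * (S * C)) ^ 2 = C ^ 2 + ρ ^ 2 * S ^ 2 := by
    have : (C ^ 2 + ρ * S ^ 2) ^ 2 + ((1 - ρ) * (S * C)) ^ 2
        = (S ^ 2 + C ^ 2) * (C ^ 2 + ρ ^ 2 * S ^ 2) := by ring
    rw [this, h5, one_mul]
  have h7 : (1 - ρ) * (C * C + S * -S) * (C ^ 2 + ρ * S ^ 2)
      - (1 - ρ) * (S * C) * (2 * C * -S + ρ * (2 * S * C)) = C ^ 2 + ρ ^ 2 * S ^ 2 - ρ := by
    have : (1 - ρ) * (C * C + S * -S) * (C ^ 2 + ρ * S ^ 2)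
        - (1 - ρ) * (S * C) * (2 * C * -S + ρ * (2 * S * C))
        = (S ^ 2 + C ^ 2) * (C ^ 2 + ρ ^ 2 * S ^ 2 - ρ * (S ^ 2 + C ^ 2)) := by ring
    rw [this, h5, one_mul, mul_one]
  have h8 : 1 + ((1 - ρ) * (S * C) / (C ^ 2 + ρ * S ^ 2)) ^ 2
      = (C ^ 2 + ρ ^ 2 * S ^ 2) / (C ^ 2 + ρ * S ^ 2) ^ 2 := by
    rw [← h6, div_pow, add_div, div_self (pow_pos hD 2).ne']
  rw [h7, h8]
  field_simp

lemma wo2_int {ρ : ℝ} (hρ : 0 < ρ) (hρ1 : ρ ≤ 1) (h0 : 0 ≤ φ1) (h1 : φ1 ≤ π / 2) :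
    0 ≤ ∫ φ in (0 : ℝ)..φ1, (1 - ρ / (cos φ ^ 2 + ρ ^ 2 * sin φ ^ 2)) := by
  have hc : Continuous fun φ : ℝ => 1 - ρ / (cos φ ^ 2 + ρ ^ 2 * sin φ ^ 2) :=
    continuous_const.sub (continuous_const.div (by fun_prop)
      fun φ => (wo2_den (pow_pos hρ 2) φ).ne')
  rw [intervalIntegral.integral_eq_sub_of_hasDerivAt (fun φ _ => wo2_deriv hρ φ)
    (hc.intervalIntegrable _ _)]
  simp only [sin_zero, zero_mul, mul_zero, zero_div, arctan_zero, sub_zero]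
  rw [← arctan_zero]
  refine arctan_mono (div_nonneg (mul_nonneg (by linarith) (mul_nonneg ?_ ?_))
    (wo2_den hρ φ1).le)
  · exact sin_nonneg_of_nonneg_of_le_pi h0 (by linarith [pi_pos])
  · exact cos_nonneg_of_neg_pi_div_two_le_of_le (by linarith [pi_pos]) h1

lemma wo2_mono {κ X Y : ℝ} (hω : 0 < ω) (hκ : 0 < κ) (ht : ω * j ≤ 1) (hX : 0 ≤ X)
    (h : X ≤ Y) : √(2 * ω * (ω * j + κ * X) / (1 + κ * X))
      ≤ √(2 * ω * (ω * j + κ * Y) / (1 + κ * Y)) := by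
  have h1 : 0 < 1 + κ * X := by positivity
  have h2 : 0 < 1 + κ * Y := by nlinarith
  refine sqrt_le_sqrt ?_
  rw [div_le_div_iff₀ h1 h2]
  have h3 : 0 ≤ 2 * ω * (κ * (Y - X) * (1 - ω * j)) :=
    mul_nonneg (by linarith) (mul_nonneg (mul_nonneg hκ.le (by linarith)) (by linarith))
  nlinarith [h3]

/-- `β ^ 2 = ω / δ ^ 2` -/
theorem O_ratio (hω : 0 < ω) (hj : 0 < j) (hj2 : j < 1 / 2) (ht : ω * j ≤ 1) (h0 : 0 ≤ φ1)
    (h1 : φ1 ≤ π / 2) {β : ℝ} (hβ0 : 0 ≤ β) (hβ : β ^ 2 = ω * j / (1 - 2 * j)) :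
    O1 φ1 ω j * √(1 + β ^ 2) ≤ β * Mn φ1 ω j := by
  have hκ : 0 < 1 - 2 * j := by linarith
  have hb : 0 < β ^ 2 := by rw [hβ]; positivity
  have hβ1 : 0 < β := lt_of_le_of_ne hβ0 (by rintro rfl; simp at hb)
  have hr : 0 < √(1 + β ^ 2) := sqrt_pos.2 (by linarith)
  have hr2 : √(1 + β ^ 2) ^ 2 = 1 + β ^ 2 := sq_sqrt (by linarith)
  obtain ⟨ρ, hρ⟩ : ∃ ρ, ρ = β / √(1 + β ^ 2) := ⟨_, rfl⟩
  have hρ0 : 0 < ρ := by rw [hρ]; positivity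
  have hρ2 : ρ ^ 2 * (1 + β ^ 2) = β ^ 2 := by
    rw [hρ, div_pow, hr2]
    field_simp
  have hρ1 : ρ ≤ 1 := by
    rw [hρ, div_le_one hr]
    exact le_sqrt_of_sq_le (by linarith)
  have hωj : ω * j = β ^ 2 * (1 - 2 * j) := by rw [hβ, div_mul_cancel₀ _ hκ.ne']
  obtain ⟨hq, -, -, hw⟩ := qr_cont hω hj hj2
  have hwe : ∀ φ, ω * j / Pr ω j φ = β ^ 2 / (β ^ 2 + cos φ ^ 2) := fun φ => by
    have h2 : 0 < β ^ 2 + cos φ ^ 2 := by positivity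
    unfold Pr
    rw [hωj]
    field_simp
  have hwf : ∀ φ, ρ - ω * j / Pr ω j φ
      = ρ * (1 - ρ / (cos φ ^ 2 + ρ ^ 2 * sin φ ^ 2)) := fun φ => by
    have h2 : 0 < β ^ 2 + cos φ ^ 2 := by positivity
    have h3 := wo2_den (pow_pos hρ0 2) φ
    have h4 : β ^ 2 / (β ^ 2 + cos φ ^ 2) = ρ ^ 2 / (cos φ ^ 2 + ρ ^ 2 * sin φ ^ 2) := by
      rw [div_eq_div_iff h2.ne' h3.ne', sin_sq]
      linear_combination (-cos φ ^ 2) * hρ2
    rw [hwe, h4]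
    ring
  obtain ⟨Y, hY⟩ : ∃ Y, Y = β ^ 2 / ρ - β ^ 2 := ⟨_, rfl⟩
  have hYρ : ρ * Y = β ^ 2 - ρ * β ^ 2 := by rw [hY]; field_simp
  have hY0 : 0 ≤ Y := by
    refine nonneg_of_mul_nonneg_right ?_ hρ0
    nlinarith
  obtain ⟨c, hc⟩ : ∃ c, c = √(2 * ω * (ω * j + (1 - 2 * j) * Y) / (1 + (1 - 2 * j) * Y)) :=
    ⟨_, rfl⟩
  have hc0 : 0 ≤ c := by rw [hc]; exact sqrt_nonneg _
  have hpt : ∀ φ, c * (ρ - ω * j / Pr ω j φ) ≤ qr ω j φ * (ρ - ω * j / Pr ω j φ) := fun φ => by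
    have h2 : 0 < β ^ 2 + cos φ ^ 2 := by positivity
    rcases le_total Y (cos φ ^ 2) with h3 | h3
    · refine mul_le_mul_of_nonneg_right (hc ▸ wo2_mono hω hκ ht hY0 h3) ?_
      rw [hwe, sub_nonneg, div_le_iff₀ h2]
      nlinarith
    · refine mul_le_mul_of_nonpos_right (hc ▸ wo2_mono hω hκ ht (sq_nonneg _) h3) ?_
      rw [hwe, sub_nonpos, le_div_iff₀ h2]
      nlinarith
  have h5 : 0 ≤ ∫ φ in (0 : ℝ)..φ1, c * (ρ - ω * j / Pr ω j φ) := by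
    simp only [hwf, ← mul_assoc]
    rw [intervalIntegral.integral_const_mul]
    exact mul_nonneg (mul_nonneg hc0 hρ0.le) (wo2_int hρ0 hρ1 h0 h1)
  have h6 : ∫ φ in (0 : ℝ)..φ1, c * (ρ - ω * j / Pr ω j φ)
      ≤ ∫ φ in (0 : ℝ)..φ1, qr ω j φ * (ρ - ω * j / Pr ω j φ) :=
    intervalIntegral.integral_mono_on h0
      ((continuous_const.mul (continuous_const.sub hw)).intervalIntegrable _ _)
      ((hq.mul (continuous_const.sub hw)).intervalIntegrable _ _) (fun φ _ => hpt φ)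
  have h7 : ∫ φ in (0 : ℝ)..φ1, qr ω j φ * (ρ - ω * j / Pr ω j φ)
      = ρ * Mn φ1 ω j - O1 φ1 ω j := by
    unfold Mn O1
    rw [← intervalIntegral.integral_const_mul, ← intervalIntegral.integral_sub
      (f := fun φ => ρ * qr ω j φ) (g := fun φ => qr ω j φ * (ω * j / Pr ω j φ))
      ((continuous_const.mul hq).intervalIntegrable _ _) ((hq.mul hw).intervalIntegrable _ _)]
    exact intervalIntegral.integral_congr fun φ _ => by ring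
  have h8 : O1 φ1 ω j ≤ ρ * Mn φ1 ω j := by linarith
  have h9 := mul_le_mul_of_nonneg_right h8 hr.le
  have h10 : ρ * Mn φ1 ω j * √(1 + β ^ 2) = β * Mn φ1 ω j := by
    rw [hρ]
    field_simp
  linarith

theorem O_low0 (hω : 0 < ω) (hj : 0 < j) (hj2 : j < 1 / 2) (h0 : 0 ≤ φ1) (h1 : φ1 ≤ π / 2) :
    √(ω * (1 - 2 * j)) * sin φ1 ≤ Mn φ1 ω j := by
  have hκ : 0 < 1 - 2 * j := by linarith
  have h2 : ∫ φ in (0 : ℝ)..φ1, √(ω * (1 - 2 * j)) * cos φ = √(ω * (1 - 2 * j)) * sin φ1 := by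
    rw [intervalIntegral.integral_const_mul, integral_cos, sin_zero, sub_zero]
  rw [← h2]
  unfold Mn
  refine intervalIntegral.integral_mono_on h0
    ((continuous_const.mul continuous_cos).intervalIntegrable _ _)
    ((qr_cont hω hj hj2).1.intervalIntegrable _ _) fun φ hφ => ?_
  have h3 : 0 ≤ cos φ :=
    cos_nonneg_of_neg_pi_div_two_le_of_le (by linarith [pi_pos, hφ.1]) (hφ.2.trans h1)
  have h4 : 0 ≤ (1 - 2 * j) * cos φ ^ 2 := by positivity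
  have h5 : (1 - 2 * j) * cos φ ^ 2 ≤ 1 := by nlinarith [cos_sq_le_one φ, sq_nonneg (cos φ)]
  unfold qr Pr Qr
  refine le_sqrt_of_sq_le ?_
  rw [mul_pow, sq_sqrt (by positivity), le_div_iff₀ (by linarith)]
  have h6 : 0 ≤ ω * ((1 - 2 * j) * cos φ ^ 2) * (1 - (1 - 2 * j) * cos φ ^ 2) :=
    mul_nonneg (mul_nonneg hω.le h4) (by linarith)
  have h7 : 0 ≤ ω * (ω * j) := by positivity
  nlinarith [h6, h7]

end Pool.Agent.HillD
end

-- part Pool.Agent.P.MP_ae2765_an.WO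
section

/-! Large amplitude: the main term. -/

namespace Pool.Agent.HillD
open Real Set Filter Topology Asymptotics

variable {φ1 ω j s : ℝ}

theorem wo_deriv {x : ℝ} (hx : 0 < x) :
    HasDerivAt (fun y : ℝ => -(2 * log y) - pade y)
      (-(2 * (1 - x) ^ 4 / (x * (1 + 4 * x + x ^ 2) ^ 2))) x := by
  have hD : (1 + 4 * x + x ^ 2) ≠ 0 := by positivity
  have h1 : HasDerivAt (fun y : ℝ => 1 + 4 * y + y ^ 2) (4 + 2 * x) x := by
    simpa using ((hasDerivAt_id' x).const_mul 4).const_add 1 |>.fun_add (hasDerivAt_pow 2 x)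
  have h2 : HasDerivAt (fun y : ℝ => 6 * (1 - y ^ 2)) (6 * -(2 * x)) x := by
    simpa using ((hasDerivAt_pow 2 x).const_sub 1).const_mul 6
  have h3 := (((hasDerivAt_log hx.ne').const_mul 2).fun_neg).fun_sub (h2.fun_mul (h1.fun_inv hD))
  refine h3.congr_deriv ?_
  field_simp
  ring

theorem pade_le {y : ℝ} (h0 : 0 < y) (h1 : y ≤ 1) : pade y ≤ -(2 * log y) := by
  have h : AntitoneOn (fun y : ℝ => -(2 * log y) - pade y) (Ioi 0) := by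
    refine antitoneOn_of_deriv_nonpos (convex_Ioi 0)
      (fun x hx => (wo_deriv hx).continuousAt.continuousWithinAt) (fun x hx => ?_) fun x hx => ?_
    · rw [interior_Ioi] at hx
      exact (wo_deriv hx).differentiableAt.differentiableWithinAt
    · rw [interior_Ioi] at hx
      have hx' : 0 < x := hx
      rw [(wo_deriv hx).deriv, neg_nonpos]
      positivity
  have h2 := h h0 (mem_Ioi.2 one_pos) h1
  simp only [pade, log_one] at h2 ⊢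
  linarith

theorem wo_pos {b : ℝ} (hb : 0 < b) (c : ℝ) : 0 < c + √(c ^ 2 + b) := by
  have h : |c| < √(c ^ 2 + b) := by
    rw [lt_sqrt (abs_nonneg c), sq_abs]
    linarith
  linarith [neg_abs_le c]

theorem wo_prim {b : ℝ} (hb : 0 < b) (φ : ℝ) :
    HasDerivAt (fun φ => -log (cos φ + √(cos φ ^ 2 + b))) (sin φ / √(cos φ ^ 2 + b)) φ := by
  have hp : 0 < cos φ ^ 2 + b := by positivity
  have hs : 0 < √(cos φ ^ 2 + b) := sqrt_pos.2 hp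
  have h1 : HasDerivAt (fun φ => cos φ ^ 2 + b) (2 * cos φ * -sin φ) φ := by
    simpa using ((hasDerivAt_cos φ).fun_pow 2).add_const b
  have h2 := (((hasDerivAt_cos φ).fun_add (h1.sqrt hp.ne')).log (wo_pos hb _).ne').fun_neg
  refine h2.congr_deriv ?_
  have h3 := (wo_pos hb (cos φ)).ne'
  field_simp
  ring

theorem wo_point (hω : 0 < ω) (hj : 0 < j) (hj2 : j < 1 / 2) {b : ℝ}
    (hb : b = ω * j / (1 - 2 * j)) {φ : ℝ} (hs : 0 ≤ sin φ) :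
    2 * aa ω j * (sin φ / √(cos φ ^ 2 + b)) ≤ qr ω j φ * (ω * j / Pr ω j φ) := by
  have hk : 0 < 1 - 2 * j := by linarith
  have hb0 : 0 < b := by rw [hb]; positivity
  have hp : 0 < cos φ ^ 2 + b := by positivity
  have hP : Pr ω j φ = (1 - 2 * j) * (cos φ ^ 2 + b) := by
    rw [hb, Pr, mul_add, mul_div_cancel₀ _ hk.ne', add_comm]
  have hP0 : 0 < Pr ω j φ := by rw [hP]; positivity
  have hQ0 : 0 < Qr j φ := by unfold Qr; positivity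
  have hQ : sin φ ^ 2 ≤ 1 / Qr j φ := by
    rw [le_div_iff₀ hQ0, sin_sq, Qr]
    have h1 := sq_nonneg (cos φ)
    have h2 := cos_sq_le_one φ
    nlinarith [mul_nonneg (mul_nonneg hj.le h1) (sub_nonneg.2 h2), sq_nonneg (cos φ ^ 2)]
  refine (sq_le_sq₀ (by unfold aa; positivity) (by unfold qr; positivity)).1 ?_
  have e1 : (2 * aa ω j * (sin φ / √(cos φ ^ 2 + b))) ^ 2 =
      2 * ω * (ω * j) ^ 2 / Pr ω j φ * sin φ ^ 2 := by
    rw [aa, hP, mul_pow, mul_pow, mul_pow, div_pow, sq_sqrt hp.le, sq_sqrt (by positivity)]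
    field_simp
  have e2 : (qr ω j φ * (ω * j / Pr ω j φ)) ^ 2 =
      2 * ω * (ω * j) ^ 2 / Pr ω j φ * (1 / Qr j φ) := by
    rw [qr, mul_pow, sq_sqrt (by positivity)]
    field_simp
  rw [e1, e2]
  exact mul_le_mul_of_nonneg_left hQ (by positivity)

theorem O_low1 (hω : 0 < ω) (hj : 0 < j) (hj2 : j < 1 / 2) (h0 : 0 ≤ φ1) (h1 : φ1 ≤ π / 2)
    {b y : ℝ} (hb : b = ω * j / (1 - 2 * j)) (hy1 : y ≤ 1)
    (hy : cos φ1 + √(cos φ1 ^ 2 + b) ≤ y * (1 + √(1 + b))) : aa ω j * pade y ≤ O1 φ1 ω j := by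
  have hk : 0 < 1 - 2 * j := by linarith
  have hb0 : 0 < b := by rw [hb]; positivity
  have ha : 0 ≤ aa ω j := by unfold aa; positivity
  have hc : Continuous fun φ => sin φ / √(cos φ ^ 2 + b) :=
    continuous_sin.div (by fun_prop) fun φ => (sqrt_pos.2 (by positivity)).ne'
  have hI := intervalIntegral.integral_eq_sub_of_hasDerivAt (a := 0) (b := φ1)
    (fun φ _ => wo_prim hb0 φ) (hc.intervalIntegrable _ _)
  obtain ⟨c1, -, -, c4⟩ := qr_cont hω hj hj2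
  have hm : ∫ φ in (0 : ℝ)..φ1, 2 * aa ω j * (sin φ / √(cos φ ^ 2 + b)) ≤ O1 φ1 ω j :=
    intervalIntegral.integral_mono_on h0 ((hc.const_mul _).intervalIntegrable _ _)
      ((c1.mul c4).intervalIntegrable _ _) fun φ hφ => wo_point hω hj hj2 hb
        (sin_nonneg_of_nonneg_of_le_pi hφ.1 (by linarith [hφ.2, pi_pos]))
  rw [intervalIntegral.integral_const_mul, hI, cos_zero, one_pow] at hm
  have h2 := wo_pos hb0 (cos φ1)
  have h3 : 0 < 1 + √(1 + b) := by positivity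
  have hy0 : 0 < y := by
    by_contra h
    nlinarith [mul_nonneg (neg_nonneg.2 (not_lt.1 h)) h3.le]
  have h4 := log_le_log h2 hy
  rw [log_mul hy0.ne' h3.ne'] at h4
  have h5 := pade_le hy0 hy1
  nlinarith [mul_le_mul_of_nonneg_left h5 ha, mul_le_mul_of_nonneg_left h4 ha]

end Pool.Agent.HillD
end

-- part Pool.Agent.P.MP_ae2765_an.WC2
section

/-! Second region: large amplitude away from the turning point. -/

namespace Pool.Agent.HillD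
open Real Set Filter Topology Asymptotics Pool.Agent.HillD.Num Pool.Agent.P.MP_4c4e6e_co.Eng

theorem wc2_alt1 {x a b : ℝ} (hx : x ^ 2 * a = 5 / 2) (h3 : 311 / 5 * b ≤ a ^ 2)
    (h : 0 < 311 / 5 * b * (x ^ 2) ^ 2 - 25 / 4) : False := by
  have : (x ^ 2) ^ 2 * a ^ 2 = 25 / 4 := by rw [← mul_pow, hx]; norm_num
  have := mul_le_mul_of_nonneg_left h3 (sq_nonneg (x ^ 2))
  linarith

theorem wc2_alt2 {x a b w : ℝ} (hx : x ^ 2 * a = 5 / 2) (hb0 : 0 < b) (ha0 : 0 < a)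
    (ha2 : a ^ 2 = b ^ 2 * w / 2) (h5 : 473 ≤ w) (h : 0 < 153 / 10 * b * x ^ 2 - 5 / 2) : False := by
  have h4 : a < 153 / 10 * b := by
    by_contra hc
    have := mul_le_mul_of_nonneg_left (not_lt.1 hc) (sq_nonneg x)
    linarith
  have h6 := mul_le_mul_of_nonneg_left h5 (sq_nonneg b)
  have h7 : a ^ 2 < (153 / 10 * b) ^ 2 := by gcongr
  have h8 : 0 < b ^ 2 := by positivity
  nlinarith

theorem wc2_alt3 {x a b w s be rt E m o f1 : ℝ} (hx0 : 0 < x) (hx : x ^ 2 * a = 5 / 2) (hb0 : 0 < b)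
    (ha2 : a ^ 2 = b ^ 2 * w / 2) (hs1 : s ≤ 1) (hbe0 : 0 ≤ be) (hrt1 : 1 ≤ rt) (hE0 : 0 ≤ E)
    (hlow : √w ≤ m) (hrat : o * rt ≤ be * m) (hF1 : s / 2 * (m + o) - o ≤ f1) (hf1 : f1 ≤ 20 / 3 * E)
    (h : 0 < 1767 / 1000 * (s - 2 * be * (rt + be)⁻¹) - 20 / 3 * (b * x ^ 2 * E)) : False := by
  obtain ⟨u, hu⟩ : ∃ u, u = s - 2 * be * (rt + be)⁻¹ := ⟨_, rfl⟩
  rw [← hu] at h
  have hbx : 0 < b * x ^ 2 := by positivity
  have hu0 : 0 < u := by linarith [mul_nonneg hbx.le hE0]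
  have hu1 : u * (rt + be) = s * (rt + be) - 2 * be := by
    have : rt + be ≠ 0 := by linarith
    rw [hu]; field_simp
  have hm : 1767 / 500 ≤ b * x ^ 2 * m := by
    have : 1767 / 500 / (b * x ^ 2) ≤ √w := by
      apply le_sqrt_of_sq_le
      rw [div_pow, div_le_iff₀ (by positivity)]
      have : (x ^ 2) ^ 2 * a ^ 2 = 25 / 4 := by rw [← mul_pow, hx]; norm_num
      rw [ha2] at this
      linarith
    have := this.trans hlow
    rwa [div_le_iff₀' hbx] at this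
  have hm0 : 0 < m := by
    by_contra hc
    linarith [mul_nonneg hbx.le (neg_nonneg.2 (not_lt.1 hc))]
  have h6 : m * u / 2 ≤ f1 := by
    have h7 : m * u / 2 * rt ≤ f1 * rt := by
      have a1 := mul_le_mul_of_nonneg_right hF1 (by linarith : 0 ≤ rt)
      have a2 := mul_le_mul_of_nonneg_left hrat (by linarith : 0 ≤ 1 - s / 2)
      have a3 : 0 ≤ m * u * be := by positivity
      have a4 : m * (u * (rt + be)) = m * (s * (rt + be) - 2 * be) := by rw [hu1]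
      linarith
    exact le_of_mul_le_mul_right h7 (by linarith)
  have h8 := mul_le_mul_of_nonneg_left (h6.trans hf1) hbx.le
  linarith [mul_le_mul_of_nonneg_right hm hu0.le]

theorem wc2_alt4 {x a s E o f1 f2 K cc y : ℝ} (hx : x ^ 2 * a = 5 / 2) (hs0 : 0 ≤ s) (hO : 0 ≤ o)
    (hc : cc = 1 / 2 * ((1 - s) * (4 - s)) - 11 / 500) (hcc : 0 < cc) (h10 : y ≤ 11 / 500)
    (hl1 : a * K ≤ o) (hf1 : f1 ≤ 20 / 3 * E) (hf2 : f2 ≤ 400 / 9 * E)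
    (hF2 : o * (3 - 7 / 2 * s + 3 / 4 * s ^ 2 - (2 - s) ^ 2 / 4 * 1 - y) - s / 2 * f1 ≤ 2 * f2)
    (h : 0 < 5 / 2 * (cc * K) - x ^ 2 * E * (10 / 3 * s + 800 / 9)) : False := by
  have a1 : o * cc ≤ o * (3 - 7 / 2 * s + 3 / 4 * s ^ 2 - (2 - s) ^ 2 / 4 * 1 - y) :=
    mul_le_mul_of_nonneg_left (by rw [hc]; linarith) hO
  have a2 := mul_le_mul_of_nonneg_right hl1 hcc.le
  have a3 := mul_le_mul_of_nonneg_left hf1 hs0
  have a4 : a * K * cc ≤ E * (10 / 3 * s + 800 / 9) := by linarith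
  have a5 := mul_le_mul_of_nonneg_left a4 (sq_nonneg x)
  have a6 : x ^ 2 * (a * K * cc) = 5 / 2 * (cc * K) := by rw [← hx]; ring
  linarith

theorem c2_good (typ : Bool) {δ0 ω0 s : ℝ} (hδ : 0 < δ0) (ht : ω0 ≤ δ0 ^ 2) (h1 : 475 ≤ ω0)
    (h2 : 5 / 2 ≤ aa ω0 (jj δ0)) (h3 : 311 / 5 * (ω0 / δ0 ^ 2) ≤ aa ω0 (jj δ0) ^ 2)
    (hs0 : 0 ≤ s) (hs1 : s ≤ 1) : Good typ δ0 ω0 s := by
  have hω : 0 < ω0 := by linarith
  obtain ⟨hj, hj2⟩ := jj_bd hδ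
  have hD : 0 < δ0 ^ 2 := by positivity
  obtain ⟨b, hb⟩ : ∃ b, b = ω0 / δ0 ^ 2 := ⟨_, rfl⟩
  have hb0 : 0 < b := by rw [hb]; positivity
  have hb1 : b ≤ 1 := by rw [hb, div_le_one hD]; exact ht
  have hκ : 1 - 2 * jj δ0 = δ0 ^ 2 / (δ0 ^ 2 + 2) := by unfold jj; field_simp; ring
  have hbj : b = ω0 * jj δ0 / (1 - 2 * jj δ0) := by rw [hb, hκ]; unfold jj; field_simp
  have hκ0 : 0 < 1 - 2 * jj δ0 := by linarith
  have hκ1 : 475 / 477 ≤ 1 - 2 * jj δ0 := by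
    rw [hκ, div_le_div_iff₀ (by norm_num) (by positivity)]; nlinarith
  have htj : ω0 * jj δ0 ≤ 1 := by
    unfold jj; rw [mul_one_div, div_le_one (by positivity)]; linarith
  obtain ⟨a, ha⟩ : ∃ a, a = aa ω0 (jj δ0) := ⟨_, rfl⟩
  rw [← ha] at h2 h3
  rw [← hb] at h3
  have ha0 : 0 < a := by linarith
  have ha2 : a ^ 2 = b ^ 2 * (ω0 * (1 - 2 * jj δ0)) / 2 := by
    rw [ha, aa, mul_pow, sq_sqrt (by positivity), hbj]; field_simp
  obtain ⟨x, hxd⟩ : ∃ x, x = √(5 / 2 / a) := ⟨_, rfl⟩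
  have hx0 : 0 < x := by rw [hxd]; positivity
  have hx : x ^ 2 * a = 5 / 2 := by rw [hxd, sq_sqrt (by positivity)]; field_simp
  have hx2 : x ^ 2 ≤ 1 := by nlinarith [sq_nonneg x]
  have hx1 : x ≤ 1 := by nlinarith
  have hbe : b = √b ^ 2 := (sq_sqrt hb0.le).symm
  have hbe0 : 0 ≤ √b := sqrt_nonneg _
  have hbe1 : √b ≤ 1 := sqrt_le_one.2 hb1
  obtain ⟨bbar, hbbar⟩ : ∃ y : ℝ, y = 25 / 26 * (1 / 5 * (133 / 250 * x ^ 2) ^ 2 + 21 / 10000) := ⟨_, rfl⟩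
  have hbb0 : 0 < bbar := by rw [hbbar]; positivity
  have hbb1 : bbar ≤ 3 / 50 := by
    have : (x ^ 2) ^ 2 ≤ 1 := pow_le_one₀ (by positivity) hx2
    rw [hbbar]; nlinarith
  obtain ⟨E, hE⟩ : ∃ y : ℝ, y = 11 / 500 * (133 / 250 * x ^ 2) +
    625 / 1352 * (22 / 125 * (x ^ 2 * x) + 9 / 500) ^ 2 + 1 / 2 * bbar + bbar ^ 2 := ⟨_, rfl⟩
  have hE0 : 0 ≤ E := by rw [hE]; positivity
  obtain ⟨ϕ, c0, e1, e2, e3, hR, he1, he2, -, hJ⟩ := line90 typ (s := s) (r := 3 / 20) (c := 11 / 20)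
    (bb := bbar) (E := E) hδ hω (by norm_num) (by norm_num)
    (fun τ hτ => c2_disc hδ ht h1 hx0 (ha ▸ hx) hs0 hs1 (mem_ball_zero_iff.1 hτ).le)
    (fun u _ => ⟨hasDerivAt_const _ _, hbbar ▸ hbb0, hbbar.ge⟩) (by norm_num) (by norm_num)
    (by norm_num) (by norm_num) (by linarith) (by rw [← hbbar]; linarith)
    (by rw [← hbbar, hE]; apply le_of_eq; ring)
  refine Or.inl ⟨ϕ, c0, _, _, _, hR, hJ, fun hc1 hc2 => False.elim ?_⟩
  obtain ⟨hO, hF1, hF2⟩ := O_F hω hj hj2 htj pi_div_two_pos.le le_rfl hs0 hs1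
  have hrat := O_ratio hω hj hj2 htj pi_div_two_pos.le le_rfl hbe0 (hbe.symm.trans hbj)
  have hlow := O_low0 hω hj hj2 pi_div_two_pos.le le_rfl
  rw [← hbe] at hrat
  rw [sin_pi_div_two, mul_one] at hlow
  have hrt1 : 1 ≤ √(1 + b) := one_le_sqrt.2 (by linarith)
  have hl1 := O_low1 (y := √b * (1 + √(1 + b))⁻¹) hω hj hj2 pi_div_two_pos.le le_rfl hbj
    (by rw [← div_eq_mul_inv, div_le_one (by linarith)]; linarith)
    (by rw [cos_pi_div_two]; apply le_of_eq; field_simp; simp)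
  have hP : ω0 * jj δ0 / Pr ω0 (jj δ0) (π / 2) = 1 := by
    rw [Pr, cos_pi_div_two]; field_simp; simp
  rw [hP] at hF2
  rw [← ha] at hl1
  have hf1 : F1 (π / 2) ω0 (jj δ0) s ≤ 20 / 3 * E := by linarith only [(abs_le.1 he1).1, hc1]
  have hf2 : F2 (π / 2) ω0 (jj δ0) s ≤ 400 / 9 * E := by
    have := (abs_le.1 he2).1
    norm_num at this
    linarith only [this, hc2]
  rcases C2_real (√b) x s hbe0 hbe1 hx0.le hx1 hs0 hs1 b hbe _ rfl with h | h | h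
  · exact wc2_alt1 hx h3 h
  · exact wc2_alt2 hx hb0 ha0 ha2 (by nlinarith only [h1, hκ1]) h
  rcases h _ rfl _ hbbar _ rfl _ hE _ rfl with h | h
  · exact wc2_alt3 hx0 hx hb0 ha2 hs1 hbe0 hrt1 hE0 hlow hrat hF1 hf1 h
  · obtain ⟨hcc, h⟩ := h _ rfl _ rfl _ rfl
    exact wc2_alt4 hx hs0 hO rfl hcc (by rw [div_le_iff₀ hω]; linarith only [h1]) hl1 hf1 hf2 hF2 h

end Pool.Agent.HillD
end

-- part Pool.Agent.P.MP_ae2765_an.WP3p
section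

/-! Third region: parameters, and estimates on the disc of radius `1 / 4`. -/

namespace Pool.Agent.HillD
open Real Set Filter Topology Asymptotics

/-- ranges of the parameters -/
theorem p3_par {δ0 ω0 j0 al s1 x1 : ℝ}
    (hδ : 0 < δ0) (hω : 1250 ≤ ω0) (ej : j0 = jj δ0) (hal : 0 < al) (ea : al ^ 2 = aa ω0 j0)
    (ha : al ^ 2 ≤ 5 / 2) (es : s1 = 10 - 2 * al ^ 2)
    (ex : x1 = s1 / (2 * √(2 * ω0 * (1 - 2 * j0)))) :
    al ≤ 3953 / 2500 ∧ 4999 / 5000 ≤ 1 - 2 * j0 ∧ 999 / 10 ≤ 2 * √(2 * ω0 * (1 - 2 * j0)) ∧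
      0 < x1 ∧ x1 ≤ 1002 / 10000 ∧ 1 / ω0 ^ 2 ≤ 13 / 20000000 ∧
      2 * j0 / ((1 - 2 * j0) * (s1 * al ^ 2)) ≤ 13 / 1000000 ∧
      ω0 * j0 / (1 - 2 * j0) = 4 * al ^ 2 / (2 * √(2 * ω0 * (1 - 2 * j0))) ∧
      2 * ω0 ^ 2 * j0 * x1 = s1 * al ^ 2 ∧ 2 * ω0 * (1 - 2 * j0) * x1 ^ 2 = 1 / 4 * s1 ^ 2 ∧
      ∃ xx : ℝ, 0 ≤ xx ∧ xx ≤ 1 ∧ (1 - 2 * j0) * x1 ^ 2 = (10 / 999 * (xx * s1)) ^ 2 := by
  obtain ⟨j1, j2⟩ := jj_bd hδ
  rw [← ej] at j1 j2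
  obtain ⟨κ, eκ⟩ : ∃ κ, κ = 1 - 2 * j0 := ⟨_, rfl⟩
  have κ0 : 0 < κ := by linarith
  have κ1 : κ ≤ 1 := by linarith
  have ω0' : 0 < ω0 := by linarith
  rw [aa, ← eκ] at ea
  rw [← eκ] at ex ⊢
  obtain ⟨R, eR⟩ : ∃ R, R = √(2 * ω0 * κ) := ⟨_, rfl⟩
  rw [← eR] at ex ⊢
  have R0 : 0 < R := eR ▸ Real.sqrt_pos.2 (by positivity)
  have R2 : R ^ 2 = 2 * ω0 * κ := eR ▸ Real.sq_sqrt (by positivity)
  have e1 : √(ω0 / (2 * κ)) = R / (2 * κ) := by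
    rw [Real.sqrt_eq_iff_mul_self_eq (by positivity) (by positivity)]
    field_simp
    linarith
  rw [e1] at ea
  have e2 : 2 * κ * al ^ 2 = ω0 * j0 * R := by
    rw [ea]
    field_simp
  have a0 : 0 < al ^ 2 := by positivity
  have hj : j0 ≤ 1 / 10000 := by
    by_contra hc
    rw [not_le] at hc
    have b1 : ω0 * j0 * R ≤ 5 * κ := by nlinarith
    have b2 : (ω0 * j0 * R) ^ 2 ≤ (5 * κ) ^ 2 := pow_le_pow_left₀ (by positivity) b1 2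
    have b3 : (ω0 * j0 * R) ^ 2 = 2 * ω0 * (ω0 * j0) ^ 2 * κ := by rw [mul_pow, R2]; ring
    have b4 : 1 / 8 ≤ ω0 * j0 := by nlinarith
    have b5 : 1 / 64 ≤ (ω0 * j0) ^ 2 := by nlinarith
    have b6 : 39 ≤ 2 * ω0 * (ω0 * j0) ^ 2 := by nlinarith
    rw [b3] at b2
    nlinarith
  have κ2 : 4999 / 5000 ≤ κ := by linarith
  have R1 : 999 / 20 ≤ R := by
    refine le_of_pow_le_pow_left₀ (n := 2) (by norm_num) R0.le ?_
    rw [R2]
    nlinarith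
  have s5 : 5 ≤ s1 := by linarith
  have s10 : s1 ≤ 10 := by linarith
  have s0 : 0 < s1 := by linarith
  refine ⟨?_, κ2, by linarith, by rw [ex]; positivity, ?_, ?_, ?_, ?_, ?_, ?_,
    999 / 10 * √κ / (2 * R), by positivity, ?_, ?_⟩
  · nlinarith
  · rw [ex, div_le_iff₀ (by positivity)]
    linarith
  · rw [div_le_iff₀ (by positivity)]
    nlinarith
  · rw [div_le_iff₀ (by positivity)]
    have b1 : κ * (s1 * al ^ 2) = j0 * (s1 * (ω0 * R)) / 2 := by linear_combination s1 / 2 * e2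
    have b2 : 1250 * (999 / 20) ≤ ω0 * R := mul_le_mul hω R1 (by norm_num) ω0'.le
    have b3 : 5 * (1250 * (999 / 20)) ≤ s1 * (ω0 * R) := mul_le_mul s5 b2 (by norm_num) s0.le
    have b4 := mul_le_mul_of_nonneg_left b3 j1.le
    rw [b1]
    linarith
  · field_simp
    linear_combination (-2) * e2
  · rw [ex, ea]
    field_simp
    linear_combination (-1) * R2
  · rw [ex, ← R2]
    field_simp
    ring
  · have b1 : √κ ≤ 1 := Real.sqrt_le_iff.2 ⟨zero_le_one, by linarith⟩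
    rw [div_le_one (by positivity)]
    linarith
  · have b1 : √κ ^ 2 = κ := Real.sq_sqrt κ0.le
    rw [ex]
    field_simp
    linear_combination (-1) * b1

/-- the coefficients of the series along the curve; `d = s1 (𝔞 - a)`, `υ = sg τ` -/
theorem p3_coef {δ0 ω0 j0 al s1 x1 χ sg : ℝ}
    (hδ : 0 < δ0) (hω : 1250 ≤ ω0) (ej : j0 = jj δ0) (hal : 0 < al) (ea : al ^ 2 = aa ω0 j0)
    (ha : al ^ 2 ≤ 5 / 2) (es : s1 = 10 - 2 * al ^ 2)
    (ex : x1 = s1 / (2 * √(2 * ω0 * (1 - 2 * j0))))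
    (τ d : ℂ) (hd : d = (-(2 * (s1 * (1 - 2 * j0) * al * χ)) : ℝ) * τ +
      (s1 * (4 * (1 - 2 * j0) ^ 2 - (1 - 2 * j0)) * χ ^ 2 : ℝ) * τ ^ 2)
    (nu jk : ℝ) (hnu : nu = 1 / ω0 ^ 2) (hjk : jk = 2 * j0 / ((1 - 2 * j0) * (s1 * al ^ 2))) :
    2 * lΩ ω0 sg τ ^ 2 * cJ j0 (χ / al) τ * x1 = ((s1 * al ^ 2 : ℝ) + d) * (1 + sg * τ) ^ 2 ∧
      2 * lΩ ω0 sg τ * (1 - 2 * cJ j0 (χ / al) τ) * x1 ^ 2 =
        (1 / 4 * s1 ^ 2 : ℝ) * (1 + sg * τ) * (1 - jk * d) ∧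
      (1 - 2 * cJ j0 (χ / al) τ) * x1 ^ 2 = ((1 - 2 * j0) * x1 ^ 2 : ℝ) * (1 - jk * d) ∧
      2 * cJ j0 (χ / al) τ * x1 = nu * ((s1 * al ^ 2 : ℝ) + d) := by
  obtain ⟨-, κ2, -, -, -, -, -, -, e1, e2, -⟩ := p3_par hδ hω ej hal ea ha es ex
  have s0 : (s1 : ℂ) ≠ 0 := Complex.ofReal_ne_zero.2 (by linarith : (0 : ℝ) < s1).ne'
  have a0 : (al : ℂ) ≠ 0 := Complex.ofReal_ne_zero.2 hal.ne'
  have w0 : (ω0 : ℂ) ≠ 0 := Complex.ofReal_ne_zero.2 (by linarith : (0 : ℝ) < ω0).ne'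
  have k0 : (1 - 2 * (j0 : ℂ)) ≠ 0 := by
    have : ((1 - 2 * j0 : ℝ) : ℂ) ≠ 0 :=
      Complex.ofReal_ne_zero.2 (by linarith : (0 : ℝ) < 1 - 2 * j0).ne'
    exact_mod_cast this
  have c1 : 2 * (ω0 : ℂ) ^ 2 * j0 * x1 = s1 * al ^ 2 := by exact_mod_cast e1
  have c2 : 2 * (ω0 : ℂ) * (1 - 2 * j0) * x1 ^ 2 = 1 / 4 * s1 ^ 2 := by
    have := congrArg (fun x : ℝ => (x : ℂ)) e2
    push_cast at this
    exact this
  obtain ⟨u, eu⟩ : ∃ u : ℂ, u = d / (s1 * al ^ 2) := ⟨_, rfl⟩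
  have du : d = s1 * al ^ 2 * u := by
    rw [eu]
    field_simp
  have hJ : cJ j0 (χ / al) τ = j0 * (1 + u) := by
    rw [cJ, eu, hd]
    push_cast
    field_simp
    ring
  have hk : (jk : ℂ) * d * (1 - 2 * j0) = 2 * j0 * u := by
    rw [hjk, du]
    push_cast
    field_simp
  have hn : (nu : ℂ) * ω0 ^ 2 = 1 := by
    rw [hnu]
    push_cast
    field_simp
  rw [hJ, lΩ]
  push_cast
  refine ⟨?_, ?_, ?_, ?_⟩
  · linear_combination (1 + sg * τ) ^ 2 * (1 + u) * c1 - (1 + sg * τ) ^ 2 * du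
  · linear_combination (1 + sg * τ) * (1 - jk * d) * c2 + 2 * ω0 * (1 + sg * τ) * x1 ^ 2 * hk
  · linear_combination x1 ^ 2 * hk
  · linear_combination (-(2 * j0 * (1 + u) * x1)) * hn + nu * (1 + u) * c1 - nu * du

end Pool.Agent.HillD
end
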