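import Pool.Agent.K.MP_ae2765_an.C17
import Pool.Agent.K.MP_ae2765_an.C16
import Pool.Agent.K.MP_ae2765_an.C6
import Pool.Agent.K.MP_ae2765_an.C12

-- part Pool.Agent.P.MP_ae2765_an.WP3a
section

/-! Third region: parameters, and estimates on the disc of radius `1 / 4`. -/

namespace Pool.Agent.HillD
open Real Set Filter Topology Asymptotics

theorem wp3a_poly {c1 c2 c3 m1 m2 m3 : ℝ} {τ : ℂ} (hτ : ‖τ‖ ≤ 1 / 4) (h1 : |c1| ≤ m1)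
    (h2 : |c2| ≤ m2) (h3 : |c3| ≤ m3) :
    ‖(c1 : ℂ) * τ + (c2 : ℂ) * τ ^ 2 + (c3 : ℂ) * τ ^ 3‖ ≤ m1 / 4 + m2 / 16 + m3 / 64 := by
  have hn := norm_nonneg τ
  have t2 : ‖τ‖ ^ 2 ≤ (1 / 4) ^ 2 := pow_le_pow_left₀ hn hτ 2
  have t3 : ‖τ‖ ^ 3 ≤ (1 / 4) ^ 3 := pow_le_pow_left₀ hn hτ 3
  have a1 : ‖(c1 : ℂ) * τ‖ ≤ m1 * (1 / 4) := by
    rw [norm_mul, Complex.norm_real, Real.norm_eq_abs]
    exact mul_le_mul h1 hτ hn ((abs_nonneg _).trans h1)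
  have a2 : ‖(c2 : ℂ) * τ ^ 2‖ ≤ m2 * (1 / 4) ^ 2 := by
    rw [norm_mul, norm_pow, Complex.norm_real, Real.norm_eq_abs]
    exact mul_le_mul h2 t2 (by positivity) ((abs_nonneg _).trans h2)
  have a3 : ‖(c3 : ℂ) * τ ^ 3‖ ≤ m3 * (1 / 4) ^ 3 := by
    rw [norm_mul, norm_pow, Complex.norm_real, Real.norm_eq_abs]
    exact mul_le_mul h3 t3 (by positivity) ((abs_nonneg _).trans h3)
  refine norm_add₃_le.trans ?_
  linarith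

theorem wp3a_one {z : ℂ} {m : ℝ} (h : ‖z‖ ≤ m) :
    (1 - m ≤ ‖1 + z‖ ∧ ‖1 + z‖ ≤ 1 + m) ∧ 1 - m ≤ ‖1 - z‖ ∧ ‖1 - z‖ ≤ 1 + m := by
  have a1 := norm_add_le (1 : ℂ) z
  have a2 := norm_sub_le (1 : ℂ) z
  have a3 := norm_sub_norm_le (1 : ℂ) z
  have a4 := norm_sub_norm_le (1 : ℂ) (-z)
  rw [sub_neg_eq_add, norm_neg] at a4
  rw [norm_one] at a1 a2 a3 a4
  refine ⟨⟨?_, ?_⟩, ?_, ?_⟩ <;> linarith

/-- the two polynomial bounds along the curve -/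
theorem wp3a_DN {κ al χ sg : ℝ} {τ D : ℂ} (hk : 4999 / 5000 ≤ κ) (hk1 : κ ≤ 1) (hal : 0 < al)
    (hal2 : al ≤ 3953 / 2500) (hχ0 : 0 ≤ χ) (hχ1 : χ ≤ 1) (hs0 : 0 ≤ sg) (hs1 : sg ≤ 3 / 5)
    (hτ : ‖τ‖ ≤ 1 / 4)
    (hD : D = (-(2 * κ * al * χ) : ℝ) * τ + ((4 * κ ^ 2 - κ) * χ ^ 2 : ℝ) * τ ^ 2) :
    ‖D‖ ≤ al / 2 + 3 / 16 ∧
      ‖((al ^ 2 : ℝ) + D) * (1 + sg * τ) - (al ^ 2 : ℝ)‖ ≤ al / 2 + 69 / 320 := by
  have k0 : 0 ≤ κ := by linarith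
  have b0 : 0 ≤ κ * χ := mul_nonneg k0 hχ0
  have b1 : κ * χ ≤ 1 := mul_le_one₀ hk1 hχ0 hχ1
  have c0 : 0 ≤ 2 * κ * al * χ := by positivity
  have c1 : 2 * κ * al * χ ≤ 2 * al := by
    linarith only [mul_le_mul_of_nonneg_left b1 hal.le]
  have d0 : 0 ≤ 4 * κ ^ 2 - κ := by nlinarith only [hk]
  have d1 : 4 * κ ^ 2 - κ ≤ 3 := by nlinarith only [hk1, k0]
  have x0 : 0 ≤ χ ^ 2 := sq_nonneg _
  have x1 : χ ^ 2 ≤ 1 := pow_le_one₀ hχ0 hχ1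
  have e0 : 0 ≤ (4 * κ ^ 2 - κ) * χ ^ 2 := mul_nonneg d0 x0
  have e1 : (4 * κ ^ 2 - κ) * χ ^ 2 ≤ 3 := by
    linarith only [mul_le_mul d1 x1 x0 (by norm_num)]
  generalize 2 * κ * al * χ = p at hD c0 c1
  generalize (4 * κ ^ 2 - κ) * χ ^ 2 = q at hD e0 e1
  constructor
  · have := wp3a_poly (c1 := -p) (c2 := q) (c3 := 0) (m1 := 2 * al) (m2 := 3) (m3 := 0) hτ
      (abs_le.2 ⟨by linarith, by linarith⟩) (abs_le.2 ⟨by linarith, by linarith⟩) (by simp)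
    rw [Complex.ofReal_zero, zero_mul, add_zero, ← hD] at this
    linarith
  · have f0 : 0 ≤ al ^ 2 * sg := by positivity
    have f1 : al ^ 2 * sg ≤ 2 * al := by
      linarith only [mul_le_mul_of_nonneg_left hs1 (sq_nonneg al), hal,
        mul_le_mul_of_nonneg_left hal2 hal.le]
    have g0 : 0 ≤ p * sg := mul_nonneg c0 hs0
    have g1 : p * sg ≤ 3 := by linarith only [mul_le_mul c1 hs1 hs0 (by positivity), hal2]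
    have i0 : 0 ≤ q * sg := mul_nonneg e0 hs0
    have i1 : q * sg ≤ 9 / 5 := by linarith only [mul_le_mul e1 hs1 hs0 (by norm_num)]
    have := wp3a_poly (c1 := al ^ 2 * sg - p) (c2 := q - p * sg) (c3 := q * sg) (m1 := 2 * al)
      (m2 := 3) (m3 := 9 / 5) hτ (abs_le.2 ⟨by linarith, by linarith⟩)
      (abs_le.2 ⟨by linarith, by linarith⟩) (abs_le.2 ⟨by linarith, by linarith⟩)
    have e : ((al ^ 2 : ℝ) + D) * (1 + sg * τ) - (al ^ 2 : ℝ) =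
        ((al ^ 2 * sg - p : ℝ) : ℂ) * τ + ((q - p * sg : ℝ) : ℂ) * τ ^ 2 +
          ((q * sg : ℝ) : ℂ) * τ ^ 3 := by
      rw [hD]; push_cast; ring
    rw [e]
    linarith

/-- the quotient `ρ` -/
theorem wp3a_rho {al : ℝ} {W e : ℂ} (hal : 0 < al) (hal2 : al ≤ 3953 / 2500)
    (ha : al ^ 2 ≤ 5 / 2) (hW : ‖W - (al ^ 2 : ℝ)‖ ≤ al / 2 + 69 / 320)
    (he : ‖e‖ ≤ 13 / 100000) :
    ‖W / (1 - e) - (al ^ 2 : ℝ)‖ ≤ al / 2 + 11 / 50 := by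
  have h1 := (wp3a_one he).2.1
  have h2 : 0 < ‖1 - e‖ := by linarith
  have h3 : 1 - e ≠ 0 := norm_pos_iff.1 h2
  have e1 : W / (1 - e) - (al ^ 2 : ℝ) = (W - (al ^ 2 : ℝ) + (al ^ 2 : ℝ) * e) / (1 - e) := by
    field_simp
    ring
  have h4 : ‖((al ^ 2 : ℝ) : ℂ) * e‖ ≤ 5 / 2 * (13 / 100000) := by
    rw [norm_mul, Complex.norm_real, Real.norm_eq_abs, abs_of_nonneg (sq_nonneg _)]
    exact mul_le_mul ha he (norm_nonneg _) (by norm_num)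
  have h5 := norm_add_le (W - (al ^ 2 : ℝ)) (((al ^ 2 : ℝ) : ℂ) * e)
  rw [e1, norm_div, div_le_iff₀ h2]
  have h6 : (al / 2 + 11 / 50) * (1 - 13 / 100000) ≤ (al / 2 + 11 / 50) * ‖1 - e‖ :=
    mul_le_mul_of_nonneg_left h1 (by linarith)
  linarith

theorem wp3a_nu : (13 / (16 * 1062) + 1 / 1062 ^ 2 : ℝ) ^ 2 * (π * √(7 / 5 * 1062)) ≤
    (9 / 1000) ^ 2 := by
  have h1 : √(7 / 5 * 1062 : ℝ) ≤ 39 := Real.sqrt_le_iff.2 ⟨by norm_num, by norm_num⟩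
  have h2 : π * √(7 / 5 * 1062 : ℝ) ≤ 315 / 100 * 39 :=
    mul_le_mul (by linarith [Real.pi_lt_d2]) h1 (Real.sqrt_nonneg _) (by norm_num)
  refine (mul_le_mul_of_nonneg_left h2 (sq_nonneg _)).trans ?_
  norm_num

theorem p3_disc {δ0 ω0 j0 al s1 x1 χ sg φ1 B : ℝ} {τ : ℂ}
    (hδ : 0 < δ0) (hω : 1250 ≤ ω0) (ej : j0 = jj δ0) (hal : 0 < al) (ea : al ^ 2 = aa ω0 j0)
    (ha : al ^ 2 ≤ 5 / 2) (es : s1 = 10 - 2 * al ^ 2)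
    (ex : x1 = s1 / (2 * √(2 * ω0 * (1 - 2 * j0))))
    (hχ0 : 0 ≤ χ) (hχ1 : χ ≤ 1) (hs0 : 0 ≤ sg) (hs1 : sg ≤ 3 / 5) (h0 : π / 4 ≤ φ1)
    (h1 : φ1 ≤ π / 2) (hφ : cos φ1 ^ 2 = x1)
    (hB : B = 1 / 4 * s1 ^ 2 * (s1 * al ^ 2 + 1 / 4 * s1 ^ 2)⁻¹) (hτ : ‖τ‖ ≤ 1 / 4) :
    Wk φ1 (lΩ ω0 sg τ) (cJ j0 (χ / al) τ) (211 / 500) (49 / 50) (p3N al B) (p3T al B)
        (fun _ => p3b al B) (fun _ => 0) ∧
      ‖2 * lΩ ω0 sg τ ^ 2 * cJ j0 (χ / al) τ * x1‖ ≤ 47 / 2 ∧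
      ‖2 * lΩ ω0 sg τ * (1 - 2 * cJ j0 (χ / al) τ) * x1 ^ 2‖ ≤ 29 ∧
      ‖(1 - 2 * cJ j0 (χ / al) τ) * x1 ^ 2‖ ≤ 51 / 5000 ∧
      ‖2 * cJ j0 (χ / al) τ * x1‖ ≤ 3 / 250000 := by
  obtain ⟨hal2, hk, hXD, hx0, hx1, hnu, hjk, hb, hA0, hB0, -⟩ := p3_par hδ hω ej hal ea ha es ex
  have hj0 : 0 < j0 := ej ▸ (jj_bd hδ).1
  have hsq : (2 * √(2 * ω0 * (1 - 2 * j0))) ^ 2 = 8 * ω0 * (1 - 2 * j0) := by
    rw [mul_pow, Real.sq_sqrt (mul_nonneg (by linarith only [hω]) (by linarith only [hk]))]; ring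
  obtain ⟨XD, eXD⟩ : ∃ XD, XD = 2 * √(2 * ω0 * (1 - 2 * j0)) := ⟨_, rfl⟩
  obtain ⟨κ, eκ⟩ : ∃ κ, κ = 1 - 2 * j0 := ⟨_, rfl⟩
  rw [← eXD] at hXD hb hsq ex
  rw [← eκ] at hk hjk hb hB0 hsq
  have hk1 : κ ≤ 1 := by linarith
  have hk0 : 0 < κ := by linarith
  have hX0 : 0 < XD := by linarith
  have hω0 : 0 < ω0 := by linarith
  have ha0 : 0 < al ^ 2 := by positivity
  have hs5 : 5 ≤ s1 := by linarith
  have hs10 : s1 ≤ 10 := by linarith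
  have hs00 : 0 < s1 := by linarith
  obtain ⟨D, hD⟩ : ∃ D : ℂ,
      D = (-(2 * κ * al * χ) : ℝ) * τ + ((4 * κ ^ 2 - κ) * χ ^ 2 : ℝ) * τ ^ 2 := ⟨_, rfl⟩
  obtain ⟨nD, nN⟩ := wp3a_DN hk hk1 hal hal2 hχ0 hχ1 hs0 hs1 hτ hD
  obtain ⟨r, er⟩ : ∃ r : ℝ, r = j0 / al ^ 2 := ⟨_, rfl⟩
  obtain ⟨t, et⟩ : ∃ t : ℝ, t = 4 / XD := ⟨_, rfl⟩
  obtain ⟨g, eg⟩ : ∃ g : ℝ, g = 2 * r / κ := ⟨_, rfl⟩
  have hr0 : 0 < r := er ▸ div_pos hj0 ha0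
  have ht0 : 0 < t := et ▸ div_pos (by norm_num) hX0
  have hg0 : 0 < g := eg ▸ div_pos (by linarith) hk0
  have ht1 : t ≤ 40 / 999 := by
    rw [et, div_le_iff₀ hX0]; linarith
  have hg1 : g ≤ 13 / 100000 := by
    have e1 : g = 2 * j0 / (κ * (s1 * al ^ 2)) * s1 := by
      rw [eg, er]; field_simp
    rw [e1]
    have := mul_le_mul hjk hs10 hs00.le (by norm_num)
    linarith
  have egk : κ * g = 2 * r := by rw [eg]; field_simp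
  have erj : r * al ^ 2 = j0 := by rw [er]; field_simp
  have hr1 : r ≤ 13 / 200000 := by
    linarith only [egk, hg1, mul_le_mul_of_nonneg_right hk1 hg0.le]
  have ert : ω0 * r = κ * t := by
    rw [div_eq_div_iff hk0.ne' hX0.ne'] at hb
    rw [er, et]; field_simp; linarith
  have ext : x1 = s1 * t / 4 := by rw [ex, et]; field_simp
  have ett : ω0 * κ * t ^ 2 = 2 := by
    rw [et, div_pow, hsq]; field_simp; norm_num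
  have eA : 2 * ω0 ^ 2 * r * x1 = s1 := by
    rw [er]; field_simp; linarith
  -- complex quantities
  obtain ⟨u, eu⟩ : ∃ u : ℂ, u = sg * τ := ⟨_, rfl⟩
  obtain ⟨e, ee⟩ : ∃ e : ℂ, e = g * D := ⟨_, rfl⟩
  have nu : ‖u‖ ≤ 3 / 20 := by
    rw [eu, norm_mul, Complex.norm_real, Real.norm_eq_abs, abs_of_nonneg hs0]
    have := mul_le_mul hs1 hτ (norm_nonneg _) (by norm_num)
    linarith
  have ne : ‖e‖ ≤ 13 / 100000 := by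
    rw [ee, norm_mul, Complex.norm_real, Real.norm_eq_abs, abs_of_nonneg hg0.le]
    have := mul_le_mul hg1 (show ‖D‖ ≤ 1 by linarith) (norm_nonneg _) (by norm_num)
    linarith
  have eΩ : lΩ ω0 sg τ = ω0 * (1 + u) := by rw [eu]; rfl
  have hal' : (al : ℂ) ≠ 0 := by exact_mod_cast hal.ne'
  have eJ : cJ j0 (χ / al) τ = r * ((al ^ 2 : ℝ) + D) := by
    rw [hD, er, eκ, cJ]; push_cast; field_simp; ring
  have eK : 1 - 2 * cJ j0 (χ / al) τ = κ * (1 - e) := by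
    have c1 : (κ : ℂ) * g = 2 * r := by exact_mod_cast egk
    have c2 : (r : ℂ) * al ^ 2 = j0 := by exact_mod_cast erj
    have c3 : (κ : ℂ) = 1 - 2 * j0 := by exact_mod_cast eκ
    rw [eJ, ee]; push_cast
    linear_combination D * c1 - 2 * c2 - c3
  rw [← eu] at nN
  have nR := wp3a_rho hal hal2 ha nN ne
  obtain ⟨⟨u0, u1⟩, -⟩ := wp3a_one nu
  obtain ⟨-, e0, e1⟩ := wp3a_one ne
  have e2 : 1 - e ≠ 0 := norm_pos_iff.1 (by linarith)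
  have nA : ‖((al ^ 2 : ℝ) : ℂ) + D‖ ≤ al ^ 2 + al / 2 + 3 / 16 := by
    have := norm_add_le ((al ^ 2 : ℝ) : ℂ) D
    rw [Complex.norm_real, Real.norm_eq_abs, abs_of_nonneg ha0.le] at this
    linarith
  have nA2 : s1 * ‖((al ^ 2 : ℝ) : ℂ) + D‖ ≤ 444 / 25 := by
    refine (mul_le_mul_of_nonneg_left nA hs00.le).trans ?_
    rw [es]
    linarith only [hal2, mul_nonneg (sq_nonneg (al - 3 / 2))
      (show 0 ≤ 2 * al ^ 2 + 7 * al + 55 / 8 by positivity)]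
  have nΩ : ‖lΩ ω0 sg τ‖ = ω0 * ‖1 + u‖ := by
    rw [eΩ, norm_mul, Complex.norm_real, Real.norm_eq_abs, abs_of_pos hω0]
  have nJ : ‖cJ j0 (χ / al) τ‖ = r * ‖((al ^ 2 : ℝ) : ℂ) + D‖ := by
    rw [eJ, norm_mul, Complex.norm_real, Real.norm_eq_abs, abs_of_pos hr0]
  have nK : ‖1 - 2 * cJ j0 (χ / al) τ‖ = κ * ‖1 - e‖ := by
    rw [eK, norm_mul, Complex.norm_real, Real.norm_eq_abs, abs_of_pos hk0]
  have nx : ‖(x1 : ℂ)‖ = x1 := by rw [Complex.norm_real, Real.norm_eq_abs, abs_of_pos hx0]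
  have n2 : ‖(2 : ℂ)‖ = 2 := by simp
  have nA0 := norm_nonneg (((al ^ 2 : ℝ) : ℂ) + D)
  refine ⟨?_, ?_, ?_, ?_, ?_⟩
  · obtain ⟨c, ec⟩ : ∃ c : ℝ, c = 5 / 2 + al ^ 2 / 2 := ⟨_, rfl⟩
    have hc0 : 0 < c := by linarith
    obtain ⟨R, eR⟩ : ∃ R : ℂ, R = ((al ^ 2 : ℝ) + D) * (1 + u) / (1 - e) - (al ^ 2 : ℝ) :=
      ⟨_, rfl⟩
    rw [← eR] at nR
    have hc' : (c : ℂ) ≠ 0 := by exact_mod_cast hc0.ne'
    have nRc : ‖R / c‖ = ‖R‖ / c := by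
      rw [norm_div, Complex.norm_real, Real.norm_eq_abs, abs_of_pos hc0]
    have nR1 : ‖R / c‖ ≤ 27 / 100 := by
      rw [nRc, div_le_iff₀ hc0, ec]
      linarith only [nR, hal2,
        mul_nonneg (sub_nonneg.2 hal2) (show 0 ≤ 2 - al by linarith only [hal2])]
    obtain ⟨w, ew⟩ : ∃ w : ℝ, w = 1 / 2 * al ^ 2 - 1 / 2 * al + 57 / 25 := ⟨_, rfl⟩
    have hw0 : 0 < w := by linarith only [ew, sq_nonneg (al - 1 / 2)]
    have ev : p3v al = (23 / 25 * w)⁻¹ := by rw [ew]; rfl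
    have hv0 : 0 < p3v al := by rw [ev]; positivity
    have nρ : w ≤ ‖1 + R / c‖ * c := by
      have h1 := (wp3a_one (le_refl ‖R / c‖)).1.1
      have h2 := mul_le_mul_of_nonneg_right h1 hc0.le
      rw [nRc, sub_mul, div_mul_cancel₀ _ hc0.ne'] at h2
      linarith
    have eB : x1 = (1 - (1 - B)) * (c * t) := by
      rw [hB, ext, ec]
      have : al ^ 2 = (10 - s1) / 2 := by linarith
      rw [this]
      have h20 : 20 - s1 ≠ 0 := by linarith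
      have h21 : s1 * ((10 - s1) / 2) + 1 / 4 * s1 ^ 2 = s1 * (20 - s1) / 4 := by ring
      rw [h21]
      field_simp
      ring
    have key := err2 (φ1 := φ1) (x1 := x1) (p0 := c * t) (A0 := 1 - B) (jl := 3 / 10000)
      (μρ := 27 / 100) (μω := 3 / 20) (v := p3v al) (ωl := 1062) (κ0 := 211 / 500)
      (γ := 49 / 50) (bb := p3b al B) (ν := 9 / 1000) (ω := lΩ ω0 sg τ)
      (j := cJ j0 (χ / al) τ) (ρ := 1 + R / c) h0 h1 hφ (mul_pos hc0 ht0)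
      (by rw [ext, ec, es]; linarith only [mul_pos ha0 ht0])
      (by rw [ext, ec, es]; linarith only [mul_le_mul ha ht1 ht0.le (by norm_num)])
      eB
      (by
        rw [nJ]
        have := mul_le_mul hr1 (show ‖((al ^ 2 : ℝ) : ℂ) + D‖ ≤ 4 by linarith) nA0 (by norm_num)
        linarith)
      (by norm_num)
      (by
        have c1 : (ω0 : ℂ) * r = κ * t := by exact_mod_cast ert
        have c2 : (x1 : ℂ) = (c - (al ^ 2 : ℝ)) * t := by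
          have : x1 = (c - al ^ 2) * t := by rw [ext, ec, es]; ring
          exact_mod_cast this
        have c3 : (1 - e) * (R + (al ^ 2 : ℝ)) = ((al ^ 2 : ℝ) + D) * (1 + u) := by
          rw [eR]; field_simp; ring
        have c4 : (c : ℂ) * (1 + R / c) = c + R := by field_simp
        rw [eK, eJ, eΩ, c2, Complex.ofReal_mul]
        linear_combination (1 + u) * (((al ^ 2 : ℝ) : ℂ) + D) * c1 - κ * t * c3 -
          κ * (1 - e) * t * c4)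
      (by rw [add_sub_cancel_left]; exact nR1) (by norm_num)
      (sa_one_add (by linarith) (by norm_num)) (Or.inr le_rfl)
      (by rw [eΩ]; exact (sa_one_add nu (by norm_num)).pos_mul hω0) (by norm_num) le_rfl hv0
      (by
        rw [norm_mul, norm_mul, norm_pow, nΩ, nK, ev]
        have h1 : w ^ 2 ≤ (‖1 + R / c‖ * c) ^ 2 := pow_le_pow_left₀ hw0.le nρ 2
        have h2 : (1 - 3 / 20) * (1 - 13 / 100000) ≤ ‖1 + u‖ * ‖1 - e‖ :=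
          mul_le_mul u0 e0 (by norm_num) (norm_nonneg _)
        have h3 := mul_le_mul h2 h1 (sq_nonneg _) (by positivity)
        have h4 : ω0 * ‖1 + u‖ * (κ * ‖1 - e‖) * ‖1 + R / c‖ ^ 2 * (c * t) ^ 2 =
            2 * (‖1 + u‖ * ‖1 - e‖ * (‖1 + R / c‖ * c) ^ 2) := by
          linear_combination (‖1 + u‖ * ‖1 - e‖ * (‖1 + R / c‖ * c) ^ 2) * ett
        rw [h4, inv_pow, inv_mul_eq_div, le_div_iff₀ (by positivity)]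
        linarith only [h3, sq_nonneg w])
      (by norm_num)
      (by
        rw [nΩ]
        have := mul_le_mul hω u0 (by norm_num) hω0.le
        linarith)
      (by norm_num)
      (by
        rw [sub_sub_cancel, p3b]
        norm_num
        linarith)
      (by norm_num) wp3a_nu
    rw [sub_sub_cancel] at key
    exact key
  · rw [norm_mul, norm_mul, norm_mul, norm_pow, n2, nΩ, nJ, nx]
    have h1 : ‖1 + u‖ ^ 2 ≤ (1 + 3 / 20) ^ 2 := pow_le_pow_left₀ (norm_nonneg _) u1 2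
    have h2 := mul_le_mul nA2 h1 (sq_nonneg _) (by norm_num)
    have h3 : 2 * (ω0 * ‖1 + u‖) ^ 2 * (r * ‖((al ^ 2 : ℝ) : ℂ) + D‖) * x1 =
        s1 * ‖((al ^ 2 : ℝ) : ℂ) + D‖ * ‖1 + u‖ ^ 2 := by
      linear_combination (‖((al ^ 2 : ℝ) : ℂ) + D‖ * ‖1 + u‖ ^ 2) * eA
    rw [h3]
    linarith
  · rw [norm_mul, norm_mul, norm_mul, norm_pow, n2, nΩ, nK, nx]
    have h1 := mul_le_mul u1 e1 (norm_nonneg _) (by norm_num)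
    have h2 : 1 / 4 * s1 ^ 2 ≤ 25 := by linarith only [pow_le_pow_left₀ hs00.le hs10 2]
    have h3 := mul_le_mul h2 h1 (by positivity) (by norm_num)
    have h4 : 2 * (ω0 * ‖1 + u‖) * (κ * ‖1 - e‖) * x1 ^ 2 =
        1 / 4 * s1 ^ 2 * (‖1 + u‖ * ‖1 - e‖) := by
      linear_combination (‖1 + u‖ * ‖1 - e‖) * hB0
    rw [h4]
    linarith
  · rw [norm_mul, norm_pow, nK, nx]
    have h1 := mul_le_mul hk1 e1 (norm_nonneg _) (by norm_num)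
    have h2 : x1 ^ 2 ≤ (1002 / 10000) ^ 2 := pow_le_pow_left₀ hx0.le hx1 2
    have h3 := mul_le_mul h1 h2 (sq_nonneg _) (by norm_num)
    linarith
  · rw [norm_mul, norm_mul, n2, nJ, nx]
    have h2 := mul_le_mul hnu nA2 (by positivity) (by norm_num)
    have h3 : 2 * (r * ‖((al ^ 2 : ℝ) : ℂ) + D‖) * x1 =
        1 / ω0 ^ 2 * (s1 * ‖((al ^ 2 : ℝ) : ℂ) + D‖) := by
      rw [← eA]; field_simp
    rw [h3]
    linarith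

end Pool.Agent.HillD
end

-- part Pool.Agent.P.MP_ae2765_an.WP3b
section

/-! Third region: the numerical criterion. -/

namespace Pool.Agent.HillD
open Real Set Filter Topology Asymptotics Pool.Agent.HillD.Num Pool.Agent.P.MP_4c4e6e_co.Eng

theorem p3_num {t0 t1 t2 t3 t4 t5 m0 m1 m2 m3 m4 m5 y0 y1 y2 y3 y4 y5 h0 h1 h2 h3 h4 h5 : ℝ}
    {al a s1 ka χ : ℝ} {tl : List ℝ} (D : P3D) (ea : a = al ^ 2) (es : s1 = 10 - 2 * a)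
    (k0 : 4999 / 5000 ≤ ka) (k1 : ka ≤ 1) (e1 : D.d1 = -(2 * (s1 * ka * al * χ)))
    (e2 : D.d2 = s1 * (4 * ka ^ 2 - ka) * χ ^ 2)
    (hc : (χ = 1 ∧ 0 ≤ D.sg ∧ pPA.holds (D.sg :: t0 :: t1 :: t2 :: t3 :: t4 :: t5 :: m0 :: m1 :: m2 ::
        m3 :: m4 :: m5 :: y0 :: y1 :: y2 :: y3 :: y4 :: y5 :: h0 :: h1 :: h2 :: h3 :: h4 :: h5 ::
        D.A0 :: D.B0 :: D.Z :: D.nu :: D.jk :: al :: a :: s1 :: tl)) ∨
      (D.sg = 3 / 5 ∧ pPB.holds (χ :: t0 :: t1 :: t2 :: t3 :: t4 :: t5 :: m0 :: m1 :: m2 ::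
        m3 :: m4 :: m5 :: y0 :: y1 :: y2 :: y3 :: y4 :: y5 :: h0 :: h1 :: h2 :: h3 :: h4 :: h5 ::
        D.A0 :: D.B0 :: D.Z :: D.nu :: D.jk :: al :: a :: s1 :: tl)))
    (Y0 : |D.Y.1 - y0| ≤ 3 / 50000) (Y1 : |D.Y.2.1 - (y1 * D.d1 + y2 * D.sg)| ≤ 4 * (3 / 50000))
    (Y2 : |D.Y.2.2 - (y1 * D.d2 + y3 * D.d1 ^ 2 + y4 * (D.d1 * D.sg) + y5 * D.sg ^ 2)| ≤
      16 * (3 / 50000))
    (H0 : |D.H.1 - h0| ≤ 1 / 500) (H1 : |D.H.2.1 - (h1 * D.d1 + h2 * D.sg)| ≤ 4 * (1 / 500))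
    (H2 : |D.H.2.2 - (h1 * D.d2 + h3 * D.d1 ^ 2 + h4 * (D.d1 * D.sg) + h5 * D.sg ^ 2)| ≤
      16 * (1 / 500)) :
    0 < nrm0 D.Mr D.Mi ∧ p3b al D.AA.1 < 9 / 100 ∧
      ∀ G1 G2 x1 x2 dl : ℝ, 0 ≤ dl → dl ≤ 2 →
        |x1| ≤ 4 * (p3N al D.AA.1 / (2 * (49 / 50) ^ 2) + p3T al D.AA.1) +
          eA1 (p3b al D.AA.1) (l1i D.Mr D.Mi) →
        |x2| ≤ 16 * (p3N al D.AA.1 / (2 * (49 / 50) ^ 2) + p3T al D.AA.1) +
          eA2 (p3b al D.AA.1) (l1i D.Mr D.Mi) →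
        (0 < D.sg - χ * p3rho al → 32967 / 1000 * (D.sg - χ * p3rho al) ≤ 2 * G1) →
        (χ = 1 → 0 < p3cc (D.sg * al) D.AA.1 →
          p3cc (D.sg * al) D.AA.1 * pade (p3y al) - D.sg / 2 * G1 ≤ 2 * G2) →
        G1 + (l1i D.Mr D.Mi + 1 / 4 * D.Tb.2.1) + x1 = 0 →
        G2 + (l2i D.Mr D.Mi * (1 + 11 / 10 * ((dl - 1) * p3b al D.AA.1)) + 1 / 4 * D.Tb.2.2) + x2 ≠
          0 := by
  have hb : p3b al D.AA.1 = 50 / 49 * (1 / 16 * (p3v al ^ 2 * (16 / 5 + 5 / 2 *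
      (D.AA.1 ^ 2 * D.AA.1))) + 1 / 1250) := by unfold p3b; ring
  have hn : p3N al D.AA.1 / (2 * (49 / 50) ^ 2) = 1250 / 2401 * (√(31 / 2500 * (p3v al ^ 2 * p3v al *
      (33 / 2 + 23 * (D.AA.1 ^ 2 * D.AA.1)))) + 9 / 1000) ^ 2 := by
    unfold p3N
    rw [show p3v al ^ 2 * p3v al = p3v al ^ 3 by ring, show D.AA.1 ^ 2 * D.AA.1 = D.AA.1 ^ 3 by ring]
    ring
  have hv : p3v al = (23 / 25 * (1 / 2 * a - 1 / 2 * al + 57 / 25))⁻¹ := by rw [ea]; rfl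
  have hr : p3rho al = 1001 / 2500 * (√(1 + 40 / 999 * a) + 1001 / 5000 * al)⁻¹ := by rw [ea]; rfl
  obtain ⟨Y0a, Y0b⟩ := abs_le.1 Y0
  obtain ⟨Y1a, Y1b⟩ := abs_le.1 Y1
  obtain ⟨Y2a, Y2b⟩ := abs_le.1 Y2
  obtain ⟨H0a, H0b⟩ := abs_le.1 H0
  obtain ⟨H1a, H1b⟩ := abs_le.1 H1
  obtain ⟨H2a, H2b⟩ := abs_le.1 H2
  rcases hc with ⟨hχ, hsg, hc⟩ | ⟨hsg, hc⟩
  · subst hχ
    have H := pPA_real hc ka k0 (by linarith) D.sg rfl D.d1 (by rw [e1]; ring) D.d2 (by rw [e2]; ring)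
      _ rfl _ rfl _ rfl
      ((D.Y.1 - y0) * (50000 / 3) + 1) (by linarith) (by linarith)
      ((D.Y.2.1 - (y1 * D.d1 + y2 * D.sg)) * (12500 / 3) + 1) (by linarith) (by linarith)
      ((D.Y.2.2 - (y1 * D.d2 + y3 * D.d1 ^ 2 + y4 * (D.d1 * D.sg) + y5 * D.sg ^ 2)) * (3125 / 3) + 1)
      (by linarith) (by linarith)
      D.Y.1 (by ring) D.Y.2.1 (by ring) D.Y.2.2 (by ring)
      ((D.H.1 - h0) * 500 + 1) (by linarith) (by linarith)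
      ((D.H.2.1 - (h1 * D.d1 + h2 * D.sg)) * 125 + 1) (by linarith) (by linarith)
      ((D.H.2.2 - (h1 * D.d2 + h3 * D.d1 ^ 2 + h4 * (D.d1 * D.sg) + h5 * D.sg ^ 2)) * (125 / 4) + 1)
      (by linarith) (by linarith)
      D.H.1 (by ring) D.H.2.1 (by ring) D.H.2.2 (by ring)
      D.Bj.2.1 rfl D.Sj.1 rfl D.Sj.2.1 rfl D.dn.1 rfl D.dn.2.1 rfl D.Bj.2.2 rfl D.Sj.2.2 rfl
      D.dn.2.2 rfl (jinv D.Sj).1 rfl (jinv D.Sj).2.1 rfl (jinv D.Sj).2.2 rfl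
      D.AA.1 rfl D.AA.2.1 rfl D.AA.2.2 rfl
      (jinv D.dn).1 rfl (jinv D.dn).2.1 rfl (jinv D.dn).2.2 rfl
      (jmul D.Sj (jinv D.dn)).1 rfl (jmul D.Sj (jinv D.dn)).2.1 rfl (jmul D.Sj (jinv D.dn)).2.2 rfl
      D.rj.1 rfl (jinv D.rj).1 rfl D.rj.2.1 rfl D.rj.2.2 rfl
      D.Mi.1 rfl D.Mi.2.1 rfl D.Mi.2.2 rfl
      (jmul D.AA D.Y).1 rfl (jmul D.AA D.Y).2.1 rfl (jmul D.AA D.Y).2.2 rfl
      D.Mr.1 rfl D.Mr.2.1 rfl D.Mr.2.2 rfl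
      (nrm0 D.Mr D.Mi) rfl _ rfl (l1i D.Mr D.Mi) rfl _ rfl (l2i D.Mr D.Mi) rfl
      (jinv D.rj).2.1 rfl (jinv D.rj).2.2 rfl D.Tb.1 rfl D.Tb.2.1 rfl D.Tb.2.2 rfl
      (p3v al) hv _ rfl (p3b al D.AA.1) hb _ hn
      (p3N al D.AA.1 / (2 * (49 / 50) ^ 2) + p3T al D.AA.1) rfl _ rfl
      (4 * (p3N al D.AA.1 / (2 * (49 / 50) ^ 2) + p3T al D.AA.1) +
        eA1 (p3b al D.AA.1) (l1i D.Mr D.Mi)) (by unfold eA1; ring) _ rfl (p3rho al) hr _ rfl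
    obtain ⟨c1, c2, c3⟩ := H
    refine ⟨c1, by linarith, fun G1 G2 x1 x2 dl d0 d2 hx1 hx2 g1 g2 g3 g4 => ?_⟩
    obtain ⟨a1, a2⟩ := abs_le.1 hx1
    obtain ⟨b1, b2⟩ := abs_le.1 hx2
    rcases c3 with ⟨c3, c4⟩ | c3
    · have := g1 (by linarith)
      linarith
    · obtain ⟨c4, c5⟩ := c3 dl d0 d2
        (16 * (p3N al D.AA.1 / (2 * (49 / 50) ^ 2) + p3T al D.AA.1) +
          eA2 (p3b al D.AA.1) (l1i D.Mr D.Mi)) (by unfold eA2; ring) _ rfl _ rfl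
        (p3y al) (by rw [es, ea]; rfl) (pade (p3y al)) rfl (p3cc (D.sg * al) D.AA.1) rfl
      have h6 := g2 rfl c4
      have h7 : G1 ≤ -(l1i D.Mr D.Mi + 1 / 4 * D.Tb.2.1 -
          (4 * (p3N al D.AA.1 / (2 * (49 / 50) ^ 2) + p3T al D.AA.1) +
            eA1 (p3b al D.AA.1) (l1i D.Mr D.Mi))) := by linarith
      have h8 := mul_le_mul_of_nonneg_left h7 hsg
      linarith
  · have H := pPB_real hc ka k0 (by linarith) D.sg hsg D.d1 e1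
      ((D.Y.1 - y0) * (50000 / 3) + 1) (by linarith) (by linarith)
      ((D.Y.2.1 - (y1 * D.d1 + y2 * D.sg)) * (12500 / 3) + 1) (by linarith) (by linarith)
      D.Y.1 (by ring) D.Y.2.1 (by ring)
      ((D.H.1 - h0) * 500 + 1) (by linarith) (by linarith)
      ((D.H.2.1 - (h1 * D.d1 + h2 * D.sg)) * 125 + 1) (by linarith) (by linarith)
      D.H.1 (by ring) D.H.2.1 (by ring)
      D.Bj.2.1 rfl D.Sj.1 rfl D.Sj.2.1 rfl D.dn.1 rfl D.dn.2.1 rfl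
      (jinv D.Sj).1 rfl (jinv D.Sj).2.1 rfl D.AA.1 rfl D.AA.2.1 rfl
      (jinv D.dn).1 rfl (jinv D.dn).2.1 rfl
      (jmul D.Sj (jinv D.dn)).1 rfl (jmul D.Sj (jinv D.dn)).2.1 rfl
      D.rj.1 rfl (jinv D.rj).1 rfl D.rj.2.1 rfl D.Mi.1 rfl D.Mi.2.1 rfl
      (jmul D.AA D.Y).1 rfl (jmul D.AA D.Y).2.1 rfl D.Mr.1 rfl D.Mr.2.1 rfl
      (nrm0 D.Mr D.Mi) rfl _ rfl (l1i D.Mr D.Mi) rfl
      (jinv D.rj).2.1 rfl D.Tb.1 rfl D.Tb.2.1 rfl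
      (p3v al) hv _ rfl (p3b al D.AA.1) hb _ hn
      (p3N al D.AA.1 / (2 * (49 / 50) ^ 2) + p3T al D.AA.1) rfl _ rfl
      (4 * (p3N al D.AA.1 / (2 * (49 / 50) ^ 2) + p3T al D.AA.1) +
        eA1 (p3b al D.AA.1) (l1i D.Mr D.Mi)) (by unfold eA1; ring) _ rfl (p3rho al) hr _ rfl
    obtain ⟨c1, c2, c3, c4⟩ := H
    refine ⟨c1, by linarith, fun G1 G2 x1 x2 dl d0 d2 hx1 hx2 g1 g2 g3 g4 => ?_⟩
    obtain ⟨a1, a2⟩ := abs_le.1 hx1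
    have := g1 c3
    linarith

end Pool.Agent.HillD
end
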