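import Pool.Agent.K.MP_ae2765_an.C17
import Pool.Agent.K.MP_ae2765_an.C6
import Pool.Agent.K.MP_ae2765_an.C15
import Pool.Agent.K.MP_ae2765_an.C12

-- part Pool.Agent.P.MP_ae2765_an.WP3c
section

/-! Third region: the main term. -/

namespace Pool.Agent.HillD
open Real Set Filter Topology Asymptotics

theorem wp3c_rho {al η : ℝ} (hal : 0 < al) (h0 : 0 ≤ η) (h1 : η ^ 2 ≤ 10 / 999) :
    2 * (2 * al * η) ≤ al * p3rho al * (√(1 + (2 * al * η) ^ 2) + 2 * al * η) := by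
  have h2 : η ≤ 1001 / 10000 := by nlinarith
  have h3 : η * √(1 + 40 / 999 * al ^ 2) ≤ 1001 / 10000 * √(1 + (2 * al * η) ^ 2) := by
    refine (pow_le_pow_iff_left₀ (by positivity) (by positivity) two_ne_zero).1 ?_
    rw [mul_pow, mul_pow, Real.sq_sqrt (by positivity), Real.sq_sqrt (by positivity)]
    nlinarith [mul_nonneg (sq_nonneg al) (sq_nonneg η)]
  have h4 : 0 < √(1 + 40 / 999 * al ^ 2) + 1001 / 5000 * al := by positivity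
  unfold p3rho
  rw [show al * (1001 / 2500 * (√(1 + 40 / 999 * al ^ 2) + 1001 / 5000 * al)⁻¹) *
      (√(1 + (2 * al * η) ^ 2) + 2 * al * η) = al * (1001 / 2500 *
      (√(1 + (2 * al * η) ^ 2) + 2 * al * η)) / (√(1 + 40 / 999 * al ^ 2) + 1001 / 5000 * al) by
    rw [div_eq_mul_inv]; ring, le_div_iff₀ h4]
  nlinarith [mul_le_mul_of_nonneg_left h3 hal.le]

theorem wp3c_first {M O r β s A F c : ℝ} (hr : 1 ≤ r) (hβ : 0 ≤ β) (hO : O * r ≤ β * M)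
    (hA : 2 * β ≤ A * (r + β)) (hs : s ≤ 1) (hsA : 0 < s - A) (hc0 : 0 ≤ c) (hc : c ≤ M)
    (hF : s / 2 * (M + O) - O ≤ F) : c * (s - A) ≤ 2 * F := by
  have hM : 0 ≤ M := hc0.trans hc
  have h1 : (2 - s) * (O * r) ≤ (2 - s) * (β * M) := mul_le_mul_of_nonneg_left hO (by linarith)
  have h2 : M * (2 * β) ≤ M * (A * (r + β)) := mul_le_mul_of_nonneg_left hA hM
  have h3 : 0 ≤ M * β * (s - A) := by positivity
  have h4 : r * (M * (s - A)) ≤ r * (s * M - (2 - s) * O) := by nlinarith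
  have h5 := le_of_mul_le_mul_left h4 (by linarith)
  nlinarith [mul_le_mul_of_nonneg_right hc hsA.le]

theorem p3_main {δ0 ω0 j0 al s1 x1 χ sg s φ1 B : ℝ}
    (hδ : 0 < δ0) (hω : 1250 ≤ ω0) (ej : j0 = jj δ0) (hal : 0 < al) (ea : al ^ 2 = aa ω0 j0)
    (ha : al ^ 2 ≤ 5 / 2) (es : s1 = 10 - 2 * al ^ 2)
    (ex : x1 = s1 / (2 * √(2 * ω0 * (1 - 2 * j0))))
    (hχ0 : 0 ≤ χ) (hs0 : 0 ≤ s) (hs1 : s ≤ 1) (hsg : sg = s * (χ / al)) (h0 : 0 ≤ φ1)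
    (h1 : φ1 ≤ π / 2) (hφ : cos φ1 ^ 2 = x1)
    (hB : B = 1 / 4 * s1 ^ 2 * (s1 * al ^ 2 + 1 / 4 * s1 ^ 2)⁻¹) :
    (0 < sg - χ * p3rho al →
        32967 / 1000 * (sg - χ * p3rho al) ≤ 2 * (χ / al * F1 φ1 ω0 j0 s)) ∧
      (χ = 1 → 0 < p3cc (sg * al) B → p3cc (sg * al) B * pade (p3y al) -
        sg / 2 * (χ / al * F1 φ1 ω0 j0 s) ≤ 2 * ((χ / al) ^ 2 * F2 φ1 ω0 j0 s)) := by
  obtain ⟨-, hκ, hX, hx0, hx1, -, -, hb, -⟩ := p3_par hδ hω ej hal ea ha es ex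
  obtain ⟨hj, hj2⟩ := jj_bd hδ
  rw [← ej] at hj hj2
  have hω0 : 0 < ω0 := by linarith
  have hκ0 : 0 < 1 - 2 * j0 := by linarith
  generalize 2 * √(2 * ω0 * (1 - 2 * j0)) = XD at hX hb ex
  have hX0 : 0 < XD := by linarith
  obtain ⟨η, hη0, hη⟩ : ∃ η : ℝ, 0 ≤ η ∧ η ^ 2 = XD⁻¹ :=
    ⟨√XD⁻¹, Real.sqrt_nonneg _, Real.sq_sqrt (by positivity)⟩
  have hη1 : η ^ 2 ≤ 10 / 999 := by
    rw [hη, inv_le_comm₀ hX0 (by norm_num)]
    linarith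
  have hη2 : η ≤ 1001 / 10000 :=
    (pow_le_pow_iff_left₀ hη0 (by norm_num) two_ne_zero).1 (hη1.trans (by norm_num))
  have hβ : (2 * al * η) ^ 2 = ω0 * j0 / (1 - 2 * j0) := by
    rw [hb, mul_pow, hη, div_eq_mul_inv]; ring
  have hx : x1 = s1 * η ^ 2 := by rw [ex, hη, div_eq_mul_inv]
  have hwj : ω0 * j0 = (1 - 2 * j0) * (4 * al ^ 2 * η ^ 2) := by
    have := (div_eq_iff hκ0.ne').1 hβ.symm
    rw [this]; ring
  have ht : ω0 * j0 ≤ 1 := by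
    have h2 : 4 * al ^ 2 * η ^ 2 ≤ 1 := by
      linarith [mul_le_mul ha hη1 (sq_nonneg η) (by norm_num)]
    rw [hwj]
    exact mul_le_one₀ (by linarith) (by positivity) h2
  obtain ⟨hO0, hF1, hF2⟩ := O_F hω0 hj hj2 ht h0 h1 hs0 hs1
  constructor
  · intro hpos
    have e1 : sg - χ * p3rho al = χ / al * (s - al * p3rho al) := by
      rw [hsg]; field_simp
    rw [e1] at hpos ⊢
    have hq : 0 ≤ χ / al := by positivity
    have hsA : 0 < s - al * p3rho al := pos_of_mul_pos_left (by rwa [mul_comm] at hpos) hq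
    have hM : 32967 / 1000 ≤ Mn φ1 ω0 j0 := by
      refine le_trans ?_ (O_low0 hω0 hj hj2 h0 h1)
      have a1 : 353 / 10 ≤ √(ω0 * (1 - 2 * j0)) := Real.le_sqrt_of_sq_le (by
        linarith [mul_le_mul hω hκ (by norm_num) hω0.le])
      have a2 : 9485 / 10000 ≤ sin φ1 := by
        refine (pow_le_pow_iff_left₀ (by norm_num)
          (sin_nonneg_of_nonneg_of_le_pi h0 (by linarith [pi_pos])) two_ne_zero).1 ?_
        linarith [sin_sq_add_cos_sq φ1]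
      linarith [mul_le_mul a1 a2 (by norm_num) (Real.sqrt_nonneg _)]
    have := wp3c_first (Real.one_le_sqrt.2 (le_add_of_nonneg_right (sq_nonneg (2 * al * η))))
      (by positivity) (O_ratio hω0 hj hj2 ht h0 h1 (by positivity) hβ) (wp3c_rho hal hη0 hη1) hs1
      hsA (by norm_num) hM hF1
    linarith [mul_le_mul_of_nonneg_left this hq]
  · rintro rfl hcc
    have e1 : sg * al = s := by rw [hsg]; field_simp
    rw [e1] at hcc ⊢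
    have hs10 : 0 < s1 := by rw [es]; linarith
    have hη3 : 0 < η ^ 2 := by rw [hη]; positivity
    have hη4 : η ≠ 0 := fun h => by rw [h] at hη3; norm_num at hη3
    have hw : ω0 * j0 / Pr ω0 j0 φ1 = 1 - B := by
      unfold Pr
      rw [hφ, hx, hwj, hB]
      field_simp
      ring
    have hcos : 0 ≤ cos φ1 := cos_nonneg_of_mem_Icc ⟨by linarith [pi_pos], h1⟩
    have a1 : √s1 ≤ 4 := Real.sqrt_le_iff.2 ⟨by norm_num, by linarith [sq_nonneg al]⟩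
    have a2 : √(s1 + 4 * al ^ 2) ≤ 4 := Real.sqrt_le_iff.2 ⟨by norm_num, by linarith⟩
    have a3 : cos φ1 = η * √s1 := by
      refine (pow_left_inj₀ hcos (by positivity) two_ne_zero).1 ?_
      rw [hφ, hx, mul_pow, Real.sq_sqrt hs10.le, mul_comm]
    have a4 : √(cos φ1 ^ 2 + ω0 * j0 / (1 - 2 * j0)) = η * √(s1 + 4 * al ^ 2) := by
      rw [Real.sqrt_eq_iff_mul_self_eq (by positivity) (by positivity), ← sq, mul_pow,
        Real.sq_sqrt (by positivity), hφ, hx, ← hβ]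
      ring
    have hy : p3y al = 1001 / 20000 * (√s1 + √(s1 + 4 * al ^ 2)) := by rw [es]; rfl
    have a5 : 1 ≤ √(1 + ω0 * j0 / (1 - 2 * j0)) :=
      Real.one_le_sqrt.2 (le_add_of_nonneg_right (by positivity))
    have a6 : 0 ≤ √s1 + √(s1 + 4 * al ^ 2) := by positivity
    have hO := O_low1 (y := p3y al) hω0 hj hj2 h0 h1 rfl (by rw [hy]; linarith) (by
      rw [a4, a3, hy]
      linarith [mul_le_mul_of_nonneg_right hη2 a6, mul_le_mul_of_nonneg_left a5 a6])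
    rw [← ea] at hO
    have a7 : 10 / ω0 ≤ 8 / 1000 := by
      rw [div_le_iff₀ hω0]; linarith
    have a8 : p3cc s B ≤ 3 - 7 / 2 * s + 3 / 4 * s ^ 2 -
        (2 - s) ^ 2 / 4 * (ω0 * j0 / Pr ω0 j0 φ1) - 10 / ω0 := by
      rw [hw]; unfold p3cc; linarith
    have a9 : al ^ 2 * pade (p3y al) * p3cc s B - s / 2 * F1 φ1 ω0 j0 s ≤ 2 * F2 φ1 ω0 j0 s := by
      linarith [mul_le_mul_of_nonneg_right hO hcc.le, mul_le_mul_of_nonneg_left a8 hO0]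
    have b1 := mul_le_mul_of_nonneg_left a9 (sq_nonneg (1 / al))
    calc _ = (1 / al) ^ 2 * (al ^ 2 * pade (p3y al) * p3cc s B - s / 2 * F1 φ1 ω0 j0 s) := by
          rw [hsg]; field_simp
      _ ≤ _ := b1
      _ = _ := by ring

end Pool.Agent.HillD
end

-- part Pool.Agent.P.MP_ae2765_an.WP3m
section

/-! Third region: jets of the matching data. -/

namespace Pool.Agent.HillD
open Real Set Filter Topology Asymptotics

/-- the matching at `φ1` for real parameters -/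
theorem p3_match {δ ω φ1 x1 A B Z J y h : ℝ} (z : ℂ) (hδ : 0 < δ) (hω : 0 < ω)
    (h0 : 0 < φ1) (h1 : φ1 < π / 2) (hx : x1 = cos φ1 ^ 2)
    (eA : A = 2 * ω ^ 2 * jj δ * x1) (eB : B = 2 * ω * (1 - 2 * jj δ) * x1 ^ 2)
    (eZ : Z = (1 - 2 * jj δ) * x1 ^ 2) (eJ : J = 2 * jj δ * x1) :
    er ω (jj δ) φ1 / (2 * qr ω (jj δ) φ1) =
        1 / 4 * (B * (A + B)⁻¹ * (√((A + B) * (1 - J - Z)⁻¹))⁻¹) ∧
      ((-(sin φ1 / cos φ1 * h / cA (mm δ) ω φ1) : ℝ) : ℂ) - etaC φ1 δ ω z * y =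
        (-(sin φ1 / cos φ1 / cA (mm δ) ω φ1) : ℝ) *
          (((h + 1 / 2 * (B * (A + B)⁻¹ * y) : ℝ) : ℂ) +
            Complex.I * ((√((A + B) * (1 - J - Z)⁻¹) * y : ℝ) : ℂ) * (1 + z)) := by
  obtain ⟨j0, j1⟩ := jj_bd hδ
  obtain ⟨hP, hQ, hq, -⟩ := real_axis (φ := φ1) hω j0 j1
  have hA := (cA_cB hδ hω φ1).1
  have hs : 0 < sin φ1 := sin_pos_of_pos_of_lt_pi h0 (by linarith [pi_pos])
  have hc : 0 < cos φ1 := cos_pos_of_mem_Ioo ⟨by linarith [pi_pos], h1⟩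
  have e1 : A + B = 2 * ω * cos φ1 ^ 2 * Pr ω (jj δ) φ1 := by
    rw [eA, eB, hx, Pr]
    ring
  have e2 : 1 - J - Z = sin φ1 ^ 2 * Qr (jj δ) φ1 := by
    rw [eJ, eZ, hx, Qr, sin_sq]
    ring
  have e3 : √((A + B) * (1 - J - Z)⁻¹) = cos φ1 / sin φ1 * qr ω (jj δ) φ1 := by
    rw [qr, ← sqrt_sq (div_pos hc hs).le, ← sqrt_mul (sq_nonneg _), e1, e2]
    congr 1
    field_simp
  have e4 : B * (A + B)⁻¹ = 2 * (cos φ1 / sin φ1) * er ω (jj δ) φ1 := by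
    rw [e1, eB, hx, er]
    field_simp
  rw [e3, e4]
  constructor
  · field_simp
    ring
  · have c1 : ((sin φ1 : ℝ) : ℂ) ≠ 0 := Complex.ofReal_ne_zero.2 hs.ne'
    have c2 : ((cos φ1 : ℝ) : ℂ) ≠ 0 := Complex.ofReal_ne_zero.2 hc.ne'
    have c3 : ((cA (mm δ) ω φ1 : ℝ) : ℂ) ≠ 0 := Complex.ofReal_ne_zero.2 hA.ne'
    rw [etaC]
    simp only [Complex.ofReal_neg, Complex.ofReal_div, Complex.ofReal_mul, Complex.ofReal_add,
      Complex.ofReal_one, Complex.ofReal_ofNat]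
    field_simp
    ring

end Pool.Agent.HillD
end

-- part Pool.Agent.P.MP_ae2765_an.WSer0
section

/-! The power series at the turning point: bounds and holomorphy. -/

namespace Pool.Agent.HillD
open Real Set Filter Topology Asymptotics

theorem tco_ofReal (A B Z J : ℝ) (k0 n : ℕ) :
    (tco (A : ℂ) B Z J k0 n).1 = ((tco A B Z J k0 n).1 : ℝ) ∧
      (tco (A : ℂ) B Z J k0 n).2 = ((tco A B Z J k0 n).2 : ℝ) := by
  induction n with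
  | zero => simp [tco]
  | succ n ih =>
    refine ⟨?_, ?_⟩
    · simp only [tco]
      rw [ih.1, ih.2]
      simp only [Complex.ofReal_div, Complex.ofReal_add, Complex.ofReal_mul, Complex.ofReal_sub,
        Complex.ofReal_natCast]
    · simp only [tco]
      exact ih.1

theorem wser0_step {A B Z J : ℂ} {k0 : ℕ} (hA : ‖A‖ ≤ 47 / 2) (hB : ‖B‖ ≤ 29)
    (hZ : ‖Z‖ ≤ 51 / 5000) (hJ : ‖J‖ ≤ 3 / 250000) (hk : k0 ≤ 1) (n : ℕ) {a b c : ℝ}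
    (ha : ‖(tco A B Z J k0 n).1‖ ≤ a) (hb : ‖(tco A B Z J k0 n).2‖ ≤ b)
    (hc : ((2 * n + 1) * (2 * n + 1) * (3 / 250000) + 47 / 2) * a +
      ((2 * n) * (2 * n) * (51 / 5000) + 29) * b ≤ c * ((2 * n + 1) * (2 * n + 2))) :
    ‖(tco A B Z J k0 (n + 1)).1‖ ≤ c := by
  have h1 : ‖(((k0 + 2 * n) * (k0 + 2 * n) : ℕ) : ℂ) * J - A‖ ≤
      (2 * n + 1) * (2 * n + 1) * (3 / 250000) + 47 / 2 := by
    refine (norm_sub_le _ _).trans (add_le_add ?_ hA)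
    rw [norm_mul, Complex.norm_natCast]
    refine mul_le_mul ?_ hJ (norm_nonneg _) (by positivity)
    have : (k0 + 2 * n) * (k0 + 2 * n) ≤ (2 * n + 1) * (2 * n + 1) :=
      Nat.mul_le_mul (by omega) (by omega)
    exact_mod_cast this
  have h2 : ‖(((k0 + 2 * n - 1) * (k0 + 2 * n - 2) : ℕ) : ℂ) * Z - B‖ ≤
      (2 * n) * (2 * n) * (51 / 5000) + 29 := by
    refine (norm_sub_le _ _).trans (add_le_add ?_ hB)
    rw [norm_mul, Complex.norm_natCast]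
    refine mul_le_mul ?_ hZ (norm_nonneg _) (by positivity)
    have : (k0 + 2 * n - 1) * (k0 + 2 * n - 2) ≤ (2 * n) * (2 * n) :=
      Nat.mul_le_mul (by omega) (by omega)
    exact_mod_cast this
  have h3 : ((2 * n + 1) * (2 * n + 2) : ℝ) ≤ (((k0 + 2 * n + 1) * (k0 + 2 * n + 2) : ℕ) : ℝ) := by
    have : (2 * n + 1) * (2 * n + 2) ≤ (k0 + 2 * n + 1) * (k0 + 2 * n + 2) :=
      Nat.mul_le_mul (by omega) (by omega)
    exact_mod_cast this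
  have h4 : (0 : ℝ) < (2 * n + 1) * (2 * n + 2) := by positivity
  have ha0 : 0 ≤ a := (norm_nonneg _).trans ha
  have hb0 : 0 ≤ b := (norm_nonneg _).trans hb
  have hc0 : 0 ≤ c := by
    refine le_of_mul_le_mul_right ?_ h4
    rw [zero_mul]
    exact le_trans (by positivity) hc
  simp only [tco]
  rw [norm_div, Complex.norm_natCast, div_le_iff₀ (h4.trans_le h3)]
  refine (norm_add_le _ _).trans ?_
  rw [norm_mul, norm_mul]
  refine le_trans (add_le_add (mul_le_mul h1 ha (norm_nonneg _) (by positivity))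
    (mul_le_mul h2 hb (norm_nonneg _) (by positivity))) (hc.trans ?_)
  exact mul_le_mul_of_nonneg_left h3 hc0

theorem tco_bound {A B Z J : ℂ} {k0 : ℕ} (hA : ‖A‖ ≤ 47 / 2) (hB : ‖B‖ ≤ 29) (hZ : ‖Z‖ ≤ 51 / 5000)
    (hJ : ‖J‖ ≤ 3 / 250000) (hk : k0 ≤ 1) :
    (∀ n, ‖(tco A B Z J k0 n).1‖ ≤ 1000000 / 4 ^ n) ∧
      ∀ i, ‖(tco A B Z J k0 (15 + i)).1‖ ≤ 16 / 100000 / 4 ^ i := by
  have h0 : ‖(tco A B Z J k0 0).1‖ ≤ 1 := by simp [tco]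
  have hz : ‖(tco A B Z J k0 0).2‖ ≤ 0 := by simp [tco]
  have h1 : ‖(tco A B Z J k0 1).1‖ ≤ 294 / 25 :=
    wser0_step hA hB hZ hJ hk 0 h0 hz (by norm_num)
  have h2 : ‖(tco A B Z J k0 2).1‖ ≤ 1273 / 50 :=
    wser0_step hA hB hZ hJ hk 1 h1 h0 (by norm_num)
  have h3 : ‖(tco A B Z J k0 3).1‖ ≤ 1569 / 50 :=
    wser0_step hA hB hZ hJ hk 2 h2 h1 (by norm_num)
  have h4 : ‖(tco A B Z J k0 4).1‖ ≤ 2653 / 100 :=
    wser0_step hA hB hZ hJ hk 3 h3 h2 (by norm_num)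
  have h5 : ‖(tco A B Z J k0 5).1‖ ≤ 1727 / 100 :=
    wser0_step hA hB hZ hJ hk 4 h4 h3 (by norm_num)
  have h6 : ‖(tco A B Z J k0 6).1‖ ≤ 9109 / 1000 :=
    wser0_step hA hB hZ hJ hk 5 h5 h4 (by norm_num)
  have h7 : ‖(tco A B Z J k0 7).1‖ ≤ 1017 / 250 :=
    wser0_step hA hB hZ hJ hk 6 h6 h5 (by norm_num)
  have h8 : ‖(tco A B Z J k0 8).1‖ ≤ 63 / 40 :=
    wser0_step hA hB hZ hJ hk 7 h7 h6 (by norm_num)
  have h9 : ‖(tco A B Z J k0 9).1‖ ≤ 5413 / 10000 :=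
    wser0_step hA hB hZ hJ hk 8 h8 h7 (by norm_num)
  have h10 : ‖(tco A B Z J k0 10).1‖ ≤ 837 / 5000 :=
    wser0_step hA hB hZ hJ hk 9 h9 h8 (by norm_num)
  have h11 : ‖(tco A B Z J k0 11).1‖ ≤ 591 / 12500 :=
    wser0_step hA hB hZ hJ hk 10 h10 h9 (by norm_num)
  have h12 : ‖(tco A B Z J k0 12).1‖ ≤ 1231 / 100000 :=
    wser0_step hA hB hZ hJ hk 11 h11 h10 (by norm_num)
  have h13 : ‖(tco A B Z J k0 13).1‖ ≤ 1491 / 500000 :=
    wser0_step hA hB hZ hJ hk 12 h12 h11 (by norm_num)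
  have h14 : ‖(tco A B Z J k0 14).1‖ ≤ 6773 / 10000000 :=
    wser0_step hA hB hZ hJ hk 13 h13 h12 (by norm_num)
  have h15 : ‖(tco A B Z J k0 15).1‖ ≤ 363 / 2500000 :=
    wser0_step hA hB hZ hJ hk 14 h14 h13 (by norm_num)
  have h16 : ‖(tco A B Z J k0 16).1‖ ≤ 2951 / 100000000 :=
    wser0_step hA hB hZ hJ hk 15 h15 h14 (by norm_num)
  have key : ∀ i, ‖(tco A B Z J k0 (15 + i)).1‖ ≤ 16 / 100000 / 4 ^ i ∧
      ‖(tco A B Z J k0 (15 + i + 1)).1‖ ≤ 16 / 100000 / 4 ^ i / 4 := by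
    intro i
    induction i with
    | zero => exact ⟨h15.trans (by norm_num), h16.trans (by norm_num)⟩
    | succ i ih =>
      have e : (16 / 100000 / 4 ^ (i + 1) : ℝ) = 16 / 100000 / 4 ^ i / 4 := by
        rw [pow_succ, div_div (16 / 100000 : ℝ)]
      rw [e]
      refine ⟨ih.2, wser0_step hA hB hZ hJ hk (15 + i + 1) ih.2 ih.1 ?_⟩
      have hp : (0 : ℝ) < 16 / 100000 / 4 ^ i := by positivity
      generalize (16 / 100000 / 4 ^ i : ℝ) = C at hp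
      have hx : (16 : ℝ) ≤ ((15 + i + 1 : ℕ) : ℝ) := by
        have : 16 ≤ 15 + i + 1 := by omega
        exact_mod_cast this
      generalize ((15 + i + 1 : ℕ) : ℝ) = x at hx
      have : ((2 * x + 1) * (2 * x + 1) * (3 / 250000) + 47 / 2) / 4 +
          ((2 * x) * (2 * x) * (51 / 5000) + 29) ≤ ((2 * x + 1) * (2 * x + 2)) / 16 := by
        nlinarith
      nlinarith [mul_le_mul_of_nonneg_left this hp.le]
  refine ⟨fun n => ?_, fun i => (key i).1⟩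
  rcases le_or_gt 15 n with h | h
  · obtain ⟨i, rfl⟩ := Nat.exists_eq_add_of_le h
    refine (key i).1.trans ?_
    rw [pow_add, ← div_div]
    exact div_le_div_of_nonneg_right (by norm_num) (by positivity)
  · interval_cases n
    · exact h0.trans (by norm_num)
    · exact h1.trans (by norm_num)
    · exact h2.trans (by norm_num)
    · exact h3.trans (by norm_num)
    · exact h4.trans (by norm_num)
    · exact h5.trans (by norm_num)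
    · exact h6.trans (by norm_num)
    · exact h7.trans (by norm_num)
    · exact h8.trans (by norm_num)
    · exact h9.trans (by norm_num)
    · exact h10.trans (by norm_num)
    · exact h11.trans (by norm_num)
    · exact h12.trans (by norm_num)
    · exact h13.trans (by norm_num)
    · exact h14.trans (by norm_num)

theorem ser_tail {A B Z J : ℂ} {k0 : ℕ} (hA : ‖A‖ ≤ 47 / 2) (hB : ‖B‖ ≤ 29) (hZ : ‖Z‖ ≤ 51 / 5000)
    (hJ : ‖J‖ ≤ 3 / 250000) (hk : k0 ≤ 1) :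
    ‖yS A B Z J k0 - yN A B Z J k0‖ ≤ 3 / 50000 ∧ ‖hS A B Z J k0 - hN A B Z J k0‖ ≤ 1 / 500 := by
  have hb := (tco_bound hA hB hZ hJ hk).2
  have h1 : ∀ i, ‖(tco A B Z J k0 (i + 16)).1‖ ≤ 4 / 100000 * (1 / 4) ^ i := by
    intro i
    have := hb (i + 1)
    rw [show 15 + (i + 1) = i + 16 by omega] at this
    refine this.trans (le_of_eq ?_)
    rw [one_div, inv_pow, pow_succ]
    field_simp
    norm_num
  have h2 : ∀ i, ‖((k0 + 2 * (i + 16) : ℕ) : ℂ) * (tco A B Z J k0 (i + 16)).1‖ ≤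
      33 * (4 / 100000) * (1 / 4) ^ i + 2 * (4 / 100000) * ((i : ℝ) * (1 / 4) ^ i) := by
    intro i
    rw [norm_mul, Complex.norm_natCast]
    have : ((k0 + 2 * (i + 16) : ℕ) : ℝ) ≤ 33 + 2 * i := by
      have : k0 + 2 * (i + 16) ≤ 33 + 2 * i := by omega
      exact_mod_cast this
    refine (mul_le_mul this (h1 i) (norm_nonneg _) (by positivity)).trans (le_of_eq ?_)
    ring
  have g0 : HasSum (fun i : ℕ => (1 / 4 : ℝ) ^ i) (1 - 1 / 4)⁻¹ :=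
    hasSum_geometric_of_lt_one (by norm_num) (by norm_num)
  have g1 : HasSum (fun i : ℕ => (i : ℝ) * (1 / 4 : ℝ) ^ i) (1 / 4 / (1 - 1 / 4) ^ 2) :=
    hasSum_coe_mul_geometric_of_norm_lt_one (by norm_num)
  have s1 := g0.mul_left (4 / 100000)
  have s2 := (g0.mul_left (33 * (4 / 100000))).add (g1.mul_left (2 * (4 / 100000)))
  have u1 : Summable fun n => (tco A B Z J k0 n).1 :=
    (summable_nat_add_iff 16).1 (Summable.of_norm_bounded s1.summable h1)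
  have u2 : Summable fun n => ((k0 + 2 * n : ℕ) : ℂ) * (tco A B Z J k0 n).1 :=
    (summable_nat_add_iff 16).1 (Summable.of_norm_bounded s2.summable h2)
  refine ⟨?_, ?_⟩
  · rw [yS, yN, ← u1.sum_add_tsum_nat_add 16, add_sub_cancel_left]
    exact (tsum_of_norm_bounded s1 h1).trans (by norm_num)
  · rw [hS, hN, ← u2.sum_add_tsum_nat_add 16, add_sub_cancel_left]
    exact (tsum_of_norm_bounded s2 h2).trans (by norm_num)

end Pool.Agent.HillD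
end

-- part Pool.Agent.P.MP_ae2765_an.WSer1
section

/-! The power series at the turning point: bounds and holomorphy. -/

namespace Pool.Agent.HillD
open Real Set Filter Topology Asymptotics

theorem wser1_diff {U : Set ℂ} {A B Z J : ℂ → ℂ} (k0 : ℕ)
    (dA : DifferentiableOn ℂ A U) (dB : DifferentiableOn ℂ B U) (dZ : DifferentiableOn ℂ Z U)
    (dJ : DifferentiableOn ℂ J U) (n : ℕ) :
    DifferentiableOn ℂ (fun τ => (tco (A τ) (B τ) (Z τ) (J τ) k0 n).1) U ∧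
      DifferentiableOn ℂ (fun τ => (tco (A τ) (B τ) (Z τ) (J τ) k0 n).2) U := by
  induction n with
  | zero => exact ⟨differentiableOn_const (1 : ℂ), differentiableOn_const (0 : ℂ)⟩
  | succ n ih =>
    refine ⟨?_, ih.1⟩
    exact ((((dJ.const_mul _).sub dA).mul ih.1).add (((dZ.const_mul _).sub dB).mul ih.2)).div_const _

theorem wser1_sum : Summable fun n : ℕ => ((1 + 2 * n : ℝ)) * (1000000 / 4 ^ n) := by
  have h1 : Summable fun n : ℕ => (1 / 4 : ℝ) ^ n :=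
    summable_geometric_of_lt_one (by norm_num) (by norm_num)
  have h2 : Summable fun n : ℕ => (n : ℝ) ^ 1 * (1 / 4 : ℝ) ^ n :=
    summable_pow_mul_geometric_of_norm_lt_one 1 (by norm_num)
  refine ((h1.mul_left 1000000).add (h2.mul_left 2000000)).congr (fun n => ?_)
  rw [one_div, inv_pow]
  ring

theorem ser_hol {U : Set ℂ} (hU : IsOpen U) {A B Z J : ℂ → ℂ} {k0 : ℕ} (hk : k0 ≤ 1)
    (dA : DifferentiableOn ℂ A U) (dB : DifferentiableOn ℂ B U) (dZ : DifferentiableOn ℂ Z U)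
    (dJ : DifferentiableOn ℂ J U)
    (hb : ∀ τ ∈ U, ‖A τ‖ ≤ 47 / 2 ∧ ‖B τ‖ ≤ 29 ∧ ‖Z τ‖ ≤ 51 / 5000 ∧ ‖J τ‖ ≤ 3 / 250000) :
    DifferentiableOn ℂ
        (fun τ => yS (A τ) (B τ) (Z τ) (J τ) k0 - yN (A τ) (B τ) (Z τ) (J τ) k0) U ∧
      DifferentiableOn ℂ
        (fun τ => hS (A τ) (B τ) (Z τ) (J τ) k0 - hN (A τ) (B τ) (Z τ) (J τ) k0) U := by
  have hd := wser1_diff k0 dA dB dZ dJ
  have hbd : ∀ n, ∀ τ ∈ U, ‖(tco (A τ) (B τ) (Z τ) (J τ) k0 n).1‖ ≤ 1000000 / 4 ^ n :=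
    fun n τ hτ => (tco_bound (hb τ hτ).1 (hb τ hτ).2.1 (hb τ hτ).2.2.1 (hb τ hτ).2.2.2 hk).1 n
  have hk' : (k0 : ℝ) ≤ 1 := by exact_mod_cast hk
  constructor
  · refine DifferentiableOn.sub ?_ (DifferentiableOn.fun_sum (fun n _ => (hd n).1))
    refine Complex.differentiableOn_tsum_of_summable_norm wser1_sum (fun n => (hd n).1) hU
      (fun n τ hτ => (hbd n τ hτ).trans ?_)
    refine le_mul_of_one_le_left (by positivity) ?_
    exact le_add_of_nonneg_right (by positivity)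
  · refine DifferentiableOn.sub ?_ (DifferentiableOn.fun_sum (fun n _ => (hd n).1.const_mul _))
    refine Complex.differentiableOn_tsum_of_summable_norm wser1_sum
      (fun n => (hd n).1.const_mul _) hU (fun n τ hτ => ?_)
    rw [norm_mul, Complex.norm_natCast]
    refine mul_le_mul ?_ (hbd n τ hτ) (norm_nonneg _) (by positivity)
    push_cast
    linarith

end Pool.Agent.HillD
end

-- part Pool.Agent.P.MP_ae2765_an.WP3d
section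

/-! Third region: jets of the matching data. -/

namespace Pool.Agent.HillD
open Real Set Filter Topology Asymptotics

theorem wp3d_yN (A B Z J : ℝ) (k0 : ℕ) :
    yN (A : ℂ) B Z J k0 = ((yN A B Z J k0 : ℝ) : ℂ) := by
  unfold yN
  rw [Complex.ofReal_sum]
  exact Finset.sum_congr rfl fun n _ => (tco_ofReal A B Z J k0 n).1

theorem wp3d_hN (A B Z J : ℝ) (k0 : ℕ) :
    hN (A : ℂ) B Z J k0 = ((hN A B Z J k0 : ℝ) : ℂ) := by
  unfold hN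
  rw [Complex.ofReal_sum]
  refine Finset.sum_congr rfl fun n _ => ?_
  rw [(tco_ofReal A B Z J k0 n).1, Complex.ofReal_mul, Complex.ofReal_natCast]

theorem wp3d_err {E : ℂ → ℂ} {M : ℝ} {S : ℝ → ℂ} {N : ℝ → ℝ} {y0 y1 y2 : ℝ}
    (hd : DifferentiableOn ℂ E (Metric.ball 0 (1 / 4)))
    (hM : ∀ τ ∈ Metric.ball (0 : ℂ) (1 / 4), ‖E τ‖ ≤ M)
    (hE : ∀ τ : ℝ, E τ = S τ - (N τ : ℝ)) (hy : J2 N y0 y1 y2) :
    ∃ Y : T3, |Y.1 - y0| ≤ M ∧ |Y.2.1 - y1| ≤ 4 * M ∧ |Y.2.2 - y2| ≤ 16 * M ∧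
      JT (fun τ => (S τ).re) Y := by
  obtain ⟨c1, c2, c3, b0, b1, b2, -, hj⟩ := hol_jet (by norm_num) hd hM
  refine ⟨(y0 + (E 0).re, y1 + c1.re, y2 + c2.re), ?_, ?_, ?_, ?_⟩
  · simpa using (Complex.abs_re_le_norm _).trans b0
  · have := (Complex.abs_re_le_norm _).trans b1
    simp only [add_sub_cancel_left]
    linarith [show M / (1 / 4) = 4 * M by ring]
  · have := (Complex.abs_re_le_norm _).trans b2
    simp only [add_sub_cancel_left]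
    linarith [show M / (1 / 4) ^ 2 = 16 * M by ring]
  · refine (hy.add hj.j2.re).congr (Eventually.of_forall fun τ => ?_)
    simp [hE τ]

/-- The real functions `A, B, Z, J` along the curve, and the jets of the matching data. -/
theorem p3_jets {A0 B0 Z nu jk d1 d2 sg : ℝ} {y0 y1 y2 h0 h1 h2 : ℝ} {k0 : ℕ} (hk : k0 ≤ 1)
    {A B Zf J : ℂ → ℂ} {Ar Bf Zr Jr : ℝ → ℝ}
    (eA : A = fun τ : ℂ => ((A0 : ℂ) + (d1 * τ + d2 * τ ^ 2)) * (1 + sg * τ) ^ 2)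
    (eB : B = fun τ : ℂ => (B0 : ℂ) * (1 + sg * τ) * (1 - jk * (d1 * τ + d2 * τ ^ 2)))
    (eZ : Zf = fun τ : ℂ => (Z : ℂ) * (1 - jk * (d1 * τ + d2 * τ ^ 2)))
    (eJ : J = fun τ : ℂ => (nu : ℂ) * (A0 + (d1 * τ + d2 * τ ^ 2)))
    (rA : Ar = fun τ => (A0 + (d1 * τ + d2 * τ ^ 2)) * (1 + sg * τ) ^ 2)
    (rB : Bf = fun τ => B0 * (1 + sg * τ) * (1 - jk * (d1 * τ + d2 * τ ^ 2)))
    (rZ : Zr = fun τ => Z * (1 - jk * (d1 * τ + d2 * τ ^ 2)))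
    (rJ : Jr = fun τ => nu * (A0 + (d1 * τ + d2 * τ ^ 2)))
    (hb : ∀ τ ∈ Metric.ball (0 : ℂ) (1 / 4),
      ‖A τ‖ ≤ 47 / 2 ∧ ‖B τ‖ ≤ 29 ∧ ‖Zf τ‖ ≤ 51 / 5000 ∧ ‖J τ‖ ≤ 3 / 250000)
    (hS0 : 0 < A0 + B0) (hd0 : 0 < 1 - nu * A0 - Z)
    (hy : J2 (fun τ => yN (Ar τ) (Bf τ) (Zr τ) (Jr τ) k0) y0 y1 y2)
    (hh : J2 (fun τ => hN (Ar τ) (Bf τ) (Zr τ) (Jr τ) k0) h0 h1 h2) :
    ∃ D : P3D, D.A0 = A0 ∧ D.B0 = B0 ∧ D.Z = Z ∧ D.nu = nu ∧ D.jk = jk ∧ D.d1 = d1 ∧ D.d2 = d2 ∧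
      D.sg = sg ∧ |D.Y.1 - y0| ≤ 3 / 50000 ∧ |D.Y.2.1 - y1| ≤ 4 * (3 / 50000) ∧
      |D.Y.2.2 - y2| ≤ 16 * (3 / 50000) ∧ |D.H.1 - h0| ≤ 1 / 500 ∧ |D.H.2.1 - h1| ≤ 4 * (1 / 500) ∧
      |D.H.2.2 - h2| ≤ 16 * (1 / 500) ∧
      JT (fun τ => (hS (Ar τ) (Bf τ) (Zr τ) (Jr τ) k0).re +
        1 / 2 * (Bf τ * (Ar τ + Bf τ)⁻¹ * (yS (Ar τ) (Bf τ) (Zr τ) (Jr τ) k0).re)) D.Mr ∧
      JT (fun τ => √((Ar τ + Bf τ) * (1 - Jr τ - Zr τ)⁻¹) *
        (yS (Ar τ) (Bf τ) (Zr τ) (Jr τ) k0).re) D.Mi ∧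
      JT (fun τ => Bf τ * (Ar τ + Bf τ)⁻¹ * (√((Ar τ + Bf τ) * (1 - Jr τ - Zr τ)⁻¹))⁻¹) D.Tb := by
  have cA : ∀ τ : ℝ, A τ = (Ar τ : ℝ) := fun τ => by rw [eA, rA]; push_cast; ring
  have cB : ∀ τ : ℝ, B τ = (Bf τ : ℝ) := fun τ => by rw [eB, rB]; push_cast; ring
  have cZ : ∀ τ : ℝ, Zf τ = (Zr τ : ℝ) := fun τ => by rw [eZ, rZ]; push_cast; ring
  have cJ : ∀ τ : ℝ, J τ = (Jr τ : ℝ) := fun τ => by rw [eJ, rJ]; push_cast; ring
  have dA : DifferentiableOn ℂ A (Metric.ball 0 (1 / 4)) := by rw [eA]; fun_prop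
  have dB : DifferentiableOn ℂ B (Metric.ball 0 (1 / 4)) := by rw [eB]; fun_prop
  have dZ : DifferentiableOn ℂ Zf (Metric.ball 0 (1 / 4)) := by rw [eZ]; fun_prop
  have dJ : DifferentiableOn ℂ J (Metric.ball 0 (1 / 4)) := by rw [eJ]; fun_prop
  obtain ⟨hy', hh'⟩ := ser_hol Metric.isOpen_ball hk dA dB dZ dJ hb
  obtain ⟨Y, y0', y1', y2', jY⟩ := wp3d_err (S := fun τ => yS (Ar τ) (Bf τ) (Zr τ) (Jr τ) k0) hy'
    (fun τ h => (ser_tail (hb τ h).1 (hb τ h).2.1 (hb τ h).2.2.1 (hb τ h).2.2.2 hk).1)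
    (fun τ => by rw [cA, cB, cZ, cJ, wp3d_yN]) hy
  obtain ⟨H, h0', h1', h2', jH⟩ := wp3d_err (S := fun τ => hS (Ar τ) (Bf τ) (Zr τ) (Jr τ) k0) hh'
    (fun τ h => (ser_tail (hb τ h).1 (hb τ h).2.1 (hb τ h).2.2.1 (hb τ h).2.2.2 hk).2)
    (fun τ => by rw [cA, cB, cZ, cJ, wp3d_hN]) hh
  set D : P3D := ⟨A0, B0, Z, nu, jk, d1, d2, sg, Y, H⟩ with hD
  have jd : J2 (fun τ : ℝ => d1 * τ + d2 * τ ^ 2) 0 d1 d2 :=
    (j2_poly (0 : ℝ) d1 d2).congr (Eventually.of_forall fun τ => by simp)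
  have ju : J2 (fun τ : ℝ => 1 + sg * τ) 1 sg 0 :=
    (j2_lin (1 : ℝ) sg).congr (Eventually.of_forall fun τ => by simp)
  have jw : J2 (fun τ : ℝ => 1 - jk * (d1 * τ + d2 * τ ^ 2)) 1 (-(jk * d1)) (-(jk * d2)) :=
    ((j2_const (1 : ℝ)).sub (jd.const_mul jk)).of_eq (by ring) (by ring) (by ring)
  have ja : J2 (fun τ : ℝ => A0 + (d1 * τ + d2 * τ ^ 2)) A0 d1 d2 :=
    ((j2_const A0).add jd).of_eq (by ring) (by ring) (by ring)
  have jB : JT Bf D.Bj := by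
    rw [rB]
    exact ((ju.const_mul B0).mul jw).of_eq (by simp [hD, P3D.Bj]) (by simp [hD, P3D.Bj]; ring)
      (by simp [hD, P3D.Bj]; ring)
  have jA : J2 Ar A0 (d1 + 2 * (A0 * sg)) (d2 + 2 * (d1 * sg) + A0 * sg ^ 2) := by
    rw [rA]
    exact ((ja.mul (ju.mul ju)).congr (Eventually.of_forall fun τ => by ring)).of_eq (by ring)
      (by ring) (by ring)
  have jS : JT (fun τ => Ar τ + Bf τ) D.Sj := J2.add jA jB
  have jn : JT (fun τ => 1 - Jr τ - Zr τ) D.dn := by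
    rw [rJ, rZ]
    exact (((j2_const (1 : ℝ)).sub (ja.const_mul nu)).sub (jw.const_mul Z)).of_eq
      (by simp [hD, P3D.dn]) (by simp [hD, P3D.dn]; ring) (by simp [hD, P3D.dn]; ring)
  have jAA : JT (fun τ => Bf τ * (Ar τ + Bf τ)⁻¹) D.AA := jB.mul (jS.inv hS0.ne')
  have hp : 0 < (jmul D.Sj (jinv D.dn)).1 := mul_pos hS0 (inv_pos.2 hd0)
  have jr : JT (fun τ => √((Ar τ + Bf τ) * (1 - Jr τ - Zr τ)⁻¹)) D.rj :=
    (jS.mul (jn.inv hd0.ne')).sqrt hp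
  refine ⟨D, rfl, rfl, rfl, rfl, rfl, rfl, rfl, rfl, y0', y1', y2', h0', h1', h2', ?_,
    jr.mul jY, jAA.mul (jr.inv (Real.sqrt_pos.2 hp).ne')⟩
  exact J2.add jH (J2.const_mul (jAA.mul jY) (1 / 2))

end Pool.Agent.HillD
end

-- part Pool.Agent.P.MP_ae2765_an.WSer2
section

/-! The power series at the turning point solves the equation. -/

namespace Pool.Agent.HillD
open Real Set Filter Topology Asymptotics

noncomputable def wser2_u (n : ℕ) : ℝ := 1500000 * ((2 * (n : ℝ) + 1) ^ 2 * (9 / 16) ^ n)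

theorem wser2_sum : Summable wser2_u := by
  have h : ‖(9 / 16 : ℝ)‖ < 1 := by rw [Real.norm_eq_abs, abs_of_pos] <;> norm_num
  have h2 := summable_pow_mul_geometric_of_norm_lt_one 2 h
  have h1 := summable_pow_mul_geometric_of_norm_lt_one 1 h
  have h0 := summable_pow_mul_geometric_of_norm_lt_one 0 h
  refine (((h2.mul_left 4).add ((h1.mul_left 4).add h0)).mul_left 1500000).congr fun n => ?_
  unfold wser2_u
  ring

theorem wser2_bd {t c z : ℝ} {n i : ℕ} (ht : |t| ≤ 1000000 / 4 ^ n) (hc0 : 0 ≤ c)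
    (hc : c ≤ (2 * (n : ℝ) + 1) ^ 2) (hi : i ≤ 2 * n + 1) (hz : z ∈ Ioo (-(3 / 2) : ℝ) (3 / 2)) :
    ‖t * (c * z ^ i)‖ ≤ wser2_u n := by
  have h1 : |z| ^ i ≤ (3 / 2 : ℝ) ^ (2 * n + 1) :=
    (pow_le_pow_left₀ (abs_nonneg z) (abs_le.2 ⟨hz.1.le, hz.2.le⟩) i).trans
      (pow_le_pow_right₀ (by norm_num) hi)
  rw [Real.norm_eq_abs, abs_mul, abs_mul, abs_pow, abs_of_nonneg hc0]
  calc _ ≤ 1000000 / 4 ^ n * ((2 * (n : ℝ) + 1) ^ 2 * (3 / 2) ^ (2 * n + 1)) := by gcongr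
    _ = wser2_u n := by
      unfold wser2_u
      rw [pow_succ (3 / 2 : ℝ), pow_mul, show (9 / 16 : ℝ) = (3 / 2) ^ 2 / 4 by norm_num,
        div_pow ((3 / 2 : ℝ) ^ 2)]
      ring

theorem wser2_congr {f g : ℕ → ℝ} {a : ℝ} (h : HasSum f a) (e : ∀ n, g n = f n) : HasSum g a :=
  funext e ▸ h

/-- the series, its two derivatives and the differential equation -/
theorem wser2_ode {A B Z J : ℝ} {k0 : ℕ} (hk : k0 ≤ 1)
    (ht : ∀ n, |(tco A B Z J k0 n).1| ≤ 1000000 / 4 ^ n) {z : ℝ}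
    (hz : z ∈ Ioo (-(3 / 2) : ℝ) (3 / 2)) : ∃ y2 : ℝ,
      HasDerivAt (fun z : ℝ => ∑' n, (tco A B Z J k0 n).1 * (1 * z ^ (k0 + 2 * n)))
        (∑' n, (tco A B Z J k0 n).1 * (((k0 + 2 * n : ℕ) : ℝ) * z ^ (k0 + 2 * n - 1))) z ∧
      HasDerivAt
        (fun z : ℝ => ∑' n, (tco A B Z J k0 n).1 * (((k0 + 2 * n : ℕ) : ℝ) * z ^ (k0 + 2 * n - 1)))
        y2 z ∧
      (1 - J * z ^ 2 - Z * z ^ 4) * y2 - (J * z + 2 * Z * z ^ 3) *
        (∑' n, (tco A B Z J k0 n).1 * (((k0 + 2 * n : ℕ) : ℝ) * z ^ (k0 + 2 * n - 1))) +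
        (A + B * z ^ 2) * (∑' n, (tco A B Z J k0 n).1 * (1 * z ^ (k0 + 2 * n))) = 0 := by
  set t : ℕ → ℝ := fun n => (tco A B Z J k0 n).1 with htd
  have hn : ∀ n : ℕ, (1 : ℝ) ≤ 2 * (n : ℝ) + 1 := fun n => by
    have : (0 : ℝ) ≤ n := Nat.cast_nonneg n
    linarith
  have hk1 : ∀ n : ℕ, ((k0 + 2 * n : ℕ) : ℝ) ≤ 2 * (n : ℝ) + 1 := fun n => by
    exact_mod_cast (show k0 + 2 * n ≤ 2 * n + 1 by omega)
  have hk2 : ∀ n : ℕ, ((k0 + 2 * n - 1 : ℕ) : ℝ) ≤ 2 * (n : ℝ) + 1 := fun n => by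
    exact_mod_cast (show k0 + 2 * n - 1 ≤ 2 * n + 1 by omega)
  have b0 : ∀ n, ∀ w ∈ Ioo (-(3 / 2) : ℝ) (3 / 2), ‖t n * (1 * w ^ (k0 + 2 * n))‖ ≤ wser2_u n :=
    fun n w hw => wser2_bd (ht n) zero_le_one (one_le_pow₀ (hn n)) (by omega) hw
  have b1 : ∀ n, ∀ w ∈ Ioo (-(3 / 2) : ℝ) (3 / 2),
      ‖t n * (((k0 + 2 * n : ℕ) : ℝ) * w ^ (k0 + 2 * n - 1))‖ ≤ wser2_u n :=
    fun n w hw => wser2_bd (ht n) (Nat.cast_nonneg _)
      ((hk1 n).trans (by nlinarith [hn n])) (by omega) hw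
  have b2 : ∀ n, ∀ w ∈ Ioo (-(3 / 2) : ℝ) (3 / 2), ‖t n * ((((k0 + 2 * n : ℕ) : ℝ) *
      ((k0 + 2 * n - 1 : ℕ) : ℝ)) * w ^ (k0 + 2 * n - 1 - 1))‖ ≤ wser2_u n :=
    fun n w hw => wser2_bd (ht n) (by positivity)
      (by rw [sq]; exact mul_le_mul (hk1 n) (hk2 n) (Nat.cast_nonneg _) (by linarith [hn n]))
      (by omega) hw
  have s0 := (Summable.of_norm_bounded wser2_sum fun n => b0 n z hz).hasSum
  have s1 := (Summable.of_norm_bounded wser2_sum fun n => b1 n z hz).hasSum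
  have s2 := (Summable.of_norm_bounded wser2_sum fun n => b2 n z hz).hasSum
  refine ⟨_, hasDerivAt_tsum_of_isPreconnected wser2_sum isOpen_Ioo isPreconnected_Ioo
      (fun n w _ => ?_) b1 hz s0.summable hz,
    hasDerivAt_tsum_of_isPreconnected wser2_sum isOpen_Ioo isPreconnected_Ioo
      (fun n w _ => ?_) b2 hz s1.summable hz, ?_⟩
  · simpa only [one_mul] using (hasDerivAt_pow (k0 + 2 * n) w).const_mul (t n)
  · simpa only [mul_assoc] using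
      ((hasDerivAt_pow (k0 + 2 * n - 1) w).const_mul ((k0 + 2 * n : ℕ) : ℝ)).const_mul (t n)
  generalize (∑' n, t n * (1 * z ^ (k0 + 2 * n))) = y0 at s0 ⊢
  generalize (∑' n, t n * (((k0 + 2 * n : ℕ) : ℝ) * z ^ (k0 + 2 * n - 1))) = y1 at s1 ⊢
  generalize (∑' n, t n * ((((k0 + 2 * n : ℕ) : ℝ) *
      ((k0 + 2 * n - 1 : ℕ) : ℝ)) * z ^ (k0 + 2 * n - 1 - 1))) = y2 at s2 ⊢
  have e1 : ∀ k : ℕ, z * ((k : ℝ) * z ^ (k - 1)) = k * z ^ k := fun k => by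
    rcases k with _ | k
    · simp
    · rw [Nat.add_sub_cancel]; ring
  have e2 : ∀ k : ℕ, z ^ 2 * (((k : ℝ) * ((k - 1 : ℕ) : ℝ)) * z ^ (k - 1 - 1)) =
      k * (k - 1) * z ^ k := fun k => by
    rcases k with _ | _ | k
    · simp
    · simp
    · rw [Nat.add_sub_cancel, Nat.add_sub_cancel]; push_cast; ring
  have a0 : HasSum (fun n => t n * z ^ (k0 + 2 * n)) y0 := by simpa only [one_mul] using s0
  have a1 : HasSum (fun n => t n * (((k0 + 2 * n : ℕ) : ℝ) * z ^ (k0 + 2 * n))) (z * y1) :=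
    wser2_congr (s1.mul_left z) fun n => by rw [mul_left_comm z, e1]
  have a2 : HasSum (fun n => t n * (((k0 + 2 * n : ℕ) : ℝ) * (((k0 + 2 * n : ℕ) : ℝ) - 1) *
      z ^ (k0 + 2 * n))) (z ^ 2 * y2) :=
    wser2_congr (s2.mul_left (z ^ 2)) fun n => by rw [mul_left_comm (z ^ 2), e2]
  have q := ((a2.add a1).mul_left J).sub (a0.mul_left A)
  have r := (((a2.add (a1.mul_left 2)).mul_left Z).sub (a0.mul_left B)).mul_left (z ^ 2)
  have r' : HasSum (fun n => ((((k0 + 2 * n - 1) * (k0 + 2 * n - 2) : ℕ) : ℝ) * Z - B) *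
      (tco A B Z J k0 n).2 * z ^ (k0 + 2 * n))
      (z ^ 2 * (Z * (z ^ 2 * y2 + 2 * (z * y1)) - B * y0)) := by
    refine (hasSum_nat_add_iff' 1).1 ?_
    rw [Finset.sum_range_one, show (tco A B Z J k0 0).2 = 0 from rfl, mul_zero, zero_mul, sub_zero]
    refine wser2_congr r fun n => ?_
    rw [show (tco A B Z J k0 (n + 1)).2 = t n from rfl,
      show k0 + 2 * (n + 1) - 1 = k0 + 2 * n + 1 by omega,
      show k0 + 2 * (n + 1) - 2 = k0 + 2 * n by omega]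
    push_cast
    ring
  have p := (hasSum_nat_add_iff' 1).2 s2
  have p0 : ((k0 + 2 * 0 : ℕ) : ℝ) * ((k0 + 2 * 0 - 1 : ℕ) : ℝ) = 0 := by
    interval_cases k0 <;> simp
  rw [Finset.sum_range_one, p0, zero_mul, mul_zero, sub_zero] at p
  have key : y2 = _ := p.unique (wser2_congr (q.add r') fun n => ?_)
  · linear_combination key
  · have h1 : (((k0 + 2 * n + 1) * (k0 + 2 * n + 2) : ℕ) : ℝ) ≠ 0 := by positivity
    have h2 : t (n + 1) * (((k0 + 2 * n + 1) * (k0 + 2 * n + 2) : ℕ) : ℝ) =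
        ((((k0 + 2 * n) * (k0 + 2 * n) : ℕ) : ℝ) * J - A) * t n +
        ((((k0 + 2 * n - 1) * (k0 + 2 * n - 2) : ℕ) : ℝ) * Z - B) * (tco A B Z J k0 n).2 :=
      div_mul_cancel₀ _ h1
    rw [show k0 + 2 * (n + 1) - 1 = k0 + 2 * n + 1 by omega, Nat.add_sub_cancel]
    generalize (((k0 + 2 * n - 1) * (k0 + 2 * n - 2) : ℕ) : ℝ) = e at h2 ⊢
    push_cast at h2 ⊢
    linear_combination z ^ (k0 + 2 * n) * h2

theorem tr_series (typ : Bool) {δ ω φ1 x1 A B Z J : ℝ} {k0 : ℕ} (hδ : 0 < δ) (hω : 0 < ω)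
    (h0 : 0 < φ1) (h1 : φ1 < π / 2) (hx : x1 = cos φ1 ^ 2) (hk : k0 = if typ then 1 else 0)
    (eA : A = 2 * ω ^ 2 * jj δ * x1) (eB : B = 2 * ω * (1 - 2 * jj δ) * x1 ^ 2)
    (eZ : Z = (1 - 2 * jj δ) * x1 ^ 2) (eJ : J = 2 * jj δ * x1)
    (hA : |A| ≤ 47 / 2) (hB : |B| ≤ 29) (hZ : |Z| ≤ 51 / 5000) (hJ : |J| ≤ 3 / 250000) :
    Tr typ φ1 δ ω (yS A B Z J k0).re
      (-(sin φ1 / cos φ1 * (hS A B Z J k0).re / cA (mm δ) ω φ1)) := by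
  have hk1 : k0 ≤ 1 := by rw [hk]; split_ifs <;> omega
  have ht : ∀ n, |(tco A B Z J k0 n).1| ≤ 1000000 / 4 ^ n := fun n => by
    have h := (tco_bound (A := A) (B := B) (Z := Z) (J := J) (by simpa using hA)
      (by simpa using hB) (by simpa using hZ) (by simpa using hJ) hk1).1 n
    rwa [(tco_ofReal A B Z J k0 n).1, Complex.norm_real, Real.norm_eq_abs] at h
  set y0 : ℝ → ℝ := fun z => ∑' n, (tco A B Z J k0 n).1 * (1 * z ^ (k0 + 2 * n)) with hy0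
  set y1 : ℝ → ℝ := fun z =>
    ∑' n, (tco A B Z J k0 n).1 * (((k0 + 2 * n : ℕ) : ℝ) * z ^ (k0 + 2 * n - 1)) with hy1
  have e0 : (yS A B Z J k0).re = y0 1 := by
    simp only [yS, hy0, (tco_ofReal A B Z J k0 _).1, one_pow, mul_one]
    rw [← Complex.ofReal_tsum, Complex.ofReal_re]
  have e1 : (hS A B Z J k0).re = y1 1 := by
    have : hS A B Z J k0 = ((y1 1 : ℝ) : ℂ) := by
      simp only [hS, hy1, (tco_ofReal A B Z J k0 _).1, one_pow, mul_one]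
      rw [Complex.ofReal_tsum]
      refine tsum_congr fun n => ?_
      push_cast
      ring
    rw [this, Complex.ofReal_re]
  have hc : 0 < cos φ1 := cos_pos_of_mem_Ioo ⟨by linarith, h1⟩
  have hm := mm_lt_one δ
  have hj : 2 * (1 - jj δ) * mm δ = 1 - 2 * jj δ := by
    unfold jj mm
    field_simp
    ring
  have hj1 : 1 - jj δ ≠ 0 := by linarith [(jj_bd hδ).2]
  have main : ∀ x y : ℝ → ℝ, IsLin (cA (mm δ) ω) (cB (mm δ) ω) x y → ∀ φ ∈ Icc φ1 (π / 2),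
      HasDerivAt (fun φ => x φ * (y1 (cos φ / cos φ1) * (-sin φ / cos φ1) * pm (mm δ) φ / ω) -
        y φ * y0 (cos φ / cos φ1)) 0 φ := by
    intro x y hxy φ hφ
    have c0 : 0 ≤ cos φ := cos_nonneg_of_mem_Icc ⟨by linarith [hφ.1], hφ.2⟩
    have c1 : cos φ ≤ cos φ1 := cos_le_cos_of_nonneg_of_le_pi h0.le (by linarith [hφ.2]) hφ.1
    have hz : cos φ / cos φ1 ∈ Ioo (-(3 / 2) : ℝ) (3 / 2) :=
      ⟨lt_of_lt_of_le (by norm_num) (div_nonneg c0 hc.le),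
        lt_of_le_of_lt ((div_le_one hc).2 c1) (by norm_num)⟩
    obtain ⟨y2, d0, d1, ode⟩ := wser2_ode hk1 ht hz
    have dz : HasDerivAt (fun φ => cos φ / cos φ1) (-sin φ / cos φ1) φ :=
      (hasDerivAt_cos φ).div_const _
    have dz' : HasDerivAt (fun φ => -sin φ / cos φ1) (-cos φ / cos φ1) φ :=
      (hasDerivAt_sin φ).neg.div_const _
    have hp := pm_pos hm φ
    have dp : HasDerivAt (pm (mm δ)) (-(mm δ * (2 * sin φ * cos φ)) / (2 * pm (mm δ) φ)) φ := by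
      have h := (((hasDerivAt_sin φ).pow 2).const_mul (mm δ)).const_sub 1
      have h2 := h.sqrt (Dm_pos hm φ).ne'
      refine HasDerivAt.congr_deriv (f := pm (mm δ)) h2 ?_
      simp [pm, Dm]
    have D0 : HasDerivAt (fun φ => y0 (cos φ / cos φ1))
        (y1 (cos φ / cos φ1) * (-sin φ / cos φ1)) φ :=
      HasDerivAt.comp (h₂ := y0) (h := fun φ => cos φ / cos φ1) φ d0 dz
    have D1 : HasDerivAt (fun φ => y1 (cos φ / cos φ1)) (y2 * (-sin φ / cos φ1)) φ :=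
      HasDerivAt.comp (h₂ := y1) (h := fun φ => cos φ / cos φ1) φ d1 dz
    refine (((hxy φ).1.fun_mul (((D1.fun_mul dz').fun_mul dp).div_const ω)).fun_sub
      ((hxy φ).2.fun_mul D0)).congr_deriv ?_
    change (1 - J * (cos φ / cos φ1) ^ 2 - Z * (cos φ / cos φ1) ^ 4) * y2 -
      (J * (cos φ / cos φ1) + 2 * Z * (cos φ / cos φ1) ^ 3) * y1 (cos φ / cos φ1) +
      (A + B * (cos φ / cos φ1) ^ 2) * y0 (cos φ / cos φ1) = 0 at ode
    have hp2 : pm (mm δ) φ ^ 2 = 1 - mm δ * sin φ ^ 2 := pm_sq hm φ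
    have hs := sin_sq_add_cos_sq φ
    generalize y1 (cos φ / cos φ1) = u1 at ode ⊢
    generalize y0 (cos φ / cos φ1) = u0 at ode ⊢
    unfold cA cB
    rw [eA, eB, eZ, eJ, hx] at ode
    generalize pm (mm δ) φ = P at hp hp2 ⊢
    generalize mm δ = m at hj hp2 ⊢
    generalize jj δ = j at hj hj1 ode
    generalize cos φ1 = c at hc ode ⊢
    generalize sin φ = S at hs hp2 ⊢
    generalize cos φ = C at hs ode ⊢
    have ode' : ((1 - C ^ 2) * (1 + (1 - 2 * j) * C ^ 2)) * y2 -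
        c * C * (2 * j + 2 * (1 - 2 * j) * C ^ 2) * u1 +
        2 * ω * c ^ 2 * (ω * j + (1 - 2 * j) * C ^ 2) * u0 = 0 := by
      rw [← ode]
      field_simp
      ring
    have key : S ^ 2 * P ^ 2 * y2 - c * C * P ^ 2 * u1 + c * m * S ^ 2 * C * u1 +
        ω * c ^ 2 * (ω * (1 - 2 * m) + 2 * m * C ^ 2) * u0 = 0 := by
      refine mul_left_cancel₀ (mul_ne_zero two_ne_zero hj1) ?_
      rw [hp2, show S ^ 2 = 1 - C ^ 2 by linarith]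
      linear_combination ode' + (-(1 - C ^ 2) ^ 2 * y2 + 2 * c * C * (1 - C ^ 2) * u1 +
        2 * ω * c ^ 2 * (C ^ 2 - ω) * u0) * hj
    field_simp
    linear_combination x φ * key
  have cst : ∀ x y : ℝ → ℝ, IsLin (cA (mm δ) ω) (cB (mm δ) ω) x y →
      x φ1 * -(sin φ1 / cos φ1 * y1 1 / cA (mm δ) ω φ1) - y φ1 * y0 1 =
        x (π / 2) * (y1 0 * (-1 / cos φ1) * pm (mm δ) (π / 2) / ω) - y (π / 2) * y0 0 := by
    intro x y hxy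
    have h := constant_of_has_deriv_right_zero
      (fun φ hφ => (main x y hxy φ hφ).continuousAt.continuousWithinAt)
      (fun φ hφ => (main x y hxy φ (Ico_subset_Icc_self hφ)).hasDerivWithinAt) (π / 2)
      ⟨h1.le, le_rfl⟩
    simp only [cos_pi_div_two, sin_pi_div_two, zero_div, div_self hc.ne'] at h
    rw [h]
    unfold cA
    have hp := pm_pos hm φ1
    field_simp
  rw [e0, e1]
  cases typ
  · obtain rfl : k0 = 0 := hk
    have a0 : y0 0 = 1 := by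
      rw [hy0]
      simp only
      rw [tsum_eq_single 0 fun n hn => by simp [hn]]
      simp [tco]
    have a1 : y1 0 = 0 := by
      rw [hy1]
      simp only
      rw [tsum_eq_single 0 fun n hn => by rw [zero_pow (by omega)]; simp]
      simp
    refine ⟨-1, by norm_num, fun x y hxy => ?_⟩
    rw [cst x y hxy, a0, a1]
    simp
  · obtain rfl : k0 = 1 := hk
    have a0 : y0 0 = 0 := by
      rw [hy0]
      simp
    have a1 : y1 0 = 1 := by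
      rw [hy1]
      simp only
      rw [tsum_eq_single 0 fun n hn => by rw [zero_pow (by omega)]; simp]
      simp [tco]
    have hp := pm_pos hm (π / 2)
    refine ⟨-1 / cos φ1 * pm (mm δ) (π / 2) / ω, ?_, fun x y hxy => ?_⟩
    · exact div_ne_zero (mul_ne_zero (div_ne_zero (by norm_num) hc.ne') hp.ne') hω.ne'
    · rw [cst x y hxy, a0, a1]
      simp only [if_true]
      ring

end Pool.Agent.HillD
end

-- part Pool.Agent.P.MP_ae2765_an.WLoop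
section

/-! The loop of the checker computes the jets of the truncated series. -/

namespace Pool.Agent.HillD
open Real Set Filter Topology Asymptotics Pool.Agent.HillD.Num Pool.Agent.P.MP_4c4e6e_co.Eng

/-- the two-jet along a curve of a function of `(d, υ)` with the given Taylor coefficients -/
def wloopJ (d1 d2 sg : ℝ) (F : ℝ → ℝ) (c0 c1 c2 c3 c4 c5 : ℝ) : Prop :=
  J2 F c0 (c1 * d1 + c2 * sg) (c1 * d2 + c3 * d1 ^ 2 + c4 * (d1 * sg) + c5 * sg ^ 2)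

theorem wloop_add {d1 d2 sg : ℝ} {F G : ℝ → ℝ} {y0 y1 y2 y3 y4 y5 n0 n1 n2 n3 n4 n5 : ℝ} (e : ℝ)
    (h : wloopJ d1 d2 sg F y0 y1 y2 y3 y4 y5) (h' : wloopJ d1 d2 sg G n0 n1 n2 n3 n4 n5) :
    wloopJ d1 d2 sg (fun τ => F τ + e * G τ) (y0 + e * n0) (y1 + e * n1) (y2 + e * n2)
      (y3 + e * n3) (y4 + e * n4) (y5 + e * n5) :=
  (J2.add h (J2.const_mul h' e)).of_eq rfl (by ring) (by ring)

theorem wloop_const (d1 d2 sg c : ℝ) : wloopJ d1 d2 sg (fun _ => c) c 0 0 0 0 0 :=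
  (j2_const c).of_eq rfl (by ring) (by ring)

theorem wloop_new {d1 d2 sg : ℝ} {d υ T M : ℝ → ℝ} {t0 t1 t2 t3 t4 t5 m0 m1 m2 m3 m4 m5 : ℝ}
    (A0 B0 Z nu jk ka kb c : ℝ) (hd : J2 d 0 d1 d2) (hu : J2 υ 0 sg 0)
    (hT : wloopJ d1 d2 sg T t0 t1 t2 t3 t4 t5) (hM : wloopJ d1 d2 sg M m0 m1 m2 m3 m4 m5) :
    wloopJ d1 d2 sg (fun τ => ((ka * (nu * (A0 + d τ)) - (A0 + d τ) * (1 + υ τ) ^ 2) * T τ +
      (kb * (Z * (1 - jk * d τ)) - B0 * (1 + υ τ) * (1 - jk * d τ)) * M τ) / c)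
      (c⁻¹ * ((ka * nu - 1) * (A0 * t0) + (kb * Z - B0) * m0))
      (c⁻¹ * ((ka * nu - 1) * (A0 * t1 + t0) + ((kb * Z - B0) * m1 - jk * ((kb * Z - B0) * m0))))
      (c⁻¹ * ((ka * nu - 1) * (A0 * t2) - 2 * (A0 * t0) + ((kb * Z - B0) * m2 - B0 * m0)))
      (c⁻¹ * ((ka * nu - 1) * (A0 * t3 + t1) + ((kb * Z - B0) * m3 - jk * ((kb * Z - B0) * m1))))
      (c⁻¹ * ((ka * nu - 1) * (A0 * t4 + t2) - 2 * (A0 * t1 + t0) +
      ((kb * Z - B0) * m4 - B0 * m1 - jk * ((kb * Z - B0) * m2 - B0 * m0))))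
      (c⁻¹ * ((ka * nu - 1) * (A0 * t5) - 2 * (A0 * t2) - A0 * t0 + ((kb * Z - B0) * m5 - B0 * m2))) := by
  have h1 := (j2_const A0).add hd
  have h2 := (j2_const (1 : ℝ)).add hu
  have h3 := (j2_const (1 : ℝ)).sub (hd.const_mul jk)
  have h4 := h1.mul ((j2_const (ka * nu)).sub (h2.mul h2))
  have h5 := h3.mul ((j2_const (kb * Z)).sub (h2.const_mul B0))
  have h6 := ((h4.mul hT).add (h5.mul hM)).const_mul c⁻¹
  refine (h6.congr (Eventually.of_forall fun τ => ?_)).of_eq (by ring) (by ring) (by ring)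
  ring

theorem wloop_step {k : ℕ} {p : Pre} {Φ : List ℝ → Prop}
    {t0 t1 t2 t3 t4 t5 m0 m1 m2 m3 m4 m5 y0 y1 y2 y3 y4 y5 h0 h1 h2 h3 h4 h5 A0 B0 Z nu jk al a s1 : ℝ}
    (ka kb c e : ℝ) (ea : ka = ((k * k : ℕ) : ℝ)) (eb : kb = (((k - 1) * (k - 2) : ℕ) : ℝ))
    (ec : c = (((k + 1) * (k + 2) : ℕ) : ℝ)) (ee : e = ((k + 2 : ℕ) : ℝ)) (n0 n1 n2 n3 n4 n5 : ℝ)
    (q0 : n0 = c⁻¹ * ((ka * nu - 1) * (A0 * t0) + (kb * Z - B0) * m0))
    (q1 : n1 = c⁻¹ * ((ka * nu - 1) * (A0 * t1 + t0) + ((kb * Z - B0) * m1 - jk * ((kb * Z - B0) * m0))))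
    (q2 : n2 = c⁻¹ * ((ka * nu - 1) * (A0 * t2) - 2 * (A0 * t0) + ((kb * Z - B0) * m2 - B0 * m0)))
    (q3 : n3 = c⁻¹ * ((ka * nu - 1) * (A0 * t3 + t1) + ((kb * Z - B0) * m3 - jk * ((kb * Z - B0) * m1))))
    (q4 : n4 = c⁻¹ * ((ka * nu - 1) * (A0 * t4 + t2) - 2 * (A0 * t1 + t0) +
      ((kb * Z - B0) * m4 - B0 * m1 - jk * ((kb * Z - B0) * m2 - B0 * m0))))
    (q5 : n5 = c⁻¹ * ((ka * nu - 1) * (A0 * t5) - 2 * (A0 * t2) - A0 * t0 + ((kb * Z - B0) * m5 - B0 * m2)))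
    (h : (p3Step k p).holds Φ (t0 :: t1 :: t2 :: t3 :: t4 :: t5 :: m0 :: m1 :: m2 :: m3 :: m4 :: m5 ::
      y0 :: y1 :: y2 :: y3 :: y4 :: y5 :: h0 :: h1 :: h2 :: h3 :: h4 :: h5 :: A0 :: B0 :: Z :: nu :: jk :: al :: a :: s1 :: [])) :
    p.holds Φ (n0 :: n1 :: n2 :: n3 :: n4 :: n5 :: t0 :: t1 :: t2 :: t3 :: t4 :: t5 ::
      (y0 + 1 * n0) :: (y1 + 1 * n1) :: (y2 + 1 * n2) :: (y3 + 1 * n3) :: (y4 + 1 * n4) :: (y5 + 1 * n5) ::
      (h0 + e * n0) :: (h1 + e * n1) :: (h2 + e * n2) :: (h3 + e * n3) :: (h4 + e * n4) :: (h5 + e * n5) ::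
      A0 :: B0 :: Z :: nu :: jk :: al :: a :: s1 :: []) := by
  simp only [p3Step, Pre.holds, E.val, List.getD_cons_succ, List.getD_cons_zero, List.map,
    Nat.mul_eq, Nat.add_eq, Nat.sub_eq, ← ea, ← eb, ← ec, ← ee, Nat.cast_one, Nat.cast_ofNat,
    div_one, one_div] at h
  exact h _ rfl _ rfl _ rfl _ rfl _ rfl _ rfl _ rfl _ rfl n0 q0 n1 q1 n2 q2 n3 q3 n4 q4 n5 q5
    _ (by ring) _ (by ring) _ (by ring) _ (by ring) _ (by ring) _ (by ring)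
    _ rfl _ rfl _ rfl _ rfl _ rfl _ rfl

/-- the state of the loop represents the terms and the sums of index `i` -/
def wloopI (A0 B0 Z nu jk : ℝ) (k0 i : ℕ)
    (t0 t1 t2 t3 t4 t5 m0 m1 m2 m3 m4 m5 y0 y1 y2 y3 y4 y5 h0 h1 h2 h3 h4 h5 : ℝ) : Prop :=
  ∀ (d1 d2 sg : ℝ) (d υ : ℝ → ℝ), J2 d 0 d1 d2 → J2 υ 0 sg 0 →
    wloopJ d1 d2 sg (fun τ => (tco ((A0 + d τ) * (1 + υ τ) ^ 2) (B0 * (1 + υ τ) * (1 - jk * d τ))
      (Z * (1 - jk * d τ)) (nu * (A0 + d τ)) k0 i).1) t0 t1 t2 t3 t4 t5 ∧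
    wloopJ d1 d2 sg (fun τ => (tco ((A0 + d τ) * (1 + υ τ) ^ 2) (B0 * (1 + υ τ) * (1 - jk * d τ))
      (Z * (1 - jk * d τ)) (nu * (A0 + d τ)) k0 i).2) m0 m1 m2 m3 m4 m5 ∧
    wloopJ d1 d2 sg (fun τ => ∑ n ∈ Finset.range (i + 1), (tco ((A0 + d τ) * (1 + υ τ) ^ 2) (B0 * (1 + υ τ) * (1 - jk * d τ))
      (Z * (1 - jk * d τ)) (nu * (A0 + d τ)) k0 n).1) y0 y1 y2 y3 y4 y5 ∧
    wloopJ d1 d2 sg (fun τ => ∑ n ∈ Finset.range (i + 1), ((k0 + 2 * n : ℕ) : ℝ) *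
      (tco ((A0 + d τ) * (1 + υ τ) ^ 2) (B0 * (1 + υ τ) * (1 - jk * d τ))
      (Z * (1 - jk * d τ)) (nu * (A0 + d τ)) k0 n).1) h0 h1 h2 h3 h4 h5

theorem wloop_loop {Φ : List ℝ → Prop} {A0 B0 Z nu jk al a s1 : ℝ} {k0 : ℕ} (n : ℕ) :
    ∀ (i : ℕ) (t0 t1 t2 t3 t4 t5 m0 m1 m2 m3 m4 m5 y0 y1 y2 y3 y4 y5 h0 h1 h2 h3 h4 h5 : ℝ),
      wloopI A0 B0 Z nu jk k0 i t0 t1 t2 t3 t4 t5 m0 m1 m2 m3 m4 m5 y0 y1 y2 y3 y4 y5 h0 h1 h2 h3 h4 h5 →
      (p3Loop n (k0 + 2 * i)).holds Φ (t0 :: t1 :: t2 :: t3 :: t4 :: t5 :: m0 :: m1 :: m2 :: m3 :: m4 :: m5 ::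
        y0 :: y1 :: y2 :: y3 :: y4 :: y5 :: h0 :: h1 :: h2 :: h3 :: h4 :: h5 :: A0 :: B0 :: Z :: nu :: jk :: al :: a :: s1 :: []) →
      ∃ t0 t1 t2 t3 t4 t5 m0 m1 m2 m3 m4 m5 y0 y1 y2 y3 y4 y5 h0 h1 h2 h3 h4 h5 : ℝ,
        wloopI A0 B0 Z nu jk k0 (i + n) t0 t1 t2 t3 t4 t5 m0 m1 m2 m3 m4 m5 y0 y1 y2 y3 y4 y5 h0 h1 h2 h3 h4 h5 ∧
        Φ (t0 :: t1 :: t2 :: t3 :: t4 :: t5 :: m0 :: m1 :: m2 :: m3 :: m4 :: m5 ::
          y0 :: y1 :: y2 :: y3 :: y4 :: y5 :: h0 :: h1 :: h2 :: h3 :: h4 :: h5 :: A0 :: B0 :: Z :: nu :: jk :: al :: a :: s1 :: []) := by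
  induction n with
  | zero =>
    intro i t0 t1 t2 t3 t4 t5 m0 m1 m2 m3 m4 m5 y0 y1 y2 y3 y4 y5 h0 h1 h2 h3 h4 h5 hI h
    exact ⟨_, _, _, _, _, _, _, _, _, _, _, _, _, _, _, _, _, _, _, _, _, _, _, _, hI, h⟩
  | succ n ih =>
    intro i t0 t1 t2 t3 t4 t5 m0 m1 m2 m3 m4 m5 y0 y1 y2 y3 y4 y5 h0 h1 h2 h3 h4 h5 hI h
    have h' : (p3Step (k0 + 2 * i) (p3Loop n (k0 + 2 * (i + 1)))).holds Φ _ := h
    have h2 := wloop_step _ _ _ _ rfl rfl rfl rfl _ _ _ _ _ _ rfl rfl rfl rfl rfl rfl h'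
    rw [show i + (n + 1) = i + 1 + n by ring]
    refine ih (i + 1) _ _ _ _ _ _ _ _ _ _ _ _ _ _ _ _ _ _ _ _ _ _ _ _ (fun d1 d2 sg d υ hd hu => ?_) h2
    obtain ⟨a1, a2, a3, a4⟩ := hI d1 d2 sg d υ hd hu
    have b1 := wloop_new A0 B0 Z nu jk (((k0 + 2 * i) * (k0 + 2 * i) : ℕ) : ℝ)
      (((k0 + 2 * i - 1) * (k0 + 2 * i - 2) : ℕ) : ℝ) (((k0 + 2 * i + 1) * (k0 + 2 * i + 2) : ℕ) : ℝ)
      hd hu a1 a2
    refine ⟨b1, a1, ?_, ?_⟩
    · refine J2.congr (wloop_add 1 a3 b1) (Eventually.of_forall fun τ => ?_)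
      beta_reduce
      rw [Finset.sum_range_succ _ (i + 1), one_mul]
      rfl
    · refine J2.congr (wloop_add ((k0 + 2 * i + 2 : ℕ) : ℝ) a4 b1) (Eventually.of_forall fun τ => ?_)
      beta_reduce
      rw [Finset.sum_range_succ _ (i + 1)]
      rfl

theorem p3_loop {k0 : ℕ} {p : Pre} (hk : (k0 = 0 ∧ p = p3Pre0) ∨ (k0 = 1 ∧ p = p3Pre1))
    {Φ : List ℝ → Prop} {al xx a s1 A0 B0 Z nu jk : ℝ} (h : p.holds Φ [xx, al])
    (ea : a = al ^ 2) (es : s1 = 10 - 2 * a) (eZ : Z = (10 / 999 * (xx * s1)) ^ 2)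
    (eA : A0 = s1 * a) (eB : B0 = 1 / 4 * s1 ^ 2) (n0 : 0 ≤ nu) (n1 : nu ≤ 13 / 20000000)
    (j0 : 0 ≤ jk) (j1 : jk ≤ 13 / 1000000) :
    ∃ t0 t1 t2 t3 t4 t5 m0 m1 m2 m3 m4 m5 y0 y1 y2 y3 y4 y5 h0 h1 h2 h3 h4 h5 : ℝ,
      Φ (t0 :: t1 :: t2 :: t3 :: t4 :: t5 :: m0 :: m1 :: m2 :: m3 :: m4 :: m5 :: y0 :: y1 :: y2 :: y3 :: y4 :: y5 ::
        h0 :: h1 :: h2 :: h3 :: h4 :: h5 :: A0 :: B0 :: Z :: nu :: jk :: al :: a :: s1 :: []) ∧
      ∀ (d1 d2 sg : ℝ) (d υ : ℝ → ℝ), J2 d 0 d1 d2 → J2 υ 0 sg 0 →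
        J2 (fun τ => yN ((A0 + d τ) * (1 + υ τ) ^ 2) (B0 * (1 + υ τ) * (1 - jk * d τ))
            (Z * (1 - jk * d τ)) (nu * (A0 + d τ)) k0)
          y0 (y1 * d1 + y2 * sg) (y1 * d2 + y3 * d1 ^ 2 + y4 * (d1 * sg) + y5 * sg ^ 2) ∧
        J2 (fun τ => hN ((A0 + d τ) * (1 + υ τ) ^ 2) (B0 * (1 + υ τ) * (1 - jk * d τ))
            (Z * (1 - jk * d τ)) (nu * (A0 + d τ)) k0)
          h0 (h1 * d1 + h2 * sg) (h1 * d2 + h3 * d1 ^ 2 + h4 * (d1 * sg) + h5 * sg ^ 2) := by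
  have key : (p3Loop 15 (k0 + 2 * 0)).holds Φ ((1 : ℝ) :: 0 :: 0 :: 0 :: 0 :: 0 :: 0 :: 0 :: 0 :: 0 :: 0 :: 0 ::
      1 :: 0 :: 0 :: 0 :: 0 :: 0 :: (k0 : ℝ) :: 0 :: 0 :: 0 :: 0 :: 0 ::
      A0 :: B0 :: Z :: nu :: jk :: al :: a :: s1 :: []) := by
    rcases hk with ⟨rfl, rfl⟩ | ⟨rfl, rfl⟩
    · simp only [p3Pre0, Pre.holds, E.val, List.getD_cons_succ, List.getD_cons_zero, List.map,
        Nat.cast_one, Nat.cast_ofNat, Nat.cast_zero, div_one, zero_div] at h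
      rw [Nat.cast_zero]
      exact h a ea s1 es Z eZ A0 eA B0 eB nu n0 n1 jk j0 j1 0 rfl 1 rfl
    · simp only [p3Pre1, Pre.holds, E.val, List.getD_cons_succ, List.getD_cons_zero, List.map,
        Nat.cast_one, Nat.cast_ofNat, Nat.cast_zero, div_one, zero_div] at h
      rw [Nat.cast_one]
      exact h a ea s1 es Z eZ A0 eA B0 eB nu n0 n1 jk j0 j1 0 rfl 1 rfl
  have init : wloopI A0 B0 Z nu jk k0 0 1 0 0 0 0 0 0 0 0 0 0 0 1 0 0 0 0 0 (k0 : ℝ) 0 0 0 0 0 := by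
    intro d1 d2 sg d υ _ _
    refine ⟨wloop_const d1 d2 sg 1, wloop_const d1 d2 sg 0, ?_, ?_⟩
    · refine J2.congr (wloop_const d1 d2 sg 1) (Eventually.of_forall fun τ => ?_)
      simp [tco]
    · refine J2.congr (wloop_const d1 d2 sg k0) (Eventually.of_forall fun τ => ?_)
      simp [tco]
  obtain ⟨t0, t1, t2, t3, t4, t5, m0, m1, m2, m3, m4, m5, y0, y1, y2, y3, y4, y5, h0, h1, h2, h3, h4, h5, hI, hΦ⟩ := wloop_loop 15 0 _ _ _ _ _ _ _ _ _ _ _ _ _ _ _ _ _ _ _ _ _ _ _ _ init key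
  refine ⟨t0, t1, t2, t3, t4, t5, m0, m1, m2, m3, m4, m5, y0, y1, y2, y3, y4, y5, h0, h1, h2, h3, h4, h5, hΦ, fun d1 d2 sg d υ hd hu => ?_⟩
  exact (hI d1 d2 sg d υ hd hu).2.2

end Pool.Agent.HillD
end

-- part Pool.Agent.P.MP_ae2765_an.WArg
section

/-! The argument of the Wronskian at the matching point. -/

namespace Pool.Agent.HillD
open Real Set Filter Topology Asymptotics

theorem warg_theta {N Nb : ℝ → ℂ} {x y p q : ℝ} (e0 : ℂ)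
    (hN : J2 N 1 (x + y * Complex.I) (p + q * Complex.I))
    (hB : J2 Nb 1 (x - y * Complex.I) (p - q * Complex.I)) :
    J2 (fun τ => 1 / 2 * (1 - e0 * (Nb τ * (N τ)⁻¹))) (1 / 2 * (1 - e0)) (Complex.I * y * e0)
      (e0 * (Complex.I * ((q - x * y : ℝ) : ℂ) + (y : ℂ) ^ 2)) := by
  refine (((j2_const (1 : ℂ)).sub ((hB.mul (hN.inv one_ne_zero)).const_mul e0)).const_mul
    (1 / 2)).of_eq ?_ ?_ ?_
  · simp
  · simp only [inv_one]; ring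
  · simp only [inv_one]
    push_cast
    linear_combination (-(e0 * (y : ℂ) ^ 2)) * Complex.I_sq

theorem warg_rot (x : ℂ) : x * Complex.exp (-(Complex.I * (x.arg : ℂ))) = (‖x‖ : ℝ) := by
  have h := Complex.norm_mul_exp_arg_mul_I x
  have h2 : Complex.exp (x.arg * Complex.I) * Complex.exp (-(Complex.I * (x.arg : ℂ))) = 1 := by
    rw [← Complex.exp_add, mul_comm, add_neg_cancel, Complex.exp_zero]
  calc x * Complex.exp (-(Complex.I * (x.arg : ℂ)))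
      = (‖x‖ * Complex.exp (x.arg * Complex.I)) * Complex.exp (-(Complex.I * (x.arg : ℂ))) := by
        rw [h]
    _ = (‖x‖ : ℝ) := by rw [mul_assoc, h2, mul_one]

theorem warg_bounds {e0 z0 z1 z2 g0 g1 g2 w : ℂ} {l b : ℝ} (he : ‖e0‖ = 1)
    (b0 : ‖z0‖ ≤ b) (b1 : ‖z1‖ ≤ 4 * b) (b2 : ‖z2‖ ≤ 16 * b) (hb : b ≤ 9 / 100)
    (h0 : g0 = 1 / 2 * (1 - e0) * z0)
    (h1 : g1 = 1 / 2 * (1 - e0) * z1 + Complex.I * l * e0 * z0)
    (h2 : g2 = 1 / 2 * (1 - e0) * z2 + Complex.I * l * e0 * z1 + e0 * (l : ℂ) ^ 2 * z0)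
    (hw : w = (1 + g0)⁻¹) :
    ‖g0‖ < 1 ∧ ‖g1 * w - 1 / 2 * z1‖ ≤ eA1 b l ∧ ‖e0 * z0 * w‖ ≤ 11 / 10 * b ∧
      ‖g2 * w - g1 ^ 2 * w ^ 2 / 2 - 1 / 2 * z2‖ ≤ eA2 b l := by
  have hb0 : 0 ≤ b := (norm_nonneg _).trans b0
  obtain ⟨L, hL⟩ : ∃ L : ℝ, L = (l ^ 2 + 1) / 2 := ⟨_, rfl⟩
  have hl : |l| ≤ L := by
    rw [hL, ← sq_abs l]; nlinarith [sq_nonneg (|l| - 1)]
  have hL0 : 0 ≤ L := (abs_nonneg l).trans hl
  have ht : ‖(1 / 2 * (1 - e0) : ℂ)‖ ≤ 1 := by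
    rw [norm_mul]
    have := norm_sub_le (1 : ℂ) e0
    rw [he, norm_one] at this
    have h3 : ‖(1 / 2 : ℂ)‖ = 1 / 2 := by simp
    rw [h3]; linarith
  have htz : ∀ z : ℂ, ‖1 / 2 * (1 - e0) * z‖ ≤ ‖z‖ := fun z => by
    rw [norm_mul]; exact mul_le_of_le_one_left (norm_nonneg _) ht
  have hez : ∀ z : ℂ, ‖-(1 / 2 * e0 * z)‖ = ‖z‖ / 2 := fun z => by
    rw [norm_neg, norm_mul, norm_mul, he]; simp; ring
  have hlz : ∀ z : ℂ, ‖Complex.I * l * e0 * z‖ ≤ L * ‖z‖ := fun z => by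
    rw [norm_mul, norm_mul, norm_mul, he, Complex.norm_I, Complex.norm_real, Real.norm_eq_abs,
      one_mul, mul_one]
    exact mul_le_mul_of_nonneg_right hl (norm_nonneg _)
  have hqz : ‖e0 * (l : ℂ) ^ 2 * z0‖ ≤ l ^ 2 * b := by
    rw [norm_mul, norm_mul, he, norm_pow, Complex.norm_real, Real.norm_eq_abs, sq_abs, one_mul]
    exact mul_le_mul_of_nonneg_left b0 (sq_nonneg _)
  have hl0 : L * ‖z0‖ ≤ L * b := mul_le_mul_of_nonneg_left b0 hL0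
  have hl1 : L * ‖z1‖ ≤ L * (4 * b) := mul_le_mul_of_nonneg_left b1 hL0
  have n0 : ‖g0‖ ≤ b := by rw [h0]; exact (htz z0).trans b0
  have n1 : ‖g1‖ ≤ b * (4 + L) := by
    rw [h1]
    refine (norm_add_le _ _).trans ?_
    linarith [htz z1, hlz z0]
  have n2 : ‖g2‖ ≤ b * (16 + 4 * L + l ^ 2) := by
    rw [h2]
    refine (norm_add₃_le).trans ?_
    linarith [htz z2, hlz z1]
  have m1 : ‖g1 - 1 / 2 * z1‖ ≤ b * (2 + L) := by
    have : g1 - 1 / 2 * z1 = -(1 / 2 * e0 * z1) + Complex.I * l * e0 * z0 := by rw [h1]; ring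
    rw [this]
    refine (norm_add_le _ _).trans ?_
    linarith [hez z1, hlz z0]
  have m2 : ‖g2 - 1 / 2 * z2‖ ≤ b * (8 + 4 * L + l ^ 2) := by
    have : g2 - 1 / 2 * z2
        = -(1 / 2 * e0 * z2) + Complex.I * l * e0 * z1 + e0 * (l : ℂ) ^ 2 * z0 := by
      rw [h2]; ring
    rw [this]
    refine (norm_add₃_le).trans ?_
    linarith [hez z2, hlz z1]
  have d0 : 91 / 100 ≤ ‖1 + g0‖ := by
    have := norm_sub_le (1 + g0) g0
    rw [add_sub_cancel_right, norm_one] at this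
    linarith
  have dne : 1 + g0 ≠ 0 := by
    intro h; rw [h, norm_zero] at d0; norm_num at d0
  have nw : ‖w‖ ≤ 100 / 91 := by
    rw [hw, norm_inv]
    exact (inv_anti₀ (by norm_num) d0).trans (by norm_num)
  have nw0 := norm_nonneg w
  have hw1 : w = 1 - g0 * w := by
    have : (1 + g0) * w = 1 := by rw [hw]; exact mul_inv_cancel₀ dne
    linear_combination this
  have n0w : ‖g0 * w‖ ≤ 11 / 10 * b := by
    rw [norm_mul]
    calc ‖g0‖ * ‖w‖ ≤ b * (100 / 91) := mul_le_mul n0 nw nw0 hb0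
      _ ≤ 11 / 10 * b := by linarith
  refine ⟨by linarith, ?_, ?_, ?_⟩
  · have e : g1 * w - 1 / 2 * z1 = (g1 - 1 / 2 * z1) - g1 * (g0 * w) := by
      linear_combination g1 * hw1
    rw [e]
    refine (norm_sub_le _ _).trans ?_
    have : ‖g1 * (g0 * w)‖ ≤ b * (4 + L) * (11 / 10 * b) := by
      rw [norm_mul]
      exact mul_le_mul n1 n0w (norm_nonneg _) (by positivity)
    unfold eA1
    rw [← hL]
    linarith
  · rw [norm_mul, norm_mul, he, one_mul]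
    calc ‖z0‖ * ‖w‖ ≤ b * (100 / 91) := mul_le_mul b0 nw nw0 hb0
      _ ≤ 11 / 10 * b := by linarith
  · have e : g2 * w - g1 ^ 2 * w ^ 2 / 2 - 1 / 2 * z2
        = (g2 - 1 / 2 * z2) - g2 * (g0 * w) - g1 ^ 2 * w ^ 2 / 2 := by
      linear_combination g2 * hw1
    rw [e]
    refine (norm_sub_le _ _).trans ?_
    have t0 := norm_sub_le (g2 - 1 / 2 * z2) (g2 * (g0 * w))
    have t1 : ‖g2 * (g0 * w)‖ ≤ b * (16 + 4 * L + l ^ 2) * (11 / 10 * b) := by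
      rw [norm_mul]
      exact mul_le_mul n2 n0w (norm_nonneg _) (by positivity)
    have t2 : ‖g1 ^ 2 * w ^ 2 / 2‖ ≤ (b * (4 + L)) ^ 2 * (61 / 100) := by
      rw [norm_div, norm_mul, norm_pow, norm_pow, mul_div_assoc]
      refine mul_le_mul (pow_le_pow_left₀ (norm_nonneg _) n1 2) ?_ (by positivity)
        (by positivity)
      have : ‖w‖ ^ 2 ≤ (100 / 91) ^ 2 := pow_le_pow_left₀ nw0 nw 2
      have h3 : ‖(2 : ℂ)‖ = 2 := by simp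
      rw [h3]
      linarith
    unfold eA2
    rw [← hL]
    linarith

theorem arg_jet {mr mi : ℝ → ℝ} {Mr Mi : T3} {z : ℝ → ℂ} {z0 z1 z2 : ℂ} {b : ℝ}
    (hr : JT mr Mr) (hi : JT mi Mi) (hn : 0 < nrm0 Mr Mi) (hz : J2 z z0 z1 z2)
    (b0 : ‖z0‖ ≤ b) (b1 : ‖z1‖ ≤ 4 * b) (b2 : ‖z2‖ ≤ 16 * b) (hb : b ≤ 9 / 100) :
    ∃ (θ : ℝ → ℝ) (c0 e1 e2 dl : ℝ), 0 ≤ dl ∧ dl ≤ 2 ∧ |e1| ≤ eA1 b (l1i Mr Mi) ∧
      |e2| ≤ eA2 b (l1i Mr Mi) ∧
      J2 θ c0 (l1i Mr Mi + e1) (l2i Mr Mi * (1 + 11 / 10 * ((dl - 1) * b)) + e2) ∧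
      ∀ᶠ τ in 𝓝 (0 : ℝ), (((mr τ : ℂ) + Complex.I * mi τ * (1 + z τ)) *
        Complex.exp (-(Complex.I * ((θ τ + (z τ).im / 2 : ℝ) : ℂ)))).im = 0 := by
  obtain ⟨a0, a1, a2⟩ := Mr
  obtain ⟨c0, c1, c2⟩ := Mi
  have hb0 : 0 ≤ b := (norm_nonneg _).trans b0
  obtain ⟨n, hn'⟩ : ∃ n : ℝ, n = nrm0 (a0, a1, a2) (c0, c1, c2) := ⟨_, rfl⟩
  have hnn : (n : ℂ) = (a0 : ℂ) ^ 2 + (c0 : ℂ) ^ 2 := by
    rw [hn']; unfold nrm0; push_cast; rfl
  have hn0 : (n : ℂ) ≠ 0 := by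
    rw [hn']; exact Complex.ofReal_ne_zero.2 hn.ne'
  obtain ⟨x, hx⟩ : ∃ x : ℝ, x = (a1 * a0 + c1 * c0) * n⁻¹ := ⟨_, rfl⟩
  obtain ⟨y, hy⟩ : ∃ y : ℝ, y = (c1 * a0 - a1 * c0) * n⁻¹ := ⟨_, rfl⟩
  obtain ⟨p, hp⟩ : ∃ p : ℝ, p = (a2 * a0 + c2 * c0) * n⁻¹ := ⟨_, rfl⟩
  obtain ⟨q, hq⟩ : ∃ q : ℝ, q = (c2 * a0 - a2 * c0) * n⁻¹ := ⟨_, rfl⟩
  have hl1 : l1i (a0, a1, a2) (c0, c1, c2) = y := by rw [hy, hn']; rfl
  have hl2 : l2i (a0, a1, a2) (c0, c1, c2) = q - x * y := by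
    rw [hq, hx, ← hl1, hn']; rfl
  rw [hl1, hl2]
  have hr' : J2 (fun τ => (mr τ : ℂ)) (a0 : ℂ) (a1 : ℂ) (a2 : ℂ) := J2.ofReal hr
  have hi' : J2 (fun τ => (mi τ : ℂ)) (c0 : ℂ) (c1 : ℂ) (c2 : ℂ) := J2.ofReal hi
  have hni : (n : ℂ) * (n : ℂ)⁻¹ = 1 := mul_inv_cancel₀ hn0
  have hN : J2 (fun τ => ((a0 : ℂ) - Complex.I * c0) * (n : ℂ)⁻¹ * (mr τ + Complex.I * mi τ)) 1
      (x + y * Complex.I) (p + q * Complex.I) := by
    refine ((hr'.add (hi'.const_mul Complex.I)).const_mul _).of_eq ?_ ?_ ?_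
    · linear_combination hni - (n : ℂ)⁻¹ * hnn - (c0 : ℂ) ^ 2 * (n : ℂ)⁻¹ * Complex.I_sq
    · rw [hx, hy]; push_cast
      linear_combination (-((c0 : ℂ) * c1 * (n : ℂ)⁻¹)) * Complex.I_sq
    · rw [hp, hq]; push_cast
      linear_combination (-((c0 : ℂ) * c2 * (n : ℂ)⁻¹)) * Complex.I_sq
  have hB : J2 (fun τ => ((a0 : ℂ) + Complex.I * c0) * (n : ℂ)⁻¹ * (mr τ - Complex.I * mi τ)) 1
      (x - y * Complex.I) (p - q * Complex.I) := by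
    refine ((hr'.sub (hi'.const_mul Complex.I)).const_mul _).of_eq ?_ ?_ ?_
    · linear_combination hni - (n : ℂ)⁻¹ * hnn - (c0 : ℂ) ^ 2 * (n : ℂ)⁻¹ * Complex.I_sq
    · rw [hx, hy]; push_cast
      linear_combination (-((c0 : ℂ) * c1 * (n : ℂ)⁻¹)) * Complex.I_sq
    · rw [hp, hq]; push_cast
      linear_combination (-((c0 : ℂ) * c2 * (n : ℂ)⁻¹)) * Complex.I_sq
  obtain ⟨N, hNd⟩ : ∃ N : ℝ → ℂ,
    N = fun τ => ((a0 : ℂ) - Complex.I * c0) * (n : ℂ)⁻¹ * (mr τ + Complex.I * mi τ) := ⟨_, rfl⟩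
  obtain ⟨Nb, hBd⟩ : ∃ Nb : ℝ → ℂ,
    Nb = fun τ => ((a0 : ℂ) + Complex.I * c0) * (n : ℂ)⁻¹ * (mr τ - Complex.I * mi τ) := ⟨_, rfl⟩
  rw [← hNd] at hN
  rw [← hBd] at hB
  obtain ⟨e0, he0⟩ : ∃ e0 : ℂ, e0 = ((a0 : ℂ) - Complex.I * c0) ^ 2 * (n : ℂ)⁻¹ := ⟨_, rfl⟩
  have he : ‖e0‖ = 1 := by
    have h1 : ‖(a0 : ℂ) - Complex.I * c0‖ ^ 2 = n := by
      rw [Complex.sq_norm, Complex.normSq_apply, hn']
      simp [nrm0]; ring
    rw [he0, norm_mul, norm_pow, h1, norm_inv, Complex.norm_real, Real.norm_eq_abs,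
      abs_of_pos (hn' ▸ hn), mul_inv_cancel₀ (hn' ▸ hn.ne')]
  have hg := (j2_const (1 : ℂ)).add ((warg_theta e0 hN hB).mul hz)
  obtain ⟨k0, k1, k2, k3⟩ := warg_bounds (l := y) he b0 b1 b2 hb rfl rfl rfl rfl
  have hlg := (hg.clog (Complex.mem_slitPlane_of_norm_lt_one k0)).im
  have hlN := (hN.clog Complex.one_mem_slitPlane).im
  have hθ := (((j2_const ((a0 : ℂ) + Complex.I * c0).arg).add hlN).add hlg).sub
    (hz.im.const_mul (1 / 2))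
  obtain ⟨w, hw⟩ : ∃ w : ℂ, w = (1 + 1 / 2 * (1 - e0) * z0)⁻¹ := ⟨_, rfl⟩
  rw [← hw] at k1 k2 k3
  have kr : |(e0 * z0 * w).re| ≤ 11 / 10 * b := (Complex.abs_re_le_norm _).trans k2
  obtain ⟨dl, d0, d2, hdl⟩ : ∃ dl : ℝ, 0 ≤ dl ∧ dl ≤ 2 ∧
      11 / 10 * ((dl - 1) * b) = (e0 * z0 * w).re := by
    obtain ⟨kl, ku⟩ := abs_le.1 kr
    rcases hb0.eq_or_lt with h | h
    · exact ⟨1, by norm_num, by norm_num, by subst h; linarith⟩
    · have h' : 0 < 11 / 10 * b := by linarith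
      refine ⟨1 + (e0 * z0 * w).re / (11 / 10 * b), ?_, ?_, ?_⟩
      · have := (le_div_iff₀ h').2 (show -1 * (11 / 10 * b) ≤ (e0 * z0 * w).re by linarith)
        linarith
      · have := (div_le_iff₀ h').2 (show (e0 * z0 * w).re ≤ 1 * (11 / 10 * b) by linarith)
        linarith
      · field_simp
        ring
  refine ⟨_, _, _, _, dl, d0, d2, (Complex.abs_im_le_norm _).trans k1,
    (Complex.abs_im_le_norm _).trans k3, hθ.of_eq rfl ?_ ?_, ?_⟩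
  · rw [div_eq_mul_inv _ (1 + 1 / 2 * (1 - e0) * z0), ← hw, zero_add, zero_add, Complex.sub_im,
      div_one]
    simp
    ring
  · have e : (0 + (1 / 2 * (1 - e0) * z2 + Complex.I * y * e0 * z1 +
          e0 * (Complex.I * ((q - x * y : ℝ) : ℂ) + (y : ℂ) ^ 2) * z0)) /
            (1 + 1 / 2 * (1 - e0) * z0) -
          (0 + (1 / 2 * (1 - e0) * z1 + Complex.I * y * e0 * z0)) ^ 2 /
            (2 * (1 + 1 / 2 * (1 - e0) * z0) ^ 2)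
        = ((1 / 2 * (1 - e0) * z2 + Complex.I * y * e0 * z1 + e0 * (y : ℂ) ^ 2 * z0) * w -
          (1 / 2 * (1 - e0) * z1 + Complex.I * y * e0 * z0) ^ 2 * w ^ 2 / 2 - 1 / 2 * z2)
          + (((q - x * y : ℝ) : ℂ) * ((e0 * z0 * w) * Complex.I) + ((1 / 2 : ℝ) : ℂ) * z2) := by
      rw [div_eq_mul_inv, div_eq_mul_inv _ (2 * _), mul_inv, ← inv_pow, ← hw]
      push_cast
      ring
    have e' : ((p + q * Complex.I) / 1 - (x + y * Complex.I) ^ 2 / (2 * 1 ^ 2) : ℂ).im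
        = q - x * y := by
      simp [sq]
      ring
    rw [e, e', hdl, Complex.add_im, Complex.add_im, Complex.im_ofReal_mul, Complex.im_ofReal_mul,
      Complex.mul_I_im]
    ring
  · have hne : ∀ᶠ τ in 𝓝 (0 : ℝ), N τ ≠ 0 :=
      hN.cont.eventually_ne (by rw [hN.val]; exact one_ne_zero)
    filter_upwards [hne] with τ hτ
    have hNi : N τ * (N τ)⁻¹ = 1 := mul_inv_cancel₀ hτ
    have hW : (mr τ : ℂ) + Complex.I * mi τ * (1 + z τ)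
        = ((a0 : ℂ) + Complex.I * c0) * N τ *
          (1 + 1 / 2 * (1 - e0 * (Nb τ * (N τ)⁻¹)) * z τ) := by
      have u1 : ((a0 : ℂ) + Complex.I * c0) * N τ = mr τ + Complex.I * mi τ := by
        rw [hNd]
        linear_combination (mr τ + Complex.I * mi τ) *
          (hni - (n : ℂ)⁻¹ * hnn - (c0 : ℂ) ^ 2 * (n : ℂ)⁻¹ * Complex.I_sq)
      have u0 : ((a0 : ℂ) + Complex.I * c0) * ((a0 : ℂ) - Complex.I * c0) * (n : ℂ)⁻¹ = 1 := by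
        linear_combination hni - (n : ℂ)⁻¹ * hnn - (c0 : ℂ) ^ 2 * (n : ℂ)⁻¹ * Complex.I_sq
      have u2 : ((a0 : ℂ) + Complex.I * c0) * (e0 * Nb τ) = mr τ - Complex.I * mi τ := by
        rw [hBd, he0]
        linear_combination (mr τ - Complex.I * mi τ) *
          (((a0 : ℂ) + Complex.I * c0) * ((a0 : ℂ) - Complex.I * c0) * (n : ℂ)⁻¹ + 1) * u0
      linear_combination (-(1 + 1 / 2 * z τ)) * u1 + 1 / 2 * z τ * u2
        + 1 / 2 * z τ * ((a0 : ℂ) + Complex.I * c0) * (e0 * Nb τ) * hNi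
    obtain ⟨G, hG⟩ : ∃ G : ℂ, G = 1 + 1 / 2 * (1 - e0 * (Nb τ * (N τ)⁻¹)) * z τ := ⟨_, rfl⟩
    rw [hW, ← hG, Complex.log_im, Complex.log_im]
    have e : -(Complex.I * ((((a0 : ℂ) + Complex.I * c0).arg + (N τ).arg + G.arg
        - 1 / 2 * (z τ).im + (z τ).im / 2 : ℝ) : ℂ))
        = -(Complex.I * (((a0 : ℂ) + Complex.I * c0).arg : ℂ)) + -(Complex.I * ((N τ).arg : ℂ))
          + -(Complex.I * (G.arg : ℂ)) := by
      push_cast; ring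
    rw [e, Complex.exp_add, Complex.exp_add, mul_mul_mul_comm, mul_mul_mul_comm _ (N τ),
      warg_rot, warg_rot, warg_rot, ← Complex.ofReal_mul, ← Complex.ofReal_mul, Complex.ofReal_im]

end Pool.Agent.HillD
end
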