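import Pool.Agent.K.MP_ae2765_an.C15
import Pool.Agent.K.MP_ae2765_an.C18
import Pool.Agent.K.MP_ae2765_an.C19
import Pool.Agent.K.MP_ae2765_an.C14

-- part Pool.Agent.P.MP_ae2765_an.WMain2
section

/-! The two-jet of the main term along a curve tangent to second order. -/

namespace Pool.Agent.HillD
open Real Set Filter Topology Asymptotics

theorem wmain2_jj (x y : ℝ) : |jj x - jj y| ≤ |x - y| := by
  have hx : 0 < x ^ 2 + 2 := by positivity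
  have hy : 0 < y ^ 2 + 2 := by positivity
  have e : jj x - jj y = (x - y) * (-(x + y) / ((x ^ 2 + 2) * (y ^ 2 + 2))) := by
    unfold jj
    field_simp
    ring
  rw [e, abs_mul]
  refine mul_le_of_le_one_right (abs_nonneg _) ?_
  rw [abs_div, abs_of_pos (mul_pos hx hy), div_le_one (mul_pos hx hy), abs_le]
  constructor <;>
    nlinarith [sq_nonneg (x - 1), sq_nonneg (x + 1), sq_nonneg (y - 1), sq_nonneg (y + 1),
      mul_nonneg (sq_nonneg x) (sq_nonneg y)]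

theorem wmain2_qr {ω j j' : ℝ} (hω : 0 < ω) (hj : 0 < j) (hj2 : j < 1 / 2) (hj' : 0 < j')
    (hj2' : j' < 1 / 2) (φ : ℝ) :
    |qr ω j φ - qr ω j' φ| ≤ (4 * ω + 4) / √j * |j - j'| := by
  have hX0 : 0 ≤ cos φ ^ 2 := sq_nonneg _
  have hX1 : cos φ ^ 2 ≤ 1 := cos_sq_le_one φ
  unfold qr Pr Qr
  generalize cos φ ^ 2 = X at hX0 hX1
  have k0 : 0 ≤ (1 - 2 * j) * X := mul_nonneg (by linarith) hX0
  have k1 : (1 - 2 * j) * X ≤ 1 := by nlinarith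
  have k0' : 0 ≤ (1 - 2 * j') * X := mul_nonneg (by linarith) hX0
  have hQ : 0 < 1 + (1 - 2 * j) * X := by linarith
  have hQ' : 0 < 1 + (1 - 2 * j') * X := by linarith
  have hωj := mul_pos hω hj
  have hωj' := mul_pos hω hj'
  set u := 2 * ω * (ω * j + (1 - 2 * j) * X) / (1 + (1 - 2 * j) * X) with hu
  set v := 2 * ω * (ω * j' + (1 - 2 * j') * X) / (1 + (1 - 2 * j') * X) with hv
  have hv0 : 0 ≤ v := by positivity
  have hu1 : ω ^ 2 * j ≤ u := by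
    rw [hu, le_div_iff₀ hQ]
    have h1 : ω ^ 2 * j * (1 + (1 - 2 * j) * X) ≤ ω ^ 2 * j * 2 :=
      mul_le_mul_of_nonneg_left (by linarith) (by positivity)
    nlinarith [mul_nonneg hω.le k0]
  have hu0 : 0 ≤ u := le_trans (by positivity) hu1
  have hs : ω * √j ≤ √u := by
    have := Real.sqrt_le_sqrt hu1
    rwa [Real.sqrt_mul (sq_nonneg ω), Real.sqrt_sq hω.le] at this
  have hsj : 0 < √j := Real.sqrt_pos.2 hj
  have e : u - v = (j - j') * (2 * ω * (ω - 2 * X + ω * X) /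
      ((1 + (1 - 2 * j) * X) * (1 + (1 - 2 * j') * X))) := by
    rw [hu, hv, div_sub_div _ _ hQ.ne' hQ'.ne', ← mul_div_assoc]
    congr 1
    ring
  have h1 : |u - v| ≤ |j - j'| * (ω * (4 * ω + 4)) := by
    rw [e, abs_mul]
    refine mul_le_mul_of_nonneg_left ?_ (abs_nonneg _)
    rw [abs_div, abs_of_pos (mul_pos hQ hQ'), div_le_iff₀ (mul_pos hQ hQ')]
    have h2 : |2 * ω * (ω - 2 * X + ω * X)| ≤ ω * (4 * ω + 4) := by
      have a1 : 0 ≤ ω * X := mul_nonneg hω.le hX0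
      have a2 : ω * X ≤ ω := by nlinarith
      rw [abs_le]
      constructor <;> nlinarith
    have h3 : 1 ≤ (1 + (1 - 2 * j) * X) * (1 + (1 - 2 * j') * X) := by nlinarith
    exact h2.trans (le_mul_of_one_le_right (by positivity) h3)
  have h2 : |√u - √v| * (√u + √v) = |u - v| := by
    have a : 0 ≤ √u + √v := by positivity
    rw [← abs_of_nonneg a, ← abs_mul]
    congr 1
    have b1 := Real.mul_self_sqrt hu0
    have b2 := Real.mul_self_sqrt hv0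
    linear_combination b1 - b2
  have h3 : |√u - √v| * (ω * √j) ≤ |j - j'| * (ω * (4 * ω + 4)) := by
    refine le_trans ?_ (h2.le.trans h1)
    exact mul_le_mul_of_nonneg_left (by linarith [Real.sqrt_nonneg v]) (abs_nonneg _)
  rw [div_mul_eq_mul_div, le_div_iff₀ hsj]
  have h4 : ω * (|√u - √v| * √j) ≤ ω * ((4 * ω + 4) * |j - j'|) := by linarith
  exact le_of_mul_le_mul_left h4 hω

theorem wmain2_Mn {ω j j' : ℝ} (hω : 0 < ω) (hj : 0 < j) (hj2 : j < 1 / 2) (hj' : 0 < j')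
    (hj2' : j' < 1 / 2) (φ1 : ℝ) :
    ‖Mn φ1 ω j - Mn φ1 ω j'‖ ≤ (4 * ω + 4) / √j * |j - j'| * |φ1| := by
  unfold Mn
  rw [← intervalIntegral.integral_sub ((qr_cont hω hj hj2).1.intervalIntegrable _ _)
    ((qr_cont hω hj' hj2').1.intervalIntegrable _ _)]
  have := intervalIntegral.norm_integral_le_of_norm_le_const (a := 0) (b := φ1)
    (f := fun φ => qr ω j φ - qr ω j' φ) (C := (4 * ω + 4) / √j * |j - j'|)
    fun φ _ => wmain2_qr hω hj hj2 hj' hj2' φ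
  rwa [sub_zero] at this

theorem main_jet2 {δ0 ω0 φ1 lam : ℝ} {δ : ℝ → ℝ} (hδ : 0 < δ0) (hω : 0 < ω0) (s : ℝ)
    (hJ : J2 δ δ0 (δ0 * lam) 0) :
    J2 (fun τ => Mn φ1 (ω0 * (1 + s * lam * τ)) (jj (δ τ))) (Mn φ1 ω0 (jj δ0))
      (lam * F1 φ1 ω0 (jj δ0) s) (lam ^ 2 * F2 φ1 ω0 (jj δ0) s) := by
  have h1 := ((main_jet3 (φ1 := φ1) hδ hω s).j2.scale lam).of_eq rfl (mul_comm _ _) (mul_comm _ _)
  refine J2.of_sub h1 ?_
  have c1 : ContinuousAt (fun τ : ℝ => δ0 * (1 + lam * τ)) 0 := by fun_prop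
  have c2 : ContinuousAt (fun τ : ℝ => ω0 * (1 + s * lam * τ)) 0 := by fun_prop
  have e1 : ∀ᶠ τ : ℝ in 𝓝 0, 0 < δ0 * (1 + lam * τ) :=
    c1.eventually (lt_mem_nhds (by simpa using hδ))
  have e2 : ∀ᶠ τ : ℝ in 𝓝 0, 0 < ω0 * (1 + s * lam * τ) :=
    c2.eventually (lt_mem_nhds (by simpa using hω))
  have e3 : ∀ᶠ τ : ℝ in 𝓝 0, 0 < δ τ :=
    hJ.cont.eventually (lt_mem_nhds (by rw [hJ.val]; exact hδ))
  have c3 : ContinuousAt (fun τ : ℝ =>
      (4 * (ω0 * (1 + s * lam * τ)) + 4) / √(jj (δ0 * (1 + lam * τ))) * |φ1|) 0 := by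
    refine ContinuousAt.mul (ContinuousAt.div (by fun_prop) ?_ ?_) continuousAt_const
    · refine Real.continuous_sqrt.continuousAt.comp ?_
      unfold jj
      exact ContinuousAt.div continuousAt_const (by fun_prop) (by positivity)
    · refine (Real.sqrt_pos.2 ?_).ne'
      unfold jj
      positivity
  have b1 := c3.tendsto.isBigO_one ℝ
  have b2 : (fun τ : ℝ => δ τ - δ0 * (1 + lam * τ)) =O[𝓝 0] fun τ : ℝ => τ ^ 3 := by
    refine IsBigO.congr_left hJ fun τ => ?_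
    simp only [RCLike.ofReal_real_eq_id, id]
    ring
  have b3 := (b1.mul b2).congr_right fun τ => one_mul _
  refine IsBigO.trans (IsBigO.of_bound 1 ?_) b3
  filter_upwards [e1, e2, e3] with τ a1 a2 a3
  have h2 := wmain2_Mn a2 (jj_bd a1).1 (jj_bd a1).2 (jj_bd a3).1 (jj_bd a3).2 φ1
  have h3 := wmain2_jj (δ0 * (1 + lam * τ)) (δ τ)
  have h4 : 0 ≤ (4 * (ω0 * (1 + s * lam * τ)) + 4) / √(jj (δ0 * (1 + lam * τ))) := by positivity
  have e : s * (lam * τ) = s * lam * τ := by ring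
  rw [e, norm_sub_rev, one_mul, norm_mul, Real.norm_eq_abs (δ τ - _), abs_sub_comm (δ τ),
    Real.norm_of_nonneg (mul_nonneg h4 (abs_nonneg _))]
  refine h2.trans ?_
  rw [mul_right_comm]
  exact mul_le_mul_of_nonneg_left h3 (mul_nonneg h4 (abs_nonneg _))

/-- the curve in `δ` that belongs to the quadratic curve in `j` -/
theorem cJ_curve {δ0 : ℝ} (hδ : 0 < δ0) (lam : ℝ) : ∃ δ : ℝ → ℝ, J2 δ δ0 (δ0 * lam) 0 ∧
    ∀ᶠ τ : ℝ in 𝓝 0, 0 < δ τ ∧ cJ (jj δ0) lam τ = (jj (δ τ) : ℝ) := by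
  obtain ⟨hj, hj2⟩ := jj_bd hδ
  have hD : 0 < δ0 ^ 2 + 2 := by positivity
  set p : ℝ → ℝ := fun τ => jj δ0 + -(2 * (1 - 2 * jj δ0) * lam * jj δ0) * τ +
    (4 * (1 - 2 * jj δ0) ^ 2 - (1 - 2 * jj δ0)) * lam ^ 2 * jj δ0 * τ ^ 2 with hp
  have h1 : J2 p (jj δ0) (-(2 * (1 - 2 * jj δ0) * lam * jj δ0))
      ((4 * (1 - 2 * jj δ0) ^ 2 - (1 - 2 * jj δ0)) * lam ^ 2 * jj δ0) := j2_poly _ _ _
  have h2 : J2 (fun τ => (p τ)⁻¹ - 2) (δ0 ^ 2) (2 * δ0 ^ 2 * lam) (δ0 ^ 2 * lam ^ 2) := by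
    refine ((h1.inv hj.ne').sub (j2_const 2)).of_eq ?_ ?_ ?_
    · unfold jj; field_simp; ring
    · unfold jj; field_simp; ring
    · unfold jj; field_simp; ring
  have h3 : JT (fun τ => (p τ)⁻¹ - 2) (δ0 ^ 2, 2 * δ0 ^ 2 * lam, δ0 ^ 2 * lam ^ 2) := h2
  have h4 : J2 _ _ _ _ := h3.sqrt (by positivity)
  refine ⟨fun τ => √((p τ)⁻¹ - 2), h4.of_eq ?_ ?_ ?_, ?_⟩
  · simp only [jsqrt, Real.sqrt_sq hδ.le]
  · simp only [jsqrt, Real.sqrt_sq hδ.le]; field_simp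
  · simp only [jsqrt, Real.sqrt_sq hδ.le]; field_simp; ring
  · have e1 : ∀ᶠ τ : ℝ in 𝓝 0, 0 < (p τ)⁻¹ - 2 :=
      h2.cont.eventually (lt_mem_nhds (lt_of_lt_of_eq (by positivity) h2.val.symm))
    filter_upwards [e1] with τ a1
    refine ⟨Real.sqrt_pos.2 a1, ?_⟩
    have e : jj √((p τ)⁻¹ - 2) = p τ := by
      unfold jj
      rw [Real.sq_sqrt a1.le, sub_add_cancel, one_div, inv_inv]
    rw [e, hp]
    unfold cJ
    push_cast
    ring

end Pool.Agent.HillD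
end

-- part Pool.Agent.P.MP_ae2765_an.WP3
section

/-! Third region: the criterion holds. -/

namespace Pool.Agent.HillD
open Real Set Filter Topology Asymptotics Pool.Agent.HillD.Num Pool.Agent.P.MP_4c4e6e_co.Eng

theorem wp3_angle {x : ℝ} (h0 : 0 < x) (h1 : x ≤ 1 / 2) :
    ∃ φ : ℝ, π / 4 ≤ φ ∧ φ < π / 2 ∧ cos φ ^ 2 = x := by
  have s0 : 0 < √x := sqrt_pos.2 h0
  have s1 : √x ≤ √2 / 2 := by
    rw [sqrt_le_left (by positivity), div_pow, sq_sqrt (by norm_num)]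
    linarith
  have s2 : √x ≤ 1 := sqrt_le_one.2 (by linarith)
  refine ⟨arccos √x, ?_, arccos_lt_pi_div_two.2 s0, ?_⟩
  · have := arccos_le_arccos s1
    rwa [← cos_pi_div_four, arccos_cos (by positivity) (by linarith [pi_pos])] at this
  · rw [cos_arccos (by linarith) s2, sq_sqrt h0.le]

theorem wp3_chi {al s : ℝ} (hal : 0 < al) (hs0 : 0 ≤ s) : ∃ χ sg : ℝ, 0 ≤ χ ∧ χ ≤ 1 ∧ 0 ≤ sg ∧
    sg ≤ 3 / 5 ∧ sg = s * (χ / al) ∧ (χ = 1 ∨ sg = 3 / 5) := by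
  rcases le_or_gt s (3 / 5 * al) with h | h
  · refine ⟨1, s * (1 / al), zero_le_one, le_rfl, by positivity, ?_, rfl, Or.inl rfl⟩
    rw [mul_one_div, div_le_iff₀ hal]
    exact h
  · have hs : 0 < s := lt_of_le_of_lt (by positivity) h
    refine ⟨3 / 5 * al / s, 3 / 5, by positivity, (div_le_one hs).2 h.le, by norm_num, le_rfl, ?_,
      Or.inr rfl⟩
    field_simp

theorem wp3_pre (typ : Bool) {al xx χ sg : ℝ} (h0 : 0 ≤ al) (h1 : al ≤ 3953 / 2500) (h2 : 0 ≤ xx)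
    (h3 : xx ≤ 1) (hχ0 : 0 ≤ χ) (hχ1 : χ ≤ 1) (hs0 : 0 ≤ sg) (hs1 : sg ≤ 3 / 5)
    (hc : χ = 1 ∨ sg = 3 / 5) : ∃ p : Pre,
      (((if typ then 1 else 0 : ℕ) = 0 ∧ p = p3Pre0) ∨ ((if typ then 1 else 0 : ℕ) = 1 ∧ p = p3Pre1)) ∧
      p.holds (fun r => (χ = 1 ∧ 0 ≤ sg ∧ pPA.holds (sg :: r)) ∨
        (sg = 3 / 5 ∧ pPB.holds (χ :: r))) [xx, al] := by
  have a := P0_real al xx h0 h1 h2 h3
  have b := P1_real al xx h0 h1 h2 h3
  cases typ
  · refine ⟨p3Pre0, Or.inl ⟨rfl, rfl⟩, ?_⟩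
    rcases hc with hc | hc
    · exact Pre.holds_mono (fun r hr => Or.inl ⟨hc, hs0, hr⟩) _ _ (a.1 sg hs0 hs1)
    · exact Pre.holds_mono (fun r hr => Or.inr ⟨hc, hr⟩) _ _ (a.2 χ hχ0 hχ1)
  · refine ⟨p3Pre1, Or.inr ⟨rfl, rfl⟩, ?_⟩
    rcases hc with hc | hc
    · exact Pre.holds_mono (fun r hr => Or.inl ⟨hc, hs0, hr⟩) _ _ (b.1 sg hs0 hs1)
    · exact Pre.holds_mono (fun r hr => Or.inr ⟨hc, hr⟩) _ _ (b.2 χ hχ0 hχ1)

/-- The analytic part: the phase function and its jet. -/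
theorem wp3_phase (typ : Bool) {δ0 ω0 j0 s lam sg φ1 x1 bb N T : ℝ} {k0 : ℕ} {D : P3D}
    {Ar Bf Zr Jr : ℝ → ℝ} (hδ : 0 < δ0) (hω : 0 < ω0) (ej : j0 = jj δ0) (hsg : sg = s * lam)
    (h0 : 0 < φ1) (h1 : φ1 < π / 2) (hx : x1 = cos φ1 ^ 2) (hk : k0 = if typ then 1 else 0)
    (hW : ∀ τ ∈ Metric.ball (0 : ℂ) (1 / 4), Wk φ1 (lΩ ω0 sg τ) (cJ j0 lam τ) (211 / 500) (49 / 50)
      N T (fun _ => bb) (fun _ => 0))
    (hb0 : 0 < bb) (hb1 : bb < 9 / 100) (hn : 0 < nrm0 D.Mr D.Mi)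
    (hco : ∀ τ : ℝ, 2 * lΩ ω0 sg τ ^ 2 * cJ j0 lam τ * x1 = Ar τ ∧
      2 * lΩ ω0 sg τ * (1 - 2 * cJ j0 lam τ) * x1 ^ 2 = Bf τ ∧
      (1 - 2 * cJ j0 lam τ) * x1 ^ 2 = Zr τ ∧ 2 * cJ j0 lam τ * x1 = Jr τ)
    (hbd : ∀ τ ∈ Metric.ball (0 : ℂ) (1 / 4), ‖2 * lΩ ω0 sg τ ^ 2 * cJ j0 lam τ * x1‖ ≤ 47 / 2 ∧
      ‖2 * lΩ ω0 sg τ * (1 - 2 * cJ j0 lam τ) * x1 ^ 2‖ ≤ 29 ∧
      ‖(1 - 2 * cJ j0 lam τ) * x1 ^ 2‖ ≤ 51 / 5000 ∧ ‖2 * cJ j0 lam τ * x1‖ ≤ 3 / 250000)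
    (jr : JT (fun τ => (hS (Ar τ) (Bf τ) (Zr τ) (Jr τ) k0).re +
      1 / 2 * (Bf τ * (Ar τ + Bf τ)⁻¹ * (yS (Ar τ) (Bf τ) (Zr τ) (Jr τ) k0).re)) D.Mr)
    (ji : JT (fun τ => √((Ar τ + Bf τ) * (1 - Jr τ - Zr τ)⁻¹) *
      (yS (Ar τ) (Bf τ) (Zr τ) (Jr τ) k0).re) D.Mi)
    (jt : JT (fun τ => Bf τ * (Ar τ + Bf τ)⁻¹ * (√((Ar τ + Bf τ) * (1 - Jr τ - Zr τ)⁻¹))⁻¹) D.Tb) :
    ∃ (δ ϕ : ℝ → ℝ) (c0 y1 y2 dl : ℝ), J2 δ δ0 (δ0 * lam) 0 ∧
      Rp typ δ (fun τ => ω0 * (1 + s * lam * τ)) ϕ ∧ 0 ≤ dl ∧ dl ≤ 2 ∧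
      |y1| ≤ 4 * (N / (2 * (49 / 50) ^ 2) + T) + eA1 bb (l1i D.Mr D.Mi) ∧
      |y2| ≤ 16 * (N / (2 * (49 / 50) ^ 2) + T) + eA2 bb (l1i D.Mr D.Mi) ∧
      J2 ϕ c0 (lam * F1 φ1 ω0 j0 s + (l1i D.Mr D.Mi + 1 / 4 * D.Tb.2.1) + y1)
        (lam ^ 2 * F2 φ1 ω0 j0 s +
          (l2i D.Mr D.Mi * (1 + 11 / 10 * ((dl - 1) * bb)) + 1 / 4 * D.Tb.2.2) + y2) := by
  obtain ⟨δ, hJ, hev⟩ := cJ_curve hδ lam
  rw [← ej] at hev
  have dΩ : DifferentiableOn ℂ (lΩ ω0 sg) (Metric.ball 0 (1 / 4)) := by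
    unfold lΩ; fun_prop
  have dJ : DifferentiableOn ℂ (cJ j0 lam) (Metric.ball 0 (1 / 4)) := by
    unfold cJ; fun_prop
  obtain ⟨k, z, dk, dz, dT, hp⟩ := pack (c := 43 / 80) (bb := bb) h0 h1.le dΩ dJ hW
    (fun u _ => ⟨hasDerivAt_const u bb, hb0, le_rfl⟩) (by norm_num) (by norm_num) (by norm_num)
    (by norm_num) (by linarith)
  obtain ⟨z1, z2, z3, b0, b1, b2, -, jz⟩ := hol_jet (by norm_num) dz fun τ hτ => (hp τ hτ).1
  obtain ⟨θ, c0, e1, e2, dl, dl0, dl2, he1, he2, jθ, hθ⟩ := arg_jet jr ji hn jz.j2 b0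
    (b1.trans_eq (by ring)) (b2.trans_eq (by ring)) hb1.le
  obtain ⟨u1, u2, u3, -, a1, a2, -, ju⟩ := hol_jet (r := 1 / 4)
    (H := fun τ => k τ + z τ / 2 + Complex.I * Tt φ1 (lΩ ω0 sg τ) (cJ j0 lam τ))
    (M := N / (2 * (49 / 50) ^ 2) + T) (by norm_num)
    ((dk.add (dz.div_const 2)).add (dT.const_mul _)) fun τ hτ => by
      refine (norm_add_le _ _).trans (add_le_add (hp τ hτ).2.1 ?_)
      rw [norm_mul, Complex.norm_I, one_mul]
      exact (hW τ hτ).tt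
  have cω : ContinuousAt (fun τ : ℝ => ω0 * (1 + s * lam * τ)) 0 := by fun_prop
  have ω0' : 0 < ω0 * (1 + s * lam * 0) := by simpa using hω
  have eω : ∀ᶠ τ in 𝓝 (0 : ℝ), 0 < ω0 * (1 + s * lam * τ) := cω.eventually (lt_mem_nhds ω0')
  have eb : ∀ᶠ τ : ℝ in 𝓝 0, (τ : ℂ) ∈ Metric.ball (0 : ℂ) (1 / 4) :=
    Complex.continuous_ofReal.continuousAt.eventually
      (Metric.isOpen_ball.mem_nhds (by simp))
  have eΩ : ∀ τ : ℝ, lΩ ω0 sg τ = ((ω0 * (1 + s * lam * τ) : ℝ) : ℂ) := fun τ => by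
    unfold lΩ; rw [hsg]; push_cast; ring
  have ec : ∀ᶠ τ in 𝓝 (0 : ℝ), Ar τ = 2 * (ω0 * (1 + s * lam * τ)) ^ 2 * jj (δ τ) * x1 ∧
      Bf τ = 2 * (ω0 * (1 + s * lam * τ)) * (1 - 2 * jj (δ τ)) * x1 ^ 2 ∧
      Zr τ = (1 - 2 * jj (δ τ)) * x1 ^ 2 ∧ Jr τ = 2 * jj (δ τ) * x1 := by
    filter_upwards [hev] with τ h
    obtain ⟨p1, p2, p3, p4⟩ := hco τ
    rw [h.2] at p1 p2 p3 p4
    rw [eΩ] at p1 p2
    exact ⟨by exact_mod_cast p1.symm, by exact_mod_cast p2.symm, by exact_mod_cast p3.symm,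
      by exact_mod_cast p4.symm⟩
  have jM := main_jet2 (φ1 := φ1) hδ hω s hJ
  rw [← ej] at jM
  have jall := ((jM.add (J2.const_mul jt (1 / 4))).add ju.j2.im).add jθ
  have eϕ : (fun τ : ℝ => Mn φ1 (ω0 * (1 + s * lam * τ)) (jj (δ τ)) + 1 / 4 * (Bf τ *
      (Ar τ + Bf τ)⁻¹ * (√((Ar τ + Bf τ) * (1 - Jr τ - Zr τ)⁻¹))⁻¹) +
      (k τ + z τ / 2 + Complex.I * Tt φ1 (lΩ ω0 sg τ) (cJ j0 lam τ)).im + θ τ) =ᶠ[𝓝 0]
      fun τ => ph0 φ1 (ω0 * (1 + s * lam * τ)) (jj (δ τ)) (k τ) + (θ τ + (z τ).im / 2) := by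
    filter_upwards [hev, eω, ec] with τ h hω' hc
    rw [ph0, (p3_match (y := 0) (h := 0) 0 h.1 hω' h0 h1 hx hc.1 hc.2.1 hc.2.2.1 hc.2.2.2).1,
      eΩ, h.2]
    simp only [Complex.add_im, Complex.div_ofNat_im, Complex.I_mul_im]
    ring
  have jϕ := jall.congr eϕ
  refine ⟨δ, _, _, u1.im + e1, u2.im + e2, dl, hJ, ?_, dl0, dl2, ?_, ?_,
    jϕ.of_eq rfl (by ring) (by ring)⟩
  · refine rp_of_br (φ1 := φ1) (k := fun τ : ℝ => k τ) (z := fun τ : ℝ => z τ)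
      (v1 := fun τ => (yS (Ar τ) (Bf τ) (Zr τ) (Jr τ) k0).re)
      (y1 := fun τ => -(sin φ1 / cos φ1 * (hS (Ar τ) (Bf τ) (Zr τ) (Jr τ) k0).re /
        cA (mm (δ τ)) (ω0 * (1 + s * lam * τ)) φ1))
      ⟨h0.le, by linarith [pi_pos]⟩ hJ.cont cω (hJ.val ▸ hδ) ω0' jz.j2.cont ?_ ?_ jϕ.cont ?_ ?_ ?_
    · have := (abs_le.1 ((Complex.abs_re_le_norm (z 0)).trans b0)).1
      simp only [Complex.ofReal_zero, Complex.add_re, Complex.one_re]
      linarith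
    · have := jϕ.cont.sub (jθ.cont.add (jz.j2.im.cont.div_const 2))
      refine this.congr (Eventually.of_forall fun τ => ?_)
      simp
    · filter_upwards [hev, eω, eb] with τ h hω' hτ
      exact (hp τ hτ).2.2 _ _ h.1 hω' (eΩ τ) h.2
    · filter_upwards [hev, eω, eb, ec] with τ h hω' hτ hc
      obtain ⟨p1, p2, p3, p4⟩ := hco τ
      obtain ⟨q1, q2, q3, q4⟩ := hbd τ hτ
      rw [p1, Complex.norm_real] at q1
      rw [p2, Complex.norm_real] at q2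
      rw [p3, Complex.norm_real] at q3
      rw [p4, Complex.norm_real] at q4
      exact tr_series typ h.1 hω' h0 h1 hx hk hc.1 hc.2.1 hc.2.2.1 hc.2.2.2 q1 q2 q3 q4
    · filter_upwards [hev, eω, ec, hθ] with τ h hω' hc hθ'
      rw [(p3_match (z τ) h.1 hω' h0 h1 hx hc.1 hc.2.1 hc.2.2.1 hc.2.2.2).2, mul_assoc,
        Complex.im_ofReal_mul, sub_add_cancel_left, Complex.ofReal_neg, mul_neg, hθ', mul_zero]
  · refine (abs_add_le _ _).trans (add_le_add ((Complex.abs_im_le_norm _).trans ?_) he1)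
    exact a1.trans_eq (by ring)
  · refine (abs_add_le _ _).trans (add_le_add ((Complex.abs_im_le_norm _).trans ?_) he2)
    exact a2.trans_eq (by ring)

theorem p3_good (typ : Bool) {δ0 ω0 s : ℝ} (hδ : 0 < δ0) (h1 : 1250 ≤ ω0)
    (h2 : aa ω0 (jj δ0) ≤ 5 / 2) (hs0 : 0 ≤ s) (hs1 : s ≤ 1) : Good typ δ0 ω0 s := by
  obtain ⟨j0, ej⟩ : ∃ j0, j0 = jj δ0 := ⟨_, rfl⟩
  obtain ⟨j1, j2⟩ := jj_bd hδ
  rw [← ej] at j1 j2 h2
  have hω : 0 < ω0 := by linarith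
  have hκ : 0 < 1 - 2 * j0 := by linarith
  have a0 : 0 < aa ω0 j0 := by unfold aa; positivity
  obtain ⟨al, hal, ea⟩ : ∃ al, 0 < al ∧ al ^ 2 = aa ω0 j0 := ⟨_, sqrt_pos.2 a0, sq_sqrt a0.le⟩
  rw [← ea] at h2
  obtain ⟨s1, es⟩ : ∃ s1, s1 = 10 - 2 * al ^ 2 := ⟨_, rfl⟩
  obtain ⟨x1, ex⟩ : ∃ x1, x1 = s1 / (2 * √(2 * ω0 * (1 - 2 * j0))) := ⟨_, rfl⟩
  obtain ⟨q1, q2, -, q4, q5, q6, q7, -, -, -, xx, x0, x1', eZ⟩ := p3_par hδ h1 ej hal ea h2 es ex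
  obtain ⟨φ1, f0, f1, f2⟩ := wp3_angle q4 (by linarith)
  obtain ⟨χ, sg, c0, c1, g0, g1, hsg, hc⟩ := wp3_chi hal hs0
  obtain ⟨p, hp, hΦ⟩ := wp3_pre typ hal.le q1 x0 x1' c0 c1 g0 g1 hc
  have s0 : 5 ≤ s1 := by linarith
  have s10 : s1 ≤ 10 := by nlinarith [sq_nonneg al]
  obtain ⟨nu, hnu⟩ : ∃ nu, nu = 1 / ω0 ^ 2 := ⟨_, rfl⟩
  obtain ⟨jk, hjk⟩ : ∃ jk, jk = 2 * j0 / ((1 - 2 * j0) * (s1 * al ^ 2)) := ⟨_, rfl⟩
  obtain ⟨d1, hd1⟩ : ∃ d1, d1 = -(2 * (s1 * (1 - 2 * j0) * al * χ)) := ⟨_, rfl⟩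
  obtain ⟨d2, hd2⟩ : ∃ d2, d2 = s1 * (4 * (1 - 2 * j0) ^ 2 - (1 - 2 * j0)) * χ ^ 2 := ⟨_, rfl⟩
  obtain ⟨B, hB⟩ : ∃ B, B = 1 / 4 * s1 ^ 2 * (s1 * al ^ 2 + 1 / 4 * s1 ^ 2)⁻¹ := ⟨_, rfl⟩
  have n0 : 0 ≤ nu := by rw [hnu]; positivity
  have k0 : 0 ≤ jk := by rw [hjk]; positivity
  obtain ⟨t0, t1, t2, t3, t4, t5, m0, m1, m2, m3, m4, m5, y0, y1, y2, y3, y4, y5, r0, r1, r2, r3, r4,
    r5, hΦ, hj⟩ := p3_loop hp hΦ rfl es eZ rfl rfl n0 (hnu ▸ q6) k0 (hjk ▸ q7)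
  have jd : J2 (fun τ : ℝ => d1 * τ + d2 * τ ^ 2) 0 d1 d2 := by simpa using j2_poly 0 d1 d2
  have ju : J2 (fun τ : ℝ => sg * τ) 0 sg 0 := by simpa using j2_lin 0 sg
  obtain ⟨hy, hh⟩ := hj d1 d2 sg _ _ jd ju
  have hco := fun τ : ℂ => p3_coef (χ := χ) (sg := sg) hδ h1 ej hal ea h2 es ex τ
    (d1 * τ + d2 * τ ^ 2) (by rw [hd1, hd2]) nu jk hnu hjk
  have hd := fun (τ : ℂ) (hτ : τ ∈ Metric.ball (0 : ℂ) (1 / 4)) =>
    p3_disc hδ h1 ej hal ea h2 es ex c0 c1 g0 g1 f0 f1.le f2 hB (mem_ball_zero_iff.1 hτ).le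
  have S0 : 0 < s1 * al ^ 2 + 1 / 4 * s1 ^ 2 := by positivity
  obtain ⟨D, e1, e2, e3, e4, e5, e6, e7, e8, Y0, Y1, Y2, H0, H1, H2, jr, ji, jt⟩ :=
    p3_jets (k0 := if typ then 1 else 0) (by cases typ <;> simp) rfl rfl rfl rfl rfl rfl rfl rfl
      (fun τ hτ => by
        obtain ⟨p1, p2, p3, p4⟩ := hco τ
        have := (hd τ hτ).2
        rwa [p1, p2, p3, p4] at this) S0
      (by
        have u1 : nu * (s1 * al ^ 2) ≤ 13 / 20000000 * (10 * (5 / 2)) :=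
          mul_le_mul (hnu ▸ q6) (mul_le_mul s10 h2 (by positivity) (by norm_num)) (by positivity)
            (by norm_num)
        have u2 : (1 - 2 * j0) * x1 ^ 2 ≤ 1 * (1002 / 10000) ^ 2 :=
          mul_le_mul (by linarith) (pow_le_pow_left₀ q4.le q5 2) (by positivity) (by norm_num)
        linarith) hy hh
  have eB : D.AA.1 = B := by
    rw [hB, ← e2, ← e1]; rfl
  obtain ⟨hn, hb1, hcr⟩ := p3_num (al := al) (a := al ^ 2) (s1 := s1) (ka := 1 - 2 * j0) (χ := χ)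
    (tl := []) D rfl es q2 (by linarith) (e6.trans hd1) (e7.trans hd2)
    (by rw [e1, e2, e3, e4, e5, e8]; exact hΦ) Y0 (by rw [e6, e8]; exact Y1)
    (by rw [e6, e7, e8]; exact Y2) H0 (by rw [e6, e8]; exact H1) (by rw [e6, e7, e8]; exact H2)
  rw [eB] at hb1 hcr
  rw [e8] at hcr
  have B0 : 0 ≤ B := by rw [hB]; positivity
  obtain ⟨δ, ϕ, w0, w1, w2, dl, hJ, hR, l0, l2, z1, z2, jϕ⟩ := wp3_phase typ hδ hω ej hsg
    (lt_of_lt_of_le (by positivity) f0) f1 f2.symm rfl (fun τ hτ => (hd τ hτ).1)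
    (by unfold p3b; positivity) hb1 hn
    (fun τ => by
      obtain ⟨p1, p2, p3, p4⟩ := hco τ
      rw [p1, p2, p3, p4]
      push_cast
      exact ⟨rfl, rfl, rfl, rfl⟩) (fun τ hτ => (hd τ hτ).2) jr ji jt
  obtain ⟨M1, M2⟩ := p3_main hδ h1 ej hal ea h2 es ex c0 hs0 hs1 hsg
    (le_trans (by positivity) f0) f1.le f2 hB
  exact Or.inr ⟨δ, ϕ, χ / al, w0, _, _, hJ, hR, jϕ, hcr _ _ w1 w2 dl l0 l2 z1 z2 M1 M2⟩

end Pool.Agent.HillD
end

-- part Pool.Agent.P.MP_ae2765_an.WLoc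
section

/-! Local comparison of a phase function with the distance to the branch. -/

namespace Pool.Agent.HillD
open Real Set Filter Topology Asymptotics

theorem th_half {θ0 m : ℝ} {l : ℕ} (hθ : θ0 = 0 ∨ θ0 = π / 2) (hl : 1 ≤ l) (h0 : 0 ≤ m)
    (hm : m < 1 / 2) : th m (cur θ0 l m) θ0 (π / 2) = θ0 + l * (π / 2) := by
  have hm1 : m < 1 := by linarith
  obtain ⟨-, c1⟩ := cur_spec hθ hl h0 hm
  set ω := cur θ0 l m with hω
  have s := th_spec hm1 ω θ0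
  obtain ⟨n, hn⟩ : ∃ n : ℕ, 2 * θ0 + l * π = n * π := by
    rcases hθ with h | h
    · exact ⟨l, by rw [h]; ring⟩
    · exact ⟨l + 1, by rw [h]; push_cast; ring⟩
  have e1 : ((-1 : ℝ) ^ n) ^ 2 = 1 := by rw [← pow_mul, mul_comm, pow_mul]; simp
  have s2 : IsAng (cA m ω) (cB m ω) fun t => n * π - th m ω θ0 (π - t) := by
    intro t
    have d : HasDerivAt (fun t : ℝ => π - t) (-1) t := by
      simpa using (hasDerivAt_id t).const_sub π
    refine (((s.1 (π - t)).comp t d).const_sub (n * π)).congr_deriv ?_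
    rw [cA_symm, cB_symm, cos_nat_mul_pi_sub, sin_nat_mul_pi_sub, mul_pow, neg_sq, mul_pow, e1]
    ring
  have z : (fun t => n * π - th m ω θ0 (π - t)) 0 = th m ω θ0 0 := by
    simp only [sub_zero]
    rw [c1, s.2, ← hn]; ring
  have hp : 0 ≤ π / 2 := by positivity
  have a1 := cmp_le (cA_cont hm1 ω) (cB_cont hm1 ω) s.1 s2 hp (fun _ _ => le_rfl)
    (fun _ _ => le_rfl) z.le
  have a2 := cmp_le (cA_cont hm1 ω) (cB_cont hm1 ω) s2 s.1 hp (fun _ _ => le_rfl)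
    (fun _ _ => le_rfl) z.ge
  have e : π - π / 2 = π / 2 := by ring
  simp only [e] at a1 a2
  linarith

theorem wloc_mono {m ω1 ω2 : ℝ} (hm : m < 1 / 2) (h : ω1 ≤ ω2) (θ0 : ℝ) :
    th m ω1 θ0 (π / 2) ≤ th m ω2 θ0 (π / 2) := by
  have hm1 : m < 1 := by linarith
  have s1 := th_spec hm1 ω1 θ0
  have s2 := th_spec hm1 ω2 θ0
  refine cmp_le (cA_cont hm1 ω1) (cB_cont hm1 ω1) s2.1 s1.1 (by positivity) (fun x _ => ?_)
    (fun x _ => ?_) (by rw [s1.2, s2.2])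
  · exact div_le_div_of_nonneg_right h (pm_pos hm1 x).le
  · refine div_le_div_of_nonneg_right ?_ (pm_pos hm1 x).le
    nlinarith

theorem wloc_pm {m : ℝ} (h0 : 0 ≤ m) (hm : m < 1 / 2) (t : ℝ) : 1 / 2 ≤ pm m t := by
  unfold pm Dm
  refine le_sqrt_of_sq_le ?_
  have h2 := sin_sq_le_one t
  nlinarith

theorem wloc_div {m x K : ℝ} (h0 : 0 ≤ m) (hm : m < 1 / 2) (t : ℝ) (hx : |x| ≤ K) :
    |x / pm m t| ≤ 2 * K := by
  have h1 := wloc_pm h0 hm t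
  have h2 : 0 < pm m t := by linarith
  rw [abs_div, abs_of_pos h2, div_le_iff₀ h2]
  have := abs_nonneg x
  nlinarith

theorem wloc_near (W : ℝ) : ∃ C : ℝ, 0 ≤ C ∧ ∀ m ω1 ω2 θ0 : ℝ, 0 ≤ m → m < 1 / 2 → |ω2| ≤ W →
    |th m ω1 θ0 (π / 2) - th m ω2 θ0 (π / 2)| ≤ C * |ω1 - ω2| := by
  refine ⟨exp (2 * (W + 1) * (π / 2)) * 2 * (π / 2) * exp (2 * (W + 1) * (π / 2)),
    by positivity, fun m ω1 ω2 θ0 h0 hm hW => ?_⟩
  have hm1 : m < 1 := by linarith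
  have s1 := th_spec hm1 ω1 θ0
  have s2 := th_spec hm1 ω2 θ0
  have := cmp_near (T := π / 2) (ε := 2 * |ω1 - ω2|) (K := 2 * (W + 1)) (cA_cont hm1 ω2)
    (cB_cont hm1 ω2) s1.1 s2.1 (by positivity) (fun x _ => ?_) (fun x _ => ?_) (fun x _ => ?_)
    (by rw [s1.2, s2.2])
  · refine this.trans (le_of_eq ?_)
    ring
  · unfold cA
    rw [← sub_div]
    exact wloc_div h0 hm x le_rfl
  · unfold cB
    rw [← sub_div]
    refine wloc_div h0 hm x ?_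
    have e : ω1 * (1 - 2 * m) + 2 * m * cos x ^ 2 - (ω2 * (1 - 2 * m) + 2 * m * cos x ^ 2) =
        (ω1 - ω2) * (1 - 2 * m) := by ring
    rw [e, abs_mul, abs_of_nonneg (show 0 ≤ 1 - 2 * m by linarith)]
    have := abs_nonneg (ω1 - ω2)
    nlinarith
  · unfold cA cB
    rw [← sub_div]
    refine wloc_div h0 hm x ?_
    have e : ω2 * (1 - 2 * m) + 2 * m * cos x ^ 2 - ω2 = 2 * m * (cos x ^ 2 - ω2) := by ring
    rw [e, abs_mul, abs_of_nonneg (show 0 ≤ 2 * m by linarith)]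
    have h1 : |cos x ^ 2 - ω2| ≤ W + 1 := by
      have := abs_sub (cos x ^ 2) ω2
      rw [abs_of_nonneg (sq_nonneg (cos x))] at this
      linarith [cos_sq_le_one x]
    have := abs_nonneg (cos x ^ 2 - ω2)
    nlinarith

theorem wloc_pt {a b x y a0 b0 : ℝ} (h : a * sin x * cos y = b * cos x * sin y) (hab : 0 < a * b)
    (hx : |x| < 1) (hy : |y| < 1) (ha0 : 0 < a0) (ha : a0 ≤ |a|) (hb : |b| ≤ b0) :
    |x| ≤ π * b0 / a0 * |y| ∧ 0 ≤ x * y := by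
  have hp := pi_gt_three
  obtain ⟨x1, x2⟩ := abs_lt.1 hx
  obtain ⟨y1, y2⟩ := abs_lt.1 hy
  have cx : 0 < cos x := cos_pos_of_mem_Ioo ⟨by linarith, by linarith⟩
  have cy : 1 / 2 ≤ cos y := by
    have := one_sub_sq_div_two_le_cos (x := y)
    nlinarith
  constructor
  · have e : |a| * |sin x| * cos y = |b| * cos x * |sin y| := by
      have := congrArg abs h
      rwa [abs_mul, abs_mul, abs_mul, abs_mul, abs_of_pos cx,
        abs_of_pos (show 0 < cos y by linarith)] at this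
    have s1 : 2 / π * |x| ≤ |sin x| := mul_abs_le_abs_sin (by linarith)
    have s2 : |sin y| ≤ |y| := abs_sin_le_abs
    have b1 : |b| * cos x * |sin y| ≤ b0 * 1 * |y| := by
      have := cos_le_one x
      have := (abs_nonneg b).trans hb
      gcongr
    have b2 : a0 * (2 / π * |x|) * (1 / 2) ≤ |a| * |sin x| * cos y := by
      have := abs_nonneg a
      gcongr
    rw [div_mul_eq_mul_div, le_div_iff₀ ha0]
    have e2 : a0 * (2 / π * |x|) * (1 / 2) * π = |x| * a0 := by field_simp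
    have := mul_le_mul_of_nonneg_right (b2.trans (e.le.trans b1)) (show 0 ≤ π by linarith)
    rw [e2] at this
    linarith
  · have k : 0 ≤ sin x * sin y := by
      have e : a * b * cos y * (sin x * sin y) = cos x * (b * sin y) ^ 2 := by
        linear_combination (b * sin y) * h
      have p : 0 < a * b * cos y := mul_pos hab (by linarith)
      refine (mul_nonneg_iff_of_pos_left p).1 ?_
      rw [e]; positivity
    by_contra hc
    rcases mul_neg_iff.1 (not_le.1 hc) with ⟨k1, k2⟩ | ⟨k1, k2⟩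
    · have := mul_neg_of_pos_of_neg (sin_pos_of_pos_of_lt_pi k1 (by linarith))
        (sin_neg_of_neg_of_neg_pi_lt k2 (by linarith))
      linarith
    · have := mul_neg_of_neg_of_pos (sin_neg_of_neg_of_neg_pi_lt k1 (by linarith))
        (sin_pos_of_pos_of_lt_pi k2 (by linarith))
      linarith

theorem wloc_abs {A B P Q ϕ y u : ℝ → ℝ} {C : ℝ} (cA' : ContinuousAt A 0) (cB' : ContinuousAt B 0)
    (cQ : ContinuousAt Q 0) (cϕ : ContinuousAt ϕ 0) (cy : ContinuousAt y 0) (y0 : y 0 = 0)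
    (hPQ : ∀ τ, P τ * cos (y τ) = Q τ * sin (y τ))
    (h : ∀ᶠ τ in 𝓝 (0 : ℝ), A τ * sin (ϕ τ) = B τ * P τ * cos (ϕ τ))
    (hpos : P 0 = 0 → 0 < A 0 * (B 0 * Q 0)) (hyu : ∀ τ, |y τ| ≤ C * |u τ| ∧ 0 ≤ y τ * u τ) :
    Sand u ϕ := by
  have P0 : P 0 = 0 := by simpa [y0] using hPQ 0
  have hpos := hpos P0
  have A0 : A 0 ≠ 0 := fun e => by simp [e] at hpos
  have s0 : sin (ϕ 0) = 0 := by simpa [P0, A0] using h.self_of_nhds
  have c0 : cos (ϕ 0) ≠ 0 := fun e => by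
    have := sin_sq_add_cos_sq (ϕ 0)
    simp [s0, e] at this
  have a0 : 0 < |A 0| / 2 := by have := abs_pos.2 A0; linarith
  have cb : ContinuousAt (fun τ => B τ * Q τ) 0 := cB'.mul cQ
  have e1 : ∀ᶠ τ in 𝓝 (0 : ℝ), 0 < A τ * (B τ * Q τ) :=
    continuousAt_const.eventually_lt (cA'.mul cb) hpos
  have e2 : ∀ᶠ τ in 𝓝 (0 : ℝ), |ϕ τ - ϕ 0| < 1 :=
    (cϕ.sub continuousAt_const).abs.eventually_lt continuousAt_const (by simp)
  have e3 : ∀ᶠ τ in 𝓝 (0 : ℝ), |y τ| < 1 :=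
    cy.abs.eventually_lt continuousAt_const (by simp [y0])
  have e4 : ∀ᶠ τ in 𝓝 (0 : ℝ), |A 0| / 2 < |A τ| :=
    continuousAt_const.eventually_lt cA'.abs (by linarith)
  have e5 : ∀ᶠ τ in 𝓝 (0 : ℝ), |B τ * Q τ| < |B 0 * Q 0| + 1 :=
    cb.abs.eventually_lt continuousAt_const (by simp)
  refine ⟨π * (|B 0 * Q 0| + 1) / (|A 0| / 2) * C, ?_⟩
  filter_upwards [h, e1, e2, e3, e4, e5] with τ h e1 e2 e3 e4 e5
  have r1 : sin (ϕ τ) = cos (ϕ 0) * sin (ϕ τ - ϕ 0) := by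
    have : sin (ϕ τ) = sin (ϕ 0 + (ϕ τ - ϕ 0)) := by ring_nf
    rw [this, sin_add, s0]; ring
  have r2 : cos (ϕ τ) = cos (ϕ 0) * cos (ϕ τ - ϕ 0) := by
    have : cos (ϕ τ) = cos (ϕ 0 + (ϕ τ - ϕ 0)) := by ring_nf
    rw [this, cos_add, s0]; ring
  have k : A τ * sin (ϕ τ - ϕ 0) = B τ * P τ * cos (ϕ τ - ϕ 0) := by
    refine mul_left_cancel₀ c0 ?_
    rw [r1, r2] at h
    linear_combination h
  have k2 : A τ * sin (ϕ τ - ϕ 0) * cos (y τ) = B τ * Q τ * cos (ϕ τ - ϕ 0) * sin (y τ) := by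
    linear_combination cos (y τ) * k + B τ * cos (ϕ τ - ϕ 0) * hPQ τ
  obtain ⟨b1, b2⟩ := wloc_pt k2 e1 e2 e3 a0 e4.le e5.le
  obtain ⟨u1, u2⟩ := hyu τ
  have hC : 0 ≤ π * (|B 0 * Q 0| + 1) / (|A 0| / 2) := by positivity
  refine ⟨b1.trans ((mul_le_mul_of_nonneg_left u1 hC).trans (le_of_eq (by ring))), ?_⟩
  rcases eq_or_ne (y τ) 0 with hy | hy
  · rw [hy, abs_zero, mul_zero] at b1
    rw [abs_nonpos_iff.1 b1, zero_mul]
  · have p : 0 < y τ ^ 2 := by positivity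
    refine (mul_nonneg_iff_of_pos_left p).1 ?_
    have := mul_nonneg b2 u2
    linarith [show y τ ^ 2 * ((ϕ τ - ϕ 0) * u τ) = (ϕ τ - ϕ 0) * y τ * (y τ * u τ) by ring]

theorem wloc_star {θ0 : ℝ} (l : ℕ) (hθ : θ0 = 0 ∨ θ0 = π / 2) :
    sin (θ0 + l * (π / 2)) = 0 ∨ cos (θ0 + l * (π / 2)) = 0 := by
  have : sin (2 * (θ0 + l * (π / 2))) = 0 := by
    rcases hθ with h | h
    · rw [h, show 2 * (0 + l * (π / 2)) = l * π by ring, sin_nat_mul_pi]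
    · rw [h, show 2 * (π / 2 + l * (π / 2)) = (l + 1 : ℕ) * π by push_cast; ring, sin_nat_mul_pi]
  rw [sin_two_mul] at this
  rcases mul_eq_zero.1 this with h | h
  · exact Or.inl (by linarith)
  · exact Or.inr h

theorem wloc_shift {u ϕ : ℝ → ℝ} (h : Sand u fun τ => ϕ τ - π / 2) : Sand u ϕ := by
  obtain ⟨C, h⟩ := h
  refine ⟨C, h.mono fun τ hτ => ?_⟩
  have e : ϕ τ - π / 2 - (ϕ 0 - π / 2) = ϕ τ - ϕ 0 := by ring
  simpa only [e] using hτ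

theorem loc {θ0 δ0 : ℝ} {l : ℕ} (hθ : θ0 = 0 ∨ θ0 = π / 2) (hl : 1 ≤ l) (hδ : 0 < δ0) :
    ∃ typ : Bool, ∀ δ ω ϕ : ℝ → ℝ, δ 0 = δ0 → ω 0 = cur θ0 l (mm δ0) → Rp typ δ ω ϕ →
      Sand (fun τ => ω τ - cur θ0 l (mm (δ τ))) ϕ := by
  obtain ⟨C, -, hC⟩ := wloc_near (36 * (l + 1) ^ 2)
  set θs : ℝ := θ0 + l * (π / 2) with hθs
  have hp : π / 2 ∈ Icc 0 π := ⟨by positivity, by linarith [pi_pos]⟩
  have yu : ∀ d w : ℝ, |th (mm d) w θ0 (π / 2) - θs| ≤ C * |w - cur θ0 l (mm d)| ∧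
      0 ≤ (th (mm d) w θ0 (π / 2) - θs) * (w - cur θ0 l (mm d)) := by
    intro d w
    rw [hθs, ← th_half hθ hl (mm_nonneg d) (mm_lt d)]
    refine ⟨hC _ _ _ _ (mm_nonneg d) (mm_lt d) ?_, ?_⟩
    · rw [abs_of_pos (cur_spec hθ hl (mm_nonneg d) (mm_lt d)).1]
      exact (cur_lt_big hθ hl (mm_nonneg d) (mm_lt d)).le
    · rcases le_total w (cur θ0 l (mm d)) with h | h
      · exact mul_nonneg_of_nonpos_of_nonpos (sub_nonpos.2 (wloc_mono (mm_lt d) h θ0))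
          (sub_nonpos.2 h)
      · exact mul_nonneg (sub_nonneg.2 (wloc_mono (mm_lt d) h θ0)) (sub_nonneg.2 h)
  have wr : ∀ d w : ℝ, sx (mm d) w (π / 2) (π / 2) * sy (mm d) w 0 (π / 2) -
      sy (mm d) w (π / 2) (π / 2) * sx (mm d) w 0 (π / 2) = 1 := by
    intro d w
    have hm := mm_lt_one d
    rw [wronski (s_lin hm w (π / 2)) (s_lin hm w 0) (π / 2)]
    simp [sx_zero hm, sy_zero hm]
  have ct : ∀ δ ω : ℝ → ℝ, ContinuousAt δ 0 → ContinuousAt ω 0 → ∀ θ : ℝ,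
      ContinuousAt (fun τ => th (mm (δ τ)) (ω τ) θ (π / 2)) 0 ∧
      ContinuousAt (fun τ => sx (mm (δ τ)) (ω τ) θ (π / 2)) 0 ∧
      ContinuousAt (fun τ => sy (mm (δ τ)) (ω τ) θ (π / 2)) 0 := by
    intro δ ω cδ cω θ
    have cm : Continuous mm := by
      unfold mm
      exact Continuous.div (by fun_prop) (by fun_prop) fun x => by positivity
    have cc : ContinuousAt (fun τ => (mm (δ τ), ω τ)) 0 :=
      (cm.continuousAt.comp cδ).prodMk cω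
    obtain ⟨k1, k2, k3⟩ := s_cont (m := mm (δ 0)) (ω := ω 0) (mm_lt_one _) θ hp
    exact ⟨k1.comp (f := fun τ => (mm (δ τ), ω τ)) cc, k2.comp (f := fun τ => (mm (δ τ), ω τ)) cc,
      k3.comp (f := fun τ => (mm (δ τ), ω τ)) cc⟩
  have y0 : th (mm δ0) (cur θ0 l (mm δ0)) θ0 (π / 2) - θs = 0 := by
    rw [th_half hθ hl (mm_nonneg δ0) (mm_lt δ0), sub_self]
  rcases wloc_star l hθ with hs | hs
  · have pq : ∀ d w : ℝ, sx (mm d) w θ0 (π / 2) * cos (th (mm d) w θ0 (π / 2) - θs) =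
        sy (mm d) w θ0 (π / 2) * sin (th (mm d) w θ0 (π / 2) - θs) := by
      intro d w
      unfold sx sy
      rw [cos_sub, sin_sub, hs]
      ring
    refine ⟨true, fun δ ω ϕ h1 h2 ⟨cδ, cω, cϕ, α, β, cα, cβ, hab, hr⟩ => ?_⟩
    have c := ct δ ω cδ cω
    have cy := (c θ0).1.sub (continuousAt_const (y := θs))
    have z : th (mm (δ 0)) (ω 0) θ0 (π / 2) - θs = 0 := by rw [h1, h2, y0]
    have w := wr (δ 0) (ω 0)
    simp only [pr, if_true] at hr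
    rcases hθ with h | h
    · subst h
      refine wloc_abs (cα.mul (c (π / 2)).2.1) cβ (c 0).2.2 cϕ cy z (fun τ => pq _ _) hr
        (fun P0 => ?_) fun τ => yu _ _
      simp only [Pi.mul_apply] at P0 ⊢
      rw [P0] at w
      have : α 0 * sx (mm (δ 0)) (ω 0) (π / 2) (π / 2) * (β 0 * sy (mm (δ 0)) (ω 0) 0 (π / 2)) =
          α 0 * β 0 := by linear_combination (α 0 * β 0) * w
      rwa [this]
    · subst h
      refine wloc_shift (wloc_abs (cβ.mul (c 0).2.1) cα.neg (c (π / 2)).2.2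
        (cϕ.sub continuousAt_const) cy z (fun τ => pq _ _) (hr.mono fun τ hτ => ?_)
        (fun P0 => ?_) fun τ => yu _ _)
      · simp only [Pi.mul_apply, Pi.neg_apply, sin_sub_pi_div_two, cos_sub_pi_div_two]
        linear_combination hτ
      · simp only [Pi.mul_apply, Pi.neg_apply] at P0 ⊢
        rw [P0] at w
        have : β 0 * sx (mm (δ 0)) (ω 0) 0 (π / 2) *
            (-α 0 * sy (mm (δ 0)) (ω 0) (π / 2) (π / 2)) = α 0 * β 0 := by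
          linear_combination (α 0 * β 0) * w
        rwa [this]
  · have pq : ∀ d w : ℝ, sy (mm d) w θ0 (π / 2) * cos (th (mm d) w θ0 (π / 2) - θs) =
        -sx (mm d) w θ0 (π / 2) * sin (th (mm d) w θ0 (π / 2) - θs) := by
      intro d w
      unfold sx sy
      rw [cos_sub, sin_sub, hs]
      ring
    refine ⟨false, fun δ ω ϕ h1 h2 ⟨cδ, cω, cϕ, α, β, cα, cβ, hab, hr⟩ => ?_⟩
    have c := ct δ ω cδ cω
    have cy := (c θ0).1.sub (continuousAt_const (y := θs))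
    have z : th (mm (δ 0)) (ω 0) θ0 (π / 2) - θs = 0 := by rw [h1, h2, y0]
    have w := wr (δ 0) (ω 0)
    simp only [pr, Bool.false_eq_true, if_false] at hr
    rcases hθ with h | h
    · subst h
      refine wloc_abs (cα.mul (c (π / 2)).2.2) cβ (c 0).2.1.neg cϕ cy z (fun τ => pq _ _) hr
        (fun P0 => ?_) fun τ => yu _ _
      simp only [Pi.mul_apply, Pi.neg_apply] at P0 ⊢
      rw [P0] at w
      have : α 0 * sy (mm (δ 0)) (ω 0) (π / 2) (π / 2) * (β 0 * -sx (mm (δ 0)) (ω 0) 0 (π / 2)) =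
          α 0 * β 0 := by linear_combination (α 0 * β 0) * w
      rwa [this]
    · subst h
      refine wloc_shift (wloc_abs (cβ.mul (c 0).2.2) cα.neg (c (π / 2)).2.1.neg
        (cϕ.sub continuousAt_const) cy z (fun τ => pq _ _) (hr.mono fun τ hτ => ?_)
        (fun P0 => ?_) fun τ => yu _ _)
      · simp only [Pi.mul_apply, Pi.neg_apply, sin_sub_pi_div_two, cos_sub_pi_div_two]
        linear_combination hτ
      · simp only [Pi.mul_apply, Pi.neg_apply] at P0 ⊢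
        rw [P0] at w
        have : β 0 * sy (mm (δ 0)) (ω 0) 0 (π / 2) *
            (-α 0 * -sx (mm (δ 0)) (ω 0) (π / 2) (π / 2)) = α 0 * β 0 := by
          linear_combination (α 0 * β 0) * w
        rwa [this]

end Pool.Agent.HillD
end

-- part Pool.Agent.P.MP_ae2765_an.WReg0
section

/-! An upper bound for the rotation, and the slope of the branches. -/

namespace Pool.Agent.HillD
open Real Set Filter Topology Asymptotics

variable {θ0 δ : ℝ} {l : ℕ}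

theorem wreg0_pos {a x : ℝ} (ha : 0 < a) : 0 < a * cos x ^ 2 + sin x ^ 2 := by
  have h := sin_sq_add_cos_sq x
  have h1 := sq_nonneg (sin x)
  have h2 := sq_nonneg (cos x)
  rcases h1.eq_or_lt with h3 | h3
  · have : cos x ^ 2 = 1 := by linarith
    rw [this]; linarith
  · have := mul_nonneg ha.le h2
    linarith

theorem wreg0_gauge {θ lam : ℝ → ℝ} {p d t : ℝ} (h0 : 0 < lam t)
    (hθ : HasDerivAt θ (p * (lam t ^ 2 * cos (θ t) ^ 2 + sin (θ t) ^ 2)) t)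
    (hl : HasDerivAt lam d t) :
    HasDerivAt (fun t => θ t + arctan ((1 - lam t) * (sin (θ t) * cos (θ t)) /
        (lam t * cos (θ t) ^ 2 + sin (θ t) ^ 2)))
      (p * lam t - d * (sin (θ t) * cos (θ t)) / (lam t ^ 2 * cos (θ t) ^ 2 + sin (θ t) ^ 2)) t := by
  have hv := wreg0_pos (x := θ t) h0
  have hW := wreg0_pos (x := θ t) (pow_pos h0 2)
  have hu := (hl.const_sub 1).fun_mul (hθ.sin.fun_mul hθ.cos)
  have hv' := (hl.fun_mul (hθ.cos.fun_pow 2)).fun_add (hθ.sin.fun_pow 2)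
  refine (hθ.fun_add (hu.fun_div hv' hv.ne').arctan).congr_deriv ?_
  have h := sin_sq_add_cos_sq (θ t)
  generalize sin (θ t) = s at *
  generalize cos (θ t) = c at *
  generalize lam t = a at *
  have e : 1 + ((1 - a) * (s * c) / (a * c ^ 2 + s ^ 2)) ^ 2
      = (a ^ 2 * c ^ 2 + s ^ 2) / (a * c ^ 2 + s ^ 2) ^ 2 := by
    field_simp
    linear_combination (a ^ 2 * c ^ 2 + s ^ 2) * h
  rw [e]
  generalize hW' : a ^ 2 * c ^ 2 + s ^ 2 = W at *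
  have e2 : ∀ X : ℝ, 1 / (W / (a * c ^ 2 + s ^ 2) ^ 2) * (X / (a * c ^ 2 + s ^ 2) ^ 2) = X / W := by
    intro X
    field_simp
  rw [e2]
  field_simp
  subst hW'
  simp only [Nat.cast_ofNat, Nat.add_one_sub_one, pow_one]
  linear_combination (p * (a ^ 2 * c ^ 2 + s ^ 2) *
    (a * (s ^ 2 + c ^ 2 + 1) - (a ^ 2 * c ^ 2 + s ^ 2)) - d * s * c) * h

theorem wreg0_sc (hθ : θ0 = 0 ∨ θ0 = π / 2) (n : ℕ) :
    sin (θ0 + n * (π / 2)) * cos (θ0 + n * (π / 2)) = 0 := by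
  have h := sin_two_mul (θ0 + n * (π / 2))
  have h1 : sin (2 * (θ0 + n * (π / 2))) = 0 := by
    rcases hθ with rfl | rfl
    · rw [show 2 * (0 + n * (π / 2)) = n * π by ring, sin_nat_mul_pi]
    · rw [show 2 * (π / 2 + n * (π / 2)) = (n + 1 : ℕ) * π by push_cast; ring, sin_nat_mul_pi]
  linarith

theorem gauge_bound (hθ : θ0 = 0 ∨ θ0 = π / 2) (hl : 1 ≤ l) (hδ : 0 < δ) :
    l * π ≤ 2 * Mn (π / 2) (cur θ0 l (mm δ)) (jj δ) +
      log (1 + δ ^ 2 / cur θ0 l (mm δ)) / 2 := by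
  have hm0 := mm_pos hδ
  have hm := mm_lt δ
  have hm1 := mm_lt_one δ
  have hω := (cur_spec hθ hl hm0.le hm).1
  have hhalf := th_half hθ hl hm0.le hm
  have hme := mm_eq δ
  set ω := cur θ0 l (mm δ) with hωdef
  obtain ⟨hang, hzero⟩ := th_spec hm1 ω θ0
  have hj : 0 < jj δ := by unfold jj; positivity
  have hj2 : jj δ < 1 / 2 := by
    unfold jj
    exact one_div_lt_one_div_of_lt (by norm_num) (by nlinarith)
  have hq := (qr_cont hω hj hj2).1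
  have hab := fun t => (cA_cB hδ hω t).2.1
  set m := mm δ with hmdef
  set θ := th m ω θ0 with hθdef
  set N : ℝ → ℝ := fun t => ω * (1 - 2 * m) + 2 * m * cos t ^ 2 with hN
  have hNpos : ∀ t, 0 < N t := fun t => by
    have h1 : 0 < ω * (1 - 2 * m) := mul_pos hω (by linarith)
    have h2 : 0 ≤ 2 * m * cos t ^ 2 := by positivity
    simp only [hN]; linarith
  set g : ℝ → ℝ := fun t => (log ω - log (N t)) / 2 with hg
  have hgd : ∀ t, HasDerivAt g (2 * m * (sin t * cos t) / N t) t := fun t => by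
    have h1 : HasDerivAt N (-(4 * m * (sin t * cos t))) t :=
      ((((hasDerivAt_cos t).fun_pow 2).const_mul (2 * m)).const_add _).congr_deriv (by simp; ring)
    refine (((h1.log (hNpos t).ne').const_sub (log ω)).div_const 2).congr_deriv ?_
    ring
  have hsq : ∀ t, exp (g t) ^ 2 = ω / N t := fun t => by
    rw [← exp_nat_mul, ← exp_log (div_pos hω (hNpos t)), log_div hω.ne' (hNpos t).ne']
    congr 1
    simp only [hg]; push_cast; ring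
  have hb : ∀ t, 0 < cB m ω t := fun t => div_pos (hNpos t) (pm_pos hm1 t)
  have ha : ∀ t, cA m ω t = cB m ω t * exp (g t) ^ 2 := fun t => by
    have h1 := (hNpos t).ne'
    have h2 := (pm_pos hm1 t).ne'
    rw [hsq]
    show ω / pm m t = N t / pm m t * (ω / N t)
    field_simp
  have hqe : ∀ t, cB m ω t * exp (g t) = qr ω (jj δ) t := fun t => by
    have h1 : 0 ≤ qr ω (jj δ) t := sqrt_nonneg _
    refine (sq_eq_sq₀ (mul_pos (hb t) (exp_pos _)).le h1).1 ?_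
    rw [← hab t, ha t]; ring
  set F : ℝ → ℝ := fun t => θ t + arctan ((1 - exp (g t)) * (sin (θ t) * cos (θ t)) /
      (exp (g t) * cos (θ t) ^ 2 + sin (θ t) ^ 2)) - (∫ s in (0 : ℝ)..t, qr ω (jj δ) s) - g t / 2
    with hF
  have hFd : ∀ t, HasDerivAt F (-(2 * m * (sin t * cos t) / N t *
      ((exp (g t) * cos (θ t) + sin (θ t)) ^ 2 /
        (2 * (exp (g t) ^ 2 * cos (θ t) ^ 2 + sin (θ t) ^ 2))))) t := fun t => by
    have h1 : HasDerivAt θ (cB m ω t * (exp (g t) ^ 2 * cos (θ t) ^ 2 + sin (θ t) ^ 2)) t :=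
      (hang t).congr_deriv (by rw [ha]; ring)
    have h2 := wreg0_gauge (lam := fun t => exp (g t)) (exp_pos _) h1 (hgd t).exp
    refine ((h2.fun_sub (hasDerivAt_int hq t)).fun_sub ((hgd t).div_const 2)).congr_deriv ?_
    have h3 := (wreg0_pos (x := θ t) (pow_pos (exp_pos (g t)) 2)).ne'
    rw [hqe]
    generalize 2 * m * (sin t * cos t) / N t = d
    field_simp
    ring
  have hanti : AntitoneOn F (Icc 0 (π / 2)) := by
    refine antitoneOn_of_deriv_nonpos (convex_Icc _ _)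
      (fun t _ => (hFd t).continuousAt.continuousWithinAt)
      (fun t _ => (hFd t).differentiableAt.differentiableWithinAt) (fun t ht => ?_)
    rw [interior_Icc] at ht
    rw [(hFd t).deriv, neg_nonpos]
    have h1 : 0 ≤ sin t := sin_nonneg_of_nonneg_of_le_pi ht.1.le (by linarith [ht.2, pi_pos])
    have h2 : 0 ≤ cos t := cos_nonneg_of_mem_Icc ⟨by linarith [ht.1, pi_pos], ht.2.le⟩
    have h3 := hNpos t
    positivity
  have hp : (0 : ℝ) ≤ π / 2 := by positivity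
  have key := hanti (left_mem_Icc.2 hp) (right_mem_Icc.2 hp) hp
  have z0 : sin θ0 * cos θ0 = 0 := by simpa using wreg0_sc hθ 0
  have z1 := wreg0_sc hθ l
  simp only [hF, hhalf, hzero, z0, z1, mul_zero, zero_div, arctan_zero, add_zero,
    intervalIntegral.integral_same, sub_zero] at key
  have e1 : log (1 + δ ^ 2 / ω) = log (N 0) - log (N (π / 2)) := by
    rw [← log_div (hNpos _).ne' (hNpos _).ne']
    congr 1
    have h1 : (1 - 2 * m) ≠ 0 := by linarith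
    simp only [hN, cos_zero, cos_pi_div_two]
    field_simp
    linear_combination ω * hme
  rw [e1]
  unfold Mn
  simp only [hg] at key
  linarith

end Pool.Agent.HillD
end

-- part Pool.Agent.P.MP_ae2765_an.WReg1
section

/-! An upper bound for the rotation, and the slope of the branches. -/

namespace Pool.Agent.HillD
open Real Set Filter Topology Asymptotics

variable {θ0 δ : ℝ} {l : ℕ}

/-- A constant diagonal gauge keeps the multiples of a right angle. -/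
theorem wreg1_gauge {a b θ v : ℝ → ℝ} {μ T : ℝ} (ha : Continuous a) (hb : Continuous b)
    (hμ : 0 < μ) (h : IsAng a b θ) (hv : IsAng (fun t => a t * μ) (fun t => b t / μ) v)
    (h0 : v 0 = θ 0) (e0 : sin (θ 0) = 0 ∨ cos (θ 0) = 0) (e1 : sin (θ T) = 0 ∨ cos (θ T) = 0) :
    v T = θ T := by
  have l1 := lin_of_ang ha hb h
  have ha' : Continuous fun t => a t * μ := by fun_prop
  have hb' : Continuous fun t => b t / μ := by fun_prop
  have l2 : IsLin (fun t => a t * μ) (fun t => b t / μ) (fun t => rad a b θ t * sin (θ t))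
      (fun t => rad a b θ t * cos (θ t) / μ) := fun t =>
    ⟨(l1 t).1.congr_deriv (by field_simp), ((l1 t).2.div_const μ).congr_deriv (by ring)⟩
  obtain ⟨ρ, hρ, hx, hy⟩ : ∃ ρ : ℝ, 0 < ρ ∧ rad a b θ 0 * sin (θ 0) = ρ * sin (v 0) ∧
      rad a b θ 0 * cos (θ 0) / μ = ρ * cos (v 0) := by
    rw [rad_zero, h0]
    rcases e0 with e | e
    · exact ⟨1 / μ, by positivity, by simp [e], by ring⟩
    · exact ⟨1, one_pos, rfl, by simp [e]⟩
  have hr := rad_pos a b θ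
  have k := gauge_lin ha' hb' hv l2 h.cont h0 hρ hx hy
    (fun t => ⟨_, hr t, rad a b θ t / μ, div_pos (hr t) hμ, 0, rfl, by ring⟩) T
  obtain ⟨r1, r2⟩ := repr ha' hb' hv l2 hx hy T
  have hp := rad_pos (fun t => a t * μ) (fun t => b t / μ) v T
  generalize rad (fun t => a t * μ) (fun t => b t / μ) v T = R at r1 r2 hp
  refine gauge_end (α := rad a b θ T / (ρ * R)) (γ := rad a b θ T / μ / (ρ * R)) k ?_ ?_ e1
  · rw [div_mul_eq_mul_div, r1]; field_simp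
  · rw [div_mul_eq_mul_div, div_mul_eq_mul_div, r2]; field_simp

theorem wreg1_cB (δ ω t : ℝ) :
    cB (mm δ) ω t = (ω + δ ^ 2 * cos t ^ 2) / (1 + δ ^ 2) / pm (mm δ) t := by
  unfold cB mm
  congr 1
  field_simp
  ring

theorem cur_div_anti (hθ : θ0 = 0 ∨ θ0 = π / 2) (hl : 1 ≤ l) :
    AntitoneOn (fun δ => cur θ0 l (mm δ) / √(1 + δ ^ 2)) (Ioi 0) := by
  intro x hx y hy hxy
  rw [mem_Ioi] at hx hy
  obtain ⟨c0, c1⟩ := cur_spec hθ hl (mm_nonneg x) (mm_lt x)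
  generalize hω : cur θ0 l (mm x) = ω at c0 c1
  have hs : x ^ 2 ≤ y ^ 2 := by gcongr
  obtain ⟨p, p1, p2, p3⟩ : ∃ p, 1 ≤ p ∧ p ^ 2 = 1 + x ^ 2 ∧ √(1 + x ^ 2) = p :=
    ⟨_, one_le_sqrt.2 (by nlinarith), sq_sqrt (by positivity), rfl⟩
  obtain ⟨q, q1, q2, q3⟩ : ∃ q, p ≤ q ∧ q ^ 2 = 1 + y ^ 2 ∧ √(1 + y ^ 2) = q :=
    ⟨√(1 + y ^ 2), p3.symm.trans_le (sqrt_le_sqrt (by linarith)), sq_sqrt (by positivity), rfl⟩
  have p0 : 0 < p := by linarith
  have q0 : 0 < q := by linarith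
  have hμ : 0 < q / p := by positivity
  have ha := cA_cont (mm_lt_one x) ω
  have hb := cB_cont (mm_lt_one x) ω
  obtain ⟨t1, t2⟩ := th_spec (mm_lt_one x) ω θ0
  obtain ⟨v, hv, v0⟩ := exists_ang (a := fun t => cA (mm x) ω t * (q / p))
    (b := fun t => cB (mm x) ω t / (q / p)) (by fun_prop) (by fun_prop) θ0
  have k := wreg1_gauge (T := π) ha hb hμ t1 hv (v0.trans t2.symm)
    (by rw [t2]; rcases hθ with rfl | rfl <;> simp)
    (by rw [c1, sin_add_nat_mul_pi, cos_add_nat_mul_pi]; rcases hθ with rfl | rfl <;> simp)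
  obtain ⟨s1, s2⟩ := th_spec (mm_lt_one y) (ω * (q / p)) θ0
  have hpm : ∀ t, pm (mm y) t ≤ pm (mm x) t := fun t => by
    have : mm x ≤ mm y := by
      rcases hxy.eq_or_lt with rfl | h
      · exact le_rfl
      · exact (mm_strictMono hx.le h).le
    unfold pm Dm
    gcongr
  have k2 := cmp_le (by fun_prop) (by fun_prop) s1 hv pi_pos.le (fun t _ => by
      have := pm_pos (mm_lt_one y) t
      unfold cA
      rw [div_mul_eq_mul_div]
      gcongr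
      exact hpm t)
    (fun t _ => by
      have := pm_pos (mm_lt_one y) t
      rw [wreg1_cB, wreg1_cB, div_right_comm]
      refine div_le_div₀ (by positivity) ?_ this (hpm t)
      rw [← p2, ← q2, show x ^ 2 = p ^ 2 - 1 by linarith, show y ^ 2 = q ^ 2 - 1 by linarith,
        ← sub_nonneg, show (ω * (q / p) + (q ^ 2 - 1) * cos t ^ 2) / q ^ 2 -
          (ω + (p ^ 2 - 1) * cos t ^ 2) / p ^ 2 / (q / p) =
          (q - p) * (p * q + 1) * cos t ^ 2 / (p * q ^ 2) by field_simp; ring]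
      have : 0 ≤ q - p := by linarith
      positivity) (by rw [v0, s2])
  rw [k, c1] at k2
  have k3 := mt (lt_cur_iff hθ hl (mm_nonneg y) (mm_lt y) (ω := ω * (q / p)) (by positivity)).1
    (not_lt.2 k2)
  show cur θ0 l (mm y) / √(1 + y ^ 2) ≤ cur θ0 l (mm x) / √(1 + x ^ 2)
  rw [hω, p3, q3, div_le_iff₀ q0]
  exact (not_lt.1 k3).trans_eq (by ring)

theorem slope_bd (hθ : θ0 = 0 ∨ θ0 = π / 2) (hl : 2 ≤ l) (hδ : 0 < δ) :
    0 ≤ δ * deriv (fun δ => cur θ0 l (mm δ)) δ / cur θ0 l (mm δ) ∧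
    δ * deriv (fun δ => cur θ0 l (mm δ)) δ / cur θ0 l (mm δ) ≤ δ ^ 2 / (1 + δ ^ 2) := by
  obtain ⟨h1, -, h2, -⟩ := isLine hθ (.inl hl)
  have c0 := (cur_spec hθ (show 1 ≤ l by omega) (mm_nonneg δ) (mm_lt δ)).1
  have hd := (h1 δ hδ).differentiableAt.hasDerivAt
  have hacc : AccPt δ (𝓟 (Ioi 0)) := (uniqueDiffOn_Ioi 0 δ hδ).accPt
  have a1 := hd.hasDerivWithinAt.nonneg_of_monotoneOn hacc h2.monotoneOn
  have E0 : 0 < 1 + δ ^ 2 := by positivity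
  have hs : HasDerivAt (fun x : ℝ => √(1 + x ^ 2)) (2 * δ / (2 * √(1 + δ ^ 2))) δ :=
    (((hasDerivAt_pow 2 δ).const_add 1).sqrt E0.ne').congr_deriv (by simp)
  have s0 := sqrt_pos.2 E0
  have a2 := (hd.fun_div hs s0.ne').hasDerivWithinAt.nonpos_of_antitoneOn hacc
    (cur_div_anti hθ (by omega))
  refine ⟨by positivity, ?_⟩
  have s1 := sq_sqrt E0.le
  generalize √(1 + δ ^ 2) = s at a2 s0 s1
  generalize deriv (fun δ => cur θ0 l (mm δ)) δ = f' at a1 a2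
  generalize cur θ0 l (mm δ) = f at a2 c0
  rw [← s1, div_le_div_iff₀ c0 (by positivity)]
  rw [show (f' * s - f * (2 * δ / (2 * s))) / s ^ 2 = (f' * s ^ 2 - δ * f) / s ^ 3 by field_simp,
    div_nonpos_iff] at a2
  have a3 : f' * s ^ 2 - δ * f ≤ 0 := by
    rcases a2 with h | h
    · exact absurd h.2 (not_le.2 (by positivity))
    · exact h.1
  nlinarith [mul_le_mul_of_nonneg_left a3 hδ.le]

end Pool.Agent.HillD
end

-- part Pool.Agent.P.MP_ae2765_an.WReg2a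
section

/-! Lower bounds for the branches with index at least 31. -/

namespace Pool.Agent.HillD
open Real Set Filter Topology Asymptotics

variable {θ0 δ ω : ℝ} {l : ℕ}

theorem wreg2a_sq (hδ : 0 < δ) (φ : ℝ) :
    2 * ω * Pr ω (jj δ) φ / Qr (jj δ) φ =
      2 * ω * (ω + δ ^ 2 * cos φ ^ 2) / (δ ^ 2 + 2 + δ ^ 2 * cos φ ^ 2) := by
  have h1 : 0 < δ ^ 2 + 2 := by positivity
  have h2 : 0 < δ ^ 2 + 2 + δ ^ 2 * cos φ ^ 2 := by positivity
  have e1 : Pr ω (jj δ) φ = (ω + δ ^ 2 * cos φ ^ 2) / (δ ^ 2 + 2) := by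
    unfold Pr jj
    field_simp
    ring
  have e2 : Qr (jj δ) φ = (δ ^ 2 + 2 + δ ^ 2 * cos φ ^ 2) / (δ ^ 2 + 2) := by
    unfold Qr jj
    field_simp
    ring
  rw [e1, e2]
  field_simp

theorem wreg2a_cont (hδ : 0 < δ) : Continuous (qr ω (jj δ)) := by
  have e : qr ω (jj δ) = fun φ =>
      √(2 * ω * (ω + δ ^ 2 * cos φ ^ 2) / (δ ^ 2 + 2 + δ ^ 2 * cos φ ^ 2)) := by
    funext φ
    rw [qr, wreg2a_sq hδ]
  rw [e]
  refine Continuous.sqrt (Continuous.div (by fun_prop) (by fun_prop) fun φ => ?_)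
  positivity

/-- the pointwise bound `q ≤ S √R` -/
theorem wreg2a_le (hδ : 0 < δ) (hω : 0 < ω) (φ : ℝ) {g : ℝ} (hg : 0 ≤ g)
    (h : 1 + δ ^ 2 / ω * cos φ ^ 2 ≤ g ^ 2 * (1 + cos φ ^ 2)) :
    qr ω (jj δ) φ ≤ ω * √(2 / (1 + δ ^ 2)) * g := by
  rw [qr, wreg2a_sq hδ]
  refine sqrt_le_iff.2 ⟨by positivity, ?_⟩
  have hX : cos φ ^ 2 ≤ 1 := cos_sq_le_one φ
  have hX0 : 0 ≤ cos φ ^ 2 := sq_nonneg _
  generalize cos φ ^ 2 = X at *
  have hD : 0 < δ ^ 2 := by positivity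
  generalize δ ^ 2 = D at *
  rw [mul_pow, mul_pow, sq_sqrt (by positivity), div_le_iff₀ (by positivity)]
  have h' : ω + D * X ≤ ω * (g ^ 2 * (1 + X)) := by
    have := mul_le_mul_of_nonneg_left h hω.le
    have e : ω * (1 + D / ω * X) = ω + D * X := by field_simp
    rwa [e] at this
  have h2 : 1 + X ≤ (D + 2 + D * X) / (1 + D) := by
    rw [le_div_iff₀ (by positivity)]
    nlinarith
  calc 2 * ω * (ω + D * X) ≤ 2 * ω * (ω * (g ^ 2 * (1 + X))) := by gcongr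
    _ ≤ 2 * ω * (ω * (g ^ 2 * ((D + 2 + D * X) / (1 + D)))) := by gcongr
    _ = ω ^ 2 * (2 / (1 + D)) * g ^ 2 * (D + 2 + D * X) := by
      field_simp

theorem wreg2a_int (A B C : ℝ) :
    ∫ φ in (0 : ℝ)..π / 2, (A + B * cos (2 * φ) + C * cos (2 * φ) ^ 2) = π / 2 * (A + C / 2) := by
  have hd : ∀ φ ∈ uIcc (0 : ℝ) (π / 2), HasDerivAt
      (fun φ => (A + C / 2) * φ + B / 2 * sin (2 * φ) + C / 4 * (sin (2 * φ) * cos (2 * φ)))
      (A + B * cos (2 * φ) + C * cos (2 * φ) ^ 2) φ := by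
    intro φ _
    have h2 : HasDerivAt (fun φ : ℝ => 2 * φ) 2 φ := by
      simpa using (hasDerivAt_id φ).const_mul (2 : ℝ)
    have h := (((hasDerivAt_id φ).const_mul (A + C / 2)).add (h2.sin.const_mul (B / 2))).add
      ((h2.sin.mul h2.cos).const_mul (C / 4))
    refine h.congr_deriv ?_
    have := sin_sq_add_cos_sq (2 * φ)
    linear_combination (-(C / 2)) * this
  rw [intervalIntegral.integral_eq_sub_of_hasDerivAt hd
    (Continuous.intervalIntegrable (by fun_prop) _ _)]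
  rw [show 2 * (π / 2) = π by ring]
  simp
  ring

theorem wreg2a_Mn (hδ : 0 < δ) {S A B C : ℝ}
    (h : ∀ φ, qr ω (jj δ) φ ≤ S * (A + B * cos (2 * φ) + C * cos (2 * φ) ^ 2)) :
    Mn (π / 2) ω (jj δ) ≤ S * (π / 2 * (A + C / 2)) := by
  rw [← wreg2a_int A B C, ← intervalIntegral.integral_const_mul, Mn]
  exact intervalIntegral.integral_mono_on (by positivity)
    ((wreg2a_cont hδ).intervalIntegrable _ _)
    (Continuous.intervalIntegrable (by fun_prop) _ _) fun φ _ => h φ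

theorem reg_a (hθ : θ0 = 0 ∨ θ0 = π / 2) (hl : 31 ≤ l) (hδ : 0 < δ) (hω : ω = cur θ0 l (mm δ))
    (ht : δ ^ 2 ≤ ω) : 154 / 5 ≤ ω * √(2 / (1 + δ ^ 2)) := by
  have hω0 : 0 < ω := lt_of_lt_of_le (by positivity) ht
  have hg := gauge_bound hθ (show 1 ≤ l by omega) hδ
  rw [← hω] at hg
  have ht1 : δ ^ 2 / ω ≤ 1 := (div_le_one hω0).2 ht
  have ht0 : 0 ≤ δ ^ 2 / ω := by positivity
  have hM := wreg2a_Mn (ω := ω) (S := ω * √(2 / (1 + δ ^ 2))) (A := 1) (B := 0) (C := 0) hδ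
    fun φ => by
      refine wreg2a_le hδ hω0 φ (by norm_num) ?_
      nlinarith [sq_nonneg (cos φ)]
  have hlog : log (1 + δ ^ 2 / ω) ≤ δ ^ 2 / ω := by
    have := log_le_sub_one_of_pos (show 0 < 1 + δ ^ 2 / ω by positivity)
    linarith
  have hl' : (31 : ℝ) ≤ l := by exact_mod_cast hl
  have hpi := pi_gt_three
  generalize ω * √(2 / (1 + δ ^ 2)) = S at *
  have h1 : 31 * π ≤ π * S + 1 / 2 := by nlinarith
  by_contra hc
  push Not at hc
  nlinarith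

theorem reg_b (hθ : θ0 = 0 ∨ θ0 = π / 2) (hl : 31 ≤ l) (hδ : 0 < δ) (hω : ω = cur θ0 l (mm δ))
    (ht : δ ^ 2 ≤ ω) (h : (1 + δ ^ 2) ^ 2 / ω ≤ 23 / 5) : 69 / 2 ≤ ω * √(2 / (1 + δ ^ 2)) := by
  have hω0 : 0 < ω := lt_of_lt_of_le (by positivity) ht
  have ha := reg_a hθ hl hδ hω ht
  have hg := gauge_bound hθ (show 1 ≤ l by omega) hδ
  rw [← hω] at hg
  have ht0 : 0 ≤ δ ^ 2 / ω := by positivity
  have hE : 0 < 1 + δ ^ 2 := by positivity
  have hS : (154 / 5 : ℝ) ^ 2 ≤ ω ^ 2 * (2 / (1 + δ ^ 2)) := by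
    have := pow_le_pow_left₀ (by norm_num) ha 2
    rwa [mul_pow, sq_sqrt (by positivity)] at this
  have hu : (1 + δ ^ 2) / ω ≤ 214 / 1000 := by
    have e1 : (1 + δ ^ 2) / ω ^ 2 ≤ 2 / (154 / 5) ^ 2 := by
      rw [div_le_div_iff₀ (by positivity) (by positivity)]
      rw [← mul_div_assoc, le_div_iff₀ hE] at hS
      linarith
    have e2 : ((1 + δ ^ 2) / ω) ^ 3 = (1 + δ ^ 2) ^ 2 / ω * ((1 + δ ^ 2) / ω ^ 2) := by
      field_simp
    have e3 : ((1 + δ ^ 2) / ω) ^ 3 ≤ (214 / 1000 : ℝ) ^ 3 := by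
      rw [e2]
      refine (mul_le_mul h e1 (by positivity) (by norm_num)).trans (by norm_num)
    exact (pow_le_pow_iff_left₀ (by positivity) (by norm_num) (by norm_num)).1 e3
  have ht1 : δ ^ 2 / ω ≤ 214 / 1000 := by
    refine le_trans ?_ hu
    gcongr
    linarith
  have hM := wreg2a_Mn (ω := ω) (S := ω * √(2 / (1 + δ ^ 2)))
    (A := 885 / 2000 + 738 / 1770) (B := -(524 / 5310)) (C := 524 / 10620) hδ
    fun φ => by
      have hc := cos_sq φ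
      have c1 := cos_le_one (2 * φ)
      have c2 := neg_one_le_cos (2 * φ)
      generalize cos (2 * φ) = c at *
      refine wreg2a_le hδ hω0 φ (by nlinarith [sq_nonneg c]) ?_
      rw [hc]
      set R : ℝ := 738 / 1000 - 524 / 3000 * c + 524 / 6000 * c ^ 2 with hR
      have e : 885 / 2000 + 738 / 1770 + -(524 / 5310) * c + 524 / 10620 * c ^ 2 =
          (885 / 1000 + R / (885 / 1000)) / 2 := by
        rw [hR]
        ring
      have h1 : R ≤ ((885 / 1000 + R / (885 / 1000)) / 2) ^ 2 := by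
        nlinarith [sq_nonneg (885 / 1000 - R / (885 / 1000))]
      have h2 : 1 + 214 / 1000 * (1 / 2 + c / 2) ≤ R * (1 + (1 / 2 + c / 2)) := by
        rw [hR]
        nlinarith [mul_nonneg (sq_nonneg c) (show 0 ≤ 1 + c by linarith)]
      rw [e]
      calc 1 + δ ^ 2 / ω * (1 / 2 + c / 2) ≤ 1 + 214 / 1000 * (1 / 2 + c / 2) := by
            gcongr
            linarith
        _ ≤ R * (1 + (1 / 2 + c / 2)) := h2
        _ ≤ _ := by
            gcongr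
            linarith
  have hlog : log (1 + δ ^ 2 / ω) ≤ δ ^ 2 / ω := by
    have := log_le_sub_one_of_pos (show 0 < 1 + δ ^ 2 / ω by positivity)
    linarith
  have hl' : (31 : ℝ) ≤ l := by exact_mod_cast hl
  have hpi := pi_gt_three
  generalize ω * √(2 / (1 + δ ^ 2)) = S at *
  have h1 : 31 * π ≤ π * S * (885 / 1000) + 107 / 1000 := by nlinarith
  by_contra hc
  push Not at hc
  nlinarith

end Pool.Agent.HillD
end
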