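import Pool.Agent.K.MP_ae2765_an.C20
import Pool.Agent.K.MP_ae2765_an.C6
import Pool.Agent.K.MP_ae2765_an.C15
import Pool.Agent.K.MP_ae2765_an.C17

-- part Pool.Agent.P.MP_ae2765_an.WReg2
section

/-! Lower bounds for the branches with index at least 31. -/

namespace Pool.Agent.HillD
open Real Set Filter Topology Asymptotics

variable {θ0 δ ω : ℝ} {l : ℕ}

theorem wreg2_mono (hθ : θ0 = 0 ∨ θ0 = π / 2) (hl : 31 ≤ l) {x y : ℝ} (hx : 0 ≤ x) (h : x ≤ y) :
    cur θ0 l (mm x) ≤ cur θ0 l (mm y) := by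
  rcases h.eq_or_lt with rfl | h
  · exact le_rfl
  · exact (cur_strictMono hθ (Or.inl (by omega)) ⟨mm_nonneg x, mm_lt x⟩ ⟨mm_nonneg y, mm_lt y⟩
      (mm_strictMono hx h)).le

theorem wreg2_ge (hθ : θ0 = 0 ∨ θ0 = π / 2) (hl : 31 ≤ l) {x : ℝ} (hx : 0 ≤ x) :
    31 ≤ cur θ0 l (mm x) := by
  have h1 := wreg2_mono hθ hl le_rfl hx
  have h2 : mm 0 = 0 := by simp [mm]
  rw [h2, cur_zero hθ (by omega)] at h1
  have h3 : (31 : ℝ) ≤ l := by exact_mod_cast hl
  linarith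

theorem reg_c (hθ : θ0 = 0 ∨ θ0 = π / 2) (hl : 31 ≤ l) (hδ : 0 < δ) (hω : ω = cur θ0 l (mm δ))
    (ht : ω ≤ δ ^ 2) : 475 ≤ ω := by
  have h31 := wreg2_ge hθ hl hδ.le
  have h1 : 1 ≤ δ := by nlinarith
  have hc : ContinuousOn (fun x => cur θ0 l (mm x) - x ^ 2) (Icc 1 δ) := by
    intro x hx
    have hx0 : 0 < x := by linarith [hx.1]
    have c1 : ContinuousAt mm x := by
      unfold mm
      exact ContinuousAt.div (by fun_prop) (by fun_prop) (by positivity)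
    have c2 := (cur_cont hθ (by omega : 1 ≤ l) (mm_pos hx0) (mm_lt x)).comp c1
    exact (c2.sub (by fun_prop)).continuousWithinAt
  obtain ⟨x, hx, hx'⟩ := intermediate_value_Icc' h1 hc (show (0 : ℝ) ∈ Icc _ _ from
    ⟨by linarith, by linarith [wreg2_ge hθ hl zero_le_one]⟩)
  have hx0 : 0 < x := by linarith [hx.1]
  have e : x ^ 2 = cur θ0 l (mm x) := by simp only at hx'; linarith
  have h2 := reg_a hθ hl hx0 e le_rfl
  have h3 := wreg2_mono hθ hl hx0.le hx.2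
  rw [← e, ← hω] at h3
  refine le_trans ?_ h3
  generalize x ^ 2 = w at h2 e
  have hw : 31 ≤ w := e ▸ wreg2_ge hθ hl hx0.le
  have h4 : (154 / 5 : ℝ) ^ 2 ≤ (w * √(2 / (1 + w))) ^ 2 := by gcongr
  rw [mul_pow, sq_sqrt (by positivity), mul_div_assoc', le_div_iff₀ (by positivity)] at h4
  by_contra hc
  push Not at hc
  nlinarith

theorem wreg2_poly {X : ℝ} (h0 : 0 ≤ X) (h1 : X ≤ 1) :
    2500 * (101 / 1000 + X) ≤ (20 + 31 * X - 55 / 4 * X ^ 2) ^ 2 * (1 + X) := by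
  have h2 : 0 ≤ 1 - X := by linarith
  nlinarith [mul_nonneg h0 h2, mul_nonneg h0 (sq_nonneg (X - 1 / 3)),
    mul_nonneg h2 (sq_nonneg (X - 1 / 3)), mul_nonneg (mul_nonneg h0 h2) (sq_nonneg (X - 1 / 3)),
    mul_nonneg (mul_nonneg (mul_nonneg h0 h2) h0) (sq_nonneg (X - 1 / 3)),
    mul_nonneg (mul_nonneg (mul_nonneg h0 h2) h2) (sq_nonneg (X - 1 / 3)),
    sq_nonneg (X - 1 / 3), mul_nonneg (mul_nonneg h0 h0) h2, mul_nonneg (mul_nonneg h0 h2) h2]

theorem wreg2_qr {w : ℝ} (h0 : 0 ≤ w) (h1 : w ≤ 1250) (φ : ℝ) :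
    qr w (1 / 12401) φ ≤ 20 + 31 * cos φ ^ 2 - 55 / 4 * cos φ ^ 4 := by
  unfold qr Pr Qr
  have a0 := sq_nonneg (cos φ)
  have a1 := cos_sq_le_one φ
  rw [show cos φ ^ 4 = (cos φ ^ 2) ^ 2 by ring]
  generalize cos φ ^ 2 = X at a0 a1
  have h2 := wreg2_poly a0 a1
  have h3 : 0 ≤ 20 + 31 * X - 55 / 4 * X ^ 2 := by nlinarith
  refine sqrt_le_iff.2 ⟨h3, ?_⟩
  have h4 : 2500 * (101 / 1000 + X) / (1 + X) ≤ (20 + 31 * X - 55 / 4 * X ^ 2) ^ 2 := by
    rwa [div_le_iff₀ (by positivity)]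
  refine le_trans ?_ h4
  have h5 : (w * (1 / 12401) + (1 - 2 * (1 / 12401)) * X) / (1 + (1 - 2 * (1 / 12401)) * X) ≤
      (101 / 1000 + X) / (1 + X) := by
    rw [div_le_div_iff₀ (by positivity) (by positivity)]
    nlinarith [mul_nonneg a0 (sub_nonneg.2 h1)]
  rw [mul_div_assoc, mul_div_assoc]
  exact mul_le_mul (by linarith) h5 (by positivity) (by norm_num)

theorem wreg2_Mn {w : ℝ} (h0 : 0 ≤ w) (h1 : w ≤ 1250) :
    Mn (π / 2) w (1 / 12401) ≤ 971 / 64 * π := by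
  have c2 : ∫ x in (0 : ℝ)..π / 2, cos x ^ 2 = π / 4 := by
    rw [integral_cos_sq]
    simp
    ring
  have c4 : ∫ x in (0 : ℝ)..π / 2, cos x ^ 4 = 3 * π / 16 := by
    rw [show (4 : ℕ) = 2 + 2 from rfl, integral_cos_pow, c2]
    simp
    ring
  have hq : Continuous (qr w (1 / 12401)) := by
    unfold qr Pr Qr
    refine Continuous.sqrt (Continuous.div (by fun_prop) (by fun_prop) fun x => ?_)
    positivity
  have i2 : IntervalIntegrable (fun x => cos x ^ 2) MeasureTheory.volume 0 (π / 2) :=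
    (by fun_prop : Continuous fun x => cos x ^ 2).intervalIntegrable _ _
  have i4 : IntervalIntegrable (fun x => cos x ^ 4) MeasureTheory.volume 0 (π / 2) :=
    (by fun_prop : Continuous fun x => cos x ^ 4).intervalIntegrable _ _
  have h2 : Mn (π / 2) w (1 / 12401) ≤
      ∫ x in (0 : ℝ)..π / 2, (20 + 31 * cos x ^ 2 - 55 / 4 * cos x ^ 4) :=
    intervalIntegral.integral_mono_on (by positivity) (hq.intervalIntegrable _ _)
      ((by fun_prop : Continuous fun x => 20 + 31 * cos x ^ 2 - 55 / 4 * cos x ^ 4).intervalIntegrable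
        _ _) fun x _ => wreg2_qr h0 h1 x
  rw [intervalIntegral.integral_sub (intervalIntegrable_const.add (i2.const_mul _)) (i4.const_mul _),
    intervalIntegral.integral_add intervalIntegrable_const (i2.const_mul _),
    intervalIntegral.integral_const_mul, intervalIntegral.integral_const_mul, c2, c4,
    intervalIntegral.integral_const, smul_eq_mul] at h2
  linarith

theorem wreg2_star (hθ : θ0 = 0 ∨ θ0 = π / 2) (hl : 31 ≤ l) : 1250 ≤ cur θ0 l (mm √12399) := by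
  have hp : 0 < √12399 := by positivity
  have hs : √12399 ^ 2 = 12399 := sq_sqrt (by norm_num)
  by_contra hc
  push Not at hc
  have h1 := reg_c hθ hl hp rfl (by linarith)
  have h2 := gauge_bound hθ (by omega : 1 ≤ l) hp
  have hj : jj √12399 = 1 / 12401 := by
    unfold jj
    rw [hs]
    norm_num
  rw [hj, hs] at h2
  generalize cur θ0 l (mm √12399) = w at hc h1 h2
  have h3 := wreg2_Mn (w := w) (by linarith) hc.le
  have h4 : 12399 / w ≤ 31 := by
    rw [div_le_iff₀ (by linarith)]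
    linarith
  have h5 : log (1 + 12399 / w) ≤ log (2 ^ 5) :=
    log_le_log (by positivity) (by linarith)
  rw [log_pow] at h5
  have h6 := log_two_lt_d9
  have h7 : (31 : ℝ) ≤ l := by exact_mod_cast hl
  have h8 := pi_gt_three
  have h9 : 31 * π ≤ l * π := by gcongr
  push_cast at h5
  linarith

theorem reg_d (hθ : θ0 = 0 ∨ θ0 = π / 2) (hl : 31 ≤ l) (hδ : 0 < δ) (hω : ω = cur θ0 l (mm δ)) :
    126 * (1 + δ ^ 2) ≤ ω ^ 2 ∨ 1250 ≤ ω := by
  have hp : 0 < √12399 := by positivity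
  have hs : √12399 ^ 2 = 12399 := sq_sqrt (by norm_num)
  have h1 := wreg2_star hθ hl
  rcases le_total δ √12399 with h | h
  · left
    have h2 := cur_div_anti hθ (by omega : 1 ≤ l) (mem_Ioi.2 hδ) (mem_Ioi.2 hp) h
    simp only at h2
    rw [hs, ← hω] at h2
    have h3 : 1250 / √(1 + 12399) ≤ ω / √(1 + δ ^ 2) := le_trans (by gcongr) h2
    have h4 : (1250 / √(1 + 12399)) ^ 2 ≤ (ω / √(1 + δ ^ 2)) ^ 2 := by gcongr
    rw [div_pow, div_pow, sq_sqrt (by positivity), sq_sqrt (by positivity),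
      le_div_iff₀ (by positivity)] at h4
    nlinarith [sq_nonneg δ]
  · right
    rw [hω]
    exact h1.trans (wreg2_mono hθ hl hp.le h)

/-- pure algebra: the alternative between the last two regions -/
theorem reg_e (hδ : 0 < δ) (ht : ω ≤ δ ^ 2) (h1 : 475 ≤ ω)
    (h2 : 126 * (1 + δ ^ 2) ≤ ω ^ 2 ∨ 1250 ≤ ω) :
    (1250 ≤ ω ∧ aa ω (jj δ) ≤ 5 / 2) ∨
      (5 / 2 ≤ aa ω (jj δ) ∧ 311 / 5 * (ω / δ ^ 2) ≤ aa ω (jj δ) ^ 2) := by
  have hD : 0 < δ ^ 2 := by positivity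
  have hω : 0 < ω := by linarith
  have hk : 1 - 2 * jj δ = δ ^ 2 / (δ ^ 2 + 2) := by
    unfold jj
    field_simp
    ring
  have a0 : 0 ≤ aa ω (jj δ) := by
    unfold aa jj
    positivity
  have a2 : aa ω (jj δ) ^ 2 = ω ^ 3 / (2 * δ ^ 2 * (δ ^ 2 + 2)) := by
    unfold aa
    rw [hk, mul_pow, sq_sqrt (by positivity)]
    unfold jj
    field_simp
  generalize aa ω (jj δ) = a at a0 a2
  generalize δ ^ 2 = D at ht h2 hD a2
  have k1 : 622 / 5 * (D + 2) ≤ ω ^ 2 → 311 / 5 * (ω / D) ≤ a ^ 2 := fun h => by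
    rw [a2, mul_div_assoc', div_le_div_iff₀ hD (by positivity)]
    nlinarith [mul_le_mul_of_nonneg_left h (mul_pos hω hD).le]
  by_cases h3 : 1250 ≤ ω
  · rcases le_total a (5 / 2) with h | h
    · exact Or.inl ⟨h3, h⟩
    · refine Or.inr ⟨h, k1 ?_⟩
      have h4 : (5 / 2) ^ 2 ≤ a ^ 2 := by gcongr
      rw [a2, le_div_iff₀ (by positivity)] at h4
      by_contra hc
      push Not at hc
      have h5 : 1250 * ω ≤ ω ^ 2 := by nlinarith
      have h6 : 10 * ω ≤ D := by linarith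
      have h7 : ω * ω ^ 2 < ω * (622 / 5 * (D + 2)) := mul_lt_mul_of_pos_left hc hω
      have h8 : 10 * ω * (D + 2) ≤ D * (D + 2) := by gcongr
      nlinarith
  · push Not at h3
    have h4 := h2.resolve_right (not_le.2 h3)
    refine Or.inr ⟨?_, k1 (by linarith)⟩
    refine (abs_le_of_sq_le_sq' ?_ a0).2
    rw [a2, le_div_iff₀ (by positivity)]
    have h5 : (126 * (1 + D)) ^ 2 ≤ (ω ^ 2) ^ 2 := by gcongr
    have h6 : ω ^ 3 * ω ≤ ω ^ 3 * 1250 := by gcongr
    nlinarith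

end Pool.Agent.HillD
end

-- part Pool.Agent.P.MP_ae2765_an.WTop0
section

/-! The tangent line criterion and uniqueness of the inflection point. -/

namespace Pool.Agent.HillD
open Real Set Filter Topology Asymptotics

theorem wtop0_left {g : ℝ → ℝ} {x : ℝ} (h0 : g x = 0) (h1 : deriv g x < 0) :
    ∀ᶠ y in 𝓝[<] x, 0 < g y := by
  filter_upwards [(eventually_nhdsWithin_sign_eq_of_deriv_neg h1 h0).filter_mono
    nhdsWithin_le_nhds, self_mem_nhdsWithin] with y hy hyx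
  rw [sign_pos (sub_pos.2 (mem_Iio.1 hyx))] at hy
  exact sign_eq_one_iff.1 hy

theorem wtop0_right {g : ℝ → ℝ} {x : ℝ} (h0 : g x = 0) (h1 : deriv g x < 0) :
    ∀ᶠ y in 𝓝[>] x, g y < 0 := by
  filter_upwards [(eventually_nhdsWithin_sign_eq_of_deriv_neg h1 h0).filter_mono
    nhdsWithin_le_nhds, self_mem_nhdsWithin] with y hy hyx
  rw [sign_neg (sub_neg.2 (mem_Ioi.1 hyx))] at hy
  exact sign_eq_neg_one_iff.1 hy

/-- once negative, always negative -/
theorem wtop0_cross {g : ℝ → ℝ} (hg : ∀ x > 0, ContinuousAt g x)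
    (h : ∀ x > 0, g x = 0 → deriv g x < 0) {a b : ℝ} (ha : 0 < a) (hab : a < b) (ga : g a < 0) :
    g b < 0 := by
  by_contra gb
  have hc : ContinuousOn g (Icc a b) := fun x hx => (hg x (ha.trans_le hx.1)).continuousWithinAt
  have hS : IsClosed (Icc a b ∩ g ⁻¹' Ici 0) :=
    hc.preimage_isClosed_of_isClosed isClosed_Icc isClosed_Ici
  have hK : IsCompact (Icc a b ∩ g ⁻¹' Ici 0) :=
    isCompact_Icc.of_isClosed_subset hS inter_subset_left
  obtain ⟨t, ⟨ht, gt⟩, hl⟩ := hK.exists_isLeast ⟨b, ⟨hab.le, le_rfl⟩, not_lt.1 gb⟩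
  have gt' : 0 ≤ g t := gt
  have hat : a < t := by
    refine lt_of_le_of_ne ht.1 ?_
    rintro rfl
    exact absurd ga (not_lt.2 gt')
  have t0 : 0 < t := ha.trans hat
  have e1 : ∀ᶠ y in 𝓝[<] t, 0 < g y := by
    rcases gt'.eq_or_lt with e | e
    · exact wtop0_left e.symm (h t t0 e.symm)
    · exact ((hg t t0).eventually (lt_mem_nhds e)).filter_mono nhdsWithin_le_nhds
  obtain ⟨y, y1, y2⟩ := (e1.and (Ioo_mem_nhdsLT hat)).exists
  exact absurd (hl ⟨⟨y2.1.le, y2.2.le.trans ht.2⟩, y1.le⟩) (not_le.2 y2.2)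

theorem wtop0_neg {g : ℝ → ℝ} (hg : ∀ x > 0, ContinuousAt g x)
    (h : ∀ x > 0, g x = 0 → deriv g x < 0) {x y : ℝ} (hx : 0 < x) (gx : g x = 0) (hy : x < y) :
    g y < 0 := by
  obtain ⟨a, a1, a2⟩ := ((wtop0_right gx (h x hx gx)).and (Ioo_mem_nhdsGT hy)).exists
  exact wtop0_cross hg h (hx.trans a2.1) a2.2 a1

theorem wtop0_pos {g : ℝ → ℝ} (hg : ∀ x > 0, ContinuousAt g x)
    (h : ∀ x > 0, g x = 0 → deriv g x < 0) {x y : ℝ} (hy : 0 < y) (gx : g x = 0) (hyx : y < x) :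
    0 < g y := by
  rcases lt_trichotomy (g y) 0 with e | e | e
  · exact absurd gx (wtop0_cross hg h hy hyx e).ne
  · exact absurd gx (wtop0_neg hg h hy e hyx).ne
  · exact e

theorem wtop0_both {f : ℝ → ℝ} {u v : ℝ} (huv : u < v) (h1 : StrictConvexOn ℝ (Icc u v) f)
    (h2 : StrictConcaveOn ℝ (Icc u v) f) : False := by
  have a := h1.2 (left_mem_Icc.2 huv.le) (right_mem_Icc.2 huv.le) huv.ne
    (one_half_pos) (one_half_pos) (add_halves 1)
  have b := h2.2 (left_mem_Icc.2 huv.le) (right_mem_Icc.2 huv.le) huv.ne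
    (one_half_pos) (one_half_pos) (add_halves 1)
  exact lt_asymm a b

theorem wtop0_zero {f : ℝ → ℝ} (hf : AnalyticOnNhd ℝ f (Ioi 0)) {y : ℝ} (hy : IsInflection f y) :
    0 < y ∧ deriv^[2] f y = 0 := by
  obtain ⟨ε, e0, e1, hy⟩ := hy
  have y0 : 0 < y := e0.trans e1
  have hg : ContinuousAt (deriv^[2] f) y := (hf.iterated_deriv 2 y y0).continuousAt
  refine ⟨y0, ?_⟩
  have loc : ∀ p : ℝ → Prop, (∀ᶠ t in 𝓝 y, p t) →
      ∃ δ, 0 < δ ∧ δ ≤ ε ∧ ∀ t ∈ Ioo (y - δ) (y + δ), p t := by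
    intro p hp
    obtain ⟨r, r0, hr⟩ := Metric.eventually_nhds_iff.1 hp
    refine ⟨min r ε, lt_min r0 e0, min_le_right _ _, fun t ht => hr ?_⟩
    rw [Real.dist_eq, abs_lt]
    have := min_le_left r ε
    constructor <;> linarith [ht.1, ht.2]
  have co : ∀ δ, δ ≤ ε → ContinuousOn f (Icc (y - δ) (y + δ)) := fun δ hδ =>
    hf.continuousOn.mono fun t ht => by
      have := ht.1
      show 0 < t
      linarith
  rcases lt_trichotomy (deriv^[2] f y) 0 with e | e | e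
  · exfalso
    obtain ⟨δ, d0, d1, hd⟩ := loc _ (hg.eventually (gt_mem_nhds e))
    have c := strictConcaveOn_of_deriv2_neg (convex_Icc _ _) (co δ d1)
      (by rwa [interior_Icc])
    rcases hy with ⟨k, _⟩ | ⟨_, k⟩
    · exact wtop0_both (u := y - δ) (v := y) (by linarith)
        (k.subset (Icc_subset_Icc (by linarith) le_rfl) (convex_Icc _ _))
        (c.subset (Icc_subset_Icc le_rfl (by linarith)) (convex_Icc _ _))
    · exact wtop0_both (u := y) (v := y + δ) (by linarith)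
        (k.subset (Icc_subset_Icc le_rfl (by linarith)) (convex_Icc _ _))
        (c.subset (Icc_subset_Icc (by linarith) le_rfl) (convex_Icc _ _))
  · exact e
  · exfalso
    obtain ⟨δ, d0, d1, hd⟩ := loc _ (hg.eventually (lt_mem_nhds e))
    have c := strictConvexOn_of_deriv2_pos (convex_Icc _ _) (co δ d1)
      (by rwa [interior_Icc])
    rcases hy with ⟨_, k⟩ | ⟨k, _⟩
    · exact wtop0_both (u := y) (v := y + δ) (by linarith)
        (c.subset (Icc_subset_Icc (by linarith) le_rfl) (convex_Icc _ _))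
        (k.subset (Icc_subset_Icc le_rfl (by linarith)) (convex_Icc _ _))
    · exact wtop0_both (u := y - δ) (v := y) (by linarith)
        (c.subset (Icc_subset_Icc le_rfl (by linarith)) (convex_Icc _ _))
        (k.subset (Icc_subset_Icc (by linarith) le_rfl) (convex_Icc _ _))

theorem unique_inflection {f : ℝ → ℝ} (hf : AnalyticOnNhd ℝ f (Ioi 0))
    (h : ∀ x > 0, deriv^[2] f x = 0 → deriv^[3] f x < 0) (hx : ∃ x, IsInflection f x) :
    ∃ x > 0, (∀ y, IsInflection f y ↔ y = x) ∧ StrictConvexOn ℝ (Ioc 0 x) f ∧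
      StrictConcaveOn ℝ (Ici x) f := by
  obtain ⟨x, hx⟩ := hx
  obtain ⟨x0, gx⟩ := wtop0_zero hf hx
  have hg : ∀ y > 0, ContinuousAt (deriv^[2] f) y := fun y hy =>
    (hf.iterated_deriv 2 y hy).continuousAt
  have h' : ∀ y > 0, deriv^[2] f y = 0 → deriv (deriv^[2] f) y < 0 := fun y hy e => by
    have := h y hy e
    rwa [Function.iterate_succ_apply'] at this
  refine ⟨x, x0, fun y => ⟨fun hy => ?_, fun e => e ▸ hx⟩, ?_, ?_⟩
  · obtain ⟨y0, gy⟩ := wtop0_zero hf hy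
    rcases lt_trichotomy y x with e | e | e
    · exact absurd gy (wtop0_pos hg h' y0 gx e).ne'
    · exact e
    · exact absurd gy (wtop0_neg hg h' x0 gx e).ne
  · refine strictConvexOn_of_deriv2_pos (convex_Ioc _ _)
      (hf.continuousOn.mono fun t ht => ht.1) ?_
    rw [interior_Ioc]
    exact fun y hy => wtop0_pos hg h' hy.1 gx hy.2
  · refine strictConcaveOn_of_deriv2_neg (convex_Ici _)
      (hf.continuousOn.mono fun t ht => x0.trans_le ht) ?_
    rw [interior_Ici]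
    exact fun y hy => wtop0_neg hg h' x0 gx hy

end Pool.Agent.HillD
end

-- part Pool.Agent.P.MP_ae2765_an.WTop
section

/-! The tangent line criterion and uniqueness of the inflection point. -/

namespace Pool.Agent.HillD
open Real Set Filter Topology Asymptotics

theorem wtop_43 : (fun τ : ℝ => τ ^ 4) =O[𝓝 0] fun τ : ℝ => τ ^ 3 :=
  (isLittleO_pow_pow (by norm_num)).isBigO

theorem wtop_taylor {f : ℝ → ℝ} {x : ℝ} (hf : AnalyticAt ℝ f x) (h2 : deriv^[2] f x = 0) :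
    (fun h => f (x + h) - (f x + deriv f x * h + deriv^[3] f x / 6 * h ^ 3)) =O[𝓝 0]
      fun h : ℝ => h ^ 4 := by
  refine ((hf.hasFPowerSeriesAt.isBigO_sub_partialSum_pow 4).congr_left fun h => ?_).trans
    (((isBigO_refl (fun h : ℝ => h) (𝓝 0)).norm_left).pow 4)
  simp only [FormalMultilinearSeries.partialSum, Finset.sum_range_succ, Finset.sum_range_zero,
    FormalMultilinearSeries.ofScalars_apply_eq, iteratedDeriv_eq_iterate, h2, smul_eq_mul]
  simp [Nat.factorial]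

theorem wtop_sand {u ϕ : ℝ → ℝ} {c0 c1 c2 : ℝ} (h : Sand u ϕ)
    (hu : u =O[𝓝 0] fun τ : ℝ => τ ^ 3) (hj : J2 ϕ c0 c1 c2) : c1 = 0 ∧ c2 = 0 := by
  obtain ⟨C, hC⟩ := h
  have h1 : (fun τ => ϕ τ - ϕ 0) =O[𝓝 0] u := IsBigO.of_bound C (hC.mono fun τ hτ => hτ.1)
  exact (hj.unique ((j2_const (ϕ 0)).of_sub (h1.trans hu))).2

theorem wtop_lim {g : ℝ → ℝ} {c : ℝ} (h : (fun τ => g τ - c * τ ^ 3) =O[𝓝 0] fun τ : ℝ => τ ^ 4) :
    Tendsto (fun τ => g τ / τ ^ 3) (𝓝[≠] 0) (𝓝 c) := by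
  have h1 := ((h.trans_isLittleO (isLittleO_pow_pow (show 3 < 4 by norm_num))
    ).tendsto_div_nhds_zero.mono_left (nhdsWithin_le_nhds (s := {0}ᶜ))).add_const c
  rw [zero_add] at h1
  refine h1.congr' (eventually_nhdsWithin_of_forall fun τ hτ => ?_)
  have : τ ≠ 0 := hτ
  field_simp
  ring

theorem tangent {f : ℝ → ℝ} {δ0 : ℝ} {typ : Bool} (hf : AnalyticAt ℝ f δ0) (hδ : 0 < δ0)
    (hp : 0 < f δ0) (h2 : deriv^[2] f δ0 = 0)
    (hloc : ∀ δ ω ϕ : ℝ → ℝ, δ 0 = δ0 → ω 0 = f δ0 → Rp typ δ ω ϕ →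
      Sand (fun τ => ω τ - f (δ τ)) ϕ)
    (hg : Good typ δ0 (f δ0) (δ0 * deriv f δ0 / f δ0)) : deriv^[3] f δ0 < 0 := by
  have hT := wtop_taylor hf h2
  set f3 := deriv^[3] f δ0
  rcases hg with ⟨ϕ, c0, c1, c2, c3, hR, hJ, hc⟩ | ⟨δ, ϕ, lam, c0, c1, c2, hd, hR, hJ, hc⟩
  · have hS := hloc _ _ ϕ (by simp) (by simp) hR
    have ht : Tendsto (fun τ : ℝ => δ0 * τ) (𝓝 0) (𝓝 0) := by
      simpa using (tendsto_id (x := 𝓝 (0 : ℝ))).const_mul δ0
    have hu : (fun τ => (f δ0 * (1 + δ0 * deriv f δ0 / f δ0 * τ) - f (δ0 * (1 + τ))) -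
        -(f3 / 6 * δ0 ^ 3) * τ ^ 3) =O[𝓝 0] fun τ : ℝ => τ ^ 4 := by
      refine ((hT.comp_tendsto ht).neg_left.congr_left fun τ => ?_).trans
        (((isBigO_refl (fun τ : ℝ => τ ^ 4) _).const_mul_left (δ0 ^ 4)).congr_left fun τ => ?_)
      · simp only [Function.comp, mul_add, mul_one]
        field_simp
        ring
      · simp only [Function.comp]
        ring
    have hu3 := (hu.trans wtop_43).add
      ((isBigO_refl (fun τ : ℝ => τ ^ 3) (𝓝 0)).const_mul_left (-(f3 / 6 * δ0 ^ 3)))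
    simp only [sub_add_cancel] at hu3
    obtain ⟨rfl, rfl⟩ := wtop_sand hS hu3 hJ.j2
    have h3 := hc rfl rfl
    have hϕ : (fun τ => ϕ τ - ϕ 0 - c3 * τ ^ 3) =O[𝓝 0] fun τ : ℝ => τ ^ 4 := by
      refine IsBigO.congr_left hJ fun τ => ?_
      rw [hJ.j2.val]
      simp only [RCLike.ofReal_real_eq_id, id]
      ring
    obtain ⟨C, hC⟩ := hS
    have l1 := wtop_lim hu
    have l2 := wtop_lim hϕ
    have hC' := hC.filter_mono (nhdsWithin_le_nhds (s := {0}ᶜ))
    have e1 : 0 ≤ c3 * -(f3 / 6 * δ0 ^ 3) := ge_of_tendsto (l2.mul l1) (hC'.mono fun τ hτ => by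
      rw [div_mul_div_comm]
      exact div_nonneg hτ.2 (mul_self_nonneg _))
    have e2 : |c3| ≤ C * |-(f3 / 6 * δ0 ^ 3)| :=
      le_of_tendsto_of_tendsto l2.abs (l1.abs.const_mul C) (hC'.mono fun τ hτ => by
        simp only [abs_div, ← mul_div_assoc]
        exact div_le_div_of_nonneg_right hτ.1 (abs_nonneg _))
    have hd3 : 0 < δ0 ^ 3 := by positivity
    rcases lt_trichotomy f3 0 with h | h | h
    · exact h
    · rw [h] at e2
      simp only [zero_div, zero_mul, neg_zero, abs_zero, mul_zero] at e2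
      exact absurd ((le_abs_self c3).trans e2) (not_le.2 h3)
    · have : 0 < c3 * (f3 / 6 * δ0 ^ 3) := by positivity
      linarith
  · have hS := hloc δ _ ϕ hd.val (by simp) hR
    have ht : Tendsto (fun τ => δ τ - δ0) (𝓝 0) (𝓝 0) := by
      simpa [hd.val] using hd.cont.tendsto.sub_const δ0
    have h3 : (fun τ => δ τ - δ0 - δ0 * lam * τ) =O[𝓝 0] fun τ : ℝ => τ ^ 3 := by
      refine IsBigO.congr_left hd fun τ => ?_
      simp only [RCLike.ofReal_real_eq_id, id]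
      ring
    have h1 : (fun τ => δ τ - δ0) =O[𝓝 0] fun τ : ℝ => τ := by
      have := (h3.trans (isLittleO_pow_id (𝕜 := ℝ) (show 1 < 3 by norm_num)).isBigO).add
        ((isBigO_refl (fun τ : ℝ => τ) (𝓝 0)).const_mul_left (δ0 * lam))
      simpa only [sub_add_cancel] using this
    have hu := ((((hT.comp_tendsto ht).trans (h1.pow 4)).trans wtop_43).neg_left.sub
      (h3.const_mul_left (deriv f δ0))).sub ((h1.pow 3).const_mul_left (f3 / 6))
    obtain ⟨e1, e2⟩ := wtop_sand hS (hu.congr_left fun τ => by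
      simp only [Function.comp, add_sub_cancel]
      field_simp
      ring) hJ
    exact absurd e2 (hc e1)

end Pool.Agent.HillD
end

-- part Pool.Agent.P.MP_ae2765_an.WBig
section

/-! Branches with index at least 31. -/

namespace Pool.Agent.HillD
open Real Set Filter Topology Asymptotics

theorem big_l {θ0 : ℝ} {l : ℕ} (hθ : θ0 = 0 ∨ θ0 = π / 2) (hl : 31 ≤ l) {δ : ℝ} (hδ : 0 < δ)
    (h2 : deriv^[2] (fun δ => cur θ0 l (mm δ)) δ = 0) :
    deriv^[3] (fun δ => cur θ0 l (mm δ)) δ < 0 := by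
  obtain ⟨typ, hloc⟩ := loc hθ (by omega : 1 ≤ l) hδ
  have hp : 0 < cur θ0 l (mm δ) := (cur_spec hθ (by omega) (mm_nonneg δ) (mm_lt δ)).1
  obtain ⟨s0, s1⟩ := slope_bd hθ (by omega : 2 ≤ l) hδ
  have s2 : δ ^ 2 / (1 + δ ^ 2) ≤ 1 := by
    rw [div_le_one (by positivity)]; linarith
  refine tangent ((isLine hθ (Or.inl (by omega))).1 δ hδ) hδ hp h2 hloc ?_
  rcases le_total (δ ^ 2) (cur θ0 l (mm δ)) with ht | ht
  · rcases le_total ((1 + δ ^ 2) ^ 2 / cur θ0 l (mm δ)) (23 / 5) with h | h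
    · exact r1_good1 typ hδ hp h (reg_b hθ hl hδ rfl ht h) s0 s1
    · exact r1_good2 typ hδ hp ht h (reg_a hθ hl hδ rfl ht) s0 s1
  · have hc := reg_c hθ hl hδ rfl ht
    rcases reg_e hδ ht hc (reg_d hθ hl hδ rfl) with h | h
    · exact p3_good typ hδ h.1 h.2 s0 (s1.trans s2)
    · exact c2_good typ hδ ht hc h.1 h.2 s0 (s1.trans s2)

end Pool.Agent.HillD
end
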